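import Pool.Agent.Lib.MP_9b9638_an.Defs

/-!
# Calculus of partial derivatives, curl and divergence on `ℝ³`
-/

open MeasureTheory Set Filter Topology TopologicalSpace

noncomputable section

namespace Leray

/-! ### pointwise rules -/

theorem pd_add_at {i : Fin 3} {f g : E → ℝ} {x : E} (hf : DifferentiableAt ℝ f x)
    (hg : DifferentiableAt ℝ g x) : pd i (fun y => f y + g y) x = pd i f x + pd i g x := by
  unfold pd
  rw [fderiv_fun_add hf hg]; rfl

theorem pd_sub_at {i : Fin 3} {f g : E → ℝ} {x : E} (hf : DifferentiableAt ℝ f x)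
    (hg : DifferentiableAt ℝ g x) : pd i (fun y => f y - g y) x = pd i f x - pd i g x := by
  unfold pd
  rw [fderiv_fun_sub hf hg]; rfl

theorem pd_mul_at {i : Fin 3} {f g : E → ℝ} {x : E} (hf : DifferentiableAt ℝ f x)
    (hg : DifferentiableAt ℝ g x) :
    pd i (fun y => f y * g y) x = pd i f x * g x + f x * pd i g x := by
  unfold pd
  rw [fderiv_fun_mul hf hg]
  simp only [_root_.add_apply, _root_.smul_apply, smul_eq_mul]
  ring

theorem pd_const_mul_at {i : Fin 3} {f : E → ℝ} {x : E} (c : ℝ) (hf : DifferentiableAt ℝ f x) :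
    pd i (fun y => c * f y) x = c * pd i f x := by
  unfold pd
  rw [fderiv_const_mul hf]
  simp

theorem pd_neg_at {i : Fin 3} {f : E → ℝ} {x : E} : pd i (fun y => - f y) x = - pd i f x := by
  unfold pd
  rw [fderiv_fun_neg]; rfl

theorem pd_const {i : Fin 3} (c : ℝ) (x : E) : pd i (fun _ => c) x = 0 := by
  unfold pd; simp

theorem pd_sum_at {i : Fin 3} {ι : Type*} {s : Finset ι} {f : ι → E → ℝ} {x : E}
    (hf : ∀ k ∈ s, DifferentiableAt ℝ (f k) x) :
    pd i (fun y => ∑ k ∈ s, f k y) x = ∑ k ∈ s, pd i (f k) x := by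
  unfold pd
  rw [fderiv_fun_sum hf]
  simp

theorem pd_pow_at {i : Fin 3} {f : E → ℝ} {x : E} (n : ℕ) (hf : DifferentiableAt ℝ f x) :
    pd i (fun y => f y ^ n) x = n * f x ^ (n - 1) * pd i f x := by
  unfold pd
  rw [fderiv_fun_pow n hf]
  simp [nsmul_eq_mul]

theorem pd_comp_at {i : Fin 3} {f : E → ℝ} {h : ℝ → ℝ} {x : E} (hh : DifferentiableAt ℝ h (f x))
    (hf : DifferentiableAt ℝ f x) :
    pd i (fun y => h (f y)) x = deriv h (f x) * pd i f x := by
  unfold pd
  have h1 : HasFDerivAt (fun y => h (f y)) (deriv h (f x) • fderiv ℝ f x) x :=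
    hh.hasDerivAt.comp_hasFDerivAt x hf.hasFDerivAt
  rw [h1.fderiv]; simp

theorem pd_congr_at {i : Fin 3} {f g : E → ℝ} {x : E} (h : f =ᶠ[𝓝 x] g) : pd i f x = pd i g x := by
  unfold pd; rw [h.fderiv_eq]

/-- coordinates -/
theorem differentiable_coord (j : Fin 3) : Differentiable ℝ (fun y : E => y j) := by fun_prop

theorem contDiff_coord (j : Fin 3) {n : WithTop ℕ∞} : ContDiff ℝ n (fun y : E => y j) := by fun_prop

theorem pd_coord (i j : Fin 3) (x : E) : pd i (fun y : E => y j) x = if i = j then 1 else 0 := by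
  unfold pd
  have h : HasFDerivAt (fun y : E => y j) (EuclideanSpace.proj j : E →L[ℝ] ℝ) x :=
    (EuclideanSpace.proj j : E →L[ℝ] ℝ).hasFDerivAt
  rw [h.fderiv]
  simp [ei, eq_comm]

/-! ### global versions -/

theorem pd_add {i : Fin 3} {f g : E → ℝ} (hf : Differentiable ℝ f) (hg : Differentiable ℝ g) (x : E) :
    pd i (fun y => f y + g y) x = pd i f x + pd i g x := pd_add_at (hf x) (hg x)
theorem pd_sub {i : Fin 3} {f g : E → ℝ} (hf : Differentiable ℝ f) (hg : Differentiable ℝ g) (x : E) :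
    pd i (fun y => f y - g y) x = pd i f x - pd i g x := pd_sub_at (hf x) (hg x)
theorem pd_mul {i : Fin 3} {f g : E → ℝ} (hf : Differentiable ℝ f) (hg : Differentiable ℝ g) (x : E) :
    pd i (fun y => f y * g y) x = pd i f x * g x + f x * pd i g x := pd_mul_at (hf x) (hg x)
theorem pd_const_mul {i : Fin 3} {f : E → ℝ} (c : ℝ) (hf : Differentiable ℝ f) (x : E) :
    pd i (fun y => c * f y) x = c * pd i f x := pd_const_mul_at c (hf x)

theorem contDiff_pd {i : Fin 3} {f : E → ℝ} {n m : WithTop ℕ∞} (hf : ContDiff ℝ n f) (h : m + 1 ≤ n) :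
    ContDiff ℝ m (pd i f) := by
  unfold pd
  exact (hf.fderiv_right h).clm_apply contDiff_const

theorem continuous_pd {i : Fin 3} {f : E → ℝ} (hf : ContDiff ℝ 1 f) : Continuous (pd i f) :=
  (contDiff_pd (m := 0) hf (by norm_num)).continuous

theorem pd_comm {i j : Fin 3} {f : E → ℝ} (hf : ContDiff ℝ 2 f) (x : E) :
    pd i (pd j f) x = pd j (pd i f) x := by
  have h1 : DifferentiableAt ℝ (fderiv ℝ f) x :=
    ((hf.fderiv_right (m := 1) (by norm_num)).differentiable (by norm_num)) x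
  have key : ∀ u v : E, fderiv ℝ (fun y => fderiv ℝ f y u) x v = fderiv ℝ (fderiv ℝ f) x v u := by
    intro u v
    rw [fderiv_clm_apply h1 (differentiableAt_const u)]
    simp
  have hsym : IsSymmSndFDerivAt ℝ f x :=
    (hf.contDiffAt).isSymmSndFDerivAt (by simp)
  unfold pd
  rw [key, key]
  exact hsym.eq _ _

/-! ### supports -/

theorem tsupport_pd {i : Fin 3} (f : E → ℝ) : tsupport (pd i f) ⊆ tsupport f := by
  refine closure_minimal ?_ (isClosed_tsupport f)
  intro x hx
  by_contra hx'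
  apply hx
  unfold pd
  have : fderiv ℝ f x = 0 := by
    have h := support_fderiv_subset ℝ (f := f)
    by_contra h0
    exact hx' (h h0)
  rw [this]; rfl

theorem hasCompactSupport_pd {i : Fin 3} {f : E → ℝ} (hf : HasCompactSupport f) :
    HasCompactSupport (pd i f) :=
  hf.of_isClosed_subset (isClosed_tsupport _) (tsupport_pd f)

theorem hcs_sq {f : E → ℝ} (hf : HasCompactSupport f) : HasCompactSupport (fun x => f x ^ 2) :=
  hf.comp_left (g := fun t : ℝ => t ^ 2) (by simp)

theorem pd_eq_zero_of_eventually {i : Fin 3} {f : E → ℝ} {x : E} (h : f =ᶠ[𝓝 x] fun _ => 0) :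
    pd i f x = 0 := by
  rw [pd_congr_at h, pd_const]

/-! ### integration by parts -/

theorem integrable_of_cc {f : E → ℝ} (hf : Continuous f) (hc : HasCompactSupport f) : Integrable f :=
  hf.integrable_of_hasCompactSupport hc

theorem int_pd_zero {i : Fin 3} {f : E → ℝ} (hf : ContDiff ℝ 1 f) (hc : HasCompactSupport f) :
    ∫ x, pd i f x = 0 := by
  have h := integral_mul_fderiv_eq_neg_fderiv_mul_of_integrable (μ := (volume : Measure E))
    (f := fun _ : E => (1 : ℝ)) (g := f) (v := ei i)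
    (by simp)
    (by simp only [one_mul]; exact integrable_of_cc (continuous_pd (i := i) hf) (hasCompactSupport_pd hc))
    (by simpa using integrable_of_cc hf.continuous hc)
    (fun x _ => differentiableAt_const _) (fun x _ => (hf.differentiable (by norm_num)) x)
  simpa [pd] using h

theorem int_pd_mul' {i : Fin 3} {f g : E → ℝ} (hf : ContDiff ℝ 1 f) (hg : ContDiff ℝ 1 g)
    (hc : HasCompactSupport (fun x => f x * g x)) : ∫ x, pd i f x * g x = - ∫ x, f x * pd i g x := by
  have h := int_pd_zero (i := i) (hf.mul hg) hc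
  have hd : ∀ x, pd i (fun x => f x * g x) x = pd i f x * g x + f x * pd i g x :=
    fun x => pd_mul (hf.differentiable (by norm_num)) (hg.differentiable (by norm_num)) x
  by_cases hI : Integrable (fun x => pd i f x * g x)
  · have hI2 : Integrable (fun x => f x * pd i g x) := by
      have h3 : Integrable (pd i (fun x => f x * g x)) :=
        integrable_of_cc (continuous_pd (hf.mul hg)) (hasCompactSupport_pd hc)
      have h4 : (fun x => f x * pd i g x) = fun x => pd i (fun x => f x * g x) x - pd i f x * g x := by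
        funext x; rw [hd]; ring
      rw [h4]; exact h3.sub hI
    have h5 : ∫ x, pd i (fun x => f x * g x) x = (∫ x, pd i f x * g x) + ∫ x, f x * pd i g x := by
      rw [← integral_add hI hI2]; congr 1; funext x; exact hd x
    linarith [h5.symm.trans h]
  · have hI2 : ¬ Integrable (fun x => f x * pd i g x) := by
      intro h2
      apply hI
      have h3 : Integrable (pd i (fun x => f x * g x)) :=
        integrable_of_cc (continuous_pd (hf.mul hg)) (hasCompactSupport_pd hc)
      have h4 : (fun x => pd i f x * g x) = fun x => pd i (fun x => f x * g x) x - f x * pd i g x := by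
        funext x; rw [hd]; ring
      rw [h4]; exact h3.sub h2
    rw [integral_undef hI, integral_undef hI2]; simp

/-- integration by parts -/
theorem int_pd_mul {i : Fin 3} {f g : E → ℝ} (hf : ContDiff ℝ 1 f) (hg : ContDiff ℝ 1 g)
    (hc : HasCompactSupport g) : ∫ x, pd i f x * g x = - ∫ x, f x * pd i g x :=
  int_pd_mul' hf hg (hc.mul_left)

/-! ### curl and divergence -/

theorem contDiff_curl {F : VF} {n m : WithTop ℕ∞} (hF : ∀ i, ContDiff ℝ n (F i)) (h : m + 1 ≤ n) (i : Fin 3) :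
    ContDiff ℝ m (curl F i) := by
  unfold curl
  exact (contDiff_pd (hF _) h).sub (contDiff_pd (hF _) h)

theorem contDiff_dv {F : VF} {n m : WithTop ℕ∞} (hF : ∀ i, ContDiff ℝ n (F i)) (h : m + 1 ≤ n) :
    ContDiff ℝ m (dv F) := by
  unfold dv
  exact ContDiff.sum fun i _ => contDiff_pd (hF i) h

theorem hasCompactSupport_curl {F : VF} (hF : ∀ i, HasCompactSupport (F i)) (i : Fin 3) :
    HasCompactSupport (curl F i) := by
  unfold curl
  exact (hasCompactSupport_pd (hF _)).sub (hasCompactSupport_pd (hF _))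

theorem fin3_add (i : Fin 3) : i + 1 + 1 = i + 2 ∧ i + 1 + 2 = i ∧ i + 2 + 1 = i ∧ i + 2 + 2 = i + 1 := by
  fin_cases i <;> decide

/-- sum over `Fin 3` in cyclic order starting anywhere -/
theorem sum_cyc (f : Fin 3 → ℝ) (i : Fin 3) : ∑ j, f j = f i + f (i + 1) + f (i + 2) := by
  fin_cases i <;> simp [Fin.sum_univ_three] <;> first | rfl | ring_nf

/-! ### elementary algebra of `sq`, `nm`, `cr`, `dot` -/

theorem sq_nonneg' (F : VF) (x : E) : 0 ≤ sq F x := by
  unfold sq; positivity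

theorem nm_nonneg (F : VF) (x : E) : 0 ≤ nm F x := Real.sqrt_nonneg _

theorem nm_sq (F : VF) (x : E) : nm F x ^ 2 = sq F x := Real.sq_sqrt (sq_nonneg' F x)

theorem gsq_nonneg (F : VF) (x : E) : 0 ≤ gsq F x := by
  unfold gsq; positivity

theorem gnm_nonneg (F : VF) (x : E) : 0 ≤ gnm F x := Real.sqrt_nonneg _

theorem gnm_sq (F : VF) (x : E) : gnm F x ^ 2 = gsq F x := Real.sq_sqrt (gsq_nonneg F x)

theorem abs_le_nm (F : VF) (i : Fin 3) (x : E) : |F i x| ≤ nm F x := by
  apply Real.abs_le_sqrt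
  unfold sq
  exact Finset.single_le_sum (f := fun i => F i x ^ 2) (fun j _ => by positivity) (Finset.mem_univ i)

theorem abs_pd_le_gnm (F : VF) (i j : Fin 3) (x : E) : |pd i (F j) x| ≤ gnm F x := by
  apply Real.abs_le_sqrt
  unfold gsq
  refine le_trans ?_ (Finset.single_le_sum (f := fun i => ∑ j, pd i (F j) x ^ 2)
    (fun j _ => by positivity) (Finset.mem_univ i))
  exact Finset.single_le_sum (f := fun j => pd i (F j) x ^ 2) (fun j _ => by positivity) (Finset.mem_univ j)

theorem abs_dot_le (F G : VF) (x : E) : |dot F G x| ≤ nm F x * nm G x := by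
  unfold dot nm sq
  rw [← Real.sqrt_mul (by positivity)]
  apply Real.abs_le_sqrt
  exact Finset.sum_mul_sq_le_sq_mul_sq _ _ _

theorem sq_cr (F G : VF) (x : E) : sq (cr F G) x = sq F x * sq G x - dot F G x ^ 2 := by
  unfold sq cr dot
  simp only [Fin.sum_univ_three]
  have e1 : (0 : Fin 3) + 1 = 1 := rfl
  have e2 : (0 : Fin 3) + 2 = 2 := rfl
  have e3 : (1 : Fin 3) + 1 = 2 := rfl
  have e4 : (1 : Fin 3) + 2 = 0 := rfl
  have e5 : (2 : Fin 3) + 1 = 0 := rfl
  have e6 : (2 : Fin 3) + 2 = 1 := rfl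
  rw [e1, e2, e3, e4, e5, e6]
  ring

theorem nm_cr_le (F G : VF) (x : E) : nm (cr F G) x ≤ nm F x * nm G x := by
  unfold nm
  rw [← Real.sqrt_mul (sq_nonneg' F x)]
  apply Real.sqrt_le_sqrt
  rw [sq_cr]
  nlinarith [sq_nonneg (dot F G x)]

theorem dot_cr_self (F G : VF) (x : E) : dot (cr F G) G x = 0 := by
  unfold cr dot
  simp only [Fin.sum_univ_three]
  have e1 : (0 : Fin 3) + 1 = 1 := rfl
  have e2 : (0 : Fin 3) + 2 = 2 := rfl
  have e3 : (1 : Fin 3) + 1 = 2 := rfl
  have e4 : (1 : Fin 3) + 2 = 0 := rfl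
  have e5 : (2 : Fin 3) + 1 = 0 := rfl
  have e6 : (2 : Fin 3) + 2 = 1 := rfl
  rw [e1, e2, e3, e4, e5, e6]
  ring

/-- `(A × B)·C = A·(B × C)` -/
theorem dot_cr (A B C : VF) (x : E) : dot (cr A B) C x = dot A (cr B C) x := by
  unfold cr dot
  simp only [Fin.sum_univ_three]
  have e1 : (0 : Fin 3) + 1 = 1 := rfl
  have e2 : (0 : Fin 3) + 2 = 2 := rfl
  have e3 : (1 : Fin 3) + 1 = 2 := rfl
  have e4 : (1 : Fin 3) + 2 = 0 := rfl
  have e5 : (2 : Fin 3) + 1 = 0 := rfl
  have e6 : (2 : Fin 3) + 2 = 1 := rfl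
  rw [e1, e2, e3, e4, e5, e6]
  ring

theorem dot_comm' (A B : VF) (x : E) : dot A B x = dot B A x := by
  unfold dot; congr 1; funext i; ring

theorem continuous_sq {F : VF} (hF : ∀ i, Continuous (F i)) : Continuous (sq F) := by
  unfold sq
  exact continuous_finsetSum _ fun i _ => (hF i).pow 2

theorem continuous_nm {F : VF} (hF : ∀ i, Continuous (F i)) : Continuous (nm F) :=
  (continuous_sq hF).sqrt

theorem continuous_dot {F G : VF} (hF : ∀ i, Continuous (F i)) (hG : ∀ i, Continuous (G i)) :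
    Continuous (dot F G) := by
  unfold dot
  exact continuous_finsetSum _ fun i _ => (hF i).mul (hG i)

theorem continuous_gsq {F : VF} (hF : ∀ i, ContDiff ℝ 1 (F i)) : Continuous (gsq F) := by
  unfold gsq
  exact continuous_finsetSum _ fun i _ => continuous_finsetSum _ fun j _ => (continuous_pd (hF j)).pow 2

theorem continuous_gnm {F : VF} (hF : ∀ i, ContDiff ℝ 1 (F i)) : Continuous (gnm F) :=
  (continuous_gsq hF).sqrt

theorem continuous_curl {F : VF} (hF : ∀ i, ContDiff ℝ 1 (F i)) (i : Fin 3) : Continuous (curl F i) := by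
  unfold curl
  exact (continuous_pd (hF _)).sub (continuous_pd (hF _))

theorem continuous_cr {F G : VF} (hF : ∀ i, Continuous (F i)) (hG : ∀ i, Continuous (G i)) (i : Fin 3) :
    Continuous (cr F G i) := by
  unfold cr
  exact ((hF _).mul (hG _)).sub ((hF _).mul (hG _))

/-! ### identities for the curl -/

/-- `curl (φF) = φ curl F + ∇φ × F` -/
theorem curl_sm {φ : E → ℝ} {F : VF} (hφ : Differentiable ℝ φ) (hF : ∀ i, Differentiable ℝ (F i))
    (i : Fin 3) (x : E) : curl (sm φ F) i x = φ x * curl F i x + cr (grad φ) F i x := by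
  unfold curl sm cr grad
  rw [pd_mul hφ (hF _), pd_mul hφ (hF _)]
  ring

theorem dv_sm {φ : E → ℝ} {F : VF} (hφ : Differentiable ℝ φ) (hF : ∀ i, Differentiable ℝ (F i))
    (x : E) : dv (sm φ F) x = φ x * dv F x + dot (grad φ) F x := by
  unfold dv sm dot grad
  simp only [pd_mul hφ (hF _)]
  rw [Finset.sum_add_distrib, ← Finset.mul_sum]
  ring

theorem dv_curl {F : VF} (hF : ∀ i, ContDiff ℝ 2 (F i)) (x : E) : dv (curl F) x = 0 := by
  have hd : ∀ i j, Differentiable ℝ (pd i (F j)) := fun i j =>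
    (contDiff_pd (m := 1) (hF j) (by norm_num)).differentiable (by norm_num)
  unfold dv curl
  simp only [pd_sub (hd _ _) (hd _ _)]
  simp only [Fin.sum_univ_three]
  have e1 : (0 : Fin 3) + 1 = 1 := rfl
  have e2 : (0 : Fin 3) + 2 = 2 := rfl
  have e3 : (1 : Fin 3) + 1 = 2 := rfl
  have e4 : (1 : Fin 3) + 2 = 0 := rfl
  have e5 : (2 : Fin 3) + 1 = 0 := rfl
  have e6 : (2 : Fin 3) + 2 = 1 := rfl
  rw [e1, e2, e3, e4, e5, e6]
  rw [pd_comm (i := 1) (j := 0) (hF 2), pd_comm (i := 2) (j := 0) (hF 1), pd_comm (i := 2) (j := 1) (hF 0)]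
  ring

theorem curl_grad {f : E → ℝ} (hf : ContDiff ℝ 2 f) (i : Fin 3) (x : E) : curl (grad f) i x = 0 := by
  unfold curl grad
  rw [pd_comm hf]; ring

/-- `curl curl F = ∇ div F - ΔF` -/
theorem curl_curl {F : VF} (hF : ∀ i, ContDiff ℝ 2 (F i)) (i : Fin 3) (x : E) :
    curl (curl F) i x = pd i (dv F) x - lap (F i) x := by
  have hd : ∀ i j, Differentiable ℝ (pd i (F j)) := fun i j =>
    (contDiff_pd (m := 1) (hF j) (by norm_num)).differentiable (by norm_num)
  have h1 : pd i (dv F) x = ∑ j, pd i (pd j (F j)) x := by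
    unfold dv
    exact pd_sum_at fun j _ => hd _ _ x
  rw [h1]
  unfold curl lap
  rw [pd_sub (hd _ _) (hd _ _), pd_sub (hd _ _) (hd _ _)]
  rw [sum_cyc (fun j => pd i (pd j (F j)) x) i, sum_cyc (fun j => pd j (pd j (F i)) x) i]
  obtain ⟨f1, f2, f3, f4⟩ := fin3_add i
  rw [f1, f2, f3, f4]
  rw [pd_comm (i := i + 1) (j := i) (hF (i + 1)), pd_comm (i := i + 2) (j := i) (hF (i + 2))]
  ring

theorem int_six {a b c d e f : E → ℝ} (ha : Integrable a) (hb : Integrable b) (hc : Integrable c)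
    (hd : Integrable d) (he : Integrable e) (hf : Integrable f) :
    ∫ x, ((a x - b x) + (c x - d x) + (e x - f x))
      = ((∫ x, a x) - ∫ x, b x) + ((∫ x, c x) - ∫ x, d x) + ((∫ x, e x) - ∫ x, f x) := by
  have h1 : Integrable (fun x => a x - b x) := ha.sub hb
  have h2 : Integrable (fun x => c x - d x) := hc.sub hd
  have h3 : Integrable (fun x => e x - f x) := he.sub hf
  have h4 : Integrable (fun x => (a x - b x) + (c x - d x)) := h1.add h2
  rw [integral_add h4 h3, integral_add h1 h2, integral_sub ha hb, integral_sub hc hd, integral_sub he hf]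

theorem int_curl_dot' {F G : VF} (hF : ∀ i, ContDiff ℝ 1 (F i)) (hG : ∀ i, ContDiff ℝ 1 (G i))
    (hc : ∀ i, HasCompactSupport (G i)) : ∫ x, dot (curl F) G x = ∫ x, dot F (curl G) x := by
  have I1 : ∀ i j k, Integrable (fun x => pd i (F j) x * G k x) := fun i j k =>
    integrable_of_cc ((continuous_pd (hF j)).mul (hG k).continuous) ((hc k).mul_left)
  have I2 : ∀ i j k, Integrable (fun x => F i x * pd j (G k) x) := fun i j k =>
    integrable_of_cc ((hF i).continuous.mul (continuous_pd (hG k))) ((hasCompactSupport_pd (hc k)).mul_left)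
  have e1 : (0 : Fin 3) + 1 = 1 := rfl
  have e2 : (0 : Fin 3) + 2 = 2 := rfl
  have e3 : (1 : Fin 3) + 1 = 2 := rfl
  have e4 : (1 : Fin 3) + 2 = 0 := rfl
  have e5 : (2 : Fin 3) + 1 = 0 := rfl
  have e6 : (2 : Fin 3) + 2 = 1 := rfl
  have hL : ∀ x, dot (curl F) G x = (pd 1 (F 2) x * G 0 x - pd 2 (F 1) x * G 0 x)
      + (pd 2 (F 0) x * G 1 x - pd 0 (F 2) x * G 1 x) + (pd 0 (F 1) x * G 2 x - pd 1 (F 0) x * G 2 x) := by
    intro x
    unfold dot curl
    simp only [Fin.sum_univ_three]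
    rw [e1, e2, e3, e4, e5, e6]; ring
  have hR : ∀ x, dot F (curl G) x = (F 0 x * pd 1 (G 2) x - F 0 x * pd 2 (G 1) x)
      + (F 1 x * pd 2 (G 0) x - F 1 x * pd 0 (G 2) x) + (F 2 x * pd 0 (G 1) x - F 2 x * pd 1 (G 0) x) := by
    intro x
    unfold dot curl
    simp only [Fin.sum_univ_three]
    rw [e1, e2, e3, e4, e5, e6]; ring
  simp only [hL, hR]
  rw [int_six (I1 1 2 0) (I1 2 1 0) (I1 2 0 1) (I1 0 2 1) (I1 0 1 2) (I1 1 0 2),
    int_six (I2 0 1 2) (I2 0 2 1) (I2 1 2 0) (I2 1 0 2) (I2 2 0 1) (I2 2 1 0)]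
  simp only [int_pd_mul (hF _) (hG _) (hc _)]
  ring

/-- `∫ ∂_iF_i ∂_jG_j = ∫ ∂_iF_j... `: exchanging derivatives -/
theorem int_pd_pd {f g : E → ℝ} (hf : ContDiff ℝ 2 f) (hg : ContDiff ℝ 2 g) (hc : HasCompactSupport g)
    (i j : Fin 3) : ∫ x, pd i f x * pd j g x = ∫ x, pd j f x * pd i g x := by
  rw [int_pd_mul (hf.of_le (by norm_num)) (contDiff_pd (m := 1) hg (by norm_num)) (hasCompactSupport_pd hc)]
  rw [int_pd_mul (hf.of_le (by norm_num)) (contDiff_pd (m := 1) hg (by norm_num)) (hasCompactSupport_pd hc)]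
  simp only [pd_comm (i := i) (j := j) hg]

/-- `∫|∇F|² = ∫|curl F|² + ∫|div F|²` -/
theorem int_gsq {F : VF} (hF : ∀ i, ContDiff ℝ 2 (F i)) (hc : ∀ i, HasCompactSupport (F i)) :
    ∫ x, gsq F x = (∫ x, sq (curl F) x) + ∫ x, dv F x ^ 2 := by
  have hF1 : ∀ i, ContDiff ℝ 1 (F i) := fun i => (hF i).of_le (by norm_num)
  have I : ∀ i j k l, Integrable (fun x => pd i (F j) x * pd k (F l) x) := fun i j k l =>
    integrable_of_cc ((continuous_pd (hF1 j)).mul (continuous_pd (hF1 l))) ((hasCompactSupport_pd (hc l)).mul_left)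
  have e1 : (0 : Fin 3) + 1 = 1 := rfl
  have e2 : (0 : Fin 3) + 2 = 2 := rfl
  have e3 : (1 : Fin 3) + 1 = 2 := rfl
  have e4 : (1 : Fin 3) + 2 = 0 := rfl
  have e5 : (2 : Fin 3) + 1 = 0 := rfl
  have e6 : (2 : Fin 3) + 2 = 1 := rfl
  -- difference
  have key : ∀ x, gsq F x - (sq (curl F) x + dv F x ^ 2)
      = ((2 * (pd 1 (F 2) x * pd 2 (F 1) x) - 2 * (pd 1 (F 1) x * pd 2 (F 2) x))
        + (2 * (pd 2 (F 0) x * pd 0 (F 2) x) - 2 * (pd 0 (F 0) x * pd 2 (F 2) x))
        + (2 * (pd 0 (F 1) x * pd 1 (F 0) x) - 2 * (pd 0 (F 0) x * pd 1 (F 1) x))) := by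
    intro x
    unfold gsq sq curl dv
    simp only [Fin.sum_univ_three]
    rw [e1, e2, e3, e4, e5, e6]; ring
  have hsq : Integrable (sq (curl F)) := by
    apply integrable_of_cc (continuous_sq (continuous_curl hF1))
    unfold sq
    simp only [Fin.sum_univ_three]
    have h : ∀ i, HasCompactSupport (fun x => curl F i x ^ 2) := fun i =>
      hcs_sq (hasCompactSupport_curl hc i)
    exact ((h 0).add (h 1)).add (h 2)
  have hdv : Integrable (fun x => dv F x ^ 2) := by
    apply integrable_of_cc (((contDiff_dv (m := 0) hF1 (by norm_num)).continuous).pow 2)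
    have h : HasCompactSupport (dv F) := by
      unfold dv
      simp only [Fin.sum_univ_three]
      exact ((hasCompactSupport_pd (hc 0)).add (hasCompactSupport_pd (hc 1))).add (hasCompactSupport_pd (hc 2))
    exact hcs_sq h
  have hg : Integrable (gsq F) := by
    apply integrable_of_cc (continuous_gsq hF1)
    unfold gsq
    simp only [Fin.sum_univ_three]
    have h : ∀ i j, HasCompactSupport (fun x => pd i (F j) x ^ 2) := fun i j =>
      hcs_sq (hasCompactSupport_pd (i := i) (hc j))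
    exact (((((h 0 0).add (h 0 1)).add (h 0 2)).add (((h 1 0).add (h 1 1)).add (h 1 2)))).add
      (((h 2 0).add (h 2 1)).add (h 2 2))
  have hsum : Integrable (fun x => sq (curl F) x + dv F x ^ 2) := hsq.add hdv
  have h0 : ∫ x, (gsq F x - (sq (curl F) x + dv F x ^ 2)) = 0 := by
    simp only [key]
    rw [int_six ((I 1 2 2 1).const_mul 2) ((I 1 1 2 2).const_mul 2) ((I 2 0 0 2).const_mul 2)
      ((I 0 0 2 2).const_mul 2) ((I 0 1 1 0).const_mul 2) ((I 0 0 1 1).const_mul 2)]
    simp only [integral_const_mul]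
    have p1 : ∫ x, pd 1 (F 2) x * pd 2 (F 1) x = ∫ x, pd 1 (F 1) x * pd 2 (F 2) x := by
      rw [int_pd_pd (hF 2) (hF 1) (hc 1)]
      congr 1; funext x; ring
    have p2 : ∫ x, pd 2 (F 0) x * pd 0 (F 2) x = ∫ x, pd 0 (F 0) x * pd 2 (F 2) x := by
      rw [int_pd_pd (hF 0) (hF 2) (hc 2)]
    have p3 : ∫ x, pd 0 (F 1) x * pd 1 (F 0) x = ∫ x, pd 0 (F 0) x * pd 1 (F 1) x := by
      rw [int_pd_pd (hF 1) (hF 0) (hc 0)]
      congr 1; funext x; ring
    rw [p1, p2, p3]; ring
  rw [integral_sub hg hsum, integral_add hsq hdv] at h0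
  linarith

theorem int_curl_dot {F G : VF} (hF : ∀ i, ContDiff ℝ 1 (F i)) (hG : ∀ i, ContDiff ℝ 1 (G i))
    (hc : ∀ i, HasCompactSupport (G i)) : ∫ x, dot (curl F) G x = ∫ x, dot F (curl G) x :=
  int_curl_dot' hF hG hc

end Leray
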