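import Pool.Agent.Lib.MP_9b9638_an.Sob

/-!
# Smooth cutoff functions
-/

open MeasureTheory Set Filter Topology TopologicalSpace

noncomputable section

namespace Leray

/-- the shell `r ≤ |x| ≤ s` -/
def Sh (r s : ℝ) : Set E := {x | r ≤ ‖x‖ ∧ ‖x‖ ≤ s}

theorem isClosed_Sh (r s : ℝ) : IsClosed (Sh r s) :=
  (isClosed_le continuous_const continuous_norm).inter (isClosed_le continuous_norm continuous_const)

theorem measurableSet_Sh (r s : ℝ) : MeasurableSet (Sh r s) := (isClosed_Sh r s).measurableSet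

theorem isCompact_Sh (r s : ℝ) : IsCompact (Sh r s) := by
  apply (isCompact_closedBall (0 : E) s).of_isClosed_subset (isClosed_Sh r s)
  intro x hx
  simpa using hx.2

theorem bounded_of_zero_outside {f : ℝ → ℝ} (hf : Continuous f) (h0 : ∀ t, t < 0 ∨ 1 < t → f t = 0) :
    ∃ C : ℝ, 0 < C ∧ ∀ t, |f t| ≤ C := by
  obtain ⟨C, hC⟩ := (isCompact_Icc (a := (0 : ℝ)) (b := 1)).exists_bound_of_continuousOn hf.continuousOn
  refine ⟨max C 1, by positivity, fun t => ?_⟩
  by_cases ht : t < 0 ∨ 1 < t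
  · rw [h0 t ht]; simp
  · push Not at ht
    exact (hC t ⟨ht.1, ht.2⟩).trans (le_max_left _ _)

theorem st_deriv_zero {t : ℝ} (ht : t < 0 ∨ 1 < t) : deriv Real.smoothTransition t = 0 := by
  rcases ht with ht | ht
  · have : Real.smoothTransition =ᶠ[𝓝 t] fun _ => 0 := by
      filter_upwards [Iio_mem_nhds ht] with s hs
      exact Real.smoothTransition.zero_of_nonpos (le_of_lt hs)
    rw [this.deriv_eq]; simp
  · have : Real.smoothTransition =ᶠ[𝓝 t] fun _ => 1 := by
      filter_upwards [Ioi_mem_nhds ht] with s hs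
      exact Real.smoothTransition.one_of_one_le (le_of_lt hs)
    rw [this.deriv_eq]; simp

theorem st_deriv2_zero {t : ℝ} (ht : t < 0 ∨ 1 < t) : deriv (deriv Real.smoothTransition) t = 0 := by
  have : deriv Real.smoothTransition =ᶠ[𝓝 t] fun _ => 0 := by
    rcases ht with ht | ht
    · filter_upwards [Iio_mem_nhds ht] with s hs using st_deriv_zero (Or.inl hs)
    · filter_upwards [Ioi_mem_nhds ht] with s hs using st_deriv_zero (Or.inr hs)
  rw [this.deriv_eq]; simp

theorem st_smooth : ContDiff ℝ (⊤ : ℕ∞) Real.smoothTransition := Real.smoothTransition.contDiff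

theorem st_bounds : ∃ C : ℝ, 0 < C ∧ (∀ t, |deriv Real.smoothTransition t| ≤ C) ∧
    ∀ t, |deriv (deriv Real.smoothTransition) t| ≤ C := by
  have h1 : ContDiff ℝ (⊤ : ℕ∞) (deriv Real.smoothTransition) :=
    st_smooth.iterate_deriv 1
  have h2 : ContDiff ℝ (⊤ : ℕ∞) (deriv (deriv Real.smoothTransition)) :=
    h1.iterate_deriv 1
  obtain ⟨C1, hC1, hb1⟩ := bounded_of_zero_outside h1.continuous (fun t => st_deriv_zero)
  obtain ⟨C2, hC2, hb2⟩ := bounded_of_zero_outside h2.continuous (fun t => st_deriv2_zero)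
  exact ⟨max C1 C2, by positivity, fun t => (hb1 t).trans (le_max_left _ _),
    fun t => (hb2 t).trans (le_max_right _ _)⟩

theorem norm_sq_eq (x : E) : ‖x‖ ^ 2 = ∑ i, x i ^ 2 := by
  rw [EuclideanSpace.norm_sq_eq]; simp

theorem abs_coord_le (x : E) (i : Fin 3) : |x i| ≤ ‖x‖ := by
  have h := norm_sq_eq x
  have h2 : x i ^ 2 ≤ ‖x‖ ^ 2 := by
    rw [h]; exact Finset.single_le_sum (f := fun i => x i ^ 2) (fun j _ => by positivity) (Finset.mem_univ i)
  exact abs_le_of_sq_le_sq h2 (norm_nonneg _)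

/-- the inner function -/
def cutArg (r η : ℝ) (x : E) : ℝ := 1 - (‖x‖ ^ 2 - r ^ 2) / (r * η)

/-- cutoff, equal to one on `|x| ≤ r` and to zero on `|x| ≥ r + η` -/
def cut (r η : ℝ) (x : E) : ℝ := Real.smoothTransition (cutArg r η x)

theorem contDiff_cutArg (r η : ℝ) : ContDiff ℝ (⊤ : ℕ∞) (cutArg r η) := by
  unfold cutArg
  exact contDiff_const.sub (((contDiff_norm_sq ℝ).sub contDiff_const).div_const _)

theorem pd_normsq (i : Fin 3) (x : E) : pd i (fun y : E => ‖y‖ ^ 2) x = 2 * x i := by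
  have h : (fun y : E => ‖y‖ ^ 2) = fun y => ∑ j, y j ^ 2 := by funext y; exact norm_sq_eq y
  rw [h, pd_sum_at (f := fun j (y : E) => y j ^ 2) fun j _ => ((differentiable_coord j).pow 2) x]
  have : ∀ j, pd i (fun y : E => y j ^ 2) x = 2 * x j * (if i = j then 1 else 0) := by
    intro j
    rw [pd_pow_at 2 (differentiable_coord j x), pd_coord]
    simp
  simp only [this]
  simp

theorem pd_cutArg (r η : ℝ) (i : Fin 3) (x : E) : pd i (cutArg r η) x = - (2 * x i) / (r * η) := by
  have hd : Differentiable ℝ (fun y : E => ‖y‖ ^ 2) := (contDiff_norm_sq ℝ (n := 1)).differentiable (by norm_num)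
  have h : cutArg r η = fun y => (1 + r ^ 2 / (r * η)) - (r * η)⁻¹ * ‖y‖ ^ 2 := by
    funext y; unfold cutArg; ring
  rw [h, pd_sub_at (differentiableAt_const _) ((hd.const_mul _) x), pd_const, pd_const_mul_at _ (hd x), pd_normsq]
  ring

theorem contDiff_cut (r η : ℝ) : ContDiff ℝ (⊤ : ℕ∞) (cut r η) :=
  st_smooth.comp (contDiff_cutArg r η)

theorem pd_cut (r η : ℝ) (i : Fin 3) (x : E) :
    pd i (cut r η) x = deriv Real.smoothTransition (cutArg r η x) * (- (2 * x i) / (r * η)) := by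
  unfold cut
  rw [pd_comp_at ((st_smooth.differentiable (by norm_num)) _) (((contDiff_cutArg r η).differentiable (by norm_num)) x),
    pd_cutArg]

theorem pd_pd_cut (r η : ℝ) (i j : Fin 3) (x : E) :
    pd j (pd i (cut r η)) x = deriv (deriv Real.smoothTransition) (cutArg r η x) * (- (2 * x j) / (r * η))
        * (- (2 * x i) / (r * η))
      + deriv Real.smoothTransition (cutArg r η x) * (- (2 * (if j = i then 1 else 0)) / (r * η)) := by
  have h1 : ContDiff ℝ (⊤ : ℕ∞) (deriv Real.smoothTransition) := st_smooth.iterate_deriv 1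
  have h : pd i (cut r η) = fun x => deriv Real.smoothTransition (cutArg r η x) * ((-2 / (r * η)) * x i) := by
    funext x; rw [pd_cut]; ring
  have hA : DifferentiableAt ℝ (cutArg r η) x := ((contDiff_cutArg r η).differentiable (by norm_num)) x
  have hB : DifferentiableAt ℝ (deriv Real.smoothTransition) (cutArg r η x) := (h1.differentiable (by norm_num)) _
  have hBA : DifferentiableAt ℝ (fun x => deriv Real.smoothTransition (cutArg r η x)) x := hB.comp x hA
  rw [h, pd_mul_at hBA (((differentiable_coord i).const_mul _) x), pd_comp_at hB hA, pd_cutArg,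
    pd_const_mul_at _ (differentiable_coord i x), pd_coord]
  ring

theorem cut_one {r η : ℝ} (hη : 0 < η) (hr : η ≤ r) {x : E} (hx : ‖x‖ ≤ r) : cut r η x = 1 := by
  apply Real.smoothTransition.one_of_one_le
  unfold cutArg
  have hr0 : 0 < r := lt_of_lt_of_le hη hr
  have h1 : ‖x‖ ^ 2 ≤ r ^ 2 := by gcongr
  have h2 : (‖x‖ ^ 2 - r ^ 2) / (r * η) ≤ 0 := div_nonpos_of_nonpos_of_nonneg (by linarith) (by positivity)
  linarith

theorem cut_zero {r η : ℝ} (hη : 0 < η) (hr : η ≤ r) {x : E} (hx : r + η ≤ ‖x‖) : cut r η x = 0 := by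
  apply Real.smoothTransition.zero_of_nonpos
  unfold cutArg
  have hr0 : 0 < r := lt_of_lt_of_le hη hr
  have h1 : (r + η) ^ 2 ≤ ‖x‖ ^ 2 := by gcongr
  have h2 : 1 ≤ (‖x‖ ^ 2 - r ^ 2) / (r * η) := by
    rw [le_div_iff₀ (by positivity)]; nlinarith
  linarith

theorem cut_nonneg (r η : ℝ) (x : E) : 0 ≤ cut r η x := Real.smoothTransition.nonneg _
theorem cut_le_one (r η : ℝ) (x : E) : cut r η x ≤ 1 := Real.smoothTransition.le_one _

/-- where the derivatives of the cutoff are nonzero -/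
theorem cutArg_range {r η : ℝ} (hη : 0 < η) (hr : η ≤ r) {x : E} (h0 : 0 ≤ cutArg r η x)
    (h1 : cutArg r η x ≤ 1) : r ≤ ‖x‖ ∧ ‖x‖ ≤ r + η := by
  have hr0 : 0 < r := lt_of_lt_of_le hη hr
  unfold cutArg at h0 h1
  constructor
  · have h2 : 0 ≤ (‖x‖ ^ 2 - r ^ 2) / (r * η) := by linarith
    have h3 : 0 ≤ ‖x‖ ^ 2 - r ^ 2 := by
      by_contra hneg
      push Not at hneg
      have := div_neg_of_neg_of_pos hneg (show 0 < r * η by positivity)
      linarith
    exact abs_le_of_sq_le_sq' (by linarith) (norm_nonneg x) |>.2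
  · have h2 : (‖x‖ ^ 2 - r ^ 2) / (r * η) ≤ 1 := by linarith
    rw [div_le_one (by positivity)] at h2
    apply le_of_sq_le_sq (by nlinarith) (by positivity)
where
  le_of_sq_le_sq {a b : ℝ} (h : a ^ 2 ≤ b ^ 2) (hb : 0 ≤ b) : a ≤ b := by nlinarith [abs_le_of_sq_le_sq' h hb]

theorem pd_cut_zero {r η : ℝ} (hη : 0 < η) (hr : η ≤ r) (i : Fin 3) {x : E} (hx : x ∉ Sh r (r + η)) :
    pd i (cut r η) x = 0 := by
  rw [pd_cut, st_deriv_zero, zero_mul]
  by_contra h
  push Not at h
  exact hx (cutArg_range hη hr h.1 h.2)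

theorem pd_pd_cut_zero {r η : ℝ} (hη : 0 < η) (hr : η ≤ r) (i j : Fin 3) {x : E} (hx : x ∉ Sh r (r + η)) :
    pd j (pd i (cut r η)) x = 0 := by
  have h : cutArg r η x < 0 ∨ 1 < cutArg r η x := by
    by_contra h
    push Not at h
    exact hx (cutArg_range hη hr h.1 h.2)
  rw [pd_pd_cut, st_deriv2_zero h, st_deriv_zero h]; ring

theorem cut_bounds : ∃ C : ℝ, 0 < C ∧ ∀ r η : ℝ, 0 < η → η ≤ r → ∀ x, ∀ i j,
    |pd i (cut r η) x| ≤ C / η ∧ |pd j (pd i (cut r η)) x| ≤ C / η ^ 2 := by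
  obtain ⟨C, hC, h1, h2⟩ := st_bounds
  refine ⟨18 * C, by positivity, ?_⟩
  intro r η hη hr x i j
  have hr0 : 0 < r := lt_of_lt_of_le hη hr
  by_cases hx : x ∈ Sh r (r + η)
  · have hxn : ‖x‖ ≤ 2 * r := by linarith [hx.2]
    have hb : ∀ k, |(-(2 * x k) / (r * η))| ≤ 4 / η := by
      intro k
      rw [abs_div, abs_neg, abs_mul, abs_of_pos (show (0 : ℝ) < r * η by positivity), abs_of_pos (show (0 : ℝ) < 2 by norm_num)]
      rw [div_le_div_iff₀ (by positivity) hη]
      have := abs_coord_le x k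
      nlinarith [mul_le_mul_of_nonneg_right (this.trans hxn) hη.le]
    constructor
    · rw [pd_cut, abs_mul]
      calc |deriv Real.smoothTransition (cutArg r η x)| * |(-(2 * x i) / (r * η))| ≤ C * (4 / η) := by
            gcongr
            · exact h1 _
            · exact hb i
        _ = 4 * C / η := by ring
        _ ≤ 18 * C / η := by gcongr; norm_num
    · rw [pd_pd_cut]
      have hc : |(-(2 * (if j = i then (1 : ℝ) else 0)) / (r * η))| ≤ 2 / η ^ 2 := by
        rw [abs_div, abs_neg, abs_mul, abs_of_pos (show (0 : ℝ) < r * η by positivity), abs_of_pos (show (0 : ℝ) < 2 by norm_num)]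
        rw [div_le_div_iff₀ (by positivity) (by positivity)]
        have : |(if j = i then (1 : ℝ) else 0)| ≤ 1 := by split_ifs <;> simp
        calc 2 * |(if j = i then (1 : ℝ) else 0)| * η ^ 2 ≤ 2 * 1 * η ^ 2 := by gcongr
          _ = 2 * (η * η) := by ring
          _ ≤ 2 * (r * η) := by gcongr
      calc |deriv (deriv Real.smoothTransition) (cutArg r η x) * (-(2 * x j) / (r * η)) * (-(2 * x i) / (r * η))
            + deriv Real.smoothTransition (cutArg r η x) * (-(2 * (if j = i then (1 : ℝ) else 0)) / (r * η))|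
          ≤ C * (4 / η) * (4 / η) + C * (2 / η ^ 2) := by
            refine (abs_add_le _ _).trans ?_
            rw [abs_mul, abs_mul, abs_mul]
            gcongr
            · exact h2 _
            · exact hb j
            · exact hb i
            · exact h1 _
        _ = 18 * C / η ^ 2 := by field_simp; ring
  · rw [pd_cut_zero hη hr i hx, pd_pd_cut_zero hη hr i j hx]
    simp only [abs_zero]
    constructor <;> positivity

theorem hasCompactSupport_cut {r η : ℝ} (hη : 0 < η) (hr : η ≤ r) : HasCompactSupport (cut r η) := by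
  apply HasCompactSupport.intro (isCompact_closedBall (0 : E) (r + η))
  intro x hx
  apply cut_zero hη hr
  simp at hx
  exact hx.le

/-- cutoffs, packaged -/
theorem exists_cutoff : ∃ C : ℝ, 0 < C ∧ ∀ r η : ℝ, 0 < η → η ≤ r → ∃ φ : E → ℝ,
    ContDiff ℝ (⊤ : ℕ∞) φ ∧ HasCompactSupport φ ∧ (∀ x, 0 ≤ φ x) ∧ (∀ x, φ x ≤ 1) ∧ (∀ x, ‖x‖ ≤ r → φ x = 1) ∧
    (∀ x, r + η ≤ ‖x‖ → φ x = 0) ∧ (∀ x i, |pd i φ x| ≤ C / η) ∧
    (∀ x i j, |pd j (pd i φ) x| ≤ C / η ^ 2) ∧
    (∀ x, x ∉ Sh r (r + η) → ∀ i, pd i φ x = 0) ∧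
    (∀ x, x ∉ Sh r (r + η) → ∀ i j, pd j (pd i φ) x = 0) := by
  obtain ⟨C, hC, h⟩ := cut_bounds
  refine ⟨C, hC, fun r η hη hr => ⟨cut r η, contDiff_cut r η, hasCompactSupport_cut hη hr, cut_nonneg r η, cut_le_one r η,
    fun x hx => cut_one hη hr hx, fun x hx => cut_zero hη hr hx, fun x i => (h r η hη hr x i i).1,
    fun x i j => (h r η hη hr x i j).2, fun x hx i => pd_cut_zero hη hr i hx,
    fun x hx i j => pd_pd_cut_zero hη hr i j hx⟩⟩

/-- shell cutoffs -/
theorem exists_shell_cutoff : ∃ C : ℝ, 0 < C ∧ ∀ r s η : ℝ, 0 < η → 2 * η ≤ r → r ≤ s → ∃ ζ : E → ℝ,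
    ContDiff ℝ (⊤ : ℕ∞) ζ ∧ HasCompactSupport ζ ∧ (∀ x, 0 ≤ ζ x) ∧ (∀ x, ζ x ≤ 1) ∧ (∀ x ∈ Sh r s, ζ x = 1) ∧
    (∀ x, x ∉ Sh (r - η) (s + η) → ζ x = 0) ∧ (∀ x i, |pd i ζ x| ≤ C / η) := by
  obtain ⟨C, hC, h⟩ := cut_bounds
  refine ⟨2 * C, by positivity, fun r s η hη hr hs => ?_⟩
  have hη1 : η ≤ r - η := by linarith
  have hη2 : η ≤ s := by linarith
  have d1 : Differentiable ℝ (cut s η) := (contDiff_cut s η).differentiable (by norm_num)
  have d2 : Differentiable ℝ (cut (r - η) η) := (contDiff_cut (r - η) η).differentiable (by norm_num)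
  refine ⟨fun x => cut s η x * (1 - cut (r - η) η x), (contDiff_cut s η).mul (contDiff_const.sub (contDiff_cut _ η)),
    (hasCompactSupport_cut hη hη2).mul_right, ?_, ?_, ?_, ?_, ?_⟩
  · intro x
    exact mul_nonneg (cut_nonneg _ _ _) (by linarith [cut_le_one (r - η) η x])
  · intro x
    have a1 := cut_le_one s η x
    have a2 := cut_nonneg (r - η) η x
    have a3 := cut_nonneg s η x
    nlinarith
  · intro x hx
    show cut s η x * (1 - cut (r - η) η x) = 1
    rw [cut_one hη hη2 hx.2, cut_zero hη hη1 (by linarith [hx.1])]; ring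
  · intro x hx
    show cut s η x * (1 - cut (r - η) η x) = 0
    unfold Sh at hx
    simp only [mem_ofPred_eq, not_and_or, not_le] at hx
    rcases hx with hx | hx
    · rw [cut_one hη hη1 hx.le]; ring
    · rw [cut_zero hη hη2 hx.le]; ring
  · intro x i
    have e : pd i (fun x => cut s η x * (1 - cut (r - η) η x)) x
        = pd i (cut s η) x * (1 - cut (r - η) η x) + cut s η x * (- pd i (cut (r - η) η) x) := by
      have d3 : Differentiable ℝ (fun x => 1 - cut (r - η) η x) := (differentiable_const 1).sub d2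
      rw [pd_mul d1 d3, pd_sub (differentiable_const 1) d2, pd_const]; ring
    rw [e]
    have b1 := (h s η hη hη2 x i i).1
    have b2 := (h (r - η) η hη hη1 x i i).1
    have a1 := cut_le_one s η x
    have a3 := cut_nonneg s η x
    have a4 := cut_nonneg (r - η) η x
    have a5 := cut_le_one (r - η) η x
    calc _ ≤ |pd i (cut s η) x * (1 - cut (r - η) η x)| + |cut s η x * (- pd i (cut (r - η) η) x)| := abs_add_le _ _
      _ = |pd i (cut s η) x| * (1 - cut (r - η) η x) + cut s η x * |pd i (cut (r - η) η) x| := by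
          rw [abs_mul, abs_mul, abs_neg, abs_of_nonneg (show (0:ℝ) ≤ 1 - cut (r - η) η x by linarith), abs_of_nonneg a3]
      _ ≤ (C / η) * 1 + 1 * (C / η) := by
          gcongr
          linarith
      _ = 2 * C / η := by ring

end Leray
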