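import Mathlib

/-!
# Leray's backward self-similar profiles: basic definitions
-/

open MeasureTheory Set Filter Topology TopologicalSpace
open scoped Distributions LineDeriv

noncomputable section

namespace Leray

/-- three dimensional Euclidean space -/
abbrev E := EuclideanSpace ℝ (Fin 3)

/-- the `i`-th standard basis vector -/
def ei (i : Fin 3) : E := EuclideanSpace.single i (1 : ℝ)

/-- partial derivative in the direction of the `i`-th basis vector -/
def pd (i : Fin 3) (f : E → ℝ) : E → ℝ := fun x => fderiv ℝ f x (ei i)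

/-- vector fields on `ℝ³`, given by their three components -/
abbrev VF := Fin 3 → E → ℝ

/-- the curl; indices are taken modulo 3 -/
def curl (F : VF) : VF := fun i x => pd (i + 1) (F (i + 2)) x - pd (i + 2) (F (i + 1)) x

/-- the divergence -/
def dv (F : VF) : E → ℝ := fun x => ∑ i, pd i (F i) x

/-- the gradient -/
def grad (f : E → ℝ) : VF := fun i => pd i f

/-- the Laplacian -/
def lap (f : E → ℝ) : E → ℝ := fun x => ∑ i, pd i (pd i f) x

/-- the cross product; indices are taken modulo 3 -/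
def cr (F G : VF) : VF := fun i x => F (i + 1) x * G (i + 2) x - F (i + 2) x * G (i + 1) x

/-- the pointwise scalar product -/
def dot (F G : VF) : E → ℝ := fun x => ∑ i, F i x * G i x

/-- product of a scalar function and a vector field -/
def sm (f : E → ℝ) (F : VF) : VF := fun i x => f x * F i x

/-- `|F|²` -/
def sq (F : VF) (x : E) : ℝ := ∑ i, F i x ^ 2

/-- `|F|` -/
def nm (F : VF) (x : E) : ℝ := Real.sqrt (sq F x)

/-- `|∇F|²` -/
def gsq (F : VF) (x : E) : ℝ := ∑ i, ∑ j, pd i (F j) x ^ 2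

/-- `|∇F|` -/
def gnm (F : VF) (x : E) : ℝ := Real.sqrt (gsq F x)

/-- the field `b = V + a y` -/
def drift (a : ℝ) (V : VF) : VF := fun i x => V i x + a * x i

/-- `Z = ν curl ω + ω × (V + a y)`, with `ω = curl V` (equal to minus the gradient of the head pressure) -/
def Zf (ν a : ℝ) (V : VF) : VF :=
  fun i x => ν * curl (curl V) i x + cr (curl V) (drift a V) i x

/-- smooth form of Leray's equations: `div V = 0` and `curl Z = 0` -/
structure SmoothProfile (ν a : ℝ) (V : VF) : Prop where
  smooth : ∀ i, ContDiff ℝ 3 (V i)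
  div0 : ∀ x, dv V x = 0
  eq : ∀ i x, curl (Zf ν a V) i x = 0

/-- `∫_{B_R} |curl V|²` -/
def W (V : VF) (R : ℝ) : ℝ := ∫ x in Metric.ball (0 : E) R, sq (curl V) x

/-- **Weak profiles.** `V ∈ W^{1,2}_loc(ℝ³;ℝ³)` (weak gradient `G i j = ∂_j V_i`) solves Leray's equations
`-ν ΔV + a V + a (y·∇)V + (V·∇)V + ∇P = 0`, `div V = 0` in the sense of distributions, for some
distribution `P`. -/
structure IsLerayProfile (ν a : ℝ) (V : E → E) : Prop where
  /-- `V` is locally square integrable -/
  sqInt : ∀ K : Set E, IsCompact K → MemLp V 2 (volume.restrict K)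
  /-- weak gradient, divergence zero, and the momentum equation -/
  weak : ∃ G : Fin 3 → Fin 3 → E → ℝ,
    (∀ i j, ∀ K : Set E, IsCompact K → MemLp (G i j) 2 (volume.restrict K)) ∧
    (∀ i j, ∀ ψ : 𝓓((⊤ : Opens E), ℝ), ∫ x, V x i * pd j ψ x = - ∫ x, G i j x * ψ x) ∧
    (∀ᵐ x, ∑ i, G i i x = 0) ∧
    ∃ P : 𝓓'((⊤ : Opens E), ℝ), ∀ φ : Fin 3 → 𝓓((⊤ : Opens E), ℝ),
      ν * (∑ i, ∑ j, ∫ x, G i j x * pd j (φ i) x)
        + a * (∑ i, ∫ x, V x i * φ i x)
        + a * (∑ i, ∑ j, ∫ x, x j * G i j x * φ i x)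
        + (∑ i, ∑ j, ∫ x, V x j * G i j x * φ i x)
        = P (∑ i, ∂_{ei i} (φ i))

end Leray
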