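import Pool.Agent.Lib.MP_9b9638_an.Cutoff

/-!
# The energy inequality, tested with the curl of (cutoff times vector potential)
-/

open MeasureTheory Set Filter Topology TopologicalSpace

noncomputable section

namespace Leray

/-- the identity field -/
def Yf : VF := fun i x => x i

/-- the value of a field as a vector -/
def vec (F : VF) (x : E) : E := WithLp.toLp 2 (fun i => F i x)

theorem nm_eq_norm (F : VF) (x : E) : nm F x = ‖vec F x‖ := by
  unfold nm sq vec
  rw [EuclideanSpace.norm_eq]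
  simp

theorem nm_Yf (x : E) : nm Yf x = ‖x‖ := by
  unfold nm sq Yf
  rw [EuclideanSpace.norm_eq]
  simp

theorem nm_add_le (F G : VF) (x : E) : nm (fun i y => F i y + G i y) x ≤ nm F x + nm G x := by
  rw [nm_eq_norm, nm_eq_norm, nm_eq_norm]
  have : vec (fun i y => F i y + G i y) x = vec F x + vec G x := by
    ext i; simp [vec]
  rw [this]; exact norm_add_le _ _

theorem nm_smul (c : ℝ) (F : VF) (x : E) : nm (fun i y => c * F i y) x = |c| * nm F x := by
  rw [nm_eq_norm, nm_eq_norm]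
  have : vec (fun i y => c * F i y) x = c • vec F x := by
    ext i; simp [vec]
  rw [this, norm_smul, Real.norm_eq_abs]

theorem nm_le_of_abs {F : VF} {x : E} {c : ℝ} (hc : 0 ≤ c) (h : ∀ i, |F i x| ≤ c) : nm F x ≤ 2 * c := by
  unfold nm
  apply Real.sqrt_le_iff.2
  refine ⟨by positivity, ?_⟩
  have h2 : ∀ i, F i x ^ 2 ≤ c ^ 2 := fun i => sq_le_sq.2 (by rw [abs_of_nonneg hc]; exact h i)
  calc sq F x ≤ ∑ _i : Fin 3, c ^ 2 := Finset.sum_le_sum fun i _ => h2 i
    _ = 3 * c ^ 2 := by simp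
    _ ≤ (2 * c) ^ 2 := by nlinarith [sq_nonneg c]

theorem gnm_le_of_abs {F : VF} {x : E} {c : ℝ} (hc : 0 ≤ c) (h : ∀ i j, |pd i (F j) x| ≤ c) :
    gnm F x ≤ 3 * c := by
  unfold gnm
  apply Real.sqrt_le_iff.2
  refine ⟨by positivity, ?_⟩
  have h2 : ∀ i j, pd i (F j) x ^ 2 ≤ c ^ 2 := fun i j => sq_le_sq.2 (by rw [abs_of_nonneg hc]; exact h i j)
  calc gsq F x ≤ ∑ _i : Fin 3, ∑ _j : Fin 3, c ^ 2 :=
        Finset.sum_le_sum fun i _ => Finset.sum_le_sum fun j _ => h2 i j
    _ = 9 * c ^ 2 := by simp; ring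
    _ = (3 * c) ^ 2 := by ring

theorem nm_curl_le (F : VF) (x : E) : nm (curl F) x ≤ 4 * gnm F x := by
  have : nm (curl F) x ≤ 2 * (2 * gnm F x) := by
    apply nm_le_of_abs (by have := gnm_nonneg F x; positivity)
    intro i
    unfold curl
    calc |pd (i + 1) (F (i + 2)) x - pd (i + 2) (F (i + 1)) x|
        ≤ |pd (i + 1) (F (i + 2)) x| + |pd (i + 2) (F (i + 1)) x| := abs_sub _ _
      _ ≤ gnm F x + gnm F x := add_le_add (abs_pd_le_gnm _ _ _ _) (abs_pd_le_gnm _ _ _ _)
      _ = 2 * gnm F x := by ring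
  linarith

theorem pd_cr {A B : VF} (hA : ∀ i, Differentiable ℝ (A i)) (hB : ∀ i, Differentiable ℝ (B i)) (i j : Fin 3)
    (x : E) : pd i (cr A B j) x = pd i (A (j + 1)) x * B (j + 2) x + A (j + 1) x * pd i (B (j + 2)) x
      - (pd i (A (j + 2)) x * B (j + 1) x + A (j + 2) x * pd i (B (j + 1)) x) := by
  have m : ∀ k l, Differentiable ℝ (fun x => A k x * B l x) := fun k l => (hA k).mul (hB l)
  unfold cr
  rw [pd_sub (m _ _) (m _ _), pd_mul (hA _) (hB _), pd_mul (hA _) (hB _)]

theorem gnm_cr_le {A B : VF} (hA : ∀ i, Differentiable ℝ (A i)) (hB : ∀ i, Differentiable ℝ (B i)) (x : E) :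
    gnm (cr A B) x ≤ 6 * (gnm A x * nm B x + nm A x * gnm B x) := by
  have hp : 0 ≤ gnm A x * nm B x + nm A x * gnm B x :=
    add_nonneg (mul_nonneg (gnm_nonneg _ _) (nm_nonneg _ _)) (mul_nonneg (nm_nonneg _ _) (gnm_nonneg _ _))
  have : gnm (cr A B) x ≤ 3 * (2 * (gnm A x * nm B x + nm A x * gnm B x)) := by
    apply gnm_le_of_abs (by positivity)
    intro i j
    rw [pd_cr hA hB]
    have t : ∀ k l, |pd i (A k) x * B l x| ≤ gnm A x * nm B x := fun k l => by
      rw [abs_mul]; exact mul_le_mul (abs_pd_le_gnm _ _ _ _) (abs_le_nm _ _ _) (abs_nonneg _) (gnm_nonneg _ _)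
    have u : ∀ k l, |A k x * pd i (B l) x| ≤ nm A x * gnm B x := fun k l => by
      rw [abs_mul]; exact mul_le_mul (abs_le_nm _ _ _) (abs_pd_le_gnm _ _ _ _) (abs_nonneg _) (nm_nonneg _ _)
    calc _ ≤ |pd i (A (j + 1)) x * B (j + 2) x + A (j + 1) x * pd i (B (j + 2)) x|
          + |pd i (A (j + 2)) x * B (j + 1) x + A (j + 2) x * pd i (B (j + 1)) x| := abs_sub _ _
      _ ≤ (|pd i (A (j + 1)) x * B (j + 2) x| + |A (j + 1) x * pd i (B (j + 2)) x|)
          + (|pd i (A (j + 2)) x * B (j + 1) x| + |A (j + 2) x * pd i (B (j + 1)) x|) :=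
          add_le_add (abs_add_le _ _) (abs_add_le _ _)
      _ ≤ (gnm A x * nm B x + nm A x * gnm B x) + (gnm A x * nm B x + nm A x * gnm B x) :=
          add_le_add (add_le_add (t _ _) (u _ _)) (add_le_add (t _ _) (u _ _))
      _ = _ := by ring
  linarith

theorem gnm_Yf_le (x : E) : gnm Yf x ≤ 3 := by
  have := gnm_le_of_abs (F := Yf) (x := x) (c := 1) (by norm_num) (fun i j => by
    show |pd i (fun y : E => y j) x| ≤ 1
    rw [pd_coord]; split_ifs <;> simp)
  linarith

theorem abs_int_le_set {S : Set E} (hS : MeasurableSet S) {g G : E → ℝ} (hg : Integrable g)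
    (hG : IntegrableOn G S) (h : ∀ x ∈ S, |g x| ≤ G x) (h0 : ∀ x, x ∉ S → g x = 0) :
    |∫ x, g x| ≤ ∫ x in S, G x := by
  rw [← setIntegral_eq_integral_of_forall_compl_eq_zero (s := S) (f := g) (μ := volume) h0]
  calc |∫ x in S, g x| ≤ ∫ x in S, |g x| := abs_integral_le_integral_abs
    _ ≤ ∫ x in S, G x := setIntegral_mono_on hg.abs.integrableOn hG hS h

theorem cont_int_on {S : Set E} (hS : ∃ r : ℝ, S ⊆ Metric.closedBall 0 r) {G : E → ℝ} (hG : Continuous G) :
    IntegrableOn G S := by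
  obtain ⟨r, hr⟩ := hS
  exact (hG.continuousOn.integrableOn_compact (isCompact_closedBall 0 r)).mono_set hr

theorem Sh_sub (r s : ℝ) : ∃ t : ℝ, Sh r s ⊆ Metric.closedBall 0 t :=
  ⟨s, fun x hx => by simpa using hx.2⟩

theorem ball_sub' (r : ℝ) : ∃ t : ℝ, Metric.ball (0 : E) r ⊆ Metric.closedBall 0 t :=
  ⟨r, Metric.ball_subset_closedBall⟩

/-! ### the two transport terms -/

theorem differentiable_of {n : ℕ∞} {f : E → ℝ} (hf : ContDiff ℝ n f) (hn : 1 ≤ n) : Differentiable ℝ f :=
  hf.differentiable (by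
    have : (1 : WithTop ℕ∞) ≤ n := by exact_mod_cast hn
    intro h
    rw [h] at this
    simp at this)

/-- `∫ φ (ω×y)·V` -/
theorem transport_one {V : VF} (hV : ∀ i, ContDiff ℝ 2 (V i)) (hd : ∀ x, dv V x = 0) {φ : E → ℝ}
    (hφ : ContDiff ℝ 2 φ) (hc : HasCompactSupport φ) :
    ∫ x, φ x * dot (cr (curl V) Yf) V x
      = ∫ x, (- (1 / 2) * φ x * sq V x - (1 / 2) * dot Yf (grad φ) x * sq V x
          + dot Yf V x * dot V (grad φ) x) := by
  have hV1 : ∀ i, ContDiff ℝ 1 (V i) := fun i => (hV i).of_le (by norm_num)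
  have hφ1 : ContDiff ℝ 1 φ := hφ.of_le (by norm_num)
  have dV : ∀ i, Differentiable ℝ (V i) := fun i => (hV1 i).differentiable (by norm_num)
  have dφ : Differentiable ℝ φ := hφ1.differentiable (by norm_num)
  have csq : ContDiff ℝ 1 (sq V) := by
    unfold sq; exact ContDiff.sum fun i _ => (hV1 i).pow 2
  have cdot : ContDiff ℝ 1 (dot Yf V) := by
    unfold dot Yf; exact ContDiff.sum fun i _ => (contDiff_coord i).mul (hV1 i)
  have dsq : Differentiable ℝ (sq V) := csq.differentiable (by norm_num)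
  have ddot : Differentiable ℝ (dot Yf V) := cdot.differentiable (by norm_num)
  -- the field H
  set H : VF := fun i x => φ x * ((1 / 2) * sq V x * x i - dot Yf V x * V i x) with hH
  have cH : ∀ i, ContDiff ℝ 1 (H i) := fun i =>
    hφ1.mul (((contDiff_const.mul csq).mul (contDiff_coord i)).sub (cdot.mul (hV1 i)))
  have sH : ∀ i, HasCompactSupport (H i) := fun i => hc.mul_right
  have zero : ∫ x, dv H x = 0 := by
    unfold dv
    rw [integral_finsetSum _ fun i _ => integrable_of_cc (continuous_pd (cH i)) (hasCompactSupport_pd (sH i))]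
    simp [int_pd_zero (cH _) (sH _)]
  have e1 : (0 : Fin 3) + 1 = 1 := rfl
  have e2 : (0 : Fin 3) + 2 = 2 := rfl
  have e3 : (1 : Fin 3) + 1 = 2 := rfl
  have e4 : (1 : Fin 3) + 2 = 0 := rfl
  have e5 : (2 : Fin 3) + 1 = 0 := rfl
  have e6 : (2 : Fin 3) + 2 = 1 := rfl
  have psq : ∀ i x, pd i (sq V) x = ∑ j, 2 * V j x * pd i (V j) x := by
    intro i x
    unfold sq
    rw [pd_sum_at (f := fun j y => V j y ^ 2) fun j _ => ((dV j).pow 2) x]
    congr 1; funext j
    rw [pd_pow_at 2 (dV j x)]; simp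
  have pdot : ∀ i x, pd i (dot Yf V) x = V i x + ∑ j, x j * pd i (V j) x := by
    intro i x
    unfold dot Yf
    rw [pd_sum_at (f := fun j (y : E) => y j * V j y) fun j _ => ((differentiable_coord j).mul (dV j)) x]
    have : ∀ j, pd i (fun y : E => y j * V j y) x = (if i = j then 1 else 0) * V j x + x j * pd i (V j) x := by
      intro j
      rw [pd_mul (differentiable_coord j) (dV j), pd_coord]
    simp only [this, Finset.sum_add_distrib]
    simp
  have pH : ∀ i x, pd i (H i) x = pd i φ x * ((1 / 2) * sq V x * x i - dot Yf V x * V i x)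
      + φ x * ((1 / 2) * (pd i (sq V) x * x i + sq V x)
        - (pd i (dot Yf V) x * V i x + dot Yf V x * pd i (V i) x)) := by
    intro i x
    rw [hH]
    have d1 : Differentiable ℝ (fun x => (1 / 2) * sq V x) := dsq.const_mul _
    have d2 : Differentiable ℝ (fun x : E => (1 / 2) * sq V x * x i) := d1.mul (differentiable_coord i)
    have d3 : Differentiable ℝ (fun x => dot Yf V x * V i x) := ddot.mul (dV i)
    have d4 : Differentiable ℝ (fun x : E => (1 / 2) * sq V x * x i - dot Yf V x * V i x) := d2.sub d3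
    rw [pd_mul dφ d4, pd_sub d2 d3, pd_mul d1 (differentiable_coord i), pd_const_mul _ dsq, pd_mul ddot (dV i),
      pd_coord, if_pos rfl]
    ring
  have key : ∀ x, φ x * dot (cr (curl V) Yf) V x = dv H x + (- (1 / 2) * φ x * sq V x
      - (1 / 2) * dot Yf (grad φ) x * sq V x + dot Yf V x * dot V (grad φ) x) := by
    intro x
    have hdx := hd x
    unfold dv at hdx
    simp only [Fin.sum_univ_three] at hdx
    unfold dv
    simp only [pH, psq, pdot]
    unfold dot cr curl sq Yf grad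
    simp only [Fin.sum_univ_three, e1, e2, e3, e4, e5, e6]
    linear_combination (φ x * (x 0 * V 0 x + x 1 * V 1 x + x 2 * V 2 x)) * hdx
  have I1 : Integrable (dv H) := by
    unfold dv
    exact integrable_finsetSum _ fun i _ => integrable_of_cc (continuous_pd (cH i)) (hasCompactSupport_pd (sH i))
  have I2 : Integrable (fun x => (- (1 / 2) * φ x * sq V x - (1 / 2) * dot Yf (grad φ) x * sq V x
      + dot Yf V x * dot V (grad φ) x)) := by
    have cg : ∀ i, Continuous (grad φ i) := fun i => continuous_pd hφ1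
    have cy : ∀ i, Continuous (Yf i) := fun i => (differentiable_coord i).continuous
    have sg : ∀ i, HasCompactSupport (grad φ i) := fun i => hasCompactSupport_pd hc
    have sdot : ∀ A : VF, HasCompactSupport (dot A (grad φ)) := fun A => by
      unfold dot
      simp only [Fin.sum_univ_three]
      exact (((sg 0).mul_left).add ((sg 1).mul_left)).add ((sg 2).mul_left)
    apply integrable_of_cc
    · exact (((continuous_const.mul hφ1.continuous).mul csq.continuous).sub
        ((continuous_const.mul (continuous_dot cy cg)).mul csq.continuous)).add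
        (cdot.continuous.mul (continuous_dot (fun i => (hV1 i).continuous) cg))
    · refine HasCompactSupport.add (HasCompactSupport.sub ?_ ?_) ?_
      · exact ((hc.mul_left (f := fun _ => - (1 / 2 : ℝ)))).mul_right
      · exact (((sdot Yf).mul_left (f := fun _ => (1 / 2 : ℝ)))).mul_right
      · exact (sdot V).mul_left
  simp only [key]
  rw [integral_add I1 I2, zero, zero_add]

/-- `∫ (ω×y)·(∇φ×Ψ)` -/
theorem transport_two {V Ψ : VF} (hV : ∀ i, ContDiff ℝ 2 (V i)) {φ : E → ℝ}
    (hφ : ContDiff ℝ 2 φ) (hc : HasCompactSupport φ) (hΨ : ∀ i, ContDiff ℝ 1 (Ψ i)) :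
    ∫ x, dot (cr (curl V) Yf) (cr (grad φ) Ψ) x = ∫ x, dot V (curl (cr Yf (cr (grad φ) Ψ))) x := by
  have h : ∀ x, dot (cr (curl V) Yf) (cr (grad φ) Ψ) x = dot (curl V) (cr Yf (cr (grad φ) Ψ)) x :=
    fun x => dot_cr _ _ _ x
  simp only [h]
  have hg : ∀ i, ContDiff ℝ 1 (grad φ i) := fun i => contDiff_pd hφ (by norm_num)
  have hcr : ∀ i, ContDiff ℝ 1 (cr (grad φ) Ψ i) := fun i => by
    unfold cr; exact ((hg _).mul (hΨ _)).sub ((hg _).mul (hΨ _))
  have scr : ∀ i, HasCompactSupport (cr (grad φ) Ψ i) := fun i => by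
    unfold cr
    exact ((hasCompactSupport_pd hc).mul_right).sub ((hasCompactSupport_pd hc).mul_right)
  apply int_curl_dot
  · exact fun i => (hV i).of_le (by norm_num)
  · intro i
    unfold cr at hcr ⊢
    exact ((contDiff_coord _).mul (hcr _)).sub ((contDiff_coord _).mul (hcr _))
  · intro i
    show HasCompactSupport (fun x => Yf (i + 1) x * cr (grad φ) Ψ (i + 2) x - Yf (i + 2) x * cr (grad φ) Ψ (i + 1) x)
    exact ((scr _).mul_left).sub ((scr _).mul_left)

end Leray
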