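import Pool.Agent.Lib.MP_9b9638_an.Energy

/-!
# The energy identity and the resulting inequality on shells
-/

open MeasureTheory Set Filter Topology TopologicalSpace

noncomputable section

namespace Leray

theorem Zf_cont {ν a : ℝ} {V : VF} (hV : ∀ i, ContDiff ℝ 3 (V i)) (i : Fin 3) : ContDiff ℝ 1 (Zf ν a V i) := by
  have h1 : ∀ i, ContDiff ℝ 2 (curl V i) := fun i => contDiff_curl hV (by norm_num) i
  have h2 : ∀ i, ContDiff ℝ 1 (curl (curl V) i) := fun i => contDiff_curl h1 (by norm_num) i
  have h3 : ∀ i, ContDiff ℝ 1 (drift a V i) := fun i => by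
    unfold drift
    exact ((hV i).of_le (by norm_num)).add (contDiff_const.mul (contDiff_coord i))
  have h4 : ∀ i, ContDiff ℝ 1 (curl V i) := fun i => (h1 i).of_le (by norm_num)
  unfold Zf
  refine (contDiff_const.mul (h2 i)).add ?_
  unfold cr
  exact ((h4 _).mul (h3 _)).sub ((h4 _).mul (h3 _))

theorem dot_add_right (A B C : VF) (x : E) : dot A (fun i y => B i y + C i y) x = dot A B x + dot A C x := by
  unfold dot
  rw [← Finset.sum_add_distrib]
  congr 1; funext i; ring

theorem cr_drift (a : ℝ) (A V : VF) (i : Fin 3) (x : E) :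
    cr A (drift a V) i x = cr A V i x + a * cr A Yf i x := by
  unfold cr drift Yf; ring

theorem sdot_right {A B : VF} (hB : ∀ i, HasCompactSupport (B i)) : HasCompactSupport (dot A B) := by
  unfold dot
  simp only [Fin.sum_univ_three]
  exact (((hB 0).mul_left).add ((hB 1).mul_left)).add ((hB 2).mul_left)

theorem scr_left {A B : VF} (hA : ∀ i, HasCompactSupport (A i)) (i : Fin 3) : HasCompactSupport (cr A B i) := by
  show HasCompactSupport (fun x => A (i + 1) x * B (i + 2) x - A (i + 2) x * B (i + 1) x)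
  exact ((hA _).mul_right).sub ((hA _).mul_right)

theorem scr_right {A B : VF} (hB : ∀ i, HasCompactSupport (B i)) (i : Fin 3) : HasCompactSupport (cr A B i) := by
  show HasCompactSupport (fun x => A (i + 1) x * B (i + 2) x - A (i + 2) x * B (i + 1) x)
  exact ((hB _).mul_left).sub ((hB _).mul_left)

theorem contDiff_cr {A B : VF} {n : WithTop ℕ∞} (hA : ∀ i, ContDiff ℝ n (A i)) (hB : ∀ i, ContDiff ℝ n (B i))
    (i : Fin 3) : ContDiff ℝ n (cr A B i) := by
  unfold cr; exact ((hA _).mul (hB _)).sub ((hA _).mul (hB _))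

/-- the energy identity -/
theorem energy_identity {ν a : ℝ} {V Ψ : VF} {φ : E → ℝ} (hV : SmoothProfile ν a V)
    (hΨ : ∀ i, ContDiff ℝ 2 (Ψ i)) (hφ : ContDiff ℝ (⊤ : ℕ∞) φ) (hc : HasCompactSupport φ)
    (hcc : ∀ x, φ x ≠ 0 → ∀ i, curl (curl Ψ) i x = curl V i x) :
    ν * ∫ x, φ x * sq (curl V) x
      = - (ν * ∫ x, dot (curl V) (cr (grad φ) (curl Ψ)) x)
        - (ν * ∫ x, dot (curl V) (curl (cr (grad φ) Ψ)) x)
        - (∫ x, φ x * dot (cr (curl V) (drift a V)) (fun i y => curl Ψ i y - V i y) x)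
        - (∫ x, dot (cr (curl V) V) (cr (grad φ) Ψ) x)
        - a * (∫ x, φ x * dot (cr (curl V) Yf) V x)
        - a * (∫ x, dot (cr (curl V) Yf) (cr (grad φ) Ψ) x) := by
  -- regularity
  have hφ3 : ContDiff ℝ 3 φ := contDiff_infty.1 hφ 3
  have hφ2 : ContDiff ℝ 2 φ := hφ3.of_le (by norm_num)
  have hφ1 : ContDiff ℝ 1 φ := hφ3.of_le (by norm_num)
  have hg : ∀ i, ContDiff ℝ 2 (grad φ i) := fun i => contDiff_pd hφ3 (by norm_num)
  have hg1 : ∀ i, ContDiff ℝ 1 (grad φ i) := fun i => (hg i).of_le (by norm_num)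
  have sg : ∀ i, HasCompactSupport (grad φ i) := fun i => hasCompactSupport_pd hc
  have hω : ∀ i, ContDiff ℝ 2 (curl V i) := fun i => contDiff_curl hV.smooth (by norm_num) i
  have hω1 : ∀ i, ContDiff ℝ 1 (curl V i) := fun i => (hω i).of_le (by norm_num)
  have hccω : ∀ i, ContDiff ℝ 1 (curl (curl V) i) := fun i => contDiff_curl hω (by norm_num) i
  have hΨ1 : ∀ i, ContDiff ℝ 1 (Ψ i) := fun i => (hΨ i).of_le (by norm_num)
  have hcΨ : ∀ i, ContDiff ℝ 1 (curl Ψ i) := fun i => contDiff_curl hΨ (by norm_num) i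
  have hZ : ∀ i, ContDiff ℝ 1 (Zf ν a V i) := Zf_cont hV.smooth
  have hV1 : ∀ i, ContDiff ℝ 1 (V i) := fun i => (hV.smooth i).of_le (by norm_num)
  have hT : ∀ i, ContDiff ℝ 2 (sm φ Ψ i) := fun i => hφ2.mul (hΨ i)
  have sT : ∀ i, HasCompactSupport (sm φ Ψ i) := fun i => hc.mul_right
  have hw : ∀ i, ContDiff ℝ 1 (curl (sm φ Ψ) i) := fun i => contDiff_curl hT (by norm_num) i
  have sw : ∀ i, HasCompactSupport (curl (sm φ Ψ) i) := fun i => hasCompactSupport_curl sT i
  have dφ : Differentiable ℝ φ := hφ1.differentiable (by norm_num)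
  have dΨ : ∀ i, Differentiable ℝ (Ψ i) := fun i => (hΨ1 i).differentiable (by norm_num)
  have dcΨ : ∀ i, Differentiable ℝ (curl Ψ i) := fun i => (hcΨ i).differentiable (by norm_num)
  have cω : ∀ i, Continuous (curl V i) := fun i => (hω1 i).continuous
  have cV : ∀ i, Continuous (V i) := fun i => (hV1 i).continuous
  have cY : ∀ i, Continuous (Yf i) := fun i => (differentiable_coord i).continuous
  have cD : ∀ i, Continuous (drift a V i) := fun i => by
    unfold drift; exact (cV i).add (continuous_const.mul (cY i))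
  have cgr : ∀ i, Continuous (grad φ i) := fun i => (hg1 i).continuous
  -- first: `∫ Z·w = 0`
  have z0 : ∫ x, dot (Zf ν a V) (curl (sm φ Ψ)) x = 0 := by
    rw [← int_curl_dot hZ (fun i => (hT i).of_le (by norm_num)) sT]
    have : ∀ x, dot (curl (Zf ν a V)) (sm φ Ψ) x = 0 := by
      intro x
      unfold dot
      apply Finset.sum_eq_zero
      intro i _
      rw [hV.eq i x]; ring
    simp [this]
  -- split Z
  have zs : ∀ x, dot (Zf ν a V) (curl (sm φ Ψ)) x
      = ν * dot (curl (curl V)) (curl (sm φ Ψ)) x + dot (cr (curl V) (drift a V)) (curl (sm φ Ψ)) x := by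
    intro x
    unfold dot Zf
    rw [Finset.mul_sum, ← Finset.sum_add_distrib]
    congr 1; funext i; ring
  have Ia : Integrable (dot (curl (curl V)) (curl (sm φ Ψ))) :=
    integrable_of_cc (continuous_dot (fun i => (hccω i).continuous) (fun i => (hw i).continuous)) (sdot_right sw)
  have Ib : Integrable (dot (cr (curl V) (drift a V)) (curl (sm φ Ψ))) :=
    integrable_of_cc (continuous_dot (continuous_cr cω cD) (fun i => (hw i).continuous)) (sdot_right sw)
  have z1 : ν * (∫ x, dot (curl V) (curl (curl (sm φ Ψ))) x)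
      + ∫ x, dot (cr (curl V) (drift a V)) (curl (sm φ Ψ)) x = 0 := by
    rw [← int_curl_dot hω1 hw sw, ← integral_const_mul, ← integral_add (Ia.const_mul ν) Ib]
    rw [← z0]
    congr 1; funext x; rw [zs x]
  -- expansion of curl w
  have eqw : ∀ i, curl (sm φ Ψ) i = fun x => φ x * curl Ψ i x + cr (grad φ) Ψ i x := by
    intro i; funext x; exact curl_sm dφ dΨ i x
  have hcr : ∀ i, ContDiff ℝ 1 (cr (grad φ) Ψ i) := contDiff_cr hg1 hΨ1
  have scr : ∀ i, HasCompactSupport (cr (grad φ) Ψ i) := scr_left sg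
  have dcr : ∀ i, Differentiable ℝ (cr (grad φ) Ψ i) := fun i => (hcr i).differentiable (by norm_num)
  have dsm : ∀ i, Differentiable ℝ (sm φ (curl Ψ) i) := fun i => dφ.mul (dcΨ i)
  have eqcw : ∀ i x, curl (curl (sm φ Ψ)) i x
      = φ x * curl V i x + cr (grad φ) (curl Ψ) i x + curl (cr (grad φ) Ψ) i x := by
    intro i x
    have h1 : curl (curl (sm φ Ψ)) i x = curl (sm φ (curl Ψ)) i x + curl (cr (grad φ) Ψ) i x := by
      unfold curl
      have e : ∀ j, (fun x => pd (j + 1) (sm φ Ψ (j + 2)) x - pd (j + 2) (sm φ Ψ (j + 1)) x)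
          = fun x => sm φ (curl Ψ) j x + cr (grad φ) Ψ j x := by
        intro j; exact eqw j
      rw [e, e]
      have e' : ∀ k j, pd k (fun x => sm φ (curl Ψ) j x + cr (grad φ) Ψ j x) x
          = pd k (sm φ (curl Ψ) j) x + pd k (cr (grad φ) Ψ j) x := fun k j => pd_add (dsm j) (dcr j) x
      rw [e', e']
      show _ = pd (i + 1) (sm φ (curl Ψ) (i + 2)) x - pd (i + 2) (sm φ (curl Ψ) (i + 1)) x
        + (pd (i + 1) (cr (grad φ) Ψ (i + 2)) x - pd (i + 2) (cr (grad φ) Ψ (i + 1)) x)
      ring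
    rw [h1, curl_sm dφ dcΨ]
    by_cases hx : φ x = 0
    · rw [hx]; ring
    · rw [hcc x hx i]
  -- the viscous integral
  have v1 : ∀ x, dot (curl V) (curl (curl (sm φ Ψ))) x
      = (φ x * sq (curl V) x + dot (curl V) (cr (grad φ) (curl Ψ)) x) + dot (curl V) (curl (cr (grad φ) Ψ)) x := by
    intro x
    unfold dot sq
    rw [Finset.mul_sum, ← Finset.sum_add_distrib, ← Finset.sum_add_distrib]
    congr 1; funext i
    rw [eqcw i x]; ring
  have J1 : Integrable (fun x => φ x * sq (curl V) x) :=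
    integrable_of_cc (hφ1.continuous.mul (continuous_sq cω)) hc.mul_right
  have J2 : Integrable (dot (curl V) (cr (grad φ) (curl Ψ))) :=
    integrable_of_cc (continuous_dot cω (continuous_cr cgr (fun i => (hcΨ i).continuous)))
      (sdot_right (scr_left sg))
  have J3 : Integrable (dot (curl V) (curl (cr (grad φ) Ψ))) :=
    integrable_of_cc (continuous_dot cω (continuous_curl hcr)) (sdot_right (hasCompactSupport_curl scr))
  have v2 : ∫ x, dot (curl V) (curl (curl (sm φ Ψ))) x = (∫ x, φ x * sq (curl V) x)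
      + (∫ x, dot (curl V) (cr (grad φ) (curl Ψ)) x) + ∫ x, dot (curl V) (curl (cr (grad φ) Ψ)) x := by
    simp only [v1]
    have J12 : Integrable (fun x => φ x * sq (curl V) x + dot (curl V) (cr (grad φ) (curl Ψ)) x) := J1.add J2
    rw [integral_add J12 J3, integral_add J1 J2]
  -- the transport integral
  set e : VF := fun i y => curl Ψ i y - V i y with he
  have ce : ∀ i, Continuous (e i) := fun i => (hcΨ i).continuous.sub (cV i)
  have t1 : ∀ x, dot (cr (curl V) (drift a V)) (curl (sm φ Ψ)) x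
      = ((φ x * dot (cr (curl V) (drift a V)) e x + dot (cr (curl V) V) (cr (grad φ) Ψ) x)
        + a * (φ x * dot (cr (curl V) Yf) V x)) + a * dot (cr (curl V) Yf) (cr (grad φ) Ψ) x := by
    intro x
    have h1 : dot (cr (curl V) (drift a V)) (curl (sm φ Ψ)) x
        = φ x * dot (cr (curl V) (drift a V)) e x + φ x * dot (cr (curl V) (drift a V)) V x
          + dot (cr (curl V) (drift a V)) (cr (grad φ) Ψ) x := by
      unfold dot
      rw [Finset.mul_sum, Finset.mul_sum, ← Finset.sum_add_distrib, ← Finset.sum_add_distrib]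
      congr 1; funext i
      rw [eqw i]
      simp only [he]
      ring
    have h2 : ∀ B : VF, dot (cr (curl V) (drift a V)) B x = dot (cr (curl V) V) B x + a * dot (cr (curl V) Yf) B x := by
      intro B
      unfold dot
      rw [Finset.mul_sum, ← Finset.sum_add_distrib]
      congr 1; funext i
      rw [cr_drift]; ring
    rw [h1, h2 V, h2 (cr (grad φ) Ψ), dot_cr_self]
    ring
  have K1 : Integrable (fun x => φ x * dot (cr (curl V) (drift a V)) e x) :=
    integrable_of_cc (hφ1.continuous.mul (continuous_dot (continuous_cr cω cD) ce)) hc.mul_right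
  have K2 : Integrable (dot (cr (curl V) V) (cr (grad φ) Ψ)) :=
    integrable_of_cc (continuous_dot (continuous_cr cω cV) (fun i => (hcr i).continuous)) (sdot_right scr)
  have K3 : Integrable (fun x => a * (φ x * dot (cr (curl V) Yf) V x)) :=
    (integrable_of_cc (hφ1.continuous.mul (continuous_dot (continuous_cr cω cY) cV)) hc.mul_right).const_mul a
  have K4 : Integrable (fun x => a * dot (cr (curl V) Yf) (cr (grad φ) Ψ) x) :=
    (integrable_of_cc (continuous_dot (continuous_cr cω cY) (fun i => (hcr i).continuous)) (sdot_right scr)).const_mul a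
  have t2 : ∫ x, dot (cr (curl V) (drift a V)) (curl (sm φ Ψ)) x
      = (∫ x, φ x * dot (cr (curl V) (drift a V)) e x) + (∫ x, dot (cr (curl V) V) (cr (grad φ) Ψ) x)
        + a * (∫ x, φ x * dot (cr (curl V) Yf) V x) + a * ∫ x, dot (cr (curl V) Yf) (cr (grad φ) Ψ) x := by
    simp only [t1]
    have K12 : Integrable (fun x => φ x * dot (cr (curl V) (drift a V)) e x
        + dot (cr (curl V) V) (cr (grad φ) Ψ) x) := K1.add K2
    have K123 : Integrable (fun x => (φ x * dot (cr (curl V) (drift a V)) e x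
        + dot (cr (curl V) V) (cr (grad φ) Ψ) x) + a * (φ x * dot (cr (curl V) Yf) V x)) := K12.add K3
    rw [integral_add K123 K4, integral_add K12 K3, integral_add K1 K2, integral_const_mul, integral_const_mul]
  rw [v2, t2] at z1
  linarith

end Leray
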