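import Pool.Agent.Lib.MP_9b9638_an.Energy2

/-!
# The energy inequality on shells
-/

open MeasureTheory Set Filter Topology TopologicalSpace

noncomputable section

namespace Leray

theorem nm_drift_le {a : ℝ} (ha : 0 ≤ a) (V : VF) (x : E) : nm (drift a V) x ≤ nm V x + a * ‖x‖ := by
  have h := nm_add_le V (fun i y => a * Yf i y) x
  rw [nm_smul, nm_Yf, abs_of_nonneg ha] at h
  exact h

theorem energy_shell (ν a : ℝ) (hν : 0 < ν) (ha : 0 < a) : ∃ C : ℝ, 0 < C ∧ ∀ (V Ψ : VF) (r η ε : ℝ),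
    SmoothProfile ν a V → (∀ i, ContDiff ℝ 2 (Ψ i)) → 1 ≤ r → 0 < η → η ≤ r → 0 ≤ ε →
    (∀ x, ‖x‖ ≤ r + η → nm (fun i y => curl Ψ i y - V i y) x ≤ ε) →
    (∀ x, ‖x‖ < r + 2 * η → ∀ i, curl (curl Ψ) i x = curl V i x) →
    W V r ≤ C * (
        η⁻¹ * (∫ x in Sh r (r + η), nm (curl V) x * nm V x)
      + η⁻¹ ^ 2 * (∫ x in Sh r (r + η), nm (curl V) x * nm Ψ x)
      + η⁻¹ * (∫ x in Sh r (r + η), nm (curl V) x * gnm Ψ x)
      + η⁻¹ * (∫ x in Sh r (r + η), nm (curl V) x * nm V x * nm Ψ x)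
      + (∫ x in Metric.ball (0 : E) (r + η), sq V x)
      + r * η⁻¹ * (∫ x in Sh r (r + η), sq V x)
      + r * η⁻¹ ^ 2 * (∫ x in Sh r (r + η), nm V x * nm Ψ x)
      + r * η⁻¹ * (∫ x in Sh r (r + η), nm V x * gnm Ψ x)
      + ε * (1 + η⁻¹) * ∫ x in Metric.closedBall (0 : E) (r + η), nm (curl V) x * (1 + nm V x + ‖x‖)) := by
  obtain ⟨c, hc, hcut⟩ := exists_cutoff
  refine ⟨ν⁻¹ * (124 * (ν * c) + 2 * c + a * (1 / 2) + 1590 * (a * c) + (1 + a)), by positivity, ?_⟩
  intro V Ψ r η ε hV hΨ hr hη hηr hε he hcc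
  obtain ⟨φ, hφ, hφc, hφ0, hφ1, hφr, hφs, hφd, hφdd, hφz, hφzz⟩ := hcut r η hη hηr
  have hφ3 : ContDiff ℝ 3 φ := contDiff_infty.1 hφ 3
  have hφC1 : ContDiff ℝ 1 φ := hφ3.of_le (by norm_num)
  have hr0 : 0 < r := by linarith
  have hηi : 0 < η⁻¹ := inv_pos.2 hη
  -- supports
  have hcc' : ∀ x, φ x ≠ 0 → ∀ i, curl (curl Ψ) i x = curl V i x := by
    intro x hx i
    apply hcc x
    by_contra hcon
    push Not at hcon
    exact hx (hφs x (by linarith))
  have hid := energy_identity hV hΨ hφ hφc hcc'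
  set ω := curl V with hω
  set e : VF := fun i y => curl Ψ i y - V i y with hedef
  -- continuity
  have hω1 : ∀ i, ContDiff ℝ 1 (ω i) := fun i => contDiff_curl hV.smooth (by norm_num) i
  have cω : ∀ i, Continuous (ω i) := fun i => (hω1 i).continuous
  have hV1 : ∀ i, ContDiff ℝ 1 (V i) := fun i => (hV.smooth i).of_le (by norm_num)
  have cV : ∀ i, Continuous (V i) := fun i => (hV1 i).continuous
  have hΨ1 : ∀ i, ContDiff ℝ 1 (Ψ i) := fun i => (hΨ i).of_le (by norm_num)
  have cΨ : ∀ i, Continuous (Ψ i) := fun i => (hΨ1 i).continuous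
  have hcΨ : ∀ i, ContDiff ℝ 1 (curl Ψ i) := fun i => contDiff_curl hΨ (by norm_num) i
  have cY : ∀ i, Continuous (Yf i) := fun i => (differentiable_coord i).continuous
  have cD : ∀ i, Continuous (drift a V i) := fun i => by
    unfold drift; exact (cV i).add (continuous_const.mul (cY i))
  have hg : ∀ i, ContDiff ℝ 2 (grad φ i) := fun i => contDiff_pd hφ3 (by norm_num)
  have hg1 : ∀ i, ContDiff ℝ 1 (grad φ i) := fun i => (hg i).of_le (by norm_num)
  have dg : ∀ i, Differentiable ℝ (grad φ i) := fun i => (hg1 i).differentiable (by norm_num)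
  have dΨ : ∀ i, Differentiable ℝ (Ψ i) := fun i => (hΨ1 i).differentiable (by norm_num)
  have cgr : ∀ i, Continuous (grad φ i) := fun i => (hg1 i).continuous
  have sg : ∀ i, HasCompactSupport (grad φ i) := fun i => hasCompactSupport_pd hφc
  have hQ : ∀ i, ContDiff ℝ 1 (cr (grad φ) Ψ i) := contDiff_cr hg1 hΨ1
  have sQ : ∀ i, HasCompactSupport (cr (grad φ) Ψ i) := scr_left sg
  have dQ : ∀ i, Differentiable ℝ (cr (grad φ) Ψ i) := fun i => (hQ i).differentiable (by norm_num)
  have ce : ∀ i, Continuous (e i) := fun i => (hcΨ i).continuous.sub (cV i)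
  have cnω := continuous_nm cω
  have cnV := continuous_nm cV
  have cnΨ := continuous_nm cΨ
  have cgΨ := continuous_gnm hΨ1
  -- pointwise bounds of the cutoff
  have g1 : ∀ x, nm (grad φ) x ≤ 2 * c * η⁻¹ := fun x => by
    have := nm_le_of_abs (F := grad φ) (x := x) (c := c / η) (by positivity) (fun i => hφd x i)
    calc _ ≤ 2 * (c / η) := this
      _ = 2 * c * η⁻¹ := by ring
  have g2 : ∀ x, gnm (grad φ) x ≤ 3 * c * η⁻¹ ^ 2 := fun x => by
    have := gnm_le_of_abs (F := grad φ) (x := x) (c := c / η ^ 2) (by positivity) (fun i j => hφdd x j i)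
    calc _ ≤ 3 * (c / η ^ 2) := this
      _ = 3 * c * η⁻¹ ^ 2 := by ring
  have g1z : ∀ x, x ∉ Sh r (r + η) → nm (grad φ) x = 0 := fun x hx => by
    unfold nm sq grad
    simp [hφz x hx]
  have g2z : ∀ x, x ∉ Sh r (r + η) → gnm (grad φ) x = 0 := fun x hx => by
    unfold gnm gsq grad
    simp [hφzz x hx]
  have nQ : ∀ x, nm (cr (grad φ) Ψ) x ≤ nm (grad φ) x * nm Ψ x := fun x => nm_cr_le _ _ x
  have gQ : ∀ x, gnm (cr (grad φ) Ψ) x ≤ 6 * (gnm (grad φ) x * nm Ψ x + nm (grad φ) x * gnm Ψ x) :=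
    fun x => gnm_cr_le dg dΨ x
  have cQ : ∀ x, nm (curl (cr (grad φ) Ψ)) x ≤ 24 * (gnm (grad φ) x * nm Ψ x + nm (grad φ) x * gnm Ψ x) := fun x => by
    have h1 := nm_curl_le (cr (grad φ) Ψ) x
    have h2 := gQ x
    linarith
  -- integrability on the sets
  have IS : ∀ {G : E → ℝ}, Continuous G → IntegrableOn G (Sh r (r + η)) := fun hG => cont_int_on (Sh_sub _ _) hG
  have IB : ∀ {G : E → ℝ}, Continuous G → IntegrableOn G (Metric.ball (0 : E) (r + η)) :=
    fun hG => cont_int_on (ball_sub' _) hG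
  have IC : ∀ {G : E → ℝ}, Continuous G → IntegrableOn G (Metric.closedBall (0 : E) (r + η)) :=
    fun hG => cont_int_on ⟨_, subset_rfl⟩ hG
  have mS := measurableSet_Sh r (r + η)
  have mC : MeasurableSet (Metric.closedBall (0 : E) (r + η)) := measurableSet_closedBall
  -- names for the integrals
  set A1 := ∫ x in Sh r (r + η), nm ω x * nm V x with hA1
  set A2 := ∫ x in Sh r (r + η), nm ω x * nm Ψ x with hA2
  set A3 := ∫ x in Sh r (r + η), nm ω x * gnm Ψ x with hA3
  set A4 := ∫ x in Sh r (r + η), nm ω x * nm V x * nm Ψ x with hA4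
  set A5 := ∫ x in Metric.ball (0 : E) (r + η), sq V x with hA5
  set A6 := ∫ x in Sh r (r + η), sq V x with hA6
  set A7 := ∫ x in Sh r (r + η), nm V x * nm Ψ x with hA7
  set A8 := ∫ x in Sh r (r + η), nm V x * gnm Ψ x with hA8
  set A9 := ∫ x in Metric.closedBall (0 : E) (r + η), nm ω x * (1 + nm V x + ‖x‖) with hA9
  have p1 : 0 ≤ A1 := setIntegral_nonneg mS fun x _ => mul_nonneg (nm_nonneg _ _) (nm_nonneg _ _)
  have p2 : 0 ≤ A2 := setIntegral_nonneg mS fun x _ => mul_nonneg (nm_nonneg _ _) (nm_nonneg _ _)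
  have p3 : 0 ≤ A3 := setIntegral_nonneg mS fun x _ => mul_nonneg (nm_nonneg _ _) (gnm_nonneg _ _)
  have p4 : 0 ≤ A4 := setIntegral_nonneg mS fun x _ => mul_nonneg (mul_nonneg (nm_nonneg _ _) (nm_nonneg _ _)) (nm_nonneg _ _)
  have p5 : 0 ≤ A5 := setIntegral_nonneg measurableSet_ball fun x _ => sq_nonneg' _ _
  have p6 : 0 ≤ A6 := setIntegral_nonneg mS fun x _ => sq_nonneg' _ _
  have p7 : 0 ≤ A7 := setIntegral_nonneg mS fun x _ => mul_nonneg (nm_nonneg _ _) (nm_nonneg _ _)
  have p8 : 0 ≤ A8 := setIntegral_nonneg mS fun x _ => mul_nonneg (nm_nonneg _ _) (gnm_nonneg _ _)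
  have p9 : 0 ≤ A9 := setIntegral_nonneg mC fun x _ => mul_nonneg (nm_nonneg _ _)
    (by have := nm_nonneg V x; positivity)
  -- T1
  have J2 : Integrable (dot ω (cr (grad φ) (curl Ψ))) :=
    integrable_of_cc (continuous_dot cω (continuous_cr cgr (fun i => (hcΨ i).continuous))) (sdot_right (scr_left sg))
  have T1 : |∫ x, dot ω (cr (grad φ) (curl Ψ)) x| ≤ 2 * c * η⁻¹ * A1 + 2 * c * η⁻¹ * ε * A9 := by
    have hs : |∫ x, dot ω (cr (grad φ) (curl Ψ)) x|
        ≤ ∫ x in Sh r (r + η), (2 * c * η⁻¹ * (nm ω x * nm V x) + 2 * c * η⁻¹ * ε * (nm ω x * (1 + nm V x + ‖x‖))) := by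
      apply abs_int_le_set mS J2 (IS (by fun_prop))
      · intro x hx
        have hxn : ‖x‖ ≤ r + η := hx.2
        have b1 : |dot ω (cr (grad φ) (curl Ψ)) x| ≤ nm ω x * (nm (grad φ) x * nm (curl Ψ) x) :=
          (abs_dot_le _ _ _).trans (mul_le_mul_of_nonneg_left (nm_cr_le _ _ x) (nm_nonneg _ _))
        have b2 : nm (curl Ψ) x ≤ nm V x + ε := by
          have h := nm_add_le V e x
          have : (fun i y => V i y + e i y) = curl Ψ := by
            funext i y; simp [hedef]
          rw [this] at h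
          linarith [he x hxn]
        have n1 := nm_nonneg ω x
        have n2 := nm_nonneg V x
        have n3 := nm_nonneg (curl Ψ) x
        have n4 := nm_nonneg (grad φ) x
        calc _ ≤ nm ω x * (nm (grad φ) x * nm (curl Ψ) x) := b1
          _ ≤ nm ω x * (2 * c * η⁻¹ * (nm V x + ε)) := by
              gcongr
              exact g1 x
          _ = 2 * c * η⁻¹ * (nm ω x * nm V x) + 2 * c * η⁻¹ * ε * (nm ω x * 1) := by ring
          _ ≤ _ := by
              gcongr
              have := norm_nonneg x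
              linarith
      · intro x hx
        have b1 : |dot ω (cr (grad φ) (curl Ψ)) x| ≤ nm ω x * (nm (grad φ) x * nm (curl Ψ) x) :=
          (abs_dot_le _ _ _).trans (mul_le_mul_of_nonneg_left (nm_cr_le _ _ x) (nm_nonneg _ _))
        rw [g1z x hx] at b1
        simpa using b1
    have hint : ∫ x in Sh r (r + η), (2 * c * η⁻¹ * (nm ω x * nm V x) + 2 * c * η⁻¹ * ε * (nm ω x * (1 + nm V x + ‖x‖)))
        = 2 * c * η⁻¹ * A1 + 2 * c * η⁻¹ * ε * ∫ x in Sh r (r + η), (nm ω x * (1 + nm V x + ‖x‖)) := by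
      rw [integral_add (IS (by fun_prop)) (IS (by fun_prop)), integral_const_mul, integral_const_mul]
    have hsub : ∫ x in Sh r (r + η), (nm ω x * (1 + nm V x + ‖x‖)) ≤ A9 := by
      apply setIntegral_mono_set (IC (by fun_prop))
      · exact Eventually.of_forall fun x => mul_nonneg (nm_nonneg _ _) (by have := nm_nonneg V x; positivity)
      · apply HasSubset.Subset.eventuallyLE
        intro x hx
        simpa using hx.2
    rw [hint] at hs
    calc _ ≤ _ := hs
      _ ≤ _ := by gcongr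
  -- T2
  have J3 : Integrable (dot ω (curl (cr (grad φ) Ψ))) :=
    integrable_of_cc (continuous_dot cω (continuous_curl hQ)) (sdot_right (hasCompactSupport_curl sQ))
  have T2 : |∫ x, dot ω (curl (cr (grad φ) Ψ)) x| ≤ 72 * c * η⁻¹ ^ 2 * A2 + 48 * c * η⁻¹ * A3 := by
    have hs : |∫ x, dot ω (curl (cr (grad φ) Ψ)) x|
        ≤ ∫ x in Sh r (r + η), (72 * c * η⁻¹ ^ 2 * (nm ω x * nm Ψ x) + 48 * c * η⁻¹ * (nm ω x * gnm Ψ x)) := by
      apply abs_int_le_set mS J3 (IS (by fun_prop))
      · intro x hx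
        have b1 : |dot ω (curl (cr (grad φ) Ψ)) x| ≤ nm ω x * (24 * (gnm (grad φ) x * nm Ψ x + nm (grad φ) x * gnm Ψ x)) :=
          (abs_dot_le _ _ _).trans (mul_le_mul_of_nonneg_left (cQ x) (nm_nonneg _ _))
        have n1 := nm_nonneg ω x
        have n2 := nm_nonneg Ψ x
        have n3 := gnm_nonneg Ψ x
        calc _ ≤ nm ω x * (24 * (gnm (grad φ) x * nm Ψ x + nm (grad φ) x * gnm Ψ x)) := b1
          _ ≤ nm ω x * (24 * (3 * c * η⁻¹ ^ 2 * nm Ψ x + 2 * c * η⁻¹ * gnm Ψ x)) := by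
              gcongr
              · exact g2 x
              · exact g1 x
          _ = _ := by ring
      · intro x hx
        have b1 : |dot ω (curl (cr (grad φ) Ψ)) x| ≤ nm ω x * (24 * (gnm (grad φ) x * nm Ψ x + nm (grad φ) x * gnm Ψ x)) :=
          (abs_dot_le _ _ _).trans (mul_le_mul_of_nonneg_left (cQ x) (nm_nonneg _ _))
        rw [g1z x hx, g2z x hx] at b1
        simpa using b1
    rw [integral_add (IS (by fun_prop)) (IS (by fun_prop)), integral_const_mul, integral_const_mul] at hs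
    exact hs
  -- T3
  have K1 : Integrable (fun x => φ x * dot (cr ω (drift a V)) e x) :=
    integrable_of_cc (hφC1.continuous.mul (continuous_dot (continuous_cr cω cD) ce)) hφc.mul_right
  have T3 : |∫ x, φ x * dot (cr ω (drift a V)) e x| ≤ ε * (1 + a) * A9 := by
    have hs : |∫ x, φ x * dot (cr ω (drift a V)) e x|
        ≤ ∫ x in Metric.closedBall (0 : E) (r + η), (ε * (1 + a) * (nm ω x * (1 + nm V x + ‖x‖))) := by
      apply abs_int_le_set mC K1 (IC (by fun_prop))
      · intro x hx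
        have hxn : ‖x‖ ≤ r + η := by simpa using hx
        have n1 := nm_nonneg ω x
        have n2 := nm_nonneg V x
        have n3 := nm_nonneg (drift a V) x
        have n4 := nm_nonneg e x
        have b1 : |dot (cr ω (drift a V)) e x| ≤ nm ω x * nm (drift a V) x * nm e x :=
          (abs_dot_le _ _ _).trans (mul_le_mul_of_nonneg_right (nm_cr_le _ _ x) (nm_nonneg _ _))
        have b2 := nm_drift_le ha.le V x
        have hnx := norm_nonneg x
        rw [abs_mul, abs_of_nonneg (hφ0 x)]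
        calc φ x * |dot (cr ω (drift a V)) e x| ≤ 1 * (nm ω x * nm (drift a V) x * nm e x) := by
              gcongr
              exact hφ1 x
          _ ≤ 1 * (nm ω x * (nm V x + a * ‖x‖) * ε) := by
              gcongr
              exact he x hxn
          _ = ε * (nm ω x * (nm V x + a * ‖x‖)) := by ring
          _ ≤ ε * (nm ω x * ((1 + a) * (1 + nm V x + ‖x‖))) := by
              gcongr
              nlinarith [mul_nonneg ha.le n2]
          _ = _ := by ring
      · intro x hx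
        have : φ x = 0 := hφs x (by
          simp at hx
          exact hx.le)
        rw [this, zero_mul]
    rw [integral_const_mul] at hs
    exact hs
  -- T4
  have K2 : Integrable (dot (cr ω V) (cr (grad φ) Ψ)) :=
    integrable_of_cc (continuous_dot (continuous_cr cω cV) (fun i => (hQ i).continuous)) (sdot_right sQ)
  have T4 : |∫ x, dot (cr ω V) (cr (grad φ) Ψ) x| ≤ 2 * c * η⁻¹ * A4 := by
    have b0 : ∀ x, |dot (cr ω V) (cr (grad φ) Ψ) x| ≤ (nm ω x * nm V x) * (nm (grad φ) x * nm Ψ x) := fun x =>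
      (abs_dot_le _ _ _).trans (mul_le_mul (nm_cr_le _ _ x) (nm_cr_le _ _ x) (nm_nonneg _ _)
        (mul_nonneg (nm_nonneg _ _) (nm_nonneg _ _)))
    have hs : |∫ x, dot (cr ω V) (cr (grad φ) Ψ) x|
        ≤ ∫ x in Sh r (r + η), (2 * c * η⁻¹ * (nm ω x * nm V x * nm Ψ x)) := by
      apply abs_int_le_set mS K2 (IS (by fun_prop))
      · intro x hx
        have n1 := nm_nonneg ω x
        have n2 := nm_nonneg V x
        have n3 := nm_nonneg Ψ x
        calc _ ≤ (nm ω x * nm V x) * (nm (grad φ) x * nm Ψ x) := b0 x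
          _ ≤ (nm ω x * nm V x) * (2 * c * η⁻¹ * nm Ψ x) := by
              gcongr
              exact g1 x
          _ = _ := by ring
      · intro x hx
        have b1 := b0 x
        rw [g1z x hx] at b1
        simpa using b1
    rw [integral_const_mul] at hs
    exact hs
  -- T5
  have T5 : |∫ x, φ x * dot (cr ω Yf) V x| ≤ 1 / 2 * A5 + 6 * c * (r * η⁻¹) * A6 := by
    rw [transport_one (fun i => (hV.smooth i).of_le (by norm_num)) hV.div0 (hφ3.of_le (by norm_num)) hφc]
    have csV := continuous_sq cV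
    have sdg : ∀ A : VF, HasCompactSupport (dot A (grad φ)) := fun A => sdot_right sg
    have L1 : Integrable (fun x => - (1 / 2) * φ x * sq V x) :=
      integrable_of_cc ((continuous_const.mul hφC1.continuous).mul csV)
        ((hφc.mul_left (f := fun _ => - (1 / 2 : ℝ))).mul_right)
    have L2 : Integrable (fun x => (1 / 2) * dot Yf (grad φ) x * sq V x) :=
      integrable_of_cc ((continuous_const.mul (continuous_dot cY cgr)).mul csV)
        (((sdg Yf).mul_left (f := fun _ => (1 / 2 : ℝ))).mul_right)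
    have L3 : Integrable (fun x => dot Yf V x * dot V (grad φ) x) :=
      integrable_of_cc ((continuous_dot cY cV).mul (continuous_dot cV cgr)) (sdg V).mul_left
    have L12 : Integrable (fun x => - (1 / 2) * φ x * sq V x - (1 / 2) * dot Yf (grad φ) x * sq V x) := L1.sub L2
    rw [integral_add L12 L3, integral_sub L1 L2]
    have B1 : |∫ x, - (1 / 2) * φ x * sq V x| ≤ 1 / 2 * A5 := by
      have hs : |∫ x, - (1 / 2) * φ x * sq V x| ≤ ∫ x in Metric.ball (0 : E) (r + η), (1 / 2 * sq V x) := by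
        apply abs_int_le_set measurableSet_ball L1 (IB (by fun_prop))
        · intro x _
          rw [abs_mul, abs_mul, abs_of_nonneg (hφ0 x), abs_of_nonneg (sq_nonneg' V x)]
          have := sq_nonneg' V x
          have h1 := hφ1 x
          have h0 := hφ0 x
          rw [show |(-(1 / 2) : ℝ)| = 1 / 2 by norm_num]
          calc 1 / 2 * φ x * sq V x ≤ 1 / 2 * 1 * sq V x := by gcongr
            _ = 1 / 2 * sq V x := by ring
        · intro x hx
          have : φ x = 0 := hφs x (by simpa using hx)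
          rw [this]; ring
      rw [integral_const_mul] at hs
      exact hs
    have hx2 : ∀ x ∈ Sh r (r + η), ‖x‖ ≤ 2 * r := fun x hx => by linarith [hx.2]
    have B2 : |∫ x, (1 / 2) * dot Yf (grad φ) x * sq V x| ≤ 2 * c * (r * η⁻¹) * A6 := by
      have b0 : ∀ x, |(1 / 2) * dot Yf (grad φ) x * sq V x| ≤ 1 / 2 * (‖x‖ * nm (grad φ) x) * sq V x := fun x => by
        rw [abs_mul, abs_mul, abs_of_nonneg (sq_nonneg' V x), abs_of_nonneg (show (0:ℝ) ≤ 1 / 2 by norm_num)]
        have h := abs_dot_le Yf (grad φ) x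
        rw [nm_Yf] at h
        have := sq_nonneg' V x
        gcongr
      have hs : |∫ x, (1 / 2) * dot Yf (grad φ) x * sq V x| ≤ ∫ x in Sh r (r + η), (2 * c * (r * η⁻¹) * sq V x) := by
        apply abs_int_le_set mS L2 (IS (by fun_prop))
        · intro x hx
          have hq := sq_nonneg' V x
          have hng := nm_nonneg (grad φ) x
          calc _ ≤ 1 / 2 * (‖x‖ * nm (grad φ) x) * sq V x := b0 x
            _ ≤ 1 / 2 * ((2 * r) * (2 * c * η⁻¹)) * sq V x := by
                gcongr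
                · exact hx2 x hx
                · exact g1 x
            _ = _ := by ring
        · intro x hx
          have b1 := b0 x
          rw [g1z x hx] at b1
          exact abs_nonpos_iff.1 (b1.trans_eq (by ring))
      rw [integral_const_mul] at hs
      exact hs
    have B3 : |∫ x, dot Yf V x * dot V (grad φ) x| ≤ 4 * c * (r * η⁻¹) * A6 := by
      have b0 : ∀ x, |dot Yf V x * dot V (grad φ) x| ≤ (‖x‖ * nm (grad φ) x) * sq V x := fun x => by
        rw [abs_mul, ← nm_sq V x]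
        have h := abs_dot_le Yf V x
        have h2 := abs_dot_le V (grad φ) x
        rw [nm_Yf] at h
        have hq := nm_nonneg V x
        calc |dot Yf V x| * |dot V (grad φ) x| ≤ (‖x‖ * nm V x) * (nm V x * nm (grad φ) x) := by gcongr
          _ = _ := by ring
      have hs : |∫ x, dot Yf V x * dot V (grad φ) x| ≤ ∫ x in Sh r (r + η), (4 * c * (r * η⁻¹) * sq V x) := by
        apply abs_int_le_set mS L3 (IS (by fun_prop))
        · intro x hx
          have hq := sq_nonneg' V x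
          have hng := nm_nonneg (grad φ) x
          calc _ ≤ (‖x‖ * nm (grad φ) x) * sq V x := b0 x
            _ ≤ ((2 * r) * (2 * c * η⁻¹)) * sq V x := by
                gcongr
                · exact hx2 x hx
                · exact g1 x
            _ = _ := by ring
        · intro x hx
          have b1 := b0 x
          rw [g1z x hx] at b1
          exact abs_nonpos_iff.1 (b1.trans_eq (by ring))
      rw [integral_const_mul] at hs
      exact hs
    have tri : ∀ u v w : ℝ, |u - v + w| ≤ |u| + |v| + |w| := fun u v w =>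
      (abs_add_le _ _).trans (by gcongr; exact abs_sub _ _)
    calc _ ≤ _ := tri _ _ _
      _ ≤ 1 / 2 * A5 + 2 * c * (r * η⁻¹) * A6 + 4 * c * (r * η⁻¹) * A6 := by gcongr
      _ = _ := by ring
  -- T6
  have hYQ : ∀ i, ContDiff ℝ 1 (cr Yf (cr (grad φ) Ψ) i) := contDiff_cr (fun i => contDiff_coord i) hQ
  have K4 : Integrable (dot V (curl (cr Yf (cr (grad φ) Ψ)))) :=
    integrable_of_cc (continuous_dot cV (continuous_curl hYQ)) (sdot_right (hasCompactSupport_curl (scr_right sQ)))
  have T6 : |∫ x, dot (cr ω Yf) (cr (grad φ) Ψ) x| ≤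
      (144 * c + 864 * c) * (r * η⁻¹ ^ 2) * A7 + 576 * c * (r * η⁻¹) * A8 := by
    rw [transport_two (fun i => (hV.smooth i).of_le (by norm_num)) (hφ3.of_le (by norm_num)) hφc hΨ1]
    have b0 : ∀ x, |dot V (curl (cr Yf (cr (grad φ) Ψ))) x| ≤ nm V x * (24 * (3 * (nm (grad φ) x * nm Ψ x)
        + ‖x‖ * (6 * (gnm (grad φ) x * nm Ψ x + nm (grad φ) x * gnm Ψ x)))) := fun x => by
      refine (abs_dot_le _ _ _).trans (mul_le_mul_of_nonneg_left ?_ (nm_nonneg _ _))
      have h1 := nm_curl_le (cr Yf (cr (grad φ) Ψ)) x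
      have h2 := gnm_cr_le (A := Yf) (B := cr (grad φ) Ψ) differentiable_coord dQ x
      rw [nm_Yf] at h2
      have h3 := gnm_Yf_le x
      have h4 := nQ x
      have h5 := gQ x
      have h6 := gnm_nonneg Yf x
      have h7 := nm_nonneg (cr (grad φ) Ψ) x
      have h8 : gnm Yf x * nm (cr (grad φ) Ψ) x ≤ 3 * (nm (grad φ) x * nm Ψ x) := by
        gcongr
      have h9 : ‖x‖ * gnm (cr (grad φ) Ψ) x ≤ ‖x‖ * (6 * (gnm (grad φ) x * nm Ψ x + nm (grad φ) x * gnm Ψ x)) := by
        gcongr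
      linarith
    have hs : |∫ x, dot V (curl (cr Yf (cr (grad φ) Ψ))) x|
        ≤ ∫ x in Sh r (r + η), ((144 * c + 864 * c) * (r * η⁻¹ ^ 2) * (nm V x * nm Ψ x)
            + 576 * c * (r * η⁻¹) * (nm V x * gnm Ψ x)) := by
      apply abs_int_le_set mS K4 (IS (by fun_prop))
      · intro x hx
        have hx2 : ‖x‖ ≤ 2 * r := by linarith [hx.2]
        have n1 := nm_nonneg V x
        have n2 := nm_nonneg Ψ x
        have n3 := gnm_nonneg Ψ x
        have n4 := nm_nonneg (grad φ) x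
        have n5 := gnm_nonneg (grad φ) x
        have hle : η⁻¹ ≤ r * η⁻¹ ^ 2 := by
          have : η⁻¹ * η = 1 := inv_mul_cancel₀ hη.ne'
          calc η⁻¹ = η⁻¹ ^ 2 * η := by rw [pow_two, mul_assoc, this, mul_one]
            _ ≤ η⁻¹ ^ 2 * r := by gcongr
            _ = _ := by ring
        calc _ ≤ _ := b0 x
          _ ≤ nm V x * (24 * (3 * (2 * c * η⁻¹ * nm Ψ x)
              + 2 * r * (6 * (3 * c * η⁻¹ ^ 2 * nm Ψ x + 2 * c * η⁻¹ * gnm Ψ x)))) := by
              gcongr
              · exact g1 x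
              · exact g2 x
              · exact g1 x
          _ = 144 * c * η⁻¹ * (nm V x * nm Ψ x) + 864 * c * (r * η⁻¹ ^ 2) * (nm V x * nm Ψ x)
              + 576 * c * (r * η⁻¹) * (nm V x * gnm Ψ x) := by ring
          _ ≤ 144 * c * (r * η⁻¹ ^ 2) * (nm V x * nm Ψ x) + 864 * c * (r * η⁻¹ ^ 2) * (nm V x * nm Ψ x)
              + 576 * c * (r * η⁻¹) * (nm V x * gnm Ψ x) := by gcongr
          _ = _ := by ring
      · intro x hx
        have b1 := b0 x
        rw [g1z x hx, g2z x hx] at b1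
        simpa using b1
    rw [integral_add (IS (by fun_prop)) (IS (by fun_prop)), integral_const_mul, integral_const_mul] at hs
    exact hs
  -- lower bound of the left side
  have J1 : Integrable (fun x => φ x * sq ω x) :=
    integrable_of_cc (hφC1.continuous.mul (continuous_sq cω)) hφc.mul_right
  have hW : W V r ≤ ∫ x, φ x * sq ω x := by
    unfold W
    calc ∫ x in Metric.ball (0 : E) r, sq (curl V) x = ∫ x in Metric.ball (0 : E) r, φ x * sq ω x := by
          apply setIntegral_congr_fun measurableSet_ball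
          intro x hx
          show sq (curl V) x = φ x * sq ω x
          rw [hφr x (by
            have : ‖x‖ < r := by simpa using hx
            exact this.le), one_mul]
      _ ≤ ∫ x, φ x * sq ω x :=
          setIntegral_le_integral J1 (Eventually.of_forall fun x => mul_nonneg (hφ0 x) (sq_nonneg' _ _))
  -- conclusion
  have main : ν * W V r ≤ ν * (2 * c * η⁻¹ * A1 + 2 * c * η⁻¹ * ε * A9)
      + ν * (72 * c * η⁻¹ ^ 2 * A2 + 48 * c * η⁻¹ * A3) + ε * (1 + a) * A9 + 2 * c * η⁻¹ * A4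
      + a * (1 / 2 * A5 + 6 * c * (r * η⁻¹) * A6)
      + a * ((144 * c + 864 * c) * (r * η⁻¹ ^ 2) * A7 + 576 * c * (r * η⁻¹) * A8) := by
    have h1 : ν * W V r ≤ ν * ∫ x, φ x * sq ω x := by gcongr
    rw [hid] at h1
    have a1 := abs_le.1 T1
    have a2 := abs_le.1 T2
    have a3 := abs_le.1 T3
    have a4 := abs_le.1 T4
    have a5 := abs_le.1 T5
    have a6 := abs_le.1 T6
    have m1 := mul_le_mul_of_nonneg_left a1.1 hν.le
    have m2 := mul_le_mul_of_nonneg_left a2.1 hν.le
    have m5 := mul_le_mul_of_nonneg_left a5.1 ha.le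
    have m6 := mul_le_mul_of_nonneg_left a6.1 ha.le
    linarith [a3.1, a4.1]
  set K := 124 * (ν * c) + 2 * c + a * (1 / 2) + 1590 * (a * c) + (1 + a) with hK
  set X := η⁻¹ * A1 + η⁻¹ ^ 2 * A2 + η⁻¹ * A3 + η⁻¹ * A4 + A5 + r * η⁻¹ * A6 + r * η⁻¹ ^ 2 * A7 + r * η⁻¹ * A8
    + ε * (1 + η⁻¹) * A9 with hX
  have q1 : 0 ≤ η⁻¹ * A1 := by positivity
  have q2 : 0 ≤ η⁻¹ ^ 2 * A2 := by positivity
  have q3 : 0 ≤ η⁻¹ * A3 := by positivity
  have q4 : 0 ≤ η⁻¹ * A4 := by positivity
  have q6 : 0 ≤ r * η⁻¹ * A6 := by positivity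
  have q7 : 0 ≤ r * η⁻¹ ^ 2 * A7 := by positivity
  have q8 : 0 ≤ r * η⁻¹ * A8 := by positivity
  have q9 : 0 ≤ ε * (1 + η⁻¹) * A9 := by positivity
  have q9a : ε * A9 ≤ ε * (1 + η⁻¹) * A9 := by
    have : 0 ≤ ε * η⁻¹ * A9 := by positivity
    nlinarith
  have q9b : ε * η⁻¹ * A9 ≤ ε * (1 + η⁻¹) * A9 := by
    have : 0 ≤ ε * A9 := by positivity
    nlinarith
  have fin : ν * W V r ≤ K * X := by
    have m1 : 0 < ν * c := mul_pos hν hc
    have m2 : 0 < a * c := mul_pos ha hc
    have k1 : ν * (2 * c) ≤ K := by rw [hK]; linarith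
    have k2 : ν * (72 * c) ≤ K := by rw [hK]; linarith
    have k3 : ν * (48 * c) ≤ K := by rw [hK]; linarith
    have k4 : 2 * c ≤ K := by rw [hK]; linarith
    have k5 : a * (1 / 2) ≤ K := by rw [hK]; linarith
    have k6 : a * (6 * c) ≤ K := by rw [hK]; linarith
    have k7 : a * (144 * c + 864 * c) ≤ K := by rw [hK]; linarith
    have k8 : a * (576 * c) ≤ K := by rw [hK]; linarith
    have k9 : (1 + a) + ν * (2 * c) ≤ K := by rw [hK]; linarith
    have e9 : ν * (2 * c * η⁻¹ * ε * A9) + ε * (1 + a) * A9 ≤ K * (ε * (1 + η⁻¹) * A9) := by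
      calc ν * (2 * c * η⁻¹ * ε * A9) + ε * (1 + a) * A9 = ν * (2 * c) * (ε * η⁻¹ * A9) + (1 + a) * (ε * A9) := by ring
        _ ≤ ν * (2 * c) * (ε * (1 + η⁻¹) * A9) + (1 + a) * (ε * (1 + η⁻¹) * A9) := by gcongr
        _ = ((1 + a) + ν * (2 * c)) * (ε * (1 + η⁻¹) * A9) := by ring
        _ ≤ _ := by gcongr
    have f1 := mul_le_mul_of_nonneg_right k1 q1
    have f2 := mul_le_mul_of_nonneg_right k2 q2
    have f3 := mul_le_mul_of_nonneg_right k3 q3
    have f4 := mul_le_mul_of_nonneg_right k4 q4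
    have f5 := mul_le_mul_of_nonneg_right k5 p5
    have f6 := mul_le_mul_of_nonneg_right k6 q6
    have f7 := mul_le_mul_of_nonneg_right k7 q7
    have f8 := mul_le_mul_of_nonneg_right k8 q8
    rw [hX]
    linarith
  calc W V r = ν⁻¹ * (ν * W V r) := by field_simp
    _ ≤ ν⁻¹ * (K * X) := by gcongr
    _ = ν⁻¹ * K * X := by ring

end Leray
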