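import Mathlib

/-!
# Iteration lemma
-/

open Filter Topology

noncomputable section
namespace Leray

/-- iteration -/
theorem iterate (f g : ℝ → ℝ) (hf : Monotone f) (hf0 : ∀ r, 0 ≤ f r) (C K κ : ℝ) (hC : 0 < C) (hK : 0 < K)
    (hκ0 : 0 < κ) (hκ : κ < 1) (hg : ∀ r, 1 ≤ r → 1 ≤ g r) (hgm : ∀ r s, 1 ≤ r → r ≤ s → s ≤ 2 * r → g s ≤ 2 ^ K * g r)
    (h : ∀ R δ : ℝ, 1 ≤ R → 0 < δ → δ ≤ R →
      f R ≤ C * (R / δ) ^ K * (g R + f (R + 4 * δ)) ^ κ * (g R) ^ (1 - κ)) :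
    ∃ C' : ℝ, ∀ R, 1 ≤ R → f R ≤ C' * g R := by
  have h1κ : 0 < 1 - κ := by linarith
  set q : ℝ := 2 ^ (K / (1 - κ)) with hq
  have hq1 : 1 ≤ q := Real.one_le_rpow (by norm_num) (by positivity)
  have hq0 : 0 < q := by linarith
  have hqK : 2 ^ K * q ^ κ = q := by
    rw [hq, ← Real.rpow_mul (by norm_num), ← Real.rpow_add (by norm_num)]
    congr 1
    field_simp
    ring
  set D : ℝ := (1 + C) * 2 ^ (4 * K) * q ^ κ with hD
  have h24 : (1 : ℝ) ≤ 2 ^ (4 * K) := Real.one_le_rpow (by norm_num) (by positivity)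
  have hD1 : 1 ≤ D := by
    have h2 : 1 ≤ q ^ κ := Real.one_le_rpow hq1 hκ0.le
    have h3 : 1 ≤ (1 + C) * 2 ^ (4 * K) := one_le_mul_of_one_le_of_one_le (by linarith) h24
    exact one_le_mul_of_one_le_of_one_le h3 h2
  have hD0 : 0 < D := by linarith
  set B : ℝ := D ^ (1 / (1 - κ)) with hB
  have hB1 : 1 ≤ B := Real.one_le_rpow hD1 (by positivity)
  have hB0 : 0 < B := by linarith
  have hDB : D * B ^ κ = B := by
    nth_rewrite 1 [← Real.rpow_one D]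
    rw [hB, ← Real.rpow_mul hD0.le, ← Real.rpow_add hD0]
    congr 1
    field_simp
    ring
  refine ⟨B * 2 ^ K, fun R hR => ?_⟩
  have hR0 : 0 < R := by linarith
  have h2K : (1 : ℝ) ≤ 2 ^ K := Real.one_le_rpow (by norm_num) hK.le
  set G : ℝ := 2 ^ K * g R with hGdef
  have hG : 1 ≤ G := one_le_mul_of_one_le_of_one_le h2K (hg R hR)
  have hG0 : 0 < G := by linarith
  let Rk : ℕ → ℝ := fun k => R * (2 - (1 / 2) ^ k)
  have hhalf : ∀ k : ℕ, (0 : ℝ) < (1 / 2) ^ k ∧ ((1 : ℝ) / 2) ^ k ≤ 1 := fun k =>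
    ⟨by positivity, pow_le_one₀ (by norm_num) (by norm_num)⟩
  have hRk1 : ∀ k, R ≤ Rk k := fun k => by
    have := hhalf k
    show R ≤ R * (2 - (1 / 2) ^ k)
    nlinarith
  have hRk2 : ∀ k, Rk k ≤ 2 * R := fun k => by
    have := hhalf k
    show R * (2 - (1 / 2) ^ k) ≤ 2 * R
    nlinarith
  have hRk0 : Rk 0 = R := by show R * (2 - (1 / 2) ^ 0) = R; norm_num
  let y : ℕ → ℝ := fun k => 1 + f (Rk k) / G
  have hy1 : ∀ k, 1 ≤ y k := fun k => by
    have : 0 ≤ f (Rk k) / G := div_nonneg (hf0 _) hG0.le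
    show 1 ≤ 1 + f (Rk k) / G
    linarith
  have hyM : ∀ k, y k ≤ 1 + f (2 * R) / G := fun k => by
    show 1 + f (Rk k) / G ≤ 1 + f (2 * R) / G
    have := hf (hRk2 k)
    gcongr
  have hstep : ∀ k, y k ≤ (1 + C) * (2 ^ (4 * K) * (2 ^ K) ^ k) * (y (k + 1)) ^ κ := by
    intro k
    have hk := hhalf k
    set δ : ℝ := R * (1 / 2) ^ k / 8 with hδ
    have hδ0 : 0 < δ := by positivity
    have hδR : δ ≤ Rk k := by
      refine le_trans ?_ (hRk1 k)
      rw [hδ]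
      nlinarith
    have h1 := h (Rk k) δ (by linarith [hRk1 k]) hδ0 hδR
    have hnext : Rk k + 4 * δ = Rk (k + 1) := by
      show R * (2 - (1 / 2) ^ k) + 4 * δ = R * (2 - (1 / 2) ^ (k + 1))
      rw [hδ, pow_succ]
      ring
    rw [hnext] at h1
    have hratio : Rk k / δ ≤ 2 ^ (k + 4) := by
      rw [div_le_iff₀ hδ0]
      refine (hRk2 k).trans ?_
      rw [hδ]
      have : (2 : ℝ) ^ (k + 4) * (R * (1 / 2) ^ k / 8) = 2 * R := by
        rw [pow_add, one_div, inv_pow]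
        field_simp
        norm_num
      rw [this]
    have hratio0 : 0 ≤ Rk k / δ := div_nonneg (by linarith [hRk1 k]) hδ0.le
    have hpow : (Rk k / δ) ^ K ≤ 2 ^ (4 * K) * (2 ^ K) ^ k := by
      calc (Rk k / δ) ^ K ≤ ((2 : ℝ) ^ (k + 4)) ^ K := Real.rpow_le_rpow hratio0 hratio hK.le
        _ = 2 ^ (4 * K) * (2 ^ K) ^ k := by
          rw [← Real.rpow_natCast 2 (k + 4), ← Real.rpow_mul (by norm_num), ← Real.rpow_natCast (2 ^ K) k,
            ← Real.rpow_mul (by norm_num), ← Real.rpow_add (by norm_num)]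
          congr 1
          push_cast
          ring
    have hgk : g (Rk k) ≤ G := hgm R (Rk k) hR (hRk1 k) (hRk2 k)
    have hgk1 : 1 ≤ g (Rk k) := hg _ (by linarith [hRk1 k])
    have hGy : G + f (Rk (k + 1)) = G * y (k + 1) := by
      show G + f (Rk (k + 1)) = G * (1 + f (Rk (k + 1)) / G)
      field_simp
    have hA : (g (Rk k) + f (Rk (k + 1))) ^ κ ≤ G ^ κ * y (k + 1) ^ κ := by
      rw [← Real.mul_rpow hG0.le (by linarith [hy1 (k + 1)]), ← hGy]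
      exact Real.rpow_le_rpow (by linarith [hf0 (Rk (k + 1))]) (by linarith) hκ0.le
    have hBk : (g (Rk k)) ^ (1 - κ) ≤ G ^ (1 - κ) := Real.rpow_le_rpow (by linarith) hgk h1κ.le
    set T : ℝ := 2 ^ (4 * K) * (2 ^ K) ^ k with hT
    have hT1 : 1 ≤ T := one_le_mul_of_one_le_of_one_le h24 (one_le_pow₀ h2K)
    have hyk : 1 ≤ y (k + 1) ^ κ := Real.one_le_rpow (hy1 _) hκ0.le
    have hGG : G ^ κ * G ^ (1 - κ) = G := by
      rw [← Real.rpow_add hG0]
      simp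
    have h2 : f (Rk k) ≤ C * T * y (k + 1) ^ κ * G := by
      calc f (Rk k) ≤ C * (Rk k / δ) ^ K * (g (Rk k) + f (Rk (k + 1))) ^ κ * (g (Rk k)) ^ (1 - κ) := h1
        _ ≤ C * T * (G ^ κ * y (k + 1) ^ κ) * G ^ (1 - κ) := by
          have e1 : 0 ≤ (Rk k / δ) ^ K := Real.rpow_nonneg hratio0 _
          have e2 : 0 ≤ (g (Rk k) + f (Rk (k + 1))) ^ κ :=
            Real.rpow_nonneg (by linarith [hf0 (Rk (k + 1))]) _
          have e3 : 0 ≤ (g (Rk k)) ^ (1 - κ) := Real.rpow_nonneg (by linarith) _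
          gcongr
        _ = C * T * y (k + 1) ^ κ * (G ^ κ * G ^ (1 - κ)) := by ring
        _ = C * T * y (k + 1) ^ κ * G := by rw [hGG]
    have h3 : f (Rk k) / G ≤ C * T * y (k + 1) ^ κ := by
      rw [div_le_iff₀ hG0]; exact h2
    calc y k = 1 + f (Rk k) / G := rfl
      _ ≤ T * y (k + 1) ^ κ + C * T * y (k + 1) ^ κ :=
        add_le_add (one_le_mul_of_one_le_of_one_le hT1 hyk) h3
      _ = (1 + C) * T * (y (k + 1)) ^ κ := by ring
  set M : ℝ := 1 + f (2 * R) / G with hM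
  have hM1 : 1 ≤ M := (hy1 0).trans (hyM 0)
  have hM0 : 0 < M := by linarith
  have key : ∀ n k : ℕ, y k ≤ B * q ^ k * M ^ (κ ^ n) := by
    intro n
    induction n with
    | zero =>
      intro k
      rw [pow_zero, Real.rpow_one]
      refine (hyM k).trans ?_
      have h2 : 1 ≤ B * q ^ k := one_le_mul_of_one_le_of_one_le hB1 (one_le_pow₀ hq1)
      nlinarith
    | succ n ih =>
      intro k
      refine (hstep k).trans ?_
      have h2 := ih (k + 1)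
      have h3 : y (k + 1) ^ κ ≤ (B * q ^ (k + 1) * M ^ (κ ^ n)) ^ κ :=
        Real.rpow_le_rpow (by linarith [hy1 (k + 1)]) h2 hκ0.le
      have h4 : (B * q ^ (k + 1) * M ^ (κ ^ n)) ^ κ = B ^ κ * (q ^ κ) ^ (k + 1) * M ^ (κ ^ (n + 1)) := by
        rw [Real.mul_rpow (by positivity) (by positivity), Real.mul_rpow (by positivity) (by positivity),
          ← Real.rpow_natCast q, ← Real.rpow_natCast (q ^ κ), ← Real.rpow_mul hq0.le,
          ← Real.rpow_mul hq0.le, ← Real.rpow_mul hM0.le]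
        rw [pow_succ κ n, mul_comm ((k + 1 : ℕ) : ℝ) κ]
      have hpos : 0 ≤ (1 + C) * (2 ^ (4 * K) * (2 ^ K) ^ k) := by positivity
      calc (1 + C) * (2 ^ (4 * K) * (2 ^ K) ^ k) * y (k + 1) ^ κ
          ≤ (1 + C) * (2 ^ (4 * K) * (2 ^ K) ^ k) * (B ^ κ * (q ^ κ) ^ (k + 1) * M ^ (κ ^ (n + 1))) := by
            rw [← h4]; exact mul_le_mul_of_nonneg_left h3 hpos
        _ = (((1 + C) * 2 ^ (4 * K) * q ^ κ) * B ^ κ) * (2 ^ K * q ^ κ) ^ k * M ^ (κ ^ (n + 1)) := by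
            rw [mul_pow]; ring
        _ = B * q ^ k * M ^ (κ ^ (n + 1)) := by rw [← hD, hDB, hqK]
  have hlim : Tendsto (fun n : ℕ => B * q ^ 0 * M ^ (κ ^ n)) atTop (𝓝 (B * q ^ 0 * M ^ (0 : ℝ))) := by
    refine Tendsto.mul tendsto_const_nhds ?_
    refine (Real.continuousAt_const_rpow hM0.ne').tendsto.comp ?_
    exact tendsto_pow_atTop_nhds_zero_of_lt_one hκ0.le hκ
  have hfin : y 0 ≤ B := by
    have h2 := ge_of_tendsto' hlim (fun n => key n 0)
    simpa using h2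
  have h2 : 1 + f (Rk 0) / G ≤ B := hfin
  rw [hRk0] at h2
  have h3 : f R / G ≤ B := by linarith
  rw [div_le_iff₀ hG0] at h3
  rw [hGdef] at h3
  linarith

end Leray
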