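import Pool.Agent.Lib.MP_9b9638_an.Calc

/-!
# Weighted integrability from growth on balls
-/

open MeasureTheory Set Filter Topology

noncomputable section
namespace Leray

/-- a nonnegative continuous function with `∫_{B_r} F ≤ C r³` is integrable with the weight
`(1+|x|²)⁻³` -/
theorem integrable_weight {F : E → ℝ} (hF : Continuous F) (h0 : ∀ x, 0 ≤ F x) {C : ℝ} (_hC : 0 ≤ C)
    (h : ∀ r : ℝ, 1 ≤ r → (∫ x in Metric.ball (0 : E) r, F x) ≤ C * r ^ 3) :
    Integrable (fun x : E => F x * (1 + ‖x‖ ^ 2)⁻¹ ^ 3) := by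
  let s : ℕ → Set E := fun j => {x | (2 : ℝ) ^ j ≤ 1 + ‖x‖ ∧ 1 + ‖x‖ < 2 ^ (j + 1)}
  have hs : ∀ j, MeasurableSet (s j) := by
    intro j
    have m1 : Measurable (fun x : E => 1 + ‖x‖) := by fun_prop
    exact (measurableSet_le (measurable_const (a := (2 : ℝ) ^ j)) m1).inter
      (measurableSet_lt m1 (measurable_const (a := (2 : ℝ) ^ (j + 1))))
  have hsub : ∀ j, s j ⊆ Metric.ball (0 : E) (2 ^ (j + 1)) := by
    intro j x hx
    rw [mem_ball_zero_iff]
    have := hx.2
    linarith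
  have hcont : Continuous (fun x : E => F x * (1 + ‖x‖ ^ 2)⁻¹ ^ 3) := by
    refine hF.mul (Continuous.pow (Continuous.inv₀ (by fun_prop) ?_) 3)
    intro x
    positivity
  have hU : (⋃ j, s j) = univ := by
    rw [eq_univ_iff_forall]
    intro x
    have h1 : (1 : ℝ) ≤ 1 + ‖x‖ := by linarith [norm_nonneg x]
    obtain ⟨j, hj⟩ := exists_nat_pow_near h1 (by norm_num : (1 : ℝ) < 2)
    exact mem_iUnion.mpr ⟨j, hj⟩
  have hint : ∀ r : ℝ, IntegrableOn F (Metric.ball (0 : E) r) := fun r =>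
    (hF.continuousOn.integrableOn_compact (isCompact_closedBall (0 : E) r)).mono_set
      Metric.ball_subset_closedBall
  rw [← integrableOn_univ, ← hU]
  refine integrableOn_iUnion_of_summable_integral_norm (fun j => ?_) ?_
  · exact (hcont.continuousOn.integrableOn_compact (isCompact_closedBall (0 : E) (2 ^ (j + 1)))).mono_set
      ((hsub j).trans Metric.ball_subset_closedBall)
  · have hbd : ∀ j, (∫ x in s j, ‖F x * (1 + ‖x‖ ^ 2)⁻¹ ^ 3‖) ≤ 64 * C * (1 / 8) ^ j := by
      intro j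
      have h2 : ∀ x ∈ s j, ‖F x * (1 + ‖x‖ ^ 2)⁻¹ ^ 3‖ ≤ F x * (8 * (1 / 64) ^ j) := by
        intro x hx
        have hw : (1 + ‖x‖ ^ 2)⁻¹ ≤ 2 * (1 / 4) ^ j := by
          have h3 := hx.1
          have h4 : (4 : ℝ) ^ j ≤ 2 * (1 + ‖x‖ ^ 2) := by
            have h5 : ((2 : ℝ) ^ j) ^ 2 ≤ (1 + ‖x‖) ^ 2 := by gcongr
            have h6 : ((2 : ℝ) ^ j) ^ 2 = 4 ^ j := by rw [← pow_mul, mul_comm, pow_mul]; norm_num
            nlinarith [sq_nonneg (1 - ‖x‖)]
          rw [inv_le_comm₀ (by positivity) (by positivity)]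
          have h7 : (2 * (1 / 4 : ℝ) ^ j)⁻¹ = 4 ^ j / 2 := by
            rw [one_div, inv_pow, mul_inv, inv_inv]; ring
          rw [h7]
          linarith
        have hw0 : 0 ≤ (1 + ‖x‖ ^ 2)⁻¹ := by positivity
        have hw3 : (1 + ‖x‖ ^ 2)⁻¹ ^ 3 ≤ 8 * (1 / 64) ^ j := by
          calc (1 + ‖x‖ ^ 2)⁻¹ ^ 3 ≤ (2 * (1 / 4) ^ j) ^ 3 := by gcongr
            _ = 8 * (1 / 64) ^ j := by
              rw [mul_pow, ← pow_mul, mul_comm j 3, pow_mul]; norm_num
        rw [Real.norm_of_nonneg (mul_nonneg (h0 x) (by positivity))]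
        exact mul_le_mul_of_nonneg_left hw3 (h0 x)
      calc (∫ x in s j, ‖F x * (1 + ‖x‖ ^ 2)⁻¹ ^ 3‖)
          ≤ ∫ x in s j, F x * (8 * (1 / 64) ^ j) := by
            refine setIntegral_mono_on ?_ ?_ (hs j) h2
            · exact ((hcont.norm).continuousOn.integrableOn_compact
                (isCompact_closedBall (0 : E) (2 ^ (j + 1)))).mono_set
                ((hsub j).trans Metric.ball_subset_closedBall)
            · exact ((hint _).mono_set (hsub j)).mul_const _
        _ = (∫ x in s j, F x) * (8 * (1 / 64) ^ j) := by rw [integral_mul_const]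
        _ ≤ (C * (2 ^ (j + 1)) ^ 3) * (8 * (1 / 64) ^ j) := by
            have h3 : (∫ x in s j, F x) ≤ ∫ x in Metric.ball (0 : E) (2 ^ (j + 1)), F x :=
              setIntegral_mono_set (hint _) (Eventually.of_forall h0) (hsub j).eventuallyLE
            have h4 := h (2 ^ (j + 1)) (one_le_pow₀ (by norm_num))
            have h5 : (0 : ℝ) ≤ 8 * (1 / 64) ^ j := by positivity
            exact mul_le_mul_of_nonneg_right (h3.trans h4) h5
        _ = 64 * C * (1 / 8) ^ j := by
            have h6 : ((2 : ℝ) ^ (j + 1)) ^ 3 = 8 * 8 ^ j := by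
              rw [← pow_mul, mul_comm (j + 1) 3, pow_mul, pow_succ]; norm_num; ring
            have h7 : (8 : ℝ) ^ j * (1 / 64) ^ j = (1 / 8) ^ j := by
              rw [← mul_pow]; norm_num
            rw [h6]
            calc C * (8 * 8 ^ j) * (8 * (1 / 64) ^ j) = 64 * C * (8 ^ j * (1 / 64) ^ j) := by ring
              _ = 64 * C * (1 / 8) ^ j := by rw [h7]
    refine Summable.of_nonneg_of_le (fun j => integral_nonneg (fun x => norm_nonneg _)) hbd ?_
    exact (summable_geometric_of_lt_one (by norm_num) (by norm_num)).mul_left _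

end Leray
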