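import Pool.Agent.Lib.MP_9b9638_an.Shell1
import Pool.Agent.Lib.MP_9b9638_an.Weight
import Pool.Agent.Lib.MP_9b9638_an.Iter

/-!
# Growth of the enstrophy and the end of the proof
-/

open MeasureTheory Set Filter Topology

noncomputable section
namespace Leray.Thk

theorem integrableOn_ball_of_cont {f : E → ℝ} (hf : Continuous f) (r : ℝ) :
    IntegrableOn f (Metric.ball (0 : E) r) :=
  (hf.continuousOn.integrableOn_compact (isCompact_closedBall (0 : E) r)).mono_set
    Metric.ball_subset_closedBall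

theorem setIntegral_ball_mono {f : E → ℝ} (hf : Continuous f) (h0 : ∀ x, 0 ≤ f x) {r s : ℝ}
    (h : r ≤ s) : (∫ x in Metric.ball (0 : E) r, f x) ≤ ∫ x in Metric.ball (0 : E) s, f x :=
  setIntegral_mono_set (integrableOn_ball_of_cont hf s) (Eventually.of_forall h0)
    (Metric.ball_subset_ball h).eventuallyLE

theorem continuous_sq_curl {V : VF} (hs : ∀ i, ContDiff ℝ 3 (V i)) : Continuous (sq (curl V)) :=
  continuous_sq (continuous_curl fun i => (hs i).of_le (by norm_num))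

theorem W_mono {V : VF} (hs : ∀ i, ContDiff ℝ 3 (V i)) : Monotone (W V) := fun _ _ h =>
  setIntegral_ball_mono (continuous_sq_curl hs) (sq_nonneg' _) h

theorem W_nonneg (V : VF) (r : ℝ) : 0 ≤ W V r :=
  integral_nonneg fun x => sq_nonneg' _ x

theorem ball_Lp_le {V : VF} {p : ℝ} (hLp : Integrable (fun x => nm V x ^ p)) (hp : 0 < p) (r : ℝ) :
    (∫ x in Metric.ball (0 : E) r, nm V x ^ p) ^ (2 / p) ≤ (∫ x, nm V x ^ p) ^ (2 / p) := by
  have h0 : ∀ x, 0 ≤ nm V x ^ p := fun x => Real.rpow_nonneg (nm_nonneg V x) p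
  refine Real.rpow_le_rpow (integral_nonneg h0) ?_ (by positivity)
  exact setIntegral_le_integral hLp (Eventually.of_forall h0)

end Leray.Thk

namespace Leray
open Thk

theorem growth_integrals {ν a : ℝ} {V : VF} (hV : SmoothProfile ν a V)
    {p : ℝ} (h1 : 1 < p) (h3 : p < 3) (hLp : Integrable (fun x => nm V x ^ p))
    {C κ : ℝ} (hC : 0 < C) (_hκ0 : 0 ≤ κ) (hκ : κ < 1) (hW : ∀ R : ℝ, 1 ≤ R → W V R ≤ C * R ^ κ) :
    Integrable (fun x : E => sq (curl V) x * (1 + ‖x‖ ^ 2)⁻¹ ^ 4) ∧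
    Integrable (fun x : E => sq V x ^ 3 * (1 + ‖x‖ ^ 2)⁻¹ ^ 3) := by
  have hcV : ∀ i, Continuous (V i) := fun i => (hV.smooth i).continuous
  constructor
  · have h4 : Integrable (fun x : E => sq (curl V) x * (1 + ‖x‖ ^ 2)⁻¹ ^ 3) := by
      refine integrable_weight (continuous_sq_curl hV.smooth) (sq_nonneg' _) hC.le ?_
      intro r hr
      refine (hW r hr).trans (mul_le_mul_of_nonneg_left ?_ hC.le)
      calc r ^ κ ≤ r ^ (3 : ℝ) := Real.rpow_le_rpow_of_exponent_le hr (by linarith)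
        _ = r ^ 3 := by norm_cast
    refine h4.mono' ?_ (Eventually.of_forall fun x => ?_)
    · refine ((continuous_sq_curl hV.smooth).mul (Continuous.pow (Continuous.inv₀ (by fun_prop) ?_) 4)).aestronglyMeasurable
      intro x; positivity
    · have h5 : 0 ≤ sq (curl V) x := sq_nonneg' _ _
      have h6 : (1 + ‖x‖ ^ 2)⁻¹ ≤ 1 := inv_le_one_of_one_le₀ (by nlinarith [sq_nonneg ‖x‖])
      have h7 : 0 ≤ (1 + ‖x‖ ^ 2)⁻¹ := by positivity
      rw [Real.norm_of_nonneg (mul_nonneg h5 (by positivity))]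
      refine mul_le_mul_of_nonneg_left ?_ h5
      exact pow_le_pow_of_le_one h7 h6 (by norm_num)
  · obtain ⟨Cs, hCs, hs⟩ := ball_sobolev p h1 h3
    set A : ℝ := (∫ x, nm V x ^ p) ^ (2 / p) with hA
    have hA0 : 0 ≤ A := Real.rpow_nonneg (integral_nonneg fun x => Real.rpow_nonneg (nm_nonneg V x) p) _
    have hc3 : Continuous (fun x => sq V x ^ 3) := (continuous_sq hcV).pow 3
    have h03 : ∀ x, 0 ≤ sq V x ^ 3 := fun x => pow_nonneg (sq_nonneg' _ _) 3
    refine integrable_weight hc3 h03 (C := (Cs * (2 * C + A)) ^ 3) (by positivity) ?_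
    intro r hr
    have hr0 : 0 < r := by linarith
    have h4 := hs V r r hV.smooth hV.div0 hr0 le_rfl
    have h5 : (r / r) ^ 3 = 1 := by rw [div_self hr0.ne']; norm_num
    have h6 : r ^ (1 - 6 / p) ≤ r := by
      calc r ^ (1 - 6 / p) ≤ r ^ (1 : ℝ) := Real.rpow_le_rpow_of_exponent_le hr (by
            have : 0 < 6 / p := by positivity
            linarith)
        _ = r := Real.rpow_one r
    have h7 : W V (r + r) ≤ 2 * C * r := by
      calc W V (r + r) ≤ C * (r + r) ^ κ := hW _ (by linarith)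
        _ ≤ C * (r + r) ^ (1 : ℝ) := by
            refine mul_le_mul_of_nonneg_left ?_ hC.le
            exact Real.rpow_le_rpow_of_exponent_le (by linarith) hκ.le
        _ = 2 * C * r := by rw [Real.rpow_one]; ring
    have h8 := ball_Lp_le hLp (by linarith) (r + r)
    rw [← hA] at h8
    have h9 : 0 ≤ (∫ x in Metric.ball (0 : E) (r + r), nm V x ^ p) ^ (2 / p) :=
      Real.rpow_nonneg (integral_nonneg fun x => Real.rpow_nonneg (nm_nonneg V x) p) _
    have h10 : (∫ x in Metric.ball (0 : E) r, sq V x ^ 3) ^ (1 / 3 : ℝ) ≤ Cs * (2 * C + A) * r := by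
      refine h4.trans ?_
      rw [h5, one_mul]
      calc Cs * (W V (r + r) + r ^ (1 - 6 / p) * (∫ x in Metric.ball (0 : E) (r + r), nm V x ^ p) ^ (2 / p))
          ≤ Cs * (2 * C * r + r * A) := by
            refine mul_le_mul_of_nonneg_left (add_le_add h7 ?_) hCs.le
            exact mul_le_mul h6 h8 h9 hr0.le
        _ = Cs * (2 * C + A) * r := by ring
    have h11 : 0 ≤ ∫ x in Metric.ball (0 : E) r, sq V x ^ 3 := integral_nonneg h03
    calc (∫ x in Metric.ball (0 : E) r, sq V x ^ 3)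
        = ((∫ x in Metric.ball (0 : E) r, sq V x ^ 3) ^ (1 / 3 : ℝ)) ^ 3 := by
          rw [← Real.rpow_natCast, ← Real.rpow_mul h11]; norm_num
      _ ≤ (Cs * (2 * C + A) * r) ^ 3 := by
          exact pow_le_pow_left₀ (Real.rpow_nonneg h11 _) h10 3
      _ = (Cs * (2 * C + A)) ^ 3 * r ^ 3 := by ring

/-- end of the proof -/
theorem eq_zero_of_curl {V : VF} (hs : ∀ i, ContDiff ℝ 3 (V i)) (hd : ∀ x, dv V x = 0)
    (hc : ∀ i x, curl V i x = 0) {p : ℝ} (h1 : 1 < p) (h3 : p < 3)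
    (hLp : Integrable (fun x => nm V x ^ p)) : ∀ i x, V i x = 0 := by
  have hcV : ∀ i, Continuous (V i) := fun i => (hs i).continuous
  obtain ⟨Cs, hCs, hsb⟩ := ball_sobolev p h1 h3
  set A : ℝ := (∫ x, nm V x ^ p) ^ (2 / p) with hA
  have hA0 : 0 ≤ A := Real.rpow_nonneg (integral_nonneg fun x => Real.rpow_nonneg (nm_nonneg V x) p) _
  have hc3 : Continuous (fun x => sq V x ^ 3) := (continuous_sq hcV).pow 3
  have h03 : ∀ x, 0 ≤ sq V x ^ 3 := fun x => pow_nonneg (sq_nonneg' _ _) 3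
  have hW0 : ∀ r, W V r = 0 := by
    intro r
    unfold W sq
    simp [hc]
  -- bound on balls
  have hb : ∀ r : ℝ, 0 < r → (∫ x in Metric.ball (0 : E) r, sq V x ^ 3) ^ (1 / 3 : ℝ) ≤ Cs * A * r ^ (1 - 6 / p) := by
    intro r hr
    have h4 := hsb V r r hs hd hr le_rfl
    have h5 : (r / r) ^ 3 = 1 := by rw [div_self hr.ne']; norm_num
    rw [h5, one_mul, hW0, zero_add] at h4
    have h8 := ball_Lp_le hLp (by linarith) (r + r)
    rw [← hA] at h8
    refine h4.trans ?_
    have h6 : 0 ≤ r ^ (1 - 6 / p) := Real.rpow_nonneg hr.le _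
    calc Cs * (r ^ (1 - 6 / p) * (∫ x in Metric.ball (0 : E) (r + r), nm V x ^ p) ^ (2 / p))
        ≤ Cs * (r ^ (1 - 6 / p) * A) := by gcongr
      _ = Cs * A * r ^ (1 - 6 / p) := by ring
  have hlim : Tendsto (fun r : ℝ => Cs * A * r ^ (1 - 6 / p)) atTop (𝓝 0) := by
    have h4 : 0 < 6 / p - 1 := by
      rw [sub_pos, lt_div_iff₀ (by linarith)]; linarith
    have h5 := tendsto_rpow_neg_atTop h4
    have h6 : -(6 / p - 1) = 1 - 6 / p := by ring
    rw [h6] at h5
    simpa using h5.const_mul (Cs * A)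
  have hz : ∀ r : ℝ, (∫ x in Metric.ball (0 : E) r, sq V x ^ 3) = 0 := by
    intro r
    have h11 : 0 ≤ ∫ x in Metric.ball (0 : E) r, sq V x ^ 3 := integral_nonneg h03
    have h12 : (∫ x in Metric.ball (0 : E) r, sq V x ^ 3) ^ (1 / 3 : ℝ) ≤ 0 := by
      refine ge_of_tendsto hlim ?_
      filter_upwards [eventually_ge_atTop (max r 1)] with s hs'
      have h13 : r ≤ s := (le_max_left _ _).trans hs'
      have h14 : 1 ≤ s := (le_max_right _ _).trans hs'
      refine le_trans ?_ (hb s (by linarith))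
      exact Real.rpow_le_rpow h11 (setIntegral_ball_mono hc3 h03 h13) (by norm_num)
    have h15 : (∫ x in Metric.ball (0 : E) r, sq V x ^ 3) ^ (1 / 3 : ℝ) = 0 :=
      le_antisymm h12 (Real.rpow_nonneg h11 _)
    exact (Real.rpow_eq_zero h11 (by norm_num)).mp h15
  intro i x
  set r : ℝ := ‖x‖ + 1 with hr
  have h16 := (setIntegral_eq_zero_iff_of_nonneg_ae (Eventually.of_forall h03)
    (integrableOn_ball_of_cont hc3 r)).mp (hz r)
  have h17 := Measure.eqOn_open_of_ae_eq h16 Metric.isOpen_ball hc3.continuousOn continuousOn_const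
  have h18 : sq V x ^ 3 = 0 := h17 (by rw [mem_ball_zero_iff]; linarith)
  have h19 : sq V x = 0 := by
    exact pow_eq_zero_iff (by norm_num) |>.mp h18
  have h20 := abs_le_nm V i x
  unfold nm at h20
  rw [h19, Real.sqrt_zero] at h20
  exact abs_nonpos_iff.mp h20

end Leray
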