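import Pool.Agent.Lib.MP_9b9638_an.Thick
import Pool.Agent.Lib.MP_9b9638_an.Thin

/-!
# Growth of the enstrophy
-/

open MeasureTheory Set Filter Topology

noncomputable section
namespace Leray
open Thk

theorem growth (ν a : ℝ) (hν : 0 < ν) (ha : 0 < a) (V : VF) (hV : SmoothProfile ν a V)
    (p : ℝ) (h1 : 1 < p) (h3 : p < 3) (hLp : Integrable (fun x => nm V x ^ p)) :
    ∃ C κ : ℝ, 0 < C ∧ 0 ≤ κ ∧ κ < 1 ∧ ∀ R : ℝ, 1 ≤ R → W V R ≤ C * R ^ κ := by
  rcases lt_or_ge p 2 with h2 | h2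
  · obtain ⟨C, K, κ, hC, hK, hκ0, hκ1, hT⟩ := thin ν a hν ha V hV p h1 h2 hLp
    obtain ⟨C', hC'⟩ := iterate (W V) (fun _ => 1) (W_mono hV.smooth) (W_nonneg V) C K κ hC hK hκ0 hκ1
      (fun r _ => le_rfl) (fun r s _ _ _ => by
        rw [mul_one]; exact Real.one_le_rpow (by norm_num) hK.le)
      (fun R δ hR hδ hδR => by
        rw [Real.one_rpow, mul_one]
        exact hT R δ hR hδ hδR)
    refine ⟨max C' 1, 0, by positivity, le_rfl, by norm_num, fun R hR => ?_⟩
    rw [Real.rpow_zero, mul_one]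
    have := hC' R hR
    rw [mul_one] at this
    exact this.trans (le_max_left _ _)
  · obtain ⟨C, K, κ, hC, hK, hκ0, hκ1, hT⟩ := thick ν a hν ha V hV p h2 h3 hLp
    have hα0 : 0 ≤ 3 - 6 / p := by
      rw [sub_nonneg, div_le_iff₀ (by linarith)]; linarith
    have hα1 : 3 - 6 / p < 1 := by
      rw [sub_lt_comm, lt_div_iff₀ (by linarith)]; linarith
    set α : ℝ := 3 - 6 / p with hα
    obtain ⟨C', hC'⟩ := iterate (W V) (fun r => r ^ α) (W_mono hV.smooth) (W_nonneg V) C (max K 1) κ hC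
      (by positivity) hκ0 hκ1
      (fun r hr => Real.one_le_rpow hr hα0) (fun r s hr hrs hs => by
        have h4 : s ^ α ≤ (2 * r) ^ α := Real.rpow_le_rpow (by linarith) hs hα0
        refine h4.trans ?_
        rw [Real.mul_rpow (by norm_num) (by linarith)]
        refine mul_le_mul_of_nonneg_right ?_ (Real.rpow_nonneg (by linarith) _)
        exact Real.rpow_le_rpow_of_exponent_le (by norm_num) (hα1.le.trans (le_max_right _ _)))
      (fun R δ hR hδ hδR => by
        refine (hT R δ hR hδ hδR).trans ?_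
        have h4 : 1 ≤ R / δ := by rw [one_le_div hδ]; exact hδR
        have h5 : (R / δ) ^ K ≤ (R / δ) ^ (max K 1) :=
          Real.rpow_le_rpow_of_exponent_le h4 (le_max_left _ _)
        have h6 : 0 ≤ (R ^ α + W V (R + 4 * δ)) ^ κ :=
          Real.rpow_nonneg (add_nonneg (Real.rpow_nonneg (by linarith) _) (W_nonneg V _)) _
        have h7 : 0 ≤ (R ^ α) ^ (1 - κ) := Real.rpow_nonneg (Real.rpow_nonneg (by linarith) _) _
        gcongr)
    refine ⟨max C' 1, α, by positivity, hα0, hα1, fun R hR => ?_⟩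
    refine (hC' R hR).trans ?_
    exact mul_le_mul_of_nonneg_right (le_max_left _ _) (Real.rpow_nonneg (by linarith) _)

end Leray
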