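import Pool.Agent.Lib.MP_9b9638_an.Cutoff

/-!
# A weighted Hardy inequality

If `|∇q|² (1+|x|²)⁻⁶` is integrable then so is `q² (1+|x|²)⁻⁷`.
-/

open MeasureTheory Set Filter Topology

noncomputable section
namespace Leray

/-- the weight `(1+|x|²)⁻¹` -/
def wt (x : E) : ℝ := (1 + ‖x‖ ^ 2)⁻¹

theorem wt_pos (x : E) : 0 < wt x := by unfold wt; positivity

theorem wt_le_one (x : E) : wt x ≤ 1 := by
  unfold wt
  apply inv_le_one_of_one_le₀
  nlinarith [norm_nonneg x]

theorem wt_mul (x : E) : wt x * (1 + ‖x‖ ^ 2) = 1 := by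
  unfold wt
  exact inv_mul_cancel₀ (by positivity)

theorem contDiff_wt {n : WithTop ℕ∞} : ContDiff ℝ n wt := by
  unfold wt
  exact (contDiff_const.add (contDiff_norm_sq ℝ)).inv (fun x => by positivity)

theorem continuous_wt : Continuous wt := (contDiff_wt (n := 0)).continuous

theorem pd_wt (i : Fin 3) (x : E) : pd i wt x = -2 * x i * wt x ^ 2 := by
  have hd : Differentiable ℝ (fun y : E => ‖y‖ ^ 2) :=
    (contDiff_norm_sq ℝ (n := 1)).differentiable (by norm_num)
  have h1 : wt = fun y : E => (fun t : ℝ => (1 + t)⁻¹) (‖y‖ ^ 2) := by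
    funext y; rfl
  have hpos : (1 : ℝ) + ‖x‖ ^ 2 ≠ 0 := by positivity
  have h2 : HasDerivAt (fun t : ℝ => (1 + t)⁻¹) (-1 / (1 + ‖x‖ ^ 2) ^ 2) (‖x‖ ^ 2) := by
    have h3 : HasDerivAt (fun t : ℝ => 1 + t) 1 (‖x‖ ^ 2) := (hasDerivAt_id _).const_add 1
    exact h3.inv hpos
  conv_lhs => rw [h1]
  rw [pd_comp_at (f := fun y : E => ‖y‖ ^ 2) (h := fun t : ℝ => (1 + t)⁻¹) h2.differentiableAt
    (hd x), h2.deriv, pd_normsq]
  unfold wt
  field_simp

theorem pd_wt_pow (i : Fin 3) (n : ℕ) (x : E) :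
    pd i (fun y => wt y ^ n) x = -(2 * n) * x i * wt x ^ (n + 1) := by
  rw [pd_pow_at n ((contDiff_wt (n := 1)).differentiable (by norm_num) x), pd_wt]
  rcases n with _ | m
  · simp
  · rw [Nat.add_sub_cancel]
    ring

/-- monotone cutoffs -/
theorem cut_radial {r η : ℝ} (hη : 0 < η) (hr : 0 < r) (x : E) :
    ∑ i, pd i (cut r η) x * x i ≤ 0 := by
  have h : ∀ i, pd i (cut r η) x * x i
      = deriv Real.smoothTransition (cutArg r η x) * (-2 / (r * η)) * (x i ^ 2) := by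
    intro i
    rw [pd_cut]
    ring
  simp only [h]
  rw [← Finset.mul_sum]
  have h1 : 0 ≤ deriv Real.smoothTransition (cutArg r η x) :=
    Real.smoothTransition.monotone.deriv_nonneg
  have h2 : -2 / (r * η) ≤ 0 := div_nonpos_of_nonpos_of_nonneg (by norm_num) (by positivity)
  have h3 : 0 ≤ ∑ i, x i ^ 2 := Finset.sum_nonneg fun i _ => sq_nonneg _
  exact mul_nonpos_of_nonpos_of_nonneg (mul_nonpos_of_nonneg_of_nonpos h1 h2) h3

theorem int_four {f g h k : E → ℝ} (hf : Integrable f) (hg : Integrable g) (hh : Integrable h)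
    (hk : Integrable k) : ∫ x, (f x + g x - h x - k x)
      = (∫ x, f x) + (∫ x, g x) - (∫ x, h x) - ∫ x, k x := by
  have a1 : Integrable (fun x => f x + g x) := hf.add hg
  have a2 : Integrable (fun x => f x + g x - h x) := a1.sub hh
  rw [integral_sub a2 hk, integral_sub a1 hh, integral_add hf hg]

theorem hardy_cut {q : E → ℝ} (hq : ContDiff ℝ 1 q)
    (h : Integrable (fun x : E => sq (grad q) x * wt x ^ 6)) {R : ℝ} (hR : 1 ≤ R) :
    ∫ x, cut R R x * (q x ^ 2 * wt x ^ 7) ≤ (∫ x, sq (grad q) x * wt x ^ 6)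
      + ∫ x in Metric.closedBall (0 : E) 1, 4 * q x ^ 2 := by
  have hR0 : 0 < R := by linarith
  set χ := cut R R with hχ
  have χs : ContDiff ℝ 1 χ := (contDiff_cut R R).of_le (by exact_mod_cast le_top)
  have χd : Differentiable ℝ χ := χs.differentiable (by norm_num)
  have χc : HasCompactSupport χ := hasCompactSupport_cut hR0 le_rfl
  have w7 : ContDiff ℝ 1 (fun x => wt x ^ 7) := contDiff_wt.pow 7
  have w7d : Differentiable ℝ (fun x => wt x ^ 7) := w7.differentiable (by norm_num)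
  have q2 : ContDiff ℝ 1 (fun x => q x ^ 2) := hq.pow 2
  have qd : Differentiable ℝ q := hq.differentiable (by norm_num)
  -- the test functions
  have tc : ∀ i : Fin 3, ContDiff ℝ 1 (fun x : E => χ x * (x i * wt x ^ 7)) := fun i =>
    χs.mul ((contDiff_coord i).mul w7)
  have ts : ∀ i : Fin 3, HasCompactSupport (fun x : E => χ x * (x i * wt x ^ 7)) := fun i =>
    χc.mul_right
  have ibp : ∀ i : Fin 3, ∫ x, pd i (fun x => q x ^ 2) x * (χ x * (x i * wt x ^ 7))
      = - ∫ x, q x ^ 2 * pd i (fun x : E => χ x * (x i * wt x ^ 7)) x := fun i =>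
    int_pd_mul q2 (tc i) (ts i)
  have hI1 : ∀ i : Fin 3, Integrable (fun x => pd i (fun x => q x ^ 2) x
      * (χ x * (x i * wt x ^ 7))) := fun i =>
    integrable_of_cc ((continuous_pd q2).mul (tc i).continuous) ((ts i).mul_left)
  have hI2 : ∀ i : Fin 3, Integrable (fun x => q x ^ 2
      * pd i (fun x : E => χ x * (x i * wt x ^ 7)) x) := fun i =>
    integrable_of_cc (q2.continuous.mul (continuous_pd (tc i)))
      ((hasCompactSupport_pd (ts i)).mul_left)
  have hsum : ∫ x, ∑ i, pd i (fun x => q x ^ 2) x * (χ x * (x i * wt x ^ 7))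
      = - ∫ x, ∑ i, q x ^ 2 * pd i (fun x : E => χ x * (x i * wt x ^ 7)) x := by
    rw [integral_finsetSum _ fun i _ => hI1 i, integral_finsetSum _ fun i _ => hI2 i,
      ← Finset.sum_neg_distrib]
    exact Finset.sum_congr rfl fun i _ => ibp i
  -- pointwise formulas
  have e1 : ∀ x i, pd i (fun x => q x ^ 2) x = 2 * q x * pd i q x := by
    intro x i
    rw [pd_pow_at 2 (qd x)]
    simp
  have e2 : ∀ (x : E) (i : Fin 3), pd i (fun x : E => χ x * (x i * wt x ^ 7)) x
      = pd i χ x * x i * wt x ^ 7 + χ x * (wt x ^ 7 - 14 * x i ^ 2 * wt x ^ 8) := by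
    intro x i
    have h0 : Differentiable ℝ (fun x : E => x i * wt x ^ 7) := (differentiable_coord i).mul w7d
    rw [pd_mul χd h0, pd_mul (differentiable_coord i) w7d, pd_coord, pd_wt_pow]
    simp only [if_true]
    push_cast
    ring
  have e3 : ∀ x : E, ∑ i, q x ^ 2 * pd i (fun x : E => χ x * (x i * wt x ^ 7)) x
      = q x ^ 2 * wt x ^ 7 * (∑ i, pd i χ x * x i)
        + χ x * q x ^ 2 * wt x ^ 8 * (3 - 11 * ‖x‖ ^ 2) := by
    intro x
    simp only [e2, Fin.sum_univ_three]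
    have h1 := norm_sq_eq x
    simp only [Fin.sum_univ_three] at h1
    have h2 := wt_mul x
    have h3 : wt x ^ 7 = wt x ^ 8 * (1 + ‖x‖ ^ 2) := by
      calc wt x ^ 7 = wt x ^ 7 * (wt x * (1 + ‖x‖ ^ 2)) := by rw [h2, mul_one]
        _ = _ := by ring
    rw [show (3 - 11 * ‖x‖ ^ 2 : ℝ) = 3 * (1 + ‖x‖ ^ 2) - 14 * ‖x‖ ^ 2 by ring]
    have h4 : χ x * q x ^ 2 * wt x ^ 8 * (3 * (1 + ‖x‖ ^ 2) - 14 * ‖x‖ ^ 2)
        = χ x * q x ^ 2 * (3 * wt x ^ 7 - 14 * ‖x‖ ^ 2 * wt x ^ 8) := by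
      rw [h3]; ring
    rw [h4, h1]
    ring
  -- the pointwise inequality
  have key : ∀ x : E, χ x * (q x ^ 2 * wt x ^ 7) ≤ sq (grad q) x * wt x ^ 6
      + (Metric.closedBall (0 : E) 1).indicator (fun x => 4 * q x ^ 2) x
      - ∑ i, q x ^ 2 * pd i (fun x : E => χ x * (x i * wt x ^ 7)) x
      - ∑ i, pd i (fun x => q x ^ 2) x * (χ x * (x i * wt x ^ 7)) := by
    intro x
    rw [e3]
    have c0 := cut_nonneg R R x
    have c1 := cut_le_one R R x
    rw [← hχ] at c0 c1
    have w0 := wt_pos x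
    have w1 := wt_le_one x
    have hrad := cut_radial hR0 hR0 x
    rw [← hχ] at hrad
    have h1 : q x ^ 2 * wt x ^ 7 * (∑ i, pd i χ x * x i) ≤ 0 :=
      mul_nonpos_of_nonneg_of_nonpos (by positivity) hrad
    -- the gradient term
    have h2 : ∑ i, pd i (fun x => q x ^ 2) x * (χ x * (x i * wt x ^ 7))
        ≤ χ x * q x ^ 2 * ‖x‖ ^ 2 * wt x ^ 8 + χ x * (sq (grad q) x * wt x ^ 6) := by
      have h3 : ∀ i, pd i (fun x => q x ^ 2) x * (χ x * (x i * wt x ^ 7))
          ≤ χ x * (q x ^ 2 * x i ^ 2 * wt x ^ 8 + pd i q x ^ 2 * wt x ^ 6) := by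
        intro i
        rw [e1]
        have h4 : 2 * (q x * x i * wt x ^ 4) * (pd i q x * wt x ^ 3)
            ≤ (q x * x i * wt x ^ 4) ^ 2 + (pd i q x * wt x ^ 3) ^ 2 := two_mul_le_add_sq _ _
        calc 2 * q x * pd i q x * (χ x * (x i * wt x ^ 7))
            = χ x * (2 * (q x * x i * wt x ^ 4) * (pd i q x * wt x ^ 3)) := by ring
          _ ≤ χ x * ((q x * x i * wt x ^ 4) ^ 2 + (pd i q x * wt x ^ 3) ^ 2) := by gcongr
          _ = _ := by ring
      calc _ ≤ ∑ i, χ x * (q x ^ 2 * x i ^ 2 * wt x ^ 8 + pd i q x ^ 2 * wt x ^ 6) :=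
            Finset.sum_le_sum fun i _ => h3 i
        _ = _ := by
            rw [norm_sq_eq]
            unfold sq grad
            simp only [Fin.sum_univ_three]
            ring
    have hs0 : 0 ≤ sq (grad q) x * wt x ^ 6 := mul_nonneg (sq_nonneg' _ _) (by positivity)
    have h5 : χ x * (sq (grad q) x * wt x ^ 6) ≤ sq (grad q) x * wt x ^ 6 :=
      mul_le_of_le_one_left hs0 c1
    have h6 : χ x * (q x ^ 2 * wt x ^ 7) = χ x * q x ^ 2 * wt x ^ 8 * (1 + ‖x‖ ^ 2) := by
      have h2 := wt_mul x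
      calc χ x * (q x ^ 2 * wt x ^ 7) = χ x * (q x ^ 2 * wt x ^ 7) * (wt x * (1 + ‖x‖ ^ 2)) := by
            rw [h2, mul_one]
        _ = _ := by ring
    by_cases hx : x ∈ Metric.closedBall (0 : E) 1
    · rw [Set.indicator_of_mem hx]
      have h8 : χ x * q x ^ 2 * wt x ^ 8 * (4 - 9 * ‖x‖ ^ 2) ≤ 4 * q x ^ 2 := by
        have hn : 0 ≤ ‖x‖ ^ 2 := by positivity
        calc χ x * q x ^ 2 * wt x ^ 8 * (4 - 9 * ‖x‖ ^ 2)
            ≤ χ x * q x ^ 2 * wt x ^ 8 * 4 := by gcongr; linarith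
          _ ≤ 1 * q x ^ 2 * 1 * 4 := by
              gcongr
              exact pow_le_one₀ w0.le w1
          _ = 4 * q x ^ 2 := by ring
      rw [h6]
      have h9 : χ x * q x ^ 2 * wt x ^ 8 * (1 + ‖x‖ ^ 2)
          = χ x * q x ^ 2 * wt x ^ 8 * (4 - 9 * ‖x‖ ^ 2)
            - χ x * q x ^ 2 * wt x ^ 8 * (3 - 11 * ‖x‖ ^ 2)
            - χ x * q x ^ 2 * ‖x‖ ^ 2 * wt x ^ 8 := by ring
      linarith
    · rw [Set.indicator_of_notMem hx]
      have hx1 : 1 ≤ ‖x‖ := by
        rw [Metric.mem_closedBall, dist_zero_right, not_le] at hx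
        exact hx.le
      have h8 : χ x * q x ^ 2 * wt x ^ 8 * (4 - 9 * ‖x‖ ^ 2) ≤ 0 := by
        have hn : 1 ≤ ‖x‖ ^ 2 := one_le_pow₀ hx1
        exact mul_nonpos_of_nonneg_of_nonpos (by positivity) (by linarith)
      rw [h6]
      have h9 : χ x * q x ^ 2 * wt x ^ 8 * (1 + ‖x‖ ^ 2)
          = χ x * q x ^ 2 * wt x ^ 8 * (4 - 9 * ‖x‖ ^ 2)
            - χ x * q x ^ 2 * wt x ^ 8 * (3 - 11 * ‖x‖ ^ 2)
            - χ x * q x ^ 2 * ‖x‖ ^ 2 * wt x ^ 8 := by ring
      linarith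
  have hJ1 : Integrable (fun x => ∑ i, q x ^ 2 * pd i (fun x : E => χ x * (x i * wt x ^ 7)) x) :=
    integrable_finsetSum _ fun i _ => hI2 i
  have hJ2 : Integrable (fun x => ∑ i, pd i (fun x => q x ^ 2) x * (χ x * (x i * wt x ^ 7))) :=
    integrable_finsetSum _ fun i _ => hI1 i
  have hJ3 : Integrable ((Metric.closedBall (0 : E) 1).indicator (fun x => 4 * q x ^ 2)) := by
    rw [integrable_indicator_iff Metric.isClosed_closedBall.measurableSet]
    exact ((hq.continuous.pow 2).const_mul 4).continuousOn.integrableOn_compact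
      (isCompact_closedBall _ _)
  have hJ4 : Integrable (fun x => χ x * (q x ^ 2 * wt x ^ 7)) :=
    integrable_of_cc (χs.continuous.mul ((hq.continuous.pow 2).mul (continuous_wt.pow 7)))
      χc.mul_right
  calc ∫ x, χ x * (q x ^ 2 * wt x ^ 7)
      ≤ ∫ x, (sq (grad q) x * wt x ^ 6
        + (Metric.closedBall (0 : E) 1).indicator (fun x => 4 * q x ^ 2) x
        - ∑ i, q x ^ 2 * pd i (fun x : E => χ x * (x i * wt x ^ 7)) x
        - ∑ i, pd i (fun x => q x ^ 2) x * (χ x * (x i * wt x ^ 7))) :=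
        integral_mono hJ4 (((h.add hJ3).sub hJ1).sub hJ2) key
    _ = (∫ x, sq (grad q) x * wt x ^ 6)
        + (∫ x, (Metric.closedBall (0 : E) 1).indicator (fun x => 4 * q x ^ 2) x)
        - (∫ x, ∑ i, q x ^ 2 * pd i (fun x : E => χ x * (x i * wt x ^ 7)) x)
        - ∫ x, ∑ i, pd i (fun x => q x ^ 2) x * (χ x * (x i * wt x ^ 7)) := by
        exact int_four h hJ3 hJ1 hJ2
    _ = (∫ x, sq (grad q) x * wt x ^ 6) + ∫ x in Metric.closedBall (0 : E) 1, 4 * q x ^ 2 := by
        rw [hsum, integral_indicator Metric.isClosed_closedBall.measurableSet]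
        ring

/-- integrability from bounds with cutoffs -/
theorem integrable_of_cut {F : E → ℝ} (hF : Continuous F) (h0 : ∀ x, 0 ≤ F x) (C : ℝ)
    (h : ∀ R : ℝ, 1 ≤ R → ∫ x, cut R R x * F x ≤ C) : Integrable F := by
  have hφ : AECover volume atTop (fun n : ℕ => Metric.ball (0 : E) (n : ℝ)) :=
    aecover_ball tendsto_natCast_atTop_atTop
  refine hφ.integrable_of_integral_bounded_of_nonneg_ae C (fun n => ?_)
    (Eventually.of_forall h0) ?_
  · exact (hF.continuousOn.integrableOn_compact (isCompact_closedBall (0 : E) n)).mono_set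
      Metric.ball_subset_closedBall
  · filter_upwards [eventually_ge_atTop 1] with n hn
    have hn1 : (1 : ℝ) ≤ n := by exact_mod_cast hn
    refine le_trans ?_ (h n hn1)
    rw [← integral_indicator Metric.isOpen_ball.measurableSet]
    apply integral_mono
    · rw [integrable_indicator_iff Metric.isOpen_ball.measurableSet]
      exact (hF.continuousOn.integrableOn_compact (isCompact_closedBall (0 : E) n)).mono_set
        Metric.ball_subset_closedBall
    · exact integrable_of_cc ((contDiff_cut (n : ℝ) n).continuous.mul hF)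
        (hasCompactSupport_cut (by linarith) le_rfl).mul_right
    · intro x
      by_cases hx : x ∈ Metric.ball (0 : E) (n : ℝ)
      · rw [Set.indicator_of_mem hx]
        rw [mem_ball_zero_iff] at hx
        show F x ≤ cut n n x * F x
        rw [cut_one (by linarith) le_rfl hx.le, one_mul]
      · rw [Set.indicator_of_notMem hx]
        exact mul_nonneg (cut_nonneg _ _ _) (h0 x)

theorem hardy {q : E → ℝ} (hq : ContDiff ℝ 1 q)
    (h : Integrable (fun x : E => sq (grad q) x * (1 + ‖x‖ ^ 2)⁻¹ ^ 6)) :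
    Integrable (fun x : E => q x ^ 2 * (1 + ‖x‖ ^ 2)⁻¹ ^ 7) := by
  refine integrable_of_cut (F := fun x : E => q x ^ 2 * wt x ^ 7)
    ((hq.continuous.pow 2).mul (continuous_wt.pow 7))
    (fun x => mul_nonneg (sq_nonneg _) (pow_nonneg (wt_pos x).le _))
    ((∫ x, sq (grad q) x * wt x ^ 6) + ∫ x in Metric.closedBall (0 : E) 1, 4 * q x ^ 2) ?_
  intro R hR
  exact hardy_cut hq h hR

end Leray
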