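import Pool.Agent.Lib.MP_9b9638_an.Calc

/-!
# The head pressure of a smooth profile
-/

open MeasureTheory Set Filter Topology TopologicalSpace

noncomputable section
namespace Leray

theorem sym_of_curl {F : VF} {x : E} (h : ∀ i, curl F i x = 0) (i j : Fin 3) :
    pd i (F j) x = pd j (F i) x := by
  have key : ∀ k : Fin 3, pd (k + 1) (F (k + 2)) x = pd (k + 2) (F (k + 1)) x := fun k => by
    have := h k
    unfold curl at this
    linarith
  have k0 : pd 1 (F 2) x = pd 2 (F 1) x := key 0
  have k1 : pd 2 (F 0) x = pd 0 (F 2) x := key 1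
  have k2 : pd 0 (F 1) x = pd 1 (F 0) x := key 2
  fin_cases i <;> fin_cases j <;> first | rfl | assumption | (symm; assumption)

theorem e_eq_sum (v : E) : v = ∑ i, v i • ei i := by
  ext j
  simp [ei, Fin.sum_univ_three]
  fin_cases j <;> simp

theorem fderiv_apply_eq_sum (f : E → ℝ) (x v : E) : fderiv ℝ f x v = ∑ i, v i * pd i f x := by
  conv_lhs => rw [e_eq_sum v]
  rw [map_sum]
  simp [pd]

/-- curl free fields are gradients -/
theorem exists_potential {F : VF} (hF : ∀ i, ContDiff ℝ 1 (F i)) (h : ∀ i x, curl F i x = 0) :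
    ∃ q : E → ℝ, ContDiff ℝ 2 q ∧ ∀ i x, pd i q x = F i x := by
  set P : Fin 3 → E →L[ℝ] ℝ := fun j => (EuclideanSpace.proj j : E →L[ℝ] ℝ) with hP
  set w : E → E →L[ℝ] ℝ := fun x => ∑ j, F j x • P j with hw
  have hwc : ContDiff ℝ 1 w := ContDiff.sum fun j _ => (hF j).smul contDiff_const
  have hd : ∀ x, HasFDerivAt w (∑ j, (fderiv ℝ (F j) x).smulRight (P j)) x := by
    intro x
    refine HasFDerivAt.fun_sum fun j _ => ?_
    exact (((hF j).differentiable (by norm_num)) x).hasFDerivAt.smul_const (P j)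
  have hsym : ∀ a ∈ (univ : Set E), ∀ u v, fderiv ℝ w a u v = fderiv ℝ w a v u := by
    intro a _ u v
    rw [(hd a).fderiv]
    have e : ∀ u v : E, (∑ j, (fderiv ℝ (F j) a).smulRight (P j)) u v
        = ∑ j, ∑ i, u i * v j * pd i (F j) a := by
      intro u v
      simp only [_root_.sum_apply, ContinuousLinearMap.smulRight_apply, hP,
        _root_.smul_apply, smul_eq_mul, fderiv_apply_eq_sum, Finset.sum_mul]
      refine Finset.sum_congr rfl fun j _ => Finset.sum_congr rfl fun i _ => ?_
      simp
      ring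
    rw [e, e, Finset.sum_comm]
    refine Finset.sum_congr rfl fun i _ => Finset.sum_congr rfl fun j _ => ?_
    rw [sym_of_curl (fun k => h k a) i j]
    ring
  obtain ⟨q, hq⟩ := convex_univ.exists_forall_hasFDerivAt_of_fderiv_symmetric isOpen_univ
    (hwc.differentiable (by norm_num)).differentiableOn hsym
  have hfd : fderiv ℝ q = w := by
    funext x
    exact (hq x (mem_univ x)).fderiv
  have hqd : Differentiable ℝ q := fun x => (hq x (mem_univ x)).differentiableAt
  refine ⟨q, ?_, ?_⟩
  · have : (2 : WithTop ℕ∞) = 1 + 1 := by norm_num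
    rw [this, contDiff_succ_iff_fderiv]
    refine ⟨hqd, by simp, ?_⟩
    rw [hfd]; exact hwc
  · intro i x
    unfold pd
    rw [hfd]
    simp [hw, hP, ei, Fin.sum_univ_three]
    fin_cases i <;> simp

theorem dv_cr {F G : VF} (hF : ∀ i, Differentiable ℝ (F i)) (hG : ∀ i, Differentiable ℝ (G i)) (x : E) :
    dv (cr F G) x = dot G (curl F) x - dot F (curl G) x := by
  unfold dv cr dot curl
  have hm : ∀ i j, Differentiable ℝ (fun y => F i y * G j y) := fun i j => (hF i).mul (hG j)
  simp only [pd_sub (hm _ _) (hm _ _), pd_mul (hF _) (hG _)]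
  simp only [Fin.sum_univ_three]
  have e1 : (0 : Fin 3) + 1 = 1 := rfl
  have e2 : (0 : Fin 3) + 2 = 2 := rfl
  have e3 : (1 : Fin 3) + 1 = 2 := rfl
  have e4 : (1 : Fin 3) + 2 = 0 := rfl
  have e5 : (2 : Fin 3) + 1 = 0 := rfl
  have e6 : (2 : Fin 3) + 2 = 1 := rfl
  rw [e1, e2, e3, e4, e5, e6]
  ring

theorem curl_drift {a : ℝ} {V : VF} (hV : ∀ i, Differentiable ℝ (V i)) (i : Fin 3) (x : E) :
    curl (drift a V) i x = curl V i x := by
  unfold curl drift
  have hc : ∀ j, Differentiable ℝ (fun y : E => a * y j) := fun j => (differentiable_coord j).const_mul a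
  rw [pd_add (hV _) (hc _), pd_add (hV _) (hc _), pd_const_mul a (differentiable_coord _),
    pd_const_mul a (differentiable_coord _), pd_coord, pd_coord]
  have h : (i + 1 = i + 2) = False := by fin_cases i <;> simp
  have h' : (i + 2 = i + 1) = False := by fin_cases i <;> simp
  simp only [h, h', if_false]
  ring

theorem contDiff_drift {a : ℝ} {V : VF} {n : WithTop ℕ∞} (hV : ∀ i, ContDiff ℝ n (V i)) (i : Fin 3) :
    ContDiff ℝ n (drift a V i) := by
  unfold drift
  exact (hV i).add ((contDiff_coord i).const_smul a)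

theorem contDiff_Zf {ν a : ℝ} {V : VF} (hV : ∀ i, ContDiff ℝ 3 (V i)) (i : Fin 3) :
    ContDiff ℝ 1 (Zf ν a V i) := by
  have h1 : ∀ i, ContDiff ℝ 2 (curl V i) := fun i => contDiff_curl hV (by norm_num) i
  have h2 : ContDiff ℝ 1 (curl (curl V) i) := contDiff_curl h1 (by norm_num) i
  have h3 : ∀ i, ContDiff ℝ 1 (drift a V i) := fun i =>
    (contDiff_drift hV i).of_le (by norm_num)
  have h4 : ∀ i, ContDiff ℝ 1 (curl V i) := fun i => (h1 i).of_le (by norm_num)
  unfold Zf cr
  exact (contDiff_const.mul h2).add (((h4 _).mul (h3 _)).sub ((h4 _).mul (h3 _)))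

/-- the head pressure -/
theorem exists_head {ν a : ℝ} {V : VF} (hV : SmoothProfile ν a V) : ∃ q : E → ℝ, ContDiff ℝ 2 q ∧
    (∀ i x, pd i q x = - Zf ν a V i x) ∧
    (∀ x, -ν * lap q x + dot (drift a V) (grad q) x = -ν * sq (curl V) x) := by
  have hZ : ∀ i, ContDiff ℝ 1 (Zf ν a V i) := fun i => contDiff_Zf hV.smooth i
  have hZn : ∀ i, ContDiff ℝ 1 (fun x => - Zf ν a V i x) := fun i => (hZ i).neg
  obtain ⟨q, hq2, hq⟩ := exists_potential (F := fun i x => - Zf ν a V i x) hZn (by
    intro i x
    have := hV.eq i x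
    unfold curl at this ⊢
    rw [pd_neg_at, pd_neg_at]
    linarith)
  refine ⟨q, hq2, hq, ?_⟩
  intro x
  have h1 : ∀ i, ContDiff ℝ 2 (curl V i) := fun i => contDiff_curl hV.smooth (by norm_num) i
  have h1' : ∀ i, Differentiable ℝ (curl V i) := fun i => (h1 i).differentiable (by norm_num)
  have h2 : ∀ i, ContDiff ℝ 1 (curl (curl V) i) := fun i => contDiff_curl h1 (by norm_num) i
  have h2' : ∀ i, Differentiable ℝ (curl (curl V) i) := fun i => (h2 i).differentiable (by norm_num)
  have hb : ∀ i, Differentiable ℝ (drift a V i) := fun i =>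
    (contDiff_drift hV.smooth i).differentiable (by norm_num)
  have hVd : ∀ i, Differentiable ℝ (V i) := fun i => (hV.smooth i).differentiable (by norm_num)
  have hcr : ∀ i, Differentiable ℝ (cr (curl V) (drift a V) i) := fun i => by
    unfold cr
    exact ((h1' _).mul (hb _)).sub ((h1' _).mul (hb _))
  -- the Laplacian
  have hlap : lap q x = - (dot (drift a V) (curl (curl V)) x - sq (curl V) x) := by
    have e1 : lap q x = ∑ i, pd i (fun y => - Zf ν a V i y) x := by
      unfold lap
      refine Finset.sum_congr rfl fun i _ => ?_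
      have : pd i q = fun y => - Zf ν a V i y := by funext y; exact hq i y
      rw [this]
    have e2 : dv (Zf ν a V) x = ν * dv (curl (curl V)) x + dv (cr (curl V) (drift a V)) x := by
      unfold dv
      rw [Finset.mul_sum, ← Finset.sum_add_distrib]
      refine Finset.sum_congr rfl fun i _ => ?_
      have : Zf ν a V i = fun y => ν * curl (curl V) i y + cr (curl V) (drift a V) i y := rfl
      rw [this, pd_add ((h2' i).const_mul ν) (hcr i), pd_const_mul ν (h2' i)]
    have e3 : dot (curl V) (curl (drift a V)) x = sq (curl V) x := by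
      unfold dot sq
      refine Finset.sum_congr rfl fun i _ => ?_
      rw [curl_drift hVd]; ring
    rw [e1]
    simp only [pd_neg_at]
    rw [Finset.sum_neg_distrib]
    change - dv (Zf ν a V) x = _
    rw [e2, dv_curl h1, dv_cr h1' hb, e3]
    ring
  have hgr : dot (drift a V) (grad q) x = - (ν * dot (drift a V) (curl (curl V)) x) := by
    have e1 : dot (drift a V) (grad q) x
        = - (ν * dot (drift a V) (curl (curl V)) x + dot (cr (curl V) (drift a V)) (drift a V) x) := by
      unfold dot grad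
      rw [Finset.mul_sum, ← Finset.sum_add_distrib, ← Finset.sum_neg_distrib]
      refine Finset.sum_congr rfl fun i _ => ?_
      rw [hq]
      unfold Zf
      ring
    rw [e1, dot_cr_self]
    ring
  rw [hlap, hgr]
  ring

end Leray
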