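import Pool.Agent.Lib.MP_9b9638_an.HeadInt

/-!
# Weighted square integrability of the gradient of the head pressure
-/

open MeasureTheory Set Filter Topology

noncomputable section
namespace Leray

/-- the cutoff weights -/
def zt (R : ℝ) (x : E) : ℝ := cut R R x * wt x ^ 3

theorem contDiff_zt (R : ℝ) : ContDiff ℝ 2 (zt R) :=
  ((contDiff_cut R R).of_le (WithTop.coe_le_coe.2 (le_top : (2 : ℕ∞) ≤ ⊤))).mul (contDiff_wt.pow 3)

theorem hcs_zt {R : ℝ} (hR : 1 ≤ R) : HasCompactSupport (zt R) :=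
  (hasCompactSupport_cut (by linarith) le_rfl).mul_right

theorem zt_nonneg (R : ℝ) (x : E) : 0 ≤ zt R x :=
  mul_nonneg (cut_nonneg _ _ _) (pow_nonneg (wt_pos x).le _)

theorem zt_le (R : ℝ) (x : E) : zt R x ≤ wt x ^ 3 :=
  mul_le_of_le_one_left (pow_nonneg (wt_pos x).le _) (cut_le_one _ _ _)

theorem zt_sq_le (R : ℝ) (x : E) : zt R x ^ 2 ≤ wt x ^ 6 := by
  calc zt R x ^ 2 ≤ (wt x ^ 3) ^ 2 := by
        gcongr
        · exact zt_nonneg R x
        · exact zt_le R x
    _ = wt x ^ 6 := by ring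

theorem wt64 (x : E) : wt x ^ 6 ≤ wt x ^ 4 :=
  pow_le_pow_of_le_one (wt_pos x).le (wt_le_one x) (by norm_num)

theorem wt_normsq (x : E) : wt x ^ 6 * ‖x‖ ^ 2 ≤ wt x ^ 4 := by
  have h := wt_mul x
  have h0 := wt_pos x
  have h1 : wt x * ‖x‖ ^ 2 ≤ 1 := by nlinarith
  calc wt x ^ 6 * ‖x‖ ^ 2 = wt x ^ 5 * (wt x * ‖x‖ ^ 2) := by ring
    _ ≤ wt x ^ 5 * 1 := by gcongr
    _ ≤ wt x ^ 4 := by
        rw [mul_one]
        exact pow_le_pow_of_le_one h0.le (wt_le_one x) (by norm_num)

theorem grad_zt : ∃ C : ℝ, 0 < C ∧ ∀ R : ℝ, 1 ≤ R → ∀ x, sq (grad (zt R)) x ≤ C * wt x ^ 4 := by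
  obtain ⟨C, hC, h⟩ := cut_bounds
  refine ⟨3 * (C + 3) ^ 2, by positivity, ?_⟩
  intro R hR x
  have hR0 : 0 < R := by linarith
  have χd : Differentiable ℝ (cut R R) := (contDiff_cut R R).differentiable (by norm_num)
  have w3 : Differentiable ℝ (fun x => wt x ^ 3) :=
    ((contDiff_wt (n := 1)).pow 3).differentiable (by norm_num)
  have w0 := wt_pos x
  have h1 : ∀ i, |grad (zt R) i x| ≤ (C + 3) * wt x ^ 3 := by
    intro i
    have e : grad (zt R) i x = pd i (cut R R) x * wt x ^ 3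
        + cut R R x * (-6 * x i * wt x ^ 4) := by
      show pd i (fun x => cut R R x * wt x ^ 3) x = _
      rw [pd_mul χd w3, pd_wt_pow]
      push_cast
      ring
    have b1 : |pd i (cut R R) x| ≤ C := by
      refine (h R R hR0 le_rfl x i i).1.trans ?_
      exact div_le_self hC.le hR
    have b2 : |x i| * wt x ≤ 1 / 2 := by
      have h2 := abs_coord_le x i
      have h3 := wt_mul x
      nlinarith [sq_nonneg (1 - ‖x‖), norm_nonneg x]
    have b3 : |cut R R x * (-6 * x i * wt x ^ 4)| ≤ 3 * wt x ^ 3 := by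
      rw [abs_mul, abs_mul, abs_mul, abs_of_nonneg (cut_nonneg R R x),
        abs_of_pos (pow_pos w0 4)]
      calc cut R R x * (|(-6 : ℝ)| * |x i| * wt x ^ 4)
          ≤ 1 * (|(-6 : ℝ)| * |x i| * wt x ^ 4) := by
            gcongr
            exact cut_le_one R R x
        _ = 6 * (|x i| * wt x) * wt x ^ 3 := by norm_num; ring
        _ ≤ 6 * (1 / 2) * wt x ^ 3 := by gcongr
        _ = 3 * wt x ^ 3 := by ring
    rw [e]
    calc _ ≤ |pd i (cut R R) x * wt x ^ 3| + |cut R R x * (-6 * x i * wt x ^ 4)| := abs_add_le _ _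
      _ ≤ C * wt x ^ 3 + 3 * wt x ^ 3 := by
          gcongr
          rw [abs_mul, abs_of_pos (pow_pos w0 3)]
          gcongr
      _ = _ := by ring
  have h2 : ∀ i, grad (zt R) i x ^ 2 ≤ ((C + 3) * wt x ^ 3) ^ 2 := fun i => by
    rw [← sq_abs]
    gcongr
    exact h1 i
  calc sq (grad (zt R)) x ≤ ∑ _i : Fin 3, ((C + 3) * wt x ^ 3) ^ 2 :=
        Finset.sum_le_sum fun i _ => h2 i
    _ = 3 * (C + 3) ^ 2 * wt x ^ 6 := by simp; ring
    _ ≤ 3 * (C + 3) ^ 2 * wt x ^ 4 := by
        gcongr 3 * (C + 3) ^ 2 * ?_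
        exact wt64 x

theorem sq_drift_le {a : ℝ} (ha : 0 ≤ a) (V : VF) (x : E) :
    sq (drift a V) x ≤ 2 * sq V x + 2 * a ^ 2 * ‖x‖ ^ 2 := by
  have h := nm_drift_le ha V x
  have h0 := nm_nonneg (drift a V) x
  rw [← nm_sq, ← nm_sq]
  nlinarith [sq_nonneg (nm V x - a * ‖x‖), nm_nonneg V x, norm_nonneg x]

/-- the Hoelder estimate for the convection term -/
theorem conv_term {V : VF} (hV : ∀ i, ContDiff ℝ 3 (V i))
    (h1 : Integrable (fun x : E => sq (curl V) x * wt x ^ 4))
    (h2 : Integrable (fun x : E => sq V x ^ 3 * wt x ^ 3)) {R : ℝ} (hR : 1 ≤ R) :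
    ∫ x, zt R x ^ 2 * sq (curl V) x * sq V x ≤
      (∫ x, sq V x ^ 3 * wt x ^ 3) ^ (1 / 3 : ℝ)
      * (∫ x, (zt R x ^ 2 * sq (curl V) x) ^ 3) ^ (1 / 6 : ℝ)
      * (∫ x, sq (curl V) x * wt x ^ 4) ^ (1 / 2 : ℝ) := by
  have hω : ∀ i, ContDiff ℝ 2 (curl V i) := fun i => contDiff_curl hV (by norm_num) i
  have cV : Continuous (sq V) := continuous_sq fun i => (hV i).continuous
  have cω : Continuous (nm (curl V)) := continuous_nm fun i => (hω i).continuous
  have cz : Continuous (zt R) := (contDiff_zt R).continuous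
  have cχ : Continuous (cut R R) := (contDiff_cut R R).continuous
  have hX : Continuous (fun x => sq V x * wt x) := cV.mul continuous_wt
  have hY : Continuous (fun x => zt R x * nm (curl V) x) := cz.mul cω
  have hZ : Continuous (fun x => cut R R x * nm (curl V) x * wt x ^ 2) :=
    (cχ.mul cω).mul (continuous_wt.pow 2)
  have eX : ∀ x, (sq V x * wt x) ^ 3 = sq V x ^ 3 * wt x ^ 3 := fun x => by ring
  have eY : ∀ x, (zt R x * nm (curl V) x) ^ 6 = (zt R x ^ 2 * sq (curl V) x) ^ 3 := fun x => by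
    rw [← nm_sq]; ring
  have iY : Integrable (fun x => (zt R x * nm (curl V) x) ^ 6) := by
    have k : HasCompactSupport (fun x => zt R x * nm (curl V) x) := (hcs_zt hR).mul_right
    exact integrable_of_cc (hY.pow 6) (k.comp_left (g := fun t : ℝ => t ^ 6) (by simp))
  have iZ : Integrable (fun x => (cut R R x * nm (curl V) x * wt x ^ 2) ^ 2) := by
    have k0 : HasCompactSupport (cut R R) := hasCompactSupport_cut (by linarith) le_rfl
    have k1 : HasCompactSupport (fun x => cut R R x * nm (curl V) x) := k0.mul_right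
    have k2 : HasCompactSupport (fun x => cut R R x * nm (curl V) x * wt x ^ 2) := k1.mul_right
    exact integrable_of_cc (hZ.pow 2) (hcs_sq k2)
  have lZ : ∫ x, (cut R R x * nm (curl V) x * wt x ^ 2) ^ 2 ≤ ∫ x, sq (curl V) x * wt x ^ 4 := by
    apply integral_mono iZ h1
    intro x
    have c0 := cut_nonneg R R x
    have c1 := cut_le_one R R x
    have : (cut R R x * nm (curl V) x * wt x ^ 2) ^ 2
        = cut R R x ^ 2 * (sq (curl V) x * wt x ^ 4) := by rw [← nm_sq]; ring
    simp only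
    rw [this]
    apply mul_le_of_le_one_left
    · exact mul_nonneg (sq_nonneg' _ _) (pow_nonneg (wt_pos x).le _)
    · exact pow_le_one₀ c0 c1
  have key := holder3 hX hY hZ (fun x => mul_nonneg (sq_nonneg' _ _) (wt_pos x).le)
    (fun x => mul_nonneg (zt_nonneg _ _) (nm_nonneg _ _))
    (fun x => mul_nonneg (mul_nonneg (cut_nonneg _ _ _) (nm_nonneg _ _)) (pow_nonneg (wt_pos x).le _))
    (by simpa only [eX] using h2) iY iZ
  simp only [eX, eY] at key
  have eT : ∀ x, zt R x ^ 2 * sq (curl V) x * sq V x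
      = sq V x * wt x * (zt R x * nm (curl V) x) * (cut R R x * nm (curl V) x * wt x ^ 2) := by
    intro x
    rw [← nm_sq (curl V)]
    unfold zt
    ring
  simp only [eT]
  refine key.trans ?_
  have n1 : 0 ≤ ∫ x, sq V x ^ 3 * wt x ^ 3 := integral_nonneg fun x =>
    mul_nonneg (pow_nonneg (sq_nonneg' _ _) _) (pow_nonneg (wt_pos x).le _)
  have n2 : 0 ≤ ∫ x, (zt R x ^ 2 * sq (curl V) x) ^ 3 := integral_nonneg fun x =>
    pow_nonneg (mul_nonneg (sq_nonneg _) (sq_nonneg' _ _)) _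
  have n3 : 0 ≤ ∫ x, (cut R R x * nm (curl V) x * wt x ^ 2) ^ 2 := integral_nonneg fun x =>
    sq_nonneg _
  gcongr

theorem head_bounds {ν a : ℝ} (hν : 0 < ν) (ha : 0 < a) {V : VF} (hV : SmoothProfile ν a V)
    (h1 : Integrable (fun x : E => sq (curl V) x * wt x ^ 4))
    (h2 : Integrable (fun x : E => sq V x ^ 3 * wt x ^ 3)) :
    ∃ C : ℝ, ∀ R : ℝ, 1 ≤ R → (∫ x, zt R x ^ 2 * sq (curl (curl V)) x) ≤ C ∧
      (∫ x, zt R x ^ 2 * sq (curl V) x * sq V x) ≤ C := by
  obtain ⟨CB, hCB, hgrad⟩ := grad_zt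
  obtain ⟨CS, hCS, hsob⟩ := sob_zeta
  set A := ∫ x, sq (curl V) x * wt x ^ 4 with hA
  set V6 := ∫ x, sq V x ^ 3 * wt x ^ 3 with hV6
  have A0 : 0 ≤ A := integral_nonneg fun x =>
    mul_nonneg (sq_nonneg' _ _) (pow_nonneg (wt_pos x).le _)
  have V60 : 0 ≤ V6 := integral_nonneg fun x =>
    mul_nonneg (pow_nonneg (sq_nonneg' _ _) _) (pow_nonneg (wt_pos x).le _)
  set K := V6 ^ (1 / 3 : ℝ) * A ^ (1 / 2 : ℝ) with hK
  have K0 : 0 ≤ K := by positivity
  set m := 1 / ν + 1 with hm
  have m0 : 0 < m := by positivity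
  set θ := ν / (16 * CS * m) with hθ
  have θ0 : 0 < θ := by positivity
  have hω : ∀ i, ContDiff ℝ 2 (curl V i) := fun i => contDiff_curl hV.smooth (by norm_num) i
  have hω1 : ∀ i, ContDiff ℝ 1 (curl V i) := fun i => (hω i).of_le (by norm_num)
  have cω : Continuous (sq (curl V)) := continuous_sq fun i => (hω i).continuous
  have cV : Continuous (sq V) := continuous_sq fun i => (hV.smooth i).continuous
  have hdr : ∀ i, Continuous (drift a V i) := fun i => by
    unfold drift
    exact (hV.smooth i).continuous.add (continuous_const.mul (contDiff_coord i (n := 0)).continuous)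
  -- the constants
  set B1 := CB * A with hB1
  set M1 := (4 * ν + 1) * B1 + m * (6 * θ * CS * B1 + K ^ 2 / (2 * θ) + 2 * a ^ 2 * A) with hM1
  set D1 := 4 / ν * M1 with hD1
  refine ⟨D1 + (θ * (CS * (2 * D1 + 3 * B1)) + K ^ 2 / (4 * θ)), ?_⟩
  intro R hR
  have cz : Continuous (zt R) := (contDiff_zt R).continuous
  have hzc := hcs_zt hR
  set D := ∫ x, zt R x ^ 2 * sq (curl (curl V)) x with hD
  set B := ∫ x, sq (grad (zt R)) x * sq (curl V) x with hB
  set T := ∫ x, zt R x ^ 2 * sq (curl V) x * sq V x with hT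
  set TT := ∫ x, zt R x ^ 2 * sq (curl V) x * sq (drift a V) x with hTT
  have D0 : 0 ≤ D := integral_nonneg fun x => mul_nonneg (sq_nonneg _) (sq_nonneg' _ _)
  have B0 : 0 ≤ B := integral_nonneg fun x => mul_nonneg (sq_nonneg' _ _) (sq_nonneg' _ _)
  have gc : ∀ i, Continuous (grad (zt R) i) := fun i =>
    continuous_pd ((contDiff_zt R).of_le (by norm_num))
  have bB : B ≤ B1 := by
    rw [hB1, hA, ← integral_const_mul]
    apply integral_mono
    · exact integrable_of_cc ((continuous_sq gc).mul cω)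
        (hcs_sqf (hasCompactSupport_grad hzc)).mul_right
    · exact h1.const_mul CB
    · intro x
      calc sq (grad (zt R)) x * sq (curl V) x ≤ (CB * wt x ^ 4) * sq (curl V) x :=
            mul_le_mul_of_nonneg_right (hgrad R hR x) (sq_nonneg' _ _)
        _ = CB * (sq (curl V) x * wt x ^ 4) := by ring
  have iT : Integrable (fun x => zt R x ^ 2 * sq (curl V) x * sq V x) :=
    integrable_of_cc (((cz.pow 2).mul cω).mul cV) ((hcs_sq hzc).mul_right).mul_right
  have bTT : TT ≤ 2 * T + 2 * a ^ 2 * A := by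
    rw [hT, hA, ← integral_const_mul, ← integral_const_mul, ← integral_add (iT.const_mul 2)
      (h1.const_mul _)]
    apply integral_mono
    · exact integrable_of_cc (((cz.pow 2).mul cω).mul (continuous_sq hdr))
        ((hcs_sq hzc).mul_right).mul_right
    · exact (iT.const_mul 2).add (h1.const_mul _)
    · intro x
      have s1 := sq_drift_le ha.le V x
      have s2 := zt_sq_le R x
      have s3 := wt_normsq x
      have s0 : 0 ≤ zt R x ^ 2 * sq (curl V) x := mul_nonneg (sq_nonneg _) (sq_nonneg' _ _)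
      have s4 : zt R x ^ 2 * ‖x‖ ^ 2 ≤ wt x ^ 4 :=
        le_trans (mul_le_mul_of_nonneg_right s2 (sq_nonneg _)) s3
      calc zt R x ^ 2 * sq (curl V) x * sq (drift a V) x
          ≤ zt R x ^ 2 * sq (curl V) x * (2 * sq V x + 2 * a ^ 2 * ‖x‖ ^ 2) :=
            mul_le_mul_of_nonneg_left s1 s0
        _ = 2 * (zt R x ^ 2 * sq (curl V) x * sq V x)
            + 2 * a ^ 2 * (sq (curl V) x * (zt R x ^ 2 * ‖x‖ ^ 2)) := by ring
        _ ≤ 2 * (zt R x ^ 2 * sq (curl V) x * sq V x)
            + 2 * a ^ 2 * (sq (curl V) x * wt x ^ 4) := by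
            have := sq_nonneg' (curl V) x
            gcongr
  have bT : T ≤ θ * (CS * (2 * D + 3 * B)) + K ^ 2 / (4 * θ) := by
    have k1 := conv_term hV.smooth h1 h2 hR
    rw [← hT, ← hV6, ← hA] at k1
    have k2 := hsob hV.smooth (contDiff_zt R) hzc
    rw [← hD, ← hB] at k2
    set S := ∫ x, (zt R x ^ 2 * sq (curl V) x) ^ 3 with hS
    have S0 : 0 ≤ S := integral_nonneg fun x =>
      pow_nonneg (mul_nonneg (sq_nonneg _) (sq_nonneg' _ _)) _
    set s := S ^ (1 / 6 : ℝ) with hs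
    have s0 : 0 ≤ s := by positivity
    have s2 : s ^ 2 = S ^ (1 / 3 : ℝ) := by
      rw [hs, ← Real.rpow_natCast, ← Real.rpow_mul S0]
      norm_num
    rw [← s2] at k2
    have k3 : T ≤ K * s := by
      calc T ≤ V6 ^ (1 / 3 : ℝ) * s * A ^ (1 / 2 : ℝ) := k1
        _ = K * s := by rw [hK]; ring
    have k4 : K * s ≤ θ * s ^ 2 + K ^ 2 / (4 * θ) := by
      have : 0 ≤ (2 * θ * s - K) ^ 2 / (4 * θ) := by positivity
      have e : (2 * θ * s - K) ^ 2 / (4 * θ) = θ * s ^ 2 - K * s + K ^ 2 / (4 * θ) := by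
        field_simp
        ring
      linarith
    calc T ≤ θ * s ^ 2 + K ^ 2 / (4 * θ) := k3.trans k4
      _ ≤ _ := by gcongr
  have bC := cacc hν hV (contDiff_zt R) hzc
  rw [← hD, ← hB, ← hTT, ← hm] at bC
  have bD : D ≤ D1 := by
    have e1 : m * (2 * (θ * (CS * (2 * D)))) = (ν / 4) * D := by
      rw [hθ]
      field_simp
      ring
    have e2 : (ν / 2) * D ≤ (4 * ν + 1) * B1 + m * (2 * (θ * (CS * (2 * D + 3 * B1))
        + K ^ 2 / (4 * θ)) + 2 * a ^ 2 * A) := by
      calc (ν / 2) * D ≤ (4 * ν + 1) * B + m * TT := bC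
        _ ≤ (4 * ν + 1) * B1 + m * (2 * (θ * (CS * (2 * D + 3 * B1))
        + K ^ 2 / (4 * θ)) + 2 * a ^ 2 * A) := by
          have : TT ≤ 2 * (θ * (CS * (2 * D + 3 * B1)) + K ^ 2 / (4 * θ)) + 2 * a ^ 2 * A := by
            refine bTT.trans ?_
            have : T ≤ θ * (CS * (2 * D + 3 * B1)) + K ^ 2 / (4 * θ) := by
              refine bT.trans ?_
              gcongr
            linarith
          gcongr
    have e3 : m * (2 * (θ * (CS * (2 * D + 3 * B1)) + K ^ 2 / (4 * θ)) + 2 * a ^ 2 * A)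
        = m * (2 * (θ * (CS * (2 * D)))) + m * (6 * θ * CS * B1 + K ^ 2 / (2 * θ)
          + 2 * a ^ 2 * A) := by
      have : 2 * (K ^ 2 / (4 * θ)) = K ^ 2 / (2 * θ) := by
        field_simp
        ring
      rw [← this]
      ring
    rw [e3, e1] at e2
    have e4 : (ν / 4) * D ≤ M1 := by
      rw [hM1]
      linarith
    rw [hD1]
    calc D = 4 / ν * ((ν / 4) * D) := by field_simp
      _ ≤ 4 / ν * M1 := by gcongr
  have bT1 : T ≤ θ * (CS * (2 * D1 + 3 * B1)) + K ^ 2 / (4 * θ) := by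
    refine bT.trans ?_
    gcongr
  have T0 : 0 ≤ T := integral_nonneg fun x =>
    mul_nonneg (mul_nonneg (sq_nonneg _) (sq_nonneg' _ _)) (sq_nonneg' _ _)
  constructor
  · linarith
  · linarith

/-- integrability from bounds with squared cutoffs -/
theorem integrable_of_cut2 {F : E → ℝ} (hF : Continuous F) (h0 : ∀ x, 0 ≤ F x) (C : ℝ)
    (h : ∀ R : ℝ, 1 ≤ R → ∫ x, cut R R x ^ 2 * F x ≤ C) : Integrable F := by
  have hφ : AECover volume atTop (fun n : ℕ => Metric.ball (0 : E) (n : ℝ)) :=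
    aecover_ball tendsto_natCast_atTop_atTop
  refine hφ.integrable_of_integral_bounded_of_nonneg_ae C (fun n => ?_)
    (Eventually.of_forall h0) ?_
  · exact (hF.continuousOn.integrableOn_compact (isCompact_closedBall (0 : E) n)).mono_set
      Metric.ball_subset_closedBall
  · filter_upwards [eventually_ge_atTop 1] with n hn
    have hn1 : (1 : ℝ) ≤ n := by exact_mod_cast hn
    refine le_trans ?_ (h n hn1)
    rw [← integral_indicator Metric.isOpen_ball.measurableSet]
    apply integral_mono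
    · rw [integrable_indicator_iff Metric.isOpen_ball.measurableSet]
      exact (hF.continuousOn.integrableOn_compact (isCompact_closedBall (0 : E) n)).mono_set
        Metric.ball_subset_closedBall
    · exact integrable_of_cc (((contDiff_cut (n : ℝ) n).continuous.pow 2).mul hF)
        (hcs_sq (hasCompactSupport_cut (by linarith) le_rfl)).mul_right
    · intro x
      by_cases hx : x ∈ Metric.ball (0 : E) (n : ℝ)
      · rw [Set.indicator_of_mem hx]
        rw [mem_ball_zero_iff] at hx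
        show F x ≤ cut n n x ^ 2 * F x
        rw [cut_one (by linarith) le_rfl hx.le, one_pow, one_mul]
      · rw [Set.indicator_of_notMem hx]
        exact mul_nonneg (sq_nonneg _) (h0 x)

/-- F1 -/
theorem head_grad_int {ν a : ℝ} (hν : 0 < ν) (ha : 0 < a) {V : VF} (hV : SmoothProfile ν a V)
    {q : E → ℝ} (hq : ContDiff ℝ 2 q) (hq1 : ∀ i x, pd i q x = - Zf ν a V i x)
    (h1 : Integrable (fun x : E => sq (curl V) x * (1 + ‖x‖ ^ 2)⁻¹ ^ 4))
    (h2 : Integrable (fun x : E => sq V x ^ 3 * (1 + ‖x‖ ^ 2)⁻¹ ^ 3)) :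
    Integrable (fun x : E => sq (grad q) x * (1 + ‖x‖ ^ 2)⁻¹ ^ 6) := by
  obtain ⟨C, hC⟩ := head_bounds hν ha hV h1 h2
  have hω : ∀ i, ContDiff ℝ 2 (curl V i) := fun i => contDiff_curl hV.smooth (by norm_num) i
  have hω1 : ∀ i, ContDiff ℝ 1 (curl V i) := fun i => (hω i).of_le (by norm_num)
  have cω : Continuous (sq (curl V)) := continuous_sq fun i => (hω i).continuous
  have cc : Continuous (sq (curl (curl V))) := continuous_sq (continuous_curl hω1)
  have cV : Continuous (sq V) := continuous_sq fun i => (hV.smooth i).continuous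
  have w6 : Continuous (fun x => wt x ^ 6) := continuous_wt.pow 6
  have I1 : Integrable (fun x => sq (curl (curl V)) x * wt x ^ 6) := by
    refine integrable_of_cut2 (cc.mul w6)
      (fun x => mul_nonneg (sq_nonneg' _ _) (pow_nonneg (wt_pos x).le _)) C ?_
    intro R hR
    refine le_trans (le_of_eq ?_) (hC R hR).1
    congr 1
    funext x
    unfold zt
    ring
  have I2 : Integrable (fun x => sq (curl V) x * sq V x * wt x ^ 6) := by
    refine integrable_of_cut2 ((cω.mul cV).mul w6)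
      (fun x => mul_nonneg (mul_nonneg (sq_nonneg' _ _) (sq_nonneg' _ _))
        (pow_nonneg (wt_pos x).le _)) C ?_
    intro R hR
    refine le_trans (le_of_eq ?_) (hC R hR).2
    congr 1
    funext x
    unfold zt
    ring
  have h1' : Integrable (fun x => sq (curl V) x * wt x ^ 4) := h1
  have big : Integrable (fun x => 2 * ν ^ 2 * (sq (curl (curl V)) x * wt x ^ 6)
      + 4 * (sq (curl V) x * sq V x * wt x ^ 6) + 4 * a ^ 2 * (sq (curl V) x * wt x ^ 4)) :=
    ((I1.const_mul _).add (I2.const_mul _)).add (h1'.const_mul _)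
  show Integrable (fun x : E => sq (grad q) x * wt x ^ 6)
  have gq : ∀ i, Continuous (grad q i) := fun i => continuous_pd (hq.of_le (by norm_num))
  refine big.mono' ((continuous_sq gq).mul w6).aestronglyMeasurable
    (Eventually.of_forall fun x => ?_)
  rw [Real.norm_of_nonneg (mul_nonneg (sq_nonneg' _ _) (pow_nonneg (wt_pos x).le _))]
  have e0 : sq (grad q) x = sq (Zf ν a V) x := by
    unfold sq grad
    simp only [hq1]
    simp
  have e1 : nm (Zf ν a V) x ≤ ν * nm (curl (curl V)) x + nm (curl V) x * nm (drift a V) x := by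
    have k1 := nm_add_le (fun i y => ν * curl (curl V) i y) (cr (curl V) (drift a V)) x
    rw [nm_smul, abs_of_pos hν] at k1
    exact k1.trans (by gcongr; exact nm_cr_le _ _ _)
  have e2 : sq (Zf ν a V) x ≤ 2 * ν ^ 2 * sq (curl (curl V)) x
      + 2 * (sq (curl V) x * sq (drift a V) x) := by
    rw [← nm_sq, ← nm_sq, ← nm_sq, ← nm_sq]
    have n0 := nm_nonneg (Zf ν a V) x
    nlinarith [sq_nonneg (ν * nm (curl (curl V)) x - nm (curl V) x * nm (drift a V) x)]
  have w0 := wt_pos x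
  have s1 := sq_drift_le ha.le V x
  have s2 := wt_normsq x
  have s3 := sq_nonneg' (curl V) x
  calc sq (grad q) x * wt x ^ 6 ≤ (2 * ν ^ 2 * sq (curl (curl V)) x
      + 2 * (sq (curl V) x * (2 * sq V x + 2 * a ^ 2 * ‖x‖ ^ 2))) * wt x ^ 6 := by
        rw [e0]
        gcongr
        exact e2.trans (by gcongr)
    _ = 2 * ν ^ 2 * (sq (curl (curl V)) x * wt x ^ 6) + 4 * (sq (curl V) x * sq V x * wt x ^ 6)
        + 4 * a ^ 2 * (sq (curl V) x * (wt x ^ 6 * ‖x‖ ^ 2)) := by ring
    _ ≤ _ := by gcongr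

end Leray
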