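import Pool.Agent.Lib.MP_9b9638_an.Hardy
import Pool.Agent.Lib.MP_9b9638_an.Energy3

/-!
# Weighted Caccioppoli inequality for the vorticity
-/

open MeasureTheory Set Filter Topology

noncomputable section
namespace Leray

theorem holder3 {X Y Z : E → ℝ} (hX : Continuous X) (hY : Continuous Y) (hZ : Continuous Z)
    (X0 : ∀ x, 0 ≤ X x) (Y0 : ∀ x, 0 ≤ Y x) (Z0 : ∀ x, 0 ≤ Z x)
    (iX : Integrable (fun x => X x ^ 3)) (iY : Integrable (fun x => Y x ^ 6))
    (iZ : Integrable (fun x => Z x ^ 2)) :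
    ∫ x, X x * Y x * Z x ≤ (∫ x, X x ^ 3) ^ (1 / 3 : ℝ) * (∫ x, Y x ^ 6) ^ (1 / 6 : ℝ)
      * (∫ x, Z x ^ 2) ^ (1 / 2 : ℝ) := by
  have nX : 0 ≤ ∫ x, X x ^ 3 := integral_nonneg fun x => pow_nonneg (X0 x) _
  have nY : 0 ≤ ∫ x, Y x ^ 6 := integral_nonneg fun x => pow_nonneg (Y0 x) _
  have nZ : 0 ≤ ∫ x, Z x ^ 2 := integral_nonneg fun x => pow_nonneg (Z0 x) _
  have hcont : Continuous fun x => X x * Y x * Z x := (hX.mul hY).mul hZ
  rw [integral_eq_lintegral_of_nonneg_ae (Eventually.of_forall fun x =>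
    mul_nonneg (mul_nonneg (X0 x) (Y0 x)) (Z0 x)) hcont.aestronglyMeasurable]
  apply ENNReal.toReal_le_of_le_ofReal (by positivity)
  let f : Fin 3 → E → ENNReal := ![fun x => ENNReal.ofReal (X x ^ 3), fun x =>
    ENNReal.ofReal (Y x ^ 6), fun x => ENNReal.ofReal (Z x ^ 2)]
  let e : Fin 3 → ℝ := ![1 / 3, 1 / 6, 1 / 2]
  have h := ENNReal.lintegral_prod_norm_pow_le (μ := (volume : Measure E)) Finset.univ (f := f)
    (p := e) (by
      intro i _
      fin_cases i
      · exact (hX.pow 3).measurable.ennreal_ofReal.aemeasurable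
      · exact (hY.pow 6).measurable.ennreal_ofReal.aemeasurable
      · exact (hZ.pow 2).measurable.ennreal_ofReal.aemeasurable)
    (by simp [e, Fin.sum_univ_three]; norm_num)
    (by intro i _; fin_cases i <;> simp [e])
  simp only [Fin.prod_univ_three] at h
  have r1 : ∀ x, ENNReal.ofReal (X x * Y x * Z x) = f 0 x ^ e 0 * f 1 x ^ e 1 * f 2 x ^ e 2 := by
    intro x
    have a1 : f 0 x ^ e 0 = ENNReal.ofReal (X x) := by
      show ENNReal.ofReal (X x ^ 3) ^ (1 / 3 : ℝ) = _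
      rw [ENNReal.ofReal_rpow_of_nonneg (pow_nonneg (X0 x) _) (by norm_num),
        ← Real.rpow_natCast, ← Real.rpow_mul (X0 x)]
      norm_num
    have a2 : f 1 x ^ e 1 = ENNReal.ofReal (Y x) := by
      show ENNReal.ofReal (Y x ^ 6) ^ (1 / 6 : ℝ) = _
      rw [ENNReal.ofReal_rpow_of_nonneg (pow_nonneg (Y0 x) _) (by norm_num),
        ← Real.rpow_natCast, ← Real.rpow_mul (Y0 x)]
      norm_num
    have a3 : f 2 x ^ e 2 = ENNReal.ofReal (Z x) := by
      show ENNReal.ofReal (Z x ^ 2) ^ (1 / 2 : ℝ) = _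
      rw [ENNReal.ofReal_rpow_of_nonneg (pow_nonneg (Z0 x) _) (by norm_num),
        ← Real.rpow_natCast, ← Real.rpow_mul (Z0 x)]
      norm_num
    rw [a1, a2, a3, ENNReal.ofReal_mul (mul_nonneg (X0 x) (Y0 x)), ENNReal.ofReal_mul (X0 x)]
  have r2 : (∫⁻ x, f 0 x) ^ e 0 * (∫⁻ x, f 1 x) ^ e 1 * (∫⁻ x, f 2 x) ^ e 2
      = ENNReal.ofReal ((∫ x, X x ^ 3) ^ (1 / 3 : ℝ) * (∫ x, Y x ^ 6) ^ (1 / 6 : ℝ)
      * (∫ x, Z x ^ 2) ^ (1 / 2 : ℝ)) := by
    have b1 : ∫⁻ x, f 0 x = ENNReal.ofReal (∫ x, X x ^ 3) :=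
      (ofReal_integral_eq_lintegral_ofReal iX (Eventually.of_forall fun x =>
        pow_nonneg (X0 x) _)).symm
    have b2 : ∫⁻ x, f 1 x = ENNReal.ofReal (∫ x, Y x ^ 6) :=
      (ofReal_integral_eq_lintegral_ofReal iY (Eventually.of_forall fun x =>
        pow_nonneg (Y0 x) _)).symm
    have b3 : ∫⁻ x, f 2 x = ENNReal.ofReal (∫ x, Z x ^ 2) :=
      (ofReal_integral_eq_lintegral_ofReal iZ (Eventually.of_forall fun x =>
        pow_nonneg (Z0 x) _)).symm
    rw [b1, b2, b3]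
    show ENNReal.ofReal _ ^ (1 / 3 : ℝ) * ENNReal.ofReal _ ^ (1 / 6 : ℝ)
      * ENNReal.ofReal _ ^ (1 / 2 : ℝ) = _
    rw [ENNReal.ofReal_rpow_of_nonneg nX (by norm_num),
      ENNReal.ofReal_rpow_of_nonneg nY (by norm_num),
      ENNReal.ofReal_rpow_of_nonneg nZ (by norm_num),
      ENNReal.ofReal_mul (by positivity), ENNReal.ofReal_mul (by positivity)]
  simp_rw [r1]
  rw [← r2]
  exact h

/-- pointwise form of the Caccioppoli inequality -/
theorem cacc_pointwise {ν a : ℝ} (hν : 0 < ν) {V : VF} (hV : SmoothProfile ν a V) {ζ : E → ℝ}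
    (hζ : ContDiff ℝ 2 ζ) (x : E) :
    (ν / 2) * (ζ x ^ 2 * sq (curl (curl V)) x) ≤
      dot (Zf ν a V) (curl (sm (fun y => ζ y ^ 2) (curl V))) x
      + (4 * ν + 1) * (sq (grad ζ) x * sq (curl V) x)
      + (1 / ν + 1) * (ζ x ^ 2 * sq (curl V) x * sq (drift a V) x) := by
  have hω : ∀ i, ContDiff ℝ 2 (curl V i) := fun i => contDiff_curl hV.smooth (by norm_num) i
  have hωd : ∀ i, Differentiable ℝ (curl V i) := fun i => (hω i).differentiable (by norm_num)
  have hζd : Differentiable ℝ ζ := hζ.differentiable (by norm_num)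
  set c := nm (curl (curl V)) x with hc
  set w := nm (curl V) x with hw
  set b := nm (drift a V) x with hb
  set g := nm (grad ζ) x with hg
  have c0 : 0 ≤ c := nm_nonneg _ _
  have w0 : 0 ≤ w := nm_nonneg _ _
  have b0 : 0 ≤ b := nm_nonneg _ _
  have g0 : 0 ≤ g := nm_nonneg _ _
  have e0 : ∀ i, curl (sm (fun y => ζ y ^ 2) (curl V)) i x
      = ζ x ^ 2 * curl (curl V) i x + 2 * ζ x * cr (grad ζ) (curl V) i x := by
    intro i
    have hz2 : Differentiable ℝ (fun y => ζ y ^ 2) := hζd.pow 2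
    rw [curl_sm hz2 hωd]
    congr 1
    unfold cr grad
    rw [pd_pow_at 2 (hζd x), pd_pow_at 2 (hζd x)]
    push_cast
    ring
  have e1 : dot (Zf ν a V) (curl (sm (fun y => ζ y ^ 2) (curl V))) x
      = ν * ζ x ^ 2 * sq (curl (curl V)) x
        + 2 * ν * ζ x * dot (curl (curl V)) (cr (grad ζ) (curl V)) x
        + ζ x ^ 2 * dot (cr (curl V) (drift a V)) (curl (curl V)) x
        + 2 * ζ x * dot (cr (curl V) (drift a V)) (cr (grad ζ) (curl V)) x := by
    unfold dot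
    simp only [e0, Fin.sum_univ_three]
    unfold Zf sq
    simp only [Fin.sum_univ_three]
    ring
  have d1 := abs_dot_le (curl (curl V)) (cr (grad ζ) (curl V)) x
  have d2 := abs_dot_le (cr (curl V) (drift a V)) (curl (curl V)) x
  have d3 := abs_dot_le (cr (curl V) (drift a V)) (cr (grad ζ) (curl V)) x
  have n1 := nm_cr_le (grad ζ) (curl V) x
  have n2 := nm_cr_le (curl V) (drift a V) x
  have n10 := nm_nonneg (cr (grad ζ) (curl V)) x
  have n20 := nm_nonneg (cr (curl V) (drift a V)) x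
  have d1' : |dot (curl (curl V)) (cr (grad ζ) (curl V)) x| ≤ c * (g * w) :=
    d1.trans (mul_le_mul_of_nonneg_left n1 c0)
  have d2' : |dot (cr (curl V) (drift a V)) (curl (curl V)) x| ≤ (w * b) * c :=
    d2.trans (mul_le_mul_of_nonneg_right n2 c0)
  have d3' : |dot (cr (curl V) (drift a V)) (cr (grad ζ) (curl V)) x| ≤ (w * b) * (g * w) :=
    d3.trans (mul_le_mul n2 n1 n10 (by positivity))
  have z := abs_nonneg (ζ x)
  have z2 : |ζ x| ^ 2 = ζ x ^ 2 := sq_abs _
  -- the three error terms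
  have t1 : -(2 * ν * ζ x * dot (curl (curl V)) (cr (grad ζ) (curl V)) x)
      ≤ (ν / 4) * (ζ x ^ 2 * c ^ 2) + 4 * ν * (g ^ 2 * w ^ 2) := by
    have h1 : -(2 * ν * ζ x * dot (curl (curl V)) (cr (grad ζ) (curl V)) x)
        ≤ 2 * ν * (|ζ x| * (c * (g * w))) := by
      calc _ ≤ |2 * ν * ζ x * dot (curl (curl V)) (cr (grad ζ) (curl V)) x| := neg_le_abs _
        _ = 2 * ν * (|ζ x| * |dot (curl (curl V)) (cr (grad ζ) (curl V)) x|) := by
            rw [abs_mul, abs_mul, abs_mul, abs_of_pos (show (0:ℝ) < 2 by norm_num), abs_of_pos hν]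
            ring
        _ ≤ _ := by gcongr
    have h2 : 2 * (|ζ x| * c / 2) * (2 * (g * w)) ≤ (|ζ x| * c / 2) ^ 2 + (2 * (g * w)) ^ 2 :=
      two_mul_le_add_sq _ _
    rw [← z2]
    nlinarith [mul_le_mul_of_nonneg_left h2 hν.le]
  have t2 : -(ζ x ^ 2 * dot (cr (curl V) (drift a V)) (curl (curl V)) x)
      ≤ (ν / 4) * (ζ x ^ 2 * c ^ 2) + (1 / ν) * (ζ x ^ 2 * w ^ 2 * b ^ 2) := by
    have h1 : -(ζ x ^ 2 * dot (cr (curl V) (drift a V)) (curl (curl V)) x)
        ≤ ζ x ^ 2 * ((w * b) * c) := by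
      calc _ ≤ |ζ x ^ 2 * dot (cr (curl V) (drift a V)) (curl (curl V)) x| := neg_le_abs _
        _ = ζ x ^ 2 * |dot (cr (curl V) (drift a V)) (curl (curl V)) x| := by
            rw [abs_mul, abs_of_nonneg (sq_nonneg _)]
        _ ≤ _ := by gcongr
    have h2 : w * b * c ≤ (ν / 4) * c ^ 2 + (1 / ν) * (w ^ 2 * b ^ 2) := by
      have h3 : 0 ≤ (1 / ν) * (w * b - (ν / 2) * c) ^ 2 := by positivity
      have h4 : (1 / ν) * (w * b - (ν / 2) * c) ^ 2
          = (1 / ν) * (w ^ 2 * b ^ 2) - w * b * c + (ν / 4) * c ^ 2 := by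
        field_simp
        ring
      linarith
    calc _ ≤ ζ x ^ 2 * ((w * b) * c) := h1
      _ ≤ ζ x ^ 2 * ((ν / 4) * c ^ 2 + (1 / ν) * (w ^ 2 * b ^ 2)) := by gcongr
      _ = _ := by ring
  have t3 : -(2 * ζ x * dot (cr (curl V) (drift a V)) (cr (grad ζ) (curl V)) x)
      ≤ g ^ 2 * w ^ 2 + ζ x ^ 2 * w ^ 2 * b ^ 2 := by
    have h1 : -(2 * ζ x * dot (cr (curl V) (drift a V)) (cr (grad ζ) (curl V)) x)
        ≤ 2 * (|ζ x| * ((w * b) * (g * w))) := by
      calc _ ≤ |2 * ζ x * dot (cr (curl V) (drift a V)) (cr (grad ζ) (curl V)) x| := neg_le_abs _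
        _ = 2 * (|ζ x| * |dot (cr (curl V) (drift a V)) (cr (grad ζ) (curl V)) x|) := by
            rw [abs_mul, abs_mul, abs_of_pos (show (0:ℝ) < 2 by norm_num)]
            ring
        _ ≤ _ := by gcongr
    have h2 : 2 * (|ζ x| * w * b) * (g * w) ≤ (|ζ x| * w * b) ^ 2 + (g * w) ^ 2 :=
      two_mul_le_add_sq _ _
    rw [← z2]
    nlinarith
  have q1 : sq (curl (curl V)) x = c ^ 2 := (nm_sq _ _).symm
  have q2 : sq (curl V) x = w ^ 2 := (nm_sq _ _).symm
  have q3 : sq (drift a V) x = b ^ 2 := (nm_sq _ _).symm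
  have q4 : sq (grad ζ) x = g ^ 2 := (nm_sq _ _).symm
  rw [e1, q1, q2, q3, q4]
  nlinarith [t1, t2, t3]

theorem hasCompactSupport_grad {ζ : E → ℝ} (hc : HasCompactSupport ζ) (i : Fin 3) :
    HasCompactSupport (grad ζ i) := hasCompactSupport_pd hc

theorem hcs_sqf {F : VF} (hF : ∀ i, HasCompactSupport (F i)) : HasCompactSupport (sq F) := by
  unfold sq
  simp only [Fin.sum_univ_three]
  exact ((hcs_sq (hF 0)).add (hcs_sq (hF 1))).add (hcs_sq (hF 2))

/-- Caccioppoli inequality -/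
theorem cacc {ν a : ℝ} (hν : 0 < ν) {V : VF} (hV : SmoothProfile ν a V) {ζ : E → ℝ}
    (hζ : ContDiff ℝ 2 ζ) (hc : HasCompactSupport ζ) :
    (ν / 2) * ∫ x, ζ x ^ 2 * sq (curl (curl V)) x ≤
      (4 * ν + 1) * (∫ x, sq (grad ζ) x * sq (curl V) x)
      + (1 / ν + 1) * ∫ x, ζ x ^ 2 * sq (curl V) x * sq (drift a V) x := by
  have hω : ∀ i, ContDiff ℝ 2 (curl V i) := fun i => contDiff_curl hV.smooth (by norm_num) i
  have hω1 : ∀ i, ContDiff ℝ 1 (curl V i) := fun i => (hω i).of_le (by norm_num)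
  have hcc : ∀ i, Continuous (curl (curl V) i) := continuous_curl hω1
  have hdr : ∀ i, Continuous (drift a V i) := fun i => by
    unfold drift
    exact (hV.smooth i).continuous.add (continuous_const.mul (contDiff_coord i (n := 0)).continuous)
  have hZ : ∀ i, ContDiff ℝ 1 (Zf ν a V i) := Zf_cont hV.smooth
  have hT : ∀ i, ContDiff ℝ 2 (sm (fun y => ζ y ^ 2) (curl V) i) := fun i => (hζ.pow 2).mul (hω i)
  have hT1 : ∀ i, ContDiff ℝ 1 (sm (fun y => ζ y ^ 2) (curl V) i) := fun i =>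
    (hT i).of_le (by norm_num)
  have hTc : ∀ i, HasCompactSupport (sm (fun y => ζ y ^ 2) (curl V) i) := fun i =>
    (hcs_sq hc).mul_right
  have h0 : ∫ x, dot (Zf ν a V) (curl (sm (fun y => ζ y ^ 2) (curl V))) x = 0 := by
    rw [← int_curl_dot hZ hT1 hTc]
    have : ∀ x, dot (curl (Zf ν a V)) (sm (fun y => ζ y ^ 2) (curl V)) x = 0 := by
      intro x
      unfold dot
      simp [hV.eq]
    simp [this]
  have i1 : Integrable (fun x => ζ x ^ 2 * sq (curl (curl V)) x) :=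
    integrable_of_cc ((hζ.continuous.pow 2).mul (continuous_sq hcc)) (hcs_sq hc).mul_right
  have i2 : Integrable (fun x => dot (Zf ν a V) (curl (sm (fun y => ζ y ^ 2) (curl V))) x) :=
    integrable_of_cc (continuous_dot (fun i => (hZ i).continuous) (continuous_curl hT1))
      (sdot_right (hasCompactSupport_curl hTc))
  have gc : ∀ i, Continuous (grad ζ i) := fun i => continuous_pd (hζ.of_le (by norm_num))
  have i3 : Integrable (fun x => sq (grad ζ) x * sq (curl V) x) :=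
    integrable_of_cc ((continuous_sq gc).mul (continuous_sq fun i => (hω i).continuous))
      (hcs_sqf (hasCompactSupport_grad hc)).mul_right
  have i4 : Integrable (fun x => ζ x ^ 2 * sq (curl V) x * sq (drift a V) x) :=
    integrable_of_cc (((hζ.continuous.pow 2).mul (continuous_sq fun i => (hω i).continuous)).mul
      (continuous_sq hdr)) ((hcs_sq hc).mul_right).mul_right
  have key := integral_mono (i1.const_mul (ν / 2))
    ((i2.add (i3.const_mul (4 * ν + 1))).add (i4.const_mul (1 / ν + 1)))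
    (fun x => cacc_pointwise hν hV hζ x)
  have e : ∫ x, (dot (Zf ν a V) (curl (sm (fun y => ζ y ^ 2) (curl V))) x
      + (4 * ν + 1) * (sq (grad ζ) x * sq (curl V) x)
      + (1 / ν + 1) * (ζ x ^ 2 * sq (curl V) x * sq (drift a V) x))
      = (∫ x, dot (Zf ν a V) (curl (sm (fun y => ζ y ^ 2) (curl V))) x)
        + (4 * ν + 1) * (∫ x, sq (grad ζ) x * sq (curl V) x)
        + (1 / ν + 1) * ∫ x, ζ x ^ 2 * sq (curl V) x * sq (drift a V) x := by
    have a1 : Integrable (fun x => dot (Zf ν a V) (curl (sm (fun y => ζ y ^ 2) (curl V))) x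
      + (4 * ν + 1) * (sq (grad ζ) x * sq (curl V) x)) := i2.add (i3.const_mul _)
    rw [integral_add a1 (i4.const_mul _), integral_add i2 (i3.const_mul _), integral_const_mul,
      integral_const_mul]
  rw [integral_const_mul] at key
  rw [h0, zero_add] at e
  exact key.trans (le_of_eq e)

/-- Sobolev inequality for `ζ ω` -/
theorem sob_zeta : ∃ C : ℝ, 0 < C ∧ ∀ {V : VF}, (∀ i, ContDiff ℝ 3 (V i)) → ∀ {ζ : E → ℝ},
    ContDiff ℝ 2 ζ → HasCompactSupport ζ →
    (∫ x, (ζ x ^ 2 * sq (curl V) x) ^ 3) ^ (1 / 3 : ℝ) ≤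
      C * (2 * (∫ x, ζ x ^ 2 * sq (curl (curl V)) x)
        + 3 * ∫ x, sq (grad ζ) x * sq (curl V) x) := by
  obtain ⟨C, hC, hS⟩ := sobolev
  refine ⟨C, hC, ?_⟩
  intro V hV ζ hζ hc
  have hω : ∀ i, ContDiff ℝ 2 (curl V i) := fun i => contDiff_curl hV (by norm_num) i
  have hω1 : ∀ i, ContDiff ℝ 1 (curl V i) := fun i => (hω i).of_le (by norm_num)
  have hωd : ∀ i, Differentiable ℝ (curl V i) := fun i => (hω i).differentiable (by norm_num)
  have hζd : Differentiable ℝ ζ := hζ.differentiable (by norm_num)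
  have hcc : ∀ i, Continuous (curl (curl V) i) := continuous_curl hω1
  have hF : ∀ i, ContDiff ℝ 2 (sm ζ (curl V) i) := fun i => hζ.mul (hω i)
  have hF1 : ∀ i, ContDiff ℝ 1 (sm ζ (curl V) i) := fun i => (hF i).of_le (by norm_num)
  have hFc : ∀ i, HasCompactSupport (sm ζ (curl V) i) := fun i => hc.mul_right
  have h1 := hS (sm ζ (curl V)) hF1 hFc
  rw [int_gsq hF hFc] at h1
  have e1 : ∀ x, sq (sm ζ (curl V)) x = ζ x ^ 2 * sq (curl V) x := by
    intro x
    unfold sq sm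
    simp only [Fin.sum_univ_three]
    ring
  simp only [e1] at h1
  refine h1.trans (mul_le_mul_of_nonneg_left ?_ hC.le)
  have gc : ∀ i, Continuous (grad ζ i) := fun i => continuous_pd (hζ.of_le (by norm_num))
  have i1 : Integrable (fun x => ζ x ^ 2 * sq (curl (curl V)) x) :=
    integrable_of_cc ((hζ.continuous.pow 2).mul (continuous_sq hcc)) (hcs_sq hc).mul_right
  have i3 : Integrable (fun x => sq (grad ζ) x * sq (curl V) x) :=
    integrable_of_cc ((continuous_sq gc).mul (continuous_sq fun i => (hω i).continuous))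
      (hcs_sqf (hasCompactSupport_grad hc)).mul_right
  have i5 : Integrable (sq (curl (sm ζ (curl V)))) :=
    integrable_of_cc (continuous_sq (continuous_curl hF1)) (hcs_sqf (hasCompactSupport_curl hFc))
  have p1 : ∀ x, sq (curl (sm ζ (curl V))) x ≤ 2 * (ζ x ^ 2 * sq (curl (curl V)) x)
      + 2 * (sq (grad ζ) x * sq (curl V) x) := by
    intro x
    have h2 : sq (cr (grad ζ) (curl V)) x ≤ sq (grad ζ) x * sq (curl V) x := by
      rw [sq_cr]
      nlinarith [sq_nonneg (dot (grad ζ) (curl V) x)]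
    have h3 : sq (curl (sm ζ (curl V))) x ≤ 2 * (ζ x ^ 2 * sq (curl (curl V)) x)
        + 2 * sq (cr (grad ζ) (curl V)) x := by
      unfold sq
      simp only [curl_sm hζd hωd, Fin.sum_univ_three]
      nlinarith [sq_nonneg (ζ x * curl (curl V) 0 x - cr (grad ζ) (curl V) 0 x),
        sq_nonneg (ζ x * curl (curl V) 1 x - cr (grad ζ) (curl V) 1 x),
        sq_nonneg (ζ x * curl (curl V) 2 x - cr (grad ζ) (curl V) 2 x)]
    linarith
  have p2 : ∀ x, dv (sm ζ (curl V)) x ^ 2 ≤ sq (grad ζ) x * sq (curl V) x := by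
    intro x
    rw [dv_sm hζd hωd, dv_curl (fun i => (hV i).of_le (by norm_num)), mul_zero, zero_add]
    have h4 := abs_dot_le (grad ζ) (curl V) x
    rw [← nm_sq, ← nm_sq, ← mul_pow, ← sq_abs]
    gcongr
  have i6 : Integrable (fun x => dv (sm ζ (curl V)) x ^ 2) := by
    refine i3.mono' ?_ (Eventually.of_forall fun x => ?_)
    · exact ((contDiff_dv (m := 0) hF1 (by norm_num)).continuous.pow 2).aestronglyMeasurable
    · rw [Real.norm_of_nonneg (sq_nonneg _)]
      exact p2 x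
  have j1 : ∫ x, sq (curl (sm ζ (curl V))) x ≤ 2 * (∫ x, ζ x ^ 2 * sq (curl (curl V)) x)
      + 2 * ∫ x, sq (grad ζ) x * sq (curl V) x := by
    rw [← integral_const_mul, ← integral_const_mul, ← integral_add (i1.const_mul 2) (i3.const_mul 2)]
    exact integral_mono i5 ((i1.const_mul 2).add (i3.const_mul 2)) p1
  have j2 : ∫ x, dv (sm ζ (curl V)) x ^ 2 ≤ ∫ x, sq (grad ζ) x * sq (curl V) x :=
    integral_mono i6 i3 p2
  linarith

end Leray
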