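import Pool.Agent.Lib.MP_9b9638_an.HeadMax4
import Pool.Agent.Lib.MP_9b9638_an.HeadGrad
import Pool.Agent.Lib.MP_9b9638_an.Hardy

/-!
# The head pressure attains its maximum
-/

open MeasureTheory Set Filter Topology

noncomputable section
namespace Leray

theorem head_max {ν a : ℝ} (hν : 0 < ν) (ha : 0 < a) {V : VF} (hV : SmoothProfile ν a V)
    {q : E → ℝ} (hq : ContDiff ℝ 2 q) (hq1 : ∀ i x, pd i q x = - Zf ν a V i x)
    (h1 : Integrable (fun x : E => sq (curl V) x * (1 + ‖x‖ ^ 2)⁻¹ ^ 4))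
    (h2 : Integrable (fun x : E => sq V x ^ 3 * (1 + ‖x‖ ^ 2)⁻¹ ^ 3)) :
    ∃ x₀ : E, ∀ x, q x ≤ q x₀ := by
  have f1 := head_grad_int hν ha hV hq hq1 h1 h2
  exact HM.head_max_aux hν ha hV hq hq1 f1 (hardy (hq.of_le (by norm_num)) f1) h2

end Leray
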