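import Pool.Agent.Lib.MP_9b9638_an.Head
import Pool.Agent.Lib.MP_9b9638_an.Cutoff

/-!
# The head pressure attains its maximum, part 1: the truncated test function
-/

open MeasureTheory Set Filter Topology

noncomputable section
namespace Leray
namespace HM

/-! ### one dimensional functions -/

/-- positive part -/
def pp (s : ℝ) : ℝ := max s 0

theorem pp_nonneg (s : ℝ) : 0 ≤ pp s := le_max_right _ _

theorem continuous_pp : Continuous pp := continuous_id.max continuous_const

theorem hasDerivAt_pp_pow (n : ℕ) (s : ℝ) :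
    HasDerivAt (fun s => pp s ^ (n + 2)) ((n + 2 : ℕ) * pp s ^ (n + 1)) s := by
  rcases lt_trichotomy s 0 with h | h | h
  · have h1 : (fun s => pp s ^ (n + 2)) =ᶠ[𝓝 s] fun _ => 0 := by
      filter_upwards [Iio_mem_nhds h] with y hy
      unfold pp
      rw [max_eq_right (le_of_lt hy)]
      simp
    have h2 : pp s = 0 := max_eq_right h.le
    rw [h2, zero_pow (by omega), mul_zero]
    exact (hasDerivAt_const s (0 : ℝ)).congr_of_eventuallyEq h1
  · subst h
    have h2 : pp 0 = 0 := max_self 0
    rw [h2, zero_pow (by omega), mul_zero, hasDerivAt_iff_isLittleO]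
    rw [h2, zero_pow (by omega)]
    simp only [sub_zero, smul_zero]
    have h3 : (fun y : ℝ => pp y ^ (n + 2)) =O[𝓝 0] fun y : ℝ => y ^ (n + 2) := by
      refine Asymptotics.IsBigO.of_bound 1 (Eventually.of_forall fun y => ?_)
      rw [one_mul, norm_pow, norm_pow, Real.norm_eq_abs, Real.norm_eq_abs]
      refine pow_le_pow_left₀ (abs_nonneg _) ?_ _
      rw [abs_of_nonneg (pp_nonneg y)]
      exact max_le (le_abs_self y) (abs_nonneg y)
    refine h3.trans_isLittleO ?_
    have h4 : (fun y : ℝ => y ^ (n + 2)) =o[𝓝 0] fun y : ℝ => y ^ 1 :=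
      Asymptotics.isLittleO_pow_pow (by omega)
    simpa using h4
  · have h1 : (fun s => pp s ^ (n + 2)) =ᶠ[𝓝 s] fun s => s ^ (n + 2) := by
      filter_upwards [Ioi_mem_nhds h] with y hy
      unfold pp
      rw [max_eq_left (le_of_lt hy)]
    have h2 : pp s = s := max_eq_left h.le
    rw [h2]
    have := (hasDerivAt_pow (n + 2) s).congr_of_eventuallyEq h1
    simpa using this

theorem contDiff_pp_pow (n : ℕ) : ContDiff ℝ 1 (fun s => pp s ^ (n + 2)) := by
  rw [contDiff_one_iff_deriv]
  refine ⟨fun s => (hasDerivAt_pp_pow n s).differentiableAt, ?_⟩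
  have : deriv (fun s => pp s ^ (n + 2)) = fun s => ((n + 2 : ℕ) : ℝ) * pp s ^ (n + 1) :=
    funext fun s => (hasDerivAt_pp_pow n s).deriv
  rw [this]
  exact continuous_const.mul (continuous_pp.pow _)

/-- `√(1+s₊²)` -/
def rr (s : ℝ) : ℝ := Real.sqrt (1 + pp s ^ 2)

theorem one_le_rr (s : ℝ) : 1 ≤ rr s := by
  unfold rr
  rw [show (1 : ℝ) = Real.sqrt 1 from Real.sqrt_one.symm]
  apply Real.sqrt_le_sqrt
  have := sq_nonneg (pp s)
  rw [Real.sqrt_one]; linarith

theorem rr_sq (s : ℝ) : rr s ^ 2 = 1 + pp s ^ 2 := Real.sq_sqrt (by positivity)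

theorem contDiff_rr : ContDiff ℝ 1 rr := by
  unfold rr
  have h := contDiff_pp_pow 0
  refine (contDiff_const.add h).sqrt fun s => ?_
  have := sq_nonneg (pp s)
  have h2 : 0 < 1 + pp s ^ (0 + 2) := by simpa using (by linarith : 0 < 1 + pp s ^ 2)
  exact h2.ne'

theorem hasDerivAt_rr (s : ℝ) : HasDerivAt rr (pp s / rr s) s := by
  have h1 := hasDerivAt_pp_pow 0 s
  have h2 : HasDerivAt (fun s => 1 + pp s ^ 2) (2 * pp s) s := by
    have := h1.const_add 1
    simpa using this
  have h0 : (1 + pp s ^ 2 : ℝ) ≠ 0 := by positivity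
  have h3 := h2.sqrt h0
  have h4 : 2 * pp s / (2 * Real.sqrt (1 + pp s ^ 2)) = pp s / rr s := by
    unfold rr
    rw [mul_div_mul_left _ _ two_ne_zero]
  rw [h4] at h3
  exact h3

/-- the convex function `Θ` -/
def th (s : ℝ) : ℝ := rr s - 1

/-- its derivative -/
def dth (s : ℝ) : ℝ := pp s / rr s

/-- derivative of `Θ²` -/
def gg (s : ℝ) : ℝ := 2 * pp s ^ 3 / (1 + pp s ^ 2 + rr s)

theorem th_nonneg (s : ℝ) : 0 ≤ th s := by unfold th; linarith [one_le_rr s]

theorem dth_nonneg (s : ℝ) : 0 ≤ dth s := div_nonneg (pp_nonneg s) (by linarith [one_le_rr s])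

theorem dth_le_one (s : ℝ) : dth s ≤ 1 := by
  unfold dth
  rw [div_le_one (by linarith [one_le_rr s])]
  have h := rr_sq s
  nlinarith [pp_nonneg s, one_le_rr s]

theorem th_le (s : ℝ) : th s ≤ pp s := by
  unfold th
  have h := rr_sq s
  nlinarith [pp_nonneg s, one_le_rr s]

theorem th_zero {s : ℝ} (h : s ≤ 0) : th s = 0 := by
  unfold th rr pp
  rw [max_eq_right h]; simp

theorem th_pos {s : ℝ} (h : 0 < s) : 0 < th s := by
  unfold th
  have h1 := rr_sq s
  have h2 : pp s = s := max_eq_left h.le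
  have h3 : 0 < pp s ^ 2 := by rw [h2]; positivity
  nlinarith [one_le_rr s]

theorem gg_eq (s : ℝ) : gg s = 2 * th s * dth s := by
  unfold gg th dth
  have h1 := one_le_rr s
  have h2 := rr_sq s
  have h3 : rr s ≠ 0 := by linarith
  have h4 : 1 + pp s ^ 2 + rr s ≠ 0 := by
    have := sq_nonneg (pp s); intro h; linarith
  rw [div_eq_iff h4]
  field_simp
  rw [← h2]
  have h5 : pp s ^ 2 = rr s ^ 2 - 1 := by linarith
  have h6 : pp s ^ 3 = pp s * (rr s ^ 2 - 1) := by rw [← h5]; ring
  rw [h6]; ring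

theorem gg_nonneg (s : ℝ) : 0 ≤ gg s := by
  rw [gg_eq]
  have := th_nonneg s
  have := dth_nonneg s
  positivity

theorem contDiff_th : ContDiff ℝ 1 th := contDiff_rr.sub contDiff_const

theorem hasDerivAt_th (s : ℝ) : HasDerivAt th (dth s) s := (hasDerivAt_rr s).sub_const 1

theorem contDiff_gg : ContDiff ℝ 1 gg := by
  unfold gg
  have h2 := contDiff_pp_pow 0
  have h3 := contDiff_pp_pow 1
  refine (contDiff_const.mul h3).div ((contDiff_const.add h2).add contDiff_rr) fun s => ?_
  have := sq_nonneg (pp s)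
  have h1 := one_le_rr s
  have h5 : 0 < 1 + pp s ^ (0 + 2) + rr s := by
    have : (0 : ℝ) ≤ pp s ^ (0 + 2) := by positivity
    linarith
  exact h5.ne'

/-- `g' ≥ 2 Θ'²` -/
theorem deriv_gg_ge (s : ℝ) : 2 * dth s ^ 2 ≤ deriv gg s := by
  have h1 := one_le_rr s
  have h2 := rr_sq s
  have h0 := pp_nonneg s
  have hd : (1 + pp s ^ 2 + rr s) ≠ 0 := by
    have := sq_nonneg (pp s); intro h; linarith
  have e1 : HasDerivAt (fun s => 2 * pp s ^ 3) (2 * (3 * pp s ^ 2)) s := by
    have := (hasDerivAt_pp_pow 1 s).const_mul 2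
    simpa using this
  have e2 : HasDerivAt (fun s => 1 + pp s ^ 2 + rr s) (2 * pp s + pp s / rr s) s := by
    have h3 := hasDerivAt_pp_pow 0 s
    have h4 : HasDerivAt (fun s => 1 + pp s ^ 2) (2 * pp s) s := by
      have := h3.const_add 1
      simpa using this
    exact h4.add (hasDerivAt_rr s)
  have e3 := e1.div e2 hd
  have e4 : deriv gg s = _ := e3.deriv
  rw [e4]
  have hr : 0 < rr s := by linarith
  have hp : pp s ^ 2 = rr s ^ 2 - 1 := by linarith
  have key : (2 * (3 * pp s ^ 2) * (1 + pp s ^ 2 + rr s) - 2 * pp s ^ 3 * (2 * pp s + pp s / rr s)) /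
      (1 + pp s ^ 2 + rr s) ^ 2 =
      2 * (pp s ^ 2) * (rr s ^ 2 + rr s + 1) / (rr s ^ 3 * (rr s + 1)) := by
    have h5 : pp s ^ 3 * (2 * pp s + pp s / rr s) = (pp s ^ 2) ^ 2 * (2 + 1 / rr s) := by
      field_simp
    have h6 : 2 * pp s ^ 3 * (2 * pp s + pp s / rr s) = 2 * ((pp s ^ 2) ^ 2 * (2 + 1 / rr s)) := by
      rw [← h5]; ring
    rw [h6, hp]
    have h7 : (1 + (rr s ^ 2 - 1) + rr s) = rr s * (rr s + 1) := by ring
    rw [h7]
    have h8 : rr s + 1 ≠ 0 := by linarith
    have h9 : rr s ≠ 0 := hr.ne'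
    field_simp
    ring
  rw [key]
  unfold dth
  have h8 : 0 < rr s + 1 := by linarith
  rw [div_pow, ← mul_div_assoc, div_le_div_iff₀ (by positivity) (by positivity)]
  have h9 : 0 ≤ pp s ^ 2 := by positivity
  have h10 : rr s ^ 3 * (rr s + 1) ≤ (rr s ^ 2 + rr s + 1) * rr s ^ 2 := by nlinarith
  calc 2 * pp s ^ 2 * (rr s ^ 3 * (rr s + 1)) ≤ 2 * pp s ^ 2 * ((rr s ^ 2 + rr s + 1) * rr s ^ 2) := by
        gcongr
    _ = 2 * pp s ^ 2 * (rr s ^ 2 + rr s + 1) * rr s ^ 2 := by ring

theorem hasDerivAt_th_sq (s : ℝ) : HasDerivAt (fun s => th s ^ 2) (gg s) s := by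
  have h : HasDerivAt (fun s => th s ^ 2) (((2 : ℕ) : ℝ) * th s ^ (2 - 1) * dth s) s :=
    (hasDerivAt_th s).fun_pow 2
  rw [gg_eq]
  have e : ((2 : ℕ) : ℝ) * th s ^ (2 - 1) * dth s = 2 * th s * dth s := by norm_num
  rw [e] at h
  exact h

/-! ### the basic inequality -/

/-- the equation of the head pressure for any potential -/
theorem head_eq {ν a : ℝ} {V : VF} (hV : SmoothProfile ν a V) {q : E → ℝ}
    (hq1 : ∀ i x, pd i q x = - Zf ν a V i x) (x : E) :
    -ν * lap q x + dot (drift a V) (grad q) x = -ν * sq (curl V) x := by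
  obtain ⟨q', -, h', heq⟩ := exists_head hV
  have h1 : ∀ i, pd i q = pd i q' := fun i => by funext y; rw [hq1, h']
  have h2 : lap q x = lap q' x := by unfold lap; simp only [h1]
  have h3 : grad q = grad q' := by funext i; exact h1 i
  rw [h2, h3]; exact heq x

theorem dv_drift {a : ℝ} {V : VF} (hV : ∀ i, Differentiable ℝ (V i)) (x : E) :
    dv (drift a V) x = dv V x + 3 * a := by
  unfold dv drift
  have hc : ∀ j, Differentiable ℝ (fun y : E => a * y j) :=
    fun j => (differentiable_coord j).const_mul a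
  have h1 : ∀ i, pd i (fun x : E => V i x + a * x i) x = pd i (V i) x + a := by
    intro i
    rw [pd_add (hV _) (hc _), pd_const_mul a (differentiable_coord _), pd_coord]
    simp
  simp only [h1]
  rw [Finset.sum_add_distrib]
  simp

/-- testing the equation with `g(q - k) ζ` -/
theorem star {ν a : ℝ} (hν : 0 < ν) {V : VF} (hV : SmoothProfile ν a V) {q : E → ℝ}
    (hq : ContDiff ℝ 2 q) (hq1 : ∀ i x, pd i q x = - Zf ν a V i x) (k : ℝ) {ζ : E → ℝ}
    (hζ : ContDiff ℝ 1 ζ) (hc : HasCompactSupport ζ) (h0 : ∀ x, 0 ≤ ζ x) :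
    2 * ν * (∫ x, dth (q x - k) ^ 2 * sq (grad q) x * ζ x) ≤
      -ν * (∫ x, gg (q x - k) * dot (grad q) (grad ζ) x)
      + ∫ x, th (q x - k) ^ 2 * (3 * a * ζ x + dot (drift a V) (grad ζ) x) := by
  have hqk : ContDiff ℝ 2 (fun x => q x - k) := hq.sub contDiff_const
  have hqk1 : ContDiff ℝ 1 (fun x => q x - k) := hqk.of_le (by norm_num)
  have hg1 : ContDiff ℝ 1 (fun x => gg (q x - k)) := contDiff_gg.comp hqk1
  have hG1 : ContDiff ℝ 1 (fun x => th (q x - k) ^ 2) := (contDiff_th.comp hqk1).pow 2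
  have hqd : Differentiable ℝ (fun x => q x - k) := hqk1.differentiable (by norm_num)
  have hqd' : Differentiable ℝ q := hq.differentiable (by norm_num)
  have hζd : Differentiable ℝ ζ := hζ.differentiable (by norm_num)
  have hgd : Differentiable ℝ (fun x => gg (q x - k)) := hg1.differentiable (by norm_num)
  have hpq : ∀ i x, pd i (fun x => q x - k) x = pd i q x := by
    intro i x
    rw [pd_sub hqd' (differentiable_const k), pd_const, sub_zero]
  have hpg : ∀ i x, pd i (fun x => gg (q x - k)) x = deriv gg (q x - k) * pd i q x := by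
    intro i x
    have h1 : DifferentiableAt ℝ gg (q x - k) := (contDiff_gg.differentiable (by norm_num)) _
    rw [pd_comp_at (h := gg) (f := fun x => q x - k) h1 (hqd x), hpq]
  have hpG : ∀ i x, pd i (fun x => th (q x - k) ^ 2) x = gg (q x - k) * pd i q x := by
    intro i x
    have h1 := hasDerivAt_th_sq (q x - k)
    rw [pd_comp_at (h := fun s => th s ^ 2) (f := fun x => q x - k) h1.differentiableAt (hqd x),
      hpq, h1.deriv]
  have hVd : ∀ i, Differentiable ℝ (V i) := fun i => (hV.smooth i).differentiable (by norm_num)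
  have hb1 : ∀ i, ContDiff ℝ 1 (drift a V i) := fun i =>
    (contDiff_drift hV.smooth i).of_le (by norm_num)
  have hbd : ∀ i, Differentiable ℝ (drift a V i) := fun i => (hb1 i).differentiable (by norm_num)
  have hpd1 : ∀ i, ContDiff ℝ 1 (pd i q) := fun i => contDiff_pd hq (by norm_num)
  -- φ = g(q - k) ζ
  set φ : E → ℝ := fun x => gg (q x - k) * ζ x with hφ
  have hφ1 : ContDiff ℝ 1 φ := hg1.mul hζ
  have hφc : HasCompactSupport φ := hc.mul_left
  have hφ0 : ∀ x, 0 ≤ φ x := fun x => mul_nonneg (gg_nonneg _) (h0 x)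
  have hpφ : ∀ i x, pd i φ x = deriv gg (q x - k) * pd i q x * ζ x + gg (q x - k) * pd i ζ x := by
    intro i x
    rw [hφ, pd_mul hgd hζd, hpg]
  -- integrability helpers
  have ccφ : ∀ f : E → ℝ, Continuous f → Integrable (fun x => f x * φ x) := fun f hf =>
    integrable_of_cc (hf.mul hφ1.continuous) hφc.mul_left
  have ccζ : ∀ f : E → ℝ, Continuous f → Integrable (fun x => f x * ζ x) := fun f hf =>
    integrable_of_cc (hf.mul hζ.continuous) hc.mul_left
  have ccz : ∀ (f : E → ℝ) (i : Fin 3), Continuous f → Integrable (fun x => f x * pd i ζ x) :=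
    fun f i hf => integrable_of_cc (hf.mul (continuous_pd hζ)) (hasCompactSupport_pd hc).mul_left
  have ccp : ∀ (f : E → ℝ) (i : Fin 3), Continuous f → Integrable (fun x => f x * pd i φ x) :=
    fun f i hf => integrable_of_cc (hf.mul (continuous_pd hφ1)) (hasCompactSupport_pd hφc).mul_left
  have hclap : Continuous (lap q) := by
    unfold lap
    exact continuous_finsetSum _ fun i _ => continuous_pd (hpd1 i)
  have hcb : ∀ i, Continuous (drift a V i) := fun i => (hb1 i).continuous
  have hcq : ∀ i, Continuous (pd i q) := fun i => (hpd1 i).continuous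
  have hcdot : Continuous (dot (drift a V) (grad q)) := continuous_dot hcb hcq
  have hcgg : Continuous (fun x => gg (q x - k)) := hg1.continuous
  have hcth : Continuous (fun x => th (q x - k) ^ 2) := hG1.continuous
  have hcdgg : Continuous (fun x => deriv gg (q x - k)) :=
    ((contDiff_one_iff_deriv.mp contDiff_gg).2).comp hqk1.continuous
  have hcdth : Continuous (fun x => dth (q x - k)) := by
    have h1 : Continuous dth := by
      unfold dth
      refine continuous_pp.div contDiff_rr.continuous fun s => ?_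
      have := one_le_rr s
      intro h; linarith
    exact h1.comp hqk1.continuous
  -- Step 1: the tested inequality
  have s1 : -ν * (∫ x, lap q x * φ x) + ∫ x, dot (drift a V) (grad q) x * φ x ≤ 0 := by
    rw [← integral_const_mul, ← integral_add ((ccφ _ hclap).const_mul _) (ccφ _ hcdot)]
    apply integral_nonpos
    intro x
    show -ν * (lap q x * φ x) + dot (drift a V) (grad q) x * φ x ≤ 0
    have h1 : -ν * (lap q x * φ x) + dot (drift a V) (grad q) x * φ x
        = (-ν * lap q x + dot (drift a V) (grad q) x) * φ x := by ring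
    rw [h1, head_eq hV hq1]
    have h2 := sq_nonneg' (curl V) x
    have h3 := hφ0 x
    have : 0 ≤ ν * sq (curl V) x * φ x := by positivity
    linarith
  -- Step 2: the Laplacian
  have s2 : ∫ x, lap q x * φ x = - ∫ x, (deriv gg (q x - k) * sq (grad q) x * ζ x
      + gg (q x - k) * dot (grad q) (grad ζ) x) := by
    have h1 : ∫ x, lap q x * φ x = ∑ i, ∫ x, pd i (pd i q) x * φ x := by
      rw [← integral_finsetSum _ fun i _ => ccφ _ (continuous_pd (hpd1 i))]
      congr 1; funext x
      unfold lap; rw [Finset.sum_mul]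
    rw [h1]
    have h2 : ∀ i, ∫ x, pd i (pd i q) x * φ x = - ∫ x, pd i q x * pd i φ x :=
      fun i => int_pd_mul (hpd1 i) hφ1 hφc
    simp only [h2]
    rw [Finset.sum_neg_distrib, ← integral_finsetSum _ fun i _ => ccp _ i (hcq i)]
    congr 1; congr 1; funext x
    simp only [hpφ]
    unfold sq dot grad
    rw [Finset.mul_sum, Finset.mul_sum, Finset.sum_mul, ← Finset.sum_add_distrib]
    refine Finset.sum_congr rfl fun i _ => ?_
    ring
  -- Step 3: the drift
  have s3 : ∫ x, dot (drift a V) (grad q) x * φ x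
      = - ∫ x, th (q x - k) ^ 2 * (3 * a * ζ x + dot (drift a V) (grad ζ) x) := by
    have hbζ : ∀ i, ContDiff ℝ 1 (fun x => drift a V i x * ζ x) := fun i => (hb1 i).mul hζ
    have hbζc : ∀ i, HasCompactSupport (fun x => drift a V i x * ζ x) := fun i => hc.mul_left
    have h1 : ∫ x, dot (drift a V) (grad q) x * φ x
        = ∑ i, ∫ x, pd i (fun x => th (q x - k) ^ 2) x * (drift a V i x * ζ x) := by
      rw [← integral_finsetSum]
      · congr 1; funext x
        simp only [hpG, hφ]
        unfold dot grad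
        rw [Finset.sum_mul]
        refine Finset.sum_congr rfl fun i _ => ?_
        ring
      · intro i _
        exact integrable_of_cc ((continuous_pd hG1).mul (hbζ i).continuous) (hbζc i).mul_left
    rw [h1]
    have h2 : ∀ i, ∫ x, pd i (fun x => th (q x - k) ^ 2) x * (drift a V i x * ζ x)
        = - ∫ x, th (q x - k) ^ 2 * pd i (fun x => drift a V i x * ζ x) x :=
      fun i => int_pd_mul hG1 (hbζ i) (hbζc i)
    simp only [h2]
    rw [Finset.sum_neg_distrib, ← integral_finsetSum]
    · congr 1; congr 1; funext x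
      have h3 : ∀ i, pd i (fun x => drift a V i x * ζ x) x
          = pd i (drift a V i) x * ζ x + drift a V i x * pd i ζ x := fun i => pd_mul (hbd i) hζd x
      simp only [h3]
      rw [← Finset.mul_sum, Finset.sum_add_distrib, ← Finset.sum_mul]
      have h4 : ∑ i, pd i (drift a V i) x = 3 * a := by
        have := dv_drift (a := a) hVd x
        rw [hV.div0, zero_add] at this
        exact this
      rw [h4]
      rfl
    · intro i _
      exact integrable_of_cc (hcth.mul (continuous_pd (hbζ i))) (hasCompactSupport_pd (hbζc i)).mul_left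
  -- Step 4: conclusion
  have I1 : Integrable (fun x => deriv gg (q x - k) * sq (grad q) x * ζ x) :=
    ccζ _ (hcdgg.mul (continuous_sq hcq))
  have I2 : Integrable (fun x => gg (q x - k) * dot (grad q) (grad ζ) x) := by
    refine integrable_of_cc (hcgg.mul (continuous_dot hcq fun i => continuous_pd hζ)) ?_
    have : HasCompactSupport (dot (grad q) (grad ζ)) := by
      unfold dot
      apply HasCompactSupport.intro hc
      intro x hx
      refine Finset.sum_eq_zero fun i _ => ?_
      have : grad ζ i x = 0 := by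
        unfold grad
        by_contra h
        exact hx (tsupport_pd ζ (subset_tsupport _ h))
      rw [this, mul_zero]
    exact this.mul_left
  have I3 : Integrable (fun x => 2 * dth (q x - k) ^ 2 * sq (grad q) x * ζ x) :=
    ccζ _ ((continuous_const.mul (hcdth.pow 2)).mul (continuous_sq hcq))
  have s4 : (∫ x, 2 * dth (q x - k) ^ 2 * sq (grad q) x * ζ x)
      ≤ ∫ x, deriv gg (q x - k) * sq (grad q) x * ζ x := by
    refine integral_mono I3 I1 fun x => ?_
    have h1 := deriv_gg_ge (q x - k)
    have h2 := sq_nonneg' (grad q) x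
    have h3 := h0 x
    show 2 * dth (q x - k) ^ 2 * sq (grad q) x * ζ x ≤ deriv gg (q x - k) * sq (grad q) x * ζ x
    gcongr
  have s5 : (∫ x, 2 * dth (q x - k) ^ 2 * sq (grad q) x * ζ x)
      = 2 * ∫ x, dth (q x - k) ^ 2 * sq (grad q) x * ζ x := by
    rw [← integral_const_mul]; congr 1; funext x; ring
  rw [s2, s3, integral_add I1 I2] at s1
  rw [s5] at s4
  nlinarith

end HM
end Leray
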