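import Pool.Agent.Lib.MP_9b9638_an.Calc

/-!
# Sobolev inequality on `ℝ³`
-/

open MeasureTheory Set Filter Topology TopologicalSpace
open scoped NNReal ENNReal

noncomputable section

namespace Leray

theorem finrank_E : Module.finrank ℝ E = 3 := by simp

theorem norm_fderiv_sq_le (u : E → ℝ) (x : E) : ‖fderiv ℝ u x‖ ^ 2 ≤ ∑ i, pd i u x ^ 2 := by
  have h : ‖fderiv ℝ u x‖ ≤ Real.sqrt (∑ i, pd i u x ^ 2) := by
    apply ContinuousLinearMap.opNorm_le_bound _ (Real.sqrt_nonneg _)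
    intro v
    have hv : v = ∑ i, v i • ei i := by
      ext j
      simp [ei, Fin.sum_univ_three]
      fin_cases j <;> simp
    have h1 : fderiv ℝ u x v = ∑ i, v i * pd i u x := by
      conv_lhs => rw [hv]
      rw [map_sum]
      simp [pd]
    rw [h1, EuclideanSpace.norm_eq, ← Real.sqrt_mul (by positivity)]
    apply Real.abs_le_sqrt
    have h2 := Finset.sum_mul_sq_le_sq_mul_sq Finset.univ (fun i => v i) (fun i => pd i u x)
    simp only [Real.norm_eq_abs, sq_abs]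
    rw [mul_comm]
    exact h2
  calc ‖fderiv ℝ u x‖ ^ 2 ≤ Real.sqrt (∑ i, pd i u x ^ 2) ^ 2 := by gcongr
    _ = ∑ i, pd i u x ^ 2 := Real.sq_sqrt (by positivity)

/-- scalar Sobolev inequality -/
theorem sobolev_scalar : ∃ C : ℝ, 0 < C ∧ ∀ u : E → ℝ, ContDiff ℝ 1 u → HasCompactSupport u →
    (∫ x, u x ^ 6) ^ (1 / 3 : ℝ) ≤ C * ∫ x, ∑ i, pd i u x ^ 2 := by
  set C0 : ℝ≥0 := eLpNormLESNormFDerivOfEqInnerConst (volume : Measure E) 2 with hC0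
  refine ⟨(C0 : ℝ) ^ 2 + 1, by positivity, ?_⟩
  intro u hu hc
  have h := eLpNorm_le_eLpNorm_fderiv_of_eq_inner (volume : Measure E) hu hc (p := 2) (p' := 6)
    (by norm_num) (by simp) (by rw [finrank_E]; norm_num)
  have m6 : MemLp u (6 : ℝ≥0) (volume : Measure E) := hu.continuous.memLp_of_hasCompactSupport hc
  have m2 : MemLp (fderiv ℝ u) (2 : ℝ≥0) (volume : Measure E) :=
    (hu.continuous_fderiv (by norm_num)).memLp_of_hasCompactSupport (hc.fderiv ℝ)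
  rw [m6.eLpNorm_eq_integral_rpow_norm (by norm_num) (by simp),
    m2.eLpNorm_eq_integral_rpow_norm (by norm_num) (by simp)] at h
  have hCC : (eLpNormLESNormFDerivOfEqInnerConst (volume : Measure E) ((2 : ℝ≥0) : ℝ) : ℝ≥0∞)
      = ENNReal.ofReal (C0 : ℝ) := by rw [hC0, ENNReal.ofReal_coe_nnreal]; norm_num
  rw [hCC, ← ENNReal.ofReal_mul (by positivity)] at h
  rw [ENNReal.ofReal_le_ofReal_iff (by positivity)] at h
  simp only [ENNReal.coe_toReal, NNReal.coe_ofNat] at h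
  have e6 : ∀ x, ‖u x‖ ^ (6 : ℝ) = u x ^ 6 := fun x => by
    rw [show (6 : ℝ) = ((6 : ℕ) : ℝ) by norm_num, Real.rpow_natCast, Real.norm_eq_abs]
    exact Even.pow_abs (by decide) _
  have e2 : ∀ x, ‖fderiv ℝ u x‖ ^ (2 : ℝ) = ‖fderiv ℝ u x‖ ^ 2 := fun x => by
    rw [show (2 : ℝ) = ((2 : ℕ) : ℝ) by norm_num, Real.rpow_natCast]
  simp only [e6, e2] at h
  have hA : 0 ≤ ∫ x, u x ^ 6 := integral_nonneg fun x => by positivity
  have hB : 0 ≤ ∫ x, ‖fderiv ℝ u x‖ ^ 2 := integral_nonneg fun x => by positivity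
  have h2 : ((∫ x, u x ^ 6) ^ ((6 : ℝ)⁻¹)) ^ 2 ≤ ((C0 : ℝ) * (∫ x, ‖fderiv ℝ u x‖ ^ 2) ^ ((2 : ℝ)⁻¹)) ^ 2 := by
    gcongr
  rw [mul_pow, ← Real.rpow_natCast, ← Real.rpow_mul hA, ← Real.rpow_natCast ((∫ x, ‖fderiv ℝ u x‖ ^ 2) ^ ((2 : ℝ)⁻¹)),
    ← Real.rpow_mul hB] at h2
  norm_num at h2
  have hI1 : Integrable (fun x => ‖fderiv ℝ u x‖ ^ 2) := by
    apply Continuous.integrable_of_hasCompactSupport
    · exact ((hu.continuous_fderiv (by norm_num)).norm).pow 2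
    · exact (hc.fderiv ℝ).comp_left (g := fun t => ‖t‖ ^ 2) (by simp)
  have hI2 : Integrable (fun x => ∑ i, pd i u x ^ 2) :=
    integrable_finsetSum _ fun i _ => integrable_of_cc ((continuous_pd hu).pow 2) (hcs_sq (hasCompactSupport_pd hc))
  have h3 : ∫ x, ‖fderiv ℝ u x‖ ^ 2 ≤ ∫ x, ∑ i, pd i u x ^ 2 :=
    integral_mono hI1 hI2 fun x => norm_fderiv_sq_le u x
  have h4 : 0 ≤ ∫ x, ∑ i, pd i u x ^ 2 := le_trans hB h3
  calc (∫ x, u x ^ 6) ^ (1 / 3 : ℝ) ≤ (C0 : ℝ) ^ 2 * ∫ x, ‖fderiv ℝ u x‖ ^ 2 := h2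
    _ ≤ ((C0 : ℝ) ^ 2 + 1) * ∫ x, ∑ i, pd i u x ^ 2 := by nlinarith [sq_nonneg (C0 : ℝ)]

/-- Sobolev inequality `|F|_6² ≤ C |∇F|_2²` for vector fields -/
theorem sobolev : ∃ C : ℝ, 0 < C ∧ ∀ F : VF, (∀ i, ContDiff ℝ 1 (F i)) → (∀ i, HasCompactSupport (F i)) →
    (∫ x, sq F x ^ 3) ^ (1 / 3 : ℝ) ≤ C * ∫ x, gsq F x := by
  obtain ⟨C, hC, hS⟩ := sobolev_scalar
  refine ⟨9 * C, by positivity, ?_⟩
  intro F hF hc
  have I6 : ∀ i, Integrable (fun x => F i x ^ 6) := fun i =>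
    integrable_of_cc ((hF i).continuous.pow 6) ((hc i).comp_left (g := fun t : ℝ => t ^ 6) (by simp))
  have n6 : ∀ i, 0 ≤ ∫ x, F i x ^ 6 := fun i => integral_nonneg fun x => by positivity
  have hpt : ∀ x, sq F x ^ 3 ≤ 9 * ∑ i, F i x ^ 6 := by
    intro x
    unfold sq
    simp only [Fin.sum_univ_three]
    set a := F 0 x ^ 2 with ha
    set b := F 1 x ^ 2 with hb
    set c := F 2 x ^ 2 with hc'
    have ha0 : 0 ≤ a := by positivity
    have hb0 : 0 ≤ b := by positivity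
    have hc0 : 0 ≤ c := by positivity
    have e1 : F 0 x ^ 6 = a ^ 3 := by rw [ha]; ring
    have e2 : F 1 x ^ 6 = b ^ 3 := by rw [hb]; ring
    have e3 : F 2 x ^ 6 = c ^ 3 := by rw [hc']; ring
    rw [e1, e2, e3]
    nlinarith [mul_nonneg (add_nonneg ha0 hb0) (sq_nonneg (a - b)), mul_nonneg (add_nonneg hb0 hc0) (sq_nonneg (b - c)),
      mul_nonneg (add_nonneg ha0 hc0) (sq_nonneg (a - c)), mul_nonneg ha0 (sq_nonneg (b - c)),
      mul_nonneg hb0 (sq_nonneg (a - c)), mul_nonneg hc0 (sq_nonneg (a - b))]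
  have Isq : Integrable (fun x => 9 * ∑ i, F i x ^ 6) := (integrable_finsetSum _ fun i _ => I6 i).const_mul 9
  have h0 : 0 ≤ ∫ x, sq F x ^ 3 := integral_nonneg fun x => pow_nonneg (sq_nonneg' F x) 3
  have h1 : ∫ x, sq F x ^ 3 ≤ 9 * ∑ i, ∫ x, F i x ^ 6 := by
    refine le_trans (integral_mono_of_nonneg (Eventually.of_forall fun x => pow_nonneg (sq_nonneg' F x) 3) Isq
      (Eventually.of_forall hpt)) ?_
    rw [integral_const_mul, integral_finsetSum _ fun i _ => I6 i]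
  have h2 : (∫ x, sq F x ^ 3) ^ (1 / 3 : ℝ) ≤ (9 * ∑ i, ∫ x, F i x ^ 6) ^ (1 / 3 : ℝ) := by
    gcongr
  have h3 : (9 * ∑ i, ∫ x, F i x ^ 6) ^ (1 / 3 : ℝ) ≤ 9 * ∑ i, (∫ x, F i x ^ 6) ^ (1 / 3 : ℝ) := by
    rw [Real.mul_rpow (by norm_num) (Finset.sum_nonneg fun i _ => n6 i)]
    apply mul_le_mul
    · calc (9 : ℝ) ^ (1 / 3 : ℝ) ≤ 9 ^ (1 : ℝ) := Real.rpow_le_rpow_of_exponent_le (by norm_num) (by norm_num)
        _ = 9 := by norm_num
    · simp only [Fin.sum_univ_three]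
      refine le_trans (Real.rpow_add_le_add_rpow (add_nonneg (n6 0) (n6 1)) (n6 2) (by norm_num) (by norm_num)) ?_
      have := Real.rpow_add_le_add_rpow (n6 0) (n6 1) (p := 1 / 3) (by norm_num) (by norm_num)
      linarith
    · exact Real.rpow_nonneg (Finset.sum_nonneg fun i _ => n6 i) _
    · norm_num
  have h4 : ∑ i, (∫ x, F i x ^ 6) ^ (1 / 3 : ℝ) ≤ ∑ j, C * ∫ x, ∑ i, pd i (F j) x ^ 2 :=
    Finset.sum_le_sum fun j _ => hS (F j) (hF j) (hc j)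
  have I2 : ∀ i j, Integrable (fun x => pd i (F j) x ^ 2) := fun i j =>
    integrable_of_cc ((continuous_pd (hF j)).pow 2) (hcs_sq (hasCompactSupport_pd (hc j)))
  have h5 : ∑ j, C * ∫ x, ∑ i, pd i (F j) x ^ 2 = C * ∫ x, gsq F x := by
    rw [← Finset.mul_sum]
    congr 1
    unfold gsq
    rw [← integral_finsetSum _ fun j _ => integrable_finsetSum _ fun i _ => I2 i j]
    congr 1; funext x
    exact Finset.sum_comm
  calc (∫ x, sq F x ^ 3) ^ (1 / 3 : ℝ) ≤ 9 * ∑ i, (∫ x, F i x ^ 6) ^ (1 / 3 : ℝ) := h2.trans h3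
    _ ≤ 9 * (C * ∫ x, gsq F x) := by rw [← h5]; gcongr
    _ = 9 * C * ∫ x, gsq F x := by ring

end Leray
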