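import Pool.Agent.Lib.MP_9b9638_an.HeadMax1
import Pool.Agent.Lib.MP_9b9638_an.Sob

/-!
# The head pressure attains its maximum, part 2: weights, Sobolev inequality
-/

open MeasureTheory Set Filter Topology

noncomputable section
namespace Leray
namespace HM

/-! ### the weight -/

/-- the weight `(1+|x|²)⁻¹` -/
def wt (x : E) : ℝ := (1 + ‖x‖ ^ 2)⁻¹

theorem wt_pos (x : E) : 0 < wt x := by unfold wt; positivity

theorem wt_le_one (x : E) : wt x ≤ 1 := by
  unfold wt
  exact inv_le_one_of_one_le₀ (by nlinarith [sq_nonneg ‖x‖])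

theorem norm_sq_mul_wt (x : E) : ‖x‖ ^ 2 * wt x = 1 - wt x := by
  unfold wt
  have : (1 + ‖x‖ ^ 2) ≠ 0 := by positivity
  field_simp
  ring

theorem contDiff_wt : ContDiff ℝ (⊤ : ℕ∞) wt := by
  unfold wt
  refine ContDiff.inv (contDiff_const.add (contDiff_norm_sq ℝ)) fun x => ?_
  positivity

theorem continuous_wt : Continuous wt := contDiff_wt.continuous

theorem pd_wt (i : Fin 3) (x : E) : pd i wt x = -2 * x i * wt x ^ 2 := by
  have h1 : HasDerivAt (fun t : ℝ => (1 + t)⁻¹) (-(1) / (1 + ‖x‖ ^ 2) ^ 2) (‖x‖ ^ 2) := by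
    have h2 : HasDerivAt (fun t : ℝ => 1 + t) 1 (‖x‖ ^ 2) := (hasDerivAt_id _).const_add 1
    exact h2.inv (by positivity)
  have h3 : Differentiable ℝ (fun y : E => ‖y‖ ^ 2) :=
    (contDiff_norm_sq ℝ (n := 1)).differentiable (by norm_num)
  have h4 : pd i wt x = pd i (fun y => (fun t : ℝ => (1 + t)⁻¹) (‖y‖ ^ 2)) x := rfl
  rw [h4, pd_comp_at (h := fun t : ℝ => (1 + t)⁻¹) (f := fun y : E => ‖y‖ ^ 2)
    h1.differentiableAt (h3 x), pd_normsq, h1.deriv]
  unfold wt
  field_simp

theorem pd_wt_pow (n : ℕ) (i : Fin 3) (x : E) :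
    pd i (fun y => wt y ^ (n + 1)) x = -2 * (n + 1 : ℕ) * x i * wt x ^ (n + 2) := by
  rw [pd_pow_at (n + 1) ((contDiff_wt.differentiable (by norm_num)) x), pd_wt]
  simp only [Nat.add_sub_cancel]
  ring

theorem integrable_wt : Integrable (fun x : E => wt x ^ 8) := by
  have h := integrable_rpow_neg_one_add_norm_sq (E := E) (μ := volume) (r := 16)
    (by rw [finrank_E]; norm_num)
  refine h.congr (Eventually.of_forall fun x => ?_)
  show (1 + ‖x‖ ^ 2 : ℝ) ^ (-16 / 2 : ℝ) = ((1 + ‖x‖ ^ 2)⁻¹) ^ 8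
  rw [show (-16 / 2 : ℝ) = -((8 : ℕ) : ℝ) by norm_num, Real.rpow_neg (by positivity),
    Real.rpow_natCast, inv_pow]

theorem mul_le_sq_add {a b : ℝ} : (a + b) ^ 2 ≤ 2 * a ^ 2 + 2 * b ^ 2 := by
  nlinarith [sq_nonneg (a - b)]

/-- integrability by domination by a continuous integrable function -/
theorem integrable_mono_cont {f g : E → ℝ} (hf : Continuous f) (hg : Integrable g)
    (h : ∀ x, |f x| ≤ g x) : Integrable f :=
  hg.mono' hf.aestronglyMeasurable (Eventually.of_forall h)

/-! ### Sobolev inequality on the whole space -/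

theorem sob6 : ∃ C : ℝ, 0 < C ∧ ∀ F : E → ℝ, ContDiff ℝ 1 F → Integrable (fun x => F x ^ 2) →
    Integrable (fun x => sq (grad F) x) → Integrable (fun x => F x ^ 6) ∧
      (∫ x, F x ^ 6) ≤ (C * ((∫ x, sq (grad F) x) + ∫ x, F x ^ 2)) ^ 3 := by
  obtain ⟨C, hC, hS⟩ := sobolev_scalar
  obtain ⟨C', hC', hcut⟩ := cut_bounds
  refine ⟨C * (6 * C' ^ 2 + 2), by positivity, ?_⟩
  intro F hF hI hG
  have hFd : Differentiable ℝ F := hF.differentiable (by norm_num)
  set S : ℝ := (∫ x, sq (grad F) x) + ∫ x, F x ^ 2 with hSdef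
  have hS1 : 0 ≤ ∫ x, sq (grad F) x := integral_nonneg fun x => sq_nonneg' _ x
  have hS2 : 0 ≤ ∫ x, F x ^ 2 := integral_nonneg fun x => by positivity
  have key : ∀ n : ℕ, 1 ≤ n → (∫ x in Metric.closedBall (0 : E) n, F x ^ 6) ≤
      (C * (6 * C' ^ 2 + 2) * S) ^ 3 := by
    intro n hn
    have hn' : (1 : ℝ) ≤ n := by exact_mod_cast hn
    have hn0 : (0 : ℝ) < n := by linarith
    set χ : E → ℝ := cut n n with hχ
    have hχ1 : ContDiff ℝ 1 χ := (contDiff_cut (n : ℝ) n).of_le (by exact_mod_cast le_top)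
    have hχd : Differentiable ℝ χ := hχ1.differentiable (by norm_num)
    have hχc : HasCompactSupport χ := hasCompactSupport_cut hn0 le_rfl
    set u : E → ℝ := fun x => χ x * F x with hu
    have hu1 : ContDiff ℝ 1 u := hχ1.mul hF
    have huc : HasCompactSupport u := hχc.mul_right
    have h1 := hS u hu1 huc
    have h2 : (∫ x, ∑ i, pd i u x ^ 2) ≤ (6 * C' ^ 2 + 2) * S := by
      have hpt : ∀ x, ∑ i, pd i u x ^ 2 ≤ 2 * sq (grad F) x + 6 * C' ^ 2 * F x ^ 2 := by
        intro x
        have h3 : ∀ i, pd i u x ^ 2 ≤ 2 * pd i F x ^ 2 + 2 * C' ^ 2 * F x ^ 2 := by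
          intro i
          rw [hu, pd_mul hχd hFd]
          have h4 : |pd i χ x| ≤ C' := by
            refine ((hcut n n hn0 le_rfl x i i).1).trans ?_
            rw [div_le_iff₀ hn0]
            nlinarith
          have h5 : (pd i χ x * F x) ^ 2 ≤ C' ^ 2 * F x ^ 2 := by
            rw [mul_pow, ← sq_abs (pd i χ x)]
            gcongr
          have h6 : (χ x * pd i F x) ^ 2 ≤ pd i F x ^ 2 := by
            rw [mul_pow]
            have h7 : χ x ^ 2 ≤ 1 := by
              have := cut_nonneg n n x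
              have := cut_le_one n n x
              rw [hχ]
              nlinarith
            nlinarith [sq_nonneg (pd i F x)]
          have h8 := mul_le_sq_add (a := pd i χ x * F x) (b := χ x * pd i F x)
          linarith
        calc ∑ i, pd i u x ^ 2 ≤ ∑ i : Fin 3, (2 * pd i F x ^ 2 + 2 * C' ^ 2 * F x ^ 2) :=
              Finset.sum_le_sum fun i _ => h3 i
          _ = 2 * sq (grad F) x + 6 * C' ^ 2 * F x ^ 2 := by
              rw [Finset.sum_add_distrib, ← Finset.mul_sum]
              unfold sq grad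
              simp
              ring
      calc (∫ x, ∑ i, pd i u x ^ 2) ≤ ∫ x, (2 * sq (grad F) x + 6 * C' ^ 2 * F x ^ 2) := by
            refine integral_mono_of_nonneg (Eventually.of_forall fun x => ?_)
              ((hG.const_mul 2).add (hI.const_mul _)) (Eventually.of_forall hpt)
            exact Finset.sum_nonneg fun i _ => sq_nonneg _
        _ = 2 * (∫ x, sq (grad F) x) + 6 * C' ^ 2 * ∫ x, F x ^ 2 := by
            rw [integral_add (hG.const_mul 2) (hI.const_mul _), integral_const_mul,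
              integral_const_mul]
        _ ≤ (6 * C' ^ 2 + 2) * S := by
            rw [hSdef]
            nlinarith [sq_nonneg C', mul_nonneg (sq_nonneg C') hS1, mul_nonneg (sq_nonneg C') hS2]
    have h3 : (∫ x, u x ^ 6) ^ (1 / 3 : ℝ) ≤ C * (6 * C' ^ 2 + 2) * S := by
      calc _ ≤ C * ∫ x, ∑ i, pd i u x ^ 2 := h1
        _ ≤ C * ((6 * C' ^ 2 + 2) * S) := by gcongr
        _ = _ := by ring
    have h4 : 0 ≤ ∫ x, u x ^ 6 := integral_nonneg fun x => by positivity
    have h5 : ∫ x, u x ^ 6 ≤ (C * (6 * C' ^ 2 + 2) * S) ^ 3 := by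
      have h6 : ((∫ x, u x ^ 6) ^ (1 / 3 : ℝ)) ^ 3 = ∫ x, u x ^ 6 := by
        rw [← Real.rpow_natCast, ← Real.rpow_mul h4]
        norm_num
      rw [← h6]
      gcongr
    refine le_trans ?_ h5
    have h7 : Integrable (fun x => u x ^ 6) :=
      integrable_of_cc (hu1.continuous.pow 6) (huc.comp_left (g := fun t : ℝ => t ^ 6) (by simp))
    calc (∫ x in Metric.closedBall (0 : E) n, F x ^ 6)
        = ∫ x in Metric.closedBall (0 : E) n, u x ^ 6 := by
          refine setIntegral_congr_fun Metric.isClosed_closedBall.measurableSet fun x hx => ?_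
          have : χ x = 1 := cut_one hn0 le_rfl (by simpa using hx)
          simp only [hu, this, one_mul]
      _ ≤ ∫ x, u x ^ 6 := setIntegral_le_integral h7 (Eventually.of_forall fun x => by positivity)
  have hcov : AECover (volume : Measure E) atTop
      (fun n : ℕ => Metric.closedBall (0 : E) (n : ℝ)) :=
    aecover_closedBall tendsto_natCast_atTop_atTop
  have hc6 : Continuous (fun x => F x ^ 6) := hF.continuous.pow 6
  have hint : Integrable (fun x => F x ^ 6) := by
    refine hcov.integrable_of_integral_bounded_of_nonneg_ae ((C * (6 * C' ^ 2 + 2) * S) ^ 3)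
      (fun n => ?_) (Eventually.of_forall fun x => by positivity) ?_
    · exact hc6.continuousOn.integrableOn_compact (isCompact_closedBall _ _)
    · filter_upwards [eventually_ge_atTop 1] with n hn using key n hn
  refine ⟨hint, ?_⟩
  have ht := hcov.integral_tendsto_of_countably_generated hint
  refine le_of_tendsto ht ?_
  filter_upwards [eventually_ge_atTop 1] with n hn using key n hn

end HM
end Leray
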