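import Pool.Agent.Lib.MP_9b9638_an.HeadMax2

/-!
# The head pressure attains its maximum, part 3: the limit inequality
-/

open MeasureTheory Set Filter Topology

noncomputable section
namespace Leray
namespace HM

theorem continuous_dth : Continuous dth := by
  unfold dth
  refine continuous_pp.div contDiff_rr.continuous fun s => ?_
  have := one_le_rr s
  intro h; linarith

/-- Young's inequality -/
theorem young {s Q f : ℝ} (hs : 0 < s) (hQ : 0 ≤ Q) (hf : 0 ≤ f) :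
    Q ^ 2 * f ≤ 2 / 3 * s * Q ^ 3 + 1 / 3 * (s ^ 2)⁻¹ * f ^ 3 := by
  have h1 : 3 * (s * Q) ^ 2 * f ≤ 2 * (s * Q) ^ 3 + f ^ 3 := by
    have h : 0 ≤ (s * Q - f) ^ 2 * (2 * (s * Q) + f) := by positivity
    nlinarith
  have h2 : 0 < s ^ 2 := by positivity
  calc Q ^ 2 * f = (1 / 3 * (s ^ 2)⁻¹) * (3 * (s * Q) ^ 2 * f) := by field_simp
    _ ≤ (1 / 3 * (s ^ 2)⁻¹) * (2 * (s * Q) ^ 3 + f ^ 3) := by gcongr
    _ = _ := by field_simp

theorem le_add_div {u Q δ : ℝ} (hδ : 0 < δ) (h : u ^ 2 ≤ Q) : u ≤ δ + Q ^ 2 / δ ^ 3 := by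
  by_cases hu : u ≤ δ
  · have : 0 ≤ Q ^ 2 / δ ^ 3 := by positivity
    linarith
  · push Not at hu
    have h1 : u ≤ Q ^ 2 / δ ^ 3 := by
      rw [le_div_iff₀ (by positivity)]
      have h2 : δ ^ 3 ≤ u ^ 3 := by gcongr
      have h3 : (u ^ 2) ^ 2 ≤ Q ^ 2 := by gcongr
      have h4 : 0 < u := by linarith
      calc u * δ ^ 3 ≤ u * u ^ 3 := by gcongr
        _ = (u ^ 2) ^ 2 := by ring
        _ ≤ Q ^ 2 := h3
    linarith

/-- the gradient of the cutoffs -/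
theorem cut_grad : ∃ C : ℝ, 0 < C ∧ ∀ n : ℕ, 1 ≤ n → ∀ x,
    sq (grad (cut (n : ℝ) n)) x * (1 + ‖x‖ ^ 2) ≤ C := by
  obtain ⟨C', hC', hcut⟩ := cut_bounds
  refine ⟨15 * C' ^ 2, by positivity, fun n hn x => ?_⟩
  have hn' : (1 : ℝ) ≤ n := by exact_mod_cast hn
  have hn0 : (0 : ℝ) < n := by linarith
  by_cases hx : x ∈ Sh (n : ℝ) (n + n)
  · have h1 : ∀ i, pd i (cut (n : ℝ) n) x ^ 2 ≤ (C' / n) ^ 2 := fun i => by
      rw [← sq_abs]
      gcongr
      exact (hcut n n hn0 le_rfl x i i).1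
    have h2 : sq (grad (cut (n : ℝ) n)) x ≤ 3 * (C' / n) ^ 2 := by
      unfold sq grad
      calc _ ≤ ∑ i : Fin 3, (C' / n) ^ 2 := Finset.sum_le_sum fun i _ => h1 i
        _ = _ := by simp
    have h3 : ‖x‖ ≤ 2 * n := by linarith [hx.2]
    have h4 : 1 + ‖x‖ ^ 2 ≤ 5 * (n : ℝ) ^ 2 := by nlinarith [norm_nonneg x]
    calc _ ≤ 3 * (C' / n) ^ 2 * (5 * (n : ℝ) ^ 2) := by
          gcongr
      _ = 15 * C' ^ 2 := by field_simp; ring
  · have h1 : ∀ i, pd i (cut (n : ℝ) n) x = 0 := fun i => pd_cut_zero hn0 le_rfl i hx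
    have h2 : sq (grad (cut (n : ℝ) n)) x = 0 := by
      unfold sq grad
      simp [h1]
    rw [h2]
    have := sq_nonneg C'
    linarith

/-- the coordinate field -/
def X : VF := fun i x => x i

theorem sq_X (x : E) : sq X x = ‖x‖ ^ 2 := (norm_sq_eq x).symm

theorem nm_X (x : E) : nm X x = ‖x‖ := by
  unfold nm
  rw [sq_X, Real.sqrt_sq (norm_nonneg x)]

theorem dot_drift {a : ℝ} {V Y : VF} (x : E) :
    dot (drift a V) Y x = dot V Y x + a * dot X Y x := by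
  unfold dot drift X
  rw [Finset.mul_sum, ← Finset.sum_add_distrib]
  refine Finset.sum_congr rfl fun i _ => ?_
  ring

theorem dot_zeta {F : VF} (n : ℕ) (x : E) :
    dot F (grad (fun y => wt y ^ 8 * cut (n : ℝ) n y)) x =
      -16 * cut (n : ℝ) n x * wt x ^ 9 * dot F X x + wt x ^ 8 * dot F (grad (cut (n : ℝ) n)) x := by
  have h1 : Differentiable ℝ (fun y => wt y ^ 8) :=
    (contDiff_wt.differentiable (by norm_num)).pow 8
  have h2 : Differentiable ℝ (cut (n : ℝ) n) := (contDiff_cut (n : ℝ) n).differentiable (by norm_num)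
  have h3 : ∀ i, pd i (fun y => wt y ^ 8 * cut (n : ℝ) n y) x =
      -16 * x i * wt x ^ 9 * cut (n : ℝ) n x + wt x ^ 8 * pd i (cut (n : ℝ) n) x := by
    intro i
    rw [pd_mul h1 h2, pd_wt_pow 7]
    push_cast
    ring
  unfold dot grad X
  simp only [h3]
  rw [Finset.mul_sum, Finset.mul_sum, ← Finset.sum_add_distrib]
  refine Finset.sum_congr rfl fun i _ => ?_
  ring

/-- the pointwise inequality -/
theorem pw {ν a T D g w χ v r P d1 d2 d3 d4 d5 : ℝ} (hν : 0 ≤ ν) (ha : 0 ≤ a) (hT : 0 ≤ T)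
    (hD : 0 ≤ D) (hg : 0 ≤ g) (hw0 : 0 ≤ w) (hχ : 0 ≤ χ) (h1 : |d1| ≤ g * r)
    (h2 : |d2| ≤ g * P) (h3 : |d3| ≤ v * r) (h4 : |d4| ≤ v * P) (h5 : |d5| ≤ r * P)
    (hw : r ^ 2 * w = 1 - w) :
    -ν * ((2 * T * D) * (-16 * χ * w ^ 9 * d1 + w ^ 8 * d2))
      + T ^ 2 * (3 * a * (w ^ 8 * χ) + ((-16 * χ * w ^ 9 * d3 + w ^ 8 * d4)
        + a * (-16 * χ * w ^ 9 * r ^ 2 + w ^ 8 * d5)))
      - 2 * ν * (D ^ 2 * g ^ 2 * (w ^ 8 * χ)) ≤
    χ * (-ν * (D ^ 2 * g ^ 2 * w ^ 8) - 13 * a * (T ^ 2 * w ^ 8)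
        + (16 * a + 256 * ν) * (T ^ 2 * w ^ 9) + 16 * (T ^ 2 * w ^ 8 * (v * r * w)))
      + w ^ 8 * (2 * ν * (T * D * g) + T ^ 2 * (v + a * r)) * P := by
  have p1 : ν * χ * (32 * T * D * w ^ 9 * d1) ≤ ν * χ * (D ^ 2 * g ^ 2 * w ^ 8 + 256 * T ^ 2 * w ^ 9) := by
    have e1 : 32 * T * D * w ^ 9 * d1 ≤ 32 * T * D * w ^ 9 * (g * r) := by
      have := le_trans (le_abs_self d1) h1
      gcongr
    have e2 : 0 ≤ (D * g * w ^ 4 - 16 * T * w ^ 5 * r) ^ 2 := sq_nonneg _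
    have e3 : 32 * T * D * w ^ 9 * (g * r) ≤ D ^ 2 * g ^ 2 * w ^ 8 + 256 * T ^ 2 * w ^ 9 * (r ^ 2 * w) := by
      nlinarith
    have e4 : 256 * T ^ 2 * w ^ 9 * (r ^ 2 * w) ≤ 256 * T ^ 2 * w ^ 9 := by
      rw [hw]
      have : 0 ≤ 256 * T ^ 2 * w ^ 9 * w := by positivity
      nlinarith
    have e5 := e1.trans (e3.trans (add_le_add le_rfl e4))
    gcongr
  have p2 : -(2 * ν * T * D * w ^ 8 * d2) ≤ 2 * ν * T * D * w ^ 8 * (g * P) := by
    have e1 : -d2 ≤ g * P := le_trans (neg_le_abs d2) h2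
    have e2 : 0 ≤ 2 * ν * T * D * w ^ 8 := by positivity
    nlinarith [mul_le_mul_of_nonneg_left e1 e2]
  have p3 : -(16 * T ^ 2 * χ * w ^ 9 * d3) ≤ 16 * T ^ 2 * χ * w ^ 9 * (v * r) := by
    have e1 : -d3 ≤ v * r := le_trans (neg_le_abs d3) h3
    have e2 : 0 ≤ 16 * T ^ 2 * χ * w ^ 9 := by positivity
    nlinarith [mul_le_mul_of_nonneg_left e1 e2]
  have p4 : T ^ 2 * w ^ 8 * d4 ≤ T ^ 2 * w ^ 8 * (v * P) := by
    have e1 : d4 ≤ v * P := le_trans (le_abs_self d4) h4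
    gcongr
  have p5 : a * T ^ 2 * w ^ 8 * d5 ≤ a * T ^ 2 * w ^ 8 * (r * P) := by
    have e1 : d5 ≤ r * P := le_trans (le_abs_self d5) h5
    gcongr
  have p6 : χ * T ^ 2 * a * w ^ 8 * (r ^ 2 * w) = χ * T ^ 2 * a * w ^ 8 * (1 - w) := by rw [hw]
  linarith

/-- domination -/
theorem pw2 {ν a T D g w χ v r P C : ℝ} (hν : 0 ≤ ν) (ha : 0 ≤ a) (hT : 0 ≤ T)
    (hD : 0 ≤ D) (hg : 0 ≤ g) (hw0 : 0 ≤ w) (hw1 : w ≤ 1) (hχ : 0 ≤ χ) (hχ1 : χ ≤ 1) (hv : 0 ≤ v)
    (hr : 0 ≤ r) (hP0 : 0 ≤ P) (hC : 0 ≤ C) (hP : P ^ 2 * (1 + r ^ 2) ≤ C)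
    (hw : r ^ 2 * w = 1 - w) :
    |χ * (-ν * (D ^ 2 * g ^ 2 * w ^ 8) - 13 * a * (T ^ 2 * w ^ 8)
        + (16 * a + 256 * ν) * (T ^ 2 * w ^ 9) + 16 * (T ^ 2 * w ^ 8 * (v * r * w)))
      + w ^ 8 * (2 * ν * (T * D * g) + T ^ 2 * (v + a * r)) * P| ≤
    2 * ν * (D ^ 2 * g ^ 2 * w ^ 8) + (30 * a + 256 * ν + 8 + ν * C + C + a * C) * (T ^ 2 * w ^ 8)
      + 9 * (v ^ 2 * w * (T ^ 2 * w ^ 8)) := by
  set T1 := D ^ 2 * g ^ 2 * w ^ 8 with hT1
  set T2 := T ^ 2 * w ^ 8 with hT2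
  have n1 : 0 ≤ T1 := by positivity
  have n2 : 0 ≤ T2 := by positivity
  have q1 : T ^ 2 * w ^ 9 ≤ T2 := by
    have : T ^ 2 * w ^ 9 = T2 * w := by rw [hT2]; ring
    rw [this]
    nlinarith
  have q1' : 0 ≤ T ^ 2 * w ^ 9 := by positivity
  have q2 : v * r * w ≤ (v ^ 2 * w + 1) / 2 := by
    have : 0 ≤ (v - r) ^ 2 * w := by positivity
    nlinarith
  have q3 : T2 * (v * r * w) ≤ T2 * ((v ^ 2 * w + 1) / 2) := by gcongr
  have q3' : 0 ≤ T2 * (v * r * w) := by positivity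
  have hP2 : P ^ 2 ≤ C := by nlinarith [mul_nonneg (sq_nonneg P) (sq_nonneg r)]
  have hPr : P ^ 2 * r ^ 2 ≤ C := by nlinarith [sq_nonneg P]
  have q4 : 2 * (T * D * g) * P ≤ D ^ 2 * g ^ 2 + C * T ^ 2 := by
    have e1 : 0 ≤ (D * g - T * P) ^ 2 := sq_nonneg _
    have e2 : T ^ 2 * P ^ 2 ≤ T ^ 2 * C := by gcongr
    nlinarith
  have q4' : w ^ 8 * (2 * (T * D * g) * P) ≤ T1 + C * T2 := by
    calc w ^ 8 * (2 * (T * D * g) * P) ≤ w ^ 8 * (D ^ 2 * g ^ 2 + C * T ^ 2) := by gcongr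
      _ = _ := by rw [hT1, hT2]; ring
  have q5 : v * P ≤ (v ^ 2 * w + C) / 2 := by
    -- (v w^{1/2} - P w^{-1/2})^2 ≥ 0, without roots
    have hw2 : w * (1 + r ^ 2) = 1 := by linarith
    have e1 : 0 ≤ (v * w - P) ^ 2 * (1 + r ^ 2) := by positivity
    have e2 : (v * w - P) ^ 2 * (1 + r ^ 2) = v ^ 2 * w * (w * (1 + r ^ 2)) - 2 * v * P * (w * (1 + r ^ 2))
        + P ^ 2 * (1 + r ^ 2) := by ring
    rw [e2, hw2] at e1
    linarith
  have q5' : T2 * (v * P) ≤ T2 * ((v ^ 2 * w + C) / 2) := by gcongr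
  have q6 : r * P ≤ (C + 1) / 2 := by
    have : 0 ≤ (P * r - 1) ^ 2 := sq_nonneg _
    nlinarith
  have q6' : a * T2 * (r * P) ≤ a * T2 * ((C + 1) / 2) := by gcongr
  have q4'' : ν * (w ^ 8 * (2 * (T * D * g) * P)) ≤ ν * (T1 + C * T2) := by gcongr
  have m1 : 0 ≤ ν * T1 := by positivity
  have m2 : 0 ≤ a * T2 := by positivity
  have m3 : 0 ≤ ν * T2 := by positivity
  have m4 : 0 ≤ v ^ 2 * w * T2 := by positivity
  have m5 : 0 ≤ C * T2 := by positivity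
  have m6 : 0 ≤ a * C * T2 := by positivity
  have m7 : 0 ≤ ν * C * T2 := by positivity
  have q1a : (16 * a + 256 * ν) * (T ^ 2 * w ^ 9) ≤ (16 * a + 256 * ν) * T2 := by gcongr
  have q1b : 0 ≤ (16 * a + 256 * ν) * (T ^ 2 * w ^ 9) := by positivity
  have r1 : w ^ 8 * (2 * ν * (T * D * g) + T ^ 2 * (v + a * r)) * P =
      ν * (w ^ 8 * (2 * (T * D * g) * P)) + T2 * (v * P) + a * T2 * (r * P) := by
    rw [hT2]; ring
  have r2 : 0 ≤ w ^ 8 * (2 * ν * (T * D * g) + T ^ 2 * (v + a * r)) * P := by positivity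
  set K := -ν * T1 - 13 * a * T2 + (16 * a + 256 * ν) * (T ^ 2 * w ^ 9) + 16 * (T2 * (v * r * w)) with hK
  have k1 : |K| ≤ ν * T1 + 29 * (a * T2) + 256 * (ν * T2) + 8 * T2 + 8 * (v ^ 2 * w * T2) := by
    rw [abs_le, hK]
    constructor
    · linarith
    · linarith
  have k2 : |χ * K| ≤ |K| := by
    rw [abs_mul, abs_of_nonneg hχ]
    nlinarith [abs_nonneg K]
  calc |χ * K + w ^ 8 * (2 * ν * (T * D * g) + T ^ 2 * (v + a * r)) * P|
      ≤ |χ * K| + |w ^ 8 * (2 * ν * (T * D * g) + T ^ 2 * (v + a * r)) * P| := abs_add_le _ _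
    _ ≤ |K| + w ^ 8 * (2 * ν * (T * D * g) + T ^ 2 * (v + a * r)) * P := by
        rw [abs_of_nonneg r2]; linarith
    _ ≤ _ := by
        rw [r1]
        linarith

/-- the limit inequality -/
theorem limit_ineq {ν a : ℝ} (hν : 0 < ν) (ha : 0 < a) {V : VF} (hV : SmoothProfile ν a V)
    {q : E → ℝ} (hq : ContDiff ℝ 2 q) (hq1 : ∀ i x, pd i q x = - Zf ν a V i x) (k : ℝ)
    (hA : Integrable (fun x => dth (q x - k) ^ 2 * sq (grad q) x * wt x ^ 8))
    (hB : Integrable (fun x => th (q x - k) ^ 2 * wt x ^ 8))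
    (hQ : Integrable (fun x => sq V x * wt x * (th (q x - k) ^ 2 * wt x ^ 8))) :
    0 ≤ ∫ x, (-ν * (dth (q x - k) ^ 2 * sq (grad q) x * wt x ^ 8)
      - 13 * a * (th (q x - k) ^ 2 * wt x ^ 8)
      + (16 * a + 256 * ν) * (th (q x - k) ^ 2 * wt x ^ 9)
      + 16 * (th (q x - k) ^ 2 * wt x ^ 8 * (nm V x * ‖x‖ * wt x))) := by
  obtain ⟨C, hC, hcut⟩ := cut_grad
  have hqk : ContDiff ℝ 2 (fun x => q x - k) := hq.sub contDiff_const
  have hqk1 : ContDiff ℝ 1 (fun x => q x - k) := hqk.of_le (by norm_num)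
  have hcT : Continuous (fun x => th (q x - k)) := (contDiff_th.comp hqk1).continuous
  have hcD : Continuous (fun x => dth (q x - k)) := continuous_dth.comp hqk1.continuous
  have hcq : ∀ i, Continuous (grad q i) := fun i => continuous_pd (hq.of_le (by norm_num))
  have hcG : Continuous (sq (grad q)) := continuous_sq hcq
  have hcg : Continuous (nm (grad q)) := continuous_nm hcq
  have hcV : ∀ i, Continuous (V i) := fun i => (hV.smooth i).continuous
  have hcv : Continuous (nm V) := continuous_nm hcV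
  have hcw := continuous_wt
  have hcP : ∀ n : ℕ, ∀ i, Continuous (grad (cut (n : ℝ) n) i) := fun n i =>
    continuous_pd ((contDiff_cut (n : ℝ) n).of_le (by exact_mod_cast le_top))
  have hcχ : ∀ n : ℕ, Continuous (cut (n : ℝ) n) := fun n => (contDiff_cut (n : ℝ) n).continuous
  set Kf : E → ℝ := fun x => -ν * (dth (q x - k) ^ 2 * sq (grad q) x * wt x ^ 8)
      - 13 * a * (th (q x - k) ^ 2 * wt x ^ 8)
      + (16 * a + 256 * ν) * (th (q x - k) ^ 2 * wt x ^ 9)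
      + 16 * (th (q x - k) ^ 2 * wt x ^ 8 * (nm V x * ‖x‖ * wt x)) with hKf
  set hn : ℕ → E → ℝ := fun n x => cut (n : ℝ) n x * Kf x
      + wt x ^ 8 * (2 * ν * (th (q x - k) * dth (q x - k) * nm (grad q) x)
        + th (q x - k) ^ 2 * (nm V x + a * ‖x‖)) * nm (grad (cut (n : ℝ) n)) x with hhn
  set bd : E → ℝ := fun x => 2 * ν * (dth (q x - k) ^ 2 * sq (grad q) x * wt x ^ 8)
      + (30 * a + 256 * ν + 8 + ν * C + C + a * C) * (th (q x - k) ^ 2 * wt x ^ 8)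
      + 9 * (sq V x * wt x * (th (q x - k) ^ 2 * wt x ^ 8)) with hbd
  have hbdI : Integrable bd := ((hA.const_mul _).add (hB.const_mul _)).add (hQ.const_mul _)
  have hcK : Continuous Kf := by
    rw [hKf]
    fun_prop
  have hchn : ∀ n, Continuous (hn n) := by
    intro n
    have h1 := hcχ n
    have h2 : Continuous (nm (grad (cut (n : ℝ) n))) := continuous_nm (hcP n)
    rw [hhn]
    fun_prop
  have hdom : ∀ n : ℕ, 1 ≤ n → ∀ x, |hn n x| ≤ bd x := by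
    intro n hn1 x
    have h1 := pw2 (ν := ν) (a := a) (T := th (q x - k)) (D := dth (q x - k))
      (g := nm (grad q) x) (w := wt x) (χ := cut (n : ℝ) n x) (v := nm V x) (r := ‖x‖)
      (P := nm (grad (cut (n : ℝ) n)) x) (C := C) hν.le ha.le (th_nonneg _) (dth_nonneg _)
      (nm_nonneg _ _) (wt_pos x).le (wt_le_one x) (cut_nonneg _ _ _) (cut_le_one _ _ _)
      (nm_nonneg _ _) (norm_nonneg x) (nm_nonneg _ _) hC.le
      (by rw [nm_sq]; exact hcut n hn1 x) (norm_sq_mul_wt x)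
    rw [nm_sq, nm_sq] at h1
    exact h1
  have hlim : Tendsto (fun n => ∫ x, hn (n + 1) x) atTop (𝓝 (∫ x, Kf x)) := by
    refine tendsto_integral_of_dominated_convergence bd
      (fun n => (hchn (n + 1)).aestronglyMeasurable) hbdI
      (fun n => Eventually.of_forall fun x => ?_) (Eventually.of_forall fun x => ?_)
    · rw [Real.norm_eq_abs]
      exact hdom (n + 1) (by omega) x
    · refine tendsto_const_nhds.congr' ?_
      obtain ⟨N, hN⟩ := exists_nat_gt ‖x‖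
      filter_upwards [eventually_ge_atTop N] with n hn'
      have h0 : (1 : ℝ) ≤ ((n + 1 : ℕ) : ℝ) := by exact_mod_cast Nat.succ_le_succ (Nat.zero_le n)
      have h00 : (0 : ℝ) < ((n + 1 : ℕ) : ℝ) := by linarith
      have h1 : ‖x‖ < ((n + 1 : ℕ) : ℝ) := by
        have : (N : ℝ) ≤ ((n + 1 : ℕ) : ℝ) := by exact_mod_cast (by omega : N ≤ n + 1)
        linarith
      have h2 : cut ((n + 1 : ℕ) : ℝ) ((n + 1 : ℕ) : ℝ) x = 1 := cut_one h00 le_rfl h1.le
      have h3 : nm (grad (cut ((n + 1 : ℕ) : ℝ) ((n + 1 : ℕ) : ℝ))) x = 0 := by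
        have h4 : ∀ i, pd i (cut ((n + 1 : ℕ) : ℝ) ((n + 1 : ℕ) : ℝ)) x = 0 := fun i =>
          pd_cut_zero h00 le_rfl i (fun h => by linarith [h.1])
        have h5 : sq (grad (cut ((n + 1 : ℕ) : ℝ) ((n + 1 : ℕ) : ℝ))) x = 0 := by
          refine Finset.sum_eq_zero fun i _ => ?_
          show pd i (cut ((n + 1 : ℕ) : ℝ) ((n + 1 : ℕ) : ℝ)) x ^ 2 = 0
          rw [h4]; norm_num
        unfold nm
        rw [h5, Real.sqrt_zero]
      show Kf x = hn (n + 1) x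
      simp only [hhn]
      rw [h2, h3]
      ring
  refine ge_of_tendsto' hlim fun m => ?_
  set n := m + 1 with hnm
  have hn1 : 1 ≤ n := by omega
  have hn1' : (1 : ℝ) ≤ n := by exact_mod_cast hn1
  have hn0 : (0 : ℝ) < n := by linarith
  set ζ : E → ℝ := fun y => wt y ^ 8 * cut (n : ℝ) n y with hζ
  have hζ1 : ContDiff ℝ 1 ζ :=
    ((contDiff_wt.of_le (by exact_mod_cast le_top)).pow 8).mul
      ((contDiff_cut (n : ℝ) n).of_le (by exact_mod_cast le_top))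
  have hζc : HasCompactSupport ζ := (hasCompactSupport_cut hn0 le_rfl).mul_left
  have hζ0 : ∀ x, 0 ≤ ζ x := fun x => mul_nonneg (pow_nonneg (wt_pos x).le 8) (cut_nonneg _ _ _)
  have hst := star hν hV hq hq1 k hζ1 hζc hζ0
  have hcdd : ∀ F : VF, (∀ i, Continuous (F i)) → Continuous (dot F (grad ζ)) := fun F hF =>
    continuous_dot hF fun i => continuous_pd hζ1
  have hdc : ∀ F : VF, HasCompactSupport (dot F (grad ζ)) := by
    intro F
    unfold dot
    apply HasCompactSupport.intro hζc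
    intro x hx
    refine Finset.sum_eq_zero fun i _ => ?_
    have : grad ζ i x = 0 := by
      unfold grad
      by_contra h
      exact hx (tsupport_pd ζ (subset_tsupport _ h))
    rw [this, mul_zero]
  have hb1 : ∀ i, Continuous (drift a V i) := fun i =>
    (contDiff_drift hV.smooth i).continuous
  have hcgg : Continuous (fun x => gg (q x - k)) := contDiff_gg.continuous.comp hqk1.continuous
  have I1 : Integrable (fun x => dth (q x - k) ^ 2 * sq (grad q) x * ζ x) :=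
    integrable_of_cc (((hcD.pow 2).mul hcG).mul hζ1.continuous) hζc.mul_left
  have I2 : Integrable (fun x => gg (q x - k) * dot (grad q) (grad ζ) x) :=
    integrable_of_cc (hcgg.mul (hcdd _ hcq)) (hdc _).mul_left
  have I3 : Integrable (fun x => th (q x - k) ^ 2 * (3 * a * ζ x + dot (drift a V) (grad ζ) x)) := by
    have h1 : Integrable (fun x => th (q x - k) ^ 2 * (3 * a) * ζ x) :=
      integrable_of_cc (((hcT.pow 2).mul continuous_const).mul hζ1.continuous) hζc.mul_left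
    have h2 : Integrable (fun x => th (q x - k) ^ 2 * dot (drift a V) (grad ζ) x) :=
      integrable_of_cc ((hcT.pow 2).mul (hcdd _ hb1)) (hdc _).mul_left
    refine (h1.add h2).congr (Eventually.of_forall fun x => ?_)
    show th (q x - k) ^ 2 * (3 * a) * ζ x + th (q x - k) ^ 2 * dot (drift a V) (grad ζ) x =
      th (q x - k) ^ 2 * (3 * a * ζ x + dot (drift a V) (grad ζ) x)
    ring
  have J1 : Integrable (fun x => -ν * (gg (q x - k) * dot (grad q) (grad ζ) x)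
      + th (q x - k) ^ 2 * (3 * a * ζ x + dot (drift a V) (grad ζ) x)) :=
    (I2.const_mul (-ν)).add I3
  have hge : 0 ≤ ∫ x, (-ν * (gg (q x - k) * dot (grad q) (grad ζ) x)
      + th (q x - k) ^ 2 * (3 * a * ζ x + dot (drift a V) (grad ζ) x)
      - 2 * ν * (dth (q x - k) ^ 2 * sq (grad q) x * ζ x)) := by
    rw [integral_sub J1 (I1.const_mul _), integral_add (I2.const_mul _) I3,
      integral_const_mul, integral_const_mul]
    linarith
  have J2 : Integrable (fun x => -ν * (gg (q x - k) * dot (grad q) (grad ζ) x)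
      + th (q x - k) ^ 2 * (3 * a * ζ x + dot (drift a V) (grad ζ) x)
      - 2 * ν * (dth (q x - k) ^ 2 * sq (grad q) x * ζ x)) := J1.sub (I1.const_mul (2 * ν))
  refine hge.trans (integral_mono J2
    (integrable_mono_cont (hchn n) hbdI (hdom n hn1)) fun x => ?_)
  have h1 : |dot (grad q) X x| ≤ nm (grad q) x * ‖x‖ := by
    have := abs_dot_le (grad q) X x
    rwa [nm_X] at this
  have h3 : |dot V X x| ≤ nm V x * ‖x‖ := by
    have := abs_dot_le V X x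
    rwa [nm_X] at this
  have h5 : |dot X (grad (cut (n : ℝ) n)) x| ≤ ‖x‖ * nm (grad (cut (n : ℝ) n)) x := by
    have := abs_dot_le X (grad (cut (n : ℝ) n)) x
    rwa [nm_X] at this
  have h6 : dot X X x = ‖x‖ ^ 2 := by
    rw [← sq_X]
    unfold dot sq
    refine Finset.sum_congr rfl fun i _ => ?_
    ring
  have hp := pw (ν := ν) (a := a) (T := th (q x - k)) (D := dth (q x - k))
    (g := nm (grad q) x) (w := wt x) (χ := cut (n : ℝ) n x) (v := nm V x) (r := ‖x‖)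
    (P := nm (grad (cut (n : ℝ) n)) x) hν.le ha.le (th_nonneg _) (dth_nonneg _)
    (nm_nonneg _ _) (wt_pos x).le (cut_nonneg _ _ _) h1 (abs_dot_le _ _ x) h3 (abs_dot_le _ _ x) h5
    (norm_sq_mul_wt x)
  have e1 : gg (q x - k) = 2 * th (q x - k) * dth (q x - k) := gg_eq _
  have e2 := dot_zeta (F := grad q) n x
  have e3 := dot_zeta (F := V) n x
  have e4 := dot_zeta (F := X) n x
  show -ν * (gg (q x - k) * dot (grad q) (grad ζ) x)
      + th (q x - k) ^ 2 * (3 * a * ζ x + dot (drift a V) (grad ζ) x)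
      - 2 * ν * (dth (q x - k) ^ 2 * sq (grad q) x * ζ x) ≤ hn n x
  rw [dot_drift, e1]
  simp only [hζ, hhn, hKf]
  rw [e2, e3, e4, h6]
  rw [nm_sq] at hp
  exact hp

end HM
end Leray
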