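import Pool.Agent.Lib.MP_9b9638_an.HeadMax3

/-!
# The head pressure attains its maximum, part 4: absorption
-/

open MeasureTheory Set Filter Topology

noncomputable section
namespace Leray
namespace HM

theorem head_max_aux {ν a : ℝ} (hν : 0 < ν) (ha : 0 < a) {V : VF} (hV : SmoothProfile ν a V)
    {q : E → ℝ} (hq : ContDiff ℝ 2 q) (hq1 : ∀ i x, pd i q x = - Zf ν a V i x)
    (f1 : Integrable (fun x : E => sq (grad q) x * (1 + ‖x‖ ^ 2)⁻¹ ^ 6))
    (f2 : Integrable (fun x : E => q x ^ 2 * (1 + ‖x‖ ^ 2)⁻¹ ^ 7))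
    (h2 : Integrable (fun x : E => sq V x ^ 3 * (1 + ‖x‖ ^ 2)⁻¹ ^ 3)) :
    ∃ x₀ : E, ∀ x, q x ≤ q x₀ := by
  obtain ⟨C, hC, hsob⟩ := sob6
  -- constants
  set δ : ℝ := a / 16 with hδ
  have hδ0 : 0 < δ := by positivity
  set M : ℝ := 16 / δ ^ 3 with hM
  have hM0 : 0 < M := by positivity
  set C₁ : ℝ := 129 * C with hC₁
  have hC₁0 : 0 < C₁ := by positivity
  set m : ℝ := min ν a with hm
  have hm0 : 0 < m := lt_min hν ha
  obtain ⟨ε, hε0, hε⟩ : ∃ ε : ℝ, 0 < ε ∧ M * ε ^ 2 * C₁ ≤ m := by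
    refine ⟨Real.sqrt (m / (M * C₁)), Real.sqrt_pos.mpr (by positivity), ?_⟩
    rw [Real.sq_sqrt (by positivity)]
    have : M * (m / (M * C₁)) * C₁ = m := by field_simp
    rw [this]
  -- the tail
  set Q : E → ℝ := fun x => sq V x * wt x with hQdef
  have hQ0 : ∀ x, 0 ≤ Q x := fun x => mul_nonneg (sq_nonneg' V x) (wt_pos x).le
  have hQ3 : Integrable (fun x => Q x ^ 3) := by
    refine h2.congr (Eventually.of_forall fun x => ?_)
    show sq V x ^ 3 * (1 + ‖x‖ ^ 2)⁻¹ ^ 3 = (sq V x * wt x) ^ 3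
    unfold wt
    ring
  have hcov : AECover (volume : Measure E) atTop
      (fun n : ℕ => Metric.closedBall (0 : E) (n : ℝ)) :=
    aecover_closedBall tendsto_natCast_atTop_atTop
  have ht := hcov.integral_tendsto_of_countably_generated hQ3
  have ht2 : ∀ᶠ n : ℕ in atTop, (∫ x, Q x ^ 3) - ε ^ 3 < ∫ x in Metric.closedBall (0 : E) (n : ℝ), Q x ^ 3 :=
    ht.eventually (lt_mem_nhds (by have : 0 < ε ^ 3 := by positivity
                                   linarith))
  obtain ⟨N₁, hN₁⟩ := ht2.exists_forall_of_atTop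
  obtain ⟨N₂, hN₂⟩ := exists_nat_gt ((16 * a + 256 * ν) / a)
  set N : ℕ := max N₁ (N₂ + 1) with hN
  have htail : (∫ x in (Metric.closedBall (0 : E) (N : ℝ))ᶜ, Q x ^ 3) ≤ ε ^ 3 := by
    have h1 := integral_add_compl (μ := (volume : Measure E)) (s := Metric.closedBall (0 : E) (N : ℝ))
      (f := fun x => Q x ^ 3) Metric.isClosed_closedBall.measurableSet hQ3
    have h3 := hN₁ N (le_max_left _ _)
    linarith
  have hwN : ∀ x : E, x ∉ Metric.closedBall (0 : E) (N : ℝ) → (16 * a + 256 * ν) * wt x ≤ a := by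
    intro x hx
    simp only [Metric.mem_closedBall, dist_zero_right, not_le] at hx
    have h1 : ((N₂ : ℝ) + 1) ≤ N := by
      have : N₂ + 1 ≤ N := le_max_right _ _
      exact_mod_cast this
    have h3 : (N₂ : ℝ) ≤ 1 + ‖x‖ ^ 2 := by nlinarith
    have h4 : (16 * a + 256 * ν) / a ≤ 1 + ‖x‖ ^ 2 := by linarith
    have h5 : 0 < 1 + ‖x‖ ^ 2 := by positivity
    rw [div_le_iff₀ ha] at h4
    unfold wt
    rw [← div_eq_mul_inv, div_le_iff₀ h5]
    linarith
  -- the level
  obtain ⟨x₀, -, hx₀⟩ := (isCompact_closedBall (0 : E) (N : ℝ)).exists_isMaxOn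
    ⟨0, by simp⟩ hq.continuous.continuousOn
  set k : ℝ := q x₀ with hk
  refine ⟨x₀, ?_⟩
  have hin : ∀ x ∈ Metric.closedBall (0 : E) (N : ℝ), q x - k ≤ 0 := fun x hx => by
    have := hx₀ hx
    simp only [mem_setOf_eq] at this
    linarith
  have hTin : ∀ x ∈ Metric.closedBall (0 : E) (N : ℝ), th (q x - k) = 0 := fun x hx =>
    th_zero (hin x hx)
  -- continuity
  have hqk1 : ContDiff ℝ 1 (fun x => q x - k) := (hq.sub contDiff_const).of_le (by norm_num)
  have hqd : Differentiable ℝ q := hq.differentiable (by norm_num)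
  have hT1 : ContDiff ℝ 1 (fun x => th (q x - k)) := contDiff_th.comp hqk1
  have hcT : Continuous (fun x => th (q x - k)) := hT1.continuous
  have hcD : Continuous (fun x => dth (q x - k)) := continuous_dth.comp hqk1.continuous
  have hcq : ∀ i, Continuous (grad q i) := fun i => continuous_pd (hq.of_le (by norm_num))
  have hcG : Continuous (sq (grad q)) := continuous_sq hcq
  have hcV : ∀ i, Continuous (V i) := fun i => (hV.smooth i).continuous
  have hcsV : Continuous (sq V) := continuous_sq hcV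
  have hcv : Continuous (nm V) := continuous_nm hcV
  have hcw := continuous_wt
  have hw0 : ∀ x, 0 ≤ wt x := fun x => (wt_pos x).le
  -- integrability of A and B
  have hA : Integrable (fun x => dth (q x - k) ^ 2 * sq (grad q) x * wt x ^ 8) := by
    refine integrable_mono_cont (g := fun x : E => sq (grad q) x * (1 + ‖x‖ ^ 2)⁻¹ ^ 6)
      (by fun_prop) f1 fun x => ?_
    have h1 := dth_le_one (q x - k)
    have h3 := dth_nonneg (q x - k)
    have h4 := sq_nonneg' (grad q) x
    have h5 := hw0 x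
    have h6 := wt_le_one x
    have h7 : wt x ^ 8 ≤ wt x ^ 6 := pow_le_pow_of_le_one h5 h6 (by norm_num)
    have h8 : dth (q x - k) ^ 2 ≤ 1 := by nlinarith
    rw [abs_of_nonneg (by positivity)]
    show dth (q x - k) ^ 2 * sq (grad q) x * wt x ^ 8 ≤ sq (grad q) x * wt x ^ 6
    calc dth (q x - k) ^ 2 * sq (grad q) x * wt x ^ 8 ≤ 1 * sq (grad q) x * wt x ^ 6 := by gcongr
      _ = _ := by ring
  have hB : Integrable (fun x => th (q x - k) ^ 2 * wt x ^ 8) := by
    refine integrable_mono_cont (g := fun x : E => 2 * (q x ^ 2 * (1 + ‖x‖ ^ 2)⁻¹ ^ 7) + 2 * k ^ 2 * wt x ^ 8)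
      (by fun_prop) ((f2.const_mul 2).add (integrable_wt.const_mul _)) fun x => ?_
    have h1 := th_le (q x - k)
    have h3 := th_nonneg (q x - k)
    have h5 := hw0 x
    have h6 := wt_le_one x
    have h7 : wt x ^ 8 ≤ wt x ^ 7 := pow_le_pow_of_le_one h5 h6 (by norm_num)
    have h8 : pp (q x - k) ≤ |q x - k| := max_le (le_abs_self _) (abs_nonneg _)
    have h9 : th (q x - k) ^ 2 ≤ 2 * q x ^ 2 + 2 * k ^ 2 := by
      have e1 : th (q x - k) ^ 2 ≤ |q x - k| ^ 2 := by
        have := h1.trans h8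
        gcongr
      rw [sq_abs] at e1
      nlinarith [sq_nonneg (q x + k)]
    rw [abs_of_nonneg (by positivity)]
    show th (q x - k) ^ 2 * wt x ^ 8 ≤ 2 * (q x ^ 2 * wt x ^ 7) + 2 * k ^ 2 * wt x ^ 8
    calc th (q x - k) ^ 2 * wt x ^ 8 ≤ (2 * q x ^ 2 + 2 * k ^ 2) * wt x ^ 8 := by gcongr
      _ = 2 * (q x ^ 2 * wt x ^ 8) + 2 * k ^ 2 * wt x ^ 8 := by ring
      _ ≤ _ := by gcongr
  set A : ℝ := ∫ x, dth (q x - k) ^ 2 * sq (grad q) x * wt x ^ 8 with hAdef
  set B : ℝ := ∫ x, th (q x - k) ^ 2 * wt x ^ 8 with hBdef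
  have hA0 : 0 ≤ A := integral_nonneg fun x => by
    have := sq_nonneg' (grad q) x
    have := hw0 x
    positivity
  have hB0 : 0 ≤ B := integral_nonneg fun x => by
    have := hw0 x
    positivity
  -- the function F
  set F : E → ℝ := fun x => th (q x - k) * wt x ^ 4 with hF
  have hF1 : ContDiff ℝ 1 F := hT1.mul ((contDiff_wt.of_le (by exact_mod_cast le_top)).pow 4)
  have hcF : Continuous F := hF1.continuous
  have hF2e : ∀ x, F x ^ 2 = th (q x - k) ^ 2 * wt x ^ 8 := fun x => by rw [hF]; ring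
  have hF2 : Integrable (fun x => F x ^ 2) := hB.congr (Eventually.of_forall fun x => (hF2e x).symm)
  have hTd : Differentiable ℝ (fun x => th (q x - k)) := hT1.differentiable (by norm_num)
  have hwd : Differentiable ℝ (fun x => wt x ^ 4) :=
    (contDiff_wt.differentiable (by norm_num)).pow 4
  have hpF : ∀ i x, pd i F x = dth (q x - k) * pd i q x * wt x ^ 4
      + th (q x - k) * (-8 * x i * wt x ^ 5) := by
    intro i x
    have e0 : pd i (fun x => q x - k) x = pd i q x := by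
      rw [pd_sub hqd (differentiable_const k), pd_const, sub_zero]
    have e1 : pd i (fun x => th (q x - k)) x = dth (q x - k) * pd i q x := by
      have h1 := hasDerivAt_th (q x - k)
      rw [pd_comp_at (h := th) (f := fun x => q x - k) h1.differentiableAt
        ((hqk1.differentiable (by norm_num)) x), e0, h1.deriv]
    rw [hF, pd_mul hTd hwd, e1, pd_wt_pow 3]
    push_cast
    ring
  have hgF : ∀ x, sq (grad F) x ≤ 2 * (dth (q x - k) ^ 2 * sq (grad q) x * wt x ^ 8)
      + 128 * (th (q x - k) ^ 2 * wt x ^ 8) := by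
    intro x
    have e1 : sq (grad F) x ≤ ∑ i, (2 * (dth (q x - k) * pd i q x * wt x ^ 4) ^ 2
        + 2 * (th (q x - k) * (-8 * x i * wt x ^ 5)) ^ 2) := by
      unfold sq grad
      refine Finset.sum_le_sum fun i _ => ?_
      rw [hpF]
      exact mul_le_sq_add
    have e2 : ∑ i, (2 * (dth (q x - k) * pd i q x * wt x ^ 4) ^ 2
        + 2 * (th (q x - k) * (-8 * x i * wt x ^ 5)) ^ 2)
        = 2 * (dth (q x - k) ^ 2 * sq (grad q) x * wt x ^ 8)
          + 128 * (th (q x - k) ^ 2 * wt x ^ 9) * (‖x‖ ^ 2 * wt x) := by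
      rw [norm_sq_eq]
      unfold sq grad
      simp only [Fin.sum_univ_three]
      ring
    rw [e2] at e1
    refine e1.trans ?_
    have h5 := hw0 x
    have h6 := wt_le_one x
    have e3 : ‖x‖ ^ 2 * wt x ≤ 1 := by rw [norm_sq_mul_wt]; linarith
    have e4 : 0 ≤ ‖x‖ ^ 2 * wt x := by positivity
    have e5 : wt x ^ 9 ≤ wt x ^ 8 := pow_le_pow_of_le_one h5 h6 (by norm_num)
    have e6 : 128 * (th (q x - k) ^ 2 * wt x ^ 9) * (‖x‖ ^ 2 * wt x)
        ≤ 128 * (th (q x - k) ^ 2 * wt x ^ 8) * 1 := by gcongr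
    linarith
  have hcgF : Continuous (sq (grad F)) := continuous_sq fun i => continuous_pd hF1
  have hGF : Integrable (fun x => sq (grad F) x) :=
    integrable_mono_cont hcgF ((hA.const_mul 2).add (hB.const_mul 128)) fun x => by
      rw [abs_of_nonneg (sq_nonneg' _ x)]
      exact hgF x
  have hGFi : (∫ x, sq (grad F) x) ≤ 2 * A + 128 * B := by
    calc (∫ x, sq (grad F) x) ≤ ∫ x, (2 * (dth (q x - k) ^ 2 * sq (grad q) x * wt x ^ 8)
          + 128 * (th (q x - k) ^ 2 * wt x ^ 8)) :=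
          integral_mono hGF ((hA.const_mul 2).add (hB.const_mul 128)) hgF
      _ = _ := by
          rw [integral_add (hA.const_mul 2) (hB.const_mul 128), integral_const_mul,
            integral_const_mul]
  have hFi : (∫ x, F x ^ 2) = B := by
    rw [hBdef]
    exact integral_congr_ae (Eventually.of_forall hF2e)
  obtain ⟨hF6, hF6i⟩ := hsob F hF1 hF2 hGF
  have hF6b : (∫ x, F x ^ 6) ≤ (C₁ * (A + B)) ^ 3 := by
    refine hF6i.trans ?_
    rw [hFi]
    have h0 : 0 ≤ ∫ x, sq (grad F) x := integral_nonneg fun x => sq_nonneg' _ x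
    refine pow_le_pow_left₀ (mul_nonneg hC.le (by linarith)) ?_ 3
    rw [hC₁]
    have : C * ((∫ x, sq (grad F) x) + B) ≤ C * (129 * (A + B)) := by
      gcongr
      linarith
    linarith
  -- Q² F² integrable
  have hcQ : Continuous Q := hcsV.mul hcw
  have hyoung : ∀ s : ℝ, 0 < s → ∀ x, Q x ^ 2 * F x ^ 2 ≤
      2 / 3 * s * Q x ^ 3 + 1 / 3 * (s ^ 2)⁻¹ * F x ^ 6 := by
    intro s hs x
    have := young hs (hQ0 x) (sq_nonneg (F x))
    have e : (F x ^ 2) ^ 3 = F x ^ 6 := by ring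
    rw [e] at this
    exact this
  have hQF : Integrable (fun x => Q x ^ 2 * F x ^ 2) := by
    refine integrable_mono_cont (by fun_prop) ((hQ3.const_mul (2 / 3 * 1)).add
      (hF6.const_mul (1 / 3 * ((1 : ℝ) ^ 2)⁻¹))) fun x => ?_
    rw [abs_of_nonneg (by positivity)]
    exact hyoung 1 one_pos x
  have hQF1 : Integrable (fun x => sq V x * wt x * (th (q x - k) ^ 2 * wt x ^ 8)) := by
    refine integrable_mono_cont (by fun_prop) ((hF2.add hQF).const_mul (1 / 2)) fun x => ?_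
    rw [← hF2e]
    have h1 := hQ0 x
    have h3 := sq_nonneg (F x)
    rw [abs_of_nonneg (by positivity)]
    show Q x * F x ^ 2 ≤ 1 / 2 * (F x ^ 2 + Q x ^ 2 * F x ^ 2)
    nlinarith [mul_nonneg (sq_nonneg (Q x - 1)) h3]
  -- the limit inequality
  have hL := limit_ineq hν ha hV hq hq1 k hA hB hQF1
  have hpt : ∀ x, -ν * (dth (q x - k) ^ 2 * sq (grad q) x * wt x ^ 8)
      - 13 * a * (th (q x - k) ^ 2 * wt x ^ 8)
      + (16 * a + 256 * ν) * (th (q x - k) ^ 2 * wt x ^ 9)
      + 16 * (th (q x - k) ^ 2 * wt x ^ 8 * (nm V x * ‖x‖ * wt x)) ≤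
      -ν * (dth (q x - k) ^ 2 * sq (grad q) x * wt x ^ 8)
      - 11 * a * (th (q x - k) ^ 2 * wt x ^ 8) + M * (Q x ^ 2 * F x ^ 2) := by
    intro x
    have h5 := hw0 x
    have e1 : (16 * a + 256 * ν) * (th (q x - k) ^ 2 * wt x ^ 9) ≤ a * (th (q x - k) ^ 2 * wt x ^ 8) := by
      by_cases hx : x ∈ Metric.closedBall (0 : E) (N : ℝ)
      · rw [hTin x hx]; simp
      · have := hwN x hx
        calc (16 * a + 256 * ν) * (th (q x - k) ^ 2 * wt x ^ 9)
            = ((16 * a + 256 * ν) * wt x) * (th (q x - k) ^ 2 * wt x ^ 8) := by ring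
          _ ≤ _ := by gcongr
    have e2 : (nm V x * ‖x‖ * wt x) ≤ δ + Q x ^ 2 / δ ^ 3 := by
      refine le_add_div hδ0 ?_
      have : (nm V x * ‖x‖ * wt x) ^ 2 = Q x * (‖x‖ ^ 2 * wt x) := by
        rw [mul_pow, mul_pow, nm_sq, hQdef]; ring
      rw [this, norm_sq_mul_wt]
      have h6 := hQ0 x
      nlinarith
    have e3 : th (q x - k) ^ 2 * wt x ^ 8 * (nm V x * ‖x‖ * wt x) ≤
        th (q x - k) ^ 2 * wt x ^ 8 * (δ + Q x ^ 2 / δ ^ 3) := by gcongr
    have e4 : 16 * (th (q x - k) ^ 2 * wt x ^ 8 * (δ + Q x ^ 2 / δ ^ 3)) =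
        a * (th (q x - k) ^ 2 * wt x ^ 8) + M * (Q x ^ 2 * F x ^ 2) := by
      rw [hF2e, hM, hδ]; field_simp
    linarith
  have hL2 : ν * A + 11 * a * B ≤ M * ∫ x, Q x ^ 2 * F x ^ 2 := by
    have i1 : Integrable (fun x => -ν * (dth (q x - k) ^ 2 * sq (grad q) x * wt x ^ 8)
      - 11 * a * (th (q x - k) ^ 2 * wt x ^ 8)) := (hA.const_mul (-ν)).sub (hB.const_mul (11 * a))
    have i2 : Integrable (fun x => -ν * (dth (q x - k) ^ 2 * sq (grad q) x * wt x ^ 8)
      - 11 * a * (th (q x - k) ^ 2 * wt x ^ 8) + M * (Q x ^ 2 * F x ^ 2)) :=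
      i1.add (hQF.const_mul M)
    by_cases hI : Integrable (fun x => -ν * (dth (q x - k) ^ 2 * sq (grad q) x * wt x ^ 8)
      - 13 * a * (th (q x - k) ^ 2 * wt x ^ 8)
      + (16 * a + 256 * ν) * (th (q x - k) ^ 2 * wt x ^ 9)
      + 16 * (th (q x - k) ^ 2 * wt x ^ 8 * (nm V x * ‖x‖ * wt x)))
    · have h3 := hL.trans (integral_mono hI i2 hpt)
      rw [integral_add i1 (hQF.const_mul M), integral_sub (hA.const_mul (-ν)) (hB.const_mul (11 * a)),
        integral_const_mul, integral_const_mul, integral_const_mul] at h3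
      linarith
    · exfalso
      apply hI
      have j1 : Integrable (fun x => th (q x - k) ^ 2 * wt x ^ 9) := by
        refine integrable_mono_cont (by fun_prop) hB fun x => ?_
        have h5 := hw0 x
        have e5 : wt x ^ 9 ≤ wt x ^ 8 := pow_le_pow_of_le_one h5 (wt_le_one x) (by norm_num)
        rw [abs_of_nonneg (by positivity)]
        gcongr
      have j2 : Integrable (fun x => th (q x - k) ^ 2 * wt x ^ 8 * (nm V x * ‖x‖ * wt x)) := by
        refine integrable_mono_cont (by fun_prop) ((hB.const_mul δ).add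
          (hQF.const_mul (1 / δ ^ 3))) fun x => ?_
        have h5 := hw0 x
        have h6 := nm_nonneg V x
        rw [abs_of_nonneg (by positivity)]
        have e2 : (nm V x * ‖x‖ * wt x) ≤ δ + Q x ^ 2 / δ ^ 3 := by
          refine le_add_div hδ0 ?_
          have : (nm V x * ‖x‖ * wt x) ^ 2 = Q x * (‖x‖ ^ 2 * wt x) := by
            rw [mul_pow, mul_pow, nm_sq, hQdef]; ring
          rw [this, norm_sq_mul_wt]
          have h6 := hQ0 x
          nlinarith
        show th (q x - k) ^ 2 * wt x ^ 8 * (nm V x * ‖x‖ * wt x) ≤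
          δ * (th (q x - k) ^ 2 * wt x ^ 8) + 1 / δ ^ 3 * (Q x ^ 2 * F x ^ 2)
        calc th (q x - k) ^ 2 * wt x ^ 8 * (nm V x * ‖x‖ * wt x) ≤
            th (q x - k) ^ 2 * wt x ^ 8 * (δ + Q x ^ 2 / δ ^ 3) := by gcongr
          _ = _ := by rw [hF2e]; ring
      exact (((hA.const_mul (-ν)).sub (hB.const_mul (13 * a))).add
        (j1.const_mul (16 * a + 256 * ν))).add (j2.const_mul 16)
  -- absorption
  have hBz : B = 0 := by
    by_contra hne
    have hBpos : 0 < B := lt_of_le_of_ne hB0 (Ne.symm hne)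
    set Y : ℝ := C₁ * (A + B) with hY
    have hY0 : 0 < Y := by positivity
    have hs : 0 < Y / ε := by positivity
    have hb : (∫ x, Q x ^ 2 * F x ^ 2) ≤ ε ^ 2 * Y := by
      set S : Set E := (Metric.closedBall (0 : E) (N : ℝ))ᶜ with hS
      have hSm : MeasurableSet S := Metric.isClosed_closedBall.measurableSet.compl
      have k1 : Integrable (S.indicator fun x => 2 / 3 * (Y / ε) * Q x ^ 3) :=
        (hQ3.const_mul (2 / 3 * (Y / ε))).indicator hSm
      have k2 : Integrable (fun x => 1 / 3 * ((Y / ε) ^ 2)⁻¹ * F x ^ 6) :=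
        hF6.const_mul _
      have k3 : ∀ x, Q x ^ 2 * F x ^ 2 ≤ S.indicator (fun x => 2 / 3 * (Y / ε) * Q x ^ 3) x
          + 1 / 3 * ((Y / ε) ^ 2)⁻¹ * F x ^ 6 := by
        intro x
        by_cases hx : x ∈ S
        · rw [indicator_of_mem hx]
          exact hyoung _ hs x
        · have hx' : x ∈ Metric.closedBall (0 : E) (N : ℝ) := by
            rw [hS, mem_compl_iff, not_not] at hx; exact hx
          have : F x = 0 := by rw [hF]; simp only [hTin x hx', zero_mul]
          rw [indicator_of_notMem hx, this]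
          simp
      calc (∫ x, Q x ^ 2 * F x ^ 2) ≤ ∫ x, (S.indicator (fun x => 2 / 3 * (Y / ε) * Q x ^ 3) x
          + 1 / 3 * ((Y / ε) ^ 2)⁻¹ * F x ^ 6) := integral_mono hQF (k1.add k2) k3
        _ = 2 / 3 * (Y / ε) * (∫ x in S, Q x ^ 3) + 1 / 3 * ((Y / ε) ^ 2)⁻¹ * ∫ x, F x ^ 6 := by
            rw [integral_add k1 k2, integral_indicator hSm, integral_const_mul, integral_const_mul]
        _ ≤ 2 / 3 * (Y / ε) * ε ^ 3 + 1 / 3 * ((Y / ε) ^ 2)⁻¹ * Y ^ 3 := by gcongr
        _ = ε ^ 2 * Y := by field_simp; ring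
    have h3 : ν * A + 11 * a * B ≤ m * (A + B) := by
      calc ν * A + 11 * a * B ≤ M * ∫ x, Q x ^ 2 * F x ^ 2 := hL2
        _ ≤ M * (ε ^ 2 * Y) := by gcongr
        _ = (M * ε ^ 2 * C₁) * (A + B) := by rw [hY]; ring
        _ ≤ m * (A + B) := by gcongr
    have h4 : m * A ≤ ν * A := by
      have : m ≤ ν := min_le_left _ _
      gcongr
    have h5 : m * B ≤ a * B := by
      have : m ≤ a := min_le_right _ _
      gcongr
    have h6 : 0 < a * B := by positivity
    linarith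
  -- conclusion
  have hz : (fun x => th (q x - k) ^ 2 * wt x ^ 8) =ᵐ[volume] fun _ => (0 : ℝ) := by
    rw [hBdef] at hBz
    exact (integral_eq_zero_iff_of_nonneg (fun x => by
      show 0 ≤ th (q x - k) ^ 2 * wt x ^ 8
      have := hw0 x
      positivity) hB).mp hBz
  have hz2 : (fun x => th (q x - k) ^ 2 * wt x ^ 8) = fun _ => (0 : ℝ) :=
    (Continuous.ae_eq_iff_eq (μ := (volume : Measure E)) (by fun_prop) continuous_const).mp hz
  intro x
  by_contra hx
  push Not at hx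
  have h1 : 0 < th (q x - k) := th_pos (by linarith)
  have h3 : th (q x - k) ^ 2 * wt x ^ 8 = 0 := congrFun hz2 x
  have h4 := wt_pos x
  have : 0 < th (q x - k) ^ 2 * wt x ^ 8 := by positivity
  linarith

end HM
end Leray
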