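import Pool.Agent.Lib.MP_9b9638_an.Calc

/-!
# The strong maximum principle for `-ν Δ + b·∇`
-/

open MeasureTheory Set Filter Topology TopologicalSpace

noncomputable section
namespace Leray

/-- second derivative test at a local maximum -/
theorem pd_pd_nonpos {u : E → ℝ} (hu : ContDiff ℝ 2 u) {x : E} (h : IsLocalMax u x) (i : Fin 3) :
    pd i (pd i u) x ≤ 0 := by
  by_contra hc
  push Not at hc
  have hline : ∀ t : ℝ, HasDerivAt (fun t : ℝ => x + t • ei i) (ei i) t := by
    intro t
    simpa using ((hasDerivAt_id t).smul_const (ei i)).const_add x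
  have hlc : Continuous (fun t : ℝ => x + t • ei i) := by fun_prop
  have hgen : ∀ f : E → ℝ, Differentiable ℝ f → ∀ t : ℝ,
      HasDerivAt (fun t : ℝ => f (x + t • ei i)) (pd i f (x + t • ei i)) t := by
    intro f hf t
    exact ((hf _).hasFDerivAt).comp_hasDerivAt t (hline t)
  have hu1 : Differentiable ℝ u := hu.differentiable (by norm_num)
  have hu2 : Differentiable ℝ (pd i u) :=
    (contDiff_pd (m := 1) hu (by norm_num)).differentiable (by norm_num)
  set g : ℝ → ℝ := fun t => u (x + t • ei i) with hg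
  have hg1 : deriv g = fun t => pd i u (x + t • ei i) := by
    funext t
    exact (hgen u hu1 t).deriv
  have hg2 : HasDerivAt (deriv g) (pd i (pd i u) x) 0 := by
    rw [hg1]
    have := hgen (pd i u) hu2 0
    simpa using this
  have hmax : IsLocalMax g 0 := by
    have h' : IsLocalMax u (x + (0 : ℝ) • ei i) := by simpa using h
    exact h'.comp_continuous (f := u) (g := fun t : ℝ => x + t • ei i) hlc.continuousAt
  have h0 : deriv g 0 = 0 := hmax.deriv_eq_zero
  have hmin : IsLocalMin g 0 :=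
    isLocalMin_of_deriv_deriv_pos (by rw [hg2.deriv]; exact hc) h0
      (hu1.continuous.comp hlc).continuousAt
  have hconst : g =ᶠ[𝓝 0] fun _ => g 0 := by
    filter_upwards [hmax, hmin] with t h1 h2
    exact le_antisymm h1 h2
  have hd : deriv g =ᶠ[𝓝 0] deriv (fun _ => g 0) := hconst.deriv
  have hdd := hd.deriv_eq
  rw [hg2.deriv] at hdd
  simp at hdd
  linarith

/-- gradient test at a local maximum -/
theorem pd_eq_zero_of_max {u : E → ℝ} {x : E} (h : IsLocalMax u x) (i : Fin 3) : pd i u x = 0 := by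
  unfold pd
  rw [h.fderiv_eq_zero]
  rfl

/-! ### the barrier -/

def bar (α : ℝ) (z : E) : E → ℝ := fun y => Real.exp (-α * ‖y - z‖ ^ 2)

theorem hasFDerivAt_bar (α : ℝ) (z x : E) :
    HasFDerivAt (bar α z) (bar α z x • (-α) • (2 • (innerSL ℝ (x - z)))) x := by
  unfold bar
  have h1 : HasFDerivAt (fun y : E => y - z) (ContinuousLinearMap.id ℝ E) x :=
    (hasFDerivAt_id x).sub_const z
  have h2 := (h1.norm_sq).const_mul (-α)
  exact h2.exp

theorem contDiff_bar (α : ℝ) (z : E) {n : WithTop ℕ∞} : ContDiff ℝ n (bar α z) := by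
  unfold bar
  exact (contDiff_const.mul ((contDiff_id.sub contDiff_const).norm_sq ℝ)).exp

theorem fderiv_bar (α : ℝ) (z x v : E) :
    fderiv ℝ (bar α z) x v = bar α z x * (-α * (2 * inner ℝ (x - z) v)) := by
  rw [(hasFDerivAt_bar α z x).fderiv]
  simp only [_root_.smul_apply, smul_eq_mul, nsmul_eq_mul, innerSL_apply_apply, Nat.cast_ofNat]

theorem pd_bar (α : ℝ) (z x : E) (i : Fin 3) :
    pd i (bar α z) x = -(2 * α) * ((x i - z i) * bar α z x) := by
  unfold pd
  rw [fderiv_bar]
  have : inner ℝ (x - z) (ei i) = x i - z i := by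
    rw [PiLp.inner_apply]
    simp [ei]
  rw [this]; ring

theorem pd_pd_bar (α : ℝ) (z x : E) (i : Fin 3) :
    pd i (pd i (bar α z)) x = -(2 * α) * (1 - 2 * α * (x i - z i) ^ 2) * bar α z x := by
  have h : pd i (bar α z) = fun y => -(2 * α) * ((y i - z i) * bar α z y) := by
    funext y; exact pd_bar α z y i
  have hd1 : Differentiable ℝ (fun y : E => y i - z i) := (differentiable_coord i).sub_const _
  have hd2 : Differentiable ℝ (bar α z) := (contDiff_bar α z (n := 1)).differentiable (by norm_num)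
  have hd3 : Differentiable ℝ (fun y : E => (y i - z i) * bar α z y) := hd1.mul hd2
  rw [h, pd_const_mul _ hd3, pd_mul hd1 hd2, pd_bar]
  have h3 : pd i (fun y : E => y i - z i) x = 1 := by
    rw [pd_sub (differentiable_coord i) (differentiable_const _), pd_coord, pd_const]; simp
  rw [h3]
  ring

theorem lap_bar (α : ℝ) (z x : E) :
    lap (bar α z) x = -(2 * α) * (3 - 2 * α * ‖x - z‖ ^ 2) * bar α z x := by
  unfold lap
  simp only [pd_pd_bar]
  rw [EuclideanSpace.norm_sq_eq]
  simp only [Fin.sum_univ_three, PiLp.sub_apply, Real.norm_eq_abs, sq_abs]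
  ring

/-- strong maximum principle -/
theorem hopf {ν : ℝ} (hν : 0 < ν) {b : VF} (hb : ∀ i, Continuous (b i)) {q : E → ℝ} (hq : ContDiff ℝ 2 q)
    (hL : ∀ x, -ν * lap q x + dot b (grad q) x ≤ 0) {x₀ : E} (hmax : ∀ x, q x ≤ q x₀) :
    ∀ x, q x = q x₀ := by
  by_contra hcon
  push Not at hcon
  obtain ⟨z, hz⟩ := hcon
  set M := q x₀ with hM
  have hqc : Continuous q := hq.continuous
  have hq1 : Differentiable ℝ q := hq.differentiable (by norm_num)
  set S : Set E := {x | q x = M} with hS
  have hSc : IsClosed S := isClosed_eq hqc continuous_const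
  have hSn : S.Nonempty := ⟨x₀, rfl⟩
  obtain ⟨x₁, hx₁S, hx₁⟩ := hSc.exists_infDist_eq_dist hSn z
  set ρ := Metric.infDist z S with hρ
  have hzS : z ∉ S := hz
  have hρ0 : 0 < ρ := (hSc.notMem_iff_infDist_pos hSn).1 hzS
  have hball : ∀ x, dist x z < ρ → q x < M := by
    intro x hx
    refine lt_of_le_of_ne (hmax x) fun h => ?_
    have : ρ ≤ dist z x := Metric.infDist_le_dist_of_mem (show x ∈ S from h)
    rw [dist_comm] at this
    linarith
  -- bound of the drift term
  set D : E → ℝ := fun x => ∑ i, b i x * (x i - z i) with hD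
  have hDc : Continuous D := continuous_finsetSum _ fun i _ =>
    (hb i).mul ((differentiable_coord i).continuous.sub continuous_const)
  obtain ⟨B, hB⟩ := (isCompact_closedBall z ρ).exists_bound_of_continuousOn hDc.continuousOn
  have hB0 : 0 ≤ B := le_trans (norm_nonneg _) (hB z (Metric.mem_closedBall_self hρ0.le))
  set α : ℝ := 2 * (3 * ν + B) / (ν * ρ ^ 2) + 1 with hα
  have hα0 : 0 < α := by positivity
  have hαν : 3 * ν + B < 2 * α * ν * (ρ / 2) ^ 2 := by
    have e : 2 * α * ν * (ρ / 2) ^ 2 = (3 * ν + B) + ν * ρ ^ 2 / 2 := by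
      rw [hα]; field_simp
    rw [e]
    have : 0 < ν * ρ ^ 2 := by positivity
    linarith
  -- strict bound on the inner ball
  obtain ⟨y₀, hy₀, hy₀m⟩ := (isCompact_closedBall z (ρ / 2)).exists_isMaxOn
    ⟨z, Metric.mem_closedBall_self (by positivity)⟩ hqc.continuousOn
  have hqy : q y₀ < M := hball y₀ (by
    have := Metric.mem_closedBall.1 hy₀
    linarith)
  set ε : ℝ := (M - q y₀) / 2 with hε
  have hε0 : 0 < ε := by rw [hε]; linarith
  set c : ℝ := Real.exp (-α * ρ ^ 2) with hc
  have hc0 : 0 < c := Real.exp_pos _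
  set u : E → ℝ := fun x => q x + ε * bar α z x with hu
  have hbar2 : ContDiff ℝ 2 (bar α z) := contDiff_bar α z
  have hbar1 : Differentiable ℝ (bar α z) := hbar2.differentiable (by norm_num)
  have hu2 : ContDiff ℝ 2 u := hq.add (contDiff_const.mul hbar2)
  have hu1 : Differentiable ℝ u := hu2.differentiable (by norm_num)
  -- values on the sphere
  have hsph : ∀ x, dist x z = ρ → bar α z x = c := by
    intro x hx
    unfold bar
    rw [← dist_eq_norm, hx]
  have hbar_le : ∀ x, bar α z x ≤ 1 := by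
    intro x
    unfold bar
    rw [Real.exp_le_one_iff]
    have : 0 ≤ α * ‖x - z‖ ^ 2 := by positivity
    linarith
  have hx₁d : dist x₁ z = ρ := by rw [dist_comm]; exact hx₁.symm
  have hux₁ : u x₁ = M + ε * c := by
    simp only [hu]
    rw [hsph x₁ hx₁d, show q x₁ = M from hx₁S]
  -- maximum of `u` on the closed ball
  obtain ⟨x₂, hx₂, hx₂m⟩ := (isCompact_closedBall z ρ).exists_isMaxOn
    ⟨z, Metric.mem_closedBall_self hρ0.le⟩ hu2.continuous.continuousOn
  have hx₁B : x₁ ∈ Metric.closedBall z ρ := Metric.mem_closedBall.2 hx₁d.le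
  have hge : M + ε * c ≤ u x₂ := by rw [← hux₁]; exact hx₂m hx₁B
  have hx₂' : dist x₂ z ≤ ρ := Metric.mem_closedBall.1 hx₂
  have hx₂far : ρ / 2 < dist x₂ z := by
    by_contra hcc
    push Not at hcc
    have h1 : q x₂ ≤ q y₀ := hy₀m (Metric.mem_closedBall.2 hcc)
    have h2 : u x₂ ≤ q y₀ + ε * 1 := by
      simp only [hu]
      have := mul_le_mul_of_nonneg_left (hbar_le x₂) hε0.le
      linarith
    have h3 : 0 < ε * c := by positivity
    have h4 : M = q y₀ + 2 * ε := by rw [hε]; ring
    linarith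
  have hx₂s : dist x₂ z = ρ := by
    by_contra hne
    have hlt : dist x₂ z < ρ := lt_of_le_of_ne hx₂' hne
    have hloc : IsLocalMax u x₂ :=
      hx₂m.isLocalMax (Filter.mem_of_superset (Metric.isOpen_ball.mem_nhds
        (Metric.mem_ball.2 hlt)) Metric.ball_subset_closedBall)
    have hg0 : ∀ i, pd i u x₂ = 0 := fun i => pd_eq_zero_of_max hloc i
    have hl0 : lap u x₂ ≤ 0 := by
      unfold lap
      exact Finset.sum_nonpos fun i _ => pd_pd_nonpos hu2 hloc i
    have hpdu : ∀ i x, pd i u x = pd i q x + ε * pd i (bar α z) x := by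
      intro i x
      simp only [hu]
      rw [pd_add hq1 (hbar1.const_mul ε), pd_const_mul ε hbar1]
    have hpq : ∀ i, Differentiable ℝ (pd i q) := fun i =>
      (contDiff_pd (m := 1) hq (by norm_num)).differentiable (by norm_num)
    have hpb : ∀ i, Differentiable ℝ (pd i (bar α z)) := fun i =>
      (contDiff_pd (m := 1) hbar2 (by norm_num)).differentiable (by norm_num)
    have hlapu : lap u x₂ = lap q x₂ + ε * lap (bar α z) x₂ := by
      unfold lap
      rw [Finset.mul_sum, ← Finset.sum_add_distrib]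
      refine Finset.sum_congr rfl fun i _ => ?_
      have : pd i u = fun y => pd i q y + ε * pd i (bar α z) y := by funext y; exact hpdu i y
      rw [this, pd_add (hpq i) ((hpb i).const_mul ε), pd_const_mul ε (hpb i)]
    have hdotu : dot b (grad u) x₂ = dot b (grad q) x₂ + ε * dot b (grad (bar α z)) x₂ := by
      unfold dot grad
      rw [Finset.mul_sum, ← Finset.sum_add_distrib]
      refine Finset.sum_congr rfl fun i _ => ?_
      rw [hpdu]; ring
    have hdotu0 : dot b (grad u) x₂ = 0 := by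
      unfold dot grad
      exact Finset.sum_eq_zero fun i _ => by rw [hg0]; ring
    have hdotb : dot b (grad (bar α z)) x₂ = -(2 * α) * bar α z x₂ * D x₂ := by
      unfold dot grad
      simp only [hD]
      rw [Finset.mul_sum]
      refine Finset.sum_congr rfl fun i _ => ?_
      rw [pd_bar]; ring
    have hDb : |D x₂| ≤ B := hB x₂ hx₂
    have hbpos : 0 < bar α z x₂ := Real.exp_pos _
    have hneg : -ν * lap (bar α z) x₂ + dot b (grad (bar α z)) x₂ < 0 := by
      rw [lap_bar, hdotb]
      have e : -ν * (-(2 * α) * (3 - 2 * α * ‖x₂ - z‖ ^ 2) * bar α z x₂)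
            + -(2 * α) * bar α z x₂ * D x₂
          = (2 * α * bar α z x₂) * (3 * ν - 2 * α * ν * ‖x₂ - z‖ ^ 2 - D x₂) := by ring
      rw [e]
      apply mul_neg_of_pos_of_neg (by positivity)
      have h1 : (ρ / 2) ^ 2 ≤ ‖x₂ - z‖ ^ 2 := by
        rw [← dist_eq_norm]
        exact pow_le_pow_left₀ (by positivity) hx₂far.le 2
      have h2 : 2 * α * ν * (ρ / 2) ^ 2 ≤ 2 * α * ν * ‖x₂ - z‖ ^ 2 :=
        mul_le_mul_of_nonneg_left h1 (by positivity)
      have h3 := (abs_le.1 hDb).1
      linarith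
    have hLq := hL x₂
    have h5 : -ν * lap u x₂ + dot b (grad u) x₂ < 0 := by
      rw [hlapu, hdotu]
      have := mul_neg_of_pos_of_neg hε0 hneg
      linarith
    rw [hdotu0] at h5
    have h6 : 0 ≤ ν * (- lap u x₂) := mul_nonneg hν.le (by linarith)
    linarith
  -- hence `u ≤ M + ε c` on the closed ball
  have hule : ∀ x ∈ Metric.closedBall z ρ, u x ≤ u x₁ := by
    intro x hx
    have h1 : u x ≤ u x₂ := hx₂m hx
    have h2 : u x₂ ≤ M + ε * c := by
      simp only [hu]
      rw [hsph x₂ hx₂s]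
      have := hmax x₂
      linarith
    rw [hux₁]; linarith
  have hmaxOn : IsLocalMaxOn u (Metric.closedBall z ρ) x₁ :=
    (show IsMaxOn u (Metric.closedBall z ρ) x₁ from hule).localize
  have hcone : z - x₁ ∈ posTangentConeAt (Metric.closedBall z ρ) x₁ := by
    apply mem_posTangentConeAt_of_segment_subset
    have : x₁ + (z - x₁) = z := by abel
    rw [this]
    exact (convex_closedBall z ρ).segment_subset hx₁B (Metric.mem_closedBall_self hρ0.le)
  have hfd : fderiv ℝ u x₁ (z - x₁) ≤ 0 :=
    hmaxOn.hasFDerivWithinAt_nonpos (hu1 x₁).hasFDerivAt.hasFDerivWithinAt hcone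
  have hqmax : IsLocalMax q x₁ := Filter.Eventually.of_forall fun x => by
    rw [show q x₁ = M from hx₁S]; exact hmax x
  have hfu : fderiv ℝ u x₁ (z - x₁) = ε * (2 * α * ρ ^ 2 * c) := by
    have e1 : fderiv ℝ u x₁ = fderiv ℝ q x₁ + ε • fderiv ℝ (bar α z) x₁ := by
      simp only [hu]
      rw [fderiv_fun_add (hq1 x₁) ((hbar1 x₁).const_mul ε), fderiv_const_mul (hbar1 x₁)]
    rw [e1, hqmax.fderiv_eq_zero]
    simp only [_root_.smul_apply, smul_eq_mul, zero_add]
    rw [fderiv_bar, hsph x₁ hx₁d]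
    have e2 : inner ℝ (x₁ - z) (z - x₁) = - ρ ^ 2 := by
      have : z - x₁ = - (x₁ - z) := by abel
      rw [this, inner_neg_right, real_inner_self_eq_norm_sq, ← dist_eq_norm, hx₁d]
    rw [e2]; ring
  rw [hfu] at hfd
  have : 0 < ε * (2 * α * ρ ^ 2 * c) := by positivity
  linarith

end Leray
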