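import Mathlib

/-!
Iteration lemma (real analysis): `R_j = R (2 - 2^(-j))`, `δ_j = R 2^(-j-3)`, so `R_j / δ_j ≤ 2^(j+4)`.
-/

open Filter Topology

noncomputable section
namespace Leray

/-- A bounded sequence with `a j ≤ p + q j + κ a (j+1)` satisfies
`a 0 ≤ (p + κ β) / (1 - κ)` with `β = q / (1 - κ)`. -/
theorem IterLoc.seq_bound (a : ℕ → ℝ) (p q κ M : ℝ) (hκ0 : 0 < κ) (hκ : κ < 1)
    (hM : ∀ j, a j ≤ M) (hp : 0 ≤ p) (hq : 0 ≤ q)
    (h : ∀ j : ℕ, a j ≤ p + q * j + κ * a (j + 1)) :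
    a 0 ≤ (p + κ * (q / (1 - κ))) / (1 - κ) := by
  have h1 : 0 < 1 - κ := by linarith
  set β := q / (1 - κ) with hβ
  set α := (p + κ * β) / (1 - κ) with hα
  have hβ1 : β * (1 - κ) = q := by rw [hβ]; field_simp
  have hα1 : α * (1 - κ) = p + κ * β := by rw [hα]; field_simp
  have hβ0 : 0 ≤ β := by rw [hβ]; positivity
  have hα0 : 0 ≤ α := by rw [hα]; positivity
  have key : ∀ n : ℕ, a 0 - α ≤ κ ^ n * (a n - (α + β * n)) := by
    intro n
    induction n with
    | zero => simp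
    | succ n ih =>
      refine ih.trans ?_
      rw [pow_succ, mul_assoc]
      refine mul_le_mul_of_nonneg_left ?_ (by positivity)
      have h2 := h n
      push_cast
      nlinarith
  have key2 : ∀ n : ℕ, a 0 - α ≤ κ ^ n * |M| := by
    intro n
    refine (key n).trans (mul_le_mul_of_nonneg_left ?_ (by positivity))
    have h3 : 0 ≤ α + β * n := by positivity
    have h4 := hM n
    have h5 := le_abs_self M
    linarith
  have hlim : Tendsto (fun n : ℕ => κ ^ n * |M|) atTop (𝓝 (0 * |M|)) :=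
    (tendsto_pow_atTop_nhds_zero_of_lt_one hκ0.le hκ).mul_const _
  rw [zero_mul] at hlim
  have := ge_of_tendsto' hlim key2
  linarith

/-- Iteration of a local bound with a power of the enlarged function. -/
theorem iter_loc (f A : ℝ → ℝ) (hf : Monotone f) (hf0 : ∀ r, 0 ≤ f r) (hA : Monotone A)
    (hA1 : ∀ r, 1 ≤ A r)
    (C K κ : ℝ) (hC : 0 < C) (hK : 0 < K) (hκ0 : 0 < κ) (hκ : κ < 1)
    (h : ∀ R δ : ℝ, 1 ≤ R → 0 < δ → δ ≤ R →
      f R ≤ C * (R / δ * A (R + 4 * δ)) ^ K * (1 + f (R + 4 * δ)) ^ κ) :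
    ∃ C' K' : ℝ, 0 < C' ∧ 0 < K' ∧ ∀ R : ℝ, 1 ≤ R → f R ≤ C' * A (2 * R) ^ K' := by
  have h1 : 0 < 1 - κ := by linarith
  set D : ℝ := Real.log (1 + C) + K * (4 * Real.log 2) with hD
  set q : ℝ := K * Real.log 2 with hq
  have hlog2 : 0 < Real.log 2 := Real.log_pos (by norm_num)
  have hlogC : 0 < Real.log (1 + C) := Real.log_pos (by linarith)
  refine ⟨Real.exp ((D + κ * (q / (1 - κ))) / (1 - κ)), K / (1 - κ), Real.exp_pos _,
    by positivity, ?_⟩
  intro R hR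
  have hR0 : 0 < R := by linarith
  set L : ℝ := Real.log (A (2 * R)) with hL
  have hA2 : 0 < A (2 * R) := lt_of_lt_of_le one_pos (hA1 _)
  have hL0 : 0 ≤ L := Real.log_nonneg (hA1 _)
  -- radii
  set ρ : ℕ → ℝ := fun j => R * (2 - (1 / 2) ^ j) with hρ
  have hpow : ∀ j : ℕ, 0 < ((1 : ℝ) / 2) ^ j := fun j => by positivity
  have hpow1 : ∀ j : ℕ, ((1 : ℝ) / 2) ^ j ≤ 1 := fun j =>
    pow_le_one₀ (by norm_num) (by norm_num)
  have hρ1 : ∀ j, R ≤ ρ j := by
    intro j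
    have := hpow1 j
    simp only [hρ]
    nlinarith
  have hρ2 : ∀ j, ρ j ≤ 2 * R := by
    intro j
    have := hpow j
    simp only [hρ]
    nlinarith
  have hpos : ∀ r, 0 < 1 + f r := fun r => by have := hf0 r; linarith
  set a : ℕ → ℝ := fun j => Real.log (1 + f (ρ j)) with ha
  have hstep : ∀ j : ℕ, a j ≤ (D + K * L) + q * j + κ * a (j + 1) := by
    intro j
    set δ : ℝ := R * (1 / 2) ^ j / 8 with hδ
    have hδ0 : 0 < δ := by have := hpow j; positivity
    have hδR : δ ≤ ρ j := by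
      refine le_trans ?_ (hρ1 j)
      have := hpow1 j
      rw [hδ]
      nlinarith
    have hnext : ρ j + 4 * δ = ρ (j + 1) := by
      simp only [hρ, hδ, pow_succ]
      ring
    have h2 := h (ρ j) δ (hR.trans (hρ1 j)) hδ0 hδR
    rw [hnext] at h2
    have hAn : 1 ≤ A (ρ (j + 1)) := hA1 _
    have hAle : A (ρ (j + 1)) ≤ A (2 * R) := hA (hρ2 _)
    have hratio : ρ j / δ ≤ 2 ^ (j + 4) := by
      rw [div_le_iff₀ hδ0]
      have e : (2 : ℝ) ^ (j + 4) * δ = 2 * R := by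
        have e2 : (2 : ℝ) ^ j * (1 / 2) ^ j = 1 := by
          rw [← mul_pow]; norm_num
        rw [hδ, pow_add]
        calc (2 : ℝ) ^ j * 2 ^ 4 * (R * (1 / 2) ^ j / 8)
            = ((2 : ℝ) ^ j * (1 / 2) ^ j) * (2 * R) := by ring
          _ = 2 * R := by rw [e2, one_mul]
      rw [e]
      exact hρ2 j
    have hratio1 : 1 ≤ ρ j / δ := by
      rw [le_div_iff₀ hδ0]; linarith
    have hx : ρ j / δ * A (ρ (j + 1)) ≤ 2 ^ (j + 4) * A (2 * R) :=
      mul_le_mul hratio hAle (by linarith) (by positivity)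
    have hx0 : 0 ≤ ρ j / δ * A (ρ (j + 1)) := by
      have : 0 ≤ A (ρ (j + 1)) := by linarith
      positivity
    have hy : (ρ j / δ * A (ρ (j + 1))) ^ K ≤ (2 ^ (j + 4) * A (2 * R)) ^ K :=
      Real.rpow_le_rpow hx0 hx hK.le
    have hz : 1 ≤ (1 + f (ρ (j + 1))) ^ κ :=
      Real.one_le_rpow (by have := hf0 (ρ (j + 1)); linarith) hκ0.le
    have hw : (1 : ℝ) ≤ (2 ^ (j + 4) * A (2 * R)) ^ K := by
      refine Real.one_le_rpow ?_ hK.le
      have e1 : (1 : ℝ) ≤ 2 ^ (j + 4) := one_le_pow₀ (by norm_num)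
      have e2 := hA1 (2 * R)
      nlinarith
    have hfin : 1 + f (ρ j) ≤ (1 + C) * (2 ^ (j + 4) * A (2 * R)) ^ K *
        (1 + f (ρ (j + 1))) ^ κ := by
      have e1 : C * (ρ j / δ * A (ρ (j + 1))) ^ K * (1 + f (ρ (j + 1))) ^ κ ≤
          C * (2 ^ (j + 4) * A (2 * R)) ^ K * (1 + f (ρ (j + 1))) ^ κ := by
        gcongr
      have e2 : (1 : ℝ) ≤ (2 ^ (j + 4) * A (2 * R)) ^ K * (1 + f (ρ (j + 1))) ^ κ := by
        nlinarith
      nlinarith
    have hlog := Real.log_le_log (hpos _) hfin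
    have hne1 : (1 + C) * (2 ^ (j + 4) * A (2 * R)) ^ K ≠ 0 := by positivity
    have hne2 : (1 + f (ρ (j + 1))) ^ κ ≠ 0 := (Real.rpow_pos_of_pos (hpos _) _).ne'
    have hne3 : (2 ^ (j + 4) * A (2 * R)) ^ K ≠ 0 := by positivity
    rw [Real.log_mul hne1 hne2, Real.log_mul (by positivity) hne3,
      Real.log_rpow (by positivity), Real.log_rpow (hpos _),
      Real.log_mul (by positivity) hA2.ne', Real.log_pow] at hlog
    simp only [ha]
    refine hlog.trans (le_of_eq ?_)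
    rw [hD, hq, hL]
    push_cast
    ring
  have hM : ∀ j, a j ≤ Real.log (1 + f (2 * R)) := by
    intro j
    refine Real.log_le_log (hpos _) ?_
    have := hf (hρ2 j)
    linarith
  have hDL : 0 ≤ D + K * L := by rw [hD]; positivity
  have hb := IterLoc.seq_bound a (D + K * L) q κ _ hκ0 hκ hM hDL (by rw [hq]; positivity) hstep
  have hρ0 : ρ 0 = R := by simp only [hρ, pow_zero]; ring
  have ha0 : a 0 = Real.log (1 + f R) := by simp only [ha, hρ0]
  rw [ha0] at hb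
  have hexp : 1 + f R ≤ Real.exp ((D + K * L + κ * (q / (1 - κ))) / (1 - κ)) := by
    rw [← Real.exp_log (hpos R)]
    exact Real.exp_le_exp.mpr hb
  have hsplit : (D + K * L + κ * (q / (1 - κ))) / (1 - κ) =
      (D + κ * (q / (1 - κ))) / (1 - κ) + L * (K / (1 - κ)) := by
    field_simp
    ring
  rw [hsplit, Real.exp_add] at hexp
  have hAr : Real.exp (L * (K / (1 - κ))) = A (2 * R) ^ (K / (1 - κ)) := by
    rw [Real.rpow_def_of_pos hA2]
  rw [hAr] at hexp
  linarith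

end Leray
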