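import Pool.Agent.Lib.MP_9b9638_an.KerSym

/-! # Leray profiles, REG-B: the kernels and their limits -/

open MeasureTheory Set Filter Topology TopologicalSpace

noncomputable section
namespace Leray
namespace RB

/-- support condition -/
def Sp (F : EP → ℝ) : Prop := ∀ p : EP, 3 / 4 < ‖p.1‖ → F p = 0

theorem Sp.pz {F : EP → ℝ} (h : Sp F) (i : Fin 3) : Sp (RB.pz i F) := by
  intro p hp
  have h1 : F =ᶠ[𝓝 p] fun _ => 0 := by
    have : IsOpen {q : EP | 3 / 4 < ‖q.1‖} := isOpen_lt continuous_const continuous_fst.norm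
    filter_upwards [this.mem_nhds hp] with q hq using h q hq
  unfold RB.pz
  rw [h1.fderiv_eq]
  simp

theorem Sp.add {F G : EP → ℝ} (hF : Sp F) (hG : Sp G) : Sp (fun p => F p + G p) := fun p hp => by
  simp only [hF p hp, hG p hp, add_zero]

theorem Sp.const_mul {F : EP → ℝ} (hF : Sp F) (c : ℝ) : Sp (fun p => c * F p) := fun p hp => by
  simp only [hF p hp, mul_zero]

theorem Sp.mul_left {F : EP → ℝ} (hF : Sp F) (η : EP → ℝ) : Sp (fun p => η p * F p) := fun p hp => by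
  simp only [hF p hp, mul_zero]

theorem Sp.sum {ι : Type*} (s : Finset ι) {F : ι → EP → ℝ} (hF : ∀ i ∈ s, Sp (F i)) :
    Sp (fun p => ∑ i ∈ s, F i p) := fun p hp => Finset.sum_eq_zero fun i hi => hF i hi p hp

theorem ne_zero_left {z : E} {e : ℝ} (h : z ≠ 0) : ((z, e) : EP) ≠ 0 := fun h0 => h (congrArg Prod.fst h0)

theorem ne_zero_right {z : E} {e : ℝ} (h : e ≠ 0) : ((z, e) : EP) ≠ 0 := fun h0 => h (congrArg Prod.snd h0)

/-- derivative of a slice -/
theorem pd_slice {F : EP → ℝ} (hF : ContDiffOn ℝ (⊤ : ℕ∞) F {0}ᶜ) {z : E} {e : ℝ}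
    (h : ((z, e) : EP) ≠ 0) (i : Fin 3) : pd i (fun z => F (z, e)) z = pz i F (z, e) := by
  have h1 : DifferentiableAt ℝ F (z, e) := (contDiffAt_of hF h).differentiableAt (by simp)
  have h2 : HasFDerivAt (fun z : E => ((z, e) : EP)) (ContinuousLinearMap.inl ℝ E ℝ) z :=
    hasFDerivAt_prodMk_left z e
  have h3 := h1.hasFDerivAt.comp z h2
  unfold pd pz
  have h4 : fderiv ℝ (fun z => F (z, e)) z = (fderiv ℝ F (z, e)).comp (ContinuousLinearMap.inl ℝ E ℝ) :=
    h3.fderiv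
  rw [h4]
  simp

theorem contDiffOn_slice {F : EP → ℝ} (hF : ContDiffOn ℝ (⊤ : ℕ∞) F {0}ᶜ) (e : ℝ) :
    ContDiffOn ℝ (⊤ : ℕ∞) (fun z => F (z, e)) {0}ᶜ := by
  apply hF.comp (contDiff_prodMk_left e).contDiffOn
  intro z hz
  exact ne_zero_left hz

theorem contDiff_slice {F : EP → ℝ} (hF : ContDiffOn ℝ (⊤ : ℕ∞) F {0}ᶜ) {e : ℝ} (he : e ≠ 0) :
    ContDiff ℝ (⊤ : ℕ∞) (fun z => F (z, e)) := by
  rw [← contDiffOn_univ]
  apply hF.comp (contDiff_prodMk_left e).contDiffOn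
  intro z _
  exact ne_zero_right he

theorem norm_left (z : E) : ‖((z, 0) : EP)‖ = ‖z‖ := by
  rw [Prod.norm_def]; simp

theorem ker_slice {F : EP → ℝ} (hF : Sy (-2) F) (hs : Sp F) : Ker (fun z => F (z, 0)) := by
  refine ⟨fun z hz => hs _ (by show 3 / 4 < ‖z‖; linarith), contDiffOn_slice hF.smooth 0, ?_, ?_⟩
  · obtain ⟨C, hC0, hC⟩ := hF.abs_le
    refine ⟨C, fun z hz => ?_⟩
    rcases le_or_gt ‖z‖ 2 with h2 | h2
    · have := hC (z, 0) (ne_zero_left hz) (by rw [norm_left]; exact h2)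
      rw [norm_left] at this
      refine this.trans (le_of_eq ?_)
      rw [zpow_neg, div_eq_mul_inv]
      norm_cast
    · rw [hs _ (by show 3 / 4 < ‖z‖; linarith), abs_zero]
      positivity
  · have h3 : ∀ i, ∃ C : ℝ, 0 ≤ C ∧ ∀ p : EP, p ≠ 0 → ‖p‖ ≤ 2 → |pz i F p| ≤ C * ‖p‖ ^ ((-2 : ℤ) - 1) :=
      fun i => (hF.pz i).abs_le
    choose C hC0 hC using h3
    refine ⟨∑ i, C i, fun z hz i => ?_⟩
    rw [pd_slice hF.smooth (ne_zero_left hz)]
    have hCi : C i ≤ ∑ i, C i := Finset.single_le_sum (fun j _ => hC0 j) (Finset.mem_univ i)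
    rcases le_or_gt ‖z‖ 2 with h2 | h2
    · have := hC i (z, 0) (ne_zero_left hz) (by rw [norm_left]; exact h2)
      rw [norm_left] at this
      refine this.trans ?_
      have e : ‖z‖ ^ ((-2 : ℤ) - 1) = (‖z‖ ^ 3)⁻¹ := by
        rw [show ((-2 : ℤ) - 1) = -(3 : ℕ) by norm_num, zpow_neg, zpow_natCast]
      rw [e, div_eq_mul_inv]
      exact mul_le_mul_of_nonneg_right hCi (by positivity)
    · rw [hs.pz i _ (by show 3 / 4 < ‖z‖; linarith), abs_zero]
      exact div_nonneg (Finset.sum_nonneg fun j _ => hC0 j) (by positivity)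

theorem diffAt_ker {K : E → ℝ} (h : Ker K) {z : E} (hz : z ≠ 0) : DifferentiableAt ℝ K z :=
  (h.smooth.contDiffAt (isOpen_compl_singleton.mem_nhds hz)).differentiableAt (by simp)

theorem ker_add {K L : E → ℝ} (hK : Ker K) (hL : Ker L) : Ker (fun z => K z + L z) := by
  obtain ⟨C, hC⟩ := hK.bd
  obtain ⟨D, hD⟩ := hL.bd
  obtain ⟨C', hC'⟩ := hK.bd1
  obtain ⟨D', hD'⟩ := hL.bd1
  refine ⟨fun z hz => by rw [hK.supp z hz, hL.supp z hz, add_zero], hK.smooth.add hL.smooth,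
    ⟨C + D, fun z hz => ?_⟩, ⟨C' + D', fun z hz i => ?_⟩⟩
  · rw [add_div]
    exact (abs_add_le _ _).trans (add_le_add (hC z hz) (hD z hz))
  · rw [pd_add_at (diffAt_ker hK hz) (diffAt_ker hL hz), add_div]
    exact (abs_add_le _ _).trans (add_le_add (hC' z hz i) (hD' z hz i))

theorem ker_const_mul {K : E → ℝ} (hK : Ker K) (c : ℝ) : Ker (fun z => c * K z) := by
  obtain ⟨C, hC⟩ := hK.bd
  obtain ⟨C', hC'⟩ := hK.bd1
  refine ⟨fun z hz => by rw [hK.supp z hz, mul_zero], contDiffOn_const.mul hK.smooth,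
    ⟨|c| * C, fun z hz => ?_⟩, ⟨|c| * C', fun z hz i => ?_⟩⟩
  · rw [abs_mul, mul_div_assoc]
    exact mul_le_mul_of_nonneg_left (hC z hz) (abs_nonneg c)
  · rw [pd_const_mul_at c (diffAt_ker hK hz), abs_mul, mul_div_assoc]
    exact mul_le_mul_of_nonneg_left (hC' z hz i) (abs_nonneg c)

theorem ker_neg {K : E → ℝ} (hK : Ker K) : Ker (fun z => K (-z)) := by
  obtain ⟨C, hC⟩ := hK.bd
  obtain ⟨C', hC'⟩ := hK.bd1
  refine ⟨fun z hz => hK.supp (-z) (by rwa [norm_neg]), ?_, ⟨C, fun z hz => ?_⟩,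
    ⟨C', fun z hz i => ?_⟩⟩
  · apply hK.smooth.comp contDiff_neg.contDiffOn
    intro z hz
    exact neg_ne_zero.2 hz
  · have := hC (-z) (neg_ne_zero.2 hz)
    rwa [norm_neg] at this
  · have h1 : pd i (fun z => K (-z)) z = - pd i K (-z) := by
      have h2 := (diffAt_ker hK (neg_ne_zero.2 hz)).hasFDerivAt.comp z (hasFDerivAt_id z).neg
      have h3 : fderiv ℝ (fun z => K (-z)) z = (fderiv ℝ K (-z)).comp (-(ContinuousLinearMap.id ℝ E)) :=
        h2.fderiv
      unfold pd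
      rw [h3]
      simp
    rw [h1, abs_neg]
    have := hC' (-z) (neg_ne_zero.2 hz) i
    rwa [norm_neg] at this

theorem ker_zero : Ker (fun _ : E => (0:ℝ)) :=
  ⟨fun _ _ => rfl, contDiffOn_const, ⟨0, fun z _ => by simp⟩, ⟨0, fun z _ i => by
    rw [pd_const]; simp⟩⟩

theorem ker_sum {ι : Type*} (s : Finset ι) {K : ι → E → ℝ} (hK : ∀ i ∈ s, Ker (K i)) :
    Ker (fun z => ∑ i ∈ s, K i z) := by
  classical
  induction s using Finset.induction_on with
  | empty => simpa using ker_zero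
  | insert a s ha ih =>
    have h1 := ker_add (hK a (Finset.mem_insert_self a s))
      (ih fun i hi => hK i (Finset.mem_insert_of_mem hi))
    refine cast ?_ h1
    congr 1
    funext p
    rw [Finset.sum_insert ha]

/-! ### integrability of `|z|⁻²` -/

/-- the dominating function -/
def dom (z : E) : ℝ := Set.indicator (Iic (1:ℝ)) (fun s => (s ^ 2)⁻¹) ‖z‖

theorem integrable_dom : Integrable dom := by
  unfold dom
  rw [integrable_fun_norm_addHaar (μ := (volume : Measure E))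
    (f := fun s => Set.indicator (Iic (1:ℝ)) (fun s => (s ^ 2)⁻¹) s)]
  have hd : Module.finrank ℝ E = 3 := by simp
  rw [hd]
  have h1 : IntegrableOn (fun _ : ℝ => (1:ℝ)) (Ioc 0 1) := by
    rw [integrableOn_const_iff]; right; simp
  have h2 : IntegrableOn (fun y : ℝ => y ^ (3 - 1) • Set.indicator (Iic (1:ℝ)) (fun s => (s ^ 2)⁻¹) y)
      (Ioc 0 1) := by
    apply h1.congr_fun _ measurableSet_Ioc
    intro y hy
    rw [mem_Ioc] at hy
    simp only
    rw [indicator_of_mem (by exact hy.2), smul_eq_mul]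
    have : y ^ 2 ≠ 0 := pow_ne_zero _ hy.1.ne'
    norm_num
    rw [mul_inv_cancel₀ this]
  have h3 : IntegrableOn (fun y : ℝ => y ^ (3 - 1) • Set.indicator (Iic (1:ℝ)) (fun s => (s ^ 2)⁻¹) y)
      (Ioi 1) := by
    have h0 : IntegrableOn (fun _ : ℝ => (0:ℝ)) (Ioi 1) := integrableOn_zero
    apply h0.congr_fun _ measurableSet_Ioi
    intro y hy
    rw [mem_Ioi] at hy
    simp only
    rw [indicator_of_notMem (by rw [mem_Iic]; linarith), smul_zero]
  have := h2.union h3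
  rwa [Ioc_union_Ioi_eq_Ioi zero_le_one] at this

end RB
end Leray
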