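import Pool.Agent.Lib.MP_9b9638_an.Defs

/-! # Leray profiles: kernels and the representation formula (definitions shared by REG-B and REG-C) -/

open MeasureTheory Set Filter Topology TopologicalSpace

noncomputable section
namespace Leray

/-- convolution kernels supported in the unit ball, smooth off the origin, of size `|z|⁻²` -/
structure Ker (K : E → ℝ) : Prop where
  supp : ∀ z : E, 1 ≤ ‖z‖ → K z = 0
  smooth : ContDiffOn ℝ (⊤ : ℕ∞) K {0}ᶜ
  bd : ∃ C : ℝ, ∀ z : E, z ≠ 0 → |K z| ≤ C / ‖z‖ ^ 2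
  bd1 : ∃ C : ℝ, ∀ z : E, z ≠ 0 → ∀ i, |pd i K z| ≤ C / ‖z‖ ^ 3

/-- convolution -/
def cv (K g : E → ℝ) (x : E) : ℝ := ∫ z, K z * g (x - z)

/-- the representation formula -/
def Rep (K0 : E → ℝ) (K1 : Fin 3 → E → ℝ) (A : Fin 3 → Fin 3 → Fin 3 → E → ℝ) (U : VF) : VF :=
  fun k x => cv K0 (U k) x + (∑ m, x m * cv (K1 m) (U k) x)
    + ∑ i, ∑ j, cv (A k i j) (fun y => U i y * U j y) x

end Leray
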