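import Pool.Agent.Lib.MP_9b9638_an.KerBase
import Pool.Agent.Lib.MP_9b9638_an.Cutoff

/-! # Leray profiles, REG-B: limits of the regularised kernels -/

open MeasureTheory Set Filter Topology TopologicalSpace

noncomputable section
namespace Leray
namespace RB

theorem nfst_le (z : E) (e : ℝ) : ‖z‖ ≤ ‖((z, e) : EP)‖ := _root_.norm_fst_le ((z, e) : EP)

theorem norm_pair_le {z : E} {e : ℝ} (hz : ‖z‖ ≤ 1) (he : |e| ≤ 1) : ‖((z, e) : EP)‖ ≤ 2 := by
  rw [Prod.norm_def]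
  simp only [Real.norm_eq_abs]
  exact (max_le hz he).trans (by norm_num)

theorem dom_nonneg (z : E) : 0 ≤ dom z := by
  unfold dom
  exact indicator_nonneg (fun s _ => by positivity) _

theorem dom_of_le {z : E} (h : ‖z‖ ≤ 1) : dom z = (‖z‖ ^ 2)⁻¹ := by
  unfold dom
  rw [indicator_of_mem (by exact h)]

theorem ae_ne_zero : ∀ᵐ z : E, z ≠ 0 := by
  rw [ae_iff]
  simp

/-- bound for the slices of a function of order `-2` -/
theorem slice_bound {F : EP → ℝ} (hF : Sy (-2) F) (hs : Sp F) : ∃ C : ℝ, 0 ≤ C ∧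
    ∀ (z : E) (e : ℝ), z ≠ 0 → |e| ≤ 1 → |F (z, e)| ≤ C * dom z := by
  obtain ⟨C, hC0, hC⟩ := hF.abs_le
  refine ⟨C, hC0, fun z e hz he => ?_⟩
  rcases le_or_gt ‖z‖ 1 with h1 | h1
  · have h2 := hC (z, e) (ne_zero_left hz) (norm_pair_le h1 he)
    rw [dom_of_le h1]
    refine h2.trans (mul_le_mul_of_nonneg_left ?_ hC0)
    have hz0 : 0 < ‖z‖ := norm_pos_iff.2 hz
    have h3 := nfst_le z e
    rw [zpow_neg]
    have e1 : ‖((z, e) : EP)‖ ^ (2 : ℤ) = ‖((z, e) : EP)‖ ^ 2 := by norm_cast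
    rw [e1]
    apply inv_anti₀ (by positivity)
    exact pow_le_pow_left₀ hz0.le h3 2
  · rw [hs _ (by show 3 / 4 < ‖z‖; linarith), abs_zero]
    exact mul_nonneg hC0 (dom_nonneg z)

theorem measurable_slice {F : EP → ℝ} (hF : ContDiffOn ℝ (⊤ : ℕ∞) F {0}ᶜ) (e : ℝ) :
    AEStronglyMeasurable (fun z => F (z, e)) (volume : Measure E) := by
  have h1 : AEStronglyMeasurable (fun z => F (z, e)) ((volume : Measure E).restrict {0}ᶜ) :=
    (contDiffOn_slice hF e).continuousOn.aestronglyMeasurable (isOpen_compl_singleton.measurableSet)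
  have h2 : (volume : Measure E).restrict {0}ᶜ = volume := by
    apply Measure.restrict_eq_self_of_ae_mem
    filter_upwards [ae_ne_zero] with z hz using hz
  rwa [h2] at h1

theorem integrable_slice {F : EP → ℝ} (hF : Sy (-2) F) (hs : Sp F) {e : ℝ} (he : |e| ≤ 1) :
    Integrable (fun z => F (z, e)) := by
  obtain ⟨C, hC0, hC⟩ := slice_bound hF hs
  apply (integrable_dom.const_mul C).mono' (measurable_slice hF.smooth e)
  filter_upwards [ae_ne_zero] with z hz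
  rw [Real.norm_eq_abs]
  exact hC z e hz he

theorem tendsto_slice_at {F : EP → ℝ} (hF : ContDiffOn ℝ (⊤ : ℕ∞) F {0}ᶜ) {z : E} (hz : z ≠ 0) :
    Tendsto (fun e : ℝ => F (z, e)) (𝓝[>] 0) (𝓝 (F (z, 0))) := by
  have h1 : ContinuousAt F (z, 0) := (contDiffAt_of hF (ne_zero_left hz)).continuousAt
  have h2 : Tendsto (fun e : ℝ => ((z, e) : EP)) (𝓝[>] 0) (𝓝 (z, 0)) := by
    apply Tendsto.mono_left _ nhdsWithin_le_nhds
    exact (continuous_const.prodMk continuous_id).continuousAt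
  exact h1.tendsto.comp h2

theorem eventually_small : ∀ᶠ e : ℝ in 𝓝[>] 0, 0 < e ∧ |e| ≤ 1 := by
  have h1 : Ioo (0:ℝ) 1 ∈ 𝓝[>] (0:ℝ) := Ioo_mem_nhdsGT zero_lt_one
  filter_upwards [h1] with e he
  exact ⟨he.1, by rw [abs_of_pos he.1]; exact he.2.le⟩

theorem bound_on_ball {G : E → ℝ} (hG : Continuous G) : ∃ B : ℝ, 0 ≤ B ∧ ∀ z : E, ‖z‖ ≤ 1 → |G z| ≤ B := by
  obtain ⟨B, hB⟩ := (isCompact_closedBall (0 : E) 1).exists_bound_of_continuousOn hG.continuousOn
  refine ⟨max B 0, le_max_right _ _, fun z hz => (hB z (by simpa using hz)).trans (le_max_left _ _)⟩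

theorem tendsto_slice {F : EP → ℝ} (hF : Sy (-2) F) (hs : Sp F) {G : E → ℝ} (hG : Continuous G) :
    Tendsto (fun e : ℝ => ∫ z, F (z, e) * G z) (𝓝[>] 0) (𝓝 (∫ z, F (z, 0) * G z)) := by
  obtain ⟨C, hC0, hC⟩ := slice_bound hF hs
  obtain ⟨B, hB0, hB⟩ := bound_on_ball hG
  apply tendsto_integral_filter_of_dominated_convergence (fun z => C * B * dom z)
  · filter_upwards with e
    exact (measurable_slice hF.smooth e).mul hG.aestronglyMeasurable
  · filter_upwards [eventually_small] with e he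
    filter_upwards [ae_ne_zero] with z hz
    rw [norm_mul, Real.norm_eq_abs, Real.norm_eq_abs]
    rcases le_or_gt ‖z‖ 1 with h1 | h1
    · calc |F (z, e)| * |G z| ≤ (C * dom z) * B :=
            mul_le_mul (hC z e hz he.2) (hB z h1) (abs_nonneg _) (mul_nonneg hC0 (dom_nonneg z))
        _ = C * B * dom z := by ring
    · rw [hs _ (by show 3 / 4 < ‖z‖; linarith), abs_zero, zero_mul]
      exact mul_nonneg (mul_nonneg hC0 hB0) (dom_nonneg z)
  · exact integrable_dom.const_mul _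
  · filter_upwards [ae_ne_zero] with z hz
    exact (tendsto_slice_at hF.smooth hz).mul_const _

/-! ### powers of `‖z‖² + e²` -/

/-- `(‖z‖² + e²)^q` -/
def S (q : ℝ) (p : EP) : ℝ := (‖p.1‖ ^ 2 + p.2 ^ 2) ^ q

theorem base_pos {p : EP} (hp : p ≠ 0) : 0 < ‖p.1‖ ^ 2 + p.2 ^ 2 := by
  by_contra h
  apply hp
  have h1 : ‖p.1‖ ^ 2 = 0 := le_antisymm (by nlinarith [sq_nonneg ‖p.1‖, sq_nonneg p.2]) (sq_nonneg _)
  have h2 : p.2 ^ 2 = 0 := le_antisymm (by nlinarith [sq_nonneg ‖p.1‖, sq_nonneg p.2]) (sq_nonneg _)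
  ext1
  · simpa using h1
  · simpa using h2

theorem contDiff_base : ContDiff ℝ (⊤ : ℕ∞) (fun p : EP => ‖p.1‖ ^ 2 + p.2 ^ 2) := by
  exact (contDiff_fst.norm_sq ℝ).add (contDiff_snd.pow 2)

theorem contDiffOn_S (q : ℝ) : ContDiffOn ℝ (⊤ : ℕ∞) (S q) {0}ᶜ := by
  intro p hp
  unfold S
  exact (contDiff_base.contDiffAt.rpow_const_of_ne (base_pos hp).ne').contDiffWithinAt

theorem pz_S (q : ℝ) (i : Fin 3) {p : EP} (hp : p ≠ 0) : pz i (S q) p = 2 * q * p.1 i * S (q - 1) p := by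
  obtain ⟨z, e⟩ := p
  rw [← pd_slice (contDiffOn_S q) hp]
  have hb := base_pos hp
  simp only at hb
  have hd : DifferentiableAt ℝ (fun y : E => ‖y‖ ^ 2 + e ^ 2) z :=
    (((contDiff_norm_sq ℝ (n := 1)).differentiable (by norm_num)) z).add_const _
  have h1 : pd i (fun y : E => ‖y‖ ^ 2 + e ^ 2) z = 2 * z i := by
    rw [pd_add_at (((contDiff_norm_sq ℝ (n := 1)).differentiable (by norm_num)) z)
      (differentiableAt_const _), pd_normsq, pd_const, add_zero]
  have h2 : DifferentiableAt ℝ (fun s : ℝ => s ^ q) (‖z‖ ^ 2 + e ^ 2) :=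
    Real.differentiableAt_rpow_const_of_ne q hb.ne'
  have h3 := pd_comp_at (i := i) (h := fun s : ℝ => s ^ q) h2 hd
  unfold S
  simp only
  rw [h3, h1, Real.deriv_rpow_const]
  ring

/-- Laplacian in the space variable -/
def lapz (F : EP → ℝ) : EP → ℝ := fun p => ∑ i, pz i (pz i F) p

theorem pz_congr {F G : EP → ℝ} (h : ∀ p : EP, p ≠ 0 → F p = G p) (i : Fin 3) {p : EP} (hp : p ≠ 0) :
    pz i F p = pz i G p := by
  have h1 : F =ᶠ[𝓝 p] G := by
    filter_upwards [isOpen_co.mem_nhds hp] with q hq using h q hq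
  unfold pz
  rw [h1.fderiv_eq]

theorem pz_mul_at {F G : EP → ℝ} {p : EP} (hF : DifferentiableAt ℝ F p) (hG : DifferentiableAt ℝ G p)
    (i : Fin 3) : pz i (fun p => F p * G p) p = pz i F p * G p + F p * pz i G p := by
  unfold pz
  rw [fderiv_fun_mul hF hG]
  simp
  ring

theorem pz_const_mul_at {F : EP → ℝ} {p : EP} (c : ℝ) (hF : DifferentiableAt ℝ F p)
    (i : Fin 3) : pz i (fun p => c * F p) p = c * pz i F p := by
  unfold pz
  rw [fderiv_const_mul hF]
  simp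

theorem pz_coord (i j : Fin 3) (p : EP) : pz i (fun p : EP => p.1 j) p = if i = j then 1 else 0 := by
  have h : HasFDerivAt (fun p : EP => p.1 j)
      ((EuclideanSpace.proj j : E →L[ℝ] ℝ).comp (ContinuousLinearMap.fst ℝ E ℝ)) p :=
    ((EuclideanSpace.proj j : E →L[ℝ] ℝ).comp (ContinuousLinearMap.fst ℝ E ℝ)).hasFDerivAt
  unfold pz
  rw [h.fderiv]
  simp only [ContinuousLinearMap.comp_apply, ContinuousLinearMap.coe_fst']
  unfold ei
  simp [eq_comm]

theorem diffAt_S (q : ℝ) {p : EP} (hp : p ≠ 0) : DifferentiableAt ℝ (S q) p :=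
  (contDiffAt_of (contDiffOn_S q) hp).differentiableAt (by simp)

theorem S_mul_base (q : ℝ) {p : EP} (hp : p ≠ 0) : ‖p.1‖ ^ 2 * S q p = S (q + 1) p - p.2 ^ 2 * S q p := by
  unfold S
  rw [Real.rpow_add_one (base_pos hp).ne']
  ring

theorem lapz_S (q : ℝ) {p : EP} (hp : p ≠ 0) :
    lapz (S q) p = 2 * q * (2 * q + 1) * S (q - 1) p - 4 * q * (q - 1) * p.2 ^ 2 * S (q - 2) p := by
  unfold lapz
  have h1 : ∀ i, pz i (pz i (S q)) p = 2 * q * (S (q - 1) p + 2 * (q - 1) * p.1 i ^ 2 * S (q - 2) p) := by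
    intro i
    rw [pz_congr (F := pz i (S q)) (G := fun p => (2 * q) * (p.1 i * S (q - 1) p))
      (fun p hp => by rw [pz_S q i hp]; ring) i hp]
    have hd1 : DifferentiableAt ℝ (fun p : EP => p.1 i) p := by fun_prop
    rw [pz_const_mul_at _ (hd1.fun_mul (diffAt_S (q - 1) hp)), pz_mul_at hd1 (diffAt_S (q - 1) hp),
      pz_coord, if_pos rfl, pz_S (q - 1) i hp, show q - 1 - 1 = q - 2 by ring]
    ring
  simp only [h1]
  rw [← Finset.mul_sum, Finset.sum_add_distrib, Finset.sum_const, Finset.card_univ, Fintype.card_fin]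
  have h2 : ∑ i, 2 * (q - 1) * p.1 i ^ 2 * S (q - 2) p = 2 * (q - 1) * (‖p.1‖ ^ 2 * S (q - 2) p) := by
    rw [norm_sq_eq, Finset.sum_mul, Finset.mul_sum]
    apply Finset.sum_congr rfl
    intro i _
    ring
  rw [h2, S_mul_base (q - 2) hp, show q - 2 + 1 = q - 1 by ring]
  simp only [nsmul_eq_mul]
  push_cast
  ring

theorem lapz_congr {F G : EP → ℝ} (h : ∀ p : EP, p ≠ 0 → F p = G p) {p : EP} (hp : p ≠ 0) :
    lapz F p = lapz G p := by
  unfold lapz
  apply Finset.sum_congr rfl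
  intro i _
  exact pz_congr (fun p hp => pz_congr h i hp) i hp

end RB
end Leray
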