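import Pool.Agent.Lib.MP_9b9638_an.Calc
import Pool.Agent.Lib.MP_9b9638_an.KerDefs

/-! # Leray profiles, REG-B: functions on `E × ℝ` with derivative bounds at the origin -/

open MeasureTheory Set Filter Topology TopologicalSpace

noncomputable section
namespace Leray
namespace RB

/-- space and parameter -/
abbrev EP := E × ℝ

/-- derivative in the direction of the `i`-th basis vector of `E` -/
def pz (i : Fin 3) (F : EP → ℝ) : EP → ℝ := fun p => fderiv ℝ F p (ei i, 0)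

/-- smooth off the origin, derivatives of order `n` are `O(‖p‖ ^ (d - n))` on `‖p‖ ≤ 2` -/
structure Sy (d : ℤ) (F : EP → ℝ) : Prop where
  smooth : ContDiffOn ℝ (⊤ : ℕ∞) F {0}ᶜ
  bd : ∀ n : ℕ, ∃ C : ℝ, 0 ≤ C ∧ ∀ p : EP, p ≠ 0 → ‖p‖ ≤ 2 → ‖iteratedFDeriv ℝ n F p‖ ≤ C * ‖p‖ ^ (d - n)

theorem isOpen_co : IsOpen ({0}ᶜ : Set EP) := isOpen_compl_singleton

theorem contDiffAt_of {F : EP → ℝ} (h : ContDiffOn ℝ (⊤ : ℕ∞) F {0}ᶜ) {p : EP} (hp : p ≠ 0) :
    ContDiffAt ℝ (⊤ : ℕ∞) F p := h.contDiffAt (isOpen_co.mem_nhds hp)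

theorem norm_ei (i : Fin 3) : ‖ei i‖ = 1 := by
  unfold ei; simp

/-- homogeneous functions of degree one -/
theorem homog_sy {F : EP → ℝ} (hF : ContDiffOn ℝ (⊤ : ℕ∞) F {0}ᶜ)
    (hh : ∀ t : ℝ, 0 < t → ∀ p, F (t • p) = t * F p) : Sy 1 F := by
  refine ⟨hF, fun n => ?_⟩
  have hcont : ContinuousOn (fun p => ‖iteratedFDeriv ℝ n F p‖) (Metric.sphere (0 : EP) 1) := by
    apply ContinuousOn.norm
    have h1 := hF.continuousOn_iteratedFDerivWithin (m := n) (by exact_mod_cast le_top)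
      isOpen_co.uniqueDiffOn
    have h2 : ContinuousOn (iteratedFDeriv ℝ n F) {0}ᶜ :=
      h1.congr fun p hp => (iteratedFDerivWithin_of_isOpen n isOpen_co hp).symm
    apply h2.mono
    intro p hp
    rw [mem_sphere_zero_iff_norm] at hp
    intro h0
    rw [mem_singleton_iff] at h0
    rw [h0, norm_zero] at hp
    exact zero_ne_one hp
  obtain ⟨C, hC⟩ := (isCompact_sphere (0 : EP) 1).bddAbove_image hcont
  refine ⟨max C 0, le_max_right _ _, fun p hp _ => ?_⟩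
  set t : ℝ := ‖p‖ with ht
  have ht0 : 0 < t := norm_pos_iff.2 hp
  set u : EP := t⁻¹ • p with hu
  have hu1 : ‖u‖ = 1 := by
    rw [hu, norm_smul, norm_inv, Real.norm_eq_abs, abs_of_pos ht0, inv_mul_cancel₀ ht0.ne']
  have hu0 : u ≠ 0 := by
    intro h; rw [h, norm_zero] at hu1; exact zero_ne_one hu1
  have hpu : p = t • u := by rw [hu, smul_smul, mul_inv_cancel₀ ht0.ne', one_smul]
  have hCu : ‖iteratedFDeriv ℝ n F u‖ ≤ max C 0 :=
    le_trans (hC ⟨u, by simpa using hu1, rfl⟩) (le_max_left _ _)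
  let g : EP ≃L[ℝ] EP := ContinuousLinearEquiv.smulLeft (Units.mk0 t ht0.ne')
  have hg : ∀ q, g q = t • q := fun q => rfl
  have hcomp : F ∘ g = fun q => t • F q := by
    funext q
    simp only [Function.comp, hg, hh t ht0, smul_eq_mul]
  have h1 : iteratedFDeriv ℝ n (F ∘ g) u =
      (iteratedFDeriv ℝ n F (g u)).compContinuousLinearMap fun _ => (g : EP →L[ℝ] EP) := by
    have := g.iteratedFDerivWithin_comp_right F (s := univ) uniqueDiffOn_univ (x := u) (mem_univ _) n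
    simpa [iteratedFDerivWithin_univ] using this
  have h2 : iteratedFDeriv ℝ n (F ∘ g) u = t • iteratedFDeriv ℝ n F u := by
    rw [hcomp]
    exact iteratedFDeriv_const_smul_apply'
      ((contDiffAt_of hF hu0).of_le (by exact_mod_cast le_top))
  have h3 : iteratedFDeriv ℝ n F p = (t ^ n)⁻¹ • t • iteratedFDeriv ℝ n F u := by
    rw [← h2, h1]
    ext v
    have e1 : ((iteratedFDeriv ℝ n F (g u)).compContinuousLinearMap fun _ => (g : EP →L[ℝ] EP)) v =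
        t ^ n * iteratedFDeriv ℝ n F p v := by
      rw [ContinuousMultilinearMap.compContinuousLinearMap_apply]
      have e2 : (fun i => (g : EP →L[ℝ] EP) (v i)) = fun i => (fun _ : Fin n => t) i • v i := by
        funext i
        exact hg (v i)
      rw [e2, ContinuousMultilinearMap.map_smul_univ, Finset.prod_const, Finset.card_univ,
        Fintype.card_fin, smul_eq_mul, hg, ← hpu]
    rw [smul_apply, e1, smul_eq_mul, ← mul_assoc,
      inv_mul_cancel₀ (pow_ne_zero n ht0.ne'), one_mul]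
  rw [h3, norm_smul, norm_smul, norm_inv, norm_pow, Real.norm_eq_abs, abs_of_pos ht0]
  have h4 : t ^ ((1 : ℤ) - n) = (t ^ n)⁻¹ * t := by
    rw [zpow_sub₀ ht0.ne', zpow_one, zpow_natCast, div_eq_mul_inv, mul_comm]
  rw [h4]
  calc (t ^ n)⁻¹ * (t * ‖iteratedFDeriv ℝ n F u‖) ≤ (t ^ n)⁻¹ * (t * max C 0) := by gcongr
    _ = max C 0 * ((t ^ n)⁻¹ * t) := by ring

theorem Sy.mono {d d' : ℤ} {F : EP → ℝ} (h : Sy d F) (hd : d' ≤ d) : Sy d' F := by
  refine ⟨h.smooth, fun n => ?_⟩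
  obtain ⟨C, hC0, hC⟩ := h.bd n
  refine ⟨C * 2 ^ (d - d'), by positivity, fun p hp hp2 => (hC p hp hp2).trans ?_⟩
  have hp0 : 0 < ‖p‖ := norm_pos_iff.2 hp
  have e : ‖p‖ ^ (d - (n : ℤ)) = ‖p‖ ^ (d - d') * ‖p‖ ^ (d' - (n : ℤ)) := by
    rw [← zpow_add₀ hp0.ne']; congr 1; ring
  have h2 : ‖p‖ ^ (d - d') ≤ 2 ^ (d - d') := by
    obtain ⟨k, hk⟩ := Int.eq_ofNat_of_zero_le (sub_nonneg.2 hd)
    rw [hk]
    simp only [zpow_natCast]
    exact pow_le_pow_left₀ hp0.le hp2 k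
  rw [e]
  have h3 : 0 ≤ ‖p‖ ^ (d' - (n : ℤ)) := by positivity
  calc C * (‖p‖ ^ (d - d') * ‖p‖ ^ (d' - (n : ℤ)))
      ≤ C * (2 ^ (d - d') * ‖p‖ ^ (d' - (n : ℤ))) := by gcongr
    _ = _ := by ring

theorem Sy.add {d : ℤ} {F G : EP → ℝ} (hF : Sy d F) (hG : Sy d G) : Sy d (fun p => F p + G p) := by
  refine ⟨hF.smooth.add hG.smooth, fun n => ?_⟩
  obtain ⟨C, hC0, hC⟩ := hF.bd n
  obtain ⟨D, hD0, hD⟩ := hG.bd n
  refine ⟨C + D, by positivity, fun p hp hp2 => ?_⟩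
  have h1 : iteratedFDeriv ℝ n (fun p => F p + G p) p =
      iteratedFDeriv ℝ n F p + iteratedFDeriv ℝ n G p := by
    have := iteratedFDeriv_add_apply (i := n) (f := F) (g := G) (x := p)
      ((contDiffAt_of hF.smooth hp).of_le (by exact_mod_cast le_top))
      ((contDiffAt_of hG.smooth hp).of_le (by exact_mod_cast le_top))
    exact this
  rw [h1, add_mul]
  exact (norm_add_le _ _).trans (add_le_add (hC p hp hp2) (hD p hp hp2))

theorem Sy.const_mul {d : ℤ} {F : EP → ℝ} (hF : Sy d F) (c : ℝ) : Sy d (fun p => c * F p) := by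
  refine ⟨contDiffOn_const.mul hF.smooth, fun n => ?_⟩
  obtain ⟨C, hC0, hC⟩ := hF.bd n
  refine ⟨|c| * C, by positivity, fun p hp hp2 => ?_⟩
  have h1 : iteratedFDeriv ℝ n (fun p => c * F p) p = c • iteratedFDeriv ℝ n F p :=
    iteratedFDeriv_const_smul_apply' (a := c)
      ((contDiffAt_of hF.smooth hp).of_le (by exact_mod_cast le_top))
  rw [h1, norm_smul, Real.norm_eq_abs, mul_assoc]
  exact mul_le_mul_of_nonneg_left (hC p hp hp2) (abs_nonneg c)

theorem Sy.zero (d : ℤ) : Sy d (fun _ => 0) := by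
  refine ⟨contDiffOn_const, fun n => ⟨0, le_rfl, fun p _ _ => ?_⟩⟩
  have : iteratedFDeriv ℝ n (fun _ : EP => (0:ℝ)) = 0 := iteratedFDeriv_fun_zero
  rw [this]; simp

theorem Sy.sum {d : ℤ} {ι : Type*} (s : Finset ι) {F : ι → EP → ℝ} (hF : ∀ i ∈ s, Sy d (F i)) :
    Sy d (fun p => ∑ i ∈ s, F i p) := by
  classical
  induction s using Finset.induction_on with
  | empty => simpa using Sy.zero d
  | insert a s ha ih =>
    have h1 := (hF a (Finset.mem_insert_self a s)).add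
      (ih fun i hi => hF i (Finset.mem_insert_of_mem hi))
    refine cast ?_ h1
    congr 1
    funext p
    rw [Finset.sum_insert ha]

theorem Sy.pz {d : ℤ} {F : EP → ℝ} (hF : Sy d F) (i : Fin 3) : Sy (d - 1) (RB.pz i F) := by
  have hfd : ContDiffOn ℝ (⊤ : ℕ∞) (fderiv ℝ F) {0}ᶜ :=
    hF.smooth.fderiv_of_isOpen isOpen_co (by norm_num)
  refine ⟨hfd.clm_apply contDiffOn_const, fun n => ?_⟩
  obtain ⟨C, hC0, hC⟩ := hF.bd (n + 1)
  refine ⟨C, hC0, fun p hp hp2 => ?_⟩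
  have h1 : ContDiffAt ℝ n (fderiv ℝ F) p :=
    (hfd.contDiffAt (isOpen_co.mem_nhds hp)).of_le (by exact_mod_cast le_top)
  refine (norm_iteratedFDeriv_clm_apply_const (c := ((ei i, 0) : EP)) h1 le_rfl).trans ?_
  have h2 : ‖((ei i, 0) : EP)‖ = 1 := by
    rw [Prod.norm_def, norm_ei, norm_zero]; simp
  rw [h2, one_mul, norm_iteratedFDeriv_fderiv]
  refine (hC p hp hp2).trans (le_of_eq ?_)
  push_cast
  congr 2
  ring

/-- multiplication by a smooth function -/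
theorem Sy.mul_smooth {d : ℤ} {F η : EP → ℝ} (hF : Sy d F) (hη : ContDiff ℝ (⊤ : ℕ∞) η) :
    Sy d (fun p => η p * F p) := by
  refine ⟨hη.contDiffOn.mul hF.smooth, fun n => ?_⟩
  choose C hC0 hC using hF.bd
  have hB : ∀ i : ℕ, ∃ B : ℝ, 0 ≤ B ∧ ∀ p : EP, ‖p‖ ≤ 2 → ‖iteratedFDeriv ℝ i η p‖ ≤ B := by
    intro i
    have hc : Continuous fun p => ‖iteratedFDeriv ℝ i η p‖ :=
      (hη.continuous_iteratedFDeriv (m := i) (by exact_mod_cast le_top)).norm
    obtain ⟨B, hB⟩ := (isCompact_closedBall (0 : EP) 2).bddAbove_image hc.continuousOn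
    exact ⟨max B 0, le_max_right _ _, fun p hp =>
      (hB ⟨p, by simpa using hp, rfl⟩).trans (le_max_left _ _)⟩
  choose B hB0 hB using hB
  refine ⟨∑ i ∈ Finset.range (n + 1), (n.choose i : ℝ) * B i * (C (n - i) * 2 ^ i), ?_, ?_⟩
  · apply Finset.sum_nonneg
    intro i _
    have := hB0 i
    have := hC0 (n - i)
    positivity
  intro p hp hp2
  have hp0 : 0 < ‖p‖ := norm_pos_iff.2 hp
  have h1 := norm_iteratedFDerivWithin_mul_le (𝕜 := ℝ) (f := η) (g := F) (s := ({0}ᶜ : Set EP))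
    (N := ((⊤ : ℕ∞) : WithTop ℕ∞)) hη.contDiffOn hF.smooth isOpen_co.uniqueDiffOn
    (x := p) hp (n := n) (by exact_mod_cast le_top)
  rw [iteratedFDerivWithin_of_isOpen n isOpen_co hp] at h1
  refine h1.trans ?_
  rw [Finset.sum_mul]
  apply Finset.sum_le_sum
  intro i hi
  rw [Finset.mem_range] at hi
  rw [iteratedFDerivWithin_of_isOpen i isOpen_co hp, iteratedFDerivWithin_of_isOpen (n - i) isOpen_co hp]
  have h2 := hB i p hp2
  have h3 := hC (n - i) p hp hp2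
  have e : ‖p‖ ^ (d - ((n - i : ℕ) : ℤ)) = ‖p‖ ^ i * ‖p‖ ^ (d - (n : ℤ)) := by
    rw [← zpow_natCast ‖p‖ i, ← zpow_add₀ hp0.ne']
    congr 1
    have : ((n - i : ℕ) : ℤ) = n - i := by push_cast [Nat.cast_sub (by omega : i ≤ n)]; ring
    rw [this]; ring
  have h4 : ‖p‖ ^ i ≤ 2 ^ i := pow_le_pow_left₀ hp0.le hp2 i
  have h5 : 0 ≤ ‖p‖ ^ (d - (n : ℤ)) := by positivity
  have h6 : ‖iteratedFDeriv ℝ (n - i) F p‖ ≤ C (n - i) * 2 ^ i * ‖p‖ ^ (d - (n : ℤ)) := by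
    refine h3.trans ?_
    rw [e, mul_assoc]
    exact mul_le_mul_of_nonneg_left (mul_le_mul_of_nonneg_right h4 h5) (hC0 _)
  calc (n.choose i : ℝ) * ‖iteratedFDeriv ℝ i η p‖ * ‖iteratedFDeriv ℝ (n - i) F p‖
      ≤ (n.choose i : ℝ) * B i * (C (n - i) * 2 ^ i * ‖p‖ ^ (d - (n : ℤ))) := by
        apply mul_le_mul _ h6 (norm_nonneg _) (mul_nonneg (Nat.cast_nonneg _) (hB0 i))
        exact mul_le_mul_of_nonneg_left h2 (Nat.cast_nonneg _)
    _ = _ := by ring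

/-- size of a function of the class -/
theorem Sy.abs_le {d : ℤ} {F : EP → ℝ} (hF : Sy d F) :
    ∃ C : ℝ, 0 ≤ C ∧ ∀ p : EP, p ≠ 0 → ‖p‖ ≤ 2 → |F p| ≤ C * ‖p‖ ^ d := by
  obtain ⟨C, hC0, hC⟩ := hF.bd 0
  refine ⟨C, hC0, fun p hp hp2 => ?_⟩
  have := hC p hp hp2
  rw [norm_iteratedFDeriv_zero, Real.norm_eq_abs] at this
  simpa using this

end RB
end Leray
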