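import Pool.Agent.Lib.MP_9b9638_an.KerLim

/-! # Leray profiles, REG-B: the biharmonic kernel -/

open MeasureTheory Set Filter Topology TopologicalSpace

noncomputable section
namespace Leray
namespace RB

/-- the cutoff used for the kernels -/
def th (z : E) : ℝ := cut (1 / 2) (1 / 4) z

theorem contDiff_th : ContDiff ℝ (⊤ : ℕ∞) th := contDiff_cut _ _

theorem th_one {z : E} (h : ‖z‖ ≤ 1 / 2) : th z = 1 := cut_one (by norm_num) (by norm_num) h

theorem th_zero {z : E} (h : 3 / 4 ≤ ‖z‖) : th z = 0 :=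
  cut_zero (by norm_num) (by norm_num) (by linarith)

theorem th_abs_le (z : E) : |th z| ≤ 1 := by
  unfold th
  rw [abs_of_nonneg (cut_nonneg _ _ _)]; exact cut_le_one _ _ _

theorem sy_S : Sy 1 (S (1 / 2)) := by
  apply homog_sy (contDiffOn_S _)
  intro t ht p
  unfold S
  have h1 : ‖(t • p).1‖ ^ 2 + (t • p).2 ^ 2 = t ^ 2 * (‖p.1‖ ^ 2 + p.2 ^ 2) := by
    simp only [Prod.smul_fst, Prod.smul_snd, norm_smul, Real.norm_eq_abs, smul_eq_mul]
    rw [mul_pow, sq_abs]; ring
  rw [h1, Real.mul_rpow (by positivity) (by positivity), ← Real.sqrt_eq_rpow, Real.sqrt_sq ht.le]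

/-- the regularised kernel, as a function of the point and of the parameter -/
def F0 (p : EP) : ℝ := th p.1 * S (1 / 2) p

theorem sy_F0 : Sy 1 F0 := by
  have : ContDiff ℝ (⊤ : ℕ∞) (fun p : EP => th p.1) := contDiff_th.comp contDiff_fst
  exact sy_S.mul_smooth this

theorem sp_F0 : Sp F0 := fun p hp => by
  unfold F0
  rw [th_zero hp.le, zero_mul]

theorem sy_lapz {d : ℤ} {F : EP → ℝ} (hF : Sy d F) : Sy (d - 2) (lapz F) := by
  unfold lapz
  apply Sy.sum
  intro i _
  have := (hF.pz i).pz i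
  rwa [show d - 1 - 1 = d - 2 by ring] at this

theorem sp_lapz {F : EP → ℝ} (hF : Sp F) : Sp (lapz F) := by
  unfold lapz
  exact Sp.sum _ fun i _ => (hF.pz i).pz i

theorem pz_congr_open {F G : EP → ℝ} {U : Set EP} (hU : IsOpen U) (h : ∀ p ∈ U, F p = G p) (i : Fin 3) :
    ∀ p ∈ U, pz i F p = pz i G p := by
  intro p hp
  have h1 : F =ᶠ[𝓝 p] G := by filter_upwards [hU.mem_nhds hp] with q hq using h q hq
  unfold pz
  rw [h1.fderiv_eq]

theorem lapz_congr_open {F G : EP → ℝ} {U : Set EP} (hU : IsOpen U) (h : ∀ p ∈ U, F p = G p) :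
    ∀ p ∈ U, lapz F p = lapz G p := by
  intro p hp
  unfold lapz
  apply Finset.sum_congr rfl
  intro i _
  exact pz_congr_open hU (pz_congr_open hU h i) i p hp

theorem pz_snd_mul (i : Fin 3) {G : EP → ℝ} {p : EP} (hG : DifferentiableAt ℝ G p) :
    pz i (fun p => p.2 ^ 2 * G p) p = p.2 ^ 2 * pz i G p := by
  have hd : DifferentiableAt ℝ (fun p : EP => p.2 ^ 2) p := by fun_prop
  rw [pz_mul_at hd hG]
  have h0 : pz i (fun p : EP => p.2 ^ 2) p = 0 := by
    have h : HasFDerivAt (fun p : EP => p.2 ^ 2) ((2 * p.2) • ContinuousLinearMap.snd ℝ E ℝ) p := by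
      have := (hasFDerivAt_snd (𝕜 := ℝ) (E := E) (F := ℝ) (p := p)).pow 2
      simpa using this
    unfold pz
    rw [h.fderiv]
    simp
  rw [h0]; ring

theorem pz_add_at {F G : EP → ℝ} {p : EP} (hF : DifferentiableAt ℝ F p) (hG : DifferentiableAt ℝ G p)
    (i : Fin 3) : pz i (fun p => F p + G p) p = pz i F p + pz i G p := by
  unfold pz
  rw [fderiv_fun_add hF hG]; rfl

theorem diffAt_pz {F : EP → ℝ} (hF : ContDiffOn ℝ (⊤ : ℕ∞) F {0}ᶜ) (i : Fin 3) {p : EP} (hp : p ≠ 0) :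
    DifferentiableAt ℝ (pz i F) p := by
  have hfd : ContDiffOn ℝ (⊤ : ℕ∞) (fderiv ℝ F) {0}ᶜ :=
    hF.fderiv_of_isOpen isOpen_co (by norm_num)
  have h1 : ContDiffOn ℝ (⊤ : ℕ∞) (pz i F) {0}ᶜ := hfd.clm_apply contDiffOn_const
  exact (contDiffAt_of h1 hp).differentiableAt (by simp)

theorem lapz_lapz_S {p : EP} (hp : p ≠ 0) : lapz (lapz (S (1 / 2))) p = -(15 * p.2 ^ 4 * S (-(7 / 2)) p) := by
  have h1 : ∀ p : EP, p ≠ 0 → lapz (S (1 / 2)) p = 2 * S (-(1 / 2)) p + p.2 ^ 2 * S (-(3 / 2)) p := by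
    intro p hp
    rw [lapz_S (1 / 2) hp, show (1 / 2 : ℝ) - 1 = -(1 / 2) by norm_num,
      show (1 / 2 : ℝ) - 2 = -(3 / 2) by norm_num]
    ring
  rw [lapz_congr h1 hp]
  have h2 : ∀ i, pz i (pz i (fun p => 2 * S (-(1 / 2)) p + p.2 ^ 2 * S (-(3 / 2)) p)) p =
      2 * pz i (pz i (S (-(1 / 2)))) p + p.2 ^ 2 * pz i (pz i (S (-(3 / 2)))) p := by
    intro i
    have h3 : ∀ p : EP, p ≠ 0 → pz i (fun p => 2 * S (-(1 / 2)) p + p.2 ^ 2 * S (-(3 / 2)) p) p =
        2 * pz i (S (-(1 / 2))) p + p.2 ^ 2 * pz i (S (-(3 / 2))) p := by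
      intro p hp
      have d1 : DifferentiableAt ℝ (fun p : EP => 2 * S (-(1 / 2)) p) p := (diffAt_S _ hp).const_mul 2
      have d2 : DifferentiableAt ℝ (fun p : EP => p.2 ^ 2 * S (-(3 / 2)) p) p :=
        DifferentiableAt.fun_mul (by fun_prop) (diffAt_S _ hp)
      rw [pz_add_at d1 d2, pz_const_mul_at 2 (diffAt_S _ hp), pz_snd_mul i (diffAt_S _ hp)]
    rw [pz_congr h3 i hp]
    have e1 : DifferentiableAt ℝ (pz i (S (-(1 / 2)))) p := diffAt_pz (contDiffOn_S _) i hp
    have e2 : DifferentiableAt ℝ (pz i (S (-(3 / 2)))) p := diffAt_pz (contDiffOn_S _) i hp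
    have d1 : DifferentiableAt ℝ (fun p : EP => 2 * pz i (S (-(1 / 2))) p) p := e1.const_mul 2
    have d2 : DifferentiableAt ℝ (fun p : EP => p.2 ^ 2 * pz i (S (-(3 / 2))) p) p :=
      DifferentiableAt.fun_mul (by fun_prop) e2
    rw [pz_add_at d1 d2, pz_const_mul_at 2 e1, pz_snd_mul i e2]
  have h4 : lapz (fun p => 2 * S (-(1 / 2)) p + p.2 ^ 2 * S (-(3 / 2)) p) p =
      2 * lapz (S (-(1 / 2))) p + p.2 ^ 2 * lapz (S (-(3 / 2))) p := by
    unfold lapz
    simp only [h2]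
    rw [Finset.sum_add_distrib, Finset.mul_sum, Finset.mul_sum]
  rw [h4, lapz_S _ hp, lapz_S _ hp, show (-(1 / 2) : ℝ) - 1 = -(3 / 2) by norm_num,
    show (-(1 / 2) : ℝ) - 2 = -(5 / 2) by norm_num, show (-(3 / 2) : ℝ) - 1 = -(5 / 2) by norm_num,
    show (-(3 / 2) : ℝ) - 2 = -(7 / 2) by norm_num]
  ring

/-- fourth order kernel -/
def L4 : EP → ℝ := lapz (lapz F0)

theorem sy_L4 : Sy (-3) L4 := by
  have := sy_lapz (sy_lapz sy_F0)
  exact this

theorem sp_L4 : Sp L4 := sp_lapz (sp_lapz sp_F0)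

theorem L4_inner {p : EP} (hp : p ≠ 0) (h : ‖p.1‖ < 1 / 2) : L4 p = -(15 * p.2 ^ 4 * S (-(7 / 2)) p) := by
  have hU : IsOpen {q : EP | ‖q.1‖ < 1 / 2} := isOpen_lt continuous_fst.norm continuous_const
  have h1 : ∀ q ∈ {q : EP | ‖q.1‖ < 1 / 2}, F0 q = S (1 / 2) q := by
    intro q hq
    unfold F0
    rw [th_one (le_of_lt hq), one_mul]
  have h2 := lapz_congr_open hU (lapz_congr_open hU h1) p h
  unfold L4
  rw [h2, lapz_lapz_S hp]

/-- the smooth remainder -/
theorem L4_zero_inner {z : E} (hz : z ≠ 0) (h : ‖z‖ < 1 / 2) : L4 (z, 0) = 0 := by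
  rw [L4_inner (ne_zero_left hz) h]
  simp

theorem ker_L4 : Ker (fun z => L4 (z, 0)) := by
  refine ⟨fun z hz => sp_L4 _ (by show 3 / 4 < ‖z‖; linarith), contDiffOn_slice sy_L4.smooth 0, ?_, ?_⟩
  · obtain ⟨C, hC0, hC⟩ := sy_L4.abs_le
    refine ⟨2 * C, fun z hz => ?_⟩
    have hz0 : 0 < ‖z‖ := norm_pos_iff.2 hz
    rcases lt_or_ge ‖z‖ (1 / 2) with h1 | h1
    · rw [L4_zero_inner hz h1, abs_zero]; positivity
    rcases le_or_gt ‖z‖ 2 with h2 | h2
    · have := hC (z, 0) (ne_zero_left hz) (by rw [norm_left]; exact h2)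
      rw [norm_left] at this
      refine this.trans ?_
      have e : ‖z‖ ^ (-3 : ℤ) = (‖z‖ ^ 2)⁻¹ * ‖z‖⁻¹ := by
        rw [show (-3 : ℤ) = -(3 : ℕ) by norm_num, zpow_neg, zpow_natCast, ← mul_inv]
        congr 1
      have h3 : ‖z‖⁻¹ ≤ 2 := by
        rw [inv_le_comm₀ hz0 (by norm_num)]; linarith
      rw [e, div_eq_mul_inv]
      calc C * ((‖z‖ ^ 2)⁻¹ * ‖z‖⁻¹) ≤ C * ((‖z‖ ^ 2)⁻¹ * 2) := by gcongr
        _ = _ := by ring
    · rw [sp_L4 _ (by show 3 / 4 < ‖z‖; linarith), abs_zero]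
      positivity
  · have h3 : ∀ i, ∃ C : ℝ, 0 ≤ C ∧ ∀ p : EP, p ≠ 0 → ‖p‖ ≤ 2 → |pz i L4 p| ≤ C * ‖p‖ ^ ((-3 : ℤ) - 1) :=
      fun i => (sy_L4.pz i).abs_le
    choose C hC0 hC using h3
    refine ⟨2 * ∑ i, C i, fun z hz i => ?_⟩
    have hz0 : 0 < ‖z‖ := norm_pos_iff.2 hz
    have hCi : C i ≤ ∑ i, C i := Finset.single_le_sum (fun j _ => hC0 j) (Finset.mem_univ i)
    have hCs : 0 ≤ ∑ i, C i := Finset.sum_nonneg fun j _ => hC0 j
    rcases lt_or_ge ‖z‖ (1 / 2) with h1 | h1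
    · have h4 : (fun z => L4 (z, 0)) =ᶠ[𝓝 z] fun _ => 0 := by
        have hO : IsOpen {w : E | ‖w‖ < 1 / 2 ∧ w ≠ 0} :=
          (isOpen_lt continuous_norm continuous_const).inter isOpen_compl_singleton
        filter_upwards [hO.mem_nhds ⟨h1, hz⟩] with w hw
        exact L4_zero_inner hw.2 hw.1
      rw [pd_eq_zero_of_eventually h4, abs_zero]
      positivity
    rw [pd_slice sy_L4.smooth (ne_zero_left hz)]
    rcases le_or_gt ‖z‖ 2 with h2 | h2
    · have := hC i (z, 0) (ne_zero_left hz) (by rw [norm_left]; exact h2)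
      rw [norm_left] at this
      refine this.trans ?_
      have e : ‖z‖ ^ ((-3 : ℤ) - 1) = (‖z‖ ^ 3)⁻¹ * ‖z‖⁻¹ := by
        rw [show ((-3 : ℤ) - 1) = -(4 : ℕ) by norm_num, zpow_neg, zpow_natCast, ← mul_inv]
        congr 1
      have h3 : ‖z‖⁻¹ ≤ 2 := by
        rw [inv_le_comm₀ hz0 (by norm_num)]; linarith
      rw [e, div_eq_mul_inv]
      calc C i * ((‖z‖ ^ 3)⁻¹ * ‖z‖⁻¹) ≤ (∑ i, C i) * ((‖z‖ ^ 3)⁻¹ * 2) := by gcongr
        _ = _ := by ring
    · rw [sp_L4.pz i _ (by show 3 / 4 < ‖z‖; linarith), abs_zero]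
      positivity

/-! ### the approximate identity -/

/-- the constant -/
def c1 : ℝ := ∫ w : E, 15 * S (-(7 / 2)) (w, 1)

theorem S_one_eq (w : E) : S (-(7 / 2)) (w, 1) = ((1 : ℝ) + ‖w‖ ^ 2) ^ (-(7 : ℝ) / 2) := by
  unfold S
  congr 1
  · simp; ring
  · ring

theorem integrable_S1 : Integrable (fun w : E => 15 * S (-(7 / 2)) (w, 1)) := by
  apply Integrable.const_mul
  have h := integrable_rpow_neg_one_add_norm_sq (E := E) (μ := volume) (r := 7) (by simp; norm_num)
  apply h.congr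
  filter_upwards with w
  exact (S_one_eq w).symm

theorem S_pos (q : ℝ) {p : EP} (hp : p ≠ 0) : 0 < S q p := Real.rpow_pos_of_pos (base_pos hp) _

theorem c1_pos : 0 < c1 := by
  unfold c1
  rw [integral_pos_iff_support_of_nonneg]
  · have : Function.support (fun w : E => 15 * S (-(7 / 2)) (w, 1)) = univ := by
      ext w
      simp only [Function.mem_support, mem_univ, iff_true]
      exact (mul_pos (by norm_num) (S_pos _ (ne_zero_right one_ne_zero))).ne'
    rw [this]
    simp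
  · intro w
    exact (mul_pos (by norm_num) (S_pos _ (ne_zero_right one_ne_zero))).le
  · exact integrable_S1

theorem S_scale {e : ℝ} (he : 0 < e) (w : E) :
    e ^ 7 * S (-(7 / 2)) (e • w, e) = S (-(7 / 2)) (w, 1) := by
  unfold S
  simp only
  have h1 : ‖e • w‖ ^ 2 + e ^ 2 = e ^ 2 * (‖w‖ ^ 2 + 1 ^ 2) := by
    rw [norm_smul, Real.norm_eq_abs, abs_of_pos he]; ring
  rw [h1, Real.mul_rpow (by positivity) (by positivity), ← mul_assoc]
  have h2 : e ^ 7 * (e ^ 2) ^ (-(7 / 2) : ℝ) = 1 := by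
    rw [← Real.rpow_natCast e 7, ← Real.rpow_natCast e 2, ← Real.rpow_mul he.le, ← Real.rpow_add he]
    norm_num
  rw [h2, one_mul]

theorem tendsto_approx {G : E → ℝ} (hG : Continuous G) :
    Tendsto (fun e : ℝ => ∫ z, th z * (15 * e ^ 4 * S (-(7 / 2)) (z, e)) * G z) (𝓝[>] 0)
      (𝓝 (c1 * G 0)) := by
  obtain ⟨B, hB0, hB⟩ := bound_on_ball hG
  have h1 : ∀ᶠ e : ℝ in 𝓝[>] 0, (∫ z, th z * (15 * e ^ 4 * S (-(7 / 2)) (z, e)) * G z) =
      ∫ w : E, 15 * S (-(7 / 2)) (w, 1) * (th (e • w) * G (e • w)) := by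
    filter_upwards [eventually_small] with e he
    have h2 := Measure.integral_comp_smul_of_nonneg (volume : Measure E)
      (fun z => th z * (15 * e ^ 4 * S (-(7 / 2)) (z, e)) * G z) e (hR := he.1.le)
    have hd : Module.finrank ℝ E = 3 := by simp
    rw [hd] at h2
    have h3 : (∫ z, th z * (15 * e ^ 4 * S (-(7 / 2)) (z, e)) * G z) =
        e ^ 3 * ∫ x : E, th (e • x) * (15 * e ^ 4 * S (-(7 / 2)) (e • x, e)) * G (e • x) := by
      rw [h2, smul_eq_mul, ← mul_assoc, mul_inv_cancel₀ (pow_ne_zero 3 he.1.ne'), one_mul]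
    rw [h3, ← integral_const_mul]
    congr 1
    funext w
    rw [← S_scale he.1 w]
    ring
  refine Tendsto.congr' (EventuallyEq.symm h1) ?_
  have h4 : c1 * G 0 = ∫ w : E, 15 * S (-(7 / 2)) (w, 1) * (th 0 * G 0) := by
    rw [th_one (by simp), one_mul, integral_mul_const]
    rfl
  rw [h4]
  apply tendsto_integral_filter_of_dominated_convergence (fun w => 15 * S (-(7 / 2)) (w, 1) * B)
  · filter_upwards with e
    have c1 : Continuous (fun w : E => th (e • w) * G (e • w)) :=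
      (contDiff_th.continuous.comp (continuous_const_smul e)).mul (hG.comp (continuous_const_smul e))
    exact integrable_S1.aestronglyMeasurable.mul c1.aestronglyMeasurable
  · filter_upwards with e
    filter_upwards with w
    have hS : 0 ≤ 15 * S (-(7 / 2)) (w, 1) :=
      (mul_pos (by norm_num) (S_pos _ (ne_zero_right one_ne_zero))).le
    rw [norm_mul, Real.norm_eq_abs, Real.norm_eq_abs, abs_of_nonneg hS]
    apply mul_le_mul_of_nonneg_left _ hS
    rcases le_or_gt ‖e • w‖ 1 with h5 | h5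
    · rw [abs_mul]
      calc |th (e • w)| * |G (e • w)| ≤ 1 * B := mul_le_mul (th_abs_le _) (hB _ h5) (abs_nonneg _) zero_le_one
        _ = B := one_mul B
    · rw [th_zero (by linarith), zero_mul, abs_zero]
      exact hB0
  · exact integrable_S1.mul_const B
  · filter_upwards with w
    apply Tendsto.const_mul
    have c2 : Continuous (fun e : ℝ => th (e • w) * G (e • w)) :=
      (contDiff_th.continuous.comp (by fun_prop)).mul (hG.comp (by fun_prop))
    have h6 := c2.tendsto 0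
    simp only [zero_smul] at h6
    exact h6.mono_left nhdsWithin_le_nhds

theorem tendsto_L4 {G : E → ℝ} (hG : Continuous G) :
    Tendsto (fun e : ℝ => ∫ z, L4 (z, e) * G z) (𝓝[>] 0) (𝓝 ((∫ z, L4 (z, 0) * G z) - c1 * G 0)) := by
  obtain ⟨B, hB0, hB⟩ := bound_on_ball hG
  obtain ⟨C, hC0, hC⟩ := sy_L4.abs_le
  set D : ℝ := 8 * C + 15 * 2 ^ 7 with hD
  have hD0 : 0 ≤ D := by positivity
  -- the bounded remainder
  have hR : ∀ (z : E) (e : ℝ), z ≠ 0 → 0 < e → |e| ≤ 1 →
      |L4 (z, e) + th z * (15 * e ^ 4 * S (-(7 / 2)) (z, e))| ≤ indicator (Metric.closedBall (0:E) 1) (fun _ => D) z := by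
    intro z e hz he he1
    have hz0 : 0 < ‖z‖ := norm_pos_iff.2 hz
    rcases lt_or_ge ‖z‖ (1 / 2) with h1 | h1
    · rw [L4_inner (ne_zero_left hz) h1, th_one h1.le]
      simp only [one_mul, neg_add_cancel, abs_zero]
      exact indicator_nonneg (fun _ _ => hD0) _
    rcases le_or_gt ‖z‖ 1 with h2 | h2
    · rw [indicator_of_mem (by simpa using h2)]
      have h3 := hC (z, e) (ne_zero_left hz) (norm_pair_le h2 he1)
      have h4 : ‖((z, e) : EP)‖ ^ (-3 : ℤ) ≤ 8 := by
        have h5 := nfst_le z e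
        have h6 : 1 / 2 ≤ ‖((z, e) : EP)‖ := h1.trans h5
        rw [show (-3 : ℤ) = -(3 : ℕ) by norm_num, zpow_neg, zpow_natCast]
        rw [inv_le_comm₀ (by positivity) (by norm_num)]
        calc (8 : ℝ)⁻¹ = (1 / 2) ^ 3 := by norm_num
          _ ≤ _ := pow_le_pow_left₀ (by norm_num) h6 3
      have h5 : |L4 (z, e)| ≤ 8 * C := by
        refine h3.trans ?_
        rw [mul_comm 8 C]
        exact mul_le_mul_of_nonneg_left h4 hC0
      have hS0 := (S_pos (-(7 / 2)) (ne_zero_left (e := e) hz)).le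
      have h6 : S (-(7 / 2)) (z, e) ≤ 2 ^ 7 := by
        unfold S
        simp only
        have h7 : (1 / 4 : ℝ) ≤ ‖z‖ ^ 2 + e ^ 2 := by nlinarith [sq_nonneg e]
        calc (‖z‖ ^ 2 + e ^ 2) ^ (-(7 / 2) : ℝ) ≤ (1 / 4 : ℝ) ^ (-(7 / 2) : ℝ) :=
              Real.rpow_le_rpow_of_nonpos (by norm_num) h7 (by norm_num)
          _ = 2 ^ 7 := by
              rw [show (1 / 4 : ℝ) = 2 ^ (-2 : ℝ) by
                rw [Real.rpow_neg (by norm_num)]; norm_num, ← Real.rpow_mul (by norm_num)]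
              norm_num
      have he4 : e ^ 4 ≤ 1 := pow_le_one₀ he.le (by rwa [abs_of_pos he] at he1)
      have h7 : |th z * (15 * e ^ 4 * S (-(7 / 2)) (z, e))| ≤ 15 * 2 ^ 7 := by
        rw [abs_mul, abs_of_nonneg (show 0 ≤ 15 * e ^ 4 * S (-(7 / 2)) (z, e) by positivity)]
        calc |th z| * (15 * e ^ 4 * S (-(7 / 2)) (z, e)) ≤ 1 * (15 * 1 * 2 ^ 7) := by
              apply mul_le_mul (th_abs_le z) _ (by positivity) zero_le_one
              apply mul_le_mul _ h6 hS0 (by norm_num)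
              linarith
          _ = _ := by norm_num
      exact (abs_add_le _ _).trans (add_le_add h5 h7)
    · rw [sp_L4 _ (by show 3 / 4 < ‖z‖; linarith), th_zero (by linarith), zero_mul, add_zero, abs_zero]
      exact indicator_nonneg (fun _ _ => hD0) _
  have hdomR : Integrable (fun z : E => indicator (Metric.closedBall (0:E) 1) (fun _ => D) z * B) := by
    apply Integrable.mul_const
    rw [integrable_indicator_iff measurableSet_closedBall]
    exact integrableOn_const (measure_closedBall_lt_top.ne)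
  have hmeasS : ∀ e : ℝ, AEStronglyMeasurable (fun z : E => th z * (15 * e ^ 4 * S (-(7 / 2)) (z, e))) volume :=
    fun e => contDiff_th.continuous.aestronglyMeasurable.mul
      ((measurable_slice (contDiffOn_S _) e).const_mul _)
  have hbd : ∀ e : ℝ, 0 < e → |e| ≤ 1 → ∀ᵐ z : E,
      ‖(L4 (z, e) + th z * (15 * e ^ 4 * S (-(7 / 2)) (z, e))) * G z‖ ≤
        indicator (Metric.closedBall (0:E) 1) (fun _ => D) z * B := by
    intro e he he1
    filter_upwards [ae_ne_zero] with z hz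
    rw [norm_mul, Real.norm_eq_abs, Real.norm_eq_abs]
    rcases le_or_gt ‖z‖ 1 with h1 | h1
    · exact mul_le_mul (hR z e hz he he1) (hB z h1) (abs_nonneg _)
        (indicator_nonneg (fun _ _ => hD0) _)
    · have := hR z e hz he he1
      rw [indicator_of_notMem (by simpa using h1)] at this ⊢
      rw [le_antisymm this (abs_nonneg _), zero_mul, zero_mul]
  have h1 : Tendsto (fun e : ℝ => ∫ z, (L4 (z, e) + th z * (15 * e ^ 4 * S (-(7 / 2)) (z, e))) * G z)
      (𝓝[>] 0) (𝓝 (∫ z, L4 (z, 0) * G z)) := by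
    apply tendsto_integral_filter_of_dominated_convergence
      (fun z => indicator (Metric.closedBall (0:E) 1) (fun _ => D) z * B)
    · filter_upwards with e
      exact ((measurable_slice sy_L4.smooth e).add (hmeasS e)).mul hG.aestronglyMeasurable
    · filter_upwards [eventually_small] with e he
      exact hbd e he.1 he.2
    · exact hdomR
    · filter_upwards [ae_ne_zero] with z hz
      apply Tendsto.mul_const
      have h2 := tendsto_slice_at sy_L4.smooth hz
      have h3 := tendsto_slice_at (contDiffOn_S (-(7 / 2))) hz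
      have h4 : Tendsto (fun e : ℝ => th z * (15 * e ^ 4 * S (-(7 / 2)) (z, e))) (𝓝[>] 0)
          (𝓝 (th z * (15 * 0 ^ 4 * S (-(7 / 2)) (z, 0)))) := by
        apply Tendsto.const_mul
        apply Tendsto.mul _ h3
        have : Continuous (fun e : ℝ => 15 * e ^ 4) := by fun_prop
        exact (this.tendsto 0).mono_left nhdsWithin_le_nhds
      have h5 := h2.add h4
      simpa using h5
  have h2 := h1.sub (tendsto_approx hG)
  refine Tendsto.congr' ?_ h2
  filter_upwards [eventually_small] with e he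
  have i1 : Integrable (fun z => (L4 (z, e) + th z * (15 * e ^ 4 * S (-(7 / 2)) (z, e))) * G z) :=
    hdomR.mono' (((measurable_slice sy_L4.smooth e).add (hmeasS e)).mul hG.aestronglyMeasurable)
      (hbd e he.1 he.2)
  have i2 : Integrable (fun z => th z * (15 * e ^ 4 * S (-(7 / 2)) (z, e)) * G z) := by
    apply Continuous.integrable_of_hasCompactSupport
    · have c3 : Continuous (fun z : E => S (-(7 / 2)) (z, e)) :=
        (contDiff_slice (contDiffOn_S _) he.1.ne').continuous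
      exact (contDiff_th.continuous.mul (continuous_const.mul c3)).mul hG
    · apply HasCompactSupport.intro (isCompact_closedBall (0 : E) 1)
      intro z hz
      have : 1 < ‖z‖ := by simpa using hz
      rw [th_zero (by linarith), zero_mul, zero_mul]
  rw [← integral_sub i1 i2]
  congr 1
  funext z
  ring

end RB
end Leray
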