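import Pool.Agent.Lib.MP_9b9638_an.Newton

/-!
# Vector potential for `p = 1`
-/

open MeasureTheory Set Filter Topology TopologicalSpace
open scoped Distributions LineDeriv

noncomputable section
namespace Leray

namespace OneA

/-- absolute convergence of the Riesz potential, `p = 1` -/
theorem riesz_integrable {V : VF} (hc : ∀ i, Continuous (V i))
    (hLp : Integrable (nm V)) (x : E) :
    Integrable (fun y => nm V y / ‖x - y‖ ^ 2) := by
  have hV : Continuous (nm V) := continuous_nm hc
  obtain ⟨M, hM⟩ := (isCompact_closedBall x 1).exists_bound_of_continuousOn hV.continuousOn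
  -- the dominating function
  have d1 : Integrable (fun y => (Metric.ball x 1).indicator (fun y => M * (‖x - y‖ ^ 2)⁻¹) y) := by
    rw [integrable_indicator_iff Metric.isOpen_ball.measurableSet]
    have h := (integrableOn_norm_rpow (s := -2) (by norm_num) 1)
    have e : (fun z : E => ‖z‖ ^ (-2 : ℝ)) = fun z : E => (‖z‖ ^ 2)⁻¹ := by
      funext z
      rw [Real.rpow_neg (norm_nonneg _)]; norm_num
    rw [e, ← integrable_indicator_iff Metric.isOpen_ball.measurableSet] at h
    have h2 := h.comp_sub_left x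
    have h4 : (fun y => (Metric.ball (0 : E) 1).indicator (fun z : E => (‖z‖ ^ 2)⁻¹) (x - y))
        = (Metric.ball x 1).indicator (fun y => (‖x - y‖ ^ 2)⁻¹) := by
      funext y
      by_cases hy : y ∈ Metric.ball x 1
      · have hy' : x - y ∈ Metric.ball (0 : E) 1 := by
          rw [mem_ball_zero_iff, ← dist_eq_norm, dist_comm]; exact hy
        rw [indicator_of_mem hy, indicator_of_mem hy']
      · have hy' : x - y ∉ Metric.ball (0 : E) 1 := by
          rw [mem_ball_zero_iff, ← dist_eq_norm, dist_comm]; exact hy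
        rw [indicator_of_notMem hy, indicator_of_notMem hy']
    rw [h4, integrable_indicator_iff Metric.isOpen_ball.measurableSet] at h2
    exact h2.const_mul M
  have d3 := d1.add hLp
  refine d3.mono' ?_ ?_
  · exact (hV.measurable.div ((measurable_const.sub measurable_id).norm.pow_const 2)).aestronglyMeasurable
  · filter_upwards with y
    rw [Real.norm_eq_abs, abs_of_nonneg (div_nonneg (nm_nonneg _ _) (by positivity))]
    simp only [Pi.add_apply]
    have hnn : 0 ≤ nm V y := nm_nonneg _ _
    by_cases hy : y ∈ Metric.ball x 1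
    · rw [indicator_of_mem hy]
      have h5 : nm V y ≤ M := (le_abs_self _).trans (hM y (Metric.ball_subset_closedBall hy))
      have h6 : nm V y / ‖x - y‖ ^ 2 ≤ M * (‖x - y‖ ^ 2)⁻¹ := by
        rw [div_eq_mul_inv]
        exact mul_le_mul_of_nonneg_right h5 (by positivity)
      linarith
    · rw [indicator_of_notMem hy, zero_add]
      have hxy : 1 ≤ ‖x - y‖ := by
        rw [Metric.mem_ball, not_lt, dist_comm, dist_eq_norm] at hy; exact hy
      exact div_le_self hnn (by nlinarith)

end OneA

theorem exists_psi_one : ∃ C₀ : ℝ, 0 < C₀ ∧ ∀ (V : VF), (∀ i, ContDiff ℝ 3 (V i)) → (∀ x, dv V x = 0) →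
    Integrable (nm V) → ∀ r ε : ℝ, 0 < r → 0 < ε →
    ∃ Ψ : VF, (∀ i, ContDiff ℝ 2 (Ψ i)) ∧ (∀ x, dv Ψ x = 0) ∧
      (∀ x, ‖x‖ < r → nm (fun i y => curl Ψ i y - V i y) x ≤ ε) ∧
      (∀ x, ‖x‖ < r → ∀ i, curl (curl Ψ) i x = curl V i x) ∧
      (∀ x, nm Ψ x ≤ C₀ * ∫ y, nm V y / ‖x - y‖ ^ 2) := by
  refine ⟨6 * cN⁻¹, by have := cN_pos; positivity, ?_⟩
  intro V hV hdiv hLp r ε hr hε
  obtain ⟨C, hC, hcut⟩ := exists_cutoff
  have hcN := cN_pos
  have hVc : ∀ i, Continuous (V i) := fun i => (hV i).continuous
  have hnV : Continuous (nm V) := continuous_nm hVc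
  set K : ℝ := ∫ x, nm V x with hK
  have hK0 : 0 ≤ K := integral_nonneg fun x => nm_nonneg _ _
  -- choose the constants
  set A : ℝ := 3 * (cN⁻¹ * (3 * C * 4)) with hA
  have hA0 : 0 < A := by positivity
  obtain ⟨L0, hL0⟩ : ∃ L0 : ℝ, A * K / ε ≤ L0 := ⟨_, le_refl _⟩
  set L : ℝ := max (max (2 * r) 1) L0 with hLdef
  have hL1 : 1 ≤ L := (le_max_right _ _).trans (le_max_left _ _)
  have hL2 : 2 * r ≤ L := (le_max_left _ _).trans (le_max_left _ _)
  have hL3 : L0 ≤ L := le_max_right _ _
  have hLp0 : 0 < L := by linarith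
  obtain ⟨φ, φs, φc, φ0, φ1, φone, φzero, φd, -, φd0, -⟩ := hcut L L hLp0 le_rfl
  have φ3 : ContDiff ℝ 3 φ := (contDiff_infty.1 φs) 3
  set F : VF := sm φ V with hF
  have hF3 : ∀ i, ContDiff ℝ 3 (F i) := fun i => φ3.mul (hV i)
  have hFc : ∀ i, HasCompactSupport (F i) := fun i => φc.mul_right
  set Φ : VF := fun i => newt cN (F i) with hΦ
  have hΦ3 : ∀ i, ContDiff ℝ 3 (Φ i) := fun i => contDiff_newt (n := 3) cN (hF3 i) (hFc i)
  set h : E → ℝ := dv F with hh
  have hh2 : ContDiff ℝ 2 h := contDiff_dv hF3 (by norm_num)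
  have hFdiff : ∀ i, Differentiable ℝ (F i) := fun i => (hF3 i).differentiable (by norm_num)
  have hheq : ∀ y, h y = dot (grad φ) V y := by
    intro y
    rw [hh, hF, dv_sm (φ3.differentiable (by norm_num)) (fun i => (hV i).differentiable (by norm_num)), hdiv]
    ring
  have hhc : HasCompactSupport h := by
    apply HasCompactSupport.intro (isCompact_Sh L (L + L))
    intro y hy
    rw [hheq]
    unfold dot grad
    simp [φd0 y hy]
  -- divergence of the potential
  have hdvΦ : dv Φ = newt cN h := by
    funext y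
    have e1 : ∀ i, pd i (Φ i) = newt cN (pd i (F i)) := fun i =>
      pd_newt cN ((hF3 i).of_le (by norm_num)) (hFc i) i
    have e2 := newt_sum cN (f := fun i => pd i (F i))
      (fun i => continuous_pd ((hF3 i).of_le (by norm_num))) (fun i => hasCompactSupport_pd (hFc i)) y
    unfold dv
    simp only [e1]
    rw [← e2]
    rfl
  have hnh : ContDiff ℝ 2 (newt cN h) := contDiff_newt (n := 2) cN hh2 hhc
  -- curl of the curl
  have hcc : ∀ i, curl (curl Φ) i = fun y => pd i (newt cN h) y + F i y := by
    intro i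
    funext y
    rw [curl_curl (fun j => (hΦ3 j).of_le (by norm_num)) i y, hdvΦ,
      show lap (Φ i) y = - F i y from lap_newt ((hF3 i).of_le (by norm_num)) (hFc i) y]
    ring
  -- the error
  have herr : ∀ x, ‖x‖ < r → ∀ i, |pd i (newt cN h) x| ≤ ε / 3 := by
    intro x hx i
    refine (abs_pd_newt_le (hh2.of_le (by norm_num)) hhc i x).trans ?_
    have hbound : ∀ y, |h y| / ‖x - y‖ ^ 2 ≤ (3 * C * 4) / L ^ 3 * nm V y := by
      intro y
      have hgn : 0 ≤ (3 * C * 4) / L ^ 3 * nm V y := by
        have : 0 ≤ nm V y := nm_nonneg _ _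
        positivity
      by_cases hy : y ∈ Sh L (L + L)
      · have g1 : |h y| ≤ 3 * (C / L) * nm V y := by
          rw [hheq]
          unfold dot grad
          refine (Finset.abs_sum_le_sum_abs _ _).trans ?_
          calc ∑ i, |pd i φ y * V i y| ≤ ∑ _i : Fin 3, (C / L) * nm V y := by
                apply Finset.sum_le_sum
                intro j _
                rw [abs_mul]
                exact mul_le_mul (φd y j) (abs_le_nm V j y) (abs_nonneg _) (by positivity)
            _ = 3 * (C / L) * nm V y := by simp; ring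
        have g2 : L / 2 ≤ ‖x - y‖ := by
          have := norm_sub_norm_le y x
          rw [norm_sub_rev] at this
          linarith [hy.1]
        have g3 : (L / 2) ^ 2 ≤ ‖x - y‖ ^ 2 := by gcongr
        calc |h y| / ‖x - y‖ ^ 2 ≤ (3 * (C / L) * nm V y) / (L / 2) ^ 2 := by
              have := nm_nonneg V y
              gcongr
          _ = (3 * C * 4) / L ^ 3 * nm V y := by field_simp; ring
      · have : h y = 0 := by
          rw [hheq]; unfold dot grad; simp [φd0 y hy]
        rw [this, abs_zero, zero_div]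
        exact hgn
    have hI : ∫ y, |h y| / ‖x - y‖ ^ 2 ≤ (3 * C * 4) / L ^ 3 * K := by
      calc ∫ y, |h y| / ‖x - y‖ ^ 2 ≤ ∫ y, (3 * C * 4) / L ^ 3 * nm V y := by
            apply integral_mono_of_nonneg
            · filter_upwards with y
              exact div_nonneg (abs_nonneg _) (by positivity)
            · exact hLp.const_mul _
            · filter_upwards with y using hbound y
        _ = (3 * C * 4) / L ^ 3 * K := by rw [integral_const_mul]
    have hL4 : A * K / L ^ 3 ≤ ε := by
      have h9 : L ≤ L ^ 3 := by nlinarith [sq_nonneg L, mul_pos hLp0 hLp0]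
      have h10 : A * K / ε ≤ L ^ 3 := hL0.trans (hL3.trans h9)
      rw [div_le_iff₀ hε] at h10
      rw [div_le_iff₀ (by positivity)]
      linarith
    calc cN⁻¹ * ∫ y, |h y| / ‖x - y‖ ^ 2
        ≤ cN⁻¹ * ((3 * C * 4) / L ^ 3 * K) := by gcongr
      _ = (A * K / L ^ 3) / 3 := by
          rw [hA]; field_simp
      _ ≤ ε / 3 := by linarith
  refine ⟨curl Φ, fun i => contDiff_curl hΦ3 (by norm_num) i, fun x => ?_, ?_, ?_, ?_⟩
  · exact dv_curl (fun i => (hΦ3 i).of_le (by norm_num)) x
  · intro x hx
    refine (nm_le_sum _ _).trans ?_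
    have hxL : ‖x‖ ≤ L := by linarith
    calc ∑ i, |curl (curl Φ) i x - V i x| ≤ ∑ _i : Fin 3, ε / 3 := by
          apply Finset.sum_le_sum
          intro i _
          rw [hcc i]
          have : F i x = V i x := by rw [hF]; unfold sm; rw [φone x hxL, one_mul]
          show |pd i (newt cN h) x + F i x - V i x| ≤ ε / 3
          rw [this, add_sub_cancel_right]
          exact herr x hx i
      _ = ε := by simp; ring
  · intro x hx i
    have hxL : ‖x‖ < L := by linarith
    have hd1 : ∀ j, Differentiable ℝ (pd j (newt cN h)) := fun j =>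
      (contDiff_pd (m := 1) hnh (by norm_num)).differentiable (by norm_num)
    have e1 : curl (curl (curl Φ)) i x = curl (grad (newt cN h)) i x + curl F i x := by
      unfold curl at hcc ⊢
      simp only [hcc]
      rw [pd_add (hd1 _) (hFdiff _), pd_add (hd1 _) (hFdiff _)]
      unfold grad
      ring
    rw [e1, curl_grad hnh, zero_add]
    unfold curl
    rw [pd_congr_at (sm_eq_near φone hxL _), pd_congr_at (sm_eq_near φone hxL _)]
  · intro x
    have hF_le : ∀ j y, |F j y| ≤ nm V y := by
      intro j y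
      rw [hF]; unfold sm
      rw [abs_mul, abs_of_nonneg (φ0 y)]
      calc φ y * |V j y| ≤ 1 * nm V y := by
            exact mul_le_mul (φ1 y) (abs_le_nm V j y) (abs_nonneg _) (by norm_num)
        _ = nm V y := one_mul _
    have hR := OneA.riesz_integrable hVc hLp x
    have hj : ∀ i j, |pd i (Φ j) x| ≤ cN⁻¹ * ∫ y, nm V y / ‖x - y‖ ^ 2 := by
      intro i j
      refine (abs_pd_newt_le ((hF3 j).of_le (by norm_num)) (hFc j) i x).trans ?_
      apply mul_le_mul_of_nonneg_left _ (by positivity)
      apply integral_mono_of_nonneg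
      · filter_upwards with y
        exact div_nonneg (abs_nonneg _) (by positivity)
      · exact hR
      · filter_upwards with y
        exact div_le_div_of_nonneg_right (hF_le j y) (by positivity)
    refine (nm_le_sum _ _).trans ?_
    calc ∑ i, |curl Φ i x| ≤ ∑ _i : Fin 3, 2 * (cN⁻¹ * ∫ y, nm V y / ‖x - y‖ ^ 2) := by
          apply Finset.sum_le_sum
          intro i _
          unfold curl
          refine (abs_sub _ _).trans ?_
          linarith [hj (i + 1) (i + 2), hj (i + 2) (i + 1)]
      _ = 6 * cN⁻¹ * ∫ y, nm V y / ‖x - y‖ ^ 2 := by simp; ring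

end Leray
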