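import Pool.Agent.Lib.MP_9b9638_an.Cutoff

/-!
# Riesz potentials on shells, weighted averages and the pigeonhole
-/

open MeasureTheory Set Filter Topology
open scoped ENNReal

noncomputable section

namespace Leray

/-- near part of the Riesz potential of `|V|` -/
def Pn (V : VF) (ρ : ℝ) (x : E) : ℝ := ∫ y in {y : E | ‖x - y‖ < ρ}, nm V y / ‖x - y‖ ^ 2
/-- far part -/
def Pf (V : VF) (ρ : ℝ) (x : E) : ℝ := ∫ y in {y : E | ρ ≤ ‖x - y‖}, nm V y / ‖x - y‖ ^ 2

/-- weighted `L^p` integral around the sphere of radius `r` -/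
def Gw (V : VF) (p β η r : ℝ) : ℝ := ∫ y : E, nm V y ^ p * (max |‖y‖ - r| η) ^ (-β)

namespace Riesz

/-- three times the volume of the unit ball -/
def vb : ℝ := 3 * (volume : Measure E).real (Metric.ball 0 1)

theorem vb_pos : 0 < vb := by
  unfold vb
  have h : 0 < (volume : Measure E).real (Metric.ball 0 1) :=
    ENNReal.toReal_pos (Metric.measure_ball_pos _ _ one_pos).ne' measure_ball_lt_top.ne
  positivity

theorem integral_radial (f : ℝ → ℝ) : ∫ x : E, f ‖x‖ = vb * ∫ t in Ioi (0 : ℝ), t ^ 2 * f t := by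
  have h := integral_fun_norm_addHaar (volume : Measure E) f
  rw [h]
  simp [vb, mul_assoc]

theorem integrable_radial {f : ℝ → ℝ} (hf : IntegrableOn (fun t : ℝ => t ^ 2 * f t) (Ioi 0)) :
    Integrable (fun x : E => f ‖x‖) := by
  rw [integrable_fun_norm_addHaar (volume : Measure E)]
  simpa using hf

/-- near kernel -/
def kn (ρ : ℝ) (z : E) : ℝ := (Iio ρ).indicator (fun t : ℝ => (t ^ 2)⁻¹) ‖z‖

theorem kn_nonneg (ρ : ℝ) (z : E) : 0 ≤ kn ρ z := by
  unfold kn; apply indicator_nonneg; intro t _; positivity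

theorem measurable_kn (ρ : ℝ) : Measurable (kn ρ) := by
  unfold kn
  exact (Measurable.indicator (by fun_prop) measurableSet_Iio).comp measurable_norm

theorem kn_aux (ρ : ℝ) : EqOn (fun t : ℝ => t ^ 2 * (Iio ρ).indicator (fun t : ℝ => (t ^ 2)⁻¹) t)
    ((Iio ρ).indicator (fun _ => (1 : ℝ))) (Ioi 0) := by
  intro t ht
  have ht' : (0 : ℝ) < t := ht
  by_cases h : t < ρ
  · simp [h, ht'.ne']
  · simp [h]

theorem integrable_kn (ρ : ℝ) : Integrable (kn ρ) := by
  unfold kn
  apply integrable_radial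
  rw [integrableOn_congr_fun (kn_aux ρ) measurableSet_Ioi, IntegrableOn,
    integrable_indicator_iff measurableSet_Iio]
  rw [IntegrableOn, Measure.restrict_restrict measurableSet_Iio]
  have h1 : volume (Iio ρ ∩ Ioi (0 : ℝ)) ≠ ⊤ := by rw [Iio_inter_Ioi]; simp
  have h2 : ‖(1 : ℝ)‖ₑ ≠ ⊤ := by simp
  exact integrableOn_const (hs := h1) (hC := h2)

theorem integral_kn {ρ : ℝ} (hρ : 0 < ρ) : ∫ z, kn ρ z = vb * ρ := by
  unfold kn
  rw [integral_radial, setIntegral_congr_fun measurableSet_Ioi (kn_aux ρ), integral_indicator measurableSet_Iio,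
    Measure.restrict_restrict measurableSet_Iio, Iio_inter_Ioi]
  simp [hρ.le]

/-- far kernel -/
def kf (s ρ : ℝ) (z : E) : ℝ := (Ici ρ).indicator (fun t : ℝ => t ^ (-s)) ‖z‖

theorem kf_nonneg {ρ : ℝ} (hρ : 0 < ρ) (s : ℝ) (z : E) : 0 ≤ kf s ρ z := by
  unfold kf; apply indicator_nonneg; intro t ht
  exact Real.rpow_nonneg (hρ.le.trans ht) _

theorem kf_aux {ρ : ℝ} (s : ℝ) : EqOn (fun t : ℝ => t ^ 2 * (Ici ρ).indicator (fun t : ℝ => t ^ (-s)) t)
    ((Ici ρ).indicator (fun t => t ^ (2 - s))) (Ioi 0) := by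
  intro t ht
  have ht' : (0 : ℝ) < t := ht
  by_cases h : ρ ≤ t
  · have : t ^ (2 - s) = t ^ 2 * t ^ (-s) := by
      rw [sub_eq_add_neg, Real.rpow_add ht']; norm_num
    simp [h, this]
  · simp [h]

theorem integrable_kf {s ρ : ℝ} (hs : 3 < s) (hρ : 0 < ρ) : Integrable (kf s ρ) := by
  unfold kf
  apply integrable_radial
  rw [integrableOn_congr_fun (kf_aux s) measurableSet_Ioi, IntegrableOn,
    integrable_indicator_iff measurableSet_Ici]
  rw [IntegrableOn, Measure.restrict_restrict measurableSet_Ici,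
    inter_eq_left.mpr (Ici_subset_Ioi.mpr hρ)]
  have := integrableOn_Ioi_rpow_of_lt (a := 2 - s) (by linarith) hρ
  rwa [← integrableOn_Ici_iff_integrableOn_Ioi] at this

theorem integral_kf {s ρ : ℝ} (hs : 3 < s) (hρ : 0 < ρ) : ∫ z, kf s ρ z = vb / (s - 3) * ρ ^ (3 - s) := by
  unfold kf
  rw [integral_radial, setIntegral_congr_fun measurableSet_Ioi (kf_aux s), integral_indicator measurableSet_Ici,
    Measure.restrict_restrict measurableSet_Ici,
    inter_eq_left.mpr (Ici_subset_Ioi.mpr hρ), integral_Ici_eq_integral_Ioi,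
    integral_Ioi_rpow_of_lt (by linarith) hρ]
  have h1 : 2 - s + 1 = -(s - 3) := by ring
  have h2 : (2 - s + 1) = 3 - s := by ring
  rw [h2]
  have h3 : s - 3 ≠ 0 := by linarith
  have h4 : 3 - s ≠ 0 := by intro h; apply h3; linarith
  field_simp
  ring

/-! ### near part -/

theorem jensen {α : Type*} [MeasurableSpace α] (μ : Measure α) {k f : α → ℝ≥0∞} (hk : Measurable k)
    (hf : Measurable f) {q : ℕ} (hq : 1 ≤ q) :
    (∫⁻ y, k y * f y ∂μ) ^ q ≤ (∫⁻ y, k y ∂μ) ^ (q - 1) * ∫⁻ y, k y * f y ^ q ∂μ := by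
  rcases Nat.eq_or_lt_of_le hq with h1 | h1
  · subst h1; simp
  · have hq0 : (0 : ℝ) < q := by positivity
    have hq1 : (1 : ℝ) < q := by exact_mod_cast h1
    have h := ENNReal.lintegral_mul_norm_pow_le (μ := μ) (f := fun y => k y * f y ^ q) (g := k)
      (by fun_prop) hk.aemeasurable (p := 1 / q) (q := 1 - 1 / q) (by positivity)
      (by rw [sub_nonneg, div_le_one hq0]; exact hq1.le) (by ring)
    have h2 : ∀ y, (k y * f y ^ q) ^ (1 / q : ℝ) * k y ^ (1 - 1 / q : ℝ) = k y * f y := by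
      intro y
      have h3 : (0 : ℝ) ≤ 1 / q := by positivity
      have h4 : (0 : ℝ) < 1 - 1 / q := by rw [sub_pos, div_lt_one hq0]; exact hq1
      rw [ENNReal.mul_rpow_of_nonneg _ _ h3, ← ENNReal.rpow_natCast, ← ENNReal.rpow_mul,
        mul_one_div_cancel hq0.ne', ENNReal.rpow_one, mul_right_comm, ← ENNReal.rpow_add_of_nonneg _ _ h3 h4.le]
      simp
    simp only [h2] at h
    have h5 := ENNReal.pow_le_pow_left (n := q) h
    refine h5.trans (le_of_eq ?_)
    rw [mul_pow, ← ENNReal.rpow_natCast, ← ENNReal.rpow_mul, one_div_mul_cancel hq0.ne', ENNReal.rpow_one,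
      ← ENNReal.rpow_natCast, ← ENNReal.rpow_mul, mul_comm]
    congr 1
    have : (1 - 1 / (q : ℝ)) * q = ((q - 1 : ℕ) : ℝ) := by
      rw [Nat.cast_sub hq]; field_simp; simp
    rw [this, ENNReal.rpow_natCast]

theorem Pn_eq (V : VF) (ρ : ℝ) (x : E) : Pn V ρ x = ∫ y, kn ρ (x - y) * nm V y := by
  unfold Pn
  have hm : MeasurableSet {y : E | ‖x - y‖ < ρ} :=
    measurableSet_lt (by fun_prop) measurable_const
  rw [← integral_indicator hm]
  congr 1
  funext y
  by_cases h : ‖x - y‖ < ρ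
  · simp [kn, h, indicator, div_eq_mul_inv, mul_comm]
  · simp [kn, h, indicator]

theorem Pn_nonneg (V : VF) (ρ : ℝ) (x : E) : 0 ≤ Pn V ρ x := by
  rw [Pn_eq]
  exact integral_nonneg fun y => mul_nonneg (kn_nonneg _ _) (nm_nonneg _ _)

theorem ofReal_Pn_le (V : VF) (ρ : ℝ) (x : E) :
    ENNReal.ofReal (Pn V ρ x) ≤ ∫⁻ y, ENNReal.ofReal (kn ρ (x - y)) * ENNReal.ofReal (nm V y) := by
  rw [Pn_eq]
  have h := norm_integral_le_lintegral_norm (μ := (volume : Measure E)) fun y => kn ρ (x - y) * nm V y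
  have h2 : ∀ y, ENNReal.ofReal ‖kn ρ (x - y) * nm V y‖
      = ENNReal.ofReal (kn ρ (x - y)) * ENNReal.ofReal (nm V y) := by
    intro y
    rw [Real.norm_of_nonneg (mul_nonneg (kn_nonneg _ _) (nm_nonneg _ _)), ENNReal.ofReal_mul (kn_nonneg _ _)]
  simp only [h2] at h
  refine (ENNReal.ofReal_le_ofReal ((Real.le_norm_self _).trans h)).trans ENNReal.ofReal_toReal_le

theorem lint_kn {ρ : ℝ} (hρ : 0 < ρ) (x : E) :
    ∫⁻ y, ENNReal.ofReal (kn ρ (x - y)) = ENNReal.ofReal (vb * ρ) := by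
  rw [lintegral_sub_left_eq_self (fun y => ENNReal.ofReal (kn ρ y)) x,
    ← ofReal_integral_eq_lintegral_ofReal (integrable_kn ρ) (Eventually.of_forall (kn_nonneg ρ)), integral_kn hρ]

theorem kn_neg (ρ : ℝ) (z : E) : kn ρ (-z) = kn ρ z := by unfold kn; rw [norm_neg]

theorem kn_zero {ρ : ℝ} {z : E} (h : ρ ≤ ‖z‖) : kn ρ z = 0 := by
  unfold kn; simp [h]

theorem near_gen {q : ℕ} (hq : 1 ≤ q) {V : VF} (hV : ∀ i, Continuous (V i)) {ρ : ℝ} (hρ : 0 < ρ)
    {S T : Set E} (hS : MeasurableSet S) (hT : MeasurableSet T)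
    (hST : ∀ x ∈ S, ∀ y, ‖x - y‖ < ρ → y ∈ T) (hi : IntegrableOn (fun x => nm V x ^ q) T) :
    (∫ x in S, Pn V ρ x ^ q) ≤ (vb * ρ) ^ q * ∫ x in T, nm V x ^ q := by
  have hvb := vb_pos
  have hcont : Continuous (nm V) := continuous_nm hV
  have h0 : 0 ≤ (vb * ρ) ^ q * ∫ x in T, nm V x ^ q := by
    apply mul_nonneg (by positivity)
    exact integral_nonneg fun y => pow_nonneg (nm_nonneg _ _) _
  refine (Real.le_norm_self _).trans ((norm_integral_le_lintegral_norm _).trans ?_)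
  apply ENNReal.toReal_le_of_le_ofReal h0
  have hk : Measurable fun y : E => ENNReal.ofReal (kn ρ y) := (measurable_kn ρ).ennreal_ofReal
  have hf : Measurable fun y : E => ENNReal.ofReal (nm V y) := hcont.measurable.ennreal_ofReal
  calc ∫⁻ x in S, ENNReal.ofReal ‖Pn V ρ x ^ q‖
      ≤ ∫⁻ x in S, (∫⁻ y, ENNReal.ofReal (kn ρ (x - y)) * ENNReal.ofReal (nm V y)) ^ q := by
        apply lintegral_mono
        intro x
        dsimp only
        rw [Real.norm_of_nonneg (pow_nonneg (Pn_nonneg _ _ _) _), ENNReal.ofReal_pow (Pn_nonneg _ _ _)]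
        exact pow_le_pow_left' (ofReal_Pn_le V ρ x) q
    _ ≤ ∫⁻ x in S, (ENNReal.ofReal (vb * ρ)) ^ (q - 1) *
          ∫⁻ y, ENNReal.ofReal (kn ρ (x - y)) * ENNReal.ofReal (nm V y) ^ q := by
        apply lintegral_mono
        intro x
        have := jensen (volume : Measure E) (k := fun y => ENNReal.ofReal (kn ρ (x - y)))
          (hk.comp (measurable_const.sub measurable_id)) hf hq
        rwa [lint_kn hρ] at this
    _ = (ENNReal.ofReal (vb * ρ)) ^ (q - 1) *
          ∫⁻ x in S, ∫⁻ y, ENNReal.ofReal (kn ρ (x - y)) * ENNReal.ofReal (nm V y) ^ q := by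
        rw [lintegral_const_mul']
        exact ENNReal.pow_ne_top ENNReal.ofReal_ne_top
    _ = (ENNReal.ofReal (vb * ρ)) ^ (q - 1) *
          ∫⁻ y, ∫⁻ x in S, ENNReal.ofReal (kn ρ (x - y)) * ENNReal.ofReal (nm V y) ^ q := by
        rw [lintegral_lintegral_swap]
        apply Measurable.aemeasurable
        have h1 : Measurable fun z : E × E => ENNReal.ofReal (kn ρ (z.1 - z.2)) :=
          hk.comp (measurable_fst.sub measurable_snd)
        exact h1.mul ((hf.comp measurable_snd).pow_const q)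
    _ ≤ (ENNReal.ofReal (vb * ρ)) ^ (q - 1) *
          ∫⁻ y in T, ENNReal.ofReal (vb * ρ) * ENNReal.ofReal (nm V y) ^ q := by
        apply mul_le_mul_right
        rw [← lintegral_indicator hT]
        apply lintegral_mono
        intro y
        dsimp only
        by_cases hy : y ∈ T
        · rw [indicator_of_mem hy, lintegral_mul_const' _ _ (ENNReal.pow_ne_top ENNReal.ofReal_ne_top)]
          gcongr
          calc ∫⁻ x in S, ENNReal.ofReal (kn ρ (x - y)) ≤ ∫⁻ x, ENNReal.ofReal (kn ρ (x - y)) :=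
                setLIntegral_le_lintegral _ _
            _ = ∫⁻ x, ENNReal.ofReal (kn ρ (y - x)) := by
                congr 1; funext x; rw [← kn_neg, neg_sub]
            _ = ENNReal.ofReal (vb * ρ) := lint_kn hρ y
        · rw [indicator_of_notMem hy]
          apply le_of_eq
          rw [setLIntegral_congr_fun (g := fun _ => 0) hS]
          · simp
          · intro x hx
            have : ρ ≤ ‖x - y‖ := by
              by_contra h
              exact hy (hST x hx y (not_le.mp h))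
            simp [kn_zero this]
    _ = ENNReal.ofReal ((vb * ρ) ^ q * ∫ x in T, nm V x ^ q) := by
        have hvr : 0 ≤ vb * ρ := by positivity
        rw [lintegral_const_mul' _ _ ENNReal.ofReal_ne_top, ENNReal.ofReal_mul (pow_nonneg hvr q),
          ENNReal.ofReal_pow hvr,
          ofReal_integral_eq_lintegral_ofReal hi (Eventually.of_forall fun y => pow_nonneg (nm_nonneg _ _) _),
          ← mul_assoc]
        congr 1
        · rw [← pow_succ]; congr 1; omega
        · congr 1; funext y; rw [ENNReal.ofReal_pow (nm_nonneg _ _)]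

end Riesz

theorem near_shell (q : ℕ) (hq : 1 ≤ q) : ∃ C : ℝ, 0 < C ∧ ∀ (V : VF) (r s ρ : ℝ), (∀ i, Continuous (V i)) →
    0 < ρ → (∫ x in Sh r s, Pn V ρ x ^ q) ≤ (C * ρ) ^ q * ∫ x in Sh (r - ρ) (s + ρ), nm V x ^ q := by
  refine ⟨Riesz.vb, Riesz.vb_pos, fun V r s ρ hV hρ => ?_⟩
  apply Riesz.near_gen hq hV hρ (measurableSet_Sh _ _) (measurableSet_Sh _ _)
  · intro x hx y hxy
    have h1 : |‖x‖ - ‖y‖| ≤ ‖x - y‖ := abs_norm_sub_norm_le x y
    have h2 := abs_le.mp (h1.trans hxy.le)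
    exact ⟨by linarith [hx.1, h2.2], by linarith [hx.2, h2.1]⟩
  · exact ((continuous_nm hV).pow q).continuousOn.integrableOn_compact (isCompact_Sh _ _)

theorem near_ball (q : ℕ) (hq : 1 ≤ q) : ∃ C : ℝ, 0 < C ∧ ∀ (V : VF) (r ρ : ℝ), (∀ i, Continuous (V i)) →
    0 < ρ → (∫ x in Metric.ball (0 : E) r, Pn V ρ x ^ q)
      ≤ (C * ρ) ^ q * ∫ x in Metric.ball (0 : E) (r + ρ), nm V x ^ q := by
  refine ⟨Riesz.vb, Riesz.vb_pos, fun V r ρ hV hρ => ?_⟩
  apply Riesz.near_gen hq hV hρ measurableSet_ball measurableSet_ball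
  · intro x hx y hxy
    have h1 : |‖x‖ - ‖y‖| ≤ ‖x - y‖ := abs_norm_sub_norm_le x y
    have h2 := abs_le.mp (h1.trans hxy.le)
    have h3 : ‖x‖ < r := by simpa using hx
    have : ‖y‖ < r + ρ := by linarith [h2.1]
    simpa using this
  · exact (((continuous_nm hV).pow q).continuousOn.integrableOn_compact
      (isCompact_closedBall (0 : E) (r + ρ))).mono_set Metric.ball_subset_closedBall

namespace Riesz

theorem memLp_of_rpow {α : Type*} [MeasurableSpace α] {μ : Measure α} {f : α → ℝ} (hf : AEStronglyMeasurable f μ)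
    (h0 : ∀ x, 0 ≤ f x) {p : ℝ} (hp : 0 < p) (hi : Integrable (fun x => f x ^ p) μ) :
    MemLp f (ENNReal.ofReal p) μ := by
  rw [← integrable_norm_rpow_iff hf (by simpa using hp) ENNReal.ofReal_ne_top, ENNReal.toReal_ofReal hp.le]
  refine hi.congr (Eventually.of_forall fun x => ?_)
  simp only [Real.norm_of_nonneg (h0 x)]

theorem far_gen (p β : ℝ) (h1 : 1 < p) (hβ0 : 0 ≤ β) (hβ : β < 3 - p) : ∃ C : ℝ, 0 < C ∧
    ∀ (V : VF) (ρ : ℝ) (x : E), (∀ i, Continuous (V i)) → Integrable (fun x => nm V x ^ p) → 0 < ρ →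
    Integrable (fun y => nm V y ^ p * ‖x - y‖ ^ (-β)) (volume.restrict {y : E | ρ ≤ ‖x - y‖}) ∧
    Pf V ρ x ≤ C * ρ ^ (1 - 3 / p + β / p) *
      (∫ y in {y : E | ρ ≤ ‖x - y‖}, nm V y ^ p * ‖x - y‖ ^ (-β)) ^ (1 / p) := by
  have hp0 : 0 < p := by linarith
  obtain ⟨p', hp'⟩ : ∃ p', p' = p / (p - 1) := ⟨_, rfl⟩
  have hconj : p.HolderConjugate p' := by
    rw [hp']; exact Real.HolderConjugate.conjExponent h1
  have hp'0 : 0 < p' := hconj.symm.pos
  have hinv : 1 / p' = 1 - 1 / p := by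
    rw [one_div, one_div, hconj.one_sub_inv]
  obtain ⟨s, hs⟩ : ∃ s, s = (2 - β / p) * p' := ⟨_, rfl⟩
  have hs3 : 3 < s := by
    rw [hs, hp', ← mul_div_assoc, lt_div_iff₀ (by linarith)]
    have : β / p * p = β := div_mul_cancel₀ _ hp0.ne'
    nlinarith
  have hvb := vb_pos
  have hs30 : 0 < s - 3 := by linarith
  refine ⟨(vb / (s - 3)) ^ (1 / p'), by positivity, fun V ρ x hV hi hρ => ?_⟩
  have hm : MeasurableSet {y : E | ρ ≤ ‖x - y‖} :=
    measurableSet_le measurable_const (by fun_prop)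
  obtain ⟨μ, hμ⟩ : ∃ μ, μ = (volume : Measure E).restrict {y : E | ρ ≤ ‖x - y‖} := ⟨_, rfl⟩
  have hpos : ∀ y ∈ {y : E | ρ ≤ ‖x - y‖}, 0 < ‖x - y‖ := fun y hy => lt_of_lt_of_le hρ hy
  have hcont : Continuous (nm V) := continuous_nm hV
  have hmn : Measurable (fun y : E => ‖x - y‖) := by fun_prop
  -- integrability of the weighted power
  have hiw : Integrable (fun y => nm V y ^ p * ‖x - y‖ ^ (-β)) μ := by
    rw [hμ]
    apply Integrable.mono' ((hi.integrableOn (s := {y : E | ρ ≤ ‖x - y‖})).mul_const (ρ ^ (-β)))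
    · exact ((hcont.measurable.pow_const p).mul (hmn.pow_const (-β))).aestronglyMeasurable
    · filter_upwards [ae_restrict_mem hm] with y hy
      have hy' : ρ ≤ ‖x - y‖ := hy
      rw [Real.norm_of_nonneg (mul_nonneg (Real.rpow_nonneg (nm_nonneg _ _) _) (Real.rpow_nonneg (norm_nonneg _) _))]
      apply mul_le_mul_of_nonneg_left _ (Real.rpow_nonneg (nm_nonneg _ _) _)
      exact Real.rpow_le_rpow_of_nonpos hρ hy' (by linarith)
  refine ⟨by rw [← hμ]; exact hiw, ?_⟩
  have hFp : ∀ y, (nm V y * ‖x - y‖ ^ (-β / p)) ^ p = nm V y ^ p * ‖x - y‖ ^ (-β) := by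
    intro y
    rw [Real.mul_rpow (nm_nonneg _ _) (Real.rpow_nonneg (norm_nonneg _) _), ← Real.rpow_mul (norm_nonneg _),
      div_mul_cancel₀ _ hp0.ne']
  have hGp : ∀ y, (‖x - y‖ ^ (-(2 - β / p))) ^ p' = ‖x - y‖ ^ (-s) := by
    intro y
    rw [← Real.rpow_mul (norm_nonneg _), hs, neg_mul]
  have hF : MemLp (fun y => nm V y * ‖x - y‖ ^ (-β / p)) (ENNReal.ofReal p) μ := by
    apply memLp_of_rpow
    · exact (hcont.measurable.mul (hmn.pow_const _)).aestronglyMeasurable
    · intro y; exact mul_nonneg (nm_nonneg _ _) (Real.rpow_nonneg (norm_nonneg _) _)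
    · exact hp0
    · simp only [hFp]; exact hiw
  have hker : EqOn (fun y => ‖x - y‖ ^ (-s)) (fun y => kf s ρ (x - y)) {y : E | ρ ≤ ‖x - y‖} := by
    intro y hy
    have hy' : ρ ≤ ‖x - y‖ := hy
    simp [kf, hy']
  have hGi : Integrable (fun y => ‖x - y‖ ^ (-s)) μ := by
    rw [hμ]
    change IntegrableOn _ _ _
    rw [integrableOn_congr_fun hker hm]
    exact ((integrable_kf hs3 hρ).comp_sub_left x).integrableOn
  have hG : MemLp (fun y => ‖x - y‖ ^ (-(2 - β / p))) (ENNReal.ofReal p') μ := by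
    apply memLp_of_rpow
    · exact (hmn.pow_const _).aestronglyMeasurable
    · intro y; exact Real.rpow_nonneg (norm_nonneg _) _
    · exact hp'0
    · simp only [hGp]; exact hGi
  have hH := integral_mul_le_Lp_mul_Lq_of_nonneg hconj
    (Eventually.of_forall fun y => mul_nonneg (nm_nonneg V y) (Real.rpow_nonneg (norm_nonneg (x - y)) (-β / p)))
    (Eventually.of_forall fun y => Real.rpow_nonneg (norm_nonneg (x - y)) (-(2 - β / p))) hF hG
  simp only [hFp, hGp] at hH
  have hLHS : Pf V ρ x = ∫ y, nm V y * ‖x - y‖ ^ (-β / p) * ‖x - y‖ ^ (-(2 - β / p)) ∂μ := by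
    unfold Pf
    rw [hμ]
    apply setIntegral_congr_fun hm
    intro y hy
    have := hpos y hy
    dsimp only
    rw [mul_assoc, ← Real.rpow_add this, div_eq_mul_inv, ← Real.rpow_natCast, ← Real.rpow_neg (norm_nonneg _)]
    congr 2
    push_cast
    ring
  have hGint : ∫ y, ‖x - y‖ ^ (-s) ∂μ ≤ vb / (s - 3) * ρ ^ (3 - s) := by
    rw [hμ, setIntegral_congr_fun hm hker, ← integral_kf hs3 hρ, ← integral_sub_left_eq_self (fun y => kf s ρ y) volume x]
    apply setIntegral_le_integral ((integrable_kf hs3 hρ).comp_sub_left x)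
    exact Eventually.of_forall fun y => kf_nonneg hρ _ _
  have hGint0 : 0 ≤ ∫ y, ‖x - y‖ ^ (-s) ∂μ := integral_nonneg fun y => Real.rpow_nonneg (norm_nonneg _) _
  have hA0 : 0 ≤ (∫ y, nm V y ^ p * ‖x - y‖ ^ (-β) ∂μ) ^ (1 / p) := by
    apply Real.rpow_nonneg
    exact integral_nonneg fun y => mul_nonneg (Real.rpow_nonneg (nm_nonneg _ _) _) (Real.rpow_nonneg (norm_nonneg _) _)
  rw [← hLHS] at hH
  rw [← hμ]
  calc Pf V ρ x ≤ (∫ y, nm V y ^ p * ‖x - y‖ ^ (-β) ∂μ) ^ (1 / p) * (∫ y, ‖x - y‖ ^ (-s) ∂μ) ^ (1 / p') := hH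
    _ ≤ (∫ y, nm V y ^ p * ‖x - y‖ ^ (-β) ∂μ) ^ (1 / p) * (vb / (s - 3) * ρ ^ (3 - s)) ^ (1 / p') := by
        apply mul_le_mul_of_nonneg_left _ hA0
        exact Real.rpow_le_rpow hGint0 hGint (by positivity)
    _ = (vb / (s - 3)) ^ (1 / p') * ρ ^ (1 - 3 / p + β / p) * (∫ y, nm V y ^ p * ‖x - y‖ ^ (-β) ∂μ) ^ (1 / p) := by
        rw [Real.mul_rpow (by positivity) (by positivity), ← Real.rpow_mul hρ.le]
        have : (3 - s) * (1 / p') = 1 - 3 / p + β / p := by
          have h5 : s * (1 / p') = 2 - β / p := by rw [hs]; field_simp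
          rw [sub_mul, h5, hinv]
          ring
        rw [this]
        ring

end Riesz

theorem far_sup (p : ℝ) (h1 : 1 < p) (h3 : p < 3) : ∃ C : ℝ, 0 < C ∧ ∀ (V : VF) (ρ : ℝ) (x : E),
    (∀ i, Continuous (V i)) → Integrable (fun x => nm V x ^ p) → 0 < ρ →
    Pf V ρ x ≤ C * ρ ^ (1 - 3 / p) * (∫ y, nm V y ^ p) ^ (1 / p) := by
  obtain ⟨C, hC, h⟩ := Riesz.far_gen p 0 h1 le_rfl (by linarith)
  refine ⟨C, hC, fun V ρ x hV hi hρ => ?_⟩
  obtain ⟨h2, h3⟩ := h V ρ x hV hi hρ
  refine h3.trans ?_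
  simp only [zero_div, add_zero, neg_zero, Real.rpow_zero, mul_one]
  have hA0 : 0 ≤ ∫ y in {y : E | ρ ≤ ‖x - y‖}, nm V y ^ p :=
    integral_nonneg fun y => Real.rpow_nonneg (nm_nonneg _ _) _
  apply mul_le_mul_of_nonneg_left _ (by positivity)
  apply Real.rpow_le_rpow hA0 _ (by positivity)
  exact setIntegral_le_integral hi (Eventually.of_forall fun y => Real.rpow_nonneg (nm_nonneg _ _) _)

theorem Riesz.wt_pos {η : ℝ} (hη : 0 < η) (t : ℝ) : 0 < max |t| η := lt_of_lt_of_le hη (le_max_right _ _)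

theorem Riesz.integrable_Gw {V : VF} (hV : ∀ i, Continuous (V i)) {p : ℝ}
    (hi : Integrable (fun x => nm V x ^ p)) {β η : ℝ} (hβ : 0 ≤ β) (hη : 0 < η) (r : ℝ) :
    Integrable (fun y : E => nm V y ^ p * (max |‖y‖ - r| η) ^ (-β)) := by
  apply Integrable.mono' (hi.mul_const (η ^ (-β)))
  · have h1 : Measurable fun y : E => (max |‖y‖ - r| η) := by fun_prop
    exact (((continuous_nm hV).measurable.pow_const p).mul (h1.pow_const (-β))).aestronglyMeasurable
  · refine Eventually.of_forall fun y => ?_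
    have h2 := Riesz.wt_pos hη (‖y‖ - r)
    rw [Real.norm_of_nonneg (mul_nonneg (Real.rpow_nonneg (nm_nonneg _ _) _) (Real.rpow_nonneg h2.le _))]
    apply mul_le_mul_of_nonneg_left _ (Real.rpow_nonneg (nm_nonneg _ _) _)
    exact Real.rpow_le_rpow_of_nonpos hη (le_max_right _ _) (by linarith)

theorem far_thin (p : ℝ) (h1 : 1 < p) (h2 : p < 2) : ∃ C : ℝ, 0 < C ∧ ∀ (V : VF) (η r : ℝ) (x : E),
    (∀ i, Continuous (V i)) → Integrable (fun x => nm V x ^ p) → 0 < η → x ∈ Sh r (r + η) →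
    Pf V η x ≤ C * η ^ (1 - 3 / p + (4 - p) / (2 * p)) * (Gw V p ((4 - p) / 2) η r) ^ (1 / p) := by
  have hp0 : 0 < p := by linarith
  have hβ0 : 0 ≤ (4 - p) / 2 := by linarith
  obtain ⟨C, hC, h⟩ := Riesz.far_gen p ((4 - p) / 2) h1 hβ0 (by linarith)
  refine ⟨C * (2 ^ ((4 - p) / 2)) ^ (1 / p), by positivity, fun V η r x hV hi hη hx => ?_⟩
  obtain ⟨h3, h4⟩ := h V η x hV hi hη
  refine h4.trans ?_
  have hm : MeasurableSet {y : E | η ≤ ‖x - y‖} :=
    measurableSet_le measurable_const (by fun_prop)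
  have hA0 : 0 ≤ ∫ y in {y : E | η ≤ ‖x - y‖}, nm V y ^ p * ‖x - y‖ ^ (-((4 - p) / 2)) :=
    integral_nonneg fun y => mul_nonneg (Real.rpow_nonneg (nm_nonneg _ _) _) (Real.rpow_nonneg (norm_nonneg _) _)
  have hGi := Riesz.integrable_Gw hV hi hβ0 hη r
  have hG0 : 0 ≤ Gw V p ((4 - p) / 2) η r :=
    integral_nonneg fun y => mul_nonneg (Real.rpow_nonneg (nm_nonneg _ _) _)
      (Real.rpow_nonneg (Riesz.wt_pos hη _).le _)
  have hle : (∫ y in {y : E | η ≤ ‖x - y‖}, nm V y ^ p * ‖x - y‖ ^ (-((4 - p) / 2)))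
      ≤ 2 ^ ((4 - p) / 2) * Gw V p ((4 - p) / 2) η r := by
    calc (∫ y in {y : E | η ≤ ‖x - y‖}, nm V y ^ p * ‖x - y‖ ^ (-((4 - p) / 2)))
        ≤ ∫ y in {y : E | η ≤ ‖x - y‖}, 2 ^ ((4 - p) / 2) * (nm V y ^ p * (max |‖y‖ - r| η) ^ (-((4 - p) / 2))) := by
          apply setIntegral_mono_on h3 (hGi.const_mul _).integrableOn hm
          intro y hy
          have hy' : η ≤ ‖x - y‖ := hy
          have h5 : |‖x‖ - ‖y‖| ≤ ‖x - y‖ := abs_norm_sub_norm_le x y
          have h6 := abs_le.mp h5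
          have h7 : |‖y‖ - r| ≤ 2 * ‖x - y‖ := by
            rw [abs_le]
            constructor
            · linarith [hx.1, h6.2]
            · linarith [hx.2, h6.1]
          have h8 : max |‖y‖ - r| η ≤ 2 * ‖x - y‖ := max_le h7 (by linarith)
          have h9 := Riesz.wt_pos hη (‖y‖ - r)
          have h10 : (2 * ‖x - y‖) ^ (-((4 - p) / 2)) ≤ (max |‖y‖ - r| η) ^ (-((4 - p) / 2)) :=
            Real.rpow_le_rpow_of_nonpos h9 h8 (by linarith)
          rw [Real.mul_rpow (by norm_num) (norm_nonneg _)] at h10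
          have h11 : (2 : ℝ) ^ ((4 - p) / 2) * 2 ^ (-((4 - p) / 2)) = 1 := by
            rw [← Real.rpow_add (by norm_num)]; simp
          have h12 : ‖x - y‖ ^ (-((4 - p) / 2)) ≤ 2 ^ ((4 - p) / 2) * (max |‖y‖ - r| η) ^ (-((4 - p) / 2)) := by
            calc ‖x - y‖ ^ (-((4 - p) / 2)) = 2 ^ ((4 - p) / 2) * (2 ^ (-((4 - p) / 2)) * ‖x - y‖ ^ (-((4 - p) / 2))) := by
                  rw [← mul_assoc, h11, one_mul]
              _ ≤ _ := by gcongr
          calc nm V y ^ p * ‖x - y‖ ^ (-((4 - p) / 2))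
              ≤ nm V y ^ p * (2 ^ ((4 - p) / 2) * (max |‖y‖ - r| η) ^ (-((4 - p) / 2))) :=
                mul_le_mul_of_nonneg_left h12 (Real.rpow_nonneg (nm_nonneg _ _) _)
            _ = _ := by ring
      _ ≤ ∫ y, 2 ^ ((4 - p) / 2) * (nm V y ^ p * (max |‖y‖ - r| η) ^ (-((4 - p) / 2))) := by
          apply setIntegral_le_integral (hGi.const_mul _)
          refine Eventually.of_forall fun y => ?_
          have h9 := Riesz.wt_pos hη (‖y‖ - r)
          have := nm_nonneg V y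
          simp only [Pi.zero_apply]
          positivity
      _ = 2 ^ ((4 - p) / 2) * Gw V p ((4 - p) / 2) η r := by
          rw [integral_const_mul]; rfl
  have hexp : (4 - p) / 2 / p = (4 - p) / (2 * p) := by field_simp
  rw [hexp]
  calc C * η ^ (1 - 3 / p + (4 - p) / (2 * p)) *
        (∫ y in {y : E | η ≤ ‖x - y‖}, nm V y ^ p * ‖x - y‖ ^ (-((4 - p) / 2))) ^ (1 / p)
      ≤ C * η ^ (1 - 3 / p + (4 - p) / (2 * p)) * (2 ^ ((4 - p) / 2) * Gw V p ((4 - p) / 2) η r) ^ (1 / p) := by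
        gcongr
    _ = _ := by
        rw [Real.mul_rpow (by positivity) hG0]; ring

namespace Riesz

theorem integrable_w1 {β : ℝ} (hβ : 1 < β) : Integrable (fun t : ℝ => (max |t| 1) ^ (-β)) := by
  have h := (integrable_one_add_norm (E := ℝ) (μ := volume) (r := β) (by simpa using hβ)).const_mul ((2 : ℝ) ^ β)
  apply Integrable.mono' h
  · exact Measurable.aestronglyMeasurable (by fun_prop)
  · refine Eventually.of_forall fun t => ?_
    have h0 := Riesz.wt_pos one_pos t
    rw [Real.norm_of_nonneg (Real.rpow_nonneg h0.le _)]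
    have h1 : 1 + ‖t‖ ≤ 2 * max |t| 1 := by
      rw [Real.norm_eq_abs]
      linarith [le_max_left |t| 1, le_max_right |t| 1]
    have h2 : (2 * max |t| 1) ^ (-β) ≤ (1 + ‖t‖) ^ (-β) :=
      Real.rpow_le_rpow_of_nonpos (by positivity) h1 (by linarith)
    rw [Real.mul_rpow (by norm_num) h0.le] at h2
    have h11 : (2 : ℝ) ^ β * 2 ^ (-β) = 1 := by
      rw [← Real.rpow_add (by norm_num)]; simp
    calc (max |t| 1) ^ (-β) = 2 ^ β * (2 ^ (-β) * (max |t| 1) ^ (-β)) := by
          rw [← mul_assoc, h11, one_mul]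
      _ ≤ 2 ^ β * (1 + ‖t‖) ^ (-β) := by gcongr

theorem w_scale {β η : ℝ} (hη : 0 < η) (t : ℝ) :
    (max |t| η) ^ (-β) = η ^ (-β) * (max |η⁻¹ * t| 1) ^ (-β) := by
  rw [← Real.mul_rpow hη.le (Riesz.wt_pos one_pos _).le]
  congr 1
  rw [mul_max_of_nonneg _ _ hη.le, abs_mul, abs_of_pos (inv_pos.mpr hη), ← mul_assoc, mul_inv_cancel₀ hη.ne']
  simp

theorem integrable_w {β η : ℝ} (hβ : 1 < β) (hη : 0 < η) : Integrable (fun t : ℝ => (max |t| η) ^ (-β)) := by
  simp only [w_scale hη]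
  exact ((integrable_w1 hβ).comp_mul_left' (inv_ne_zero hη.ne')).const_mul _

theorem integral_w {β η : ℝ} (hη : 0 < η) :
    ∫ t : ℝ, (max |t| η) ^ (-β) = η ^ (1 - β) * ∫ t : ℝ, (max |t| 1) ^ (-β) := by
  simp only [w_scale hη]
  rw [integral_const_mul, Measure.integral_comp_mul_left (fun t : ℝ => (max |t| 1) ^ (-β)) η⁻¹,
    inv_inv, abs_of_pos hη, smul_eq_mul, ← mul_assoc]
  congr 1
  rw [sub_eq_add_neg, Real.rpow_add hη, Real.rpow_one, mul_comm]

end Riesz

theorem Gw_avg (p : ℝ) (h1 : 1 < p) (h2 : p < 2) : ∃ C : ℝ, 0 < C ∧ ∀ (V : VF) (η R δ : ℝ),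
    (∀ i, Continuous (V i)) → Integrable (fun x => nm V x ^ p) → 0 < η → 0 < δ →
    IntegrableOn (fun r => Gw V p ((4 - p) / 2) η r) (Icc R (R + δ)) ∧
    (∫ r in Icc R (R + δ), Gw V p ((4 - p) / 2) η r) ≤ C * η ^ (1 - (4 - p) / 2) * ∫ y, nm V y ^ p := by
  obtain ⟨β, hβ⟩ : ∃ β, β = (4 - p) / 2 := ⟨_, rfl⟩
  have hβ1 : 1 < β := by rw [hβ]; linarith
  rw [← hβ]
  have hI0 : 0 ≤ ∫ t : ℝ, (max |t| 1) ^ (-β) :=
    integral_nonneg fun t => Real.rpow_nonneg (Riesz.wt_pos one_pos _).le _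
  refine ⟨(∫ t : ℝ, (max |t| 1) ^ (-β)) + 1, by positivity, fun V η R δ hV hi hη hδ => ?_⟩
  have hcont := continuous_nm hV
  have hwm : Measurable fun z : ℝ × E => max |‖z.2‖ - z.1| η := by fun_prop
  have hint : Integrable (Function.uncurry fun (r : ℝ) (y : E) => nm V y ^ p * (max |‖y‖ - r| η) ^ (-β))
      ((volume.restrict (Icc R (R + δ))).prod volume) := by
    have h3 : Integrable (fun _ : ℝ => η ^ (-β)) (volume.restrict (Icc R (R + δ))) :=
      integrableOn_const (by simp)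
    apply Integrable.mono' (h3.mul_prod hi)
    · apply Measurable.aestronglyMeasurable
      exact ((hcont.measurable.comp measurable_snd).pow_const p).mul (hwm.pow_const (-β))
    · refine Eventually.of_forall fun z => ?_
      have h4 := Riesz.wt_pos hη (‖z.2‖ - z.1)
      simp only [Function.uncurry]
      rw [Real.norm_of_nonneg (mul_nonneg (Real.rpow_nonneg (nm_nonneg _ _) _) (Real.rpow_nonneg h4.le _)), mul_comm]
      apply mul_le_mul_of_nonneg_right _ (Real.rpow_nonneg (nm_nonneg _ _) _)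
      exact Real.rpow_le_rpow_of_nonpos hη (le_max_right _ _) (by linarith)
  refine ⟨hint.integral_prod_left, ?_⟩
  calc (∫ r in Icc R (R + δ), Gw V p β η r)
      = ∫ r in Icc R (R + δ), ∫ y : E, nm V y ^ p * (max |‖y‖ - r| η) ^ (-β) := rfl
    _ = ∫ y : E, ∫ r in Icc R (R + δ), nm V y ^ p * (max |‖y‖ - r| η) ^ (-β) := integral_integral_swap hint
    _ ≤ ∫ y : E, nm V y ^ p * (η ^ (1 - β) * ∫ t : ℝ, (max |t| 1) ^ (-β)) := by
        apply integral_mono hint.integral_prod_right (hi.mul_const _)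
        intro y
        dsimp only [Function.uncurry]
        rw [integral_const_mul]
        apply mul_le_mul_of_nonneg_left _ (Real.rpow_nonneg (nm_nonneg _ _) _)
        rw [← Riesz.integral_w hη, ← integral_sub_left_eq_self (fun t : ℝ => (max |t| η) ^ (-β)) volume ‖y‖]
        apply setIntegral_le_integral ((Riesz.integrable_w hβ1 hη).comp_sub_left ‖y‖)
        exact Eventually.of_forall fun r => Real.rpow_nonneg (Riesz.wt_pos hη _).le _
    _ = (∫ t : ℝ, (max |t| 1) ^ (-β)) * η ^ (1 - β) * ∫ y, nm V y ^ p := by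
        rw [integral_mul_const]; ring
    _ ≤ ((∫ t : ℝ, (max |t| 1) ^ (-β)) + 1) * η ^ (1 - β) * ∫ y, nm V y ^ p := by
        have h5 : 0 ≤ ∫ y, nm V y ^ p := integral_nonneg fun y => Real.rpow_nonneg (nm_nonneg _ _) _
        gcongr
        linarith

theorem shell_avg {f : E → ℝ} (hf : Continuous f) (h0 : ∀ x, 0 ≤ f x) {R δ c d : ℝ} (hδ : 0 < δ)
    (hc : 0 ≤ c) (hd : 0 ≤ d) :
    IntegrableOn (fun r => ∫ x in Sh (r - c) (r + d), f x) (Icc R (R + δ)) ∧
    (∫ r in Icc R (R + δ), ∫ x in Sh (r - c) (r + d), f x)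
      ≤ (c + d) * ∫ x in Sh (R - c) (R + δ + d), f x := by
  have hfi : IntegrableOn f (Sh (R - c) (R + δ + d)) := hf.continuousOn.integrableOn_compact (isCompact_Sh _ _)
  have hI : Integrable ((Sh (R - c) (R + δ + d)).indicator f) :=
    (integrable_indicator_iff (measurableSet_Sh _ _)).mpr hfi
  have hms : MeasurableSet {z : ℝ × E | z.2 ∈ Sh (z.1 - c) (z.1 + d)} := by
    unfold Sh
    exact (measurableSet_le (f := fun z : ℝ × E => z.1 - c) (g := fun z : ℝ × E => ‖z.2‖) (by fun_prop) (by fun_prop)).inter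
      (measurableSet_le (f := fun z : ℝ × E => ‖z.2‖) (g := fun z : ℝ × E => z.1 + d) (by fun_prop) (by fun_prop))
  have heq : ∀ r, (∫ x in Sh (r - c) (r + d), f x) = ∫ x, (Sh (r - c) (r + d)).indicator f x := fun r =>
    (integral_indicator (measurableSet_Sh _ _)).symm
  have hint : Integrable (Function.uncurry fun (r : ℝ) (x : E) => (Sh (r - c) (r + d)).indicator f x)
      ((volume.restrict (Icc R (R + δ))).prod volume) := by
    have h3 : Integrable (fun _ : ℝ => (1 : ℝ)) (volume.restrict (Icc R (R + δ))) :=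
      integrableOn_const (by simp)
    apply Integrable.mono' (h3.mul_prod hI)
    · apply Measurable.aestronglyMeasurable
      have : (Function.uncurry fun (r : ℝ) (x : E) => (Sh (r - c) (r + d)).indicator f x)
          = {z : ℝ × E | z.2 ∈ Sh (z.1 - c) (z.1 + d)}.indicator (fun z => f z.2) := by
        funext z
        simp only [Function.uncurry]
        by_cases h : z.2 ∈ Sh (z.1 - c) (z.1 + d)
        · rw [indicator_of_mem h, indicator_of_mem (s := {z : ℝ × E | z.2 ∈ Sh (z.1 - c) (z.1 + d)}) h]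
        · rw [indicator_of_notMem h, indicator_of_notMem (s := {z : ℝ × E | z.2 ∈ Sh (z.1 - c) (z.1 + d)}) h]
      rw [this]
      exact (hf.measurable.comp measurable_snd).indicator hms
    · have hae : ∀ᵐ z : ℝ × E ∂((volume.restrict (Icc R (R + δ))).prod volume), z.1 ∈ Icc R (R + δ) :=
        Measure.quasiMeasurePreserving_fst.ae (ae_restrict_mem measurableSet_Icc)
      filter_upwards [hae] with z hz
      simp only [Function.uncurry, one_mul]
      rw [Real.norm_of_nonneg (indicator_nonneg (fun x _ => h0 x) _)]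
      apply indicator_le_indicator_of_subset _ (fun x => h0 x)
      intro x hx
      exact ⟨by linarith [hx.1, hz.1], by linarith [hx.2, hz.2]⟩
  simp only [heq]
  refine ⟨hint.integral_prod_left, ?_⟩
  rw [integral_integral_swap hint, ← integral_indicator (measurableSet_Sh _ _), ← integral_const_mul]
  apply integral_mono hint.integral_prod_right (hI.const_mul _)
  intro x
  dsimp only [Function.uncurry]
  by_cases hx : x ∈ Sh (R - c) (R + δ + d)
  · rw [indicator_of_mem hx]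
    calc ∫ r in Icc R (R + δ), (Sh (r - c) (r + d)).indicator f x
        ≤ ∫ r in Icc R (R + δ), (Icc (‖x‖ - d) (‖x‖ + c)).indicator (fun _ => f x) r := by
          apply le_of_eq
          congr 1
          funext r
          by_cases h : x ∈ Sh (r - c) (r + d)
          · have h' : r ∈ Icc (‖x‖ - d) (‖x‖ + c) := ⟨by linarith [h.2], by linarith [h.1]⟩
            rw [indicator_of_mem h, indicator_of_mem h']
          · have h' : r ∉ Icc (‖x‖ - d) (‖x‖ + c) := by
              intro h'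
              exact h ⟨by linarith [h'.2], by linarith [h'.1]⟩
            rw [indicator_of_notMem h, indicator_of_notMem h']
      _ ≤ ∫ r, (Icc (‖x‖ - d) (‖x‖ + c)).indicator (fun _ => f x) r := by
          apply setIntegral_le_integral
          · rw [integrable_indicator_iff measurableSet_Icc]
            exact integrableOn_const (by simp)
          · exact Eventually.of_forall fun r => indicator_nonneg (fun _ _ => h0 x) _
      _ = (c + d) * f x := by
          rw [integral_indicator measurableSet_Icc, setIntegral_const]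
          simp only [smul_eq_mul, Real.volume_real_Icc]
          rw [max_eq_left (by linarith)]
          ring
  · rw [indicator_of_notMem hx, mul_zero]
    apply le_of_eq
    rw [setIntegral_congr_fun (g := fun _ => 0) measurableSet_Icc]
    · simp
    · intro r hr
      dsimp only
      rw [indicator_of_notMem]
      intro h
      exact hx ⟨by linarith [h.1, hr.1], by linarith [h.2, hr.2]⟩

theorem pigeon {n : ℕ} {R δ : ℝ} (hδ : 0 < δ) (F : Fin n → ℝ → ℝ) (m : Fin n → ℝ)
    (hF : ∀ j, IntegrableOn (F j) (Icc R (R + δ))) (h0 : ∀ j r, 0 ≤ F j r) (hm : ∀ j, 0 < m j)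
    (h : ∀ j, (∫ r in Icc R (R + δ), F j r) ≤ m j) :
    ∃ r ∈ Icc R (R + δ), ∀ j, F j r ≤ n * m j / δ := by
  have hint : IntegrableOn (fun r => ∑ j, (m j)⁻¹ * F j r) (Icc R (R + δ)) :=
    integrable_finsetSum _ fun j _ => (hF j).const_mul _
  obtain ⟨r, hr, hle⟩ := exists_le_setAverage (μ := volume) (s := Icc R (R + δ))
    (by simp [hδ]) (by simp) hint
  refine ⟨r, hr, fun j => ?_⟩
  have h1 : (⨍ a in Icc R (R + δ), ∑ j, (m j)⁻¹ * F j a) ≤ n / δ := by
    rw [setAverage_eq, integral_finsetSum _ fun j _ => (hF j).const_mul _]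
    simp only [integral_const_mul, smul_eq_mul, Real.volume_real_Icc]
    rw [max_eq_left (by linarith), show R + δ - R = δ by ring, div_eq_mul_inv, mul_comm]
    apply mul_le_mul_of_nonneg_right _ (by positivity)
    calc ∑ j, (m j)⁻¹ * ∫ r in Icc R (R + δ), F j r ≤ ∑ j : Fin n, (1 : ℝ) := by
          apply Finset.sum_le_sum
          intro j _
          rw [inv_mul_le_iff₀ (hm j), mul_one]
          exact h j
      _ = n := by simp
  have h2 : (m j)⁻¹ * F j r ≤ n / δ := by
    refine le_trans ?_ (hle.trans h1)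
    exact Finset.single_le_sum (f := fun j => (m j)⁻¹ * F j r)
      (fun j _ => mul_nonneg (inv_nonneg.mpr (hm j).le) (h0 j r)) (Finset.mem_univ j)
  rw [inv_mul_le_iff₀ (hm j)] at h2
  rw [mul_comm (n : ℝ) (m j), mul_div_assoc]
  exact h2

theorem Riesz.Pn_eq' (V : VF) (ρ : ℝ) (x : E) : Pn V ρ x = ∫ z, Riesz.kn ρ z * nm V (x - z) := by
  rw [Riesz.Pn_eq, ← integral_sub_left_eq_self (fun z => Riesz.kn ρ z * nm V (x - z)) volume x]
  simp

theorem Riesz.kn_abs_le {V : VF} (hV : ∀ i, Continuous (V i)) (ρ : ℝ) (x₀ : E) :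
    ∃ M : ℝ, 0 < M ∧ ∀ x ∈ Metric.ball x₀ 1, ∀ z, ‖Riesz.kn ρ z * nm V (x - z)‖ ≤ M * Riesz.kn ρ z := by
  obtain ⟨M, hM⟩ := (isCompact_closedBall x₀ (1 + ρ)).exists_bound_of_continuousOn (continuous_nm hV).continuousOn
  refine ⟨max M 1, by positivity, fun x hx z => ?_⟩
  rw [norm_mul, Real.norm_of_nonneg (Riesz.kn_nonneg _ _), mul_comm]
  by_cases h : ‖z‖ < ρ
  · apply mul_le_mul_of_nonneg_right _ (Riesz.kn_nonneg _ _)
    refine (hM (x - z) ?_).trans (le_max_left _ _)
    rw [Metric.mem_closedBall, dist_eq_norm]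
    have h1 : ‖x - x₀‖ < 1 := by rw [← dist_eq_norm]; exact hx
    calc ‖x - z - x₀‖ = ‖(x - x₀) - z‖ := by congr 1; abel
      _ ≤ ‖x - x₀‖ + ‖z‖ := norm_sub_le _ _
      _ ≤ 1 + ρ := by linarith
  · rw [Riesz.kn_zero (not_lt.mp h)]; simp

/-- the near part is a continuous function -/
theorem continuous_Pn {V : VF} (hV : ∀ i, Continuous (V i)) {ρ : ℝ} (hρ : 0 < ρ) : Continuous (Pn V ρ) := by
  have h : Pn V ρ = fun x => ∫ z, Riesz.kn ρ z * nm V (x - z) := funext fun x => Riesz.Pn_eq' V ρ x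
  rw [h, continuous_iff_continuousAt]
  intro x₀
  obtain ⟨M, _, hM⟩ := Riesz.kn_abs_le hV ρ x₀
  have hcont := continuous_nm hV
  apply continuousAt_of_dominated (bound := fun z => M * Riesz.kn ρ z)
  · refine Eventually.of_forall fun x => ?_
    exact ((Riesz.measurable_kn ρ).mul (hcont.measurable.comp (measurable_const.sub measurable_id))).aestronglyMeasurable
  · filter_upwards [Metric.ball_mem_nhds x₀ one_pos] with x hx
    exact Eventually.of_forall fun z => hM x hx z
  · exact (Riesz.integrable_kn ρ).const_mul M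
  · refine Eventually.of_forall fun z => ?_
    exact (continuous_const.mul (hcont.comp (continuous_id.sub continuous_const))).continuousAt

theorem Pn_nonneg (V : VF) (ρ : ℝ) (x : E) : 0 ≤ Pn V ρ x := Riesz.Pn_nonneg V ρ x

theorem Pf_nonneg (V : VF) (ρ : ℝ) (x : E) : 0 ≤ Pf V ρ x :=
  integral_nonneg fun _ => div_nonneg (nm_nonneg _ _) (by positivity)

theorem Gw_nonneg (V : VF) (p β η r : ℝ) (hη : 0 < η) : 0 ≤ Gw V p β η r :=
  integral_nonneg fun y => mul_nonneg (Real.rpow_nonneg (nm_nonneg _ _) _)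
    (Real.rpow_nonneg (Riesz.wt_pos hη _).le _)

/-- integrability of the near part of the integrand -/
theorem near_integrableOn {V : VF} (hV : ∀ i, Continuous (V i)) (ρ : ℝ) (x : E) :
    IntegrableOn (fun y => nm V y / ‖x - y‖ ^ 2) {y : E | ‖x - y‖ < ρ} := by
  have hm : MeasurableSet {y : E | ‖x - y‖ < ρ} :=
    measurableSet_lt (by fun_prop) measurable_const
  have hcont := continuous_nm hV
  obtain ⟨M, _, hM⟩ := Riesz.kn_abs_le hV ρ x
  have h1 : Integrable (fun z => Riesz.kn ρ z * nm V (x - z)) := by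
    apply Integrable.mono' ((Riesz.integrable_kn ρ).const_mul M)
    · exact ((Riesz.measurable_kn ρ).mul (hcont.measurable.comp (measurable_const.sub measurable_id))).aestronglyMeasurable
    · exact Eventually.of_forall fun z => hM x (Metric.mem_ball_self one_pos) z
  have h2 : Integrable (fun y => Riesz.kn ρ (x - y) * nm V y) := by
    have := h1.comp_sub_left x
    simpa using this
  rw [← integrable_indicator_iff hm]
  refine h2.congr (Eventually.of_forall fun y => ?_)
  by_cases h : ‖x - y‖ < ρ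
  · simp [Riesz.kn, h, indicator, div_eq_mul_inv, mul_comm]
  · simp [Riesz.kn, h, indicator]

/-- integrability of the far part of the integrand -/
theorem far_integrableOn {V : VF} (hV : ∀ i, Continuous (V i)) {p : ℝ} (h1 : 1 < p) (h3 : p < 3)
    (hi : Integrable (fun x => nm V x ^ p)) {ρ : ℝ} (hρ : 0 < ρ) (x : E) :
    IntegrableOn (fun y => nm V y / ‖x - y‖ ^ 2) {y : E | ρ ≤ ‖x - y‖} := by
  have hp0 : 0 < p := by linarith
  have hm : MeasurableSet {y : E | ρ ≤ ‖x - y‖} :=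
    measurableSet_le measurable_const (by fun_prop)
  obtain ⟨p', hp'⟩ : ∃ p', p' = p / (p - 1) := ⟨_, rfl⟩
  have hconj : p.HolderConjugate p' := by
    rw [hp']; exact Real.HolderConjugate.conjExponent h1
  have hp'0 : 0 < p' := hconj.symm.pos
  have hs3 : 3 < 2 * p' := by
    rw [hp', ← mul_div_assoc, lt_div_iff₀ (by linarith)]
    linarith
  have hcont := continuous_nm hV
  have hmn : Measurable (fun y : E => ‖x - y‖) := by fun_prop
  have hF : MemLp (nm V) (ENNReal.ofReal p) (volume.restrict {y : E | ρ ≤ ‖x - y‖}) :=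
    (Riesz.memLp_of_rpow hcont.aestronglyMeasurable (nm_nonneg V) hp0 hi).mono_measure Measure.restrict_le_self
  have hG : MemLp (fun y : E => ‖x - y‖ ^ (-2 : ℝ)) (ENNReal.ofReal p') (volume.restrict {y : E | ρ ≤ ‖x - y‖}) := by
    apply Riesz.memLp_of_rpow
    · exact (hmn.pow_const _).aestronglyMeasurable
    · intro y; exact Real.rpow_nonneg (norm_nonneg _) _
    · exact hp'0
    · have hker : EqOn (fun y => (‖x - y‖ ^ (-2 : ℝ)) ^ p') (fun y => Riesz.kf (2 * p') ρ (x - y)) {y : E | ρ ≤ ‖x - y‖} := by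
        intro y hy
        have hy' : ρ ≤ ‖x - y‖ := hy
        simp only [Riesz.kf]
        rw [indicator_of_mem (show ‖x - y‖ ∈ Ici ρ from hy'), ← Real.rpow_mul (norm_nonneg _)]
        congr 1
        ring
      change IntegrableOn _ _ _
      rw [integrableOn_congr_fun hker hm]
      exact ((Riesz.integrable_kf hs3 hρ).comp_sub_left x).integrableOn
  have := hconj.ennrealOfReal
  have hFG := MemLp.integrable_mul hF hG
  refine hFG.congr ?_
  filter_upwards with y
  simp only [Pi.mul_apply, div_eq_mul_inv]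
  congr 1
  rw [Real.rpow_neg (norm_nonneg _)]
  norm_num

/-- the Riesz potential is the sum of its near and far parts, and it converges absolutely -/
theorem riesz_split {V : VF} (hV : ∀ i, Continuous (V i)) {p : ℝ} (h1 : 1 < p) (h3 : p < 3)
    (hi : Integrable (fun x => nm V x ^ p)) {ρ : ℝ} (hρ : 0 < ρ) (x : E) :
    Integrable (fun y => nm V y / ‖x - y‖ ^ 2) ∧
    ∫ y, nm V y / ‖x - y‖ ^ 2 = Pn V ρ x + Pf V ρ x := by
  have hm : MeasurableSet {y : E | ‖x - y‖ < ρ} :=
    measurableSet_lt (by fun_prop) measurable_const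
  have hc : {y : E | ‖x - y‖ < ρ}ᶜ = {y : E | ρ ≤ ‖x - y‖} := by
    ext y; simp
  have hn := near_integrableOn hV ρ x
  have hf := far_integrableOn hV h1 h3 hi hρ x
  rw [← hc] at hf
  have hI : Integrable (fun y => nm V y / ‖x - y‖ ^ 2) := by
    rw [← integrableOn_univ, ← union_compl_self {y : E | ‖x - y‖ < ρ}]
    exact hn.union hf
  refine ⟨hI, ?_⟩
  rw [← integral_add_compl hm hI, hc]
  rfl

end Leray
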