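import Pool.Agent.Lib.MP_9b9638_an.OneDefs
import Pool.Agent.Lib.MP_9b9638_an.Shell2

/-!
# Averages of the weighted mass, the auxiliary potential, and Riesz potentials for `p = 1`
-/

open MeasureTheory Set Filter Topology

noncomputable section
namespace Leray

namespace OneC2

/-- integrability of the far part of the integrand -/
theorem far_integrableOn {V : VF} (hV : ∀ i, Continuous (V i)) (hi : Integrable (nm V)) {ρ : ℝ} (hρ : 0 < ρ)
    (x : E) : IntegrableOn (fun y => nm V y / ‖x - y‖ ^ 2) {y : E | ρ ≤ ‖x - y‖} := by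
  have hm : MeasurableSet {y : E | ρ ≤ ‖x - y‖} :=
    measurableSet_le measurable_const (by fun_prop)
  have hcont := continuous_nm hV
  apply Integrable.mono' ((hi.const_mul (ρ⁻¹ ^ 2)).integrableOn (s := {y : E | ρ ≤ ‖x - y‖}))
  · have hmn : Measurable (fun y : E => ‖x - y‖) := by fun_prop
    exact (hcont.measurable.div (hmn.pow_const 2)).aestronglyMeasurable
  · filter_upwards [ae_restrict_mem hm] with y hy
    have hy' : ρ ≤ ‖x - y‖ := hy
    have h0 := nm_nonneg V y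
    rw [Real.norm_of_nonneg (div_nonneg h0 (by positivity)), inv_pow, mul_comm, ← div_eq_mul_inv]
    gcongr

end OneC2

theorem riesz_split_one {V : VF} (hV : ∀ i, Continuous (V i)) (hi : Integrable (nm V)) {ρ : ℝ} (hρ : 0 < ρ)
    (x : E) : Integrable (fun y => nm V y / ‖x - y‖ ^ 2) ∧
    ∫ y, nm V y / ‖x - y‖ ^ 2 = Pn V ρ x + Pf V ρ x := by
  have hm : MeasurableSet {y : E | ‖x - y‖ < ρ} :=
    measurableSet_lt (by fun_prop) measurable_const
  have hc : {y : E | ‖x - y‖ < ρ}ᶜ = {y : E | ρ ≤ ‖x - y‖} := by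
    ext y; simp
  have hn := near_integrableOn hV ρ x
  have hf := OneC2.far_integrableOn hV hi hρ x
  rw [← hc] at hf
  have hI : Integrable (fun y => nm V y / ‖x - y‖ ^ 2) := by
    rw [← integrableOn_univ, ← union_compl_self {y : E | ‖x - y‖ < ρ}]
    exact hn.union hf
  refine ⟨hI, ?_⟩
  rw [← integral_add_compl hm hI, hc]
  rfl

theorem far_sup_one {V : VF} (hV : ∀ i, Continuous (V i)) (hi : Integrable (nm V)) {ρ : ℝ} (hρ : 0 < ρ)
    (x : E) : Pf V ρ x ≤ ρ⁻¹ ^ 2 * ∫ y, nm V y := by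
  have hm : MeasurableSet {y : E | ρ ≤ ‖x - y‖} :=
    measurableSet_le measurable_const (by fun_prop)
  unfold Pf
  calc (∫ y in {y : E | ρ ≤ ‖x - y‖}, nm V y / ‖x - y‖ ^ 2)
      ≤ ∫ y in {y : E | ρ ≤ ‖x - y‖}, ρ⁻¹ ^ 2 * nm V y := by
        apply setIntegral_mono_on (OneC2.far_integrableOn hV hi hρ x) (hi.const_mul _).integrableOn hm
        intro y hy
        have hy' : ρ ≤ ‖x - y‖ := hy
        have h0 := nm_nonneg V y
        rw [inv_pow, mul_comm (ρ ^ 2)⁻¹, ← div_eq_mul_inv]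
        gcongr
    _ ≤ ∫ y, ρ⁻¹ ^ 2 * nm V y := by
        apply setIntegral_le_integral (hi.const_mul _)
        refine Eventually.of_forall fun y => ?_
        have := nm_nonneg V y
        simp only [Pi.zero_apply]
        positivity
    _ = _ := integral_const_mul _ _

namespace OneC2

theorem integrableOn_nm {V : VF} (hV : ∀ i, Continuous (V i)) (a b : ℝ) :
    Integrable (nm V) (volume.restrict (Sh a b)) :=
  (continuous_nm hV).continuousOn.integrableOn_compact (isCompact_Sh a b)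

/-- general average bound -/
theorem avg_gen {V : VF} (hV : ∀ i, Continuous (V i)) {β η : ℝ} (hβ : 0 ≤ β) (hη : 0 < η) (a b R δ M : ℝ)
    (hM : ∀ t : ℝ, (∫ r in Icc R (R + δ), (max |t - r| η) ^ (-β)) ≤ M) :
    IntegrableOn (fun r => Gm V β η a b r) (Icc R (R + δ)) ∧
    (∫ r in Icc R (R + δ), Gm V β η a b r) ≤ M * ∫ y in Sh a b, nm V y := by
  have hcont := continuous_nm hV
  have hi := integrableOn_nm hV a b
  have hwm : Measurable fun z : ℝ × E => max |‖z.2‖ - z.1| η := by fun_prop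
  have hint : Integrable (Function.uncurry fun (r : ℝ) (y : E) => nm V y * (max |‖y‖ - r| η) ^ (-β))
      ((volume.restrict (Icc R (R + δ))).prod (volume.restrict (Sh a b))) := by
    have h3 : Integrable (fun _ : ℝ => η ^ (-β)) (volume.restrict (Icc R (R + δ))) :=
      integrableOn_const (by simp)
    apply Integrable.mono' (h3.mul_prod hi)
    · apply Measurable.aestronglyMeasurable
      exact (hcont.measurable.comp measurable_snd).mul (hwm.pow_const (-β))
    · refine Eventually.of_forall fun z => ?_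
      have h4 := Riesz.wt_pos hη (‖z.2‖ - z.1)
      simp only [Function.uncurry]
      rw [Real.norm_of_nonneg (mul_nonneg (nm_nonneg _ _) (Real.rpow_nonneg h4.le _)), mul_comm]
      apply mul_le_mul_of_nonneg_right _ (nm_nonneg _ _)
      exact Real.rpow_le_rpow_of_nonpos hη (le_max_right _ _) (by linarith)
  refine ⟨hint.integral_prod_left, ?_⟩
  calc (∫ r in Icc R (R + δ), Gm V β η a b r)
      = ∫ r in Icc R (R + δ), ∫ y in Sh a b, nm V y * (max |‖y‖ - r| η) ^ (-β) := rfl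
    _ = ∫ y in Sh a b, ∫ r in Icc R (R + δ), nm V y * (max |‖y‖ - r| η) ^ (-β) := integral_integral_swap hint
    _ ≤ ∫ y in Sh a b, nm V y * M := by
        apply integral_mono hint.integral_prod_right (hi.mul_const _)
        intro y
        dsimp only [Function.uncurry]
        rw [integral_const_mul]
        exact mul_le_mul_of_nonneg_left (hM _) (nm_nonneg _ _)
    _ = M * ∫ y in Sh a b, nm V y := by
        rw [integral_mul_const]; ring

end OneC2

theorem Gm_avg3 : ∃ C : ℝ, 0 < C ∧ ∀ (V : VF) (η a b R δ : ℝ), (∀ i, Continuous (V i)) → 0 < η → 0 < δ →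
    IntegrableOn (fun r => Gm V (3 / 2) η a b r) (Icc R (R + δ)) ∧
    (∫ r in Icc R (R + δ), Gm V (3 / 2) η a b r) ≤ C * η ^ (-(1 / 2) : ℝ) * ∫ y in Sh a b, nm V y := by
  have hI0 : 0 ≤ ∫ t : ℝ, (max |t| 1) ^ (-(3 / 2) : ℝ) :=
    integral_nonneg fun t => Real.rpow_nonneg (Riesz.wt_pos one_pos _).le _
  refine ⟨(∫ t : ℝ, (max |t| 1) ^ (-(3 / 2) : ℝ)) + 1, by positivity, fun V η a b R δ hV hη hδ => ?_⟩
  apply OneC2.avg_gen hV (by norm_num) hη
  intro t
  have h1 : (∫ r in Icc R (R + δ), (max |t - r| η) ^ (-(3 / 2) : ℝ)) ≤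
      η ^ (1 - 3 / 2 : ℝ) * ∫ t : ℝ, (max |t| 1) ^ (-(3 / 2) : ℝ) := by
    rw [← Riesz.integral_w hη, ← integral_sub_left_eq_self (fun t : ℝ => (max |t| η) ^ (-(3 / 2) : ℝ)) volume t]
    apply setIntegral_le_integral ((Riesz.integrable_w (by norm_num) hη).comp_sub_left t)
    exact Eventually.of_forall fun r => Real.rpow_nonneg (Riesz.wt_pos hη _).le _
  refine h1.trans ?_
  have h2 : (1 - 3 / 2 : ℝ) = -(1 / 2) := by norm_num
  rw [h2, mul_comm]
  gcongr
  linarith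

namespace OneC2

theorem integrable_h1 : Integrable (fun t : ℝ => (Iic (1 : ℝ)).indicator (fun s : ℝ => s ^ (-(1 / 2) : ℝ)) ‖t‖) := by
  rw [integrable_fun_norm_addHaar (volume : Measure ℝ)
    (f := (Iic (1 : ℝ)).indicator (fun s : ℝ => s ^ (-(1 / 2) : ℝ)))]
  simp only [Module.finrank_self, tsub_self, pow_zero, smul_eq_mul, one_mul]
  rw [IntegrableOn, integrable_indicator_iff measurableSet_Iic, IntegrableOn,
    Measure.restrict_restrict measurableSet_Iic, Iic_inter_Ioi]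
  have := (intervalIntegral.intervalIntegrable_rpow' (a := 0) (b := 1) (r := (-(1 / 2) : ℝ)) (by norm_num))
  rwa [intervalIntegrable_iff, uIoc_of_le (by norm_num)] at this

theorem h_scale {δ : ℝ} (hδ : 0 < δ) (t : ℝ) :
    (Iic δ).indicator (fun s : ℝ => s ^ (-(1 / 2) : ℝ)) ‖t‖ =
      δ ^ (-(1 / 2) : ℝ) * (Iic (1 : ℝ)).indicator (fun s : ℝ => s ^ (-(1 / 2) : ℝ)) ‖δ⁻¹ * t‖ := by
  have e1 : ‖δ⁻¹ * t‖ = δ⁻¹ * ‖t‖ := by
    rw [norm_mul, Real.norm_of_nonneg (inv_pos.mpr hδ).le]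
  have e2 : δ * (δ⁻¹ * ‖t‖) = ‖t‖ := by rw [← mul_assoc, mul_inv_cancel₀ hδ.ne', one_mul]
  rw [e1]
  by_cases h : ‖t‖ ≤ δ
  · have h' : δ⁻¹ * ‖t‖ ≤ 1 := by rw [inv_mul_le_iff₀ hδ]; simpa using h
    rw [indicator_of_mem (show ‖t‖ ∈ Iic δ from h), indicator_of_mem (show δ⁻¹ * ‖t‖ ∈ Iic (1 : ℝ) from h'),
      ← Real.mul_rpow hδ.le (by positivity), e2]
  · have h' : ¬ δ⁻¹ * ‖t‖ ≤ 1 := by
      rw [inv_mul_le_iff₀ hδ]; simpa using h
    rw [indicator_of_notMem (show ‖t‖ ∉ Iic δ from h), indicator_of_notMem (show δ⁻¹ * ‖t‖ ∉ Iic (1 : ℝ) from h'),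
      mul_zero]

theorem integrable_h {δ : ℝ} (hδ : 0 < δ) :
    Integrable (fun t : ℝ => (Iic δ).indicator (fun s : ℝ => s ^ (-(1 / 2) : ℝ)) ‖t‖) := by
  simp only [h_scale hδ]
  exact (integrable_h1.comp_mul_left' (inv_ne_zero hδ.ne')).const_mul _

theorem integral_h {δ : ℝ} (hδ : 0 < δ) :
    ∫ t : ℝ, (Iic δ).indicator (fun s : ℝ => s ^ (-(1 / 2) : ℝ)) ‖t‖ =
      δ ^ (1 / 2 : ℝ) * ∫ t : ℝ, (Iic (1 : ℝ)).indicator (fun s : ℝ => s ^ (-(1 / 2) : ℝ)) ‖t‖ := by
  simp only [h_scale hδ]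
  rw [integral_const_mul, Measure.integral_comp_mul_left
    (fun t : ℝ => (Iic (1 : ℝ)).indicator (fun s : ℝ => s ^ (-(1 / 2) : ℝ)) ‖t‖) δ⁻¹,
    inv_inv, abs_of_pos hδ, smul_eq_mul, ← mul_assoc]
  congr 1
  · have : (1 / 2 : ℝ) = -(1 / 2) + 1 := by norm_num
    rw [this, Real.rpow_add hδ, Real.rpow_one]
    norm_num

theorem h_nonneg (δ t : ℝ) : 0 ≤ (Iic δ).indicator (fun s : ℝ => s ^ (-(1 / 2) : ℝ)) ‖t‖ := by
  by_cases h : ‖t‖ ≤ δ
  · rw [indicator_of_mem (show ‖t‖ ∈ Iic δ from h)]; positivity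
  · rw [indicator_of_notMem (show ‖t‖ ∉ Iic δ from h)]

end OneC2

theorem Gm_avg1 : ∃ C : ℝ, 0 < C ∧ ∀ (V : VF) (η a b R δ : ℝ), (∀ i, Continuous (V i)) → 0 < η → 0 < δ →
    IntegrableOn (fun r => Gm V (1 / 2) η a b r) (Icc R (R + δ)) ∧
    (∫ r in Icc R (R + δ), Gm V (1 / 2) η a b r) ≤ C * δ ^ (1 / 2 : ℝ) * ∫ y in Sh a b, nm V y := by
  obtain ⟨c, hc⟩ : ∃ c, c = ∫ t : ℝ, (Iic (1 : ℝ)).indicator (fun s : ℝ => s ^ (-(1 / 2) : ℝ)) ‖t‖ := ⟨_, rfl⟩
  have hc0 : 0 ≤ c := by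
    rw [hc]; exact integral_nonneg fun t => OneC2.h_nonneg 1 t
  refine ⟨c + 1, by positivity, fun V η a b R δ hV hη hδ => ?_⟩
  apply OneC2.avg_gen hV (by norm_num) hη
  intro t
  have hI := (OneC2.integrable_h hδ).comp_sub_left t
  have hvol : (volume : Measure ℝ).real (Icc R (R + δ)) = δ := by
    rw [Real.volume_real_Icc, max_eq_left (by linarith)]; ring
  have hconst : IntegrableOn (fun _ : ℝ => δ ^ (-(1 / 2) : ℝ)) (Icc R (R + δ)) :=
    integrableOn_const (by simp)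
  calc (∫ r in Icc R (R + δ), (max |t - r| η) ^ (-(1 / 2) : ℝ))
      ≤ ∫ r in Icc R (R + δ), ((Iic δ).indicator (fun s : ℝ => s ^ (-(1 / 2) : ℝ)) ‖t - r‖
          + δ ^ (-(1 / 2) : ℝ)) := by
        apply integral_mono_ae _ (hI.integrableOn.add hconst)
        · have hne : ∀ᵐ r : ℝ ∂(volume.restrict (Icc R (R + δ))), r ≠ t :=
            ae_restrict_of_ae (Measure.ae_ne volume t)
          filter_upwards [hne] with r hr
          have hpos : 0 < |t - r| := abs_pos.mpr (sub_ne_zero.mpr (Ne.symm hr))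
          have h1 : (max |t - r| η) ^ (-(1 / 2) : ℝ) ≤ |t - r| ^ (-(1 / 2) : ℝ) :=
            Real.rpow_le_rpow_of_nonpos hpos (le_max_left _ _) (by norm_num)
          have h2 : 0 ≤ δ ^ (-(1 / 2) : ℝ) := by positivity
          simp only [Pi.add_apply, Real.norm_eq_abs]
          by_cases h : |t - r| ≤ δ
          · rw [indicator_of_mem (show |t - r| ∈ Iic δ from h)]
            linarith
          · rw [indicator_of_notMem (show |t - r| ∉ Iic δ from h)]
            push Not at h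
            have h3 : |t - r| ^ (-(1 / 2) : ℝ) ≤ δ ^ (-(1 / 2) : ℝ) :=
              Real.rpow_le_rpow_of_nonpos hδ h.le (by norm_num)
            linarith
        · apply Integrable.mono' (g := fun _ => η ^ (-(1 / 2) : ℝ)) (integrableOn_const (by simp))
          · exact Measurable.aestronglyMeasurable (by fun_prop)
          · refine Eventually.of_forall fun r => ?_
            have h4 := Riesz.wt_pos hη (t - r)
            rw [Real.norm_of_nonneg (Real.rpow_nonneg h4.le _)]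
            exact Real.rpow_le_rpow_of_nonpos hη (le_max_right _ _) (by norm_num)
    _ = (∫ r in Icc R (R + δ), (Iic δ).indicator (fun s : ℝ => s ^ (-(1 / 2) : ℝ)) ‖t - r‖)
          + ∫ _r in Icc R (R + δ), δ ^ (-(1 / 2) : ℝ) := integral_add hI.integrableOn hconst
    _ ≤ δ ^ (1 / 2 : ℝ) * c + δ ^ (1 / 2 : ℝ) := by
        apply add_le_add
        · rw [hc, ← OneC2.integral_h hδ,
            ← integral_sub_left_eq_self (fun t : ℝ => (Iic δ).indicator (fun s : ℝ => s ^ (-(1 / 2) : ℝ)) ‖t‖) volume t]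
          apply setIntegral_le_integral hI
          exact Eventually.of_forall fun r => OneC2.h_nonneg δ (t - r)
        · rw [setIntegral_const, hvol, smul_eq_mul]
          have : (1 / 2 : ℝ) = 1 + -(1 / 2) := by norm_num
          conv_rhs => rw [this, Real.rpow_add hδ, Real.rpow_one]
    _ = (c + 1) * δ ^ (1 / 2 : ℝ) := by ring

theorem continuous_Hm {V : VF} (hV : ∀ i, Continuous (V i)) {η : ℝ} (hη : 0 < η) (a b : ℝ) :
    Continuous (Hm V η a b) := by
  have hv : Continuous (nm V) := continuous_nm hV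
  have h : Continuous (fun p : E × E => nm V p.2 * (max ‖p.1 - p.2‖ η) ^ (-(7 / 2) : ℝ)) := by
    refine (hv.comp continuous_snd).mul (Continuous.rpow_const ?_ ?_)
    · exact ((continuous_fst.sub continuous_snd).norm).max continuous_const
    · intro p
      left
      have : η ≤ max ‖p.1 - p.2‖ η := le_max_right _ _
      intro h0
      rw [h0] at this
      linarith
  exact continuous_parametric_integral_of_continuous (μ := (volume : Measure E))
    (f := fun x y => nm V y * (max ‖x - y‖ η) ^ (-(7 / 2) : ℝ)) h (isCompact_Sh a b)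

namespace OneC2

theorem nwt_pos {η : ℝ} (hη : 0 < η) (z : E) : 0 < max ‖z‖ η := lt_of_lt_of_le hη (le_max_right _ _)

theorem integrable_k1 : Integrable (fun z : E => (max ‖z‖ 1) ^ (-(7 / 2) : ℝ)) := by
  have h := (integrable_one_add_norm (E := E) (μ := volume) (r := (7 / 2 : ℝ)) (by
    simp only [finrank_euclideanSpace, Fintype.card_fin]; norm_num)).const_mul ((2 : ℝ) ^ (7 / 2 : ℝ))
  apply Integrable.mono' h
  · exact Measurable.aestronglyMeasurable (by fun_prop)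
  · refine Eventually.of_forall fun t => ?_
    have h0 := nwt_pos one_pos t
    rw [Real.norm_of_nonneg (Real.rpow_nonneg h0.le _)]
    have h1 : 1 + ‖t‖ ≤ 2 * max ‖t‖ 1 := by
      linarith [le_max_left ‖t‖ 1, le_max_right ‖t‖ 1]
    have h2 : (2 * max ‖t‖ 1) ^ (-(7 / 2) : ℝ) ≤ (1 + ‖t‖) ^ (-(7 / 2) : ℝ) :=
      Real.rpow_le_rpow_of_nonpos (by positivity) h1 (by norm_num)
    rw [Real.mul_rpow (by norm_num) h0.le] at h2
    have h11 : (2 : ℝ) ^ (7 / 2 : ℝ) * 2 ^ (-(7 / 2) : ℝ) = 1 := by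
      rw [← Real.rpow_add (by norm_num)]; simp
    calc (max ‖t‖ 1) ^ (-(7 / 2) : ℝ) = 2 ^ (7 / 2 : ℝ) * (2 ^ (-(7 / 2) : ℝ) * (max ‖t‖ 1) ^ (-(7 / 2) : ℝ)) := by
          rw [← mul_assoc, h11, one_mul]
      _ ≤ 2 ^ (7 / 2 : ℝ) * (1 + ‖t‖) ^ (-(7 / 2) : ℝ) := by gcongr

theorem k_scale {η : ℝ} (hη : 0 < η) (z : E) :
    (max ‖z‖ η) ^ (-(7 / 2) : ℝ) = η ^ (-(7 / 2) : ℝ) * (max ‖η⁻¹ • z‖ 1) ^ (-(7 / 2) : ℝ) := by
  rw [← Real.mul_rpow hη.le (nwt_pos one_pos _).le]
  congr 1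
  rw [mul_max_of_nonneg _ _ hη.le, norm_smul, Real.norm_of_nonneg (inv_pos.mpr hη).le, ← mul_assoc,
    mul_inv_cancel₀ hη.ne']
  simp

theorem integrable_k {η : ℝ} (hη : 0 < η) : Integrable (fun z : E => (max ‖z‖ η) ^ (-(7 / 2) : ℝ)) := by
  simp only [k_scale hη]
  exact (integrable_k1.comp_smul (inv_ne_zero hη.ne')).const_mul _

theorem integral_k {η : ℝ} (hη : 0 < η) :
    ∫ z : E, (max ‖z‖ η) ^ (-(7 / 2) : ℝ) = η ^ (-(1 / 2) : ℝ) * ∫ z : E, (max ‖z‖ 1) ^ (-(7 / 2) : ℝ) := by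
  simp only [k_scale hη]
  rw [integral_const_mul, Measure.integral_comp_smul volume (fun z : E => (max ‖z‖ 1) ^ (-(7 / 2) : ℝ)) η⁻¹]
  have h3 : Module.finrank ℝ E = 3 := by simp [finrank_euclideanSpace]
  rw [h3, smul_eq_mul, ← mul_assoc]
  congr 1
  · rw [inv_pow, inv_inv, abs_of_pos (by positivity)]
    have : (-(1 / 2) : ℝ) = -(7 / 2) + (3 : ℕ) := by norm_num
    rw [this, Real.rpow_add hη, Real.rpow_natCast]

end OneC2

/-- Fubini; `∫ (max |z| η)^(-7/2) dz = C η^(-1/2)` -/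
theorem Hm_int : ∃ C : ℝ, 0 < C ∧ ∀ (V : VF) (η a b c d : ℝ), (∀ i, Continuous (V i)) → 0 < η →
    (∫ x in Sh c d, Hm V η a b x) ≤ C * η ^ (-(1 / 2) : ℝ) * ∫ y in Sh a b, nm V y := by
  have hI0 : 0 ≤ ∫ z : E, (max ‖z‖ 1) ^ (-(7 / 2) : ℝ) :=
    integral_nonneg fun t => Real.rpow_nonneg (OneC2.nwt_pos one_pos _).le _
  refine ⟨(∫ z : E, (max ‖z‖ 1) ^ (-(7 / 2) : ℝ)) + 1, by positivity, fun V η a b c d hV hη => ?_⟩
  have hcont := continuous_nm hV
  have hi := OneC2.integrableOn_nm hV a b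
  have hwm : Measurable fun z : E × E => max ‖z.1 - z.2‖ η := by fun_prop
  have hfin : volume (Sh c d) ≠ ⊤ := (isCompact_Sh c d).measure_lt_top.ne
  have hint : Integrable (Function.uncurry fun (x : E) (y : E) => nm V y * (max ‖x - y‖ η) ^ (-(7 / 2) : ℝ))
      ((volume.restrict (Sh c d)).prod (volume.restrict (Sh a b))) := by
    have h3 : Integrable (fun _ : E => η ^ (-(7 / 2) : ℝ)) (volume.restrict (Sh c d)) :=
      integrableOn_const hfin
    apply Integrable.mono' (h3.mul_prod hi)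
    · apply Measurable.aestronglyMeasurable
      exact (hcont.measurable.comp measurable_snd).mul (hwm.pow_const _)
    · refine Eventually.of_forall fun z => ?_
      have h4 := OneC2.nwt_pos hη (z.1 - z.2)
      simp only [Function.uncurry]
      rw [Real.norm_of_nonneg (mul_nonneg (nm_nonneg _ _) (Real.rpow_nonneg h4.le _)), mul_comm]
      apply mul_le_mul_of_nonneg_right _ (nm_nonneg _ _)
      exact Real.rpow_le_rpow_of_nonpos hη (le_max_right _ _) (by norm_num)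
  calc (∫ x in Sh c d, Hm V η a b x)
      = ∫ x in Sh c d, ∫ y in Sh a b, nm V y * (max ‖x - y‖ η) ^ (-(7 / 2) : ℝ) := rfl
    _ = ∫ y in Sh a b, ∫ x in Sh c d, nm V y * (max ‖x - y‖ η) ^ (-(7 / 2) : ℝ) := integral_integral_swap hint
    _ ≤ ∫ y in Sh a b, nm V y * (η ^ (-(1 / 2) : ℝ) * ∫ z : E, (max ‖z‖ 1) ^ (-(7 / 2) : ℝ)) := by
        apply integral_mono hint.integral_prod_right (hi.mul_const _)
        intro y
        dsimp only [Function.uncurry]
        rw [integral_const_mul]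
        apply mul_le_mul_of_nonneg_left _ (nm_nonneg _ _)
        rw [← OneC2.integral_k hη, ← integral_sub_right_eq_self (fun z : E => (max ‖z‖ η) ^ (-(7 / 2) : ℝ)) y]
        apply setIntegral_le_integral ((OneC2.integrable_k hη).comp_sub_right y)
        exact Eventually.of_forall fun x => Real.rpow_nonneg (OneC2.nwt_pos hη _).le _
    _ = (∫ z : E, (max ‖z‖ 1) ^ (-(7 / 2) : ℝ)) * η ^ (-(1 / 2) : ℝ) * ∫ y in Sh a b, nm V y := by
        rw [integral_mul_const]; ring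
    _ ≤ ((∫ z : E, (max ‖z‖ 1) ^ (-(7 / 2) : ℝ)) + 1) * η ^ (-(1 / 2) : ℝ) * ∫ y in Sh a b, nm V y := by
        have h5 : 0 ≤ ∫ y in Sh a b, nm V y := integral_nonneg fun y => nm_nonneg _ _
        gcongr
        linarith

end Leray
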