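import Pool.Agent.Lib.MP_9b9638_an.Thin2
import Pool.Agent.Lib.MP_9b9638_an.OneA
import Pool.Agent.Lib.MP_9b9638_an.OneC2

/-!
# Thin shells for fields in `L¹`, with local `L^p` norms: configuration
-/

open MeasureTheory Set Filter Topology TopologicalSpace

noncomputable section

namespace Leray

/-- a cut-off in the ball of radius `R + 4 δ` -/
def hat (R δ : ℝ) (y : E) : ℝ := max 0 (min 1 ((R + 4 * δ - ‖y‖) / δ))

theorem hat_nonneg (R δ : ℝ) (y : E) : 0 ≤ hat R δ y := le_max_left _ _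

theorem hat_le_one (R δ : ℝ) (y : E) : hat R δ y ≤ 1 := max_le zero_le_one (min_le_left _ _)

theorem hat_one {R δ : ℝ} (hδ : 0 < δ) {y : E} (hy : ‖y‖ ≤ R + 3 * δ) : hat R δ y = 1 := by
  have : 1 ≤ (R + 4 * δ - ‖y‖) / δ := by rw [le_div_iff₀ hδ]; linarith
  unfold hat
  rw [min_eq_left this]
  exact max_eq_right zero_le_one

theorem hat_zero {R δ : ℝ} (hδ : 0 < δ) {y : E} (hy : R + 4 * δ ≤ ‖y‖) : hat R δ y = 0 := by
  have h : (R + 4 * δ - ‖y‖) / δ ≤ 0 := div_nonpos_of_nonpos_of_nonneg (by linarith) hδ.le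
  unfold hat
  exact max_eq_left ((min_le_right _ _).trans h)

theorem continuous_hat (R δ : ℝ) : Continuous (hat R δ) := by
  unfold hat
  exact continuous_const.max (continuous_const.min ((continuous_const.sub continuous_norm).div_const δ))

/-- the truncated field -/
def trc (V : VF) (R δ : ℝ) : VF := sm (hat R δ) V

theorem continuous_trc {V : VF} (hV : ∀ i, Continuous (V i)) (R δ : ℝ) (i : Fin 3) : Continuous (trc V R δ i) :=
  (continuous_hat R δ).mul (hV i)

theorem nm_trc (V : VF) (R δ : ℝ) (y : E) : nm (trc V R δ) y = hat R δ y * nm V y := by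
  unfold nm
  rw [show sq (trc V R δ) y = hat R δ y ^ 2 * sq V y by
    unfold sq trc sm; rw [Finset.mul_sum]; exact Finset.sum_congr rfl fun i _ => by ring]
  rw [Real.sqrt_mul (sq_nonneg _), Real.sqrt_sq (hat_nonneg R δ y)]

theorem trc_pow {V : VF} {R δ p : ℝ} (hδ : 0 < δ) (hp : 0 < p) (y : E) :
    nm (trc V R δ) y ^ p ≤ (Metric.ball (0 : E) (R + 4 * δ)).indicator (fun z => nm V z ^ p) y := by
  rw [nm_trc]
  by_cases hy : ‖y‖ < R + 4 * δ
  · rw [indicator_of_mem (by simpa using hy)]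
    apply Real.rpow_le_rpow (mul_nonneg (hat_nonneg _ _ _) (nm_nonneg _ _)) _ hp.le
    have h1 := hat_le_one R δ y
    have h2 := nm_nonneg V y
    nlinarith
  · rw [indicator_of_notMem (by simpa using hy), hat_zero hδ (not_lt.1 hy), zero_mul, Real.zero_rpow hp.ne']

theorem trc_int {V : VF} (hV : ∀ i, Continuous (V i)) {R δ p : ℝ} (hδ : 0 < δ) (hp : 0 < p) :
    Integrable (fun y => nm (trc V R δ) y ^ p) ∧
    ∫ y, nm (trc V R δ) y ^ p ≤ ∫ y in Metric.ball (0 : E) (R + 4 * δ), nm V y ^ p := by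
  have c1 : Continuous (fun y => nm V y ^ p) := (continuous_nm hV).rpow_const fun y => Or.inr hp.le
  have c2 : Continuous (fun y => nm (trc V R δ) y ^ p) :=
    (continuous_nm (continuous_trc hV R δ)).rpow_const fun y => Or.inr hp.le
  have i1 : Integrable ((Metric.ball (0 : E) (R + 4 * δ)).indicator (fun z => nm V z ^ p)) :=
    (integrable_indicator_iff measurableSet_ball).2 (cont_int_on (ball_sub' _) c1)
  have hn : ∀ y, 0 ≤ nm (trc V R δ) y ^ p := fun y => Real.rpow_nonneg (nm_nonneg _ _) _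
  have i2 : Integrable (fun y => nm (trc V R δ) y ^ p) := by
    apply i1.mono' c2.aestronglyMeasurable
    refine Eventually.of_forall fun y => ?_
    rw [Real.norm_of_nonneg (hn y)]
    exact trc_pow hδ hp y
  refine ⟨i2, ?_⟩
  rw [← integral_indicator measurableSet_ball]
  exact integral_mono i2 i1 fun y => trc_pow hδ hp y

/-- the far part of the Riesz potential, by the truncated field -/
theorem Pf_le_trc {V : VF} (hV : ∀ i, Continuous (V i)) (hi : Integrable (nm V)) {R η δ : ℝ} (hη : 0 < η)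
    (hδ : 0 < δ) {x : E} (hx : ‖x‖ ≤ R + 2 * δ) :
    Pf V η x ≤ Pf (trc V R δ) η x + δ⁻¹ ^ 2 * ∫ y, nm V y := by
  have hmS : MeasurableSet {y : E | η ≤ ‖x - y‖} :=
    (isClosed_le continuous_const (continuous_const.sub continuous_id).norm).measurableSet
  have hit : Integrable (nm (trc V R δ)) := by
    apply hi.mono' (continuous_nm (continuous_trc hV R δ)).aestronglyMeasurable
    refine Eventually.of_forall fun y => ?_
    rw [Real.norm_of_nonneg (nm_nonneg _ _), nm_trc]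
    have h1 := hat_le_one R δ y
    have h2 := nm_nonneg V y
    nlinarith
  have i1 : IntegrableOn (fun y => nm V y / ‖x - y‖ ^ 2) {y : E | η ≤ ‖x - y‖} :=
    (OneC2.far_integrableOn hV hi hη x)
  have i2 : IntegrableOn (fun y => nm (trc V R δ) y / ‖x - y‖ ^ 2) {y : E | η ≤ ‖x - y‖} :=
    (OneC2.far_integrableOn (continuous_trc hV R δ) hit hη x)
  have i3 : IntegrableOn (fun y => δ⁻¹ ^ 2 * nm V y) {y : E | η ≤ ‖x - y‖} := (hi.const_mul _).integrableOn
  have hpt : ∀ y ∈ {y : E | η ≤ ‖x - y‖}, nm V y / ‖x - y‖ ^ 2 ≤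
      nm (trc V R δ) y / ‖x - y‖ ^ 2 + δ⁻¹ ^ 2 * nm V y := by
    intro y hy
    have h0 : 0 < ‖x - y‖ := lt_of_lt_of_le hη hy
    have hn := nm_nonneg V y
    have hn' := nm_nonneg (trc V R δ) y
    by_cases hc : ‖y‖ ≤ R + 3 * δ
    · rw [nm_trc, hat_one hδ hc, one_mul]
      have : 0 ≤ δ⁻¹ ^ 2 * nm V y := by positivity
      linarith
    · push Not at hc
      have h1 : δ ≤ ‖x - y‖ := by
        have := norm_sub_norm_le y x
        rw [norm_sub_rev] at this
        linarith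
      have h2 : nm V y / ‖x - y‖ ^ 2 ≤ δ⁻¹ ^ 2 * nm V y := by
        rw [div_eq_mul_inv, mul_comm, ← inv_pow]
        have : ‖x - y‖⁻¹ ≤ δ⁻¹ := (inv_le_inv₀ h0 hδ).2 h1
        gcongr
      have : 0 ≤ nm (trc V R δ) y / ‖x - y‖ ^ 2 := by positivity
      linarith
  unfold Pf
  calc _ ≤ ∫ y in {y : E | η ≤ ‖x - y‖}, (nm (trc V R δ) y / ‖x - y‖ ^ 2 + δ⁻¹ ^ 2 * nm V y) :=
        setIntegral_mono_on i1 (i2.add i3) hmS hpt
    _ = (∫ y in {y : E | η ≤ ‖x - y‖}, nm (trc V R δ) y / ‖x - y‖ ^ 2)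
        + ∫ y in {y : E | η ≤ ‖x - y‖}, δ⁻¹ ^ 2 * nm V y := integral_add i2 i3
    _ ≤ _ := by
        gcongr
        rw [integral_const_mul]
        apply mul_le_mul_of_nonneg_left _ (by positivity)
        exact setIntegral_le_integral hi (Eventually.of_forall (nm_nonneg V))

end Leray
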