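import Pool.Agent.Lib.MP_9b9638_an.Cutoff

/-!
# The Newton potential on `ℝ³`
-/

open MeasureTheory Set Filter Topology TopologicalSpace
open scoped Convolution

noncomputable section

namespace Leray

/-- Newton potential, up to a constant: `-Δ (newt f) = f` for the right constant `c₀ > 0`. -/
def newt (c₀ : ℝ) (f : E → ℝ) (x : E) : ℝ := ∫ z : E, (c₀ * ‖z‖)⁻¹ * f (x - z)

/-! ### local integrability of powers of the norm -/


/-- powers of the norm larger than `-3` are locally integrable -/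
theorem integrableOn_norm_rpow {s : ℝ} (hs : -3 < s) (R : ℝ) :
    IntegrableOn (fun z : E => ‖z‖ ^ s) (Metric.ball 0 R) := by
  have h := integrableOn_fun_norm_addHaar (E := E) (volume : Measure E) (f := fun y : ℝ => y ^ s) (r := R)
  rw [h, finrank_E]
  have h2 : IntegrableOn (fun y : ℝ => y ^ (s + 2)) (Ioo 0 R) := by
    by_cases hR : 0 < R
    · exact (intervalIntegral.integrableOn_Ioo_rpow_iff hR).2 (by linarith)
    · rw [Ioo_eq_empty (by linarith)]; simp
  refine h2.congr_fun ?_ measurableSet_Ioo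
  intro y hy
  simp only [smul_eq_mul]
  rw [Real.rpow_add hy.1, mul_comm]
  norm_num

theorem locInt_norm_rpow {s : ℝ} (hs : -3 < s) : LocallyIntegrable (fun z : E => ‖z‖ ^ s) := by
  intro x
  refine ⟨Metric.ball 0 (‖x‖ + 1), Metric.isOpen_ball.mem_nhds (by simp), integrableOn_norm_rpow hs _⟩

theorem locInt_inv : LocallyIntegrable (fun z : E => ‖z‖⁻¹) := by
  have h := locInt_norm_rpow (s := -1) (by norm_num)
  simpa [Real.rpow_neg_one] using h

theorem locInt_inv_sq : LocallyIntegrable (fun z : E => (‖z‖ ^ 2)⁻¹) := by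
  have h := locInt_norm_rpow (s := -2) (by norm_num)
  have e : (fun z : E => ‖z‖ ^ (-2 : ℝ)) = fun z : E => (‖z‖ ^ 2)⁻¹ := by
    funext z
    rw [Real.rpow_neg (norm_nonneg _)]; norm_num
  rwa [e] at h

theorem locInt_kernel (c : ℝ) : LocallyIntegrable (fun z : E => (c * ‖z‖)⁻¹) := by
  have h := locInt_inv.smul c⁻¹
  have e : (fun z : E => (c * ‖z‖)⁻¹) = c⁻¹ • fun z : E => ‖z‖⁻¹ := by
    funext z; simp [mul_comm]
  rw [e]; exact h

theorem int_loc_mul {k g : E → ℝ} (hk : LocallyIntegrable k) (hg : Continuous g) (hc : HasCompactSupport g) :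
    Integrable (fun z => k z * g z) := by
  have h := hk.integrable_smul_right_of_hasCompactSupport hg hc
  simpa [mul_comm] using h


/-! ### the Newton potential as a convolution -/

theorem newt_eq_conv (c : ℝ) (f : E → ℝ) :
    newt c f = ((fun z : E => (c * ‖z‖)⁻¹) ⋆[ContinuousLinearMap.mul ℝ ℝ, volume] f) := by
  funext x
  simp [newt, convolution_def]

theorem contDiff_newt (c : ℝ) {f : E → ℝ} {n : ℕ∞} (hf : ContDiff ℝ n f) (hc : HasCompactSupport f) :
    ContDiff ℝ n (newt c f) := by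
  rw [newt_eq_conv]
  exact hc.contDiff_convolution_right _ (locInt_kernel c) hf

theorem pd_newt (c : ℝ) {f : E → ℝ} (hf : ContDiff ℝ 1 f) (hc : HasCompactSupport f) (i : Fin 3) :
    pd i (newt c f) = newt c (pd i f) := by
  funext x
  have h := hc.hasFDerivAt_convolution_right (ContinuousLinearMap.mul ℝ ℝ) (locInt_kernel c) hf x
  rw [← newt_eq_conv] at h
  unfold pd
  rw [h.fderiv, convolution_precompR_apply _ (locInt_kernel c) (hc.fderiv ℝ) (hf.continuous_fderiv one_ne_zero),
    newt_eq_conv]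

theorem hcs_sub_left {f : E → ℝ} (hc : HasCompactSupport f) (x : E) :
    HasCompactSupport (fun z => f (x - z)) :=
  hc.comp_homeomorph (Homeomorph.subLeft x)

theorem newt_integrable (c : ℝ) {f : E → ℝ} (hf : Continuous f) (hc : HasCompactSupport f) (x : E) :
    Integrable (fun z : E => (c * ‖z‖)⁻¹ * f (x - z)) :=
  int_loc_mul (locInt_kernel c) (hf.comp (continuous_const.sub continuous_id)) (hcs_sub_left hc x)

theorem newt_add (c : ℝ) {f g : E → ℝ} (hf : Continuous f) (hcf : HasCompactSupport f)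
    (hg : Continuous g) (hcg : HasCompactSupport g) (x : E) :
    newt c (fun y => f y + g y) x = newt c f x + newt c g x := by
  unfold newt
  rw [← integral_add (newt_integrable c hf hcf x) (newt_integrable c hg hcg x)]
  congr 1; funext z; ring

theorem newt_sum (c : ℝ) {f : Fin 3 → E → ℝ} (hf : ∀ i, Continuous (f i)) (hc : ∀ i, HasCompactSupport (f i))
    (x : E) : newt c (fun y => ∑ i, f i y) x = ∑ i, newt c (f i) x := by
  unfold newt
  rw [← integral_finsetSum _ (fun i _ => newt_integrable c (hf i) (hc i) x)]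
  congr 1; funext z; rw [Finset.mul_sum]

/-! ### the regularised kernel -/

/-- `(|z|² + e²)^{-1/2}` -/
def kr (e : ℝ) (z : E) : ℝ := (‖z‖ ^ 2 + e ^ 2) ^ (-(1 / 2) : ℝ)

theorem base_pos {e : ℝ} (he : 0 < e) (z : E) : 0 < ‖z‖ ^ 2 + e ^ 2 := by positivity

theorem contDiff_base (e : ℝ) {n : WithTop ℕ∞} : ContDiff ℝ n (fun z : E => ‖z‖ ^ 2 + e ^ 2) :=
  (contDiff_norm_sq ℝ).add contDiff_const

theorem contDiff_pow_base {e : ℝ} (he : 0 < e) (s : ℝ) {n : WithTop ℕ∞} :
    ContDiff ℝ n (fun z : E => (‖z‖ ^ 2 + e ^ 2) ^ s) :=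
  (contDiff_base e).rpow_const_of_ne (fun z => (base_pos he z).ne')

theorem pd_base (e : ℝ) (i : Fin 3) (z : E) : pd i (fun z : E => ‖z‖ ^ 2 + e ^ 2) z = 2 * z i := by
  have hd : Differentiable ℝ (fun y : E => ‖y‖ ^ 2) := (contDiff_norm_sq ℝ (n := 1)).differentiable (by norm_num)
  rw [pd_add_at (hd z) (differentiableAt_const _), pd_const, pd_normsq, add_zero]

theorem pd_pow_base {e : ℝ} (he : 0 < e) (s : ℝ) (i : Fin 3) (z : E) :
    pd i (fun z : E => (‖z‖ ^ 2 + e ^ 2) ^ s) z = s * (‖z‖ ^ 2 + e ^ 2) ^ (s - 1) * (2 * z i) := by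
  have h1 : DifferentiableAt ℝ (fun t : ℝ => t ^ s) (‖z‖ ^ 2 + e ^ 2) :=
    Real.differentiableAt_rpow_const_of_ne _ (base_pos he z).ne'
  have h2 : DifferentiableAt ℝ (fun z : E => ‖z‖ ^ 2 + e ^ 2) z :=
    ((contDiff_base e (n := 1)).differentiable (by norm_num)) z
  rw [pd_comp_at (h := fun t : ℝ => t ^ s) (f := fun z : E => ‖z‖ ^ 2 + e ^ 2) h1 h2, pd_base]
  rw [Real.deriv_rpow_const]

theorem contDiff_kr {e : ℝ} (he : 0 < e) {n : WithTop ℕ∞} : ContDiff ℝ n (kr e) := contDiff_pow_base he _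

theorem pd_kr {e : ℝ} (he : 0 < e) (i : Fin 3) (z : E) :
    pd i (kr e) z = - ((‖z‖ ^ 2 + e ^ 2) ^ (-(3 / 2) : ℝ) * z i) := by
  unfold kr
  rw [pd_pow_base he]
  rw [show (-(1 / 2) - 1 : ℝ) = -(3 / 2) by norm_num]
  ring

theorem pd_pd_kr {e : ℝ} (he : 0 < e) (i : Fin 3) (z : E) :
    pd i (pd i (kr e)) z = 3 * (‖z‖ ^ 2 + e ^ 2) ^ (-(5 / 2) : ℝ) * z i ^ 2
      - (‖z‖ ^ 2 + e ^ 2) ^ (-(3 / 2) : ℝ) := by
  have h : pd i (kr e) = fun z => - ((‖z‖ ^ 2 + e ^ 2) ^ (-(3 / 2) : ℝ) * z i) := by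
    funext z; exact pd_kr he i z
  rw [h, pd_neg_at, pd_mul_at (((contDiff_pow_base he _ (n := 1)).differentiable (by norm_num)) z)
    (differentiable_coord i z), pd_pow_base he, pd_coord]
  rw [show (-(3 / 2) - 1 : ℝ) = -(5 / 2) by norm_num]
  simp
  ring

theorem lap_kr {e : ℝ} (he : 0 < e) (z : E) :
    lap (kr e) z = - (3 * e ^ 2 * (‖z‖ ^ 2 + e ^ 2) ^ (-(5 / 2) : ℝ)) := by
  unfold lap
  simp only [pd_pd_kr he]
  have h : (‖z‖ ^ 2 + e ^ 2) ^ (-(3 / 2) : ℝ) = (‖z‖ ^ 2 + e ^ 2) ^ (-(5 / 2) : ℝ) * (‖z‖ ^ 2 + e ^ 2) := by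
    rw [← Real.rpow_add_one (base_pos he z).ne']; norm_num
  rw [h, Finset.sum_sub_distrib, ← Finset.mul_sum, ← norm_sq_eq]
  simp
  ring

theorem kr_le (e : ℝ) (z : E) : kr e z ≤ ‖z‖⁻¹ ∨ z = 0 := by
  by_cases hz : z = 0
  · right; exact hz
  · left
    unfold kr
    have hz' : 0 < ‖z‖ := norm_pos_iff.2 hz
    have h1 : ‖z‖⁻¹ = (‖z‖ ^ 2) ^ (-(1 / 2) : ℝ) := by
      rw [← Real.rpow_natCast, ← Real.rpow_mul hz'.le]
      norm_num
      rw [Real.rpow_neg_one]
    rw [h1]
    apply Real.rpow_le_rpow_of_nonpos (by positivity) (by nlinarith [sq_nonneg e]) (by norm_num)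

theorem kr_nonneg (e : ℝ) (z : E) : 0 ≤ kr e z := by unfold kr; positivity

theorem abs_pd_kr_le {e : ℝ} (he : 0 < e) (i : Fin 3) (z : E) (hz : z ≠ 0) :
    |pd i (kr e) z| ≤ (‖z‖ ^ 2)⁻¹ := by
  have hz' : 0 < ‖z‖ := norm_pos_iff.2 hz
  rw [pd_kr he, abs_neg, abs_mul, abs_of_pos (Real.rpow_pos_of_pos (base_pos he z) _)]
  have h1 : (‖z‖ ^ 2 + e ^ 2) ^ (-(3 / 2) : ℝ) ≤ (‖z‖ ^ 2) ^ (-(3 / 2) : ℝ) :=
    Real.rpow_le_rpow_of_nonpos (by positivity) (by nlinarith [sq_nonneg e]) (by norm_num)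
  have h2 : (‖z‖ ^ 2) ^ (-(3 / 2) : ℝ) = (‖z‖ ^ 3)⁻¹ := by
    rw [← Real.rpow_natCast, ← Real.rpow_mul hz'.le]
    norm_num
  calc (‖z‖ ^ 2 + e ^ 2) ^ (-(3 / 2) : ℝ) * |z i| ≤ (‖z‖ ^ 3)⁻¹ * ‖z‖ := by
        rw [h2] at h1
        gcongr
        exact abs_coord_le z i
    _ = (‖z‖ ^ 2)⁻¹ := by field_simp

/-- the regularised kernels converge to the Newton kernel -/
theorem kr_tendsto {g : E → ℝ} (hg : Continuous g) (hc : HasCompactSupport g) :
    Tendsto (fun n : ℕ => ∫ z, kr (1 / ((n : ℝ) + 1)) z * g z) atTop (𝓝 (∫ z, ‖z‖⁻¹ * g z)) := by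
  have hpos : ∀ n : ℕ, (0 : ℝ) < 1 / ((n : ℝ) + 1) := fun n => by positivity
  apply tendsto_integral_of_dominated_convergence (fun z => ‖z‖⁻¹ * |g z|)
  · intro n
    exact ((contDiff_kr (hpos n) (n := 0)).continuous.mul hg).aestronglyMeasurable
  · have := int_loc_mul locInt_inv (continuous_abs.comp hg) (hc.comp_left (g := abs) (by simp))
    simpa using this
  · intro n
    have h0 : ∀ᵐ z : E, z ≠ 0 := by
      have : (volume : Measure E) {0} = 0 := measure_singleton 0
      exact measure_eq_zero_iff_ae_notMem.1 this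
    filter_upwards [h0] with z hz
    rw [Real.norm_eq_abs, abs_mul, abs_of_nonneg (kr_nonneg _ _)]
    rcases kr_le _ z with h | h
    · gcongr
    · exact absurd h hz
  · have h0 : ∀ᵐ z : E, z ≠ 0 := by
      have : (volume : Measure E) {0} = 0 := measure_singleton 0
      exact measure_eq_zero_iff_ae_notMem.1 this
    filter_upwards [h0] with z hz
    have hz' : 0 < ‖z‖ := norm_pos_iff.2 hz
    have h1 : ‖z‖⁻¹ = (‖z‖ ^ 2 + 0 ^ 2) ^ (-(1 / 2) : ℝ) := by
      rw [zero_pow (by norm_num), add_zero, ← Real.rpow_natCast, ← Real.rpow_mul hz'.le]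
      norm_num
      rw [Real.rpow_neg_one]
    rw [h1]
    apply Tendsto.mul_const
    unfold kr
    have ht : Tendsto (fun n : ℕ => ‖z‖ ^ 2 + (1 / ((n : ℝ) + 1)) ^ 2) atTop (𝓝 (‖z‖ ^ 2 + 0 ^ 2)) :=
      tendsto_const_nhds.add (tendsto_one_div_add_atTop_nhds_zero_nat.pow 2)
    exact ht.rpow_const (Or.inl (by positivity))

/-! ### the fundamental solution -/

/-- the constant `4π`, defined as the integral of the approximate identity -/
def cN : ℝ := ∫ w : E, 3 * (1 + ‖w‖ ^ 2) ^ (-(5 / 2) : ℝ)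

theorem integrable_bump : Integrable (fun w : E => 3 * (1 + ‖w‖ ^ 2) ^ (-(5 / 2) : ℝ)) := by
  have h := (integrable_rpow_neg_one_add_norm_sq (E := E) (μ := volume) (r := 5)
    (by rw [finrank_E]; norm_num)).const_mul 3
  convert h using 3
  norm_num

theorem cN_pos : 0 < cN := by
  unfold cN
  rw [integral_pos_iff_support_of_nonneg (fun w => by positivity) integrable_bump]
  have : Function.support (fun w : E => 3 * (1 + ‖w‖ ^ 2) ^ (-(5 / 2) : ℝ)) = univ := by
    ext w
    simp only [Function.mem_support, mem_univ, iff_true]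
    positivity
  rw [this]
  simp

theorem int_lap_kr {g : E → ℝ} {e : ℝ} (he : 0 < e) :
    ∫ z, lap (kr e) z * g z = - ∫ w, 3 * (1 + ‖w‖ ^ 2) ^ (-(5 / 2) : ℝ) * g (e • w) := by
  have h := Measure.integral_comp_smul (volume : Measure E) (fun z => lap (kr e) z * g z) e
  rw [finrank_E, abs_of_pos (by positivity)] at h
  have h2 : ∫ z, lap (kr e) z * g z = e ^ 3 * ∫ w, lap (kr e) (e • w) * g (e • w) := by
    rw [h, smul_eq_mul]; field_simp
  rw [h2, ← integral_const_mul, ← integral_neg]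
  congr 1
  funext w
  rw [lap_kr he, norm_smul, Real.norm_eq_abs, abs_of_pos he]
  have h3 : ((e * ‖w‖) ^ 2 + e ^ 2) ^ (-(5 / 2) : ℝ) = (e ^ 5)⁻¹ * (1 + ‖w‖ ^ 2) ^ (-(5 / 2) : ℝ) := by
    rw [show (e * ‖w‖) ^ 2 + e ^ 2 = e ^ 2 * (1 + ‖w‖ ^ 2) by ring,
      Real.mul_rpow (by positivity) (by positivity)]
    congr 1
    rw [← Real.rpow_natCast, ← Real.rpow_mul he.le]
    rw [show ((2 : ℕ) : ℝ) * (-(5 / 2)) = -((5 : ℕ) : ℝ) by norm_num, Real.rpow_neg he.le, Real.rpow_natCast]
  rw [h3]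
  field_simp

theorem tendsto_int_lap_kr {g : E → ℝ} (hg : Continuous g) (hc : HasCompactSupport g) :
    Tendsto (fun n : ℕ => ∫ z, lap (kr (1 / ((n : ℝ) + 1))) z * g z) atTop (𝓝 (- (cN * g 0))) := by
  have hpos : ∀ n : ℕ, (0 : ℝ) < 1 / ((n : ℝ) + 1) := fun n => by positivity
  simp only [int_lap_kr (hpos _)]
  apply Tendsto.neg
  unfold cN
  rw [← integral_mul_const]
  obtain ⟨M, hM⟩ := hc.exists_bound_of_continuous hg
  apply tendsto_integral_of_dominated_convergence (fun w => 3 * (1 + ‖w‖ ^ 2) ^ (-(5 / 2) : ℝ) * M)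
  · intro n
    exact integrable_bump.aestronglyMeasurable.mul
      (hg.comp (continuous_const_smul _)).aestronglyMeasurable
  · exact integrable_bump.mul_const M
  · intro n
    filter_upwards with w
    rw [norm_mul, Real.norm_eq_abs, abs_of_nonneg (by positivity)]
    gcongr
    exact hM _
  · filter_upwards with w
    apply Tendsto.const_mul
    have h1 : Tendsto (fun n : ℕ => (1 / ((n : ℝ) + 1)) • w) atTop (𝓝 ((0 : ℝ) • w)) :=
      tendsto_one_div_add_atTop_nhds_zero_nat.smul_const w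
    rw [zero_smul] at h1
    exact (hg.tendsto 0).comp h1

theorem int_kr_lap {g : E → ℝ} (hg : ContDiff ℝ 2 g) (hc : HasCompactSupport g) {e : ℝ} (he : 0 < e) :
    ∫ z, kr e z * lap g z = ∫ z, lap (kr e) z * g z := by
  unfold lap
  have i1 : ∀ i, Integrable (fun z => kr e z * pd i (pd i g) z) := fun i =>
    integrable_of_cc ((contDiff_kr he (n := 0)).continuous.mul
      (continuous_pd (contDiff_pd (m := 1) hg (by norm_num))))
      ((hasCompactSupport_pd (hasCompactSupport_pd hc)).mul_left)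
  have i2 : ∀ i, Integrable (fun z => pd i (pd i (kr e)) z * g z) := fun i =>
    integrable_of_cc ((continuous_pd (contDiff_pd (m := 1) (contDiff_kr he (n := 2)) (by norm_num))).mul
      hg.continuous) (hc.mul_left)
  simp only [Finset.mul_sum, Finset.sum_mul]
  rw [integral_finsetSum _ (fun i _ => i1 i), integral_finsetSum _ (fun i _ => i2 i)]
  apply Finset.sum_congr rfl
  intro i _
  have a1 := int_pd_mul (i := i) (contDiff_kr he (n := 1)) (contDiff_pd (i := i) (m := 1) hg (by norm_num))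
    (hasCompactSupport_pd hc)
  have a2 := int_pd_mul (i := i) (contDiff_pd (i := i) (m := 1) (contDiff_kr he (n := 2)) (by norm_num))
    (hg.of_le (by norm_num)) hc
  linarith

/-- `1/(4π|z|)` is the fundamental solution of `-Δ` -/
theorem int_inv_lap {g : E → ℝ} (hg : ContDiff ℝ 2 g) (hc : HasCompactSupport g) :
    ∫ z, ‖z‖⁻¹ * lap g z = - (cN * g 0) := by
  have hcl : Continuous (lap g) := by
    unfold lap
    exact continuous_finsetSum _ fun i _ => continuous_pd (contDiff_pd (m := 1) hg (by norm_num))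
  have hsl : HasCompactSupport (lap g) := by
    apply hc.of_isClosed_subset (isClosed_tsupport _)
    apply closure_minimal _ (isClosed_tsupport g)
    intro x hx
    by_contra hx'
    apply hx
    unfold lap
    apply Finset.sum_eq_zero
    intro i _
    exact image_eq_zero_of_notMem_tsupport (fun h => hx' (tsupport_pd g (tsupport_pd _ h)))
  have h1 := kr_tendsto hcl hsl
  have h2 := tendsto_int_lap_kr hg.continuous hc
  have hpos : ∀ n : ℕ, (0 : ℝ) < 1 / ((n : ℝ) + 1) := fun n => by positivity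
  have h3 : (fun n : ℕ => ∫ z, kr (1 / ((n : ℝ) + 1)) z * lap g z)
      = fun n : ℕ => ∫ z, lap (kr (1 / ((n : ℝ) + 1))) z * g z := by
    funext n; exact int_kr_lap hg hc (hpos n)
  rw [h3] at h1
  exact tendsto_nhds_unique h1 h2

/-- gradient of the Newton potential -/
theorem abs_int_inv_pd_le {g : E → ℝ} (hg : ContDiff ℝ 1 g) (hc : HasCompactSupport g) (i : Fin 3) :
    |∫ z, ‖z‖⁻¹ * pd i g z| ≤ ∫ z, (‖z‖ ^ 2)⁻¹ * |g z| := by
  have h1 := kr_tendsto (continuous_pd (i := i) hg) (hasCompactSupport_pd hc)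
  have h2 := h1.abs
  have hpos : ∀ n : ℕ, (0 : ℝ) < 1 / ((n : ℝ) + 1) := fun n => by positivity
  apply le_of_tendsto h2
  filter_upwards with n
  have a1 := int_pd_mul (i := i) (contDiff_kr (hpos n) (n := 1)) hg hc
  have a2 : ∫ z, kr (1 / ((n : ℝ) + 1)) z * pd i g z = - ∫ z, pd i (kr (1 / ((n : ℝ) + 1))) z * g z := by
    linarith
  rw [a2, abs_neg]
  refine (abs_integral_le_integral_abs).trans ?_
  apply integral_mono_ae
  · exact (integrable_of_cc ((continuous_pd (contDiff_kr (hpos n) (n := 1))).mul hg.continuous) (hc.mul_left)).abs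
  · exact int_loc_mul locInt_inv_sq (continuous_abs.comp hg.continuous) (hc.comp_left (g := abs) (by simp))
  · have h0 : ∀ᵐ z : E, z ≠ 0 := by
      have : (volume : Measure E) {0} = 0 := measure_singleton 0
      exact measure_eq_zero_iff_ae_notMem.1 this
    filter_upwards [h0] with z hz
    rw [abs_mul]
    exact mul_le_mul_of_nonneg_right (abs_pd_kr_le (hpos n) i z hz) (abs_nonneg _)

/-! ### reflections -/

theorem pd_reflect {f : E → ℝ} (hf : Differentiable ℝ f) (x z : E) (i : Fin 3) :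
    pd i (fun y => f (x - y)) z = - pd i f (x - z) := by
  unfold pd
  have h : HasFDerivAt (fun y => f (x - y)) ((fderiv ℝ f (x - z)).comp (-(ContinuousLinearMap.id ℝ E))) z :=
    (hf (x - z)).hasFDerivAt.comp z ((hasFDerivAt_id z).const_sub x)
  rw [h.fderiv]
  simp

theorem newt_eq (c : ℝ) (f : E → ℝ) (x : E) : newt c f x = c⁻¹ * ∫ z, ‖z‖⁻¹ * f (x - z) := by
  unfold newt
  rw [← integral_const_mul]
  congr 1; funext z
  rw [mul_inv]; ring

theorem lap_newt {f : E → ℝ} (hf : ContDiff ℝ 2 f) (hc : HasCompactSupport f) (x : E) :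
    lap (newt cN f) x = - f x := by
  have h1 : ∀ i, pd i (pd i (newt cN f)) = newt cN (pd i (pd i f)) := fun i => by
    rw [pd_newt cN (hf.of_le (by norm_num)) hc, pd_newt cN (contDiff_pd (m := 1) hf (by norm_num))
      (hasCompactSupport_pd hc)]
  have h2 : lap (newt cN f) x = newt cN (lap f) x := by
    unfold lap
    simp only [h1]
    rw [newt_sum cN (f := fun i => pd i (pd i f)) (fun i => continuous_pd (contDiff_pd (m := 1) hf (by norm_num)))
      (fun i => hasCompactSupport_pd (hasCompactSupport_pd hc))]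
  rw [h2, newt_eq]
  have hg : ContDiff ℝ 2 (fun z => f (x - z)) := hf.comp (contDiff_const.sub contDiff_id)
  have h3 := int_inv_lap hg (hcs_sub_left hc x)
  have hd : Differentiable ℝ f := hf.differentiable (by norm_num)
  have hd2 : ∀ i, Differentiable ℝ (pd i f) := fun i =>
    (contDiff_pd (m := 1) hf (by norm_num)).differentiable (by norm_num)
  have h4 : ∀ z, lap (fun z => f (x - z)) z = lap f (x - z) := by
    intro z
    unfold lap
    apply Finset.sum_congr rfl
    intro i _
    have : pd i (fun z => f (x - z)) = fun z => - pd i f (x - z) := by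
      funext y; exact pd_reflect hd x y i
    rw [this, pd_neg_at, pd_reflect (hd2 i), neg_neg]
  simp only [h4] at h3
  rw [h3, sub_zero]
  have := cN_pos
  field_simp

theorem abs_pd_newt_le {f : E → ℝ} (hf : ContDiff ℝ 1 f) (hc : HasCompactSupport f) (i : Fin 3) (x : E) :
    |pd i (newt cN f) x| ≤ cN⁻¹ * ∫ y, |f y| / ‖x - y‖ ^ 2 := by
  rw [pd_newt cN hf hc, newt_eq, abs_mul, abs_of_pos (inv_pos.2 cN_pos)]
  apply mul_le_mul_of_nonneg_left _ (inv_pos.2 cN_pos).le
  have hg : ContDiff ℝ 1 (fun z => f (x - z)) := hf.comp (contDiff_const.sub contDiff_id)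
  have h3 := abs_int_inv_pd_le hg (hcs_sub_left hc x) i
  simp only [pd_reflect (hf.differentiable (by norm_num)), mul_neg, integral_neg, abs_neg] at h3
  refine h3.trans (le_of_eq ?_)
  have h5 := integral_sub_left_eq_self (fun y : E => |f y| / ‖x - y‖ ^ 2) (volume : Measure E) x
  rw [← h5]
  congr 1; funext z
  rw [sub_sub_cancel]
  field_simp

theorem newt_spec : ∃ c₀ : ℝ, 0 < c₀ ∧
    (∀ f : E → ℝ, ContDiff ℝ 3 f → HasCompactSupport f → ContDiff ℝ 3 (newt c₀ f)) ∧
    (∀ f : E → ℝ, ContDiff ℝ 3 f → HasCompactSupport f → ∀ i, pd i (newt c₀ f) = newt c₀ (pd i f)) ∧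
    (∀ f : E → ℝ, ContDiff ℝ 3 f → HasCompactSupport f → ∀ x, lap (newt c₀ f) x = - f x) ∧
    (∀ f : E → ℝ, ContDiff ℝ 3 f → HasCompactSupport f → ∀ i x,
      |pd i (newt c₀ f) x| ≤ c₀⁻¹ * ∫ y, |f y| / ‖x - y‖ ^ 2) :=
  ⟨cN, cN_pos, fun f hf hc => contDiff_newt (n := 3) cN hf hc,
    fun f hf hc i => pd_newt cN (hf.of_le (by norm_num)) hc i,
    fun f hf hc x => lap_newt (hf.of_le (by norm_num)) hc x,
    fun f hf hc i x => abs_pd_newt_le (hf.of_le (by norm_num)) hc i x⟩

/-! ### the Riesz potential -/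

theorem integrable_far {s : ℝ} (hs : 3 < s) : Integrable (fun z : E => (1 + ‖z‖) ^ (-s)) :=
  integrable_one_add_norm (by rw [finrank_E]; norm_num; exact hs)

/-- absolute convergence of the Riesz potential -/
theorem riesz_integrable {V : VF} (hc : ∀ i, Continuous (V i)) {p : ℝ} (h1 : 1 < p) (h3 : p < 3)
    (hLp : Integrable (fun x => nm V x ^ p)) (x : E) :
    Integrable (fun y => nm V y / ‖x - y‖ ^ 2) := by
  have hV : Continuous (nm V) := continuous_nm hc
  set q : ℝ := p / (p - 1) with hq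
  have hp1 : 0 < p - 1 := by linarith
  have hq2 : 3 < 2 * q := by
    rw [hq, ← mul_div_assoc, lt_div_iff₀ hp1]; linarith
  have hpq : p.HolderConjugate q := Real.HolderConjugate.conjExponent h1
  obtain ⟨M, hM⟩ := (isCompact_closedBall x 1).exists_bound_of_continuousOn hV.continuousOn
  -- the dominating function
  have d1 : Integrable (fun y => (Metric.ball x 1).indicator (fun y => M * (‖x - y‖ ^ 2)⁻¹) y) := by
    rw [integrable_indicator_iff Metric.isOpen_ball.measurableSet]
    have h := (integrableOn_norm_rpow (s := -2) (by norm_num) 1)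
    have e : (fun z : E => ‖z‖ ^ (-2 : ℝ)) = fun z : E => (‖z‖ ^ 2)⁻¹ := by
      funext z
      rw [Real.rpow_neg (norm_nonneg _)]; norm_num
    rw [e, ← integrable_indicator_iff Metric.isOpen_ball.measurableSet] at h
    have h2 := h.comp_sub_left x
    have h4 : (fun y => (Metric.ball (0 : E) 1).indicator (fun z : E => (‖z‖ ^ 2)⁻¹) (x - y))
        = (Metric.ball x 1).indicator (fun y => (‖x - y‖ ^ 2)⁻¹) := by
      funext y
      by_cases hy : y ∈ Metric.ball x 1
      · have hy' : x - y ∈ Metric.ball (0 : E) 1 := by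
          rw [mem_ball_zero_iff, ← dist_eq_norm, dist_comm]; exact hy
        rw [indicator_of_mem hy, indicator_of_mem hy']
      · have hy' : x - y ∉ Metric.ball (0 : E) 1 := by
          rw [mem_ball_zero_iff, ← dist_eq_norm, dist_comm]; exact hy
        rw [indicator_of_notMem hy, indicator_of_notMem hy']
    rw [h4, integrable_indicator_iff Metric.isOpen_ball.measurableSet] at h2
    exact h2.const_mul M
  have d2 : Integrable (fun y => (2 : ℝ) ^ (2 * q) * (1 + ‖x - y‖) ^ (-(2 * q))) :=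
    ((integrable_far hq2).comp_sub_left x).const_mul _
  have d3 := (d1.add d2).add hLp
  refine d3.mono' ?_ ?_
  · exact (hV.measurable.div ((measurable_const.sub measurable_id).norm.pow_const 2)).aestronglyMeasurable
  · filter_upwards with y
    rw [Real.norm_eq_abs, abs_of_nonneg (div_nonneg (nm_nonneg _ _) (by positivity))]
    simp only [Pi.add_apply]
    have hnn : 0 ≤ nm V y ^ p := Real.rpow_nonneg (nm_nonneg _ _) _
    by_cases hy : y ∈ Metric.ball x 1
    · rw [indicator_of_mem hy]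
      have h5 : nm V y ≤ M := (le_abs_self _).trans (hM y (Metric.ball_subset_closedBall hy))
      have h6 : nm V y / ‖x - y‖ ^ 2 ≤ M * (‖x - y‖ ^ 2)⁻¹ := by
        rw [div_eq_mul_inv]
        exact mul_le_mul_of_nonneg_right h5 (by positivity)
      have h7 : 0 ≤ (2 : ℝ) ^ (2 * q) * (1 + ‖x - y‖) ^ (-(2 * q)) := by positivity
      linarith
    · rw [indicator_of_notMem hy]
      have hxy : 1 ≤ ‖x - y‖ := by
        rw [Metric.mem_ball, not_lt, dist_comm, dist_eq_norm] at hy; exact hy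
      have hy0 : 0 < ‖x - y‖ := by linarith
      have h8 := Real.young_inequality_of_nonneg (nm_nonneg V y)
        (show 0 ≤ (‖x - y‖ ^ 2)⁻¹ by positivity) hpq
      have h9 : nm V y ^ p / p ≤ nm V y ^ p := div_le_self hnn h1.le
      have hq1 : 1 ≤ q := hpq.symm.lt.le
      have h10 : (‖x - y‖ ^ 2)⁻¹ ^ q / q ≤ (‖x - y‖ ^ 2)⁻¹ ^ q :=
        div_le_self (by positivity) hq1
      have h11 : (‖x - y‖ ^ 2)⁻¹ ^ q ≤ (2 : ℝ) ^ (2 * q) * (1 + ‖x - y‖) ^ (-(2 * q)) := by
        have e1 : (‖x - y‖ ^ 2)⁻¹ ^ q = ‖x - y‖ ^ (-(2 * q)) := by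
          rw [← Real.rpow_natCast, ← Real.rpow_neg hy0.le, ← Real.rpow_mul hy0.le]
          norm_num
        have e2 : (2 : ℝ) ^ (2 * q) * (1 + ‖x - y‖) ^ (-(2 * q)) = ((1 + ‖x - y‖) / 2) ^ (-(2 * q)) := by
          rw [Real.div_rpow (by positivity) (by norm_num), Real.rpow_neg (by norm_num : (0:ℝ) ≤ 2)]
          field_simp
        rw [e1, e2]
        exact Real.rpow_le_rpow_of_nonpos (by positivity) (by linarith) (by linarith)
      rw [div_eq_mul_inv]
      linarith

/-! ### vector potentials -/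

theorem nm_le_sum (F : VF) (x : E) : nm F x ≤ ∑ i, |F i x| := by
  unfold nm sq
  rw [Real.sqrt_le_left (by positivity)]
  simp only [Fin.sum_univ_three]
  have h0 := abs_nonneg (F 0 x)
  have h1 := abs_nonneg (F 1 x)
  have h2 := abs_nonneg (F 2 x)
  have e0 := sq_abs (F 0 x)
  have e1 := sq_abs (F 1 x)
  have e2 := sq_abs (F 2 x)
  nlinarith [mul_nonneg h0 h1, mul_nonneg h0 h2, mul_nonneg h1 h2]

/-- `a ≤ l + l^{1-p} a^p` -/
theorem le_add_rpow {a l p : ℝ} (ha : 0 ≤ a) (hl : 0 < l) (hp : 1 < p) : a ≤ l + l ^ (1 - p) * a ^ p := by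
  by_cases h : a ≤ l
  · have : 0 ≤ l ^ (1 - p) * a ^ p := by positivity
    linarith
  · push Not at h
    have ha' : 0 < a := hl.trans h
    have h1 : a ^ (1 - p) ≤ l ^ (1 - p) := Real.rpow_le_rpow_of_nonpos hl h.le (by linarith)
    have h2 : a ^ (1 - p) * a ^ p = a := by
      rw [← Real.rpow_add ha']; norm_num
    have h3 : 0 ≤ a ^ p := by positivity
    nlinarith [mul_le_mul_of_nonneg_right h1 h3]

theorem sm_eq_near {φ : E → ℝ} {V : VF} {L : ℝ} (h1 : ∀ x, ‖x‖ ≤ L → φ x = 1) {x : E} (hx : ‖x‖ < L) (i : Fin 3) :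
    sm φ V i =ᶠ[𝓝 x] V i := by
  filter_upwards [(isOpen_lt continuous_norm continuous_const).mem_nhds hx] with y hy
  unfold sm
  rw [h1 y (le_of_lt hy), one_mul]

theorem exists_psi : ∃ C₀ : ℝ, 0 < C₀ ∧ ∀ (V : VF), (∀ i, ContDiff ℝ 3 (V i)) → (∀ x, dv V x = 0) →
    ∀ p : ℝ, 1 < p → p < 3 → Integrable (fun x => nm V x ^ p) → ∀ r ε : ℝ, 0 < r → 0 < ε →
    ∃ Ψ : VF, (∀ i, ContDiff ℝ 2 (Ψ i)) ∧ (∀ x, dv Ψ x = 0) ∧
      (∀ x, ‖x‖ < r → nm (fun i y => curl Ψ i y - V i y) x ≤ ε) ∧
      (∀ x, ‖x‖ < r → ∀ i, curl (curl Ψ) i x = curl V i x) ∧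
      (∀ x, nm Ψ x ≤ C₀ * ∫ y, nm V y / ‖x - y‖ ^ 2) := by
  refine ⟨6 * cN⁻¹, by have := cN_pos; positivity, ?_⟩
  intro V hV hdiv p hp1 hp3 hLp r ε hr hε
  obtain ⟨C, hC, hcut⟩ := exists_cutoff
  have hcN := cN_pos
  have hVc : ∀ i, Continuous (V i) := fun i => (hV i).continuous
  have hnV : Continuous (nm V) := continuous_nm hVc
  set K : ℝ := ∫ x, nm V x ^ p with hK
  have hK0 : 0 ≤ K := integral_nonneg fun x => Real.rpow_nonneg (nm_nonneg _ _) _
  -- choose the constants
  set b : ℝ := volume.real (Metric.ball (0 : E) 1) with hb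
  have hb0 : 0 ≤ b := measureReal_nonneg
  set A : ℝ := 3 * (cN⁻¹ * (3 * C * 4)) with hA
  have hA0 : 0 < A := by positivity
  -- l with A * 8 b l ≤ ε/2
  set l : ℝ := ε / (2 * (A * (8 * b + 1))) with hl
  have hl0 : 0 < l := by positivity
  obtain ⟨L0, hL0⟩ : ∃ L0 : ℝ, A * (l ^ (1 - p) * K) * 2 / ε ≤ L0 := ⟨_, le_refl _⟩
  set L : ℝ := max (max (2 * r) 1) L0 with hLdef
  have hL1 : 1 ≤ L := (le_max_right _ _).trans (le_max_left _ _)
  have hL2 : 2 * r ≤ L := (le_max_left _ _).trans (le_max_left _ _)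
  have hL3 : L0 ≤ L := le_max_right _ _
  have hLp0 : 0 < L := by linarith
  obtain ⟨φ, φs, φc, φ0, φ1, φone, φzero, φd, -, φd0, -⟩ := hcut L L hLp0 le_rfl
  have φ3 : ContDiff ℝ 3 φ := (contDiff_infty.1 φs) 3
  set F : VF := sm φ V with hF
  have hF3 : ∀ i, ContDiff ℝ 3 (F i) := fun i => φ3.mul (hV i)
  have hFc : ∀ i, HasCompactSupport (F i) := fun i => φc.mul_right
  set Φ : VF := fun i => newt cN (F i) with hΦ
  have hΦ3 : ∀ i, ContDiff ℝ 3 (Φ i) := fun i => contDiff_newt (n := 3) cN (hF3 i) (hFc i)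
  set h : E → ℝ := dv F with hh
  have hh2 : ContDiff ℝ 2 h := contDiff_dv hF3 (by norm_num)
  have hFdiff : ∀ i, Differentiable ℝ (F i) := fun i => (hF3 i).differentiable (by norm_num)
  have hheq : ∀ y, h y = dot (grad φ) V y := by
    intro y
    rw [hh, hF, dv_sm (φ3.differentiable (by norm_num)) (fun i => (hV i).differentiable (by norm_num)), hdiv]
    ring
  have hhc : HasCompactSupport h := by
    apply HasCompactSupport.intro (isCompact_Sh L (L + L))
    intro y hy
    rw [hheq]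
    unfold dot grad
    simp [φd0 y hy]
  -- divergence of the potential
  have hdvΦ : dv Φ = newt cN h := by
    funext y
    have e1 : ∀ i, pd i (Φ i) = newt cN (pd i (F i)) := fun i =>
      pd_newt cN ((hF3 i).of_le (by norm_num)) (hFc i) i
    have e2 := newt_sum cN (f := fun i => pd i (F i))
      (fun i => continuous_pd ((hF3 i).of_le (by norm_num))) (fun i => hasCompactSupport_pd (hFc i)) y
    unfold dv
    simp only [e1]
    rw [← e2]
    rfl
  have hnh : ContDiff ℝ 2 (newt cN h) := contDiff_newt (n := 2) cN hh2 hhc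
  -- curl of the curl
  have hcc : ∀ i, curl (curl Φ) i = fun y => pd i (newt cN h) y + F i y := by
    intro i
    funext y
    rw [curl_curl (fun j => (hΦ3 j).of_le (by norm_num)) i y, hdvΦ,
      show lap (Φ i) y = - F i y from lap_newt ((hF3 i).of_le (by norm_num)) (hFc i) y]
    ring
  -- the error
  have herr : ∀ x, ‖x‖ < r → ∀ i, |pd i (newt cN h) x| ≤ ε / 3 := by
    intro x hx i
    refine (abs_pd_newt_le (hh2.of_le (by norm_num)) hhc i x).trans ?_
    have hbound : ∀ y, |h y| / ‖x - y‖ ^ 2 ≤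
        (Metric.closedBall (0 : E) (2 * L)).indicator
          (fun y => (3 * C * 4) / L ^ 3 * (l + l ^ (1 - p) * nm V y ^ p)) y := by
      intro y
      have hgn : 0 ≤ (3 * C * 4) / L ^ 3 * (l + l ^ (1 - p) * nm V y ^ p) := by
        have : 0 ≤ nm V y ^ p := Real.rpow_nonneg (nm_nonneg _ _) _
        positivity
      by_cases hy : y ∈ Sh L (L + L)
      · have hy1 : y ∈ Metric.closedBall (0 : E) (2 * L) := by
          rw [mem_closedBall_zero_iff]; linarith [hy.2]
        rw [indicator_of_mem hy1]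
        have g1 : |h y| ≤ 3 * (C / L) * nm V y := by
          rw [hheq]
          unfold dot grad
          refine (Finset.abs_sum_le_sum_abs _ _).trans ?_
          calc ∑ i, |pd i φ y * V i y| ≤ ∑ _i : Fin 3, (C / L) * nm V y := by
                apply Finset.sum_le_sum
                intro j _
                rw [abs_mul]
                exact mul_le_mul (φd y j) (abs_le_nm V j y) (abs_nonneg _) (by positivity)
            _ = 3 * (C / L) * nm V y := by simp; ring
        have g2 : L / 2 ≤ ‖x - y‖ := by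
          have := norm_sub_norm_le y x
          rw [norm_sub_rev] at this
          linarith [hy.1]
        have g3 : (L / 2) ^ 2 ≤ ‖x - y‖ ^ 2 := by gcongr
        have g4 := le_add_rpow (nm_nonneg V y) hl0 hp1
        calc |h y| / ‖x - y‖ ^ 2 ≤ (3 * (C / L) * nm V y) / (L / 2) ^ 2 := by
              have := nm_nonneg V y
              gcongr
          _ = (3 * C * 4) / L ^ 3 * nm V y := by field_simp; ring
          _ ≤ _ := by gcongr
      · have : h y = 0 := by
          rw [hheq]; unfold dot grad; simp [φd0 y hy]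
        rw [this, abs_zero, zero_div]
        by_cases hy1 : y ∈ Metric.closedBall (0 : E) (2 * L)
        · rw [indicator_of_mem hy1]; exact hgn
        · rw [indicator_of_notMem hy1]
    have hint : IntegrableOn (fun y => (3 * C * 4) / L ^ 3 * (l + l ^ (1 - p) * nm V y ^ p))
        (Metric.closedBall (0 : E) (2 * L)) := by
      apply Integrable.const_mul
      apply Integrable.add
      · exact integrableOn_const (measure_closedBall_lt_top.ne)
      · exact (hLp.const_mul _).integrableOn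
    have hI : ∫ y, |h y| / ‖x - y‖ ^ 2 ≤ (3 * C * 4) / L ^ 3 * (8 * L ^ 3 * b * l + l ^ (1 - p) * K) := by
      calc ∫ y, |h y| / ‖x - y‖ ^ 2 ≤ ∫ y, (Metric.closedBall (0 : E) (2 * L)).indicator
            (fun y => (3 * C * 4) / L ^ 3 * (l + l ^ (1 - p) * nm V y ^ p)) y := by
            apply integral_mono_of_nonneg
            · filter_upwards with y
              exact div_nonneg (abs_nonneg _) (by positivity)
            · rw [integrable_indicator_iff measurableSet_closedBall]; exact hint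
            · filter_upwards with y using hbound y
        _ = ∫ y in Metric.closedBall (0 : E) (2 * L),
            (3 * C * 4) / L ^ 3 * (l + l ^ (1 - p) * nm V y ^ p) := integral_indicator measurableSet_closedBall
        _ = (3 * C * 4) / L ^ 3 * ((∫ y in Metric.closedBall (0 : E) (2 * L), l)
              + l ^ (1 - p) * ∫ y in Metric.closedBall (0 : E) (2 * L), nm V y ^ p) := by
            have i1 : Integrable (fun _ : E => l) (volume.restrict (Metric.closedBall (0 : E) (2 * L))) :=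
              integrableOn_const (measure_closedBall_lt_top.ne)
            have i2 : Integrable (fun y : E => l ^ (1 - p) * nm V y ^ p)
                (volume.restrict (Metric.closedBall (0 : E) (2 * L))) := (hLp.const_mul _).integrableOn
            rw [integral_const_mul, integral_add i1 i2, integral_const_mul]
        _ ≤ (3 * C * 4) / L ^ 3 * (8 * L ^ 3 * b * l + l ^ (1 - p) * K) := by
            have e1 : (∫ y in Metric.closedBall (0 : E) (2 * L), l) = 8 * L ^ 3 * b * l := by
              rw [setIntegral_const, Measure.addHaar_real_closedBall _ _ (by positivity), finrank_E, ← hb,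
                smul_eq_mul]
              ring
            have e2 : ∫ y in Metric.closedBall (0 : E) (2 * L), nm V y ^ p ≤ K :=
              setIntegral_le_integral hLp (by
                filter_upwards with y using Real.rpow_nonneg (nm_nonneg _ _) _)
            rw [e1]
            gcongr
    have hl1 : A * (8 * b * l) ≤ ε / 2 := by
      have : A * (8 * b * l) = (8 * b) / (8 * b + 1) * (ε / 2) := by
        rw [hl]; field_simp
      rw [this]
      have h8 : (8 * b) / (8 * b + 1) ≤ 1 := by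
        rw [div_le_one (by positivity)]; linarith
      nlinarith
    have hL4 : A * (l ^ (1 - p) * K) / L ^ 3 ≤ ε / 2 := by
      have h9 : L ≤ L ^ 3 := by nlinarith [sq_nonneg L, mul_pos hLp0 hLp0]
      have h10 : A * (l ^ (1 - p) * K) * 2 / ε ≤ L ^ 3 := hL0.trans (hL3.trans h9)
      rw [div_le_iff₀ hε] at h10
      rw [div_le_iff₀ (by positivity)]
      nlinarith
    calc cN⁻¹ * ∫ y, |h y| / ‖x - y‖ ^ 2
        ≤ cN⁻¹ * ((3 * C * 4) / L ^ 3 * (8 * L ^ 3 * b * l + l ^ (1 - p) * K)) := by gcongr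
      _ = (A * (8 * b * l) + A * (l ^ (1 - p) * K) / L ^ 3) / 3 := by
          rw [hA]; field_simp
      _ ≤ ε / 3 := by linarith
  refine ⟨curl Φ, fun i => contDiff_curl hΦ3 (by norm_num) i, fun x => ?_, ?_, ?_, ?_⟩
  · exact dv_curl (fun i => (hΦ3 i).of_le (by norm_num)) x
  · intro x hx
    refine (nm_le_sum _ _).trans ?_
    have hxL : ‖x‖ ≤ L := by linarith
    calc ∑ i, |curl (curl Φ) i x - V i x| ≤ ∑ _i : Fin 3, ε / 3 := by
          apply Finset.sum_le_sum
          intro i _
          rw [hcc i]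
          have : F i x = V i x := by rw [hF]; unfold sm; rw [φone x hxL, one_mul]
          show |pd i (newt cN h) x + F i x - V i x| ≤ ε / 3
          rw [this, add_sub_cancel_right]
          exact herr x hx i
      _ = ε := by simp; ring
  · intro x hx i
    have hxL : ‖x‖ < L := by linarith
    have hd1 : ∀ j, Differentiable ℝ (pd j (newt cN h)) := fun j =>
      (contDiff_pd (m := 1) hnh (by norm_num)).differentiable (by norm_num)
    have e1 : curl (curl (curl Φ)) i x = curl (grad (newt cN h)) i x + curl F i x := by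
      unfold curl at hcc ⊢
      simp only [hcc]
      rw [pd_add (hd1 _) (hFdiff _), pd_add (hd1 _) (hFdiff _)]
      unfold grad
      ring
    rw [e1, curl_grad hnh, zero_add]
    unfold curl
    rw [pd_congr_at (sm_eq_near φone hxL _), pd_congr_at (sm_eq_near φone hxL _)]
  · intro x
    have hF_le : ∀ j y, |F j y| ≤ nm V y := by
      intro j y
      rw [hF]; unfold sm
      rw [abs_mul, abs_of_nonneg (φ0 y)]
      calc φ y * |V j y| ≤ 1 * nm V y := by
            exact mul_le_mul (φ1 y) (abs_le_nm V j y) (abs_nonneg _) (by norm_num)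
        _ = nm V y := one_mul _
    have hR := riesz_integrable hVc hp1 hp3 hLp x
    have hj : ∀ i j, |pd i (Φ j) x| ≤ cN⁻¹ * ∫ y, nm V y / ‖x - y‖ ^ 2 := by
      intro i j
      refine (abs_pd_newt_le ((hF3 j).of_le (by norm_num)) (hFc j) i x).trans ?_
      apply mul_le_mul_of_nonneg_left _ (by positivity)
      apply integral_mono_of_nonneg
      · filter_upwards with y
        exact div_nonneg (abs_nonneg _) (by positivity)
      · exact hR
      · filter_upwards with y
        exact div_le_div_of_nonneg_right (hF_le j y) (by positivity)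
    refine (nm_le_sum _ _).trans ?_
    calc ∑ i, |curl Φ i x| ≤ ∑ _i : Fin 3, 2 * (cN⁻¹ * ∫ y, nm V y / ‖x - y‖ ^ 2) := by
          apply Finset.sum_le_sum
          intro i _
          unfold curl
          refine (abs_sub _ _).trans ?_
          linarith [hj (i + 1) (i + 2), hj (i + 2) (i + 1)]
      _ = 6 * cN⁻¹ * ∫ y, nm V y / ‖x - y‖ ^ 2 := by simp; ring

end Leray
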