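import Pool.Agent.Lib.MP_9b9638_an.Thin0
import Pool.Agent.Lib.MP_9b9638_an.Shell2
import Pool.Agent.Lib.MP_9b9638_an.Newton

/-!
# Thin shells: the configuration produced by the pigeonhole
-/

open MeasureTheory Set Filter Topology TopologicalSpace
open scoped NNReal ENNReal

noncomputable section

namespace Leray

/-- data of a good thin shell -/
structure Cfg (V : VF) (p s C0 Cw : ℝ) where
  R : ℝ
  δ : ℝ
  r : ℝ
  ε : ℝ
  Y : ℝ
  x : ℝ
  η : ℝ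
  Ψ : VF
  hR : 1 ≤ R
  hδ : 0 < δ
  hδR : δ ≤ R
  hr1 : R ≤ r
  hr2 : r ≤ R + δ
  hε : 0 ≤ ε
  hYdef : Y = 1 + W V (R + 4 * δ)
  hY : 1 ≤ Y
  hxdef : x = Y ^ (-s) / 16
  hηdef : η = δ * x
  hx0 : 0 < x
  hx1 : x ≤ 1 / 16
  hη0 : 0 < η
  hΨC : ∀ i, ContDiff ℝ 2 (Ψ i)
  hΨd : ∀ y, dv Ψ y = 0
  hΨe : ∀ y, ‖y‖ < R + 8 * δ → nm (fun i z => curl Ψ i z - V i z) y ≤ ε
  hΨc : ∀ y, ‖y‖ < R + 8 * δ → ∀ i, curl (curl Ψ) i y = curl V i y
  hΨb : ∀ y, nm Ψ y ≤ C0 * ∫ z, nm V z / ‖y - z‖ ^ 2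
  herr : ε * (1 + η⁻¹) * (∫ y in Metric.closedBall (0 : E) (R + 2 * δ), nm (curl V) y * (1 + nm V y + ‖y‖)) ≤ 1
  hvol : ε ^ 2 * (volume : Measure E).real (Metric.ball 0 (R + 3 * δ)) ≤ 1
  hw : (∫ y in Sh (r - 3 * η) (r + 4 * η), sq (curl V) y) ≤ 28 * x * Y
  hα : (∫ y in Sh (r - 3 * η) (r + 4 * η), nm V y ^ p) ≤ 28 * x * ((∫ y, nm V y ^ p) + 1)
  hN : (∫ y in Sh r (r + η), gsq Ψ y) ≤ 4 * x * ((∫ y in Metric.ball (0 : E) (R + 2 * δ), gsq Ψ y) + 1)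
  hG : Gw V p ((4 - p) / 2) η r ≤ 4 * Cw * η ^ (1 - (4 - p) / 2) * ((∫ y, nm V y ^ p) + 1) * δ⁻¹

theorem W_nonneg (V : VF) (R : ℝ) : 0 ≤ W V R :=
  setIntegral_nonneg measurableSet_ball fun _ _ => sq_nonneg' _ _

theorem cfg_exists {ν a : ℝ} {V : VF} (hV : SmoothProfile ν a V) {p : ℝ} (h1 : 1 < p) (h2 : p < 2)
    (hLp : Integrable (fun x => nm V x ^ p)) {s : ℝ} (hs : 0 < s) :
    ∃ C0 Cw : ℝ, 0 < C0 ∧ 0 < Cw ∧ ∀ R δ : ℝ, 1 ≤ R → 0 < δ → δ ≤ R →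
      ∃ c : Cfg V p s C0 Cw, c.R = R ∧ c.δ = δ := by
  obtain ⟨C0, hC0, hpsi⟩ := exists_psi
  obtain ⟨Cw, hCw, hGw⟩ := Gw_avg p h1 h2
  refine ⟨C0, Cw, hC0, hCw, ?_⟩
  intro R δ hR hδ hδR
  have hV1 : ∀ i, ContDiff ℝ 1 (V i) := fun i => (hV.smooth i).of_le (by norm_num)
  have cV : ∀ i, Continuous (V i) := fun i => (hV1 i).continuous
  have hω1 : ∀ i, ContDiff ℝ 1 (curl V i) := fun i => contDiff_curl hV.smooth (by norm_num) i
  have cω : ∀ i, Continuous (curl V i) := fun i => (hω1 i).continuous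
  obtain ⟨Y, hYdef⟩ : ∃ Y, Y = 1 + W V (R + 4 * δ) := ⟨_, rfl⟩
  have hW0 := W_nonneg V (R + 4 * δ)
  have hY : 1 ≤ Y := by rw [hYdef]; linarith
  have hY0 : 0 < Y := by linarith
  obtain ⟨x, hxdef⟩ : ∃ x, x = Y ^ (-s) / 16 := ⟨_, rfl⟩
  have hx0 : 0 < x := by rw [hxdef]; positivity
  have hx1 : x ≤ 1 / 16 := by
    rw [hxdef]
    have : Y ^ (-s) ≤ 1 := Real.rpow_le_one_of_one_le_of_nonpos hY (by linarith)
    linarith
  obtain ⟨η, hηdef⟩ : ∃ η, η = δ * x := ⟨_, rfl⟩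
  have hη0 : 0 < η := by rw [hηdef]; positivity
  have hηδ : η ≤ δ / 16 := by
    rw [hηdef]; nlinarith
  -- the error terms
  set Ae := ∫ y in Metric.closedBall (0 : E) (R + 2 * δ), nm (curl V) y * (1 + nm V y + ‖y‖) with hAe
  have hAe0 : 0 ≤ Ae := setIntegral_nonneg measurableSet_closedBall fun y _ =>
    mul_nonneg (nm_nonneg _ _) (by have := nm_nonneg V y; positivity)
  set v := (volume : Measure E).real (Metric.ball 0 (R + 3 * δ)) with hv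
  have hv0 : 0 ≤ v := by positivity
  have hηi : 0 < η⁻¹ := inv_pos.2 hη0
  obtain ⟨ε, hεdef⟩ : ∃ ε, ε = min (1 / ((1 + η⁻¹) * (Ae + 1))) (1 / (v + 1)) := ⟨_, rfl⟩
  have hε : 0 < ε := by rw [hεdef]; positivity
  have herr : ε * (1 + η⁻¹) * Ae ≤ 1 := by
    have h : ε ≤ 1 / ((1 + η⁻¹) * (Ae + 1)) := by rw [hεdef]; exact min_le_left _ _
    calc ε * (1 + η⁻¹) * Ae ≤ ε * (1 + η⁻¹) * (Ae + 1) := by gcongr; linarith
      _ = ε * ((1 + η⁻¹) * (Ae + 1)) := by ring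
      _ ≤ 1 / ((1 + η⁻¹) * (Ae + 1)) * ((1 + η⁻¹) * (Ae + 1)) := by gcongr
      _ = 1 := by field_simp
  have hvol : ε ^ 2 * v ≤ 1 := by
    have h : ε ≤ 1 / (v + 1) := by rw [hεdef]; exact min_le_right _ _
    have h1 : ε ≤ 1 := h.trans (by rw [div_le_one (by positivity)]; linarith)
    calc ε ^ 2 * v = ε * (ε * v) := by ring
      _ ≤ 1 * (ε * v) := by gcongr
      _ = ε * v := by ring
      _ ≤ 1 / (v + 1) * (v + 1) := by gcongr; linarith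
      _ = 1 := by field_simp
  obtain ⟨Ψ, hΨC, hΨd, hΨe, hΨc, hΨb⟩ := hpsi V hV.smooth hV.div0 p h1 (by linarith) hLp (R + 8 * δ) ε
    (by positivity) hε
  have hΨ1 : ∀ i, ContDiff ℝ 1 (Ψ i) := fun i => (hΨC i).of_le (by norm_num)
  -- the pigeonhole
  set A1 := (∫ y, nm V y ^ p) + 1 with hA1
  have hA0 : 0 ≤ ∫ y, nm V y ^ p := integral_nonneg fun y => Real.rpow_nonneg (nm_nonneg _ _) _
  have hA1p : 0 < A1 := by rw [hA1]; linarith
  set Nn := (∫ y in Metric.ball (0 : E) (R + 2 * δ), gsq Ψ y) + 1 with hNn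
  have hNn0 : 0 ≤ ∫ y in Metric.ball (0 : E) (R + 2 * δ), gsq Ψ y :=
    setIntegral_nonneg measurableSet_ball fun _ _ => gsq_nonneg _ _
  have cp : Continuous (fun y => nm V y ^ p) := (continuous_nm cV).rpow_const fun y => Or.inr (by linarith)
  have a0 := shell_avg (continuous_sq cω) (fun y => sq_nonneg' _ y) (R := R) (δ := δ) (c := 3 * η) (d := 4 * η)
    hδ (by positivity) (by positivity)
  have a1 := shell_avg cp (fun y => Real.rpow_nonneg (nm_nonneg _ _) _) (R := R) (δ := δ) (c := 3 * η) (d := 4 * η)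
    hδ (by positivity) (by positivity)
  have a2 := shell_avg (continuous_gsq hΨ1) (fun y => gsq_nonneg _ y) (R := R) (δ := δ) (c := 0) (d := η)
    hδ le_rfl hη0.le
  have a3 := hGw V η R δ cV hLp hη0 hδ
  have b0 : ∫ y in Sh (R - 3 * η) (R + δ + 4 * η), sq (curl V) y ≤ Y := by
    have : ∫ y in Sh (R - 3 * η) (R + δ + 4 * η), sq (curl V) y ≤ W V (R + 4 * δ) :=
      set_mono (Sh_subset_ball (by linarith)) (ball_sub' _) (continuous_sq cω) (fun y => sq_nonneg' _ y)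
    rw [hYdef]; linarith
  have b1 : ∫ y in Sh (R - 3 * η) (R + δ + 4 * η), nm V y ^ p ≤ A1 := by
    have : ∫ y in Sh (R - 3 * η) (R + δ + 4 * η), nm V y ^ p ≤ ∫ y, nm V y ^ p :=
      setIntegral_le_integral hLp (Eventually.of_forall fun y => Real.rpow_nonneg (nm_nonneg _ _) _)
    linarith
  have b2 : ∫ y in Sh (R - 0) (R + δ + η), gsq Ψ y ≤ Nn := by
    have : ∫ y in Sh (R - 0) (R + δ + η), gsq Ψ y ≤ ∫ y in Metric.ball (0 : E) (R + 2 * δ), gsq Ψ y :=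
      set_mono (Sh_subset_ball (by linarith)) (ball_sub' _) (continuous_gsq hΨ1) (fun y => gsq_nonneg _ y)
    linarith
  obtain ⟨r, hr, hF⟩ := pigeon (n := 4) hδ
    ![fun r => ∫ y in Sh (r - 3 * η) (r + 4 * η), sq (curl V) y,
      fun r => ∫ y in Sh (r - 3 * η) (r + 4 * η), nm V y ^ p,
      fun r => ∫ y in Sh (r - 0) (r + η), gsq Ψ y,
      fun r => Gw V p ((4 - p) / 2) η r]
    ![7 * η * Y, 7 * η * A1, η * Nn, Cw * η ^ (1 - (4 - p) / 2) * A1]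
    (by
      intro j
      fin_cases j
      · exact a0.1
      · exact a1.1
      · exact a2.1
      · exact a3.1)
    (by
      intro j r
      fin_cases j
      · exact setIntegral_nonneg (measurableSet_Sh _ _) fun y _ => sq_nonneg' _ y
      · exact setIntegral_nonneg (measurableSet_Sh _ _) fun y _ => Real.rpow_nonneg (nm_nonneg _ _) _
      · exact setIntegral_nonneg (measurableSet_Sh _ _) fun y _ => gsq_nonneg _ y
      · exact Gw_nonneg V p _ η r hη0)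
    (by
      intro j
      fin_cases j
      · show 0 < 7 * η * Y; positivity
      · show 0 < 7 * η * A1; positivity
      · show 0 < η * Nn; positivity
      · show 0 < Cw * η ^ (1 - (4 - p) / 2) * A1; positivity)
    (by
      intro j
      fin_cases j
      · show (∫ r in Icc R (R + δ), ∫ y in Sh (r - 3 * η) (r + 4 * η), sq (curl V) y) ≤ 7 * η * Y
        calc _ ≤ (3 * η + 4 * η) * ∫ y in Sh (R - 3 * η) (R + δ + 4 * η), sq (curl V) y := a0.2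
          _ ≤ (3 * η + 4 * η) * Y := by gcongr
          _ = _ := by ring
      · show (∫ r in Icc R (R + δ), ∫ y in Sh (r - 3 * η) (r + 4 * η), nm V y ^ p) ≤ 7 * η * A1
        calc _ ≤ (3 * η + 4 * η) * ∫ y in Sh (R - 3 * η) (R + δ + 4 * η), nm V y ^ p := a1.2
          _ ≤ (3 * η + 4 * η) * A1 := by gcongr
          _ = _ := by ring
      · show (∫ r in Icc R (R + δ), ∫ y in Sh (r - 0) (r + η), gsq Ψ y) ≤ η * Nn
        calc _ ≤ (0 + η) * ∫ y in Sh (R - 0) (R + δ + η), gsq Ψ y := a2.2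
          _ ≤ (0 + η) * Nn := by gcongr
          _ = _ := by ring
      · show (∫ r in Icc R (R + δ), Gw V p ((4 - p) / 2) η r) ≤ Cw * η ^ (1 - (4 - p) / 2) * A1
        calc _ ≤ Cw * η ^ (1 - (4 - p) / 2) * ∫ y, nm V y ^ p := a3.2
          _ ≤ _ := by
            gcongr
            linarith)
  have f0 : ∫ y in Sh (r - 3 * η) (r + 4 * η), sq (curl V) y ≤ ((4 : ℕ) : ℝ) * (7 * η * Y) / δ := hF 0
  have f1 : ∫ y in Sh (r - 3 * η) (r + 4 * η), nm V y ^ p ≤ ((4 : ℕ) : ℝ) * (7 * η * A1) / δ := hF 1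
  have f2 : ∫ y in Sh (r - 0) (r + η), gsq Ψ y ≤ ((4 : ℕ) : ℝ) * (η * Nn) / δ := hF 2
  have f3 : Gw V p ((4 - p) / 2) η r ≤ ((4 : ℕ) : ℝ) * (Cw * η ^ (1 - (4 - p) / 2) * A1) / δ := hF 3
  have hδ' : δ ≠ 0 := hδ.ne'
  refine ⟨⟨R, δ, r, ε, Y, x, η, Ψ, hR, hδ, hδR, hr.1, hr.2, hε.le, hYdef, hY, hxdef, hηdef, hx0, hx1, hη0,
    hΨC, hΨd, fun y hy => hΨe y hy, fun y hy => hΨc y hy, hΨb, herr, hvol, ?_, ?_, ?_, ?_⟩, rfl, rfl⟩
  · refine f0.trans (le_of_eq ?_)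
    rw [hηdef]; push_cast; field_simp; ring
  · refine f1.trans (le_of_eq ?_)
    rw [hηdef]; push_cast; field_simp; ring
  · rw [sub_zero] at f2
    refine f2.trans (le_of_eq ?_)
    show _ = 4 * x * Nn
    rw [hηdef]; push_cast; field_simp
  · refine f3.trans (le_of_eq ?_)
    push_cast; field_simp; try ring

end Leray
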