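import Pool.Agent.Lib.MP_9b9638_an.Cutoff

/-!
# Sobolev inequalities on shells and balls, gradient of the vector potential
-/

open MeasureTheory Set Filter Topology
open scoped ENNReal

noncomputable section

namespace Leray

namespace Loc

/-- Hölder's inequality with exponents adding up to one -/
theorem holder {α : Type*} [MeasurableSpace α] {μ : Measure α} {f g : α → ℝ} (hf : Integrable f μ)
    (hg : Integrable g μ) (hf0 : ∀ x, 0 ≤ f x) (hg0 : ∀ x, 0 ≤ g x) {t u : ℝ} (ht : 0 ≤ t) (hu : 0 ≤ u)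
    (htu : t + u = 1) : ∫ x, f x ^ t * g x ^ u ∂μ ≤ (∫ x, f x ∂μ) ^ t * (∫ x, g x ∂μ) ^ u := by
  have h := ENNReal.lintegral_mul_norm_pow_le (μ := μ) (f := fun x => ENNReal.ofReal (f x))
    (g := fun x => ENNReal.ofReal (g x)) hf.aemeasurable.ennreal_ofReal hg.aemeasurable.ennreal_ofReal ht hu htu
  rw [← ofReal_integral_eq_lintegral_ofReal hf (Eventually.of_forall hf0),
    ← ofReal_integral_eq_lintegral_ofReal hg (Eventually.of_forall hg0)] at h
  have hA : 0 ≤ ∫ x, f x ∂μ := integral_nonneg hf0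
  have hB : 0 ≤ ∫ x, g x ∂μ := integral_nonneg hg0
  rw [ENNReal.ofReal_rpow_of_nonneg hA ht, ENNReal.ofReal_rpow_of_nonneg hB hu,
    ← ENNReal.ofReal_mul (Real.rpow_nonneg hA _)] at h
  have h2 := norm_integral_le_lintegral_norm (μ := μ) fun x => f x ^ t * g x ^ u
  refine (Real.le_norm_self _).trans (h2.trans ?_)
  apply ENNReal.toReal_le_of_le_ofReal (mul_nonneg (Real.rpow_nonneg hA _) (Real.rpow_nonneg hB _))
  refine le_trans (le_of_eq ?_) h
  congr 1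
  funext x
  rw [Real.norm_of_nonneg (mul_nonneg (Real.rpow_nonneg (hf0 x) _) (Real.rpow_nonneg (hg0 x) _)),
    ENNReal.ofReal_mul (Real.rpow_nonneg (hf0 x) _), ENNReal.ofReal_rpow_of_nonneg (hf0 x) ht,
    ENNReal.ofReal_rpow_of_nonneg (hg0 x) hu]

/-- absorbing a power smaller than one -/
theorem absorb {X a B θ : ℝ} (hX : 0 ≤ X) (hB : 0 ≤ B) (ha : 0 ≤ a) (hθ : θ < 1)
    (h : X ≤ a + B * X ^ θ) : X ≤ 2 * a + (2 * B) ^ (1 / (1 - θ)) := by
  have h1θ : 0 < 1 - θ := by linarith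
  have hp : 0 ≤ (2 * B) ^ (1 / (1 - θ)) := Real.rpow_nonneg (by positivity) _
  by_cases h1 : X ≤ 2 * a
  · linarith
  · push Not at h1
    have hX0 : 0 < X := by linarith
    have h2 : X ≤ 2 * B * X ^ θ := by linarith
    have h3 : X ^ (1 - θ) ≤ 2 * B := by
      rw [Real.rpow_sub hX0, Real.rpow_one, div_le_iff₀ (Real.rpow_pos_of_pos hX0 _)]
      exact h2
    have h4 : X ≤ (2 * B) ^ (1 / (1 - θ)) := by
      calc X = (X ^ (1 - θ)) ^ (1 / (1 - θ)) := by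
            rw [← Real.rpow_mul hX, mul_one_div_cancel h1θ.ne', Real.rpow_one]
        _ ≤ (2 * B) ^ (1 / (1 - θ)) := Real.rpow_le_rpow (Real.rpow_nonneg hX _) h3 (by positivity)
    linarith

theorem sq_sm (φ : E → ℝ) (F : VF) (x : E) : sq (sm φ F) x = φ x ^ 2 * sq F x := by
  unfold sq sm
  rw [Finset.mul_sum]
  congr 1; funext i; ring

theorem sq_add_le (F G : VF) (x : E) : sq (fun i y => F i y + G i y) x ≤ 2 * sq F x + 2 * sq G x := by
  unfold sq
  rw [Finset.mul_sum, Finset.mul_sum, ← Finset.sum_add_distrib]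
  apply Finset.sum_le_sum
  intro i _
  nlinarith [sq_nonneg (F i x - G i x)]

theorem pointwise {φ : E → ℝ} {F : VF} (hφ : Differentiable ℝ φ) (hF : ∀ i, Differentiable ℝ (F i))
    {x : E} (hd : dv F x = 0) :
    sq (curl (sm φ F)) x + dv (sm φ F) x ^ 2 ≤ 2 * (φ x ^ 2 * sq (curl F) x) + 2 * (sq (grad φ) x * sq F x) := by
  have h1 : sq (curl (sm φ F)) x ≤ 2 * (φ x ^ 2 * sq (curl F) x) + 2 * sq (cr (grad φ) F) x := by
    have h2 : sq (curl (sm φ F)) x = sq (fun i y => sm φ (curl F) i y + cr (grad φ) F i y) x := by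
      unfold sq
      congr 1; funext i
      rw [curl_sm hφ hF]; rfl
    rw [h2, ← sq_sm]
    exact sq_add_le _ _ _
  have h3 : dv (sm φ F) x = dot (grad φ) F x := by rw [dv_sm hφ hF, hd]; ring
  rw [h3]
  rw [sq_cr] at h1
  nlinarith [sq_nonneg (dot (grad φ) F x)]

theorem hcs_sm {φ : E → ℝ} (hc : HasCompactSupport φ) (F : VF) (i : Fin 3) : HasCompactSupport (sm φ F i) := by
  unfold sm
  exact hc.mul_right

theorem continuous_grad {φ : E → ℝ} (hφ : ContDiff ℝ 1 φ) (i : Fin 3) : Continuous (grad φ i) := continuous_pd hφ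

theorem hcs_sq_grad {φ : E → ℝ} (hc : HasCompactSupport φ) : HasCompactSupport (sq (grad φ)) := by
  unfold sq grad
  simp only [Fin.sum_univ_three]
  have h : ∀ i, HasCompactSupport (fun x => pd i φ x ^ 2) := fun i => hcs_sq (hasCompactSupport_pd hc)
  exact ((h 0).add (h 1)).add (h 2)

/-- gradient of a localised divergence free field -/
theorem int_gsq_sm {φ : E → ℝ} {F : VF} (hφ : ContDiff ℝ 2 φ) (hc : HasCompactSupport φ)
    (hF : ∀ i, ContDiff ℝ 2 (F i)) (hd : ∀ x, dv F x = 0) :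
    ∫ x, gsq (sm φ F) x ≤ 2 * (∫ x, φ x ^ 2 * sq (curl F) x) + 2 * ∫ x, sq (grad φ) x * sq F x := by
  have hF1 : ∀ i, ContDiff ℝ 1 (F i) := fun i => (hF i).of_le (by norm_num)
  have hφ1 : ContDiff ℝ 1 φ := hφ.of_le (by norm_num)
  have hs2 : ∀ i, ContDiff ℝ 2 (sm φ F i) := fun i => hφ.mul (hF i)
  have hs1 : ∀ i, ContDiff ℝ 1 (sm φ F i) := fun i => (hs2 i).of_le (by norm_num)
  have hsc : ∀ i, HasCompactSupport (sm φ F i) := hcs_sm hc F
  rw [int_gsq hs2 hsc]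
  have I1 : Integrable (sq (curl (sm φ F))) := by
    apply integrable_of_cc (continuous_sq (continuous_curl hs1))
    unfold sq
    simp only [Fin.sum_univ_three]
    have h : ∀ i, HasCompactSupport (fun x => curl (sm φ F) i x ^ 2) := fun i =>
      hcs_sq (hasCompactSupport_curl hsc i)
    exact ((h 0).add (h 1)).add (h 2)
  have I2 : Integrable (fun x => dv (sm φ F) x ^ 2) := by
    apply integrable_of_cc (((contDiff_dv (m := 0) hs1 (by norm_num)).continuous).pow 2)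
    have h : HasCompactSupport (dv (sm φ F)) := by
      unfold dv
      simp only [Fin.sum_univ_three]
      exact ((hasCompactSupport_pd (hsc 0)).add (hasCompactSupport_pd (hsc 1))).add (hasCompactSupport_pd (hsc 2))
    exact hcs_sq h
  have I3 : Integrable (fun x => φ x ^ 2 * sq (curl F) x) :=
    integrable_of_cc ((hφ.continuous.pow 2).mul (continuous_sq (continuous_curl hF1))) (hcs_sq hc).mul_right
  have I4 : Integrable (fun x => sq (grad φ) x * sq F x) :=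
    integrable_of_cc ((continuous_sq (continuous_grad hφ1)).mul (continuous_sq fun i => (hF i).continuous))
      (hcs_sq_grad hc).mul_right
  rw [← integral_add I1 I2, ← integral_const_mul, ← integral_const_mul, ← integral_add (I3.const_mul 2) (I4.const_mul 2)]
  apply integral_mono (I1.add I2) ((I3.const_mul 2).add (I4.const_mul 2))
  intro x
  exact pointwise (hφ.differentiable (by norm_num)) (fun i => (hF i).differentiable (by norm_num)) (hd x)

theorem grad_cube {ζ : E → ℝ} (hζ : Differentiable ℝ ζ) (x : E) :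
    sq (grad fun y => ζ y ^ 3) x = 9 * ζ x ^ 4 * sq (grad ζ) x := by
  unfold sq grad
  rw [Finset.mul_sum]
  congr 1; funext i
  rw [pd_pow_at 3 (hζ x)]
  push_cast
  ring

theorem sq_grad_le {ζ : E → ℝ} {C : ℝ} {x : E} (h : ∀ i, |pd i ζ x| ≤ C) : sq (grad ζ) x ≤ 3 * C ^ 2 := by
  unfold sq grad
  have h1 : ∀ i, pd i ζ x ^ 2 ≤ C ^ 2 := fun i => by
    rw [← sq_abs]
    exact pow_le_pow_left₀ (abs_nonneg _) (h i) 2
  simp only [Fin.sum_univ_three]
  linarith [h1 0, h1 1, h1 2]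

/-- Sobolev inequality for the localised field `ζ³ V` -/
theorem localised : ∃ C : ℝ, 0 < C ∧ ∀ (V : VF) (ζ : E → ℝ) (η C₁ : ℝ), (∀ i, ContDiff ℝ 3 (V i)) →
    (∀ x, dv V x = 0) → ContDiff ℝ (⊤ : ℕ∞) ζ → HasCompactSupport ζ → 0 < η →
    (∀ x i, |pd i ζ x| ≤ C₁ / η) →
    (∫ x, sq (sm (fun y => ζ y ^ 3) V) x ^ 3) ^ (1 / 3 : ℝ) ≤
      C * ((∫ x, ζ x ^ 6 * sq (curl V) x) + C₁ ^ 2 * η⁻¹ ^ 2 * ∫ x, ζ x ^ 4 * sq V x) := by
  obtain ⟨C, hC, hS⟩ := sobolev
  refine ⟨54 * C, by positivity, fun V ζ η C₁ hV hd hζ hc hη hb => ?_⟩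
  have hV2 : ∀ i, ContDiff ℝ 2 (V i) := fun i => (hV i).of_le (by norm_num)
  have hV1 : ∀ i, ContDiff ℝ 1 (V i) := fun i => (hV i).of_le (by norm_num)
  have hζ2 : ContDiff ℝ 2 ζ := contDiff_infty.mp hζ 2
  have hφ : ContDiff ℝ 2 (fun y => ζ y ^ 3) := hζ2.pow 3
  have hφc : HasCompactSupport (fun y => ζ y ^ 3) := hc.comp_left (g := fun t : ℝ => t ^ 3) (by simp)
  have h1 := hS (sm (fun y => ζ y ^ 3) V) (fun i => (hφ.mul (hV2 i)).of_le (by norm_num)) (hcs_sm hφc V)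
  have h2 := int_gsq_sm hφ hφc hV2 hd
  have hζd : Differentiable ℝ ζ := hζ2.differentiable (by norm_num)
  have e1 : ∀ x, (ζ x ^ 3) ^ 2 * sq (curl V) x = ζ x ^ 6 * sq (curl V) x := fun x => by ring
  simp only [e1] at h2
  have h3 : ∫ x, sq (grad fun y => ζ y ^ 3) x * sq V x ≤ 27 * (C₁ ^ 2 * η⁻¹ ^ 2 * ∫ x, ζ x ^ 4 * sq V x) := by
    have I4 : Integrable (fun x => sq (grad fun y => ζ y ^ 3) x * sq V x) :=
      integrable_of_cc ((continuous_sq (continuous_grad (hφ.of_le (by norm_num)))).mul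
        (continuous_sq fun i => (hV i).continuous)) (hcs_sq_grad hφc).mul_right
    have I5 : Integrable (fun x => ζ x ^ 4 * sq V x) :=
      integrable_of_cc ((hζ.continuous.pow 4).mul (continuous_sq fun i => (hV i).continuous))
        (hc.comp_left (g := fun t : ℝ => t ^ 4) (by simp)).mul_right
    calc ∫ x, sq (grad fun y => ζ y ^ 3) x * sq V x
        ≤ ∫ x, (27 * (C₁ ^ 2 * η⁻¹ ^ 2)) * (ζ x ^ 4 * sq V x) := by
          apply integral_mono I4 (I5.const_mul _)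
          intro x
          dsimp only
          rw [grad_cube hζd]
          have h4 := sq_grad_le (hb x)
          have h5 := sq_nonneg' V x
          calc 9 * ζ x ^ 4 * sq (grad ζ) x * sq V x ≤ 9 * ζ x ^ 4 * (3 * (C₁ / η) ^ 2) * sq V x := by gcongr
            _ = _ := by rw [div_eq_mul_inv]; ring
      _ = _ := by rw [integral_const_mul]; ring
  have h6 : 0 ≤ ∫ x, ζ x ^ 6 * sq (curl V) x := integral_nonneg fun x =>
    mul_nonneg (by positivity) (sq_nonneg' _ x)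
  have h7 : 0 ≤ C₁ ^ 2 * η⁻¹ ^ 2 * ∫ x, ζ x ^ 4 * sq V x := mul_nonneg (by positivity)
    (integral_nonneg fun x => mul_nonneg (by positivity) (sq_nonneg' _ x))
  calc _ ≤ C * ∫ x, gsq (sm (fun y => ζ y ^ 3) V) x := h1
    _ ≤ C * (2 * (∫ x, ζ x ^ 6 * sq (curl V) x) + 2 * (27 * (C₁ ^ 2 * η⁻¹ ^ 2 * ∫ x, ζ x ^ 4 * sq V x))) := by
        gcongr
        linarith
    _ ≤ 54 * C * ((∫ x, ζ x ^ 6 * sq (curl V) x) + C₁ ^ 2 * η⁻¹ ^ 2 * ∫ x, ζ x ^ 4 * sq V x) := by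
        nlinarith [mul_nonneg hC.le h6]

/-- comparison of the localised integrals with integrals over sets -/
theorem set_lower {V : VF} (hV : ∀ i, Continuous (V i)) {ζ : E → ℝ} (hζ : Continuous ζ) (hc : HasCompactSupport ζ)
    {S : Set E} (hS : MeasurableSet S) (h1 : ∀ x ∈ S, ζ x = 1) :
    ∫ x in S, sq V x ^ 3 ≤ ∫ x, sq (sm (fun y => ζ y ^ 3) V) x ^ 3 := by
  have hI : Integrable (fun x => sq (sm (fun y => ζ y ^ 3) V) x ^ 3) := by
    have e : (fun x => sq (sm (fun y => ζ y ^ 3) V) x ^ 3) = fun x => ζ x ^ 18 * sq V x ^ 3 := by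
      funext x; rw [sq_sm]; ring
    rw [e]
    exact integrable_of_cc ((hζ.pow 18).mul ((continuous_sq hV).pow 3))
      (hc.comp_left (g := fun t : ℝ => t ^ 18) (by simp)).mul_right
  calc ∫ x in S, sq V x ^ 3 = ∫ x in S, sq (sm (fun y => ζ y ^ 3) V) x ^ 3 := by
        apply setIntegral_congr_fun hS
        intro x hx
        simp only [sq_sm, h1 x hx]
        ring
    _ ≤ _ := setIntegral_le_integral hI (Eventually.of_forall fun x => pow_nonneg (sq_nonneg' _ x) 3)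

theorem set_upper {f ζ : E → ℝ} (hf : ∀ x, 0 ≤ f x) {n : ℕ} (hn : n ≠ 0)
    (h0 : ∀ x, 0 ≤ ζ x) (h1 : ∀ x, ζ x ≤ 1) {T : Set E} (hT : MeasurableSet T) (hz : ∀ x, x ∉ T → ζ x = 0)
    (hfT : IntegrableOn f T) : ∫ x, ζ x ^ n * f x ≤ ∫ x in T, f x := by
  rw [← integral_indicator hT]
  apply integral_mono_of_nonneg
  · exact Eventually.of_forall fun x => mul_nonneg (pow_nonneg (h0 x) _) (hf x)
  · exact (integrable_indicator_iff hT).mpr hfT
  · refine Eventually.of_forall fun x => ?_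
    dsimp only
    by_cases hx : x ∈ T
    · rw [indicator_of_mem hx]
      have : ζ x ^ n ≤ 1 := pow_le_one₀ (h0 x) (h1 x)
      nlinarith [hf x]
    · rw [indicator_of_notMem hx, hz x hx]
      simp [hn]

theorem exps {p : ℝ} (h1 : 1 < p) (h2 : p < 2) : 0 < (2 - p) / (6 - p) ∧ 0 < 4 / (6 - p) ∧
    (2 - p) / (6 - p) + 4 / (6 - p) = 1 ∧ 18 * ((2 - p) / (6 - p)) ≤ 4 ∧
    6 * ((2 - p) / (6 - p)) + p * (4 / (6 - p)) = 2 ∧ 3 * ((2 - p) / (6 - p)) < 1 := by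
  have h6 : 0 < 6 - p := by linarith
  refine ⟨div_pos (by linarith) h6, by positivity, ?_, ?_, ?_, ?_⟩
  · field_simp; ring
  · rw [← mul_div_assoc, div_le_iff₀ h6]; linarith
  · field_simp; ring
  · rw [← mul_div_assoc, div_lt_iff₀ h6]; linarith

/-- interpolation of the localised `L²` norm -/
theorem interp {p : ℝ} (h1 : 1 < p) (h2 : p < 2) {V : VF} (hV : ∀ i, Continuous (V i)) {ζ : E → ℝ}
    (hζ : Continuous ζ) (hc : HasCompactSupport ζ) (h0 : ∀ x, 0 ≤ ζ x) (hle : ∀ x, ζ x ≤ 1)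
    {T : Set E} (hT : MeasurableSet T) (hz : ∀ x, x ∉ T → ζ x = 0)
    (hfT : IntegrableOn (fun x => nm V x ^ p) T) :
    ∫ x, ζ x ^ 4 * sq V x ≤ (∫ x, sq (sm (fun y => ζ y ^ 3) V) x ^ 3) ^ ((2 - p) / (6 - p))
      * (∫ x in T, nm V x ^ p) ^ (4 / (6 - p)) := by
  obtain ⟨ht, hu, htu, h18, h6, _⟩ := exps h1 h2
  obtain ⟨t, rfl⟩ : ∃ t, t = (2 - p) / (6 - p) := ⟨_, rfl⟩
  obtain ⟨u, rfl⟩ : ∃ u, u = 4 / (6 - p) := ⟨_, rfl⟩
  set t := (2 - p) / (6 - p) with ht'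
  set u := 4 / (6 - p) with hu'
  have e : (fun x => sq (sm (fun y => ζ y ^ 3) V) x ^ 3) = fun x => ζ x ^ 18 * nm V x ^ 6 := by
    funext x
    rw [sq_sm, ← nm_sq]; ring
  have hI : Integrable (fun x => ζ x ^ 18 * nm V x ^ 6) :=
    integrable_of_cc ((hζ.pow 18).mul ((continuous_nm hV).pow 6))
      (hc.comp_left (g := fun t : ℝ => t ^ 18) (by simp)).mul_right
  have hJ : Integrable (T.indicator fun x => nm V x ^ p) := (integrable_indicator_iff hT).mpr hfT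
  rw [e, ← integral_indicator hT]
  refine le_trans ?_ (holder hI hJ (fun x => mul_nonneg (pow_nonneg (h0 x) _) (pow_nonneg (nm_nonneg _ _) _))
    (fun x => indicator_nonneg (fun y _ => Real.rpow_nonneg (nm_nonneg _ _) _) x) ht.le hu.le htu)
  apply integral_mono_of_nonneg
  · exact Eventually.of_forall fun x => mul_nonneg (pow_nonneg (h0 x) _) (sq_nonneg' _ _)
  · -- integrability of the product
    have hcont : Continuous fun x => (ζ x ^ 18 * nm V x ^ 6) ^ t * (nm V x ^ p) ^ u := by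
      apply Continuous.mul
      · exact ((hζ.pow 18).mul ((continuous_nm hV).pow 6)).rpow_const fun x => Or.inr ht.le
      · exact ((continuous_nm hV).rpow_const fun x => Or.inr (by linarith)).rpow_const fun x => Or.inr hu.le
    have hcs : HasCompactSupport fun x => (ζ x ^ 18 * nm V x ^ 6) ^ t * (nm V x ^ p) ^ u := by
      apply HasCompactSupport.intro hc
      intro x hx
      have : ζ x = 0 := image_eq_zero_of_notMem_tsupport hx
      rw [this]
      simp [Real.zero_rpow ht.ne']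
    refine (integrable_of_cc hcont hcs).congr (Eventually.of_forall fun x => ?_)
    dsimp only
    by_cases hx : x ∈ T
    · rw [indicator_of_mem hx]
    · rw [hz x hx]
      simp [Real.zero_rpow ht.ne']
  · refine Eventually.of_forall fun x => ?_
    dsimp only
    by_cases hx : x ∈ T
    · rw [indicator_of_mem hx, ← nm_sq]
      have hn := nm_nonneg V x
      have hz0 := h0 x
      have e1 : (ζ x ^ 18 * nm V x ^ 6) ^ t * (nm V x ^ p) ^ u = ζ x ^ (18 * t) * nm V x ^ (2 : ℝ) := by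
        rw [Real.mul_rpow (by positivity) (by positivity), ← Real.rpow_natCast, ← Real.rpow_natCast,
          ← Real.rpow_mul hz0, ← Real.rpow_mul hn, ← Real.rpow_mul hn, mul_assoc,
          ← Real.rpow_add_of_nonneg hn (by positivity) (by nlinarith)]
        push_cast
        rw [h6]
      rw [e1]
      have e2 : nm V x ^ (2 : ℝ) = nm V x ^ 2 := by
        rw [← Real.rpow_natCast]; norm_num
      rw [e2]
      apply mul_le_mul_of_nonneg_right _ (by positivity)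
      rcases eq_or_lt_of_le hz0 with h | h
      · rw [← h, Real.zero_rpow (by positivity)]; norm_num
      · rw [← Real.rpow_natCast]
        exact Real.rpow_le_rpow_of_exponent_ge h (hle x) (by push_cast; exact h18)
    · rw [hz x hx, indicator_of_notMem hx]
      simp [Real.zero_rpow ht.ne']

/-- localised Sobolev inequality with the `L^p` norm on the right, `p < 2` -/
theorem localised_p (p : ℝ) (h1 : 1 < p) (h2 : p < 2) (C₁ : ℝ) : ∃ C : ℝ, 0 < C ∧
    ∀ (V : VF) (ζ : E → ℝ) (η : ℝ) (S T : Set E), (∀ i, ContDiff ℝ 3 (V i)) →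
    (∀ x, dv V x = 0) → ContDiff ℝ (⊤ : ℕ∞) ζ → HasCompactSupport ζ → 0 < η →
    (∀ x i, |pd i ζ x| ≤ C₁ / η) → (∀ x, 0 ≤ ζ x) → (∀ x, ζ x ≤ 1) → MeasurableSet S → (∀ x ∈ S, ζ x = 1) →
    MeasurableSet T → (∀ x, x ∉ T → ζ x = 0) → (∀ f : E → ℝ, Continuous f → IntegrableOn f T) →
    (∫ x in S, sq V x ^ 3) ^ (1 / 3 : ℝ) ≤
      C * ((∫ x in T, sq (curl V) x) + η ^ (1 - 6 / p) * (∫ x in T, nm V x ^ p) ^ (2 / p)) := by
  obtain ⟨C, hC, hL⟩ := localised
  obtain ⟨ht, hu, htu, h18, h6, h3t⟩ := exps h1 h2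
  obtain ⟨t, htdef⟩ : ∃ t, t = (2 - p) / (6 - p) := ⟨_, rfl⟩
  obtain ⟨u, hudef⟩ : ∃ u, u = 4 / (6 - p) := ⟨_, rfl⟩
  rw [← htdef] at ht htu h18 h6 h3t
  rw [← hudef] at hu htu h6
  have hp0 : 0 < p := by linarith
  have h6p : 0 < 6 - p := by linarith
  obtain ⟨D, hD⟩ : ∃ D, D = 2 * (C * C₁ ^ 2) := ⟨_, rfl⟩
  have hD0 : 0 ≤ D := by rw [hD]; positivity
  refine ⟨2 * C + D ^ (1 / (1 - 3 * t)), by positivity, ?_⟩
  intro V ζ η S T hV hd hζ hc hη hb h0 hle hS hS1 hT hz hloc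
  have hVc : ∀ i, Continuous (V i) := fun i => (hV i).continuous
  have hcn := continuous_nm hVc
  have hfT : IntegrableOn (fun x => nm V x ^ p) T := hloc _ (hcn.rpow_const fun x => Or.inr hp0.le)
  obtain ⟨Y, hY⟩ : ∃ Y, Y = ∫ x, sq (sm (fun y => ζ y ^ 3) V) x ^ 3 := ⟨_, rfl⟩
  obtain ⟨A, hA⟩ : ∃ A, A = ∫ x in T, nm V x ^ p := ⟨_, rfl⟩
  obtain ⟨Ω, hΩ⟩ : ∃ Ω, Ω = ∫ x in T, sq (curl V) x := ⟨_, rfl⟩
  have hA0 : 0 ≤ A := by rw [hA]; exact integral_nonneg fun x => Real.rpow_nonneg (nm_nonneg _ _) _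
  have hY0 : 0 ≤ Y := by rw [hY]; exact integral_nonneg fun x => pow_nonneg (sq_nonneg' _ x) 3
  have hΩ0 : 0 ≤ Ω := by rw [hΩ]; exact integral_nonneg fun x => sq_nonneg' _ x
  have a1 := hL V ζ η C₁ hV hd hζ hc hη hb
  have a2 := interp h1 h2 hVc hζ.continuous hc h0 hle hT hz hfT
  have a3 := set_lower hVc hζ.continuous hc hS hS1
  have a4 : ∫ x, ζ x ^ 6 * sq (curl V) x ≤ Ω := by
    rw [hΩ]
    exact set_upper (fun x => sq_nonneg' _ x) (by norm_num) h0 hle hT hz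
      (hloc _ (continuous_sq (continuous_curl fun i => (hV i).of_le (by norm_num))))
  rw [← hY, ← hA, ← htdef, ← hudef] at a2
  rw [← hY] at a1 a3
  rw [← hA, ← hΩ]
  have hX0 : 0 ≤ Y ^ (1 / 3 : ℝ) := Real.rpow_nonneg hY0 _
  have hYt : Y ^ t = (Y ^ (1 / 3 : ℝ)) ^ (3 * t) := by
    rw [← Real.rpow_mul hY0]; congr 1; ring
  have hηi : 0 < η⁻¹ := inv_pos.mpr hη
  have hAu : 0 ≤ A ^ u := Real.rpow_nonneg hA0 _
  have a5 : Y ^ (1 / 3 : ℝ) ≤ C * Ω + (C * C₁ ^ 2 * η⁻¹ ^ 2 * A ^ u) * (Y ^ (1 / 3 : ℝ)) ^ (3 * t) := by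
    calc Y ^ (1 / 3 : ℝ) ≤ C * ((∫ x, ζ x ^ 6 * sq (curl V) x) + C₁ ^ 2 * η⁻¹ ^ 2 * ∫ x, ζ x ^ 4 * sq V x) := a1
      _ ≤ C * (Ω + C₁ ^ 2 * η⁻¹ ^ 2 * (Y ^ t * A ^ u)) := by gcongr
      _ = _ := by rw [hYt]; ring
  have a6 := absorb hX0 (by positivity) (by positivity) h3t a5
  have e1 : 1 - 3 * t = 2 * p / (6 - p) := by rw [htdef]; field_simp; ring
  have e2 : u * (1 / (1 - 3 * t)) = 2 / p := by rw [e1, hudef]; field_simp; ring
  have e3 : (-2) * (1 / (1 - 3 * t)) = 1 - 6 / p := by rw [e1]; field_simp; ring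
  have e4 : (2 * (C * C₁ ^ 2 * η⁻¹ ^ 2 * A ^ u)) ^ (1 / (1 - 3 * t))
      = D ^ (1 / (1 - 3 * t)) * (η ^ (1 - 6 / p) * A ^ (2 / p)) := by
    have e5 : 2 * (C * C₁ ^ 2 * η⁻¹ ^ 2 * A ^ u) = D * (η ^ (-2 : ℝ) * A ^ u) := by
      rw [hD, Real.rpow_neg hη.le]
      norm_num
      ring
    rw [e5, Real.mul_rpow hD0 (by positivity), Real.mul_rpow (by positivity) hAu, ← Real.rpow_mul hη.le,
      ← Real.rpow_mul hA0, e2, e3]
  rw [e4] at a6
  have hE : 0 ≤ η ^ (1 - 6 / p) * A ^ (2 / p) := by positivity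
  have hDp : 0 ≤ D ^ (1 / (1 - 3 * t)) := Real.rpow_nonneg hD0 _
  have hS0 : 0 ≤ ∫ x in S, sq V x ^ 3 := integral_nonneg fun x => pow_nonneg (sq_nonneg' _ x) 3
  calc (∫ x in S, sq V x ^ 3) ^ (1 / 3 : ℝ) ≤ Y ^ (1 / 3 : ℝ) := by gcongr
    _ ≤ 2 * (C * Ω) + D ^ (1 / (1 - 3 * t)) * (η ^ (1 - 6 / p) * A ^ (2 / p)) := a6
    _ ≤ (2 * C + D ^ (1 / (1 - 3 * t))) * (Ω + η ^ (1 - 6 / p) * A ^ (2 / p)) := by
        nlinarith [mul_nonneg hC.le hE, mul_nonneg hDp hΩ0]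

theorem volume_ball_le : ∃ v : ℝ, 0 < v ∧ ∀ R : ℝ, 0 ≤ R → (volume : Measure E).real (Metric.ball 0 R) ≤ v * R ^ 3 := by
  refine ⟨(volume : Measure E).real (Metric.ball 0 1), ?_, fun R hR => ?_⟩
  · exact ENNReal.toReal_pos (Metric.measure_ball_pos _ _ one_pos).ne' measure_ball_lt_top.ne
  · rw [Measure.real, Measure.addHaar_ball _ _ hR, ENNReal.toReal_mul, ENNReal.toReal_ofReal (by positivity), finrank_E,
      mul_comm]
    rfl

theorem rpow_nm_two (V : VF) {p : ℝ} (hp : 0 < p) (x : E) : (nm V x ^ p) ^ (2 / p) = sq V x := by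
  rw [← Real.rpow_mul (nm_nonneg _ _), mul_div_cancel₀ _ hp.ne', ← nm_sq]
  norm_num

/-- interpolation on a ball, `2 ≤ p` -/
theorem interp_q {p : ℝ} (h2 : 2 ≤ p) {V : VF} (hV : ∀ i, Continuous (V i)) {v : ℝ} (hv0 : 0 < v)
    (hv : ∀ R : ℝ, 0 ≤ R → (volume : Measure E).real (Metric.ball 0 R) ≤ v * R ^ 3) {R : ℝ} (hR : 0 ≤ R) :
    ∫ x in Metric.ball (0 : E) R, sq V x ≤ (v * R ^ 3) ^ (1 - 2 / p) *
      (∫ x in Metric.ball (0 : E) R, nm V x ^ p) ^ (2 / p) := by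
  have hp0 : 0 < p := by linarith
  have h2p : 2 / p ≤ 1 := by rw [div_le_one hp0]; exact h2
  have hI : Integrable (fun _ : E => (1 : ℝ)) (volume.restrict (Metric.ball (0 : E) R)) :=
    integrableOn_const measure_ball_lt_top.ne
  have hJ : Integrable (fun x => nm V x ^ p) (volume.restrict (Metric.ball (0 : E) R)) :=
    (((continuous_nm hV).rpow_const fun x => Or.inr hp0.le).continuousOn.integrableOn_compact
      (isCompact_closedBall (0 : E) R)).mono_set Metric.ball_subset_closedBall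
  have h := holder hI hJ (fun _ => zero_le_one) (fun x => Real.rpow_nonneg (nm_nonneg _ _) _)
    (t := 1 - 2 / p) (u := 2 / p) (by linarith) (by positivity) (by ring)
  simp only [Real.one_rpow, one_mul, rpow_nm_two V hp0] at h
  refine h.trans ?_
  have hA0 : 0 ≤ ∫ x in Metric.ball (0 : E) R, nm V x ^ p :=
    integral_nonneg fun x => Real.rpow_nonneg (nm_nonneg _ _) _
  apply mul_le_mul_of_nonneg_right _ (Real.rpow_nonneg hA0 _)
  rw [setIntegral_const, smul_eq_mul, mul_one]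
  exact Real.rpow_le_rpow measureReal_nonneg (hv R hR) (by linarith)

theorem scale_q {p r η : ℝ} (hp : 2 ≤ p) (hη : 0 < η) (hr : η ≤ r) :
    η⁻¹ ^ 2 * r ^ (3 - 6 / p) ≤ (r / η) ^ 3 * η ^ (1 - 6 / p) := by
  have hr0 : 0 < r := lt_of_lt_of_le hη hr
  have hp0 : 0 < p := by linarith
  have h1 : 1 ≤ r / η := by rw [one_le_div hη]; exact hr
  have h2 : 1 ≤ (r / η) ^ (6 / p) := Real.one_le_rpow h1 (by positivity)
  have h3 : (r / η) ^ 3 * η ^ (1 - 6 / p) = (r / η) ^ (6 / p) * (η⁻¹ ^ 2 * r ^ (3 - 6 / p)) := by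
    have e1 : (r / η) ^ 3 = (r / η) ^ (6 / p) * (r / η) ^ (3 - 6 / p) := by
      rw [← Real.rpow_add (by positivity)]
      rw [show 6 / p + (3 - 6 / p) = ((3 : ℕ) : ℝ) by push_cast; ring, Real.rpow_natCast]
    have e2 : (r / η) ^ (3 - 6 / p) = r ^ (3 - 6 / p) * η ^ (-(3 - 6 / p)) := by
      rw [Real.div_rpow hr0.le hη.le, Real.rpow_neg hη.le, div_eq_mul_inv]
    have e3 : η ^ (-(3 - 6 / p)) * η ^ (1 - 6 / p) = η⁻¹ ^ 2 := by
      rw [← Real.rpow_add hη, show -(3 - 6 / p) + (1 - 6 / p) = -((2 : ℕ) : ℝ) by push_cast; ring,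
        Real.rpow_neg hη.le, Real.rpow_natCast, inv_pow]
    calc (r / η) ^ 3 * η ^ (1 - 6 / p) = (r / η) ^ (6 / p) * (r ^ (3 - 6 / p) * (η ^ (-(3 - 6 / p)) * η ^ (1 - 6 / p))) := by
          rw [e1, e2]; ring
      _ = _ := by rw [e3]; ring
  rw [h3]
  have h4 : 0 ≤ η⁻¹ ^ 2 * r ^ (3 - 6 / p) := by positivity
  nlinarith

end Loc

/-- Sobolev inequality on shells -/
theorem shell_sobolev (p : ℝ) (h1 : 1 < p) (h2 : p < 2) : ∃ C : ℝ, 0 < C ∧ ∀ (V : VF) (r s η : ℝ),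
    (∀ i, ContDiff ℝ 3 (V i)) → (∀ x, dv V x = 0) → 0 < η → 2 * η ≤ r → r ≤ s →
    (∫ x in Sh r s, sq V x ^ 3) ^ (1 / 3 : ℝ) ≤
      C * ((∫ x in Sh (r - η) (s + η), sq (curl V) x)
        + η ^ (1 - 6 / p) * (∫ x in Sh (r - η) (s + η), nm V x ^ p) ^ (2 / p)) := by
  obtain ⟨C₁, hC₁, hcut⟩ := exists_shell_cutoff
  obtain ⟨C, hC, h⟩ := Loc.localised_p p h1 h2 C₁
  refine ⟨C, hC, fun V r s η hV hd hη hr hs => ?_⟩
  obtain ⟨ζ, hζ, hc, h0, hle, hone, hz, hb⟩ := hcut r s η hη hr hs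
  exact h V ζ η (Sh r s) (Sh (r - η) (s + η)) hV hd hζ hc hη hb h0 hle (measurableSet_Sh _ _) hone
    (measurableSet_Sh _ _) hz fun f hf => hf.continuousOn.integrableOn_compact (isCompact_Sh _ _)

theorem ball_sobolev (p : ℝ) (h1 : 1 < p) (h3 : p < 3) : ∃ C : ℝ, 0 < C ∧ ∀ (V : VF) (r η : ℝ),
    (∀ i, ContDiff ℝ 3 (V i)) → (∀ x, dv V x = 0) → 0 < η → η ≤ r →
    (∫ x in Metric.ball (0 : E) r, sq V x ^ 3) ^ (1 / 3 : ℝ) ≤
      C * (W V (r + η)
        + (r / η) ^ 3 * η ^ (1 - 6 / p) * (∫ x in Metric.ball (0 : E) (r + η), nm V x ^ p) ^ (2 / p)) := by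
  obtain ⟨C₁, hC₁, hcut⟩ := exists_cutoff
  have hp0 : 0 < p := by linarith
  have hloc : ∀ (R : ℝ) (f : E → ℝ), Continuous f → IntegrableOn f (Metric.ball (0 : E) R) := fun R f hf =>
    (hf.continuousOn.integrableOn_compact (isCompact_closedBall (0 : E) R)).mono_set Metric.ball_subset_closedBall
  have hzz : ∀ (ζ : E → ℝ) (R : ℝ), (∀ x, R ≤ ‖x‖ → ζ x = 0) → ∀ x, x ∉ Metric.ball (0 : E) R → ζ x = 0 := by
    intro ζ R hz x hx
    apply hz
    simpa using hx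
  rcases lt_or_ge p 2 with h2 | h2
  · obtain ⟨C, hC, h⟩ := Loc.localised_p p h1 h2 C₁
    refine ⟨C, hC, fun V r η hV hd hη hr => ?_⟩
    obtain ⟨ζ, hζ, hc, h0, hle, hone, hz, hb, -⟩ := hcut r η hη hr
    have h4 := h V ζ η (Metric.ball 0 r) (Metric.ball 0 (r + η)) hV hd hζ hc hη hb h0 hle measurableSet_ball
      (fun x hx => hone x (by simpa using (Metric.mem_ball.mp hx).le))
      measurableSet_ball (hzz ζ _ hz) (hloc _)
    refine h4.trans ?_
    have hq : 1 ≤ (r / η) ^ 3 := one_le_pow₀ (by rw [one_le_div hη]; exact hr)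
    have hA : 0 ≤ η ^ (1 - 6 / p) * (∫ x in Metric.ball (0 : E) (r + η), nm V x ^ p) ^ (2 / p) := by
      have : 0 ≤ ∫ x in Metric.ball (0 : E) (r + η), nm V x ^ p :=
        integral_nonneg fun x => Real.rpow_nonneg (nm_nonneg _ _) _
      positivity
    apply mul_le_mul_of_nonneg_left _ hC.le
    have : (r / η) ^ 3 * η ^ (1 - 6 / p) * (∫ x in Metric.ball (0 : E) (r + η), nm V x ^ p) ^ (2 / p)
        = (r / η) ^ 3 * (η ^ (1 - 6 / p) * (∫ x in Metric.ball (0 : E) (r + η), nm V x ^ p) ^ (2 / p)) := by ring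
    rw [this]
    unfold W
    nlinarith
  · obtain ⟨C, hC, hL⟩ := Loc.localised
    obtain ⟨v, hv0, hv⟩ := Loc.volume_ball_le
    have h2p : 2 / p ≤ 1 := by rw [div_le_one hp0]; exact h2
    refine ⟨C * (1 + C₁ ^ 2 * (v * 8) ^ (1 - 2 / p)), by positivity, fun V r η hV hd hη hr => ?_⟩
    have hr0 : 0 < r := lt_of_lt_of_le hη hr
    obtain ⟨ζ, hζ, hc, h0, hle, hone, hz, hb, -⟩ := hcut r η hη hr
    have hVc : ∀ i, Continuous (V i) := fun i => (hV i).continuous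
    have a1 := hL V ζ η C₁ hV hd hζ hc hη hb
    have a3 := Loc.set_lower hVc hζ.continuous hc (S := Metric.ball (0 : E) r) measurableSet_ball
      (fun x hx => hone x (by simpa using (Metric.mem_ball.mp hx).le))
    have a4 : ∫ x, ζ x ^ 6 * sq (curl V) x ≤ W V (r + η) :=
      Loc.set_upper (fun x => sq_nonneg' _ x) (by norm_num) h0 hle measurableSet_ball (hzz ζ _ hz)
        (hloc _ _ (continuous_sq (continuous_curl fun i => (hV i).of_le (by norm_num))))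
    have a5 : ∫ x, ζ x ^ 4 * sq V x ≤ ∫ x in Metric.ball (0 : E) (r + η), sq V x :=
      Loc.set_upper (fun x => sq_nonneg' _ x) (by norm_num) h0 hle measurableSet_ball (hzz ζ _ hz)
        (hloc _ _ (continuous_sq hVc))
    have a6 := a5.trans (Loc.interp_q h2 hVc hv0 hv (R := r + η) (by positivity))
    obtain ⟨A, hA⟩ : ∃ A, A = ∫ x in Metric.ball (0 : E) (r + η), nm V x ^ p := ⟨_, rfl⟩
    have hA0 : 0 ≤ A := by rw [hA]; exact integral_nonneg fun x => Real.rpow_nonneg (nm_nonneg _ _) _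
    rw [← hA] at a6 ⊢
    have hW0 : 0 ≤ W V (r + η) := integral_nonneg fun x => sq_nonneg' _ x
    have a7 : (v * (r + η) ^ 3) ^ (1 - 2 / p) ≤ (v * 8) ^ (1 - 2 / p) * r ^ (3 - 6 / p) := by
      have e1 : r ^ (3 - 6 / p) = (r ^ 3) ^ (1 - 2 / p) := by
        rw [← Real.rpow_natCast, ← Real.rpow_mul hr0.le]
        congr 1
        push_cast
        ring
      rw [e1, ← Real.mul_rpow (by positivity) (by positivity)]
      apply Real.rpow_le_rpow (by positivity) _ (by linarith)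
      have : (r + η) ^ 3 ≤ (2 * r) ^ 3 := by gcongr; linarith
      calc v * (r + η) ^ 3 ≤ v * (2 * r) ^ 3 := by gcongr
        _ = v * 8 * r ^ 3 := by ring
    have a8 := Loc.scale_q h2 hη hr
    have hS0 : 0 ≤ ∫ x in Metric.ball (0 : E) r, sq V x ^ 3 := integral_nonneg fun x => pow_nonneg (sq_nonneg' _ x) 3
    have hK : 0 ≤ (v * 8) ^ (1 - 2 / p) := by positivity
    have hAp : 0 ≤ A ^ (2 / p) := Real.rpow_nonneg hA0 _
    calc (∫ x in Metric.ball (0 : E) r, sq V x ^ 3) ^ (1 / 3 : ℝ)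
        ≤ (∫ x, sq (sm (fun y => ζ y ^ 3) V) x ^ 3) ^ (1 / 3 : ℝ) := by gcongr
      _ ≤ C * ((∫ x, ζ x ^ 6 * sq (curl V) x) + C₁ ^ 2 * η⁻¹ ^ 2 * ∫ x, ζ x ^ 4 * sq V x) := a1
      _ ≤ C * (W V (r + η) + C₁ ^ 2 * η⁻¹ ^ 2 * (((v * 8) ^ (1 - 2 / p) * r ^ (3 - 6 / p)) * A ^ (2 / p))) := by
          gcongr
          exact a6.trans (mul_le_mul_of_nonneg_right a7 hAp)
      _ = C * (W V (r + η) + C₁ ^ 2 * (v * 8) ^ (1 - 2 / p) * (η⁻¹ ^ 2 * r ^ (3 - 6 / p)) * A ^ (2 / p)) := by ring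
      _ ≤ C * (W V (r + η) + C₁ ^ 2 * (v * 8) ^ (1 - 2 / p) * ((r / η) ^ 3 * η ^ (1 - 6 / p)) * A ^ (2 / p)) := by gcongr
      _ ≤ C * (1 + C₁ ^ 2 * (v * 8) ^ (1 - 2 / p)) * (W V (r + η) + (r / η) ^ 3 * η ^ (1 - 6 / p) * A ^ (2 / p)) := by
          have hE : 0 ≤ (r / η) ^ 3 * η ^ (1 - 6 / p) * A ^ (2 / p) := by positivity
          have hF : 0 ≤ C₁ ^ 2 * (v * 8) ^ (1 - 2 / p) := by positivity
          have : C * (1 + C₁ ^ 2 * (v * 8) ^ (1 - 2 / p)) * (W V (r + η) + (r / η) ^ 3 * η ^ (1 - 6 / p) * A ^ (2 / p))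
              - C * (W V (r + η) + C₁ ^ 2 * (v * 8) ^ (1 - 2 / p) * ((r / η) ^ 3 * η ^ (1 - 6 / p)) * A ^ (2 / p))
              = C * ((r / η) ^ 3 * η ^ (1 - 6 / p) * A ^ (2 / p))
                + C * ((C₁ ^ 2 * (v * 8) ^ (1 - 2 / p)) * W V (r + η)) := by ring
          have h5 : 0 ≤ C * ((r / η) ^ 3 * η ^ (1 - 6 / p) * A ^ (2 / p)) := mul_nonneg hC.le hE
          have h6 : 0 ≤ C * ((C₁ ^ 2 * (v * 8) ^ (1 - 2 / p)) * W V (r + η)) := mul_nonneg hC.le (mul_nonneg hF hW0)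
          linarith

theorem grad_psi : ∃ C : ℝ, 0 < C ∧ ∀ (V Ψ : VF) (r η ε : ℝ), (∀ i, ContDiff ℝ 3 (V i)) →
    (∀ i, ContDiff ℝ 2 (Ψ i)) → (∀ x, dv Ψ x = 0) → 0 < η → η ≤ r → 0 ≤ ε →
    (∀ x, ‖x‖ ≤ r + η → nm (fun i y => curl Ψ i y - V i y) x ≤ ε) →
    (∫ x in Metric.ball (0 : E) r, gsq Ψ x) ≤ C * ((∫ x in Metric.ball (0 : E) (r + η), (sq V x + ε ^ 2))
      + η⁻¹ ^ 2 * ∫ x in Metric.ball (0 : E) (r + η), sq Ψ x) := by
  obtain ⟨C₁, hC₁, hcut⟩ := exists_cutoff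
  refine ⟨4 + 6 * C₁ ^ 2, by positivity, fun V Ψ r η ε hV hΨ hd hη hr hε herr => ?_⟩
  obtain ⟨ζ, hζ, hc, h0, hle, hone, hz, hb, -⟩ := hcut r η hη hr
  have hζ2 : ContDiff ℝ 2 ζ := contDiff_infty.mp hζ 2
  have hζ1 : ContDiff ℝ 1 ζ := contDiff_infty.mp hζ 1
  have hΨ1 : ∀ i, ContDiff ℝ 1 (Ψ i) := fun i => (hΨ i).of_le (by norm_num)
  have hΨc : ∀ i, Continuous (Ψ i) := fun i => (hΨ i).continuous
  have hVc : ∀ i, Continuous (V i) := fun i => (hV i).continuous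
  have hloc : ∀ (R : ℝ) (f : E → ℝ), Continuous f → IntegrableOn f (Metric.ball (0 : E) R) := fun R f hf =>
    (hf.continuousOn.integrableOn_compact (isCompact_closedBall (0 : E) R)).mono_set Metric.ball_subset_closedBall
  have hzz : ∀ x, x ∉ Metric.ball (0 : E) (r + η) → ζ x = 0 := fun x hx => hz x (by simpa using hx)
  have hgz : ∀ x, x ∉ Metric.ball (0 : E) (r + η) → sq (grad ζ) x = 0 := by
    intro x hx
    have hmin : IsLocalMin ζ x := Eventually.of_forall fun y => by rw [hzz x hx]; exact h0 y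
    unfold sq grad pd
    simp [hmin.fderiv_eq_zero]
  have a1 := Loc.int_gsq_sm hζ2 hc hΨ hd
  have hsc : ∀ i, HasCompactSupport (sm ζ Ψ i) := Loc.hcs_sm hc Ψ
  have hs1 : ∀ i, ContDiff ℝ 1 (sm ζ Ψ i) := fun i => hζ1.mul (hΨ1 i)
  have hIg : Integrable (gsq (sm ζ Ψ)) := by
    apply integrable_of_cc (continuous_gsq hs1)
    unfold gsq
    simp only [Fin.sum_univ_three]
    have h : ∀ i j, HasCompactSupport (fun x => pd i (sm ζ Ψ j) x ^ 2) := fun i j =>
      hcs_sq (hasCompactSupport_pd (i := i) (hsc j))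
    exact (((((h 0 0).add (h 0 1)).add (h 0 2)).add (((h 1 0).add (h 1 1)).add (h 1 2)))).add
      (((h 2 0).add (h 2 1)).add (h 2 2))
  have a2 : (∫ x in Metric.ball (0 : E) r, gsq Ψ x) ≤ ∫ x, gsq (sm ζ Ψ) x := by
    calc (∫ x in Metric.ball (0 : E) r, gsq Ψ x) = ∫ x in Metric.ball (0 : E) r, gsq (sm ζ Ψ) x := by
          apply setIntegral_congr_fun measurableSet_ball
          intro x hx
          have hev : ∀ j, Ψ j =ᶠ[𝓝 x] sm ζ Ψ j := by
            intro j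
            filter_upwards [Metric.isOpen_ball.mem_nhds hx] with y hy
            have hy' : ‖y‖ ≤ r := by simpa using (Metric.mem_ball.mp hy).le
            simp [sm, hone y hy']
          unfold gsq
          congr 1; funext i; congr 1; funext j
          rw [pd_congr_at (hev j)]
      _ ≤ _ := setIntegral_le_integral hIg (Eventually.of_forall fun x => gsq_nonneg _ x)
  have a3 : ∫ x, ζ x ^ 2 * sq (curl Ψ) x ≤ ∫ x in Metric.ball (0 : E) (r + η), sq (curl Ψ) x :=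
    Loc.set_upper (fun x => sq_nonneg' _ x) (by norm_num) h0 hle measurableSet_ball hzz
      (hloc _ _ (continuous_sq (continuous_curl hΨ1)))
  have a4 : ∫ x in Metric.ball (0 : E) (r + η), sq (curl Ψ) x
      ≤ 2 * ∫ x in Metric.ball (0 : E) (r + η), (sq V x + ε ^ 2) := by
    rw [← integral_const_mul]
    apply setIntegral_mono_on (hloc _ _ (continuous_sq (continuous_curl hΨ1)))
      ((hloc _ _ ((continuous_sq hVc).add continuous_const)).const_mul 2) measurableSet_ball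
    intro x hx
    have hx' : ‖x‖ ≤ r + η := by simpa using (Metric.mem_ball.mp hx).le
    have h1 := Loc.sq_add_le V (fun i y => curl Ψ i y - V i y) x
    have h2 : sq (fun i y => V i y + (curl Ψ i y - V i y)) x = sq (curl Ψ) x := by
      unfold sq; congr 1; funext i; ring
    rw [h2] at h1
    have h3 := herr x hx'
    have h4 : sq (fun i y => curl Ψ i y - V i y) x ≤ ε ^ 2 := by
      rw [← nm_sq]
      exact pow_le_pow_left₀ (nm_nonneg _ _) h3 2
    show sq (curl Ψ) x ≤ 2 * (sq V x + ε ^ 2)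
    linarith
  have a5 : ∫ x, sq (grad ζ) x * sq Ψ x ≤ (3 * C₁ ^ 2) * (η⁻¹ ^ 2 * ∫ x in Metric.ball (0 : E) (r + η), sq Ψ x) := by
    rw [← mul_assoc, ← integral_const_mul, ← integral_indicator measurableSet_ball]
    apply integral_mono_of_nonneg
    · exact Eventually.of_forall fun x => mul_nonneg (sq_nonneg' _ _) (sq_nonneg' _ _)
    · rw [integrable_indicator_iff measurableSet_ball]
      exact (hloc _ _ (continuous_sq hΨc)).const_mul _
    · refine Eventually.of_forall fun x => ?_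
      dsimp only
      by_cases hx : x ∈ Metric.ball (0 : E) (r + η)
      · rw [indicator_of_mem hx]
        apply mul_le_mul_of_nonneg_right _ (sq_nonneg' _ _)
        have := Loc.sq_grad_le (hb x)
        rw [div_eq_mul_inv] at this
        linarith
      · rw [indicator_of_notMem hx, hgz x hx, zero_mul]
  have hA : 0 ≤ ∫ x in Metric.ball (0 : E) (r + η), (sq V x + ε ^ 2) :=
    integral_nonneg fun x => add_nonneg (sq_nonneg' _ _) (by positivity)
  have hB : 0 ≤ η⁻¹ ^ 2 * ∫ x in Metric.ball (0 : E) (r + η), sq Ψ x :=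
    mul_nonneg (by positivity) (integral_nonneg fun x => sq_nonneg' _ _)
  calc (∫ x in Metric.ball (0 : E) r, gsq Ψ x)
      ≤ 2 * (∫ x, ζ x ^ 2 * sq (curl Ψ) x) + 2 * ∫ x, sq (grad ζ) x * sq Ψ x := a2.trans a1
    _ ≤ 2 * (2 * ∫ x in Metric.ball (0 : E) (r + η), (sq V x + ε ^ 2))
        + 2 * ((3 * C₁ ^ 2) * (η⁻¹ ^ 2 * ∫ x in Metric.ball (0 : E) (r + η), sq Ψ x)) := by
        linarith [a3.trans a4]
    _ ≤ _ := by nlinarith [mul_nonneg (sq_nonneg C₁) hA]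

end Leray
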