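import Pool.Agent.Lib.MP_9b9638_an.Loc4

/-!
# Thin shells, local version: the main estimate
-/

open MeasureTheory Set Filter Topology TopologicalSpace
open scoped NNReal ENNReal

noncomputable section

namespace Leray

namespace CfgL

variable {V : VF} {p s C0 Cw : ℝ}

/-- the terms of the energy inequality -/
theorem terms {ν a : ℝ} (hν : 0 < ν) (ha : 0 < a) (hV : SmoothProfile ν a V) (h1 : 1 < p) (h2 : p < 2)
    (hC0 : 0 < C0) (hi : Integrable (nm V)) {K : ℝ} (hK0 : 0 ≤ K)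
    (hK : ∀ c : CfgL V p s C0 Cw, ∀ y ∈ Sh c.r (c.r + c.η), Pf V c.η y ≤ Fb K c) :
    ∃ C Cn : ℝ, 0 < C ∧ 0 < Cn ∧ ∀ c : CfgL V p s C0 Cw, W V c.R ≤ C * (
      c.η⁻¹ * (c.w ^ (1 / 2 : ℝ) * c.M ^ (1 / 2 : ℝ))
      + C0 * (Cn * (c.η⁻¹ * (c.w ^ (1 / 2 : ℝ) * c.M ^ (1 / 2 : ℝ))) + c.w ^ (1 / 2 : ℝ) * (c.η⁻¹ ^ 2 * Fb K c * c.vs))
      + c.η⁻¹ * (c.w ^ (1 / 2 : ℝ) * c.Ns ^ (1 / 2 : ℝ))
      + C0 * (Cn * (c.w ^ (1 / 2 : ℝ) * c.L4 ^ (1 / 2 : ℝ)) + c.η⁻¹ * Fb K c * (c.w ^ (1 / 2 : ℝ) * c.M ^ (1 / 2 : ℝ)))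
      + c.Mt
      + c.r * c.η⁻¹ * c.M
      + C0 * (Cn * (c.r * c.η⁻¹ * c.M) + c.r * c.η⁻¹ ^ 2 * Fb K c * c.vs * c.M ^ (1 / 2 : ℝ))
      + c.r * c.η⁻¹ * (c.M ^ (1 / 2 : ℝ) * c.Ns ^ (1 / 2 : ℝ))
      + 1) := by
  obtain ⟨C, hC, hen⟩ := energy_shell ν a hν ha
  obtain ⟨Cn, hCn, hpt⟩ := psi_terms
  refine ⟨C, Cn, hC, hCn, fun c => ?_⟩
  have hV1 : ∀ i, ContDiff ℝ 1 (V i) := fun i => (hV.smooth i).of_le (by norm_num)
  have cV : ∀ i, Continuous (V i) := fun i => (hV1 i).continuous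
  have cω : ∀ i, Continuous (curl V i) := continuous_curl hV1
  have hΨ1 : ∀ i, ContDiff ℝ 1 (c.Ψ i) := fun i => (c.hΨC i).of_le (by norm_num)
  have cΨ : ∀ i, Continuous (c.Ψ i) := fun i => (hΨ1 i).continuous
  have cnV := continuous_nm cV
  have cnω := continuous_nm cω
  have csV := continuous_sq cV
  have cgΨ := continuous_gnm hΨ1
  have hη := c.hη0
  have hηi := inv_pos.2 hη
  have hδ := c.hδ
  have h16 := c.δ_lt
  have hr := c.r_pos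
  have hr1 := c.hr1
  have hr2 := c.hr2
  have hR := c.hR
  have hS := Sh_sub c.r (c.r + c.η)
  have hm := measurableSet_Sh c.r (c.r + c.η)
  have hF0 := Fb_nonneg hK0 c
  -- monotonicity
  have hSub : Sh c.r (c.r + c.η) ⊆ Sh (c.r - c.η) (c.r + 2 * c.η) := Sh_subset (by linarith) (by linarith)
  have hSubw : Sh c.r (c.r + c.η) ⊆ Sh (c.r - 3 * c.η) (c.r + 4 * c.η) := Sh_subset (by linarith) (by linarith)
  have hws : ∫ y in Sh c.r (c.r + c.η), sq (curl V) y ≤ c.w := set_mono hSubw (Sh_sub _ _) (continuous_sq cω) (fun _ => sq_nonneg' _ _)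
  have hMs : ∫ y in Sh c.r (c.r + c.η), sq V y ≤ c.M := set_mono hSub (Sh_sub _ _) csV (fun _ => sq_nonneg' _ _)
  have hws0 : 0 ≤ ∫ y in Sh c.r (c.r + c.η), sq (curl V) y := setInt_nonneg hm fun _ => sq_nonneg' _ _
  have hMs0 : 0 ≤ ∫ y in Sh c.r (c.r + c.η), sq V y := setInt_nonneg hm fun _ => sq_nonneg' _ _
  have hws' : (∫ y in Sh c.r (c.r + c.η), sq (curl V) y) ^ (1 / 2 : ℝ) ≤ c.w ^ (1 / 2 : ℝ) := Real.rpow_le_rpow hws0 hws (by norm_num)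
  have hMs' : (∫ y in Sh c.r (c.r + c.η), sq V y) ^ (1 / 2 : ℝ) ≤ c.M ^ (1 / 2 : ℝ) := Real.rpow_le_rpow hMs0 hMs (by norm_num)
  have w0 : 0 ≤ c.w ^ (1 / 2 : ℝ) := Real.rpow_nonneg c.w_nonneg _
  have M0 : 0 ≤ c.M ^ (1 / 2 : ℝ) := Real.rpow_nonneg c.M_nonneg _
  have N0 : 0 ≤ c.Ns ^ (1 / 2 : ℝ) := Real.rpow_nonneg c.Ns_nonneg _
  have L0 : 0 ≤ c.L4 ^ (1 / 2 : ℝ) := Real.rpow_nonneg c.L4_nonneg _
  have vs0 := c.vs_nonneg
  -- energy inequality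
  have h := hen V c.Ψ c.r c.η c.ε hV c.hΨC (by linarith) hη (by linarith [c.η_le_r]) c.hε
    (fun x hx => c.hΨe x (by linarith)) (fun x hx => c.hΨc x (by linarith))
  obtain ⟨p1, p2, p3⟩ := hpt V c.Ψ c.r c.η C0 (Fb K c) hV.smooth cΨ hη hr hC0.le hF0
    (fun y hy => psi_bound cV hC0 hi hK c hy)
  have hWR : W V c.R ≤ W V c.r := set_mono (Metric.ball_subset_ball hr1) (ball_sub' _) (continuous_sq cω)
    (fun _ => sq_nonneg' _ _)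
  refine hWR.trans (h.trans ?_)
  apply mul_le_mul_of_nonneg_left _ hC.le
  -- the nine terms
  have t1 : c.η⁻¹ * (∫ x in Sh c.r (c.r + c.η), nm (curl V) x * nm V x) ≤ c.η⁻¹ * (c.w ^ (1 / 2 : ℝ) * c.M ^ (1 / 2 : ℝ)) := by
    apply mul_le_mul_of_nonneg_left _ hηi.le
    have h := cs_set hS cnω cnV (nm_nonneg _) (nm_nonneg _)
    simp only [nm_sq] at h
    exact h.trans (mul_le_mul hws' hMs' (Real.rpow_nonneg hMs0 _) w0)
  have t2 : c.η⁻¹ ^ 2 * (∫ x in Sh c.r (c.r + c.η), nm (curl V) x * nm c.Ψ x) ≤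
      C0 * (Cn * (c.η⁻¹ * (c.w ^ (1 / 2 : ℝ) * c.M ^ (1 / 2 : ℝ))) + c.w ^ (1 / 2 : ℝ) * (c.η⁻¹ ^ 2 * Fb K c * c.vs)) := by
    have h2 : (∫ x in Sh c.r (c.r + c.η), nm (curl V) x * nm c.Ψ x) ≤
        C0 * (c.w ^ (1 / 2 : ℝ) * (Cn * c.η * c.M ^ (1 / 2 : ℝ)) + Fb K c * (c.w ^ (1 / 2 : ℝ) * c.vs)) := by
      refine p1.trans ?_
      unfold M vs
      gcongr
    calc _ ≤ c.η⁻¹ ^ 2 * (C0 * (c.w ^ (1 / 2 : ℝ) * (Cn * c.η * c.M ^ (1 / 2 : ℝ)) + Fb K c * (c.w ^ (1 / 2 : ℝ) * c.vs))) :=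
          mul_le_mul_of_nonneg_left h2 (by positivity)
      _ = _ := by have := hη.ne'; field_simp
  have t3 : c.η⁻¹ * (∫ x in Sh c.r (c.r + c.η), nm (curl V) x * gnm c.Ψ x) ≤ c.η⁻¹ * (c.w ^ (1 / 2 : ℝ) * c.Ns ^ (1 / 2 : ℝ)) := by
    apply mul_le_mul_of_nonneg_left _ hηi.le
    have h := cs_set hS cnω cgΨ (nm_nonneg _) (gnm_nonneg _)
    simp only [nm_sq, gnm_sq] at h
    exact h.trans (mul_le_mul_of_nonneg_right hws' N0)
  have t4 : c.η⁻¹ * (∫ x in Sh c.r (c.r + c.η), nm (curl V) x * nm V x * nm c.Ψ x) ≤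
      C0 * (Cn * (c.w ^ (1 / 2 : ℝ) * c.L4 ^ (1 / 2 : ℝ)) + c.η⁻¹ * Fb K c * (c.w ^ (1 / 2 : ℝ) * c.M ^ (1 / 2 : ℝ))) := by
    have h2 : (∫ x in Sh c.r (c.r + c.η), nm (curl V) x * nm V x * nm c.Ψ x) ≤
        C0 * (c.w ^ (1 / 2 : ℝ) * (Cn * c.η * c.L4 ^ (1 / 2 : ℝ)) + Fb K c * (c.w ^ (1 / 2 : ℝ) * c.M ^ (1 / 2 : ℝ))) := by
      refine p2.trans ?_
      unfold L4 M
      gcongr
    calc _ ≤ c.η⁻¹ * (C0 * (c.w ^ (1 / 2 : ℝ) * (Cn * c.η * c.L4 ^ (1 / 2 : ℝ)) + Fb K c * (c.w ^ (1 / 2 : ℝ) * c.M ^ (1 / 2 : ℝ)))) :=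
          mul_le_mul_of_nonneg_left h2 hηi.le
      _ = _ := by have := hη.ne'; field_simp
  have t5 : (∫ x in Metric.ball (0 : E) (c.r + c.η), sq V x) ≤ c.Mt :=
    set_mono (Metric.ball_subset_ball (by linarith)) (ball_sub' _) csV (fun _ => sq_nonneg' _ _)
  have t6 : c.r * c.η⁻¹ * (∫ x in Sh c.r (c.r + c.η), sq V x) ≤ c.r * c.η⁻¹ * c.M :=
    mul_le_mul_of_nonneg_left hMs (by positivity)
  have t7 : c.r * c.η⁻¹ ^ 2 * (∫ x in Sh c.r (c.r + c.η), nm V x * nm c.Ψ x) ≤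
      C0 * (Cn * (c.r * c.η⁻¹ * c.M) + c.r * c.η⁻¹ ^ 2 * Fb K c * c.vs * c.M ^ (1 / 2 : ℝ)) := by
    have h2 : (∫ x in Sh c.r (c.r + c.η), nm V x * nm c.Ψ x) ≤
        C0 * (Cn * c.η * c.M + Fb K c * (c.M ^ (1 / 2 : ℝ) * c.vs)) := by
      refine p3.trans (le_of_eq ?_)
      have e : c.M ^ (1 / 2 : ℝ) * (Cn * c.η * c.M ^ (1 / 2 : ℝ)) = Cn * c.η * c.M := by
        have : c.M ^ (1 / 2 : ℝ) * c.M ^ (1 / 2 : ℝ) = c.M := by
          rw [← Real.sqrt_eq_rpow, Real.mul_self_sqrt c.M_nonneg]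
        calc _ = Cn * c.η * (c.M ^ (1 / 2 : ℝ) * c.M ^ (1 / 2 : ℝ)) := by ring
          _ = _ := by rw [this]
      rw [← e]
      rfl
    calc _ ≤ c.r * c.η⁻¹ ^ 2 * (C0 * (Cn * c.η * c.M + Fb K c * (c.M ^ (1 / 2 : ℝ) * c.vs))) :=
          mul_le_mul_of_nonneg_left h2 (by positivity)
      _ = _ := by have := hη.ne'; field_simp
  have t8 : c.r * c.η⁻¹ * (∫ x in Sh c.r (c.r + c.η), nm V x * gnm c.Ψ x) ≤
      c.r * c.η⁻¹ * (c.M ^ (1 / 2 : ℝ) * c.Ns ^ (1 / 2 : ℝ)) := by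
    apply mul_le_mul_of_nonneg_left _ (by positivity)
    have h := cs_set hS cnV cgΨ (nm_nonneg _) (gnm_nonneg _)
    simp only [nm_sq, gnm_sq] at h
    exact h.trans (mul_le_mul_of_nonneg_right hMs' N0)
  have t9 : c.ε * (1 + c.η⁻¹) * ∫ x in Metric.closedBall (0 : E) (c.r + c.η), nm (curl V) x * (1 + nm V x + ‖x‖) ≤ 1 := by
    refine le_trans (mul_le_mul_of_nonneg_left ?_ (mul_nonneg c.hε (by positivity))) c.herr
    apply set_mono (Metric.closedBall_subset_closedBall (by linarith)) ⟨_, subset_rfl⟩ (by fun_prop)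
    intro x
    have := nm_nonneg (curl V) x
    have := nm_nonneg V x
    positivity
  linarith

end CfgL

/-- the main estimate, thin shells -/
theorem thin_loc (ν a : ℝ) (hν : 0 < ν) (ha : 0 < a) (V : VF) (hV : SmoothProfile ν a V)
    (hi : Integrable (nm V)) (p : ℝ) (h1 : 1 < p) (h2 : p < 2) :
    ∃ C K κ : ℝ, 0 < C ∧ 0 < K ∧ 0 < κ ∧ κ < 1 ∧ ∀ R δ : ℝ, 1 ≤ R → 0 < δ → δ ≤ R →
      W V R ≤ C * (R / δ * (1 + ∫ y in Metric.ball (0 : E) (R + 4 * δ), nm V y ^ p)) ^ K *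
        (1 + W V (R + 4 * δ)) ^ κ := by
  have hp : 0 < p := by linarith
  have hp6 : 0 < 6 - p := by linarith
  have h5 : 0 < 10 - 2 * p := by linarith
  -- choice of s
  have hs0 : (3 - p) / (10 - 2 * p) < p / 4 := by
    rw [div_lt_div_iff₀ h5 (by norm_num)]
    nlinarith
  obtain ⟨s, hs1, hs2⟩ := exists_between hs0
  have hs : 0 < s := lt_trans (div_pos (by linarith) h5) hs1
  have hs1' : 3 - p < s * (10 - 2 * p) := by rwa [div_lt_iff₀ h5] at hs1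
  have hs2' : 4 * s < p := by linarith
  have hsp : 4 * s / p < 1 := by rw [div_lt_one hp]; exact hs2'
  have hs12 : s < 1 / 2 := by linarith
  have hV3 := hV.smooth
  have cV : ∀ i, Continuous (V i) := fun i => (hV3 i).continuous
  obtain ⟨C0, Cw, hC0, hCw, hcfg⟩ := cfgL_exists hV h1 h2 hi hs
  obtain ⟨F, hF0, hF⟩ := CfgL.far_le (V := V) (p := p) (s := s) (C0 := C0) (Cw := Cw) cV h1 h2 hCw hi
  obtain ⟨C, Cn, hC, hCn, hterms⟩ := CfgL.terms hν ha hV h1 h2 hC0 hi hF0 hF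
  -- the bounds
  have Q1 := CfgL.one_le_Q (V := V) (p := p) (s := s) (C0 := C0) (Cw := Cw)
  have Y1 := CfgL.one_le_Y (V := V) (p := p) (s := s) (C0 := C0) (Cw := Cw)
  have bηi := CfgL.bd_ηi (V := V) (p := p) (s := s) (C0 := C0) (Cw := Cw)
  have brηi := CfgL.bd_rηi (V := V) (p := p) (s := s) (C0 := C0) (Cw := Cw)
  have bw := CfgL.bd_w (V := V) (p := p) (s := s) (C0 := C0) (Cw := Cw)
  have b6 := CfgL.bd_I6 (s := s) (C0 := C0) (Cw := Cw) hV3 hV.div0 h1 h2 hsp.le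
  have bM := CfgL.bd_M hV3 h1 h2 b6
  have bL := CfgL.bd_L4 hV3 h1 h2 b6
  have bMt := CfgL.bd_Mt (s := s) (C0 := C0) (Cw := Cw) hV3 hV.div0 h1 h2
  have bNs := CfgL.bd_Ns (CfgL.bd_Nn hV3 h1 h2 hC0 hi bMt)
  have bF := CfgL.bd_Fb (V := V) (s := s) (C0 := C0) (Cw := Cw) hF0 hs.le h1 h2
  have bP1 := CfgL.bd_P1 (V := V) (s := s) (C0 := C0) (Cw := Cw) hF0 hs.le h1 h2
  have bP2 := CfgL.bd_P2 (V := V) (s := s) (C0 := C0) (Cw := Cw) hF0 hs.le h1 h2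
  set m := 3 * (1 - s) * ((2 - p) / (6 - p)) + (-s) * (4 / (6 - p)) with hm
  set l := 3 * (1 - s) * ((4 - p) / (6 - p)) + (-s) * (2 / (6 - p)) with hl
  set t3 := 3 * ((2 - p) / (6 - p)) with ht3
  have bw2 := bw.rpow Q1 Y1 (θ := 1 / 2) (by norm_num)
  have bM2 := bM.rpow Q1 Y1 (θ := 1 / 2) (by norm_num)
  have bL2 := bL.rpow Q1 Y1 (θ := 1 / 2) (by norm_num)
  have bN2 := bNs.rpow Q1 Y1 (θ := 1 / 2) (by norm_num)
  -- arithmetic of the exponents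
  have a3 : t3 < 1 := by
    rw [ht3, ← mul_div_assoc, div_lt_one hp6]; linarith
  have a30 : 0 ≤ t3 := mul_nonneg (by norm_num) (div_nonneg (by linarith) hp6.le)
  have am : s + m < 1 := by
    have : s + m = (s * (2 * p - 4) + 6 - 3 * p) / (6 - p) := by rw [hm]; field_simp; ring
    rw [this, div_lt_one hp6]
    nlinarith [mul_pos hs (show 0 < 4 - 2 * p by linarith)]
  have ams : m ≤ s := by
    have : m = (3 * (1 - s) * (2 - p) - 4 * s) / (6 - p) := by rw [hm]; field_simp; ring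
    rw [this, div_le_iff₀ hp6]
    -- s (16 - 4 p) ≥ 6 - 3 p
    nlinarith [mul_pos (show 0 < p - 1 by linarith) (show 0 < 6 - p by linarith)]
  have al : (1 - s) / 2 + l / 2 < 1 := by
    have : (1 - s) / 2 + l / 2 = ((1 - s) * (18 - 4 * p) - 2 * s) / (2 * (6 - p)) := by rw [hl]; field_simp; ring
    rw [this, div_lt_one (by linarith)]
    nlinarith
  have asp : 2 * s / p < 1 / 2 := by
    have : 2 * s / p = (4 * s / p) / 2 := by ring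
    rw [this]; linarith
  set κ := max (1 / 2) (max (s + (1 - s) / 2 + m / 2) (max (1 / 2 + 2 * s / p) (max (1 / 2 + t3 / 2)
    (max ((1 - s) / 2 + l / 2) (max (2 * s / p + (1 - s) / 2 + m / 2) (max t3 (max (s + m)
      (s * (1 / 2 + 2 / p) + m / 2)))))))) with hκ
  have k0 : 1 / 2 ≤ κ := le_max_left _ _
  have k1 : s + (1 - s) / 2 + m / 2 ≤ κ := by rw [hκ]; simp
  have k2 : 1 / 2 + 2 * s / p ≤ κ := by rw [hκ]; simp
  have k3 : 1 / 2 + t3 / 2 ≤ κ := by rw [hκ]; simp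
  have k4 : (1 - s) / 2 + l / 2 ≤ κ := by rw [hκ]; simp
  have k5 : 2 * s / p + (1 - s) / 2 + m / 2 ≤ κ := by rw [hκ]; simp
  have k6 : t3 ≤ κ := by rw [hκ]; simp
  have k7 : s + m ≤ κ := by rw [hκ]; simp
  have k8 : s * (1 / 2 + 2 / p) + m / 2 ≤ κ := by rw [hκ]; simp
  have e8 : s * (1 / 2 + 2 / p) = s / 2 + 2 * s / p := by ring
  have hκ1 : κ < 1 := by
    rw [hκ]
    simp only [max_lt_iff]
    refine ⟨by norm_num, by linarith, by linarith, by linarith, al, by linarith, a3, am, ?_⟩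
    rw [e8]; linarith
  have eη : s * (2 / p - 1) = 2 * s / p - s := by ring
  -- terms
  have g1 := (bηi.mul Q1 Y1 (bw2.mul Q1 Y1 bM2)).mono Q1 Y1 (e' := κ) (by linarith)
  have g2 := ((g1.const_mul Q1 Y1 hCn.le).add Q1 Y1 ((bw2.mul Q1 Y1 bP1).mono Q1 Y1 (e' := κ) (by rw [e8]; linarith))).const_mul Q1 Y1 hC0.le
  have g3 := (bηi.mul Q1 Y1 (bw2.mul Q1 Y1 bN2)).mono Q1 Y1 (e' := κ) (by linarith)
  have g4 := ((((bw2.mul Q1 Y1 bL2).mono Q1 Y1 (e' := κ) (by linarith)).const_mul Q1 Y1 hCn.le).add Q1 Y1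
    (((bηi.mul Q1 Y1 bF).mul Q1 Y1 (bw2.mul Q1 Y1 bM2)).mono Q1 Y1 (e' := κ) (by rw [eη]; linarith))).const_mul Q1 Y1 hC0.le
  have g5 := bMt.mono Q1 Y1 (e' := κ) k6
  have g6 := (brηi.mul Q1 Y1 bM).mono Q1 Y1 (e' := κ) k7
  have g7 := ((g6.const_mul Q1 Y1 hCn.le).add Q1 Y1 ((bP2.mul Q1 Y1 bM2).mono Q1 Y1 (e' := κ) (by linarith))).const_mul Q1 Y1 hC0.le
  have g8 := (brηi.mul Q1 Y1 (bM2.mul Q1 Y1 bN2)).mono Q1 Y1 (e' := κ) (by linarith)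
  have g9 := (Bd.const (Q := CfgL.Q (V := V) (p := p) (s := s) (C0 := C0) (Cw := Cw)) Q1 Y1 (c := 1) zero_le_one).mono Q1 Y1
    (e' := κ) (by linarith)
  have gall := ((((((((g1.add Q1 Y1 g2).add Q1 Y1 g3).add Q1 Y1 g4).add Q1 Y1 g5).add Q1 Y1 g6).add Q1 Y1 g7).add Q1 Y1 g8).add Q1 Y1 g9).const_mul Q1 Y1 hC.le
  obtain ⟨-, c₁, K, hc₁, hK, hfin⟩ := gall
  refine ⟨c₁ + 1, K + 1, κ, by positivity, by positivity, by linarith, hκ1, ?_⟩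
  intro R δ hR hδ hδR
  obtain ⟨c, hcR, hcδ⟩ := hcfg R δ hR hδ hδR
  have h := (hterms c).trans (hfin c)
  have hA := c.hAdef
  rw [hcR, hcδ] at hA
  have hQ : c.Q = R / δ * (1 + ∫ y in Metric.ball (0 : E) (R + 4 * δ), nm V y ^ p) := by
    rw [CfgL.Q, hcR, hcδ, hA]
  have hY := c.hYdef
  rw [hcR, hcδ] at hY
  have q1 := Q1 c
  rw [hcR, hY] at h
  rw [hQ] at h q1
  refine h.trans ?_
  have y0 : 0 ≤ 1 + W V (R + 4 * δ) := by have := W_nonneg V (R + 4 * δ); linarith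
  have := Real.rpow_le_rpow_of_exponent_le q1 (show K ≤ K + 1 by linarith)
  gcongr
  linarith

end Leray
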