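import Pool.Agent.Lib.MP_9b9638_an.Smooth
import Pool.Agent.Lib.MP_9b9638_an.Growth
import Pool.Agent.Lib.MP_9b9638_an.Fin4
import Pool.Agent.Lib.MP_9b9638_an.Head
import Pool.Agent.Lib.MP_9b9638_an.HeadMax
import Pool.Agent.Lib.MP_9b9638_an.Hopf

/-!
# No profile in `L^p`, `1 < p < 3`
-/

open MeasureTheory Set Filter Topology TopologicalSpace

noncomputable section
namespace Leray

/-- a weak profile in `L^p`, `1 < p < 3`, vanishes -/
theorem main {ν a p : ℝ} (hν : 0 < ν) (ha : 0 < a) (h1 : 1 < p) (h3 : p < 3) (V : E → E)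
    (hV : DFProfile ν a V) (hLp : MemLp V (ENNReal.ofReal p) volume) : V =ᵐ[volume] 0 := by
  obtain ⟨U, hU, he⟩ := exists_smooth hν hV
  have hp0 : 0 < p := by linarith
  have hint : Integrable (fun x => nm U x ^ p) := by
    have h := hLp.integrable_norm_rpow (by simpa using hp0) (by simp)
    rw [ENNReal.toReal_ofReal hp0.le] at h
    refine h.congr ?_
    filter_upwards [he 0, he 1, he 2] with x h0 h1 h2
    have : ‖V x‖ = nm U x := by
      unfold nm sq
      rw [EuclideanSpace.norm_eq, Fin.sum_univ_three, Fin.sum_univ_three, h0, h1, h2]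
      simp only [Real.norm_eq_abs, sq_abs]
    rw [this]
  obtain ⟨C, κ, hC, hκ0, hκ1, hW⟩ := growth ν a hν ha U hU p h1 h3 hint
  obtain ⟨hI1, hI2⟩ := growth_integrals hU h1 h3 hint hC hκ0 hκ1 hW
  obtain ⟨q, hq2, hq, hL⟩ := exists_head hU
  obtain ⟨x₀, hx₀⟩ := head_max hν ha hU hq2 hq hI1 hI2
  have hb : ∀ i, Continuous (drift a U i) := fun i => by
    unfold drift
    exact (hU.smooth i).continuous.add (continuous_const.mul (differentiable_coord i).continuous)
  have hc := hopf hν (b := drift a U) hb hq2 (fun x => by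
    rw [hL x]
    have := mul_nonneg hν.le (sq_nonneg' (curl U) x)
    linarith) hx₀
  have hqc : q = fun _ => q x₀ := funext hc
  have hpd : ∀ i, pd i q = fun _ => 0 := fun i => by
    funext x
    rw [hqc]
    exact pd_const _ x
  have hsq : ∀ x, sq (curl U) x = 0 := fun x => by
    have h := hL x
    have e1 : lap q x = 0 := by
      unfold lap
      exact Finset.sum_eq_zero fun i _ => by rw [hpd i]; exact pd_const _ x
    have e2 : dot (drift a U) (grad q) x = 0 := by
      unfold dot grad
      exact Finset.sum_eq_zero fun i _ => by rw [hpd i]; ring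
    rw [e1, e2] at h
    have h' : ν * sq (curl U) x = 0 := by linarith
    rcases mul_eq_zero.1 h' with h0 | h0
    · exact absurd h0 hν.ne'
    · exact h0
  have hcurl : ∀ i x, curl U i x = 0 := fun i x => by
    have h0 := hsq x
    unfold sq at h0
    have h4 := (Finset.sum_eq_zero_iff_of_nonneg (fun j _ => by positivity)).1 h0 i (Finset.mem_univ i)
    exact pow_eq_zero_iff (two_ne_zero) |>.1 h4
  have hz := eq_zero_of_curl hU.smooth hU.div0 hcurl h1 h3 hint
  filter_upwards [he 0, he 1, he 2] with x e0 e1 e2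
  have e : ∀ i, V x i = 0 := by
    intro i
    fin_cases i
    · exact e0.trans (hz 0 x)
    · exact e1.trans (hz 1 x)
    · exact e2.trans (hz 2 x)
  ext i
  exact e i


end Leray
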