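import Pool.Agent.Lib.MP_9b9638_an.OneG
import Pool.Agent.Lib.MP_9b9638_an.LocThin
import Pool.Agent.Lib.MP_9b9638_an.IterLoc

/-!
# The case `p = 1`: growth dichotomy with local `L^q` norms
-/

open MeasureTheory Set Filter Topology TopologicalSpace

noncomputable section
namespace Leray

open OneG in
theorem main_q {ν a : ℝ} (hν : 0 < ν) (ha : 0 < a) (V : E → E) (hV : IsProfile ν a V)
    (hL1 : Integrable V) (hne : ¬ V =ᵐ[volume] 0) {q : ℝ} (hq : 1 < q) :
    (∀ R : ℝ, IntegrableOn (fun x => ‖V x‖ ^ q) (Metric.ball (0 : E) R)) ∧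
    Tendsto (fun R : ℝ => Real.log (∫ x in Metric.ball (0 : E) R, ‖V x‖ ^ q) / R ^ 2)
      atTop atTop := by
  obtain ⟨U, hU, he⟩ := exists_smooth hν hV.df
  have hnm : ∀ᵐ x, ‖V x‖ = nm U x := by
    filter_upwards [he 0, he 1, he 2] with x h0 h1 h2
    unfold nm sq
    rw [EuclideanSpace.norm_eq, Fin.sum_univ_three, Fin.sum_univ_three, h0, h1, h2]
    simp only [Real.norm_eq_abs, sq_abs]
  have hint : Integrable (nm U) := hL1.norm.congr hnm
  have cU : ∀ i, Continuous (U i) := fun i => (hU.smooth i).continuous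
  have cn := continuous_nm cU
  have hD : ∀ R : ℝ, ∫ x in Metric.ball (0 : E) R, ‖V x‖ ^ q
      = ∫ x in Metric.ball (0 : E) R, nm U x ^ q := fun R => by
    refine integral_congr_ae (ae_restrict_of_ae ?_)
    filter_upwards [hnm] with x hx
    rw [hx]
  constructor
  · intro R
    have h1 : IntegrableOn (fun x => nm U x ^ q) (Metric.ball (0 : E) R) :=
      cont_int_on (ball_sub' _) (cn.rpow_const fun y => Or.inr (by linarith))
    refine h1.congr (ae_restrict_of_ae ?_)
    filter_upwards [hnm] with x hx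
    rw [hx]
  simp only [hD]
  by_contra hcon
  rw [tendsto_atTop] at hcon
  push Not at hcon
  obtain ⟨b, hb⟩ := hcon
  -- the exponent below `2`
  obtain ⟨p, hp⟩ : ∃ p, p = min q (3 / 2) := ⟨_, rfl⟩
  have hp1 : 1 < p := by rw [hp]; exact lt_min hq (by norm_num)
  have hp2 : p < 2 := by rw [hp]; exact (min_le_right _ _).trans_lt (by norm_num)
  have hpq : p ≤ q := by rw [hp]; exact min_le_left _ _
  have hp0 : 0 < p := by linarith
  have cp : Continuous (fun y => nm U y ^ p) := cn.rpow_const fun y => Or.inr hp0.le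
  have cq : Continuous (fun y => nm U y ^ q) := cn.rpow_const fun y => Or.inr (by linarith)
  obtain ⟨C₁, K₁, κ₁, hC₁, hK₁, hκ₁0, hκ₁1, hloc⟩ := thin_loc ν a hν ha U hU hint p hp1 hp2
  set A : ℝ → ℝ := fun R => 1 + ∫ y in Metric.ball (0 : E) R, nm U y ^ p with hA
  have hAm : Monotone A := fun r s hrs => by
    have : ∫ y in Metric.ball (0 : E) r, nm U y ^ p ≤ ∫ y in Metric.ball (0 : E) s, nm U y ^ p :=
      set_mono (Metric.ball_subset_ball hrs) (ball_sub' _) cp fun y => Real.rpow_nonneg (nm_nonneg _ _) _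
    show 1 + _ ≤ 1 + _
    linarith
  have hA1 : ∀ r, 1 ≤ A r := fun r => by
    have : 0 ≤ ∫ y in Metric.ball (0 : E) r, nm U y ^ p :=
      setInt_nonneg measurableSet_ball fun y => Real.rpow_nonneg (nm_nonneg _ _) _
    show 1 ≤ 1 + _
    linarith
  obtain ⟨C₂, K₂, hC₂, hK₂, hbd⟩ := iter_loc (W U) A (Thk.W_mono hU.smooth) (Thk.W_nonneg U) hAm hA1 C₁ K₁ κ₁
    hC₁ hK₁ hκ₁0 hκ₁1 hloc
  -- growth of the enstrophy
  set vb := (volume : Measure E).real (Metric.ball (0 : E) 1) with hvb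
  have hvb0 : 0 ≤ vb := by positivity
  obtain ⟨Cx, hCx⟩ : ∃ Cx, Cx = |b| + 3 + vb := ⟨_, rfl⟩
  have hCx0 : 0 ≤ Cx := by rw [hCx]; positivity
  have hAle : ∀ R : ℝ, 1 ≤ R → Real.log (∫ x in Metric.ball (0 : E) R, nm U x ^ q) / R ^ 2 < b →
      A R ≤ Real.exp (Cx * R ^ 2) := by
    intro R hR h1
    rw [div_lt_iff₀ (by positivity)] at h1
    have hR2 : 1 ≤ R ^ 2 := by nlinarith
    set D := ∫ x in Metric.ball (0 : E) R, nm U x ^ q with hDdef
    have hD0 : 0 ≤ D := setInt_nonneg measurableSet_ball fun y => Real.rpow_nonneg (nm_nonneg _ _) _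
    have e1 : D ≤ Real.exp (|b| * R ^ 2) := by
      rcases hD0.eq_or_lt with h0 | h0
      · rw [← h0]; positivity
      · rw [← Real.log_le_iff_le_exp h0]
        refine h1.le.trans ?_
        exact mul_le_mul_of_nonneg_right (le_abs_self b) (by positivity)
    have e2 : ∫ y in Metric.ball (0 : E) R, nm U y ^ p ≤ R ^ 3 * vb + D := by
      calc _ ≤ ∫ y in Metric.ball (0 : E) R, (1 + nm U y ^ q) := by
            apply setIntegral_mono_on (cont_int_on (ball_sub' _) cp)
              (cont_int_on (ball_sub' _) (continuous_const.add cq)) measurableSet_ball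
            intro y _
            show nm U y ^ p ≤ 1 + nm U y ^ q
            rcases le_or_gt 1 (nm U y) with h | h
            · have := Real.rpow_le_rpow_of_exponent_le h hpq
              linarith
            · have := Real.rpow_le_one (nm_nonneg U y) h.le hp0.le
              have := Real.rpow_nonneg (nm_nonneg U y) q
              linarith
        _ = _ := by
            rw [integral_add (cont_int_on (ball_sub' _) continuous_const) (cont_int_on (ball_sub' _) cq)]
            simp only [integral_const, smul_eq_mul, Measure.real, Measure.restrict_apply_univ]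
            rw [← Measure.real, vol_ball (by linarith), mul_one]
    have x1 : R ^ 3 ≤ Real.exp (2 * R ^ 2) := by
      have h1 := Real.add_one_le_exp (R ^ 2)
      have h2 : R ^ 3 ≤ (R ^ 2) ^ 2 := by nlinarith [pow_pos (show 0 < R by linarith) 3]
      have h3 : (R ^ 2) ^ 2 ≤ (Real.exp (R ^ 2)) ^ 2 := pow_le_pow_left₀ (by positivity) (by linarith) 2
      calc R ^ 3 ≤ (Real.exp (R ^ 2)) ^ 2 := h2.trans h3
        _ = Real.exp (2 * R ^ 2) := by rw [← Real.exp_nat_mul]; norm_num
    have x2 : 1 + vb ≤ Real.exp (vb * R ^ 2) := by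
      have := Real.add_one_le_exp (vb * R ^ 2)
      nlinarith
    have x3 : (2 : ℝ) ≤ Real.exp (R ^ 2) := by
      have := Real.add_one_le_exp (R ^ 2)
      linarith
    have p1 : 1 ≤ Real.exp (2 * R ^ 2) := Real.one_le_exp (by positivity)
    have p2 : 1 ≤ Real.exp (|b| * R ^ 2) := Real.one_le_exp (by positivity)
    have p3 : 1 ≤ Real.exp (vb * R ^ 2) := Real.one_le_exp (by positivity)
    have x4 : A R ≤ 1 + (R ^ 3 * vb + D) := by
      show 1 + _ ≤ _
      linarith
    have x5 : 1 + (R ^ 3 * vb + D) ≤ 2 * (Real.exp (2 * R ^ 2) * Real.exp (vb * R ^ 2) * Real.exp (|b| * R ^ 2)) := by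
      have y1 : 1 + R ^ 3 * vb ≤ Real.exp (2 * R ^ 2) * Real.exp (vb * R ^ 2) := by
        calc 1 + R ^ 3 * vb ≤ Real.exp (2 * R ^ 2) * (1 + vb) := by nlinarith
          _ ≤ _ := by gcongr
      have y2 : Real.exp (2 * R ^ 2) * Real.exp (vb * R ^ 2) ≤
          Real.exp (2 * R ^ 2) * Real.exp (vb * R ^ 2) * Real.exp (|b| * R ^ 2) :=
        le_mul_of_one_le_right (by positivity) p2
      have y3 : Real.exp (|b| * R ^ 2) ≤
          Real.exp (2 * R ^ 2) * Real.exp (vb * R ^ 2) * Real.exp (|b| * R ^ 2) :=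
        le_mul_of_one_le_left (by positivity) (one_le_mul_of_one_le_of_one_le p1 p3)
      linarith
    calc A R ≤ 2 * (Real.exp (2 * R ^ 2) * Real.exp (vb * R ^ 2) * Real.exp (|b| * R ^ 2)) := x4.trans x5
      _ ≤ Real.exp (R ^ 2) * (Real.exp (2 * R ^ 2) * Real.exp (vb * R ^ 2) * Real.exp (|b| * R ^ 2)) := by gcongr
      _ = _ := by
        rw [← Real.exp_add, ← Real.exp_add, ← Real.exp_add, hCx]; ring_nf
  obtain ⟨Cy, hCy⟩ : ∃ Cy, Cy = C₂ + 4 * Cx * K₂ := ⟨_, rfl⟩
  have hfreq : ∃ᶠ R : ℝ in atTop, W U R ≤ Real.exp (Cy * R ^ 2) := by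
    have h2 : ∃ᶠ R : ℝ in atTop, W U (R / 2) ≤ Real.exp (Cy * (R / 2) ^ 2) := by
      refine (hb.and_eventually (eventually_ge_atTop (2 : ℝ))).mono fun R hR => ?_
      obtain ⟨h1, h2⟩ := hR
      have h3 := hAle R (by linarith) h1
      have h4 := hbd (R / 2) (by linarith)
      rw [show 2 * (R / 2) = R by ring] at h4
      have h5 : A R ^ K₂ ≤ Real.exp (Cx * R ^ 2) ^ K₂ :=
        Real.rpow_le_rpow (by linarith [hA1 R]) h3 hK₂.le
      have h6 : Real.exp (Cx * R ^ 2) ^ K₂ = Real.exp (Cx * R ^ 2 * K₂) := by rw [← Real.exp_mul]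
      have hR4 : 1 ≤ (R / 2) ^ 2 := by
        have : 1 ≤ R / 2 := by linarith
        exact one_le_pow₀ this
      have h7 : C₂ ≤ Real.exp (C₂ * (R / 2) ^ 2) := by
        have := Real.add_one_le_exp (C₂ * (R / 2) ^ 2)
        nlinarith
      calc W U (R / 2) ≤ C₂ * A R ^ K₂ := h4
        _ ≤ Real.exp (C₂ * (R / 2) ^ 2) * Real.exp (Cx * R ^ 2 * K₂) := by
            rw [← h6]
            exact mul_le_mul h7 h5 (Real.rpow_nonneg (by linarith [hA1 R]) _) (Real.exp_pos _).le
        _ = _ := by rw [← Real.exp_add, hCy]; ring_nf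
    rw [frequently_atTop] at h2 ⊢
    intro N
    obtain ⟨R, hR, h⟩ := h2 (2 * N)
    exact ⟨R / 2, by linarith, h⟩
  obtain ⟨C, K, κ, hC, hK, hκ0, hκ1, hstep⟩ := step_one ν a hν ha U hU hint
  obtain ⟨C', hC'⟩ := iterate_one (W U) (Thk.W_mono hU.smooth) (Thk.W_nonneg U) (nm U) hint
    (fun x => Real.sqrt_nonneg _) C K κ hC hK hκ0 hκ1 hstep Cy hfreq
  have hz := eq_zero_of_bounded hν ha hU hint hC'
  refine hne ?_
  filter_upwards [he 0, he 1, he 2] with x e0 e1 e2
  have e : ∀ i, V x i = 0 := by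
    intro i
    fin_cases i
    · exact e0.trans (hz 0 x)
    · exact e1.trans (hz 1 x)
    · exact e2.trans (hz 2 x)
  ext i
  exact e i

end Leray
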