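import Pool.Agent.Lib.MP_9b9638_an.Shell1

/-!
# Sobolev inequalities on shells and balls, `p = 1`
-/

open MeasureTheory Set Filter Topology
open scoped ENNReal

noncomputable section

namespace Leray

namespace LocOne

open Loc

theorem exps {p : ℝ} (h1 : 1 ≤ p) (h2 : p < 2) : 0 < (2 - p) / (6 - p) ∧ 0 < 4 / (6 - p) ∧
    (2 - p) / (6 - p) + 4 / (6 - p) = 1 ∧ 18 * ((2 - p) / (6 - p)) ≤ 4 ∧
    6 * ((2 - p) / (6 - p)) + p * (4 / (6 - p)) = 2 ∧ 3 * ((2 - p) / (6 - p)) < 1 := by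
  have h6 : 0 < 6 - p := by linarith
  refine ⟨div_pos (by linarith) h6, by positivity, ?_, ?_, ?_, ?_⟩
  · field_simp; ring
  · rw [← mul_div_assoc, div_le_iff₀ h6]; linarith
  · field_simp; ring
  · rw [← mul_div_assoc, div_lt_iff₀ h6]; linarith

/-- interpolation of the localised `L²` norm -/
theorem interp {p : ℝ} (h1 : 1 ≤ p) (h2 : p < 2) {V : VF} (hV : ∀ i, Continuous (V i)) {ζ : E → ℝ}
    (hζ : Continuous ζ) (hc : HasCompactSupport ζ) (h0 : ∀ x, 0 ≤ ζ x) (hle : ∀ x, ζ x ≤ 1)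
    {T : Set E} (hT : MeasurableSet T) (hz : ∀ x, x ∉ T → ζ x = 0)
    (hfT : IntegrableOn (fun x => nm V x ^ p) T) :
    ∫ x, ζ x ^ 4 * sq V x ≤ (∫ x, sq (sm (fun y => ζ y ^ 3) V) x ^ 3) ^ ((2 - p) / (6 - p))
      * (∫ x in T, nm V x ^ p) ^ (4 / (6 - p)) := by
  obtain ⟨ht, hu, htu, h18, h6, _⟩ := exps h1 h2
  obtain ⟨t, rfl⟩ : ∃ t, t = (2 - p) / (6 - p) := ⟨_, rfl⟩
  obtain ⟨u, rfl⟩ : ∃ u, u = 4 / (6 - p) := ⟨_, rfl⟩
  set t := (2 - p) / (6 - p) with ht'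
  set u := 4 / (6 - p) with hu'
  have e : (fun x => sq (sm (fun y => ζ y ^ 3) V) x ^ 3) = fun x => ζ x ^ 18 * nm V x ^ 6 := by
    funext x
    rw [sq_sm, ← nm_sq]; ring
  have hI : Integrable (fun x => ζ x ^ 18 * nm V x ^ 6) :=
    integrable_of_cc ((hζ.pow 18).mul ((continuous_nm hV).pow 6))
      (hc.comp_left (g := fun t : ℝ => t ^ 18) (by simp)).mul_right
  have hJ : Integrable (T.indicator fun x => nm V x ^ p) := (integrable_indicator_iff hT).mpr hfT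
  rw [e, ← integral_indicator hT]
  refine le_trans ?_ (holder hI hJ (fun x => mul_nonneg (pow_nonneg (h0 x) _) (pow_nonneg (nm_nonneg _ _) _))
    (fun x => indicator_nonneg (fun y _ => Real.rpow_nonneg (nm_nonneg _ _) _) x) ht.le hu.le htu)
  apply integral_mono_of_nonneg
  · exact Eventually.of_forall fun x => mul_nonneg (pow_nonneg (h0 x) _) (sq_nonneg' _ _)
  · -- integrability of the product
    have hcont : Continuous fun x => (ζ x ^ 18 * nm V x ^ 6) ^ t * (nm V x ^ p) ^ u := by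
      apply Continuous.mul
      · exact ((hζ.pow 18).mul ((continuous_nm hV).pow 6)).rpow_const fun x => Or.inr ht.le
      · exact ((continuous_nm hV).rpow_const fun x => Or.inr (by linarith)).rpow_const fun x => Or.inr hu.le
    have hcs : HasCompactSupport fun x => (ζ x ^ 18 * nm V x ^ 6) ^ t * (nm V x ^ p) ^ u := by
      apply HasCompactSupport.intro hc
      intro x hx
      have : ζ x = 0 := image_eq_zero_of_notMem_tsupport hx
      rw [this]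
      simp [Real.zero_rpow ht.ne']
    refine (integrable_of_cc hcont hcs).congr (Eventually.of_forall fun x => ?_)
    dsimp only
    by_cases hx : x ∈ T
    · rw [indicator_of_mem hx]
    · rw [hz x hx]
      simp [Real.zero_rpow ht.ne']
  · refine Eventually.of_forall fun x => ?_
    dsimp only
    by_cases hx : x ∈ T
    · rw [indicator_of_mem hx, ← nm_sq]
      have hn := nm_nonneg V x
      have hz0 := h0 x
      have e1 : (ζ x ^ 18 * nm V x ^ 6) ^ t * (nm V x ^ p) ^ u = ζ x ^ (18 * t) * nm V x ^ (2 : ℝ) := by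
        rw [Real.mul_rpow (by positivity) (by positivity), ← Real.rpow_natCast, ← Real.rpow_natCast,
          ← Real.rpow_mul hz0, ← Real.rpow_mul hn, ← Real.rpow_mul hn, mul_assoc,
          ← Real.rpow_add_of_nonneg hn (by positivity) (by nlinarith)]
        push_cast
        rw [h6]
      rw [e1]
      have e2 : nm V x ^ (2 : ℝ) = nm V x ^ 2 := by
        rw [← Real.rpow_natCast]; norm_num
      rw [e2]
      apply mul_le_mul_of_nonneg_right _ (by positivity)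
      rcases eq_or_lt_of_le hz0 with h | h
      · rw [← h, Real.zero_rpow (by positivity)]; norm_num
      · rw [← Real.rpow_natCast]
        exact Real.rpow_le_rpow_of_exponent_ge h (hle x) (by push_cast; exact h18)
    · rw [hz x hx, indicator_of_notMem hx]
      simp [Real.zero_rpow ht.ne']

/-- localised Sobolev inequality with the `L^p` norm on the right, `p < 2` -/
theorem localised_p (p : ℝ) (h1 : 1 ≤ p) (h2 : p < 2) (C₁ : ℝ) : ∃ C : ℝ, 0 < C ∧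
    ∀ (V : VF) (ζ : E → ℝ) (η : ℝ) (S T : Set E), (∀ i, ContDiff ℝ 3 (V i)) →
    (∀ x, dv V x = 0) → ContDiff ℝ (⊤ : ℕ∞) ζ → HasCompactSupport ζ → 0 < η →
    (∀ x i, |pd i ζ x| ≤ C₁ / η) → (∀ x, 0 ≤ ζ x) → (∀ x, ζ x ≤ 1) → MeasurableSet S → (∀ x ∈ S, ζ x = 1) →
    MeasurableSet T → (∀ x, x ∉ T → ζ x = 0) → (∀ f : E → ℝ, Continuous f → IntegrableOn f T) →
    (∫ x in S, sq V x ^ 3) ^ (1 / 3 : ℝ) ≤
      C * ((∫ x in T, sq (curl V) x) + η ^ (1 - 6 / p) * (∫ x in T, nm V x ^ p) ^ (2 / p)) := by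
  obtain ⟨C, hC, hL⟩ := localised
  obtain ⟨ht, hu, htu, h18, h6, h3t⟩ := exps h1 h2
  obtain ⟨t, htdef⟩ : ∃ t, t = (2 - p) / (6 - p) := ⟨_, rfl⟩
  obtain ⟨u, hudef⟩ : ∃ u, u = 4 / (6 - p) := ⟨_, rfl⟩
  rw [← htdef] at ht htu h18 h6 h3t
  rw [← hudef] at hu htu h6
  have hp0 : 0 < p := by linarith
  have h6p : 0 < 6 - p := by linarith
  obtain ⟨D, hD⟩ : ∃ D, D = 2 * (C * C₁ ^ 2) := ⟨_, rfl⟩
  have hD0 : 0 ≤ D := by rw [hD]; positivity
  refine ⟨2 * C + D ^ (1 / (1 - 3 * t)), by positivity, ?_⟩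
  intro V ζ η S T hV hd hζ hc hη hb h0 hle hS hS1 hT hz hloc
  have hVc : ∀ i, Continuous (V i) := fun i => (hV i).continuous
  have hcn := continuous_nm hVc
  have hfT : IntegrableOn (fun x => nm V x ^ p) T := hloc _ (hcn.rpow_const fun x => Or.inr hp0.le)
  obtain ⟨Y, hY⟩ : ∃ Y, Y = ∫ x, sq (sm (fun y => ζ y ^ 3) V) x ^ 3 := ⟨_, rfl⟩
  obtain ⟨A, hA⟩ : ∃ A, A = ∫ x in T, nm V x ^ p := ⟨_, rfl⟩
  obtain ⟨Ω, hΩ⟩ : ∃ Ω, Ω = ∫ x in T, sq (curl V) x := ⟨_, rfl⟩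
  have hA0 : 0 ≤ A := by rw [hA]; exact integral_nonneg fun x => Real.rpow_nonneg (nm_nonneg _ _) _
  have hY0 : 0 ≤ Y := by rw [hY]; exact integral_nonneg fun x => pow_nonneg (sq_nonneg' _ x) 3
  have hΩ0 : 0 ≤ Ω := by rw [hΩ]; exact integral_nonneg fun x => sq_nonneg' _ x
  have a1 := hL V ζ η C₁ hV hd hζ hc hη hb
  have a2 := interp h1 h2 hVc hζ.continuous hc h0 hle hT hz hfT
  have a3 := set_lower hVc hζ.continuous hc hS hS1
  have a4 : ∫ x, ζ x ^ 6 * sq (curl V) x ≤ Ω := by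
    rw [hΩ]
    exact set_upper (fun x => sq_nonneg' _ x) (by norm_num) h0 hle hT hz
      (hloc _ (continuous_sq (continuous_curl fun i => (hV i).of_le (by norm_num))))
  rw [← hY, ← hA, ← htdef, ← hudef] at a2
  rw [← hY] at a1 a3
  rw [← hA, ← hΩ]
  have hX0 : 0 ≤ Y ^ (1 / 3 : ℝ) := Real.rpow_nonneg hY0 _
  have hYt : Y ^ t = (Y ^ (1 / 3 : ℝ)) ^ (3 * t) := by
    rw [← Real.rpow_mul hY0]; congr 1; ring
  have hηi : 0 < η⁻¹ := inv_pos.mpr hη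
  have hAu : 0 ≤ A ^ u := Real.rpow_nonneg hA0 _
  have a5 : Y ^ (1 / 3 : ℝ) ≤ C * Ω + (C * C₁ ^ 2 * η⁻¹ ^ 2 * A ^ u) * (Y ^ (1 / 3 : ℝ)) ^ (3 * t) := by
    calc Y ^ (1 / 3 : ℝ) ≤ C * ((∫ x, ζ x ^ 6 * sq (curl V) x) + C₁ ^ 2 * η⁻¹ ^ 2 * ∫ x, ζ x ^ 4 * sq V x) := a1
      _ ≤ C * (Ω + C₁ ^ 2 * η⁻¹ ^ 2 * (Y ^ t * A ^ u)) := by gcongr
      _ = _ := by rw [hYt]; ring
  have a6 := absorb hX0 (by positivity) (by positivity) h3t a5
  have e1 : 1 - 3 * t = 2 * p / (6 - p) := by rw [htdef]; field_simp; ring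
  have e2 : u * (1 / (1 - 3 * t)) = 2 / p := by rw [e1, hudef]; field_simp; ring
  have e3 : (-2) * (1 / (1 - 3 * t)) = 1 - 6 / p := by rw [e1]; field_simp; ring
  have e4 : (2 * (C * C₁ ^ 2 * η⁻¹ ^ 2 * A ^ u)) ^ (1 / (1 - 3 * t))
      = D ^ (1 / (1 - 3 * t)) * (η ^ (1 - 6 / p) * A ^ (2 / p)) := by
    have e5 : 2 * (C * C₁ ^ 2 * η⁻¹ ^ 2 * A ^ u) = D * (η ^ (-2 : ℝ) * A ^ u) := by
      rw [hD, Real.rpow_neg hη.le]
      norm_num
      ring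
    rw [e5, Real.mul_rpow hD0 (by positivity), Real.mul_rpow (by positivity) hAu, ← Real.rpow_mul hη.le,
      ← Real.rpow_mul hA0, e2, e3]
  rw [e4] at a6
  have hE : 0 ≤ η ^ (1 - 6 / p) * A ^ (2 / p) := by positivity
  have hDp : 0 ≤ D ^ (1 / (1 - 3 * t)) := Real.rpow_nonneg hD0 _
  have hS0 : 0 ≤ ∫ x in S, sq V x ^ 3 := integral_nonneg fun x => pow_nonneg (sq_nonneg' _ x) 3
  calc (∫ x in S, sq V x ^ 3) ^ (1 / 3 : ℝ) ≤ Y ^ (1 / 3 : ℝ) := by gcongr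
    _ ≤ 2 * (C * Ω) + D ^ (1 / (1 - 3 * t)) * (η ^ (1 - 6 / p) * A ^ (2 / p)) := a6
    _ ≤ (2 * C + D ^ (1 / (1 - 3 * t))) * (Ω + η ^ (1 - 6 / p) * A ^ (2 / p)) := by
        nlinarith [mul_nonneg hC.le hE, mul_nonneg hDp hΩ0]

theorem pow_five {η : ℝ} (hη : 0 < η) : η ^ (1 - 6 / 1 : ℝ) = η⁻¹ ^ 5 := by
  rw [show (1 - 6 / 1 : ℝ) = -((5 : ℕ) : ℝ) by norm_num, Real.rpow_neg hη.le, Real.rpow_natCast, inv_pow]

theorem sq_one (A : ℝ) : A ^ (2 / 1 : ℝ) = A ^ 2 := by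
  rw [show (2 / 1 : ℝ) = ((2 : ℕ) : ℝ) by norm_num, Real.rpow_natCast]

end LocOne

/-- Sobolev inequality on shells, `p = 1` -/
theorem shell_sobolev_one : ∃ C : ℝ, 0 < C ∧ ∀ (V : VF) (r s η : ℝ),
    (∀ i, ContDiff ℝ 3 (V i)) → (∀ x, dv V x = 0) → 0 < η → 2 * η ≤ r → r ≤ s →
    (∫ x in Sh r s, sq V x ^ 3) ^ (1 / 3 : ℝ) ≤
      C * ((∫ x in Sh (r - η) (s + η), sq (curl V) x)
        + η⁻¹ ^ 5 * (∫ x in Sh (r - η) (s + η), nm V x) ^ 2) := by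
  obtain ⟨C₁, hC₁, hcut⟩ := exists_shell_cutoff
  obtain ⟨C, hC, h⟩ := LocOne.localised_p 1 le_rfl (by norm_num) C₁
  refine ⟨C, hC, fun V r s η hV hd hη hr hs => ?_⟩
  obtain ⟨ζ, hζ, hc, h0, hle, hone, hz, hb⟩ := hcut r s η hη hr hs
  have h1 := h V ζ η (Sh r s) (Sh (r - η) (s + η)) hV hd hζ hc hη hb h0 hle (measurableSet_Sh _ _) hone
    (measurableSet_Sh _ _) hz fun f hf => hf.continuousOn.integrableOn_compact (isCompact_Sh _ _)
  rw [LocOne.pow_five hη, LocOne.sq_one] at h1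
  simpa only [Real.rpow_one] using h1

theorem ball_sobolev_one : ∃ C : ℝ, 0 < C ∧ ∀ (V : VF) (r η : ℝ),
    (∀ i, ContDiff ℝ 3 (V i)) → (∀ x, dv V x = 0) → 0 < η → η ≤ r →
    (∫ x in Metric.ball (0 : E) r, sq V x ^ 3) ^ (1 / 3 : ℝ) ≤
      C * (W V (r + η)
        + (r / η) ^ 3 * η⁻¹ ^ 5 * (∫ x in Metric.ball (0 : E) (r + η), nm V x) ^ 2) := by
  obtain ⟨C₁, hC₁, hcut⟩ := exists_cutoff
  have hloc : ∀ (R : ℝ) (f : E → ℝ), Continuous f → IntegrableOn f (Metric.ball (0 : E) R) := fun R f hf =>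
    (hf.continuousOn.integrableOn_compact (isCompact_closedBall (0 : E) R)).mono_set Metric.ball_subset_closedBall
  have hzz : ∀ (ζ : E → ℝ) (R : ℝ), (∀ x, R ≤ ‖x‖ → ζ x = 0) → ∀ x, x ∉ Metric.ball (0 : E) R → ζ x = 0 := by
    intro ζ R hz x hx
    apply hz
    simpa using hx
  obtain ⟨C, hC, h⟩ := LocOne.localised_p 1 le_rfl (by norm_num) C₁
  refine ⟨C, hC, fun V r η hV hd hη hr => ?_⟩
  obtain ⟨ζ, hζ, hc, h0, hle, hone, hz, hb, -⟩ := hcut r η hη hr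
  have h4 := h V ζ η (Metric.ball 0 r) (Metric.ball 0 (r + η)) hV hd hζ hc hη hb h0 hle measurableSet_ball
    (fun x hx => hone x (by simpa using (Metric.mem_ball.mp hx).le))
    measurableSet_ball (hzz ζ _ hz) (hloc _)
  rw [LocOne.pow_five hη, LocOne.sq_one] at h4
  simp only [Real.rpow_one] at h4
  refine h4.trans ?_
  have hq : 1 ≤ (r / η) ^ 3 := one_le_pow₀ (by rw [one_le_div hη]; exact hr)
  have hA : 0 ≤ η⁻¹ ^ 5 * (∫ x in Metric.ball (0 : E) (r + η), nm V x) ^ 2 := by positivity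
  apply mul_le_mul_of_nonneg_left _ hC.le
  have : (r / η) ^ 3 * η⁻¹ ^ 5 * (∫ x in Metric.ball (0 : E) (r + η), nm V x) ^ 2
      = (r / η) ^ 3 * (η⁻¹ ^ 5 * (∫ x in Metric.ball (0 : E) (r + η), nm V x) ^ 2) := by ring
  rw [this]
  unfold W
  nlinarith

end Leray
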