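import Pool.Agent.Lib.MP_9b9638_an.OneDefs
import Pool.Agent.Lib.MP_9b9638_an.Shell2

/-!
# The mid-range Riesz potential
-/

open MeasureTheory Set Filter Topology

noncomputable section
namespace Leray

theorem continuous_Pm {V : VF} (hV : ∀ i, Continuous (V i)) {η : ℝ} (hη : 0 < η) (a b : ℝ) :
    Continuous (Pm V η a b) := by
  have hv : Continuous (nm V) := continuous_nm hV
  have h : Continuous (fun p : E × E => nm V p.2 * (max ‖p.1 - p.2‖ η)⁻¹ ^ 2) := by
    refine (hv.comp continuous_snd).mul (Continuous.pow (Continuous.inv₀ ?_ ?_) 2)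
    · exact ((continuous_fst.sub continuous_snd).norm).max continuous_const
    · intro p
      have : η ≤ max ‖p.1 - p.2‖ η := le_max_right _ _
      intro h0
      rw [h0] at this
      linarith
  exact continuous_parametric_integral_of_continuous (μ := (volume : Measure E))
    (f := fun x y => nm V y * (max ‖x - y‖ η)⁻¹ ^ 2) h (isCompact_Sh a b)

theorem Pf_le_Pm {V : VF} (hV : ∀ i, Continuous (V i)) (hi : Integrable (nm V)) {R η δ : ℝ} (hη : 0 < η)
    (hηδ : η ≤ δ) {x : E} (hx : x ∈ Sh R (R + 2 * δ)) :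
    Pf V η x ≤ Pm V η (R - δ) (R + 3 * δ) x + δ⁻¹ ^ 2 * ∫ y, nm V y := by
  have hv : Continuous (nm V) := continuous_nm hV
  have hδ : 0 < δ := lt_of_lt_of_le hη hηδ
  have hmS : MeasurableSet {y : E | η ≤ ‖x - y‖} :=
    (isClosed_le continuous_const (continuous_const.sub continuous_id).norm).measurableSet
  have hk : Continuous (fun y : E => nm V y * (max ‖x - y‖ η)⁻¹ ^ 2) := by
    refine hv.mul (Continuous.pow (Continuous.inv₀ ?_ ?_) 2)
    · exact ((continuous_const.sub continuous_id).norm).max continuous_const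
    · intro p
      have : η ≤ max ‖x - p‖ η := le_max_right _ _
      intro h0
      rw [h0] at this
      linarith
  have hk0 : ∀ y : E, 0 ≤ nm V y * (max ‖x - y‖ η)⁻¹ ^ 2 := fun y =>
    mul_nonneg (nm_nonneg V y) (by positivity)
  have i1 : Integrable ((Sh (R - δ) (R + 3 * δ)).indicator
      fun y : E => nm V y * (max ‖x - y‖ η)⁻¹ ^ 2) :=
    (integrable_indicator_iff (measurableSet_Sh _ _)).mpr
      (hk.continuousOn.integrableOn_compact (isCompact_Sh _ _))
  have i2 : Integrable (fun y : E => δ⁻¹ ^ 2 * nm V y) := hi.const_mul _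
  have hpt : ∀ y : E, ({y : E | η ≤ ‖x - y‖}.indicator (fun y => nm V y / ‖x - y‖ ^ 2)) y ≤
      (Sh (R - δ) (R + 3 * δ)).indicator (fun y : E => nm V y * (max ‖x - y‖ η)⁻¹ ^ 2) y
        + δ⁻¹ ^ 2 * nm V y := by
    intro y
    have n1 : 0 ≤ (Sh (R - δ) (R + 3 * δ)).indicator
        (fun y : E => nm V y * (max ‖x - y‖ η)⁻¹ ^ 2) y := indicator_nonneg (fun y _ => hk0 y) y
    have n2 : 0 ≤ δ⁻¹ ^ 2 * nm V y := mul_nonneg (by positivity) (nm_nonneg V y)
    by_cases h1 : η ≤ ‖x - y‖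
    · rw [indicator_of_mem (show y ∈ {y : E | η ≤ ‖x - y‖} from h1)]
      by_cases h2 : ‖x - y‖ ≤ δ
      · have h3 : y ∈ Sh (R - δ) (R + 3 * δ) := by
          have h4 : ‖x‖ ≤ ‖y‖ + ‖x - y‖ := by
            have := norm_add_le y (x - y)
            simpa using this
          have h5 : ‖y‖ ≤ ‖x‖ + ‖x - y‖ := by
            have := norm_sub_le x (x - y)
            simpa using this
          exact ⟨by linarith [hx.1], by linarith [hx.2]⟩
        rw [indicator_of_mem h3]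
        have h4 : max ‖x - y‖ η = ‖x - y‖ := max_eq_left h1
        simp only [h4]
        rw [inv_pow, ← div_eq_mul_inv]
        linarith
      · push Not at h2
        have h3 : nm V y / ‖x - y‖ ^ 2 ≤ δ⁻¹ ^ 2 * nm V y := by
          rw [inv_pow, mul_comm, ← div_eq_mul_inv]
          have := nm_nonneg V y
          gcongr
        linarith
    · rw [indicator_of_notMem (show y ∉ {y : E | η ≤ ‖x - y‖} from h1)]
      linarith
  unfold Pf Pm
  rw [← integral_indicator hmS, ← integral_indicator (measurableSet_Sh _ _), ← integral_const_mul,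
    ← integral_add i1 i2]
  refine integral_mono_of_nonneg (Eventually.of_forall fun y => ?_) (i1.add i2)
    (Eventually.of_forall hpt)
  exact indicator_nonneg (fun y _ => div_nonneg (nm_nonneg V y) (by positivity)) y

namespace OneC1

/-- Cauchy-Schwarz with weights -/
theorem cs {K : Set E} (hK : IsCompact K) {v a b : E → ℝ} (hv : Continuous v) (ha : Continuous a)
    (hb : Continuous b) (v0 : ∀ y, 0 ≤ v y) (a0 : ∀ y, 0 ≤ a y) (b0 : ∀ y, 0 < b y) :
    (∫ y in K, v y * a y) ^ 2 ≤ (∫ y in K, v y * b y) * ∫ y in K, v y * (a y ^ 2 / b y) := by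
  have iA : IntegrableOn (fun y => v y * a y) K := (hv.mul ha).continuousOn.integrableOn_compact hK
  have iB : IntegrableOn (fun y => v y * b y) K := (hv.mul hb).continuousOn.integrableOn_compact hK
  have iC : IntegrableOn (fun y => v y * (a y ^ 2 / b y)) K :=
    (hv.mul ((ha.pow 2).div hb fun y => (b0 y).ne')).continuousOn.integrableOn_compact hK
  set A := ∫ y in K, v y * a y with hA
  set B := ∫ y in K, v y * b y with hB
  set C := ∫ y in K, v y * (a y ^ 2 / b y) with hC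
  have nA : 0 ≤ A := integral_nonneg fun y => mul_nonneg (v0 y) (a0 y)
  have nB : 0 ≤ B := integral_nonneg fun y => mul_nonneg (v0 y) (b0 y).le
  have nC : 0 ≤ C := integral_nonneg fun y =>
    mul_nonneg (v0 y) (div_nonneg (sq_nonneg _) (b0 y).le)
  have key : ∀ t : ℝ, 2 * t * A ≤ t ^ 2 * B + C := by
    intro t
    have h1 : t ^ 2 * B + C = ∫ y in K, (t ^ 2 * (v y * b y) + v y * (a y ^ 2 / b y)) := by
      rw [integral_add (iB.const_mul _) iC, integral_const_mul]
    have h2 : 2 * t * A = ∫ y in K, 2 * t * (v y * a y) := by rw [integral_const_mul]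
    rw [h1, h2]
    refine integral_mono (iA.const_mul _) ((iB.const_mul _).add iC) fun y => ?_
    show 2 * t * (v y * a y) ≤ t ^ 2 * (v y * b y) + v y * (a y ^ 2 / b y)
    have h3 : 0 ≤ v y * ((t * b y - a y) ^ 2 / b y) :=
      mul_nonneg (v0 y) (div_nonneg (sq_nonneg _) (b0 y).le)
    have h4 : v y * ((t * b y - a y) ^ 2 / b y) =
        t ^ 2 * (v y * b y) + v y * (a y ^ 2 / b y) - 2 * t * (v y * a y) := by
      have := (b0 y).ne'
      field_simp
      ring
    linarith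
  rcases nB.eq_or_lt with h0 | hpos
  · have h1 : A = 0 := by
      by_contra hne
      have hp : 0 < A := lt_of_le_of_ne nA (Ne.symm hne)
      have h2 := key ((C + 1) / A)
      rw [← h0] at h2
      have h3 : 2 * ((C + 1) / A) * A = 2 * (C + 1) := by field_simp
      rw [h3] at h2
      linarith
    rw [h1, ← h0]; simp
  · have h2 := key (A / B)
    have h3 : 2 * (A / B) * A = 2 * (A ^ 2 / B) := by ring
    have h4 : (A / B) ^ 2 * B = A ^ 2 / B := by field_simp
    rw [h3, h4] at h2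
    have h5 : A ^ 2 / B ≤ C := by linarith
    rw [div_le_iff₀ hpos] at h5
    linarith

theorem weight_le {x y : E} {r η : ℝ} (hη : 0 < η) (hx : x ∈ Sh r (r + η)) :
    max |‖y‖ - r| η ≤ 2 * max ‖x - y‖ η := by
  have h1 : |‖y‖ - ‖x‖| ≤ ‖x - y‖ := by
    rw [abs_sub_comm]
    exact abs_norm_sub_norm_le x y
  have h2 : |‖x‖ - r| ≤ η := by
    rw [abs_le]; exact ⟨by linarith [hx.1], by linarith [hx.2]⟩
  have h3 : |‖y‖ - r| ≤ ‖x - y‖ + η := by
    calc |‖y‖ - r| = |(‖y‖ - ‖x‖) + (‖x‖ - r)| := by congr 1; ring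
      _ ≤ |‖y‖ - ‖x‖| + |‖x‖ - r| := abs_add_le _ _
      _ ≤ _ := add_le_add h1 h2
  have h4 := le_max_left ‖x - y‖ η
  have h5 := le_max_right ‖x - y‖ η
  exact max_le (by linarith) (by linarith)

theorem continuous_g (r η : ℝ) : Continuous (fun y : E => max |‖y‖ - r| η) :=
  ((continuous_norm.sub continuous_const).abs).max continuous_const

theorem continuous_m (x : E) (η : ℝ) : Continuous (fun y : E => max ‖x - y‖ η) :=
  ((continuous_const.sub continuous_id).norm).max continuous_const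

theorem cont_rpow {f : E → ℝ} (hf : Continuous f) (h0 : ∀ y, 0 < f y) (s : ℝ) :
    Continuous (fun y => f y ^ s) :=
  hf.rpow_const fun y => Or.inl (h0 y).ne'

end OneC1

open OneC1

theorem Pm_two_le {V : VF} (hV : ∀ i, Continuous (V i)) {η a b r : ℝ} (hη : 0 < η) {x : E}
    (hx : x ∈ Sh r (r + η)) : Pm V η a b x ^ 2 ≤ 2 * Gm V (1 / 2) η a b r * Hm V η a b x := by
  have hv : Continuous (nm V) := continuous_nm hV
  have m0 : ∀ y : E, 0 < max ‖x - y‖ η := fun y => lt_of_lt_of_le hη (le_max_right _ _)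
  have g0 : ∀ y : E, 0 < max |‖y‖ - r| η := fun y => lt_of_lt_of_le hη (le_max_right _ _)
  have cm := continuous_m x η
  have cg := continuous_g r η
  have ca : Continuous (fun y : E => (max ‖x - y‖ η)⁻¹ ^ 2) :=
    (cm.inv₀ fun y => (m0 y).ne').pow 2
  have cb : Continuous (fun y : E => (max |‖y‖ - r| η) ^ (-(1 / 2) : ℝ)) := cont_rpow cg g0 _
  have h1 := cs (isCompact_Sh a b) hv ca cb (nm_nonneg V) (fun y => by positivity)
    (fun y => Real.rpow_pos_of_pos (g0 y) _)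
  have hG : 0 ≤ Gm V (1 / 2) η a b r := integral_nonneg fun y =>
    mul_nonneg (nm_nonneg V y) (Real.rpow_nonneg (g0 y).le _)
  have h2 : (∫ y in Sh a b, nm V y * (((max ‖x - y‖ η)⁻¹ ^ 2) ^ 2 / (max |‖y‖ - r| η) ^ (-(1 / 2) : ℝ))) ≤
      2 * Hm V η a b x := by
    unfold Hm
    rw [← integral_const_mul]
    refine setIntegral_mono_on ?_ ?_ (measurableSet_Sh _ _) fun y _ => ?_
    · exact (hv.mul ((ca.pow 2).div cb fun y => (Real.rpow_pos_of_pos (g0 y) _).ne')).continuousOn.integrableOn_compact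
        (isCompact_Sh _ _)
    · exact (continuous_const.mul (hv.mul (cont_rpow cm m0 _))).continuousOn.integrableOn_compact
        (isCompact_Sh _ _)
    · have hm := m0 y
      have hg := g0 y
      have hle := weight_le (y := y) hη hx
      set m := max ‖x - y‖ η with hmdef
      set g := max |‖y‖ - r| η with hgdef
      have e1 : (m⁻¹ ^ 2) ^ 2 / g ^ (-(1 / 2) : ℝ) = m ^ (-4 : ℝ) * g ^ (1 / 2 : ℝ) := by
        rw [Real.rpow_neg hg.le, div_inv_eq_mul]
        congr 1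
        rw [← pow_mul, inv_pow, Real.rpow_neg hm.le]
        norm_num
      rw [e1]
      have e2 : g ^ (1 / 2 : ℝ) ≤ 2 * m ^ (1 / 2 : ℝ) := by
        calc g ^ (1 / 2 : ℝ) ≤ (2 * m) ^ (1 / 2 : ℝ) := Real.rpow_le_rpow hg.le hle (by norm_num)
          _ = (2 : ℝ) ^ (1 / 2 : ℝ) * m ^ (1 / 2 : ℝ) := Real.mul_rpow (by norm_num) hm.le
          _ ≤ 2 * m ^ (1 / 2 : ℝ) := by
              have : (2 : ℝ) ^ (1 / 2 : ℝ) ≤ 2 ^ (1 : ℝ) :=
                Real.rpow_le_rpow_of_exponent_le (by norm_num) (by norm_num)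
              rw [Real.rpow_one] at this
              gcongr
      have e3 : m ^ (-4 : ℝ) * m ^ (1 / 2 : ℝ) = m ^ (-(7 / 2) : ℝ) := by
        rw [← Real.rpow_add hm]; norm_num
      have n1 : 0 ≤ m ^ (-4 : ℝ) := Real.rpow_nonneg hm.le _
      have n2 := nm_nonneg V y
      calc nm V y * (m ^ (-4 : ℝ) * g ^ (1 / 2 : ℝ))
          ≤ nm V y * (m ^ (-4 : ℝ) * (2 * m ^ (1 / 2 : ℝ))) := by gcongr
        _ = 2 * (nm V y * (m ^ (-4 : ℝ) * m ^ (1 / 2 : ℝ))) := by ring
        _ = _ := by rw [e3]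
  calc Pm V η a b x ^ 2 ≤ Gm V (1 / 2) η a b r *
      ∫ y in Sh a b, nm V y * (((max ‖x - y‖ η)⁻¹ ^ 2) ^ 2 / (max |‖y‖ - r| η) ^ (-(1 / 2) : ℝ)) := h1
    _ ≤ Gm V (1 / 2) η a b r * (2 * Hm V η a b x) := by gcongr
    _ = _ := by ring

theorem Pm_four_le {V : VF} (hV : ∀ i, Continuous (V i)) {η a b r : ℝ} (hη : 0 < η) {x : E}
    (hx : x ∈ Sh r (r + η)) : Pm V η a b x ^ 4 ≤ 32 * Gm V (3 / 2) η a b r ^ 3 * Hm V η a b x := by
  have hv : Continuous (nm V) := continuous_nm hV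
  have m0 : ∀ y : E, 0 < max ‖x - y‖ η := fun y => lt_of_lt_of_le hη (le_max_right _ _)
  have g0 : ∀ y : E, 0 < max |‖y‖ - r| η := fun y => lt_of_lt_of_le hη (le_max_right _ _)
  have cm := continuous_m x η
  have cg := continuous_g r η
  have ca : Continuous (fun y : E => (max ‖x - y‖ η)⁻¹ ^ 2) :=
    (cm.inv₀ fun y => (m0 y).ne').pow 2
  have cb : Continuous (fun y : E => (max |‖y‖ - r| η) ^ (-(3 / 2) : ℝ)) := cont_rpow cg g0 _
  have b0 : ∀ y : E, 0 < (max |‖y‖ - r| η) ^ (-(3 / 2) : ℝ) := fun y =>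
    Real.rpow_pos_of_pos (g0 y) _
  have cc : Continuous (fun y : E => ((max ‖x - y‖ η)⁻¹ ^ 2) ^ 2 / (max |‖y‖ - r| η) ^ (-(3 / 2) : ℝ)) :=
    (ca.pow 2).div cb fun y => (b0 y).ne'
  have h1 := cs (isCompact_Sh a b) hv ca cb (nm_nonneg V) (fun y => by positivity) b0
  have h2 := cs (isCompact_Sh a b) hv cc cb (nm_nonneg V)
    (fun y => div_nonneg (by positivity) (b0 y).le) b0
  have hG : 0 ≤ Gm V (3 / 2) η a b r := integral_nonneg fun y =>
    mul_nonneg (nm_nonneg V y) (Real.rpow_nonneg (g0 y).le _)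
  have h3 : (∫ y in Sh a b, nm V y * ((((max ‖x - y‖ η)⁻¹ ^ 2) ^ 2 / (max |‖y‖ - r| η) ^ (-(3 / 2) : ℝ)) ^ 2
      / (max |‖y‖ - r| η) ^ (-(3 / 2) : ℝ))) ≤ 32 * Hm V η a b x := by
    unfold Hm
    rw [← integral_const_mul]
    refine setIntegral_mono_on ?_ ?_ (measurableSet_Sh _ _) fun y _ => ?_
    · exact (hv.mul ((cc.pow 2).div cb fun y => (b0 y).ne')).continuousOn.integrableOn_compact
        (isCompact_Sh _ _)
    · exact (continuous_const.mul (hv.mul (cont_rpow cm m0 _))).continuousOn.integrableOn_compact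
        (isCompact_Sh _ _)
    · have hm := m0 y
      have hg := g0 y
      have hle := weight_le (y := y) hη hx
      set m := max ‖x - y‖ η with hmdef
      set g := max |‖y‖ - r| η with hgdef
      have e1 : ((m⁻¹ ^ 2) ^ 2 / g ^ (-(3 / 2) : ℝ)) ^ 2 / g ^ (-(3 / 2) : ℝ) =
          m ^ (-8 : ℝ) * g ^ (9 / 2 : ℝ) := by
        rw [Real.rpow_neg hg.le, div_inv_eq_mul, div_inv_eq_mul, mul_pow, mul_assoc]
        have k1 : ((m⁻¹ ^ 2) ^ 2) ^ 2 = m ^ (-8 : ℝ) := by
          rw [← pow_mul, ← pow_mul, inv_pow, Real.rpow_neg hm.le]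
          norm_num
        have k2 : (g ^ (3 / 2 : ℝ)) ^ 2 * g ^ (3 / 2 : ℝ) = g ^ (9 / 2 : ℝ) := by
          rw [← Real.rpow_natCast, ← Real.rpow_mul hg.le, ← Real.rpow_add hg]
          norm_num
        rw [k1, k2]
      rw [e1]
      have e2 : g ^ (9 / 2 : ℝ) ≤ 32 * m ^ (9 / 2 : ℝ) := by
        calc g ^ (9 / 2 : ℝ) ≤ (2 * m) ^ (9 / 2 : ℝ) := Real.rpow_le_rpow hg.le hle (by norm_num)
          _ = (2 : ℝ) ^ (9 / 2 : ℝ) * m ^ (9 / 2 : ℝ) := Real.mul_rpow (by norm_num) hm.le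
          _ ≤ 32 * m ^ (9 / 2 : ℝ) := by
              have : (2 : ℝ) ^ (9 / 2 : ℝ) ≤ 2 ^ (5 : ℝ) :=
                Real.rpow_le_rpow_of_exponent_le (by norm_num) (by norm_num)
              have h32 : (2 : ℝ) ^ (5 : ℝ) = 32 := by norm_num
              rw [h32] at this
              gcongr
      have e3 : m ^ (-8 : ℝ) * m ^ (9 / 2 : ℝ) = m ^ (-(7 / 2) : ℝ) := by
        rw [← Real.rpow_add hm]; norm_num
      have n1 : 0 ≤ m ^ (-8 : ℝ) := Real.rpow_nonneg hm.le _
      have n2 := nm_nonneg V y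
      calc nm V y * (m ^ (-8 : ℝ) * g ^ (9 / 2 : ℝ))
          ≤ nm V y * (m ^ (-8 : ℝ) * (32 * m ^ (9 / 2 : ℝ))) := by gcongr
        _ = 32 * (nm V y * (m ^ (-8 : ℝ) * m ^ (9 / 2 : ℝ))) := by ring
        _ = _ := by rw [e3]
  set G := Gm V (3 / 2) η a b r with hGdef
  set Q := ∫ y in Sh a b, nm V y * (((max ‖x - y‖ η)⁻¹ ^ 2) ^ 2 / (max |‖y‖ - r| η) ^ (-(3 / 2) : ℝ))
    with hQ
  have hQ0 : 0 ≤ Q := integral_nonneg fun y =>
    mul_nonneg (nm_nonneg V y) (div_nonneg (by positivity) (b0 y).le)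
  have h1' : Pm V η a b x ^ 2 ≤ G * Q := h1
  have h2' : Q ^ 2 ≤ G * (32 * Hm V η a b x) := h2.trans (by
    show G * _ ≤ G * _
    gcongr)
  calc Pm V η a b x ^ 4 = (Pm V η a b x ^ 2) ^ 2 := by ring
    _ ≤ (G * Q) ^ 2 := by gcongr
    _ = G ^ 2 * Q ^ 2 := by ring
    _ ≤ G ^ 2 * (G * (32 * Hm V η a b x)) := by gcongr
    _ = _ := by ring

end Leray
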