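import Pool.Agent.Lib.MP_9b9638_an.OneD4

/-!
# The case `p = 1`: the main estimate
-/

open MeasureTheory Set Filter Topology TopologicalSpace

noncomputable section

namespace Leray

namespace Cfg1

variable {V : VF} {C0 Cw : ℝ}

/-- the terms of the energy inequality -/
theorem terms {ν a : ℝ} (hν : 0 < ν) (ha : 0 < a) (hV : SmoothProfile ν a V) (hi : Integrable (nm V))
    (hC0 : 0 < C0) :
    ∃ C Cn : ℝ, 0 < C ∧ 0 < Cn ∧ ∀ c : Cfg1 V C0 Cw, W V c.R ≤ C * (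
      (c.η⁻¹ * (c.w ^ (1 / 2 : ℝ) * c.M ^ (1 / 2 : ℝ))
      + C0 * (Cn * (c.η⁻¹ * (c.w ^ (1 / 2 : ℝ) * c.M ^ (1 / 2 : ℝ)))
          + c.η⁻¹ ^ (2 : ℝ) * (c.w ^ (1 / 2 : ℝ) * c.P2 ^ (1 / 2 : ℝ))
          + c.w ^ (1 / 2 : ℝ) * (c.η⁻¹ ^ (2 : ℝ) * F0 V c * c.vs))
      + c.η⁻¹ * (c.w ^ (1 / 2 : ℝ) * c.Ns ^ (1 / 2 : ℝ))
      + C0 * (c.η⁻¹ * F0 V c * (c.w ^ (1 / 2 : ℝ) * c.M ^ (1 / 2 : ℝ)))
      + c.Mt
      + c.r * c.η⁻¹ * c.M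
      + C0 * (Cn * (c.r * c.η⁻¹ * c.M) + c.r * c.η⁻¹ ^ (2 : ℝ) * (c.M ^ (1 / 2 : ℝ) * c.P2 ^ (1 / 2 : ℝ))
          + c.r * c.η⁻¹ ^ (2 : ℝ) * F0 V c * c.vs * c.M ^ (1 / 2 : ℝ))
      + c.r * c.η⁻¹ * (c.M ^ (1 / 2 : ℝ) * c.Ns ^ (1 / 2 : ℝ))
      + 1)
      + C0 * (Cn * (c.w ^ (1 / 2 : ℝ) * c.L4 ^ (1 / 2 : ℝ))
          + c.η⁻¹ * (c.w ^ (1 / 2 : ℝ) * (c.L4 ^ (1 / 4 : ℝ) * c.P4 ^ (1 / 4 : ℝ))))) := by
  obtain ⟨C, hC, hen⟩ := energy_shell ν a hν ha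
  obtain ⟨Cn, hCn, hpt⟩ := psi_terms_one
  refine ⟨C, Cn, hC, hCn, fun c => ?_⟩
  have hV1 : ∀ i, ContDiff ℝ 1 (V i) := fun i => (hV.smooth i).of_le (by norm_num)
  have cV : ∀ i, Continuous (V i) := fun i => (hV1 i).continuous
  have cω : ∀ i, Continuous (curl V i) := continuous_curl hV1
  have hΨ1 : ∀ i, ContDiff ℝ 1 (c.Ψ i) := fun i => (c.hΨC i).of_le (by norm_num)
  have cΨ : ∀ i, Continuous (c.Ψ i) := fun i => (hΨ1 i).continuous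
  have cnV := continuous_nm cV
  have cnω := continuous_nm cω
  have csV := continuous_sq cV
  have cgΨ := continuous_gnm hΨ1
  have hη := c.hη0
  have hηi := inv_pos.2 hη
  have hδ := c.hδ
  have h16 := c.δ_lt
  have hr := c.r_pos
  have hr1 := c.hr1
  have hr2 := c.hr2
  have hR := c.hR
  have hS := Sh_sub c.r (c.r + c.η)
  have hm := measurableSet_Sh c.r (c.r + c.η)
  have hF0 := F0_nonneg c
  have e2 : c.η⁻¹ ^ (2 : ℝ) = c.η⁻¹ ^ 2 := by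
    rw [show (2 : ℝ) = ((2 : ℕ) : ℝ) by norm_num, Real.rpow_natCast]
  rw [e2]
  -- monotonicity
  have hSub : Sh c.r (c.r + c.η) ⊆ Sh (c.r - c.η) (c.r + 2 * c.η) := Sh_subset (by linarith) (by linarith)
  have hSubw : Sh c.r (c.r + c.η) ⊆ Sh (c.r - 3 * c.η) (c.r + 4 * c.η) := Sh_subset (by linarith) (by linarith)
  have hws : ∫ y in Sh c.r (c.r + c.η), sq (curl V) y ≤ c.w := set_mono hSubw (Sh_sub _ _) (continuous_sq cω) (fun _ => sq_nonneg' _ _)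
  have hMs : ∫ y in Sh c.r (c.r + c.η), sq V y ≤ c.M := set_mono hSub (Sh_sub _ _) csV (fun _ => sq_nonneg' _ _)
  have hws0 : 0 ≤ ∫ y in Sh c.r (c.r + c.η), sq (curl V) y := setInt_nonneg hm fun _ => sq_nonneg' _ _
  have hMs0 : 0 ≤ ∫ y in Sh c.r (c.r + c.η), sq V y := setInt_nonneg hm fun _ => sq_nonneg' _ _
  have hws' : (∫ y in Sh c.r (c.r + c.η), sq (curl V) y) ^ (1 / 2 : ℝ) ≤ c.w ^ (1 / 2 : ℝ) := Real.rpow_le_rpow hws0 hws (by norm_num)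
  have hMs' : (∫ y in Sh c.r (c.r + c.η), sq V y) ^ (1 / 2 : ℝ) ≤ c.M ^ (1 / 2 : ℝ) := Real.rpow_le_rpow hMs0 hMs (by norm_num)
  have w0 : 0 ≤ c.w ^ (1 / 2 : ℝ) := Real.rpow_nonneg c.w_nonneg _
  have M0 : 0 ≤ c.M ^ (1 / 2 : ℝ) := Real.rpow_nonneg c.M_nonneg _
  have N0 : 0 ≤ c.Ns ^ (1 / 2 : ℝ) := Real.rpow_nonneg c.Ns_nonneg _
  have L0 : 0 ≤ c.L4 ^ (1 / 2 : ℝ) := Real.rpow_nonneg c.L4_nonneg _
  have L40 : 0 ≤ c.L4 ^ (1 / 4 : ℝ) := Real.rpow_nonneg c.L4_nonneg _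
  have P20 : 0 ≤ c.P2 ^ (1 / 2 : ℝ) := Real.rpow_nonneg c.P2_nonneg _
  have P40 : 0 ≤ c.P4 ^ (1 / 4 : ℝ) := Real.rpow_nonneg c.P4_nonneg _
  have vs0 := c.vs_nonneg
  -- energy inequality
  have h := hen V c.Ψ c.r c.η c.ε hV c.hΨC (by linarith) hη (by linarith [c.η_le_r]) c.hε
    (fun x hx => c.hΨe x (by linarith)) (fun x hx => c.hΨc x (by linarith))
  obtain ⟨p1, p2, p3⟩ := hpt V c.Ψ c.PP c.r c.η C0 (F0 V c) hV.smooth cΨ (continuous_Pm cV hη _ _) c.PP_nonneg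
    hη hr hC0.le hF0 (fun y hy => psi_bound cV hi hC0 c hy)
  have hWR : W V c.R ≤ W V c.r := set_mono (Metric.ball_subset_ball hr1) (ball_sub' _) (continuous_sq cω)
    (fun _ => sq_nonneg' _ _)
  refine hWR.trans (h.trans ?_)
  apply mul_le_mul_of_nonneg_left _ hC.le
  -- the nine terms
  have t1 : c.η⁻¹ * (∫ x in Sh c.r (c.r + c.η), nm (curl V) x * nm V x) ≤ c.η⁻¹ * (c.w ^ (1 / 2 : ℝ) * c.M ^ (1 / 2 : ℝ)) := by
    apply mul_le_mul_of_nonneg_left _ hηi.le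
    have h := cs_set hS cnω cnV (nm_nonneg _) (nm_nonneg _)
    simp only [nm_sq] at h
    exact h.trans (mul_le_mul hws' hMs' (Real.rpow_nonneg hMs0 _) w0)
  have t2 : c.η⁻¹ ^ 2 * (∫ x in Sh c.r (c.r + c.η), nm (curl V) x * nm c.Ψ x) ≤
      C0 * (Cn * (c.η⁻¹ * (c.w ^ (1 / 2 : ℝ) * c.M ^ (1 / 2 : ℝ)))
        + c.η⁻¹ ^ 2 * (c.w ^ (1 / 2 : ℝ) * c.P2 ^ (1 / 2 : ℝ))
        + c.w ^ (1 / 2 : ℝ) * (c.η⁻¹ ^ 2 * F0 V c * c.vs)) := by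
    have h2 : (∫ x in Sh c.r (c.r + c.η), nm (curl V) x * nm c.Ψ x) ≤
        C0 * (c.w ^ (1 / 2 : ℝ) * (Cn * c.η * c.M ^ (1 / 2 : ℝ)) + c.w ^ (1 / 2 : ℝ) * c.P2 ^ (1 / 2 : ℝ)
          + F0 V c * (c.w ^ (1 / 2 : ℝ) * c.vs)) := by
      refine p1.trans ?_
      unfold M vs P2
      gcongr
    calc _ ≤ c.η⁻¹ ^ 2 * (C0 * (c.w ^ (1 / 2 : ℝ) * (Cn * c.η * c.M ^ (1 / 2 : ℝ)) + c.w ^ (1 / 2 : ℝ) * c.P2 ^ (1 / 2 : ℝ)
          + F0 V c * (c.w ^ (1 / 2 : ℝ) * c.vs))) :=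
          mul_le_mul_of_nonneg_left h2 (by positivity)
      _ = _ := by have := hη.ne'; field_simp
  have t3 : c.η⁻¹ * (∫ x in Sh c.r (c.r + c.η), nm (curl V) x * gnm c.Ψ x) ≤ c.η⁻¹ * (c.w ^ (1 / 2 : ℝ) * c.Ns ^ (1 / 2 : ℝ)) := by
    apply mul_le_mul_of_nonneg_left _ hηi.le
    have h := cs_set hS cnω cgΨ (nm_nonneg _) (gnm_nonneg _)
    simp only [nm_sq, gnm_sq] at h
    exact h.trans (mul_le_mul_of_nonneg_right hws' N0)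
  have t4 : c.η⁻¹ * (∫ x in Sh c.r (c.r + c.η), nm (curl V) x * nm V x * nm c.Ψ x) ≤
      C0 * (c.η⁻¹ * F0 V c * (c.w ^ (1 / 2 : ℝ) * c.M ^ (1 / 2 : ℝ))) +
      C0 * (Cn * (c.w ^ (1 / 2 : ℝ) * c.L4 ^ (1 / 2 : ℝ))
          + c.η⁻¹ * (c.w ^ (1 / 2 : ℝ) * (c.L4 ^ (1 / 4 : ℝ) * c.P4 ^ (1 / 4 : ℝ)))) := by
    have h2 : (∫ x in Sh c.r (c.r + c.η), nm (curl V) x * nm V x * nm c.Ψ x) ≤
        C0 * (c.w ^ (1 / 2 : ℝ) * (Cn * c.η * c.L4 ^ (1 / 2 : ℝ))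
          + c.w ^ (1 / 2 : ℝ) * (c.L4 ^ (1 / 4 : ℝ) * c.P4 ^ (1 / 4 : ℝ))
          + F0 V c * (c.w ^ (1 / 2 : ℝ) * c.M ^ (1 / 2 : ℝ))) := by
      refine p2.trans ?_
      unfold L4 M P4
      gcongr
    calc _ ≤ c.η⁻¹ * (C0 * (c.w ^ (1 / 2 : ℝ) * (Cn * c.η * c.L4 ^ (1 / 2 : ℝ))
          + c.w ^ (1 / 2 : ℝ) * (c.L4 ^ (1 / 4 : ℝ) * c.P4 ^ (1 / 4 : ℝ))
          + F0 V c * (c.w ^ (1 / 2 : ℝ) * c.M ^ (1 / 2 : ℝ)))) :=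
          mul_le_mul_of_nonneg_left h2 hηi.le
      _ = _ := by have := hη.ne'; field_simp; ring
  have t5 : (∫ x in Metric.ball (0 : E) (c.r + c.η), sq V x) ≤ c.Mt :=
    set_mono (Metric.ball_subset_ball (by linarith)) (ball_sub' _) csV (fun _ => sq_nonneg' _ _)
  have t6 : c.r * c.η⁻¹ * (∫ x in Sh c.r (c.r + c.η), sq V x) ≤ c.r * c.η⁻¹ * c.M :=
    mul_le_mul_of_nonneg_left hMs (by positivity)
  have t7 : c.r * c.η⁻¹ ^ 2 * (∫ x in Sh c.r (c.r + c.η), nm V x * nm c.Ψ x) ≤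
      C0 * (Cn * (c.r * c.η⁻¹ * c.M) + c.r * c.η⁻¹ ^ 2 * (c.M ^ (1 / 2 : ℝ) * c.P2 ^ (1 / 2 : ℝ))
        + c.r * c.η⁻¹ ^ 2 * F0 V c * c.vs * c.M ^ (1 / 2 : ℝ)) := by
    have h2 : (∫ x in Sh c.r (c.r + c.η), nm V x * nm c.Ψ x) ≤
        C0 * (Cn * c.η * c.M + c.M ^ (1 / 2 : ℝ) * c.P2 ^ (1 / 2 : ℝ) + F0 V c * (c.M ^ (1 / 2 : ℝ) * c.vs)) := by
      refine p3.trans (le_of_eq ?_)
      have e : c.M ^ (1 / 2 : ℝ) * (Cn * c.η * c.M ^ (1 / 2 : ℝ)) = Cn * c.η * c.M := by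
        have : c.M ^ (1 / 2 : ℝ) * c.M ^ (1 / 2 : ℝ) = c.M := by
          rw [← Real.sqrt_eq_rpow, Real.mul_self_sqrt c.M_nonneg]
        calc _ = Cn * c.η * (c.M ^ (1 / 2 : ℝ) * c.M ^ (1 / 2 : ℝ)) := by ring
          _ = _ := by rw [this]
      rw [← e]
      rfl
    calc _ ≤ c.r * c.η⁻¹ ^ 2 * (C0 * (Cn * c.η * c.M + c.M ^ (1 / 2 : ℝ) * c.P2 ^ (1 / 2 : ℝ)
          + F0 V c * (c.M ^ (1 / 2 : ℝ) * c.vs))) :=
          mul_le_mul_of_nonneg_left h2 (by positivity)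
      _ = _ := by have := hη.ne'; field_simp
  have t8 : c.r * c.η⁻¹ * (∫ x in Sh c.r (c.r + c.η), nm V x * gnm c.Ψ x) ≤
      c.r * c.η⁻¹ * (c.M ^ (1 / 2 : ℝ) * c.Ns ^ (1 / 2 : ℝ)) := by
    apply mul_le_mul_of_nonneg_left _ (by positivity)
    have h := cs_set hS cnV cgΨ (nm_nonneg _) (gnm_nonneg _)
    simp only [nm_sq, gnm_sq] at h
    exact h.trans (mul_le_mul_of_nonneg_right hMs' N0)
  have t9 : c.ε * (1 + c.η⁻¹) * ∫ x in Metric.closedBall (0 : E) (c.r + c.η), nm (curl V) x * (1 + nm V x + ‖x‖) ≤ 1 := by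
    refine le_trans (mul_le_mul_of_nonneg_left ?_ (mul_nonneg c.hε (by positivity))) c.herr
    apply set_mono (Metric.closedBall_subset_closedBall (by linarith)) ⟨_, subset_rfl⟩ (by fun_prop)
    intro x
    have := nm_nonneg (curl V) x
    have := nm_nonneg V x
    positivity
  linarith

end Cfg1

/-- the main estimate for `p = 1` -/
theorem step_one (ν a : ℝ) (hν : 0 < ν) (ha : 0 < a) (V : VF) (hV : SmoothProfile ν a V)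
    (hi : Integrable (nm V)) :
    ∃ C K κ : ℝ, 0 < C ∧ 0 < K ∧ 0 < κ ∧ κ < 1 ∧ ∀ R δ θ : ℝ, 1 ≤ R → 0 < δ → δ ≤ R → 0 < θ → θ ≤ 1 →
      W V R ≤ C * ((R / δ) ^ K * θ⁻¹ ^ K * (1 + W V (R + 4 * δ)) ^ κ
        + ((∫ y in Sh (R - δ) (R + 4 * δ), nm V y) + θ) * δ⁻¹ ^ 2 * (1 + W V (R + 4 * δ))) := by
  have hV3 := hV.smooth
  have cV : ∀ i, Continuous (V i) := fun i => (hV3 i).continuous
  obtain ⟨C0, Cw, hC0, hCw, hcfg⟩ := cfg1_exists hV hi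
  obtain ⟨C, Cn, hC, hCn, hterms⟩ := Cfg1.terms (C0 := C0) (Cw := Cw) hν ha hV hi hC0
  -- the bounds
  have Q1 := Cfg1.one_le_Q (V := V) (C0 := C0) (Cw := Cw)
  have Y1 : ∀ c : Cfg1 V C0 Cw, 1 ≤ c.Y := fun c => c.hY
  have Yp := Cfg1.Y_pos (V := V) (C0 := C0) (Cw := Cw)
  have Dp := Cfg1.δ_pos (V := V) (C0 := C0) (Cw := Cw)
  have mp := Cfg1.m_pos (V := V) (C0 := C0) (Cw := Cw)
  have DQ := Cfg1.δi_le_Q (V := V) (C0 := C0) (Cw := Cw)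
  have b6 := Cfg1.bbI6 (C0 := C0) (Cw := Cw) hV3 hV.div0
  have bM := Cfg1.bbM hV3 b6
  have bL := Cfg1.bbL4 hV3 b6
  have bw := Cfg1.bbw (V := V) (C0 := C0) (Cw := Cw)
  have bηi := Cfg1.bbηi (V := V) (C0 := C0) (Cw := Cw)
  have bP4 := Cfg1.bbP4 (V := V) (C0 := C0) (Cw := Cw) cV hCw
  have bP2 := Cfg1.bbP2 (V := V) (C0 := C0) (Cw := Cw) cV hCw
  -- the critical terms
  have bw2 := bw.rpow Yp Dp mp (t := 1 / 2) (by norm_num)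
  have c1 := ((bw2.mul Yp Dp mp (bL.rpow Yp Dp mp (t := 1 / 2) (by norm_num))).const_mul hCn.le).mono_eq
    (e' := 1) (g' := -2) (a' := 1) (by norm_num) (by norm_num) (by norm_num)
  have c2 := (bηi.mul Yp Dp mp (bw2.mul Yp Dp mp ((bL.rpow Yp Dp mp (t := 1 / 4) (by norm_num)).mul Yp Dp mp
    (bP4.rpow Yp Dp mp (t := 1 / 4) (by norm_num))))).mono_eq (e' := 1) (g' := -2) (a' := 1)
      (by norm_num) (by norm_num) (by norm_num)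
  obtain ⟨-, cc, hcc, hcrit⟩ := ((c1.add c2).const_mul hC0.le)
  -- the other terms
  have qηi := Cfg1.toQ hi bηi
  have qw2 := Cfg1.toQ hi bw2
  have qM := Cfg1.toQ hi bM
  have qM2 := Cfg1.toQ hi (bM.rpow Yp Dp mp (t := 1 / 2) (by norm_num))
  have qP2 := Cfg1.toQ hi (bP2.rpow Yp Dp mp (t := 1 / 2) (by norm_num))
  have qηi2 := qηi.rpow Q1 Yp Dp (t := 2) (by norm_num)
  have qr := Cfg1.bqr (V := V) (C0 := C0) (Cw := Cw)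
  have qvs := Cfg1.bqvs (V := V) (C0 := C0) (Cw := Cw) hi
  have qF := Cfg1.bqF0 (V := V) (C0 := C0) (Cw := Cw)
  have qMt := Cfg1.bqMt (C0 := C0) (Cw := Cw) hV3 hV.div0 hi
  have qNs2 := (Cfg1.bqNs hi (Cfg1.bqNn (C0 := C0) (Cw := Cw) hV3 hV.div0 hi hC0)).rpow Q1 Yp Dp (t := 1 / 2) (by norm_num)
  have g1 := (qηi.mul Q1 Yp Dp (qw2.mul Q1 Yp Dp qM2)).mono Q1 Y1 Dp DQ (e' := 13 / 16) (g' := 0)
    (by norm_num) (by norm_num)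
  have g2 := (((g1.const_mul hCn.le).add Q1 Yp Dp
    ((qηi2.mul Q1 Yp Dp (qw2.mul Q1 Yp Dp qP2)).mono Q1 Y1 Dp DQ (e' := 13 / 16) (g' := 0)
      (by norm_num) (by norm_num))).add Q1 Yp Dp
    ((qw2.mul Q1 Yp Dp ((qηi2.mul Q1 Yp Dp qF).mul Q1 Yp Dp qvs)).mono Q1 Y1 Dp DQ (e' := 13 / 16) (g' := 0)
      (by norm_num) (by norm_num))).const_mul hC0.le
  have g3 := (qηi.mul Q1 Yp Dp (qw2.mul Q1 Yp Dp qNs2)).mono Q1 Y1 Dp DQ (e' := 13 / 16) (g' := 0)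
    (by norm_num) (by norm_num)
  have g4 := (((qηi.mul Q1 Yp Dp qF).mul Q1 Yp Dp (qw2.mul Q1 Yp Dp qM2)).mono Q1 Y1 Dp DQ (e' := 13 / 16)
    (g' := 0) (by norm_num) (by norm_num)).const_mul hC0.le
  have g5 := qMt.mono Q1 Y1 Dp DQ (e' := 13 / 16) (g' := 0) (by norm_num) (by norm_num)
  have g6 := ((qr.mul Q1 Yp Dp qηi).mul Q1 Yp Dp qM).mono Q1 Y1 Dp DQ (e' := 13 / 16) (g' := 0)
    (by norm_num) (by norm_num)
  have g7 := (((g6.const_mul hCn.le).add Q1 Yp Dp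
    (((qr.mul Q1 Yp Dp qηi2).mul Q1 Yp Dp (qM2.mul Q1 Yp Dp qP2)).mono Q1 Y1 Dp DQ (e' := 13 / 16) (g' := 0)
      (by norm_num) (by norm_num))).add Q1 Yp Dp
    (((((qr.mul Q1 Yp Dp qηi2).mul Q1 Yp Dp qF).mul Q1 Yp Dp qvs).mul Q1 Yp Dp qM2).mono Q1 Y1 Dp DQ
      (e' := 13 / 16) (g' := 0) (by norm_num) (by norm_num))).const_mul hC0.le
  have g8 := ((qr.mul Q1 Yp Dp qηi).mul Q1 Yp Dp (qM2.mul Q1 Yp Dp qNs2)).mono Q1 Y1 Dp DQ (e' := 13 / 16)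
    (g' := 0) (by norm_num) (by norm_num)
  have g9 := (Bq.const (Q := Cfg1.Q (V := V) (C0 := C0) (Cw := Cw)) (Y := Cfg1.Y) (D := Cfg1.δ) (c := 1)
    zero_le_one).mono Q1 Y1 Dp DQ (e' := 13 / 16) (g' := 0) (by norm_num) (by norm_num)
  obtain ⟨-, c₁, K, hc₁, hK, hfin⟩ := (((((((g1.add Q1 Yp Dp g2).add Q1 Yp Dp g3).add Q1 Yp Dp g4).add Q1 Yp Dp
    g5).add Q1 Yp Dp g6).add Q1 Yp Dp g7).add Q1 Yp Dp g8).add Q1 Yp Dp g9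
  refine ⟨C * (c₁ + cc) + 16 ^ 4 * (Cfg1.At V) + 16 ^ 4, K + 5, 13 / 16, ?_, by positivity, by norm_num, by norm_num, ?_⟩
  · have := Cfg1.At_pos V
    positivity
  intro R δ θ hR hδ hδR hθ hθ1
  have hAt := Cfg1.At_pos V
  have hW0 := W_nonneg V (R + 4 * δ)
  obtain ⟨Y, hY⟩ : ∃ Y, Y = 1 + W V (R + 4 * δ) := ⟨_, rfl⟩
  have hY1 : 1 ≤ Y := by linarith
  have hY0 : 0 < Y := by linarith
  obtain ⟨m, hm⟩ : ∃ m, m = (∫ y in Sh (R - δ) (R + 4 * δ), nm V y) + θ := ⟨_, rfl⟩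
  have hμ0 : 0 ≤ ∫ y in Sh (R - δ) (R + 4 * δ), nm V y := setInt_nonneg (measurableSet_Sh _ _) (nm_nonneg V)
  have hm0 : 0 < m := by linarith
  have hmA : m ≤ Cfg1.At V := by
    have : ∫ y in Sh (R - δ) (R + 4 * δ), nm V y ≤ ∫ y, nm V y :=
      setIntegral_le_integral hi (Eventually.of_forall (nm_nonneg V))
    rw [hm, Cfg1.At]; linarith
  rw [← hY, ← hm]
  have hθi : 1 ≤ θ⁻¹ := (one_le_inv₀ hθ).2 hθ1
  have hRδ : 1 ≤ R / δ := by rw [le_div_iff₀ hδ]; linarith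
  have hδi : 0 < δ⁻¹ := inv_pos.2 hδ
  rcases hcfg R δ θ hR hδ hδR hθ hθ1 with hbig | ⟨c, hcR, hcδ, hcθ⟩
  · -- the trivial case
    rw [← hY, ← hm] at hbig
    have hWle : W V R ≤ Y := by
      have : W V R ≤ W V (R + 4 * δ) := by
        have hω1 : ∀ i, ContDiff ℝ 1 (curl V i) := fun i => contDiff_curl hV.smooth (by norm_num) i
        exact set_mono (Metric.ball_subset_ball (by linarith)) (ball_sub' _)
          (continuous_sq fun i => (hω1 i).continuous) (fun _ => sq_nonneg' _ _)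
      linarith
    have h4 : (1 / 16 : ℝ) ^ 4 ≤ Y⁻¹ * δ⁻¹ ^ 5 * m ^ 2 := by
      have h := pow_le_pow_left₀ (by norm_num) hbig.le 4
      refine h.trans (le_of_eq ?_)
      rw [mul_pow, mul_pow, ← Real.rpow_natCast (Y ^ _) 4, ← Real.rpow_natCast (δ ^ _) 4,
        ← Real.rpow_natCast (m ^ _) 4, ← Real.rpow_mul hY0.le, ← Real.rpow_mul hδ.le, ← Real.rpow_mul hm0.le]
      rw [show (-(1 / 4) : ℝ) * ((4 : ℕ) : ℝ) = -1 by norm_num, show (-(5 / 4) : ℝ) * ((4 : ℕ) : ℝ) = -5 by norm_num,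
        show (1 / 2 : ℝ) * ((4 : ℕ) : ℝ) = ((2 : ℕ) : ℝ) by norm_num, Real.rpow_natCast, Real.rpow_neg_one,
        Real.rpow_neg hδ.le, show (5 : ℝ) = ((5 : ℕ) : ℝ) by norm_num, Real.rpow_natCast, inv_pow]
    have h5 : Y ≤ 16 ^ 4 * (δ⁻¹ ^ 5 * m ^ 2) := by
      have := mul_le_mul_of_nonneg_left h4 hY0.le
      have e : Y * (Y⁻¹ * δ⁻¹ ^ 5 * m ^ 2) = δ⁻¹ ^ 5 * m ^ 2 := by
        field_simp
      rw [e] at this
      linarith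
    have h6 : Y ≤ Y ^ (13 / 16 : ℝ) * Y ^ (3 / 16 : ℝ) := by
      rw [← Real.rpow_add hY0]; norm_num
    have h7 : Y ^ (3 / 16 : ℝ) ≤ (16 ^ 4 * (δ⁻¹ ^ 5 * m ^ 2)) ^ (3 / 16 : ℝ) := Real.rpow_le_rpow hY0.le h5 (by norm_num)
    -- we only need a crude bound
    have hRi : δ⁻¹ ≤ R / δ := by
      rw [div_eq_mul_inv]; nlinarith
    have h8 : (16 ^ 4 * (δ⁻¹ ^ 5 * m ^ 2)) ^ (3 / 16 : ℝ) ≤ (16 ^ 4 * Cfg1.At V + 16 ^ 4) * (R / δ) ^ (5 : ℝ) := by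
      have k0 : δ⁻¹ ^ 5 * m ^ 2 ≤ (R / δ) ^ 5 * Cfg1.At V ^ 2 := by
        apply mul_le_mul (pow_le_pow_left₀ hδi.le hRi 5) (pow_le_pow_left₀ hm0.le hmA 2) (by positivity) (by positivity)
      have e5 : (R / δ) ^ (5 : ℝ) = (R / δ) ^ 5 := by
        rw [show (5 : ℝ) = ((5 : ℕ) : ℝ) by norm_num, Real.rpow_natCast]
      have k1 : (16 ^ 4 * (δ⁻¹ ^ 5 * m ^ 2)) ^ (3 / 16 : ℝ) ≤ (16 ^ 4 * ((R / δ) ^ 5 * Cfg1.At V ^ 2)) ^ (3 / 16 : ℝ) := by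
        apply Real.rpow_le_rpow (by positivity) _ (by norm_num)
        gcongr
      refine k1.trans ?_
      rw [Real.mul_rpow (by norm_num) (by positivity), Real.mul_rpow (by positivity) (by positivity)]
      have k2 : ((16 : ℝ) ^ 4) ^ (3 / 16 : ℝ) ≤ 16 ^ 4 := by
        have := Real.rpow_le_rpow_of_exponent_le (x := (16 : ℝ) ^ 4) (by norm_num) (show (3 / 16 : ℝ) ≤ 1 by norm_num)
        rwa [Real.rpow_one] at this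
      have k3 : ((R / δ) ^ 5) ^ (3 / 16 : ℝ) ≤ (R / δ) ^ 5 := by
        have := Real.rpow_le_rpow_of_exponent_le (x := (R / δ) ^ 5) (one_le_pow₀ hRδ) (show (3 / 16 : ℝ) ≤ 1 by norm_num)
        rwa [Real.rpow_one] at this
      have k4 : (Cfg1.At V ^ 2) ^ (3 / 16 : ℝ) ≤ Cfg1.At V + 1 := by
        rw [← Real.rpow_natCast (Cfg1.At V) 2, ← Real.rpow_mul hAt.le]
        rcases le_or_gt 1 (Cfg1.At V) with h | h
        · have := Real.rpow_le_rpow_of_exponent_le (x := Cfg1.At V) h (show ((2 : ℕ) : ℝ) * (3 / 16 : ℝ) ≤ 1 by norm_num)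
          rw [Real.rpow_one] at this
          linarith
        · have := Real.rpow_le_one hAt.le h.le (show 0 ≤ ((2 : ℕ) : ℝ) * (3 / 16 : ℝ) by norm_num)
          linarith
      rw [e5]
      calc _ ≤ 16 ^ 4 * ((R / δ) ^ 5 * (Cfg1.At V + 1)) := by
            apply mul_le_mul k2 _ (by positivity) (by positivity)
            exact mul_le_mul k3 k4 (by positivity) (by positivity)
        _ = _ := by ring
    have h9 : (R / δ) ^ (5 : ℝ) ≤ (R / δ) ^ (K + 5) := Real.rpow_le_rpow_of_exponent_le hRδ (by linarith)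
    have h10 : 1 ≤ θ⁻¹ ^ (K + 5) := Real.one_le_rpow hθi (by linarith)
    have h11 : Y ≤ (16 ^ 4 * Cfg1.At V + 16 ^ 4) * ((R / δ) ^ (K + 5) * θ⁻¹ ^ (K + 5) * Y ^ (13 / 16 : ℝ)) := by
      calc Y ≤ Y ^ (13 / 16 : ℝ) * ((16 ^ 4 * Cfg1.At V + 16 ^ 4) * (R / δ) ^ (5 : ℝ)) :=
            h6.trans (mul_le_mul_of_nonneg_left (h7.trans h8) (by positivity))
        _ = (16 ^ 4 * Cfg1.At V + 16 ^ 4) * ((R / δ) ^ (5 : ℝ) * 1 * Y ^ (13 / 16 : ℝ)) := by ring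
        _ ≤ _ := by gcongr
    have h12 : 0 ≤ (R / δ) ^ (K + 5) * θ⁻¹ ^ (K + 5) * Y ^ (13 / 16 : ℝ) := by positivity
    have h13 : 0 ≤ m * δ⁻¹ ^ 2 * Y := by positivity
    have h14 : 0 ≤ C * (c₁ + cc) := by positivity
    have h15 : 0 ≤ C * (c₁ + cc) + 16 ^ 4 * Cfg1.At V + 16 ^ 4 := by positivity
    generalize (R / δ) ^ (K + 5) * θ⁻¹ ^ (K + 5) * Y ^ (13 / 16 : ℝ) = X at h11 h12 ⊢
    generalize m * δ⁻¹ ^ 2 * Y = Z at h13 ⊢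
    have k1 := mul_nonneg h14 h12
    have k2 := mul_nonneg h15 h13
    have k3 : (C * (c₁ + cc) + 16 ^ 4 * Cfg1.At V + 16 ^ 4) * (X + Z) = (16 ^ 4 * Cfg1.At V + 16 ^ 4) * X
        + C * (c₁ + cc) * X + (C * (c₁ + cc) + 16 ^ 4 * Cfg1.At V + 16 ^ 4) * Z := by ring
    rw [k3]; linarith
  · -- the main case
    have h := hterms c
    have h1 := hfin c
    have h2 := hcrit c
    have hQ : c.Q = R / δ * θ⁻¹ := by rw [Cfg1.Q, hcR, hcδ, hcθ]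
    have hcY : c.Y = Y := by rw [c.hYdef, hcR, hcδ, hY]
    have hcm : c.m = m := by rw [c.hmdef, hcR, hcδ, hcθ, hm]
    rw [hcR] at h
    have e1 : c₁ * (c.Q ^ K * c.Y ^ (13 / 16 : ℝ) * c.δ ^ (0 : ℝ)) ≤
        c₁ * ((R / δ) ^ (K + 5) * θ⁻¹ ^ (K + 5) * Y ^ (13 / 16 : ℝ)) := by
      rw [hQ, hcY, Real.rpow_zero, mul_one, Real.mul_rpow (by positivity) (by positivity)]
      have k1 : (R / δ) ^ K ≤ (R / δ) ^ (K + 5) := Real.rpow_le_rpow_of_exponent_le hRδ (by linarith)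
      have k2 : θ⁻¹ ^ K ≤ θ⁻¹ ^ (K + 5) := Real.rpow_le_rpow_of_exponent_le hθi (by linarith)
      gcongr
    have e2 : cc * (c.Y ^ (1 : ℝ) * c.δ ^ (-2 : ℝ) * c.m ^ (1 : ℝ)) = cc * (m * δ⁻¹ ^ 2 * Y) := by
      rw [hcY, hcδ, hcm, Real.rpow_one, Real.rpow_one, Real.rpow_neg hδ.le,
        show (2 : ℝ) = ((2 : ℕ) : ℝ) by norm_num, Real.rpow_natCast, inv_pow]
      ring
    have h3 : W V R ≤ C * (c₁ * ((R / δ) ^ (K + 5) * θ⁻¹ ^ (K + 5) * Y ^ (13 / 16 : ℝ)) + cc * (m * δ⁻¹ ^ 2 * Y)) := by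
      refine h.trans (mul_le_mul_of_nonneg_left (add_le_add (h1.trans e1) (h2.trans e2.le)) hC.le)
    have h12 : 0 ≤ (R / δ) ^ (K + 5) * θ⁻¹ ^ (K + 5) * Y ^ (13 / 16 : ℝ) := by positivity
    have h13 : 0 ≤ m * δ⁻¹ ^ 2 * Y := by positivity
    generalize (R / δ) ^ (K + 5) * θ⁻¹ ^ (K + 5) * Y ^ (13 / 16 : ℝ) = X at h3 h12 ⊢
    generalize m * δ⁻¹ ^ 2 * Y = Z at h3 h13 ⊢
    have k1 : C * (c₁ * X + cc * Z) ≤ (C * (c₁ + cc)) * (X + Z) := by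
      have h1 : 0 ≤ C * (c₁ * Z) := by positivity
      have h2 : 0 ≤ C * (cc * X) := by positivity
      have h3 : (C * (c₁ + cc)) * (X + Z) = C * (c₁ * X + cc * Z) + C * (c₁ * Z) + C * (cc * X) := by ring
      rw [h3]; linarith
    refine h3.trans (k1.trans ?_)
    apply mul_le_mul_of_nonneg_right _ (by positivity)
    have : 0 ≤ 16 ^ 4 * Cfg1.At V := by positivity
    linarith

end Leray
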