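import Pool.Agent.Lib.MP_9b9638_an.Thin2

/-!
# The case `p = 1`: calculus of bounds with three exponents
-/

open MeasureTheory Set Filter Topology TopologicalSpace

noncomputable section

namespace Leray

/-- `f ≤ c Y^e D^g m^a` uniformly, `f ≥ 0` -/
def B3 {ι : Type*} (Y D m : ι → ℝ) (f : ι → ℝ) (e g a : ℝ) : Prop :=
  (∀ i, 0 ≤ f i) ∧ ∃ c : ℝ, 0 ≤ c ∧ ∀ i, f i ≤ c * (Y i ^ e * D i ^ g * m i ^ a)

namespace B3

variable {ι : Type*} {Y D m : ι → ℝ} {f f' : ι → ℝ} {e g a e' g' a' : ℝ}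

theorem mul (hY : ∀ i, 0 < Y i) (hD : ∀ i, 0 < D i) (hm : ∀ i, 0 < m i) (hf : B3 Y D m f e g a)
    (hg : B3 Y D m f' e' g' a') : B3 Y D m (fun i => f i * f' i) (e + e') (g + g') (a + a') := by
  obtain ⟨f0, c, hc, hf⟩ := hf
  obtain ⟨g0, c', hc', hg⟩ := hg
  refine ⟨fun i => mul_nonneg (f0 i) (g0 i), c * c', by positivity, fun i => ?_⟩
  have y := hY i
  have d := hD i
  have mm := hm i
  calc f i * f' i ≤ (c * (Y i ^ e * D i ^ g * m i ^ a)) * (c' * (Y i ^ e' * D i ^ g' * m i ^ a')) :=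
        mul_le_mul (hf i) (hg i) (g0 i) (by positivity)
    _ = c * c' * (Y i ^ (e + e') * D i ^ (g + g') * m i ^ (a + a')) := by
        rw [Real.rpow_add y, Real.rpow_add d, Real.rpow_add mm]; ring

theorem add (hf : B3 Y D m f e g a) (hg : B3 Y D m f' e g a) : B3 Y D m (fun i => f i + f' i) e g a := by
  obtain ⟨f0, c, hc, hf⟩ := hf
  obtain ⟨g0, c', hc', hg⟩ := hg
  refine ⟨fun i => add_nonneg (f0 i) (g0 i), c + c', by positivity, fun i => ?_⟩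
  have := hf i
  have := hg i
  linarith

theorem rpow (hY : ∀ i, 0 < Y i) (hD : ∀ i, 0 < D i) (hm : ∀ i, 0 < m i) (hf : B3 Y D m f e g a) {t : ℝ}
    (ht : 0 ≤ t) : B3 Y D m (fun i => f i ^ t) (e * t) (g * t) (a * t) := by
  obtain ⟨f0, c, hc, hf⟩ := hf
  refine ⟨fun i => Real.rpow_nonneg (f0 i) _, c ^ t, by positivity, fun i => ?_⟩
  have y := hY i
  have d := hD i
  have mm := hm i
  calc f i ^ t ≤ (c * (Y i ^ e * D i ^ g * m i ^ a)) ^ t := Real.rpow_le_rpow (f0 i) (hf i) ht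
    _ = c ^ t * (Y i ^ (e * t) * D i ^ (g * t) * m i ^ (a * t)) := by
        rw [Real.mul_rpow hc (by positivity), Real.mul_rpow (by positivity) (by positivity),
          Real.mul_rpow (by positivity) (by positivity), Real.rpow_mul y.le, Real.rpow_mul d.le,
          Real.rpow_mul mm.le]

theorem le (hf : B3 Y D m f e g a) (h : ∀ i, f' i ≤ f i) (g0 : ∀ i, 0 ≤ f' i) : B3 Y D m f' e g a := by
  obtain ⟨_, c, hc, hf⟩ := hf
  exact ⟨g0, c, hc, fun i => (h i).trans (hf i)⟩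

theorem const_mul {c : ℝ} (hc : 0 ≤ c) (hf : B3 Y D m f e g a) : B3 Y D m (fun i => c * f i) e g a := by
  obtain ⟨f0, c', hc', hf⟩ := hf
  refine ⟨fun i => mul_nonneg hc (f0 i), c * c', by positivity, fun i => ?_⟩
  rw [mul_assoc]
  exact mul_le_mul_of_nonneg_left (hf i) hc

theorem mono_eq (hf : B3 Y D m f e g a) (h1 : e = e') (h2 : g = g') (h3 : a = a') : B3 Y D m f e' g' a' := by
  subst h1; subst h2; subst h3; exact hf

theorem one : B3 Y D m (fun _ => 1) 0 0 0 :=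
  ⟨fun _ => zero_le_one, 1, zero_le_one, fun i => by simp⟩

theorem base (hY : ∀ i, 0 < Y i) (hD : ∀ i, 0 < D i) (hm : ∀ i, 0 < m i) (e g a : ℝ) :
    B3 Y D m (fun i => Y i ^ e * D i ^ g * m i ^ a) e g a :=
  ⟨fun i => by have := hY i; have := hD i; have := hm i; positivity, 1, zero_le_one, fun i => by rw [one_mul]⟩

end B3

/-- `f ≤ c Q^K Y^e D^g` uniformly for some `c`, `K` -/
def Bq {ι : Type*} (Q Y D : ι → ℝ) (f : ι → ℝ) (e g : ℝ) : Prop :=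
  (∀ i, 0 ≤ f i) ∧ ∃ c K : ℝ, 0 ≤ c ∧ 0 ≤ K ∧ ∀ i, f i ≤ c * (Q i ^ K * Y i ^ e * D i ^ g)

namespace Bq

variable {ι : Type*} {Q Y D m : ι → ℝ} {f f' : ι → ℝ} {e g e' g' : ℝ}

theorem of_B3 {a : ℝ} (hQ : ∀ i, 1 ≤ Q i) (hY : ∀ i, 0 < Y i) (hD : ∀ i, 0 < D i) (hm : ∀ i, 0 < m i)
    (hmQ : ∀ i, (m i)⁻¹ ≤ Q i) {A : ℝ} (hA : 0 < A) (hmA : ∀ i, m i ≤ A)
    (hf : B3 Y D m f e g a) : Bq Q Y D f e g := by
  obtain ⟨f0, c, hc, hf⟩ := hf
  refine ⟨f0, c * (A ^ |a| + 1), |a|, by positivity, abs_nonneg _, fun i => (hf i).trans ?_⟩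
  have y := hY i
  have d := hD i
  have mm := hm i
  have q0 : 0 < Q i := by linarith [hQ i]
  have key : m i ^ a ≤ (A ^ |a| + 1) * Q i ^ |a| := by
    have q1 : 1 ≤ Q i ^ |a| := Real.one_le_rpow (hQ i) (abs_nonneg _)
    rcases le_or_gt 0 a with ha | ha
    · rw [abs_of_nonneg ha] at *
      have h1 : m i ^ a ≤ A ^ a := Real.rpow_le_rpow mm.le (hmA i) ha
      have h2 : 0 ≤ A ^ a := by positivity
      nlinarith
    · rw [abs_of_neg ha] at *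
      have h1 : m i ^ a = (m i)⁻¹ ^ (-a) := by
        rw [Real.inv_rpow mm.le, ← Real.rpow_neg mm.le, neg_neg]
      have h2 : (m i)⁻¹ ^ (-a) ≤ Q i ^ (-a) := Real.rpow_le_rpow (by positivity) (hmQ i) (by linarith)
      have h3 : 0 ≤ A ^ (-a) := by positivity
      rw [h1]
      nlinarith
  calc c * (Y i ^ e * D i ^ g * m i ^ a) ≤ c * (Y i ^ e * D i ^ g * ((A ^ |a| + 1) * Q i ^ |a|)) := by gcongr
    _ = _ := by ring

theorem mul (hQ : ∀ i, 1 ≤ Q i) (hY : ∀ i, 0 < Y i) (hD : ∀ i, 0 < D i) (hf : Bq Q Y D f e g)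
    (hg : Bq Q Y D f' e' g') : Bq Q Y D (fun i => f i * f' i) (e + e') (g + g') := by
  obtain ⟨f0, c, K, hc, hK, hf⟩ := hf
  obtain ⟨g0, c', K', hc', hK', hg⟩ := hg
  refine ⟨fun i => mul_nonneg (f0 i) (g0 i), c * c', K + K', by positivity, by positivity, fun i => ?_⟩
  have y := hY i
  have d := hD i
  have q0 : 0 < Q i := by linarith [hQ i]
  calc f i * f' i ≤ (c * (Q i ^ K * Y i ^ e * D i ^ g)) * (c' * (Q i ^ K' * Y i ^ e' * D i ^ g')) :=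
        mul_le_mul (hf i) (hg i) (g0 i) (by positivity)
    _ = c * c' * (Q i ^ (K + K') * Y i ^ (e + e') * D i ^ (g + g')) := by
        rw [Real.rpow_add y, Real.rpow_add d, Real.rpow_add q0]; ring

theorem rpow (hQ : ∀ i, 1 ≤ Q i) (hY : ∀ i, 0 < Y i) (hD : ∀ i, 0 < D i) (hf : Bq Q Y D f e g) {t : ℝ}
    (ht : 0 ≤ t) : Bq Q Y D (fun i => f i ^ t) (e * t) (g * t) := by
  obtain ⟨f0, c, K, hc, hK, hf⟩ := hf
  refine ⟨fun i => Real.rpow_nonneg (f0 i) _, c ^ t, K * t, by positivity, by positivity, fun i => ?_⟩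
  have y := hY i
  have d := hD i
  have q0 : 0 < Q i := by linarith [hQ i]
  calc f i ^ t ≤ (c * (Q i ^ K * Y i ^ e * D i ^ g)) ^ t := Real.rpow_le_rpow (f0 i) (hf i) ht
    _ = c ^ t * (Q i ^ (K * t) * Y i ^ (e * t) * D i ^ (g * t)) := by
        rw [Real.mul_rpow hc (by positivity), Real.mul_rpow (by positivity) (by positivity),
          Real.mul_rpow (by positivity) (by positivity), Real.rpow_mul y.le, Real.rpow_mul d.le,
          Real.rpow_mul q0.le]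

theorem mono (hQ : ∀ i, 1 ≤ Q i) (hY : ∀ i, 1 ≤ Y i) (hD : ∀ i, 0 < D i) (hDQ : ∀ i, (D i)⁻¹ ≤ Q i)
    (hf : Bq Q Y D f e g) (he : e ≤ e') (hg : g ≤ g') : Bq Q Y D f e' g' := by
  obtain ⟨f0, c, K, hc, hK, hf⟩ := hf
  refine ⟨f0, c, K + (g' - g), hc, by linarith, fun i => (hf i).trans ?_⟩
  have y := hY i
  have d := hD i
  have q0 : 0 < Q i := by linarith [hQ i]
  have y0 : 0 < Y i := by linarith
  have h1 : Y i ^ e ≤ Y i ^ e' := Real.rpow_le_rpow_of_exponent_le y he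
  have h2 : D i ^ g ≤ Q i ^ (g' - g) * D i ^ g' := by
    have : D i ^ g = (D i)⁻¹ ^ (g' - g) * D i ^ g' := by
      rw [Real.inv_rpow d.le, ← Real.rpow_neg d.le, ← Real.rpow_add d]; congr 1; ring
    rw [this]
    have := Real.rpow_le_rpow (by positivity) (hDQ i) (sub_nonneg.2 hg)
    gcongr
  calc c * (Q i ^ K * Y i ^ e * D i ^ g) ≤ c * (Q i ^ K * Y i ^ e' * (Q i ^ (g' - g) * D i ^ g')) := by gcongr
    _ = _ := by rw [Real.rpow_add q0]; ring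

theorem add (hQ : ∀ i, 1 ≤ Q i) (hY : ∀ i, 0 < Y i) (hD : ∀ i, 0 < D i) (hf : Bq Q Y D f e g)
    (hg : Bq Q Y D f' e g) : Bq Q Y D (fun i => f i + f' i) e g := by
  obtain ⟨f0, c, K, hc, hK, hf⟩ := hf
  obtain ⟨g0, c', K', hc', hK', hg⟩ := hg
  refine ⟨fun i => add_nonneg (f0 i) (g0 i), c + c', K + K', by positivity, by positivity, fun i => ?_⟩
  have y := hY i
  have d := hD i
  have q := hQ i
  have q0 : 0 < Q i := by linarith
  have h1 : Q i ^ K ≤ Q i ^ (K + K') := Real.rpow_le_rpow_of_exponent_le q (by linarith)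
  have h2 : Q i ^ K' ≤ Q i ^ (K + K') := Real.rpow_le_rpow_of_exponent_le q (by linarith)
  calc f i + f' i ≤ c * (Q i ^ K * Y i ^ e * D i ^ g) + c' * (Q i ^ K' * Y i ^ e * D i ^ g) := add_le_add (hf i) (hg i)
    _ ≤ c * (Q i ^ (K + K') * Y i ^ e * D i ^ g) + c' * (Q i ^ (K + K') * Y i ^ e * D i ^ g) := by gcongr
    _ = _ := by ring

theorem le (hf : Bq Q Y D f e g) (h : ∀ i, f' i ≤ f i) (g0 : ∀ i, 0 ≤ f' i) : Bq Q Y D f' e g := by
  obtain ⟨_, c, K, hc, hK, hf⟩ := hf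
  exact ⟨g0, c, K, hc, hK, fun i => (h i).trans (hf i)⟩

theorem const_mul {c : ℝ} (hc : 0 ≤ c) (hf : Bq Q Y D f e g) : Bq Q Y D (fun i => c * f i) e g := by
  obtain ⟨f0, c', K, hc', hK, hf⟩ := hf
  refine ⟨fun i => mul_nonneg hc (f0 i), c * c', K, by positivity, hK, fun i => ?_⟩
  rw [mul_assoc]
  exact mul_le_mul_of_nonneg_left (hf i) hc

theorem Qpow (hQ : ∀ i, 1 ≤ Q i) {K : ℝ} (hK : 0 ≤ K) : Bq Q Y D (fun i => Q i ^ K) 0 0 := by
  refine ⟨fun i => Real.rpow_nonneg (by linarith [hQ i]) _, 1, K, zero_le_one, hK, fun i => ?_⟩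
  simp

theorem Dpow (hD : ∀ i, 0 < D i) (g : ℝ) : Bq Q Y D (fun i => D i ^ g) 0 g := by
  refine ⟨fun i => Real.rpow_nonneg (hD i).le _, 1, 0, zero_le_one, le_rfl, fun i => ?_⟩
  simp

theorem Ypow (hY : ∀ i, 0 < Y i) (e : ℝ) : Bq Q Y D (fun i => Y i ^ e) e 0 := by
  refine ⟨fun i => Real.rpow_nonneg (hY i).le _, 1, 0, zero_le_one, le_rfl, fun i => ?_⟩
  simp

theorem const {c : ℝ} (hc : 0 ≤ c) : Bq Q Y D (fun _ => c) 0 0 := by
  refine ⟨fun _ => hc, c, 0, hc, le_rfl, fun i => ?_⟩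
  simp

end Bq

end Leray
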