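import Pool.Agent.Lib.MP_9b9638_an.OneD0
import Pool.Agent.Lib.MP_9b9638_an.OneA
import Pool.Agent.Lib.MP_9b9638_an.OneB
import Pool.Agent.Lib.MP_9b9638_an.OneC1
import Pool.Agent.Lib.MP_9b9638_an.OneC2

/-!
# The case `p = 1`: the configuration produced by the pigeonhole
-/

open MeasureTheory Set Filter Topology TopologicalSpace

noncomputable section

namespace Leray

theorem Gm_nonneg (V : VF) (β η a b r : ℝ) (hη : 0 < η) : 0 ≤ Gm V β η a b r :=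
  setIntegral_nonneg (measurableSet_Sh _ _) fun y _ =>
    mul_nonneg (nm_nonneg _ _) (Real.rpow_nonneg (le_max_of_le_right hη.le) _)

theorem Hm_nonneg (V : VF) (η a b : ℝ) (x : E) (hη : 0 < η) : 0 ≤ Hm V η a b x :=
  setIntegral_nonneg (measurableSet_Sh _ _) fun y _ =>
    mul_nonneg (nm_nonneg _ _) (Real.rpow_nonneg (le_max_of_le_right hη.le) _)

theorem Pm_nonneg (V : VF) (η a b : ℝ) (x : E) (hη : 0 < η) : 0 ≤ Pm V η a b x :=
  setIntegral_nonneg (measurableSet_Sh _ _) fun y _ =>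
    mul_nonneg (nm_nonneg _ _) (pow_nonneg (inv_nonneg.2 (le_max_of_le_right hη.le)) _)

/-- data of a good thin shell, `p = 1` -/
structure Cfg1 (V : VF) (C0 Cw : ℝ) where
  R : ℝ
  δ : ℝ
  θ : ℝ
  r : ℝ
  ε : ℝ
  Y : ℝ
  m : ℝ
  x : ℝ
  η : ℝ
  Ψ : VF
  hR : 1 ≤ R
  hδ : 0 < δ
  hδR : δ ≤ R
  hθ : 0 < θ
  hθ1 : θ ≤ 1
  hr1 : R ≤ r
  hr2 : r ≤ R + δ
  hε : 0 ≤ ε
  hYdef : Y = 1 + W V (R + 4 * δ)
  hY : 1 ≤ Y
  hmdef : m = (∫ y in Sh (R - δ) (R + 4 * δ), nm V y) + θ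
  hmθ : θ ≤ m
  hxdef : x = Y ^ (-(1 / 4) : ℝ) * δ ^ (-(5 / 4) : ℝ) * m ^ (1 / 2 : ℝ)
  hηdef : η = δ * x
  hx0 : 0 < x
  hx1 : x ≤ 1 / 16
  hη0 : 0 < η
  hΨC : ∀ i, ContDiff ℝ 2 (Ψ i)
  hΨd : ∀ y, dv Ψ y = 0
  hΨe : ∀ y, ‖y‖ < R + 8 * δ → nm (fun i z => curl Ψ i z - V i z) y ≤ ε
  hΨc : ∀ y, ‖y‖ < R + 8 * δ → ∀ i, curl (curl Ψ) i y = curl V i y
  hΨb : ∀ y, nm Ψ y ≤ C0 * ∫ z, nm V z / ‖y - z‖ ^ 2
  herr : ε * (1 + η⁻¹) * (∫ y in Metric.closedBall (0 : E) (R + 2 * δ), nm (curl V) y * (1 + nm V y + ‖y‖)) ≤ 1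
  hvol : ε ^ 2 * (volume : Measure E).real (Metric.ball 0 (R + 3 * δ)) ≤ 1
  hw : (∫ y in Sh (r - 3 * η) (r + 4 * η), sq (curl V) y) ≤ 42 * x * Y
  hα : (∫ y in Sh (r - 3 * η) (r + 4 * η), nm V y) ≤ 42 * x * m
  hN : (∫ y in Sh r (r + η), gsq Ψ y) ≤ 6 * x * ((∫ y in Metric.ball (0 : E) (R + 2 * δ), gsq Ψ y) + 1)
  hG3 : Gm V (3 / 2) η (R - δ) (R + 3 * δ) r ≤ 6 * Cw * (η ^ (-(1 / 2) : ℝ) * m * δ⁻¹)
  hG1 : Gm V (1 / 2) η (R - δ) (R + 3 * δ) r ≤ 6 * Cw * (δ ^ (1 / 2 : ℝ) * m * δ⁻¹)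
  hH : (∫ y in Sh r (r + η), Hm V η (R - δ) (R + 3 * δ) y) ≤ 6 * Cw * (η * η ^ (-(1 / 2) : ℝ) * m * δ⁻¹)

theorem cfg1_exists {ν a : ℝ} {V : VF} (hV : SmoothProfile ν a V) (hi : Integrable (nm V)) :
    ∃ C0 Cw : ℝ, 0 < C0 ∧ 0 < Cw ∧ ∀ R δ θ : ℝ, 1 ≤ R → 0 < δ → δ ≤ R → 0 < θ → θ ≤ 1 →
      1 / 16 < (1 + W V (R + 4 * δ)) ^ (-(1 / 4) : ℝ) * δ ^ (-(5 / 4) : ℝ)
          * ((∫ y in Sh (R - δ) (R + 4 * δ), nm V y) + θ) ^ (1 / 2 : ℝ) ∨
      ∃ c : Cfg1 V C0 Cw, c.R = R ∧ c.δ = δ ∧ c.θ = θ := by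
  obtain ⟨C0, hC0, hpsi⟩ := exists_psi_one
  obtain ⟨Cg3, hCg3, hG3⟩ := Gm_avg3
  obtain ⟨Cg1, hCg1, hG1⟩ := Gm_avg1
  obtain ⟨CH, hCH, hHm⟩ := Hm_int
  obtain ⟨Cw, hCwdef⟩ : ∃ Cw, Cw = Cg3 + Cg1 + CH := ⟨_, rfl⟩
  have hCw : 0 < Cw := by rw [hCwdef]; positivity
  have hle3 : Cg3 ≤ Cw := by rw [hCwdef]; linarith
  have hle1 : Cg1 ≤ Cw := by rw [hCwdef]; linarith
  have hleH : CH ≤ Cw := by rw [hCwdef]; linarith
  refine ⟨C0, Cw, hC0, hCw, ?_⟩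
  intro R δ θ hR hδ hδR hθ hθ1
  have hV1 : ∀ i, ContDiff ℝ 1 (V i) := fun i => (hV.smooth i).of_le (by norm_num)
  have cV : ∀ i, Continuous (V i) := fun i => (hV1 i).continuous
  have hω1 : ∀ i, ContDiff ℝ 1 (curl V i) := fun i => contDiff_curl hV.smooth (by norm_num) i
  have cω : ∀ i, Continuous (curl V i) := fun i => (hω1 i).continuous
  have cnV := continuous_nm cV
  obtain ⟨Y, hYdef⟩ : ∃ Y, Y = 1 + W V (R + 4 * δ) := ⟨_, rfl⟩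
  have hW0 := W_nonneg V (R + 4 * δ)
  have hY : 1 ≤ Y := by rw [hYdef]; linarith
  have hY0 : 0 < Y := by linarith
  obtain ⟨m, hmdef⟩ : ∃ m, m = (∫ y in Sh (R - δ) (R + 4 * δ), nm V y) + θ := ⟨_, rfl⟩
  have hμ0 : 0 ≤ ∫ y in Sh (R - δ) (R + 4 * δ), nm V y := setInt_nonneg (measurableSet_Sh _ _) (nm_nonneg V)
  have hmθ : θ ≤ m := by rw [hmdef]; linarith
  have hm0 : 0 < m := by linarith
  obtain ⟨x, hxdef⟩ : ∃ x, x = Y ^ (-(1 / 4) : ℝ) * δ ^ (-(5 / 4) : ℝ) * m ^ (1 / 2 : ℝ) := ⟨_, rfl⟩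
  have hx0 : 0 < x := by rw [hxdef]; positivity
  rcases lt_or_ge (1 / 16) x with hx | hx1
  · left
    rw [hxdef, hYdef, hmdef] at hx
    exact hx
  right
  obtain ⟨η, hηdef⟩ : ∃ η, η = δ * x := ⟨_, rfl⟩
  have hη0 : 0 < η := by rw [hηdef]; positivity
  have hηδ : η ≤ δ / 16 := by
    rw [hηdef]; nlinarith
  -- the error terms
  set Ae := ∫ y in Metric.closedBall (0 : E) (R + 2 * δ), nm (curl V) y * (1 + nm V y + ‖y‖) with hAe
  have hAe0 : 0 ≤ Ae := setIntegral_nonneg measurableSet_closedBall fun y _ =>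
    mul_nonneg (nm_nonneg _ _) (by have := nm_nonneg V y; positivity)
  set v := (volume : Measure E).real (Metric.ball 0 (R + 3 * δ)) with hv
  have hv0 : 0 ≤ v := by positivity
  have hηi : 0 < η⁻¹ := inv_pos.2 hη0
  obtain ⟨ε, hεdef⟩ : ∃ ε, ε = min (1 / ((1 + η⁻¹) * (Ae + 1))) (1 / (v + 1)) := ⟨_, rfl⟩
  have hε : 0 < ε := by rw [hεdef]; positivity
  have herr : ε * (1 + η⁻¹) * Ae ≤ 1 := by
    have h : ε ≤ 1 / ((1 + η⁻¹) * (Ae + 1)) := by rw [hεdef]; exact min_le_left _ _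
    calc ε * (1 + η⁻¹) * Ae ≤ ε * (1 + η⁻¹) * (Ae + 1) := by gcongr; linarith
      _ = ε * ((1 + η⁻¹) * (Ae + 1)) := by ring
      _ ≤ 1 / ((1 + η⁻¹) * (Ae + 1)) * ((1 + η⁻¹) * (Ae + 1)) := by gcongr
      _ = 1 := by field_simp
  have hvol : ε ^ 2 * v ≤ 1 := by
    have h : ε ≤ 1 / (v + 1) := by rw [hεdef]; exact min_le_right _ _
    have h1 : ε ≤ 1 := h.trans (by rw [div_le_one (by positivity)]; linarith)
    calc ε ^ 2 * v = ε * (ε * v) := by ring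
      _ ≤ 1 * (ε * v) := by gcongr
      _ = ε * v := by ring
      _ ≤ 1 / (v + 1) * (v + 1) := by gcongr; linarith
      _ = 1 := by field_simp
  obtain ⟨Ψ, hΨC, hΨd, hΨe, hΨc, hΨb⟩ := hpsi V hV.smooth hV.div0 hi (R + 8 * δ) ε (by positivity) hε
  have hΨ1 : ∀ i, ContDiff ℝ 1 (Ψ i) := fun i => (hΨC i).of_le (by norm_num)
  -- the pigeonhole
  set Nn := (∫ y in Metric.ball (0 : E) (R + 2 * δ), gsq Ψ y) + 1 with hNn
  have hNn0 : 0 ≤ ∫ y in Metric.ball (0 : E) (R + 2 * δ), gsq Ψ y :=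
    setIntegral_nonneg measurableSet_ball fun _ _ => gsq_nonneg _ _
  have cH := continuous_Hm cV hη0 (R - δ) (R + 3 * δ)
  have H0 : ∀ y, 0 ≤ Hm V η (R - δ) (R + 3 * δ) y := fun y => Hm_nonneg V η _ _ y hη0
  have a0 := shell_avg (continuous_sq cω) (fun y => sq_nonneg' _ y) (R := R) (δ := δ) (c := 3 * η) (d := 4 * η)
    hδ (by positivity) (by positivity)
  have a1 := shell_avg cnV (fun y => nm_nonneg V y) (R := R) (δ := δ) (c := 3 * η) (d := 4 * η)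
    hδ (by positivity) (by positivity)
  have a2 := shell_avg (continuous_gsq hΨ1) (fun y => gsq_nonneg _ y) (R := R) (δ := δ) (c := 0) (d := η)
    hδ le_rfl hη0.le
  have a3 := hG3 V η (R - δ) (R + 3 * δ) R δ cV hη0 hδ
  have a4 := hG1 V η (R - δ) (R + 3 * δ) R δ cV hη0 hδ
  have a5 := shell_avg cH H0 (R := R) (δ := δ) (c := 0) (d := η) hδ le_rfl hη0.le
  have hμ3 : ∫ y in Sh (R - δ) (R + 3 * δ), nm V y ≤ m := by
    have : ∫ y in Sh (R - δ) (R + 3 * δ), nm V y ≤ ∫ y in Sh (R - δ) (R + 4 * δ), nm V y :=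
      set_mono (Sh_subset le_rfl (by linarith)) (Sh_sub _ _) cnV (nm_nonneg V)
    rw [hmdef]; linarith
  have b0 : ∫ y in Sh (R - 3 * η) (R + δ + 4 * η), sq (curl V) y ≤ Y := by
    have : ∫ y in Sh (R - 3 * η) (R + δ + 4 * η), sq (curl V) y ≤ W V (R + 4 * δ) :=
      set_mono (Sh_subset_ball (by linarith)) (ball_sub' _) (continuous_sq cω) (fun y => sq_nonneg' _ y)
    rw [hYdef]; linarith
  have b1 : ∫ y in Sh (R - 3 * η) (R + δ + 4 * η), nm V y ≤ m :=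
    (set_mono (Sh_subset (by linarith) (by linarith)) (Sh_sub _ _) cnV (nm_nonneg V)).trans hμ3
  have b2 : ∫ y in Sh (R - 0) (R + δ + η), gsq Ψ y ≤ Nn := by
    have : ∫ y in Sh (R - 0) (R + δ + η), gsq Ψ y ≤ ∫ y in Metric.ball (0 : E) (R + 2 * δ), gsq Ψ y :=
      set_mono (Sh_subset_ball (by linarith)) (ball_sub' _) (continuous_gsq hΨ1) (fun y => gsq_nonneg _ y)
    linarith
  have b5 : ∫ y in Sh (R - 0) (R + δ + η), Hm V η (R - δ) (R + 3 * δ) y ≤ Cw * (η ^ (-(1 / 2) : ℝ) * m) := by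
    have h := hHm V η (R - δ) (R + 3 * δ) (R - 0) (R + δ + η) cV hη0
    refine h.trans ?_
    rw [mul_assoc]
    apply mul_le_mul hleH _ _ hCw.le
    · exact mul_le_mul_of_nonneg_left hμ3 (by positivity)
    · have := setInt_nonneg (measurableSet_Sh (R - δ) (R + 3 * δ)) (nm_nonneg V)
      positivity
  obtain ⟨r, hr, hF⟩ := pigeon (n := 6) hδ
    ![fun r => ∫ y in Sh (r - 3 * η) (r + 4 * η), sq (curl V) y,
      fun r => ∫ y in Sh (r - 3 * η) (r + 4 * η), nm V y,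
      fun r => ∫ y in Sh (r - 0) (r + η), gsq Ψ y,
      fun r => Gm V (3 / 2) η (R - δ) (R + 3 * δ) r,
      fun r => Gm V (1 / 2) η (R - δ) (R + 3 * δ) r,
      fun r => ∫ y in Sh (r - 0) (r + η), Hm V η (R - δ) (R + 3 * δ) y]
    ![7 * η * Y, 7 * η * m, η * Nn, Cw * (η ^ (-(1 / 2) : ℝ) * m), Cw * (δ ^ (1 / 2 : ℝ) * m),
      η * (Cw * (η ^ (-(1 / 2) : ℝ) * m))]
    (by
      intro j
      fin_cases j
      · exact a0.1
      · exact a1.1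
      · exact a2.1
      · exact a3.1
      · exact a4.1
      · exact a5.1)
    (by
      intro j r
      fin_cases j
      · exact setIntegral_nonneg (measurableSet_Sh _ _) fun y _ => sq_nonneg' _ y
      · exact setIntegral_nonneg (measurableSet_Sh _ _) fun y _ => nm_nonneg _ _
      · exact setIntegral_nonneg (measurableSet_Sh _ _) fun y _ => gsq_nonneg _ y
      · exact Gm_nonneg V _ η _ _ r hη0
      · exact Gm_nonneg V _ η _ _ r hη0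
      · exact setIntegral_nonneg (measurableSet_Sh _ _) fun y _ => H0 y)
    (by
      intro j
      fin_cases j
      · show 0 < 7 * η * Y; positivity
      · show 0 < 7 * η * m; positivity
      · show 0 < η * Nn; positivity
      · show 0 < Cw * (η ^ (-(1 / 2) : ℝ) * m); positivity
      · show 0 < Cw * (δ ^ (1 / 2 : ℝ) * m); positivity
      · show 0 < η * (Cw * (η ^ (-(1 / 2) : ℝ) * m)); positivity)
    (by
      intro j
      fin_cases j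
      · show (∫ r in Icc R (R + δ), ∫ y in Sh (r - 3 * η) (r + 4 * η), sq (curl V) y) ≤ 7 * η * Y
        calc _ ≤ (3 * η + 4 * η) * ∫ y in Sh (R - 3 * η) (R + δ + 4 * η), sq (curl V) y := a0.2
          _ ≤ (3 * η + 4 * η) * Y := by gcongr
          _ = _ := by ring
      · show (∫ r in Icc R (R + δ), ∫ y in Sh (r - 3 * η) (r + 4 * η), nm V y) ≤ 7 * η * m
        calc _ ≤ (3 * η + 4 * η) * ∫ y in Sh (R - 3 * η) (R + δ + 4 * η), nm V y := a1.2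
          _ ≤ (3 * η + 4 * η) * m := by gcongr
          _ = _ := by ring
      · show (∫ r in Icc R (R + δ), ∫ y in Sh (r - 0) (r + η), gsq Ψ y) ≤ η * Nn
        calc _ ≤ (0 + η) * ∫ y in Sh (R - 0) (R + δ + η), gsq Ψ y := a2.2
          _ ≤ (0 + η) * Nn := by gcongr
          _ = _ := by ring
      · show (∫ r in Icc R (R + δ), Gm V (3 / 2) η (R - δ) (R + 3 * δ) r) ≤ Cw * (η ^ (-(1 / 2) : ℝ) * m)
        refine a3.2.trans ?_
        rw [mul_assoc]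
        apply mul_le_mul hle3 _ _ hCw.le
        · exact mul_le_mul_of_nonneg_left hμ3 (by positivity)
        · have := setInt_nonneg (measurableSet_Sh (R - δ) (R + 3 * δ)) (nm_nonneg V)
          positivity
      · show (∫ r in Icc R (R + δ), Gm V (1 / 2) η (R - δ) (R + 3 * δ) r) ≤ Cw * (δ ^ (1 / 2 : ℝ) * m)
        refine a4.2.trans ?_
        rw [mul_assoc]
        apply mul_le_mul hle1 _ _ hCw.le
        · exact mul_le_mul_of_nonneg_left hμ3 (by positivity)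
        · have := setInt_nonneg (measurableSet_Sh (R - δ) (R + 3 * δ)) (nm_nonneg V)
          positivity
      · show (∫ r in Icc R (R + δ), ∫ y in Sh (r - 0) (r + η), Hm V η (R - δ) (R + 3 * δ) y) ≤
          η * (Cw * (η ^ (-(1 / 2) : ℝ) * m))
        calc _ ≤ (0 + η) * ∫ y in Sh (R - 0) (R + δ + η), Hm V η (R - δ) (R + 3 * δ) y := a5.2
          _ ≤ (0 + η) * (Cw * (η ^ (-(1 / 2) : ℝ) * m)) := by gcongr
          _ = _ := by ring)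
  have f0 : ∫ y in Sh (r - 3 * η) (r + 4 * η), sq (curl V) y ≤ ((6 : ℕ) : ℝ) * (7 * η * Y) / δ := hF 0
  have f1 : ∫ y in Sh (r - 3 * η) (r + 4 * η), nm V y ≤ ((6 : ℕ) : ℝ) * (7 * η * m) / δ := hF 1
  have f2 : ∫ y in Sh (r - 0) (r + η), gsq Ψ y ≤ ((6 : ℕ) : ℝ) * (η * Nn) / δ := hF 2
  have f3 : Gm V (3 / 2) η (R - δ) (R + 3 * δ) r ≤ ((6 : ℕ) : ℝ) * (Cw * (η ^ (-(1 / 2) : ℝ) * m)) / δ := hF 3
  have f4 : Gm V (1 / 2) η (R - δ) (R + 3 * δ) r ≤ ((6 : ℕ) : ℝ) * (Cw * (δ ^ (1 / 2 : ℝ) * m)) / δ := hF 4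
  have f5 : ∫ y in Sh (r - 0) (r + η), Hm V η (R - δ) (R + 3 * δ) y ≤
    ((6 : ℕ) : ℝ) * (η * (Cw * (η ^ (-(1 / 2) : ℝ) * m))) / δ := hF 5
  have hδ' : δ ≠ 0 := hδ.ne'
  refine ⟨⟨R, δ, θ, r, ε, Y, m, x, η, Ψ, hR, hδ, hδR, hθ, hθ1, hr.1, hr.2, hε.le, hYdef, hY, hmdef, hmθ, hxdef,
    hηdef, hx0, hx1, hη0, hΨC, hΨd, fun y hy => hΨe y hy, fun y hy => hΨc y hy, hΨb, herr, hvol, ?_, ?_, ?_, ?_,
    ?_, ?_⟩, rfl, rfl, rfl⟩
  · refine f0.trans (le_of_eq ?_)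
    rw [hηdef]; push_cast; field_simp; ring
  · refine f1.trans (le_of_eq ?_)
    rw [hηdef]; push_cast; field_simp; ring
  · rw [sub_zero] at f2
    refine f2.trans (le_of_eq ?_)
    show _ = 6 * x * Nn
    rw [hηdef]; push_cast; field_simp
  · refine f3.trans (le_of_eq ?_)
    push_cast; rw [div_eq_mul_inv]; ring
  · refine f4.trans (le_of_eq ?_)
    push_cast; rw [div_eq_mul_inv]; ring
  · rw [sub_zero] at f5
    refine f5.trans (le_of_eq ?_)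
    push_cast; rw [div_eq_mul_inv]; ring

end Leray
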