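import Pool.Agent.Lib.MP_9b9638_an.OneD1

/-!
# The case `p = 1`: integral inequalities on one shell
-/

open MeasureTheory Set Filter Topology TopologicalSpace

noncomputable section

namespace Leray

/-- bound for integrals against the vector potential -/
theorem int_psi_le_one {S : Set E} (hS : ∃ r : ℝ, S ⊆ Metric.closedBall 0 r) (hm : MeasurableSet S)
    {V Ψ : VF} {η C0 F : ℝ} (hη : 0 < η) (hV : ∀ i, Continuous (V i)) (hΨ : ∀ i, Continuous (Ψ i))
    {P : E → ℝ} (hP : Continuous P)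
    (hb : ∀ y ∈ S, nm Ψ y ≤ C0 * (Pn V η y + P y + F)) {g : E → ℝ} (hg : Continuous g) (g0 : ∀ x, 0 ≤ g x) :
    ∫ y in S, g y * nm Ψ y ≤ C0 * ((∫ y in S, g y * Pn V η y) + (∫ y in S, g y * P y) + F * ∫ y in S, g y) := by
  have cP := continuous_Pn hV hη
  have cΨ := continuous_nm hΨ
  have h1 : ∫ y in S, g y * nm Ψ y ≤ ∫ y in S, (C0 * (g y * Pn V η y) + C0 * (g y * P y) + C0 * F * g y) := by
    apply setIntegral_mono_on (cont_int_on hS (hg.mul cΨ)) (cont_int_on hS (by fun_prop)) hm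
    intro y hy
    have := hb y hy
    calc g y * nm Ψ y ≤ g y * (C0 * (Pn V η y + P y + F)) := mul_le_mul_of_nonneg_left this (g0 y)
      _ = _ := by ring
  rw [integral_add (cont_int_on hS (by fun_prop)) (cont_int_on hS (by fun_prop)),
    integral_add (cont_int_on hS (by fun_prop)) (cont_int_on hS (by fun_prop)), integral_const_mul,
    integral_const_mul, integral_const_mul] at h1
  linarith

theorem rpow_quarter {a : ℝ} (ha : 0 ≤ a) : (a ^ (1 / 2 : ℝ)) ^ (1 / 2 : ℝ) = a ^ (1 / 4 : ℝ) := by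
  rw [← Real.rpow_mul ha]; norm_num

/-- the three integrals with the vector potential -/
theorem psi_terms_one : ∃ Cn : ℝ, 0 < Cn ∧ ∀ (V Ψ : VF) (P : E → ℝ) (r η C0 F : ℝ), (∀ i, ContDiff ℝ 3 (V i)) →
    (∀ i, Continuous (Ψ i)) → Continuous P → (∀ x, 0 ≤ P x) → 0 < η → 0 < r → 0 ≤ C0 → 0 ≤ F →
    (∀ y ∈ Sh r (r + η), nm Ψ y ≤ C0 * (Pn V η y + P y + F)) →
    (∫ y in Sh r (r + η), nm (curl V) y * nm Ψ y) ≤ C0 * ((∫ y in Sh r (r + η), sq (curl V) y) ^ (1 / 2 : ℝ) *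
        (Cn * η * (∫ y in Sh (r - η) (r + 2 * η), sq V y) ^ (1 / 2 : ℝ))
        + (∫ y in Sh r (r + η), sq (curl V) y) ^ (1 / 2 : ℝ) * (∫ y in Sh r (r + η), P y ^ 2) ^ (1 / 2 : ℝ)
        + F * ((∫ y in Sh r (r + η), sq (curl V) y) ^ (1 / 2 : ℝ) * ((volume : Measure E).real (Sh r (r + η))) ^ (1 / 2 : ℝ))) ∧
    (∫ y in Sh r (r + η), nm (curl V) y * nm V y * nm Ψ y) ≤ C0 * ((∫ y in Sh r (r + η), sq (curl V) y) ^ (1 / 2 : ℝ) *
        (Cn * η * (∫ y in Sh (r - η) (r + 2 * η), nm V y ^ 4) ^ (1 / 2 : ℝ))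
        + (∫ y in Sh r (r + η), sq (curl V) y) ^ (1 / 2 : ℝ) *
          ((∫ y in Sh (r - η) (r + 2 * η), nm V y ^ 4) ^ (1 / 4 : ℝ) * (∫ y in Sh r (r + η), P y ^ 4) ^ (1 / 4 : ℝ))
        + F * ((∫ y in Sh r (r + η), sq (curl V) y) ^ (1 / 2 : ℝ) * (∫ y in Sh (r - η) (r + 2 * η), sq V y) ^ (1 / 2 : ℝ))) ∧
    (∫ y in Sh r (r + η), nm V y * nm Ψ y) ≤ C0 * ((∫ y in Sh (r - η) (r + 2 * η), sq V y) ^ (1 / 2 : ℝ) *
        (Cn * η * (∫ y in Sh (r - η) (r + 2 * η), sq V y) ^ (1 / 2 : ℝ))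
        + (∫ y in Sh (r - η) (r + 2 * η), sq V y) ^ (1 / 2 : ℝ) * (∫ y in Sh r (r + η), P y ^ 2) ^ (1 / 2 : ℝ)
        + F * ((∫ y in Sh (r - η) (r + 2 * η), sq V y) ^ (1 / 2 : ℝ) * ((volume : Measure E).real (Sh r (r + η))) ^ (1 / 2 : ℝ))) := by
  obtain ⟨C2, hC2, hn2⟩ := near_shell 2 (by norm_num)
  obtain ⟨C4, hC4, hn4⟩ := near_shell 4 (by norm_num)
  refine ⟨C2 + C4, by positivity, ?_⟩
  intro V Ψ P r η C0 F hV3 hΨ hPc hP0 hη hr hC0 hF hb
  have hV1 : ∀ i, ContDiff ℝ 1 (V i) := fun i => (hV3 i).of_le (by norm_num)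
  have cV : ∀ i, Continuous (V i) := fun i => (hV1 i).continuous
  have cω : ∀ i, Continuous (curl V i) := continuous_curl hV1
  have cnV := continuous_nm cV
  have cnω := continuous_nm cω
  have csV := continuous_sq cV
  have cP := continuous_Pn cV hη
  have hS := Sh_sub r (r + η)
  have hm := measurableSet_Sh r (r + η)
  have hSub : Sh r (r + η) ⊆ Sh (r - η) (r + 2 * η) := Sh_subset (by linarith) (by linarith)
  set ws := ∫ y in Sh r (r + η), sq (curl V) y with hws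
  set M := ∫ y in Sh (r - η) (r + 2 * η), sq V y with hM
  set L := ∫ y in Sh (r - η) (r + 2 * η), nm V y ^ 4 with hL
  have hws0 : 0 ≤ ws := setInt_nonneg hm fun _ => sq_nonneg' _ _
  have hM0 : 0 ≤ M := setInt_nonneg (measurableSet_Sh _ _) fun _ => sq_nonneg' _ _
  have hL0 : 0 ≤ L := setInt_nonneg (measurableSet_Sh _ _) fun x => by positivity
  have hMS : ∫ y in Sh r (r + η), sq V y ≤ M := set_mono hSub (Sh_sub _ _) csV (fun _ => sq_nonneg' _ _)
  have hLS : ∫ y in Sh r (r + η), nm V y ^ 4 ≤ L := set_mono hSub (Sh_sub _ _) (cnV.pow 4) (fun x => by positivity)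
  have hMS' : (∫ y in Sh r (r + η), sq V y) ^ (1 / 2 : ℝ) ≤ M ^ (1 / 2 : ℝ) :=
    Real.rpow_le_rpow (setInt_nonneg hm fun _ => sq_nonneg' _ _) hMS (by norm_num)
  have hP2 : (∫ x in Sh r (r + η), Pn V η x ^ 2) ^ (1 / 2 : ℝ) ≤ (C2 + C4) * η * M ^ (1 / 2 : ℝ) := by
    refine (near_sq hC2.le hη (hn2 V r (r + η) η cV hη)).trans ?_
    have : 0 ≤ M ^ (1 / 2 : ℝ) := by positivity
    gcongr
    linarith
  have hP4 : (∫ x in Sh r (r + η), Pn V η x ^ 4) ≤ ((C2 + C4) * η) ^ 4 * L := by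
    have h := hn4 V r (r + η) η cV hη
    have e : r + η + η = r + 2 * η := by ring
    rw [e] at h
    refine h.trans ?_
    gcongr
    linarith
  have nmω2 : ∀ y, nm (curl V) y ^ 2 = sq (curl V) y := nm_sq _
  have nmV2 : ∀ y, nm V y ^ 2 = sq V y := nm_sq _
  have P0 : ∀ y, 0 ≤ Pn V η y := Pn_nonneg V η
  -- a product of three functions
  have q3gen : ∀ (T : E → ℝ) (B : ℝ), Continuous T → (∀ y, 0 ≤ T y) → 0 ≤ B →
      (∫ x in Sh r (r + η), T x ^ 4) ≤ B ^ 4 →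
      ∫ y in Sh r (r + η), nm (curl V) y * nm V y * T y ≤ ws ^ (1 / 2 : ℝ) * (B * L ^ (1 / 4 : ℝ)) := by
    intro T B cT T0 hB hTB
    have h := cs_set hS (g := fun y => nm V y * T y) cnω (cnV.mul cT) (nm_nonneg _)
      (fun y => mul_nonneg (nm_nonneg V y) (T0 y))
    simp only [nmω2] at h
    have e1 : ∫ y in Sh r (r + η), nm (curl V) y * nm V y * T y
        = ∫ y in Sh r (r + η), nm (curl V) y * (nm V y * T y) := by
      congr 1; funext y; ring
    rw [e1]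
    refine h.trans (mul_le_mul_of_nonneg_left ?_ (by positivity))
    have h2 := cs_set hS (f := fun y => nm V y ^ 2) (g := fun y => T y ^ 2) (cnV.pow 2) (cT.pow 2)
      (fun y => by positivity) (fun y => by positivity)
    have e2 : ∀ y, (nm V y * T y) ^ 2 = nm V y ^ 2 * T y ^ 2 := fun y => by ring
    have e3 : ∀ y, (nm V y ^ 2) ^ 2 = nm V y ^ 4 := fun y => by ring
    have e4 : ∀ y, (T y ^ 2) ^ 2 = T y ^ 4 := fun y => by ring
    simp only [e3, e4] at h2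
    simp only [e2]
    have hn0 : 0 ≤ ∫ x in Sh r (r + η), T x ^ 4 := setInt_nonneg hm fun x => by positivity
    have h3 : ∫ y in Sh r (r + η), nm V y ^ 2 * T y ^ 2 ≤ (B * L ^ (1 / 4 : ℝ)) ^ 2 := by
      refine h2.trans ?_
      calc _ ≤ L ^ (1 / 2 : ℝ) * (B ^ 4) ^ (1 / 2 : ℝ) := by
            apply mul_le_mul
            · exact Real.rpow_le_rpow (setInt_nonneg hm fun x => by positivity) hLS (by norm_num)
            · exact Real.rpow_le_rpow hn0 hTB (by norm_num)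
            · positivity
            · positivity
        _ = (B * L ^ (1 / 4 : ℝ)) ^ 2 := by
            have e5 : (L ^ (1 / 4 : ℝ)) ^ 2 = L ^ (1 / 2 : ℝ) := by
              rw [← Real.rpow_natCast (L ^ (1 / 4 : ℝ)) 2, ← Real.rpow_mul hL0]; norm_num
            rw [show B ^ 4 = (B ^ 2) ^ 2 by ring, rpow_half_sq (by positivity), mul_pow, e5]
            ring
    calc _ ≤ ((B * L ^ (1 / 4 : ℝ)) ^ 2) ^ (1 / 2 : ℝ) :=
          Real.rpow_le_rpow (setInt_nonneg hm fun x => by positivity) h3 (by norm_num)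
      _ = _ := rpow_half_sq (by positivity)
  -- products
  have q1 : ∫ y in Sh r (r + η), nm (curl V) y * Pn V η y ≤ ws ^ (1 / 2 : ℝ) * ((C2 + C4) * η * M ^ (1 / 2 : ℝ)) := by
    have h := cs_set hS cnω cP (nm_nonneg _) P0
    simp only [nmω2] at h
    exact h.trans (mul_le_mul_of_nonneg_left hP2 (by positivity))
  have q1m : ∫ y in Sh r (r + η), nm (curl V) y * P y ≤ ws ^ (1 / 2 : ℝ) * (∫ y in Sh r (r + η), P y ^ 2) ^ (1 / 2 : ℝ) := by
    have h := cs_set hS cnω hPc (nm_nonneg _) hP0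
    simpa only [nmω2] using h
  have q1' : ∫ y in Sh r (r + η), nm (curl V) y ≤ ws ^ (1 / 2 : ℝ) * ((volume : Measure E).real (Sh r (r + η))) ^ (1 / 2 : ℝ) := by
    have h := cs_const hS hm cnω (nm_nonneg _)
    simpa only [nmω2] using h
  have q3 : ∫ y in Sh r (r + η), nm V y * Pn V η y ≤ M ^ (1 / 2 : ℝ) * ((C2 + C4) * η * M ^ (1 / 2 : ℝ)) := by
    have h := cs_set hS cnV cP (nm_nonneg _) P0
    simp only [nmV2] at h
    exact h.trans (mul_le_mul hMS' hP2 (Real.rpow_nonneg (setInt_nonneg hm fun x => by positivity) _) (by positivity))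
  have q3m : ∫ y in Sh r (r + η), nm V y * P y ≤ M ^ (1 / 2 : ℝ) * (∫ y in Sh r (r + η), P y ^ 2) ^ (1 / 2 : ℝ) := by
    have h := cs_set hS cnV hPc (nm_nonneg _) hP0
    simp only [nmV2] at h
    exact h.trans (mul_le_mul_of_nonneg_right hMS' (Real.rpow_nonneg (setInt_nonneg hm fun x => by positivity) _))
  have q3' : ∫ y in Sh r (r + η), nm V y ≤ M ^ (1 / 2 : ℝ) * ((volume : Measure E).real (Sh r (r + η))) ^ (1 / 2 : ℝ) := by
    have h := cs_const hS hm cnV (nm_nonneg _)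
    simp only [nmV2] at h
    exact h.trans (mul_le_mul_of_nonneg_right hMS' (by positivity))
  have q2' : ∫ y in Sh r (r + η), nm (curl V) y * nm V y ≤ ws ^ (1 / 2 : ℝ) * M ^ (1 / 2 : ℝ) := by
    have h := cs_set hS cnω cnV (nm_nonneg _) (nm_nonneg _)
    simp only [nmω2, nmV2] at h
    exact h.trans (mul_le_mul_of_nonneg_left hMS' (by positivity))
  have q2 : ∫ y in Sh r (r + η), nm (curl V) y * nm V y * Pn V η y
      ≤ ws ^ (1 / 2 : ℝ) * ((C2 + C4) * η * L ^ (1 / 2 : ℝ)) := by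
    have eL : (L ^ (1 / 4 : ℝ)) ^ 4 = L := by
      rw [← Real.rpow_natCast (L ^ (1 / 4 : ℝ)) 4, ← Real.rpow_mul hL0]; norm_num
    have h := q3gen (Pn V η) ((C2 + C4) * η * L ^ (1 / 4 : ℝ)) cP P0 (by positivity)
      (by rw [mul_pow, eL]; exact hP4)
    refine h.trans (le_of_eq ?_)
    have e5 : L ^ (1 / 4 : ℝ) * L ^ (1 / 4 : ℝ) = L ^ (1 / 2 : ℝ) := by
      rw [← Real.rpow_add_of_nonneg hL0 (by norm_num) (by norm_num)]; norm_num
    rw [mul_assoc ((C2 + C4) * η), e5]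
  have q2m : ∫ y in Sh r (r + η), nm (curl V) y * nm V y * P y
      ≤ ws ^ (1 / 2 : ℝ) * (L ^ (1 / 4 : ℝ) * (∫ y in Sh r (r + η), P y ^ 4) ^ (1 / 4 : ℝ)) := by
    have hP40 : 0 ≤ ∫ y in Sh r (r + η), P y ^ 4 := setInt_nonneg hm fun x => by positivity
    have eP : ((∫ y in Sh r (r + η), P y ^ 4) ^ (1 / 4 : ℝ)) ^ 4 = ∫ y in Sh r (r + η), P y ^ 4 := by
      rw [← Real.rpow_natCast _ 4, ← Real.rpow_mul hP40]; norm_num
    have h := q3gen P ((∫ y in Sh r (r + η), P y ^ 4) ^ (1 / 4 : ℝ)) hPc hP0 (by positivity) eP.ge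
    refine h.trans (le_of_eq ?_)
    ring
  refine ⟨?_, ?_, ?_⟩
  · refine (int_psi_le_one hS hm hη cV hΨ hPc hb cnω (nm_nonneg _)).trans ?_
    gcongr
  · refine (int_psi_le_one hS hm hη cV hΨ hPc hb (g := fun y => nm (curl V) y * nm V y) (cnω.mul cnV)
      (fun y => mul_nonneg (nm_nonneg _ y) (nm_nonneg _ y))).trans ?_
    gcongr
  · refine (int_psi_le_one hS hm hη cV hΨ hPc hb cnV (nm_nonneg _)).trans ?_
    gcongr

end Leray
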