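import Pool.Agent.Lib.MP_9b9638_an.OneD2

/-!
# The case `p = 1`: bounds for the basic quantities
-/

open MeasureTheory Set Filter Topology TopologicalSpace

noncomputable section

namespace Leray

namespace Cfg1

variable {V : VF} {C0 Cw : ℝ}

theorem Y_pos (c : Cfg1 V C0 Cw) : 0 < c.Y := by linarith [c.hY]
theorem m_pos (c : Cfg1 V C0 Cw) : 0 < c.m := by linarith [c.hθ, c.hmθ]
theorem δ_pos (c : Cfg1 V C0 Cw) : 0 < c.δ := c.hδ

/-- bounds by `c Y^e δ^g m^a` -/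
abbrev BB (V : VF) (C0 Cw : ℝ) (f : Cfg1 V C0 Cw → ℝ) (e g a : ℝ) : Prop := B3 Cfg1.Y Cfg1.δ Cfg1.m f e g a

theorem r_pos (c : Cfg1 V C0 Cw) : 0 < c.r := by linarith [c.hR, c.hr1]

theorem δ_lt (c : Cfg1 V C0 Cw) : 16 * c.η ≤ c.δ := by
  have := c.hηdef; have := c.hx1; have := c.hδ
  nlinarith

theorem η_le_r (c : Cfg1 V C0 Cw) : 16 * c.η ≤ c.r := by
  have := c.δ_lt; have := c.hδR; have := c.hr1
  linarith

theorem bbY : BB V C0 Cw (fun c => c.Y) 1 0 0 :=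
  ⟨fun c => c.Y_pos.le, 1, zero_le_one, fun c => by simp⟩

theorem bbδ : BB V C0 Cw (fun c => c.δ) 0 1 0 :=
  ⟨fun c => c.δ_pos.le, 1, zero_le_one, fun c => by simp⟩

theorem bbδi : BB V C0 Cw (fun c => c.δ⁻¹) 0 (-1) 0 :=
  ⟨fun c => (inv_pos.2 c.δ_pos).le, 1, zero_le_one, fun c => by
    rw [Real.rpow_neg_one]; simp⟩

theorem bbm : BB V C0 Cw (fun c => c.m) 0 0 1 :=
  ⟨fun c => c.m_pos.le, 1, zero_le_one, fun c => by simp⟩

theorem bbx : BB V C0 Cw (fun c => c.x) (-(1 / 4)) (-(5 / 4)) (1 / 2) :=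
  (B3.base Y_pos δ_pos m_pos _ _ _).le (fun c => c.hxdef.le) (fun c => c.hx0.le)

theorem bbxi : BB V C0 Cw (fun c => c.x⁻¹) (1 / 4) (5 / 4) (-(1 / 2)) :=
  (B3.base Y_pos δ_pos m_pos _ _ _).le (fun c => by
    have h1 := c.Y_pos
    have h2 := c.δ_pos
    have h3 := c.m_pos
    rw [c.hxdef, mul_inv, mul_inv, ← Real.rpow_neg h1.le, ← Real.rpow_neg h2.le, ← Real.rpow_neg h3.le,
      neg_neg, neg_neg]) (fun c => (inv_pos.2 c.hx0).le)

theorem bbη : BB V C0 Cw (fun c => c.η) (-(1 / 4)) (-(1 / 4)) (1 / 2) :=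
  ((bbδ.mul Y_pos δ_pos m_pos bbx).le (fun c => c.hηdef.le) (fun c => c.hη0.le)).mono_eq
    (by norm_num) (by norm_num) (by norm_num)

theorem ηi_eq (c : Cfg1 V C0 Cw) : c.η⁻¹ = c.δ⁻¹ * c.x⁻¹ := by
  rw [c.hηdef, mul_inv]

theorem bbηi : BB V C0 Cw (fun c => c.η⁻¹) (1 / 4) (1 / 4) (-(1 / 2)) :=
  ((bbδi.mul Y_pos δ_pos m_pos bbxi).le (fun c => c.ηi_eq.le) (fun c => (inv_pos.2 c.hη0).le)).mono_eq
    (by norm_num) (by norm_num) (by norm_num)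

/-- the enstrophy of the shell -/
def w (c : Cfg1 V C0 Cw) : ℝ := ∫ y in Sh (c.r - 3 * c.η) (c.r + 4 * c.η), sq (curl V) y

theorem w_nonneg (c : Cfg1 V C0 Cw) : 0 ≤ c.w := setInt_nonneg (measurableSet_Sh _ _) fun _ => sq_nonneg' _ _

theorem bbw : BB V C0 Cw (fun c => c.w) (3 / 4) (-(5 / 4)) (1 / 2) :=
  (((bbx.mul Y_pos δ_pos m_pos bbY).const_mul (c := 42) (by norm_num)).le
    (fun c => by have := c.hw; unfold w; linarith) w_nonneg).mono_eq (by norm_num) (by norm_num) (by norm_num)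

/-- the `L^1` content of the shell -/
def α (c : Cfg1 V C0 Cw) : ℝ := ∫ y in Sh (c.r - 3 * c.η) (c.r + 4 * c.η), nm V y

theorem α_nonneg (c : Cfg1 V C0 Cw) : 0 ≤ c.α :=
  setInt_nonneg (measurableSet_Sh _ _) fun _ => nm_nonneg _ _

theorem bbα : BB V C0 Cw (fun c => c.α) (-(1 / 4)) (-(5 / 4)) (3 / 2) :=
  (((bbx.mul Y_pos δ_pos m_pos bbm).const_mul (c := 42) (by norm_num)).le
    (fun c => by have := c.hα; unfold α; linarith) α_nonneg).mono_eq (by norm_num) (by norm_num) (by norm_num)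

/-! ### Sobolev -/

/-- `∫ |V|^6` on the intermediate shell -/
def I6 (c : Cfg1 V C0 Cw) : ℝ := ∫ y in Sh (c.r - c.η) (c.r + 2 * c.η), sq V y ^ 3
/-- `∫ |V|^2` on the intermediate shell -/
def M (c : Cfg1 V C0 Cw) : ℝ := ∫ y in Sh (c.r - c.η) (c.r + 2 * c.η), sq V y
/-- `∫ |V|^4` on the intermediate shell -/
def L4 (c : Cfg1 V C0 Cw) : ℝ := ∫ y in Sh (c.r - c.η) (c.r + 2 * c.η), nm V y ^ 4

theorem I6_nonneg (c : Cfg1 V C0 Cw) : 0 ≤ c.I6 :=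
  setInt_nonneg (measurableSet_Sh _ _) fun _ => pow_nonneg (sq_nonneg' _ _) 3
theorem M_nonneg (c : Cfg1 V C0 Cw) : 0 ≤ c.M :=
  setInt_nonneg (measurableSet_Sh _ _) fun _ => sq_nonneg' _ _
theorem L4_nonneg (c : Cfg1 V C0 Cw) : 0 ≤ c.L4 :=
  setInt_nonneg (measurableSet_Sh _ _) fun _ => by positivity

theorem cube_of_third {a : ℝ} (ha : 0 ≤ a) : (a ^ (1 / 3 : ℝ)) ^ (3 : ℝ) = a := by
  rw [← Real.rpow_mul ha]; norm_num

theorem bbI6 (hV : ∀ i, ContDiff ℝ 3 (V i)) (hd : ∀ x, dv V x = 0) :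
    BB V C0 Cw (fun c => c.I6) (9 / 4) (-(15 / 4)) (3 / 2) := by
  obtain ⟨C, hC, hsob⟩ := shell_sobolev_one
  have hV1 : ∀ i, ContDiff ℝ 1 (V i) := fun i => (hV i).of_le (by norm_num)
  have cV : ∀ i, Continuous (V i) := fun i => (hV1 i).continuous
  have cω : ∀ i, Continuous (curl V i) := continuous_curl hV1
  have b1 : BB V C0 Cw (fun c => c.η⁻¹ ^ (5 : ℝ) * c.α ^ (2 : ℝ)) (3 / 4) (-(5 / 4)) (1 / 2) :=
    ((bbηi.rpow Y_pos δ_pos m_pos (t := 5) (by norm_num)).mul Y_pos δ_pos m_pos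
      (bbα.rpow Y_pos δ_pos m_pos (t := 2) (by norm_num))).mono_eq (by norm_num) (by norm_num) (by norm_num)
  have b3 := ((bbw.add b1).const_mul hC.le).rpow Y_pos δ_pos m_pos (t := 3) (by norm_num)
  refine (b3.le (fun c => ?_) (fun c => c.I6_nonneg)).mono_eq (by norm_num) (by norm_num) (by norm_num)
  have h := hsob V (c.r - c.η) (c.r + 2 * c.η) c.η hV hd c.hη0 (by linarith [c.η_le_r, c.hη0]) (by linarith [c.hη0])
  have hη := c.hη0
  have hsub : Sh (c.r - c.η - c.η) (c.r + 2 * c.η + c.η) ⊆ Sh (c.r - 3 * c.η) (c.r + 4 * c.η) :=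
    Sh_subset (by linarith) (by linarith)
  have i1 : ∫ x in Sh (c.r - c.η - c.η) (c.r + 2 * c.η + c.η), sq (curl V) x ≤ c.w :=
    set_mono hsub (Sh_sub _ _) (continuous_sq cω) fun _ => sq_nonneg' _ _
  have i2 : ∫ x in Sh (c.r - c.η - c.η) (c.r + 2 * c.η + c.η), nm V x ≤ c.α :=
    set_mono hsub (Sh_sub _ _) (continuous_nm cV) fun _ => nm_nonneg _ _
  have i0 : 0 ≤ ∫ x in Sh (c.r - c.η - c.η) (c.r + 2 * c.η + c.η), nm V x :=
    setInt_nonneg (measurableSet_Sh _ _) fun _ => nm_nonneg _ _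
  have e5 : c.η⁻¹ ^ (5 : ℝ) = c.η⁻¹ ^ 5 := by
    rw [show (5 : ℝ) = ((5 : ℕ) : ℝ) by norm_num, Real.rpow_natCast]
  have e2 : c.α ^ (2 : ℝ) = c.α ^ 2 := by
    rw [show (2 : ℝ) = ((2 : ℕ) : ℝ) by norm_num, Real.rpow_natCast]
  have h' : c.I6 ^ (1 / 3 : ℝ) ≤ C * (c.w + c.η⁻¹ ^ (5 : ℝ) * c.α ^ (2 : ℝ)) := by
    refine h.trans ?_
    rw [e5, e2]
    have : 0 ≤ c.η⁻¹ ^ 5 := by positivity
    gcongr
  calc c.I6 = (c.I6 ^ (1 / 3 : ℝ)) ^ (3 : ℝ) := (cube_of_third c.I6_nonneg).symm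
    _ ≤ _ := Real.rpow_le_rpow (Real.rpow_nonneg c.I6_nonneg _) h' (by norm_num)

theorem shell_interp_one {q : ℝ} (hV : ∀ i, ContDiff ℝ 3 (V i)) (hq1 : 1 < q) (hq : q < 6)
    (h6 : BB V C0 Cw (fun c => c.I6) (9 / 4) (-(15 / 4)) (3 / 2)) :
    BB V C0 Cw (fun c => ∫ y in Sh (c.r - c.η) (c.r + 2 * c.η), nm V y ^ q)
      (9 / 4 * ((q - 1) / 5) + (-(1 / 4)) * ((6 - q) / 5)) (-(15 / 4) * ((q - 1) / 5) + (-(5 / 4)) * ((6 - q) / 5))
      (3 / 2 * ((q - 1) / 5) + 3 / 2 * ((6 - q) / 5)) := by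
  have cV : ∀ i, Continuous (V i) := fun i => (hV i).continuous
  have h := (h6.rpow Y_pos δ_pos m_pos (t := (q - 1) / 5) (by linarith)).mul Y_pos δ_pos m_pos
    (bbα.rpow Y_pos δ_pos m_pos (t := (6 - q) / 5) (by linarith))
  refine h.le (fun c => ?_) (fun c => setInt_nonneg (measurableSet_Sh _ _) fun _ => Real.rpow_nonneg (nm_nonneg _ _) _)
  have hη := c.hη0
  have hi := interp_nm (Sh_sub (c.r - c.η) (c.r + 2 * c.η)) cV (p := 1) (q := q) one_pos hq1 hq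
  simp only [Real.rpow_one] at hi
  rw [show (6 : ℝ) - 1 = 5 by norm_num] at hi
  refine hi.trans ?_
  have i2 : ∫ x in Sh (c.r - c.η) (c.r + 2 * c.η), nm V x ≤ c.α :=
    set_mono (Sh_subset (by linarith) (by linarith)) (Sh_sub _ _) (continuous_nm cV) fun _ => nm_nonneg _ _
  have i0 : 0 ≤ ∫ x in Sh (c.r - c.η) (c.r + 2 * c.η), nm V x :=
    setInt_nonneg (measurableSet_Sh _ _) fun _ => nm_nonneg _ _
  exact mul_le_mul_of_nonneg_left (Real.rpow_le_rpow i0 i2 (by linarith))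
    (Real.rpow_nonneg c.I6_nonneg _)

theorem bbM (hV : ∀ i, ContDiff ℝ 3 (V i))
    (h6 : BB V C0 Cw (fun c => c.I6) (9 / 4) (-(15 / 4)) (3 / 2)) :
    BB V C0 Cw (fun c => c.M) (1 / 4) (-(7 / 4)) (3 / 2) := by
  have := shell_interp_one (q := 2) hV (by norm_num) (by norm_num) h6
  refine (this.le (fun c => le_of_eq ?_) (fun c => c.M_nonneg)).mono_eq (by norm_num) (by norm_num) (by norm_num)
  unfold M
  congr 1; funext y
  rw [← nm_sq V y, show (2 : ℝ) = ((2 : ℕ) : ℝ) by norm_num, Real.rpow_natCast]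

theorem bbL4 (hV : ∀ i, ContDiff ℝ 3 (V i))
    (h6 : BB V C0 Cw (fun c => c.I6) (9 / 4) (-(15 / 4)) (3 / 2)) :
    BB V C0 Cw (fun c => c.L4) (5 / 4) (-(11 / 4)) (3 / 2) := by
  have := shell_interp_one (q := 4) hV (by norm_num) (by norm_num) h6
  refine (this.le (fun c => le_of_eq ?_) (fun c => c.L4_nonneg)).mono_eq (by norm_num) (by norm_num) (by norm_num)
  unfold L4
  congr 1; funext y
  rw [show (4 : ℝ) = ((4 : ℕ) : ℝ) by norm_num, Real.rpow_natCast]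

/-! ### the mid-range potential -/

/-- the mid-range potential -/
def PP (c : Cfg1 V C0 Cw) (y : E) : ℝ := Pm V c.η (c.R - c.δ) (c.R + 3 * c.δ) y

/-- its square integral -/
def P2 (c : Cfg1 V C0 Cw) : ℝ := ∫ y in Sh c.r (c.r + c.η), c.PP y ^ 2
/-- the integral of its fourth power -/
def P4 (c : Cfg1 V C0 Cw) : ℝ := ∫ y in Sh c.r (c.r + c.η), c.PP y ^ 4

theorem PP_nonneg (c : Cfg1 V C0 Cw) (y : E) : 0 ≤ c.PP y := Pm_nonneg _ _ _ _ _ c.hη0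
theorem P2_nonneg (c : Cfg1 V C0 Cw) : 0 ≤ c.P2 := setInt_nonneg (measurableSet_Sh _ _) fun _ => sq_nonneg _
theorem P4_nonneg (c : Cfg1 V C0 Cw) : 0 ≤ c.P4 := setInt_nonneg (measurableSet_Sh _ _) fun _ => by positivity

/-- the integral of the auxiliary potential -/
def Hs (c : Cfg1 V C0 Cw) : ℝ := ∫ y in Sh c.r (c.r + c.η), Hm V c.η (c.R - c.δ) (c.R + 3 * c.δ) y

theorem Hs_nonneg (c : Cfg1 V C0 Cw) : 0 ≤ c.Hs :=
  setInt_nonneg (measurableSet_Sh _ _) fun y => Hm_nonneg _ _ _ _ y c.hη0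

theorem bbηh : BB V C0 Cw (fun c => c.η ^ (-(1 / 2) : ℝ)) (1 / 8) (1 / 8) (-(1 / 4)) := by
  refine ((bbηi.rpow Y_pos δ_pos m_pos (t := 1 / 2) (by norm_num)).le (fun c => ?_)
    (fun c => Real.rpow_nonneg c.hη0.le _)).mono_eq (by norm_num) (by norm_num) (by norm_num)
  rw [Real.inv_rpow c.hη0.le, ← Real.rpow_neg c.hη0.le]

theorem bbHs (hCw : 0 < Cw) : BB V C0 Cw (fun c => c.Hs) (-(1 / 8)) (-(9 / 8)) (5 / 4) :=
  (((((bbη.mul Y_pos δ_pos m_pos bbηh).mul Y_pos δ_pos m_pos bbm).mul Y_pos δ_pos m_pos bbδi).const_mul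
    (c := 6 * Cw) (by positivity)).le (fun c => c.hH) (fun c => c.Hs_nonneg)).mono_eq
      (by norm_num) (by norm_num) (by norm_num)

/-- weighted masses -/
def G3 (c : Cfg1 V C0 Cw) : ℝ := Gm V (3 / 2) c.η (c.R - c.δ) (c.R + 3 * c.δ) c.r
def G1 (c : Cfg1 V C0 Cw) : ℝ := Gm V (1 / 2) c.η (c.R - c.δ) (c.R + 3 * c.δ) c.r

theorem G3_nonneg (c : Cfg1 V C0 Cw) : 0 ≤ c.G3 := Gm_nonneg _ _ _ _ _ _ c.hη0
theorem G1_nonneg (c : Cfg1 V C0 Cw) : 0 ≤ c.G1 := Gm_nonneg _ _ _ _ _ _ c.hη0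

theorem bbG3 (hCw : 0 < Cw) : BB V C0 Cw (fun c => c.G3) (1 / 8) (-(7 / 8)) (3 / 4) :=
  ((((bbηh.mul Y_pos δ_pos m_pos bbm).mul Y_pos δ_pos m_pos bbδi).const_mul
    (c := 6 * Cw) (by positivity)).le (fun c => c.hG3) (fun c => c.G3_nonneg)).mono_eq
      (by norm_num) (by norm_num) (by norm_num)

theorem bbG1 (hCw : 0 < Cw) : BB V C0 Cw (fun c => c.G1) 0 (-(1 / 2)) 1 :=
  (((((bbδ.rpow Y_pos δ_pos m_pos (t := 1 / 2) (by norm_num)).mul Y_pos δ_pos m_pos bbm).mul Y_pos δ_pos m_pos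
    bbδi).const_mul (c := 6 * Cw) (by positivity)).le (fun c => c.hG1) (fun c => c.G1_nonneg)).mono_eq
      (by norm_num) (by norm_num) (by norm_num)

theorem P4_le (cV : ∀ i, Continuous (V i)) (c : Cfg1 V C0 Cw) : c.P4 ≤ 32 * (c.G3 ^ (3 : ℝ) * c.Hs) := by
  have cP : Continuous c.PP := continuous_Pm cV c.hη0 _ _
  have cH := continuous_Hm cV c.hη0 (c.R - c.δ) (c.R + 3 * c.δ)
  have e3 : c.G3 ^ (3 : ℝ) = c.G3 ^ 3 := by
    rw [show (3 : ℝ) = ((3 : ℕ) : ℝ) by norm_num, Real.rpow_natCast]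
  calc c.P4 ≤ ∫ y in Sh c.r (c.r + c.η), 32 * c.G3 ^ 3 * Hm V c.η (c.R - c.δ) (c.R + 3 * c.δ) y := by
        apply setIntegral_mono_on (cont_int_on (Sh_sub _ _) (cP.pow 4)) (cont_int_on (Sh_sub _ _) (by fun_prop))
          (measurableSet_Sh _ _)
        intro y hy
        exact Pm_four_le cV c.hη0 hy
    _ = 32 * c.G3 ^ 3 * c.Hs := by rw [integral_const_mul]; rfl
    _ = _ := by rw [e3]; ring

theorem P2_le (cV : ∀ i, Continuous (V i)) (c : Cfg1 V C0 Cw) : c.P2 ≤ 2 * (c.G1 * c.Hs) := by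
  have cP : Continuous c.PP := continuous_Pm cV c.hη0 _ _
  have cH := continuous_Hm cV c.hη0 (c.R - c.δ) (c.R + 3 * c.δ)
  calc c.P2 ≤ ∫ y in Sh c.r (c.r + c.η), 2 * c.G1 * Hm V c.η (c.R - c.δ) (c.R + 3 * c.δ) y := by
        apply setIntegral_mono_on (cont_int_on (Sh_sub _ _) (cP.pow 2)) (cont_int_on (Sh_sub _ _) (by fun_prop))
          (measurableSet_Sh _ _)
        intro y hy
        exact Pm_two_le cV c.hη0 hy
    _ = 2 * c.G1 * c.Hs := by rw [integral_const_mul]; rfl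
    _ = _ := by ring

theorem bbP4 (cV : ∀ i, Continuous (V i)) (hCw : 0 < Cw) : BB V C0 Cw (fun c => c.P4) (1 / 4) (-(15 / 4)) (7 / 2) :=
  (((((bbG3 hCw).rpow Y_pos δ_pos m_pos (t := 3) (by norm_num)).mul Y_pos δ_pos m_pos (bbHs hCw)).const_mul
    (c := 32) (by norm_num)).le (fun c => c.P4_le cV) (fun c => c.P4_nonneg)).mono_eq
      (by norm_num) (by norm_num) (by norm_num)

theorem bbP2 (cV : ∀ i, Continuous (V i)) (hCw : 0 < Cw) : BB V C0 Cw (fun c => c.P2) (-(1 / 8)) (-(13 / 8)) (9 / 4) :=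
  ((((bbG1 hCw).mul Y_pos δ_pos m_pos (bbHs hCw)).const_mul
    (c := 2) (by norm_num)).le (fun c => c.P2_le cV) (fun c => c.P2_nonneg)).mono_eq
      (by norm_num) (by norm_num) (by norm_num)

end Cfg1

end Leray
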