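import Pool.Agent.Lib.MP_9b9638_an.OneD3
import Pool.Agent.Lib.MP_9b9638_an.Shell1

/-!
# The case `p = 1`: bounds with a power of `R / (δ θ)`
-/

open MeasureTheory Set Filter Topology TopologicalSpace

noncomputable section

namespace Leray

namespace Cfg1

variable {V : VF} {C0 Cw : ℝ}

/-- the quantity `R / (δ θ)` -/
def Q (c : Cfg1 V C0 Cw) : ℝ := c.R / c.δ * c.θ⁻¹

theorem one_le_θi (c : Cfg1 V C0 Cw) : 1 ≤ c.θ⁻¹ := (one_le_inv₀ c.hθ).2 c.hθ1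

theorem one_le_Rδ (c : Cfg1 V C0 Cw) : 1 ≤ c.R / c.δ := by
  rw [le_div_iff₀ c.hδ]; linarith [c.hδR]

theorem Rδ_le_Q (c : Cfg1 V C0 Cw) : c.R / c.δ ≤ c.Q := by
  unfold Q
  nlinarith [c.one_le_θi, c.one_le_Rδ]

theorem one_le_Q (c : Cfg1 V C0 Cw) : 1 ≤ c.Q := c.one_le_Rδ.trans c.Rδ_le_Q

theorem δi_le_Q (c : Cfg1 V C0 Cw) : (c.δ)⁻¹ ≤ c.Q := by
  refine le_trans ?_ c.Rδ_le_Q
  rw [div_eq_mul_inv]
  have : 0 < c.δ⁻¹ := inv_pos.2 c.hδ
  nlinarith [c.hR]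

theorem mi_le_Q (c : Cfg1 V C0 Cw) : (c.m)⁻¹ ≤ c.Q := by
  have h1 : c.m⁻¹ ≤ c.θ⁻¹ := (inv_le_inv₀ c.m_pos c.hθ).2 c.hmθ
  refine h1.trans ?_
  unfold Q
  nlinarith [c.one_le_θi, c.one_le_Rδ]

/-- bounds by `c Q^K Y^e δ^g` -/
abbrev BQ (V : VF) (C0 Cw : ℝ) (f : Cfg1 V C0 Cw → ℝ) (e g : ℝ) : Prop := Bq Cfg1.Q Cfg1.Y Cfg1.δ f e g

/-- total mass plus one -/
def At (V : VF) : ℝ := (∫ y, nm V y) + 1

theorem At_pos (V : VF) : 0 < At V := by
  have : 0 ≤ ∫ y, nm V y := integral_nonneg fun y => nm_nonneg V y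
  unfold At; linarith

theorem m_le_At (hi : Integrable (nm V)) (c : Cfg1 V C0 Cw) : c.m ≤ At V := by
  have : ∫ y in Sh (c.R - c.δ) (c.R + 4 * c.δ), nm V y ≤ ∫ y, nm V y :=
    setIntegral_le_integral hi (Eventually.of_forall (nm_nonneg V))
  rw [c.hmdef, At]
  linarith [c.hθ1]

theorem toQ (hi : Integrable (nm V)) {f : Cfg1 V C0 Cw → ℝ} {e g a : ℝ} (h : BB V C0 Cw f e g a) :
    BQ V C0 Cw f e g :=
  Bq.of_B3 one_le_Q Y_pos δ_pos m_pos mi_le_Q (At_pos V) (m_le_At hi) h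

theorem bqr : BQ V C0 Cw (fun c => c.r) 0 1 := by
  have h := ((Bq.Qpow (Q := Cfg1.Q (V := V) (C0 := C0) (Cw := Cw)) (Y := Cfg1.Y) (D := Cfg1.δ) one_le_Q (K := 1)
    zero_le_one).mul one_le_Q Y_pos δ_pos (Bq.Dpow δ_pos 1)).const_mul (c := 2) (by norm_num)
  rw [zero_add, zero_add] at h
  refine h.le (fun c => ?_) (fun c => c.r_pos.le)
  rw [Real.rpow_one, Real.rpow_one]
  have h1 : c.R ≤ c.Q * c.δ := by
    have := c.Rδ_le_Q
    rwa [div_le_iff₀ c.hδ] at this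
  linarith [c.hr2, c.hδR]

/-! ### the whole ball -/

/-- energy of the ball `B_{R + 3δ}` -/
def Mt (c : Cfg1 V C0 Cw) : ℝ := ∫ y in Metric.ball (0 : E) (c.R + 3 * c.δ), sq V y

theorem Mt_nonneg (c : Cfg1 V C0 Cw) : 0 ≤ c.Mt := setInt_nonneg measurableSet_ball fun _ => sq_nonneg' _ _

theorem bqδi {e : ℝ} (he : 0 ≤ e) : BQ V C0 Cw (fun c => c.δ⁻¹ ^ e) 0 0 := by
  refine (Bq.Qpow one_le_Q he).le (fun c => ?_) (fun c => Real.rpow_nonneg (inv_pos.2 c.hδ).le _)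
  exact Real.rpow_le_rpow (inv_pos.2 c.hδ).le c.δi_le_Q he

theorem bqQ3 : BQ V C0 Cw (fun c => ((c.R + 3 * c.δ) / c.δ) ^ 3) 0 0 := by
  refine ((Bq.Qpow one_le_Q (K := 3) (by norm_num)).const_mul (c := 64) (by norm_num)).le (fun c => ?_)
    (fun c => pow_nonneg (div_nonneg (by linarith [c.hR, c.hδ]) c.hδ.le) _)
  have h1 : (c.R + 3 * c.δ) / c.δ ≤ 4 * c.Q := by
    rw [div_le_iff₀ c.hδ]
    have h2 := c.Rδ_le_Q
    rw [div_le_iff₀ c.hδ] at h2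
    linarith [c.hδR, c.hδ]
  have h0 : 0 ≤ (c.R + 3 * c.δ) / c.δ := div_nonneg (by linarith [c.hR, c.hδ]) c.hδ.le
  calc _ ≤ (4 * c.Q) ^ 3 := pow_le_pow_left₀ h0 h1 3
    _ = 64 * c.Q ^ 3 := by ring
    _ = _ := by rw [show (3 : ℝ) = ((3 : ℕ) : ℝ) by norm_num, Real.rpow_natCast]

theorem bqMt (hV : ∀ i, ContDiff ℝ 3 (V i)) (hd : ∀ x, dv V x = 0) (hi : Integrable (nm V)) :
    BQ V C0 Cw (fun c => c.Mt) (3 / 5) 0 := by
  obtain ⟨C, hC, hsob⟩ := ball_sobolev_one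
  have hV1 : ∀ i, ContDiff ℝ 1 (V i) := fun i => (hV i).of_le (by norm_num)
  have cV : ∀ i, Continuous (V i) := fun i => (hV1 i).continuous
  have cω : ∀ i, Continuous (curl V i) := continuous_curl hV1
  have hA := At_pos V
  have hAi : ∀ S : Set E, ∫ y in S, nm V y ≤ At V := fun S => by
    have : ∫ y in S, nm V y ≤ ∫ y, nm V y := setIntegral_le_integral hi (Eventually.of_forall (nm_nonneg V))
    unfold At; linarith
  have bY : BQ V C0 Cw (fun c => c.Y ^ (1 : ℝ)) 1 0 := Bq.Ypow Y_pos 1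
  have h2 : BQ V C0 Cw (fun c => At V ^ 2 * (((c.R + 3 * c.δ) / c.δ) ^ 3 * c.δ⁻¹ ^ (5 : ℝ))) 1 0 :=
    (((bqQ3.mul one_le_Q Y_pos δ_pos (bqδi (by norm_num))).mono one_le_Q (fun c => c.hY) δ_pos δi_le_Q
      (by norm_num) (by norm_num)).const_mul (by positivity))
  have b2 := ((((bY.add one_le_Q Y_pos δ_pos h2).const_mul hC.le).rpow one_le_Q Y_pos δ_pos (t := 3)
    (by norm_num)).rpow one_le_Q Y_pos δ_pos (t := 1 / 5) (by norm_num)).const_mul (c := At V ^ (4 / 5 : ℝ))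
      (by positivity)
  rw [show (1 : ℝ) * 3 * (1 / 5) = 3 / 5 by norm_num, show (0 : ℝ) * 3 * (1 / 5) = 0 by norm_num] at b2
  refine b2.le (fun c => ?_) (fun c => c.Mt_nonneg)
  have hδ := c.hδ
  have hR := c.hR
  have h := hsob V (c.R + 3 * c.δ) c.δ hV hd hδ (by linarith)
  rw [show c.R + 3 * c.δ + c.δ = c.R + 4 * c.δ by ring] at h
  have i0 : 0 ≤ ∫ x in Metric.ball (0 : E) (c.R + 4 * c.δ), nm V x :=
    setInt_nonneg measurableSet_ball fun _ => nm_nonneg _ _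
  have J0 : 0 ≤ ∫ y in Metric.ball (0 : E) (c.R + 3 * c.δ), sq V y ^ 3 :=
    setInt_nonneg measurableSet_ball fun _ => pow_nonneg (sq_nonneg' _ _) 3
  have e5 : c.δ⁻¹ ^ (5 : ℝ) = c.δ⁻¹ ^ 5 := by
    rw [show (5 : ℝ) = ((5 : ℕ) : ℝ) by norm_num, Real.rpow_natCast]
  have h' : (∫ y in Metric.ball (0 : E) (c.R + 3 * c.δ), sq V y ^ 3) ^ (1 / 3 : ℝ)
      ≤ C * (c.Y ^ (1 : ℝ) + At V ^ 2 * (((c.R + 3 * c.δ) / c.δ) ^ 3 * c.δ⁻¹ ^ (5 : ℝ))) := by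
    refine h.trans ?_
    rw [Real.rpow_one, e5]
    have k1 : (∫ x in Metric.ball (0 : E) (c.R + 4 * c.δ), nm V x) ^ 2 ≤ At V ^ 2 :=
      pow_le_pow_left₀ i0 (hAi _) 2
    have k2 : W V (c.R + 4 * c.δ) ≤ c.Y := by rw [c.hYdef]; linarith
    have k3 : 0 ≤ ((c.R + 3 * c.δ) / c.δ) ^ 3 * c.δ⁻¹ ^ 5 := by positivity
    apply mul_le_mul_of_nonneg_left _ hC.le
    apply add_le_add k2
    calc _ ≤ ((c.R + 3 * c.δ) / c.δ) ^ 3 * c.δ⁻¹ ^ 5 * At V ^ 2 := mul_le_mul_of_nonneg_left k1 k3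
      _ = _ := by ring
  have h6 : ∫ y in Metric.ball (0 : E) (c.R + 3 * c.δ), sq V y ^ 3
      ≤ (C * (c.Y ^ (1 : ℝ) + At V ^ 2 * (((c.R + 3 * c.δ) / c.δ) ^ 3 * c.δ⁻¹ ^ (5 : ℝ)))) ^ (3 : ℝ) := by
    calc _ = ((∫ y in Metric.ball (0 : E) (c.R + 3 * c.δ), sq V y ^ 3) ^ (1 / 3 : ℝ)) ^ (3 : ℝ) := (cube_of_third J0).symm
      _ ≤ _ := Real.rpow_le_rpow (Real.rpow_nonneg J0 _) h' (by norm_num)
  -- interpolation
  have hint := interp_nm (S := Metric.ball (0 : E) (c.R + 3 * c.δ)) (ball_sub' _) cV (p := 1) (q := 2) one_pos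
    (by norm_num) (by norm_num)
  simp only [Real.rpow_one] at hint
  rw [show ((2 : ℝ) - 1) / (6 - 1) = 1 / 5 by norm_num, show ((6 : ℝ) - 2) / (6 - 1) = 4 / 5 by norm_num] at hint
  have em : c.Mt = ∫ y in Metric.ball (0 : E) (c.R + 3 * c.δ), nm V y ^ (2 : ℝ) := by
    unfold Mt
    congr 1; funext y
    rw [← nm_sq V y, show (2 : ℝ) = ((2 : ℕ) : ℝ) by norm_num, Real.rpow_natCast]
  rw [em]
  refine hint.trans ?_
  have j0 : 0 ≤ ∫ x in Metric.ball (0 : E) (c.R + 3 * c.δ), nm V x :=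
    setInt_nonneg measurableSet_ball fun _ => nm_nonneg _ _
  rw [mul_comm]
  exact mul_le_mul (Real.rpow_le_rpow j0 (hAi _) (by norm_num))
    (Real.rpow_le_rpow J0 h6 (by norm_num)) (Real.rpow_nonneg J0 _) (by positivity)

/-- square root of the volume of the shell -/
def vs (c : Cfg1 V C0 Cw) : ℝ := ((volume : Measure E).real (Sh c.r (c.r + c.η))) ^ (1 / 2 : ℝ)

theorem vs_nonneg (c : Cfg1 V C0 Cw) : 0 ≤ c.vs := by unfold vs; positivity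

theorem bqvs (hi : Integrable (nm V)) : BQ V C0 Cw (fun c => c.vs) (-(1 / 8)) (7 / 8) := by
  have h8 := v8_pos
  have h := ((bqr (V := V) (C0 := C0) (Cw := Cw)).mul one_le_Q Y_pos δ_pos ((toQ hi bbη).rpow one_le_Q Y_pos δ_pos (t := 1 / 2)
    (by norm_num))).const_mul (c := v8 ^ (1 / 2 : ℝ)) (by positivity)
  rw [show (0 : ℝ) + -(1 / 4) * (1 / 2) = -(1 / 8) by norm_num, show (1 : ℝ) + -(1 / 4) * (1 / 2) = 7 / 8 by norm_num] at h
  refine h.le (fun c => ?_) (fun c => c.vs_nonneg)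
  have hr := c.r_pos
  have hη := c.hη0
  have h := vol_shell hη (r := c.r) (by linarith [c.η_le_r])
  unfold vs
  calc _ ≤ (v8 * c.r ^ 2 * c.η) ^ (1 / 2 : ℝ) := Real.rpow_le_rpow (by positivity) h (by norm_num)
    _ = (v8 * (c.r ^ 2 * c.η)) ^ (1 / 2 : ℝ) := by ring_nf
    _ = _ := by
      rw [Real.mul_rpow h8.le (by positivity), Real.mul_rpow (by positivity) hη.le, rpow_half_sq hr.le]

/-- bound for the far part -/
def F0 (V : VF) (c : Cfg1 V C0 Cw) : ℝ := c.δ⁻¹ ^ 2 * At V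

theorem F0_nonneg (c : Cfg1 V C0 Cw) : 0 ≤ F0 V c := by
  have := At_pos V
  unfold F0; positivity

theorem bqF0 : BQ V C0 Cw (fun c => F0 V c) 0 (-2) := by
  refine ((Bq.Dpow (Q := Cfg1.Q (V := V) (C0 := C0) (Cw := Cw)) (Y := Cfg1.Y) δ_pos (-2)).const_mul (At_pos V).le).le
    (fun c => le_of_eq ?_) (fun c => F0_nonneg c)
  unfold F0
  rw [Real.rpow_neg c.hδ.le, show (2 : ℝ) = ((2 : ℕ) : ℝ) by norm_num, Real.rpow_natCast, inv_pow, mul_comm]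

/-- pointwise bound of the vector potential on the shell -/
theorem psi_bound (cV : ∀ i, Continuous (V i)) (hi : Integrable (nm V)) (hC0 : 0 < C0) (c : Cfg1 V C0 Cw)
    {y : E} (hy : y ∈ Sh c.r (c.r + c.η)) : nm c.Ψ y ≤ C0 * (Pn V c.η y + c.PP y + F0 V c) := by
  have h := c.hΨb y
  rw [(riesz_split_one cV hi c.hη0 y).2] at h
  have hη := c.hη0
  have hδ := c.hδ
  have h16 := c.δ_lt
  have hy' : y ∈ Sh c.R (c.R + 2 * c.δ) := Sh_subset c.hr1 (by linarith [c.hr2]) hy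
  have h2 := Pf_le_Pm cV hi hη (by linarith) hy'
  have h3 : c.δ⁻¹ ^ 2 * (∫ y, nm V y) ≤ F0 V c := by
    unfold F0 At
    have : 0 ≤ c.δ⁻¹ ^ 2 := by positivity
    nlinarith
  have h4 : Pf V c.η y ≤ c.PP y + F0 V c := by
    unfold PP; linarith
  calc _ ≤ C0 * (Pn V c.η y + Pf V c.η y) := h
    _ ≤ C0 * (Pn V c.η y + (c.PP y + F0 V c)) := by gcongr
    _ = _ := by ring

/-- gradient of the vector potential in the ball -/
def Nn (c : Cfg1 V C0 Cw) : ℝ := (∫ y in Metric.ball (0 : E) (c.R + 2 * c.δ), gsq c.Ψ y) + 1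

theorem Nn_pos (c : Cfg1 V C0 Cw) : 0 < c.Nn := by
  have : 0 ≤ ∫ y in Metric.ball (0 : E) (c.R + 2 * c.δ), gsq c.Ψ y :=
    setInt_nonneg measurableSet_ball fun _ => gsq_nonneg _ _
  unfold Nn; linarith

theorem bqNn (hV : ∀ i, ContDiff ℝ 3 (V i)) (hd : ∀ x, dv V x = 0) (hi : Integrable (nm V)) (hC0 : 0 < C0) :
    BQ V C0 Cw (fun c => c.Nn) (3 / 5) 0 := by
  obtain ⟨Cg, hCg, hgrad⟩ := grad_psi
  obtain ⟨Cn, hCn, hnear⟩ := near_ball 2 (by norm_num)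
  have cV : ∀ i, Continuous (V i) := fun i => (hV i).continuous
  have hA := At_pos V
  set vb := (volume : Measure E).real (Metric.ball (0 : E) 1) with hvb
  have hvb0 : 0 ≤ vb := by positivity
  have bfar := ((bqQ3.mul one_le_Q Y_pos δ_pos (bqδi (V := V) (C0 := C0) (Cw := Cw) (e := 3) (by norm_num))).mono
    one_le_Q (fun c => c.hY) δ_pos δi_le_Q
    (e' := 3 / 5) (g' := 0) (by norm_num) (by norm_num)).const_mul
      (c := Cg * (2 * C0 ^ 2 * (64 * (At V ^ 2 * vb)))) (by positivity)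
  have bnear := (bqMt (Cw := Cw) (C0 := C0) hV hd hi).const_mul (c := Cg * (1 + 2 * C0 ^ 2 * Cn ^ 2)) (by positivity)
  have bone := (Bq.const (Q := Cfg1.Q (V := V) (C0 := C0) (Cw := Cw)) (Y := Cfg1.Y) (D := Cfg1.δ)
    (c := Cg + 1) (by positivity)).mono one_le_Q (fun c => c.hY) δ_pos δi_le_Q (e' := 3 / 5) (g' := 0)
      (by norm_num) (by norm_num)
  have ball := (bnear.add one_le_Q Y_pos δ_pos bfar).add one_le_Q Y_pos δ_pos bone
  refine ball.le (fun c => ?_) (fun c => c.Nn_pos.le)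
  have hδ := c.hδ
  have hR := c.hR
  have hδR := c.hδR
  have hΨ1 : ∀ i, ContDiff ℝ 1 (c.Ψ i) := fun i => (c.hΨC i).of_le (by norm_num)
  have cΨ : ∀ i, Continuous (c.Ψ i) := fun i => (hΨ1 i).continuous
  -- gradient estimate
  have g := hgrad V c.Ψ (c.R + 2 * c.δ) (c.δ / 2) c.ε hV c.hΨC c.hΨd (by positivity) (by linarith) c.hε
    (fun x hx => c.hΨe x (by linarith))
  -- first integral
  have hsub : Metric.ball (0 : E) (c.R + 2 * c.δ + c.δ / 2) ⊆ Metric.ball 0 (c.R + 3 * c.δ) :=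
    Metric.ball_subset_ball (by linarith)
  have g1 : ∫ x in Metric.ball (0 : E) (c.R + 2 * c.δ + c.δ / 2), (sq V x + c.ε ^ 2) ≤ c.Mt + 1 := by
    calc _ ≤ ∫ x in Metric.ball (0 : E) (c.R + 3 * c.δ), (sq V x + c.ε ^ 2) :=
          set_mono hsub (ball_sub' _) ((continuous_sq cV).add continuous_const) fun x => by
            have := sq_nonneg' V x; positivity
      _ = c.Mt + c.ε ^ 2 * (volume : Measure E).real (Metric.ball 0 (c.R + 3 * c.δ)) := by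
          rw [integral_add (cont_int_on (ball_sub' _) (continuous_sq cV)) (cont_int_on (ball_sub' _) continuous_const)]
          simp only [integral_const, smul_eq_mul, Measure.real, Measure.restrict_apply_univ]
          unfold Mt
          ring
      _ ≤ _ := by linarith [c.hvol]
  -- second integral
  have hρ : 0 < c.δ / 2 := by positivity
  have cP := continuous_Pn cV hρ
  set F := (c.δ / 2)⁻¹ ^ 2 * At V with hF
  have hF0 : 0 ≤ F := by positivity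
  have hpt : ∀ y, sq c.Ψ y ≤ 2 * C0 ^ 2 * (Pn V (c.δ / 2) y ^ 2 + F ^ 2) := by
    intro y
    have h := c.hΨb y
    rw [(riesz_split_one cV hi hρ y).2] at h
    have h2 : Pf V (c.δ / 2) y ≤ F := by
      refine (far_sup_one cV hi hρ y).trans ?_
      rw [hF]
      apply mul_le_mul_of_nonneg_left _ (by positivity)
      unfold At; linarith
    have hP0 := Pn_nonneg V (c.δ / 2) y
    have h3 : nm c.Ψ y ≤ C0 * (Pn V (c.δ / 2) y + F) := by
      calc _ ≤ C0 * (Pn V (c.δ / 2) y + Pf V (c.δ / 2) y) := h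
        _ ≤ _ := by gcongr
    rw [← nm_sq]
    calc nm c.Ψ y ^ 2 ≤ (C0 * (Pn V (c.δ / 2) y + F)) ^ 2 := by
          have := nm_nonneg c.Ψ y
          gcongr
      _ ≤ _ := by nlinarith [mul_nonneg (sq_nonneg C0) (sq_nonneg (Pn V (c.δ / 2) y - F))]
  have g2 : ∫ x in Metric.ball (0 : E) (c.R + 2 * c.δ + c.δ / 2), sq c.Ψ x
      ≤ 2 * C0 ^ 2 * ((Cn * (c.δ / 2)) ^ 2 * c.Mt + F ^ 2 * ((c.R + 3 * c.δ) ^ 3 * vb)) := by
    have k1 : ∫ x in Metric.ball (0 : E) (c.R + 2 * c.δ + c.δ / 2), sq c.Ψ x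
        ≤ ∫ x in Metric.ball (0 : E) (c.R + 2 * c.δ + c.δ / 2), 2 * C0 ^ 2 * (Pn V (c.δ / 2) x ^ 2 + F ^ 2) := by
      apply setIntegral_mono_on (cont_int_on (ball_sub' _) (continuous_sq cΨ)) _ measurableSet_ball
      · intro x _; exact hpt x
      · exact cont_int_on (ball_sub' _) (by fun_prop)
    refine k1.trans ?_
    rw [integral_const_mul, integral_add (cont_int_on (ball_sub' _) (by fun_prop)) (cont_int_on (ball_sub' _) continuous_const)]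
    have k2 := hnear V (c.R + 2 * c.δ + c.δ / 2) (c.δ / 2) cV hρ
    rw [show c.R + 2 * c.δ + c.δ / 2 + c.δ / 2 = c.R + 3 * c.δ by ring] at k2
    simp only [nm_sq] at k2
    have k3 : ∫ _ in Metric.ball (0 : E) (c.R + 2 * c.δ + c.δ / 2), F ^ 2 ≤ F ^ 2 * ((c.R + 3 * c.δ) ^ 3 * vb) := by
      calc _ ≤ ∫ _ in Metric.ball (0 : E) (c.R + 3 * c.δ), F ^ 2 :=
            set_mono hsub (ball_sub' _) continuous_const fun x => by positivity
        _ = _ := by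
            simp only [integral_const, smul_eq_mul, Measure.real, Measure.restrict_apply_univ]
            rw [← Measure.real, vol_ball (by linarith)]
            ring
    have : 0 ≤ 2 * C0 ^ 2 := by positivity
    exact mul_le_mul_of_nonneg_left (add_le_add k2 k3) this
  -- assembling
  have hδi := inv_pos.2 hδ
  have hδ' : c.δ ≠ 0 := hδ.ne'
  have e3' : c.δ⁻¹ ^ (3 : ℝ) = c.δ⁻¹ ^ 3 := by
    rw [show (3 : ℝ) = ((3 : ℕ) : ℝ) by norm_num, Real.rpow_natCast]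
  have eF : (c.δ / 2)⁻¹ ^ 2 * (F ^ 2 * ((c.R + 3 * c.δ) ^ 3 * vb)) =
      64 * (At V ^ 2 * vb) * (((c.R + 3 * c.δ) / c.δ) ^ 3 * c.δ⁻¹ ^ (3 : ℝ)) := by
    rw [hF, e3', inv_div, div_pow, div_pow, inv_pow]
    field_simp
    ring
  have eN : (c.δ / 2)⁻¹ ^ 2 * ((Cn * (c.δ / 2)) ^ 2 * c.Mt) = Cn ^ 2 * c.Mt := by
    field_simp
  unfold Nn
  have hδ2 : 0 ≤ (c.δ / 2)⁻¹ ^ 2 := by positivity
  have g3 := mul_le_mul_of_nonneg_left g2 hδ2
  have g4 : (c.δ / 2)⁻¹ ^ 2 * (2 * C0 ^ 2 * ((Cn * (c.δ / 2)) ^ 2 * c.Mt + F ^ 2 * ((c.R + 3 * c.δ) ^ 3 * vb)))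
      = 2 * C0 ^ 2 * (Cn ^ 2 * c.Mt + 64 * (At V ^ 2 * vb) * (((c.R + 3 * c.δ) / c.δ) ^ 3 * c.δ⁻¹ ^ (3 : ℝ))) := by
    rw [← eF, ← eN]; ring
  rw [g4] at g3
  have g5 := g.trans (mul_le_mul_of_nonneg_left (add_le_add g1 g3) hCg.le)
  refine (add_le_add g5 le_rfl).trans (le_of_eq ?_)
  ring

/-- gradient of the vector potential on the shell -/
def Ns (c : Cfg1 V C0 Cw) : ℝ := ∫ y in Sh c.r (c.r + c.η), gsq c.Ψ y

theorem Ns_nonneg (c : Cfg1 V C0 Cw) : 0 ≤ c.Ns := setInt_nonneg (measurableSet_Sh _ _) fun _ => gsq_nonneg _ _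

theorem bqNs (hi : Integrable (nm V)) (h : BQ V C0 Cw (fun c => c.Nn) (3 / 5) 0) :
    BQ V C0 Cw (fun c => c.Ns) (7 / 20) (-(5 / 4)) := by
  have := ((toQ hi bbx).mul one_le_Q Y_pos δ_pos h).const_mul (c := 6) (by norm_num)
  rw [show (-(1 / 4) : ℝ) + 3 / 5 = 7 / 20 by norm_num, add_zero] at this
  refine this.le (fun c => ?_) (fun c => c.Ns_nonneg)
  have := c.hN
  unfold Ns Nn
  linarith

end Cfg1

end Leray
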