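import Pool.Agent.Lib.MP_9b9638_an.Energy3

/-!
Definitions for the case `p = 1`
-/

open MeasureTheory

noncomputable section
namespace Leray

/-- mid-range part of the Riesz potential, with a continuous kernel -/
def Pm (V : VF) (η a b : ℝ) (x : E) : ℝ := ∫ y in Sh a b, nm V y * (max ‖x - y‖ η)⁻¹ ^ 2

/-- weighted mass around the sphere of radius `r` -/
def Gm (V : VF) (β η a b r : ℝ) : ℝ := ∫ y in Sh a b, nm V y * (max |‖y‖ - r| η) ^ (-β)

/-- auxiliary potential with exponent `-7/2` -/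
def Hm (V : VF) (η a b : ℝ) (x : E) : ℝ := ∫ y in Sh a b, nm V y * (max ‖x - y‖ η) ^ (-(7 / 2) : ℝ)

end Leray
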