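import Pool.Agent.Lib.MP_9b9638_an.Cutoff

/-!
# Iteration for `p = 1`
-/

open MeasureTheory Set Filter Topology

noncomputable section
namespace Leray
namespace OneE

theorem card_le_two (s : Finset ℕ) (h : ∀ i ∈ s, ∀ j ∈ s, i < j → j ≤ i + 1) : s.card ≤ 2 := by
  rcases s.eq_empty_or_nonempty with rfl | hs
  · simp
  · have hsub : s ⊆ {s.min' hs, s.min' hs + 1} := by
      intro j hj
      have h1 := s.min'_le j hj
      rcases h1.eq_or_lt with h2 | h2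
      · simp [← h2]
      · have h3 := h _ (s.min'_mem hs) j hj h2
        have h4 : j = s.min' hs + 1 := by omega
        rw [h4]; simp
    exact (Finset.card_le_card hsub).trans Finset.card_le_two

/-- sum of the masses of the shells -/
theorem sum_shell (g : E → ℝ) (hg : Integrable g) (hg0 : ∀ x, 0 ≤ g x) {ρ δ : ℝ} (hδ : 0 < δ) (J : ℕ) :
    ∑ j ∈ Finset.range J, ∫ y in Sh (ρ + 4 * (j : ℝ) * δ - δ) (ρ + 4 * (j : ℝ) * δ + 4 * δ), g y
      ≤ 2 * ∫ y in {y : E | ρ - δ ≤ ‖y‖}, g y := by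
  have hm : MeasurableSet {y : E | ρ - δ ≤ ‖y‖} := measurableSet_le measurable_const measurable_norm
  have h1 : ∀ j ∈ Finset.range J, ∫ y in Sh (ρ + 4 * (j : ℝ) * δ - δ) (ρ + 4 * (j : ℝ) * δ + 4 * δ), g y =
      ∫ y, (Sh (ρ + 4 * (j : ℝ) * δ - δ) (ρ + 4 * (j : ℝ) * δ + 4 * δ)).indicator g y := fun j _ =>
    (integral_indicator (measurableSet_Sh _ _)).symm
  rw [Finset.sum_congr rfl h1, ← integral_finsetSum _ (fun j _ => hg.indicator (measurableSet_Sh _ _)),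
    ← integral_const_mul, ← integral_indicator hm]
  refine integral_mono (integrable_finsetSum _ fun j _ => hg.indicator (measurableSet_Sh _ _))
    ((hg.const_mul 2).indicator hm) fun y => ?_
  classical
  show ∑ j ∈ Finset.range J, (Sh (ρ + 4 * (j : ℝ) * δ - δ) (ρ + 4 * (j : ℝ) * δ + 4 * δ)).indicator g y
    ≤ ({y : E | ρ - δ ≤ ‖y‖}).indicator (fun y => 2 * g y) y
  have h2 : ∑ j ∈ Finset.range J, (Sh (ρ + 4 * (j : ℝ) * δ - δ) (ρ + 4 * (j : ℝ) * δ + 4 * δ)).indicator g y =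
      ((Finset.range J).filter
        (fun j : ℕ => y ∈ Sh (ρ + 4 * (j : ℝ) * δ - δ) (ρ + 4 * (j : ℝ) * δ + 4 * δ))).card * g y := by
    simp only [Set.indicator_apply]
    rw [← Finset.sum_filter, Finset.sum_const, nsmul_eq_mul]
  rw [h2]
  by_cases hy : ρ - δ ≤ ‖y‖
  · rw [Set.indicator_of_mem (show y ∈ {y : E | ρ - δ ≤ ‖y‖} from hy)]
    have h3 := card_le_two ((Finset.range J).filter
        (fun j : ℕ => y ∈ Sh (ρ + 4 * (j : ℝ) * δ - δ) (ρ + 4 * (j : ℝ) * δ + 4 * δ))) (by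
      intro i hi j hj hij
      rw [Finset.mem_filter] at hi hj
      have e1 : ‖y‖ ≤ ρ + 4 * (i : ℝ) * δ + 4 * δ := hi.2.2
      have e2 : ρ + 4 * (j : ℝ) * δ - δ ≤ ‖y‖ := hj.2.1
      by_contra hc
      have e3 : i + 2 ≤ j := by omega
      have e4 : (i : ℝ) + 2 ≤ j := by exact_mod_cast e3
      nlinarith)
    have h4 : ((Finset.filter
        (fun j : ℕ => y ∈ Sh (ρ + 4 * (j : ℝ) * δ - δ) (ρ + 4 * (j : ℝ) * δ + 4 * δ)) (Finset.range J)).card : ℝ) ≤ 2 := by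
      exact_mod_cast h3
    exact mul_le_mul_of_nonneg_right h4 (hg0 y)
  · rw [Set.indicator_of_notMem (show y ∉ {y : E | ρ - δ ≤ ‖y‖} from hy)]
    have h3 : (Finset.range J).filter
        (fun j : ℕ => y ∈ Sh (ρ + 4 * (j : ℝ) * δ - δ) (ρ + 4 * (j : ℝ) * δ + 4 * δ)) = ∅ := by
      refine Finset.filter_eq_empty_iff.mpr fun j _ hj => hy ?_
      have e2 : ρ + 4 * (j : ℝ) * δ - δ ≤ ‖y‖ := hj.1
      have e3 : 0 ≤ 4 * (j : ℝ) * δ := by positivity
      linarith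
    rw [h3]; simp

theorem tail_zero (g : E → ℝ) (hg : Integrable g) :
    Tendsto (fun ρ : ℝ => ∫ y in {y : E | ρ - 1 ≤ ‖y‖}, g y) atTop (𝓝 0) := by
  have hm : ∀ ρ : ℝ, MeasurableSet {y : E | ρ - 1 ≤ ‖y‖} := fun ρ => measurableSet_le measurable_const measurable_norm
  have h0 : (0 : ℝ) = ∫ _ : E, (0 : ℝ) := by simp
  rw [h0]
  have h1 : (fun ρ : ℝ => ∫ y in {y : E | ρ - 1 ≤ ‖y‖}, g y) =
      fun ρ : ℝ => ∫ y, ({y : E | ρ - 1 ≤ ‖y‖}).indicator g y := by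
    funext ρ; exact (integral_indicator (hm ρ)).symm
  rw [h1]
  refine tendsto_integral_filter_of_dominated_convergence (fun y => ‖g y‖) ?_ ?_ hg.norm ?_
  · exact Eventually.of_forall fun ρ => hg.1.indicator (hm ρ)
  · exact Eventually.of_forall fun ρ => Eventually.of_forall fun y => norm_indicator_le_norm_self g y
  · refine Eventually.of_forall fun y => ?_
    refine tendsto_const_nhds.congr' ?_
    filter_upwards [eventually_gt_atTop (‖y‖ + 1)] with ρ hρ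
    have : y ∉ {y : E | ρ - 1 ≤ ‖y‖} := by
      intro h
      have h' : ρ - 1 ≤ ‖y‖ := h
      linarith
    rw [Set.indicator_of_notMem this]

theorem phase2 (φ : ℝ → ℝ) (hm : Monotone φ) (A κ k : ℝ) (hA : 0 < A) (hκ : κ < 1)
    (hk : 0 < k) (h : ∀ R, 1 ≤ R → φ R ≤ A * φ (2 * R) ^ κ + A * R⁻¹ ^ 2 * φ (2 * R))
    (hfr : ∃ᶠ ρ in atTop, φ ρ ≤ ρ ^ k) : ∃ B, ∀ R, φ R ≤ B := by
  set ε : ℝ := 2 ^ (-(2 * k)) with hε
  have hε0 : 0 < ε := by positivity
  have h1κ : 0 < 1 - κ := by linarith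
  set B : ℝ := (2 * A / ε) ^ (1 / (1 - κ)) with hB
  have hB0 : 0 < B := by positivity
  have hBκ : B ^ (1 - κ) = 2 * A / ε := by
    rw [hB, ← Real.rpow_mul (by positivity)]
    rw [one_div_mul_cancel h1κ.ne', Real.rpow_one]
  set Rs : ℝ := max 1 (Real.sqrt (2 * A / ε)) with hRs
  have hstep : ∀ R, Rs ≤ R → φ R ≤ max B (ε * φ (2 * R)) := by
    intro R hR
    have hR1 : 1 ≤ R := (le_max_left _ _).trans hR
    have hR0 : 0 < R := by linarith
    by_cases hc : φ (2 * R) ≤ B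
    · exact le_max_of_le_left ((hm (by linarith)).trans hc)
    · rw [not_le] at hc
      refine le_max_of_le_right ?_
      have hφ0 : 0 < φ (2 * R) := by linarith
      have e1 : A * φ (2 * R) ^ κ ≤ ε / 2 * φ (2 * R) := by
        have e2 : φ (2 * R) = φ (2 * R) ^ κ * φ (2 * R) ^ (1 - κ) := by
          rw [← Real.rpow_add hφ0]; simp
        have e3 : 2 * A / ε ≤ φ (2 * R) ^ (1 - κ) := by
          rw [← hBκ]
          exact Real.rpow_le_rpow hB0.le hc.le h1κ.le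
        have e4 : A ≤ ε / 2 * φ (2 * R) ^ (1 - κ) := by
          rw [div_le_iff₀ hε0] at e3
          linarith
        have e5 : 0 < φ (2 * R) ^ κ := by positivity
        calc A * φ (2 * R) ^ κ ≤ ε / 2 * φ (2 * R) ^ (1 - κ) * φ (2 * R) ^ κ := by gcongr
          _ = ε / 2 * (φ (2 * R) ^ κ * φ (2 * R) ^ (1 - κ)) := by ring
          _ = ε / 2 * φ (2 * R) := by rw [← e2]
      have e6 : A * R⁻¹ ^ 2 ≤ ε / 2 := by
        have e7 : Real.sqrt (2 * A / ε) ≤ R := (le_max_right _ _).trans hR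
        have e8 : 2 * A / ε ≤ R ^ 2 := by
          rw [Real.sqrt_le_left hR0.le] at e7
          exact e7
        rw [div_le_iff₀ hε0] at e8
        rw [inv_pow, ← div_eq_mul_inv, div_le_iff₀ (by positivity)]
        linarith
      calc φ R ≤ A * φ (2 * R) ^ κ + A * R⁻¹ ^ 2 * φ (2 * R) := h R hR1
        _ ≤ ε / 2 * φ (2 * R) + ε / 2 * φ (2 * R) := by gcongr
        _ = ε * φ (2 * R) := by ring
  have hiter : ∀ n : ℕ, ∀ R, Rs ≤ R → φ R ≤ max B (ε ^ n * φ (2 ^ n * R)) := by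
    intro n
    induction n with
    | zero => intro R _; simp
    | succ n ih =>
      intro R hR
      have hR1 : 1 ≤ R := (le_max_left _ _).trans hR
      have h2 := hstep R hR
      have h3 := ih (2 * R) (by linarith)
      have hε1 : ε ≤ 1 := by
        rw [hε]
        exact Real.rpow_le_one_of_one_le_of_nonpos (by norm_num) (by linarith)
      refine h2.trans (max_le (le_max_left _ _) ?_)
      have h4 : ε * φ (2 * R) ≤ ε * max B (ε ^ n * φ (2 ^ n * (2 * R))) := by gcongr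
      refine h4.trans ?_
      rw [mul_max_of_nonneg _ _ hε0.le]
      refine max_le_max ?_ ?_
      · nlinarith
      · rw [pow_succ, pow_succ]
        rw [show (2 : ℝ) ^ n * 2 * R = 2 ^ n * (2 * R) by ring]
        rw [show ε * (ε ^ n * φ (2 ^ n * (2 * R))) = ε ^ n * ε * φ (2 ^ n * (2 * R)) by ring]
  refine ⟨B, fun R => ?_⟩
  -- reduce to `R ≥ Rs`
  set R' : ℝ := max R Rs with hR'
  have hR'1 : Rs ≤ R' := le_max_right _ _
  have hR'0 : 0 < R' := by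
    have : (1 : ℝ) ≤ R' := (le_max_left _ _).trans hR'1
    linarith
  refine (hm (le_max_left R Rs)).trans ?_
  -- limit in n
  by_contra hcon
  rw [not_le] at hcon
  have hlow : ∀ n : ℕ, B < ε ^ n * φ (2 ^ n * R') := by
    intro n
    have h2 := hiter n R' hR'1
    rcases le_max_iff.mp h2 with h3 | h3
    · linarith
    · linarith
  have hlim : Tendsto (fun n : ℕ => ((2 : ℝ) ^ (-k)) ^ n * (2 * R') ^ k) atTop (𝓝 (0 * (2 * R') ^ k)) := by
    refine Tendsto.mul_const _ (tendsto_pow_atTop_nhds_zero_of_lt_one (by positivity) ?_)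
    exact Real.rpow_lt_one_of_one_lt_of_neg (by norm_num) (by linarith)
  rw [zero_mul] at hlim
  have hev := hlim.eventually (gt_mem_nhds hB0)
  rw [eventually_atTop] at hev
  obtain ⟨N, hN⟩ := hev
  obtain ⟨ρ, hρ1, hρ2⟩ := (hfr.and_eventually (eventually_ge_atTop (2 ^ N * R'))).exists
  -- find n with 2^n R' ≤ ρ < 2^(n+1) R'
  have hex : ∃ n : ℕ, ρ < 2 ^ (n + 1) * R' := by
    obtain ⟨n, hn⟩ := pow_unbounded_of_one_lt (ρ / R') (by norm_num : (1 : ℝ) < 2)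
    refine ⟨n, ?_⟩
    rw [div_lt_iff₀ hR'0] at hn
    refine hn.trans_le ?_
    gcongr
    · norm_num
    · omega
  classical
  set n := Nat.find hex with hn
  have hn1 : ρ < 2 ^ (n + 1) * R' := Nat.find_spec hex
  have hn2 : 2 ^ n * R' ≤ ρ := by
    rcases Nat.eq_zero_or_pos n with h0 | h0
    · rw [h0]
      refine le_trans ?_ hρ2
      have : (1 : ℝ) ≤ 2 ^ N := one_le_pow₀ (by norm_num)
      nlinarith
    · have h3 := Nat.find_min hex (m := n - 1) (by omega)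
      rw [not_lt] at h3
      rw [show n - 1 + 1 = n by omega] at h3
      exact h3
  have hnN : N ≤ n := by
    by_contra hc
    rw [not_le] at hc
    have h3 : (2 : ℝ) ^ (n + 1) ≤ 2 ^ N := pow_le_pow_right₀ (by norm_num) (by omega)
    have h4 : (2 : ℝ) ^ (n + 1) * R' ≤ 2 ^ N * R' := by gcongr
    linarith
  have h5 := hlow n
  have h6 := hN n hnN
  have h7 : φ (2 ^ n * R') ≤ (2 ^ (n + 1) * R') ^ k := by
    refine (hm hn2).trans (hρ1.trans ?_)
    exact Real.rpow_le_rpow (le_trans (by positivity) hn2) hn1.le hk.le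
  have h8 : ε ^ n * (2 ^ (n + 1) * R') ^ k = ((2 : ℝ) ^ (-k)) ^ n * (2 * R') ^ k := by
    rw [pow_succ, mul_assoc, Real.mul_rpow (by positivity) (by positivity), ← mul_assoc]
    congr 1
    rw [hε, ← Real.rpow_natCast, ← Real.rpow_natCast, ← Real.rpow_natCast, ← Real.rpow_mul (by norm_num),
      ← Real.rpow_mul (by norm_num), ← Real.rpow_mul (by norm_num), ← Real.rpow_add (by norm_num)]
    congr 1
    ring
  have h9 : ε ^ n * φ (2 ^ n * R') ≤ ε ^ n * (2 ^ (n + 1) * R') ^ k := by gcongr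
  rw [h8] at h9
  linarith

/-- one good step -/
theorem good_step {C K κ e₀ ρ x μ F Fx : ℝ} (hC : 0 < C) (hK : 0 < K) (hκ : κ < 1)
    (he : 0 < e₀) (hρ : 1 ≤ ρ) (hx0 : 0 ≤ x) (hx : x ≤ 2 * ρ) (hμ : μ * ρ ^ 2 ≤ e₀)
    (hF : ρ ^ ((4 * K + 1) / (1 - κ)) ≤ 1 + F) (hρM : (2 / e₀) ^ K ≤ e₀ * ρ)
    (hρe : 1 ≤ e₀ * ρ ^ ((4 * K + 1) / (1 - κ)))
    (h : Fx ≤ C * ((x / ρ⁻¹) ^ K * (e₀ / ρ ^ 2)⁻¹ ^ K * (1 + F) ^ κ
        + (μ + e₀ / ρ ^ 2) * ρ⁻¹⁻¹ ^ 2 * (1 + F))) :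
    1 + Fx ≤ 4 * (C + 1) * e₀ * (1 + F) := by
  have h1κ : 0 < 1 - κ := by linarith
  have hρ0 : 0 < ρ := by linarith
  set G : ℝ := 1 + F with hG
  have hρk : 0 < ρ ^ ((4 * K + 1) / (1 - κ)) := by positivity
  have hG0 : 0 < G := by linarith
  have e1 : (x / ρ⁻¹) ^ K * (e₀ / ρ ^ 2)⁻¹ ^ K ≤ (2 / e₀) ^ K * ρ ^ (4 * K) := by
    have a1 : x / ρ⁻¹ ≤ 2 * ρ * ρ := by
      rw [div_inv_eq_mul]; gcongr
    have a2 : 0 ≤ x / ρ⁻¹ := by positivity
    have a3 : (e₀ / ρ ^ 2)⁻¹ = ρ ^ 2 / e₀ := inv_div _ _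
    calc (x / ρ⁻¹) ^ K * (e₀ / ρ ^ 2)⁻¹ ^ K = (x / ρ⁻¹ * (e₀ / ρ ^ 2)⁻¹) ^ K := by
          rw [Real.mul_rpow a2 (by positivity)]
      _ ≤ (2 * ρ * ρ * (ρ ^ 2 / e₀)) ^ K := by
          rw [a3]
          refine Real.rpow_le_rpow (by positivity) ?_ hK.le
          gcongr
      _ = (2 / e₀ * ρ ^ 4) ^ K := by congr 1; ring
      _ = (2 / e₀) ^ K * ρ ^ (4 * K) := by
          rw [Real.mul_rpow (by positivity) (by positivity), ← Real.rpow_natCast ρ 4, ← Real.rpow_mul hρ0.le]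
          norm_num
  have e2 : ρ ^ (4 * K) * G ^ κ ≤ ρ⁻¹ * G := by
    have a1 : G = G ^ κ * G ^ (1 - κ) := by
      rw [← Real.rpow_add hG0]; simp
    have a2 : ρ ^ (4 * K + 1) ≤ G ^ (1 - κ) := by
      have a3 := Real.rpow_le_rpow hρk.le hF h1κ.le
      rw [← Real.rpow_mul hρ0.le, div_mul_cancel₀ _ h1κ.ne'] at a3
      exact a3
    have a4 : ρ ^ (4 * K) = ρ⁻¹ * ρ ^ (4 * K + 1) := by
      rw [Real.rpow_add_one hρ0.ne']
      field_simp
    have a5 : 0 < G ^ κ := by positivity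
    calc ρ ^ (4 * K) * G ^ κ = ρ⁻¹ * (G ^ κ * ρ ^ (4 * K + 1)) := by rw [a4]; ring
      _ ≤ ρ⁻¹ * (G ^ κ * G ^ (1 - κ)) := by gcongr
      _ = ρ⁻¹ * G := by rw [← a1]
  have e3 : (x / ρ⁻¹) ^ K * (e₀ / ρ ^ 2)⁻¹ ^ K * G ^ κ ≤ e₀ * G := by
    have a5 : 0 < G ^ κ := by positivity
    calc (x / ρ⁻¹) ^ K * (e₀ / ρ ^ 2)⁻¹ ^ K * G ^ κ ≤ (2 / e₀) ^ K * ρ ^ (4 * K) * G ^ κ := by gcongr
      _ = (2 / e₀) ^ K * (ρ ^ (4 * K) * G ^ κ) := by ring
      _ ≤ (e₀ * ρ) * (ρ⁻¹ * G) := by gcongr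
      _ = e₀ * G := by field_simp
  have e4 : (μ + e₀ / ρ ^ 2) * ρ⁻¹⁻¹ ^ 2 * G ≤ 2 * e₀ * G := by
    rw [inv_inv]
    have : (μ + e₀ / ρ ^ 2) * ρ ^ 2 ≤ 2 * e₀ := by
      have : (μ + e₀ / ρ ^ 2) * ρ ^ 2 = μ * ρ ^ 2 + e₀ := by field_simp
      linarith
    gcongr
  have e5 : 1 ≤ e₀ * G := hρe.trans (by gcongr)
  have e6 : Fx ≤ C * (3 * e₀ * G) := h.trans (by
    refine mul_le_mul_of_nonneg_left ?_ hC.le
    linarith)
  nlinarith [mul_pos he hG0]

theorem phase1 (f : ℝ → ℝ) (hf : Monotone f) (hf0 : ∀ r, 0 ≤ f r) (g : E → ℝ) (hg : Integrable g)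
    (hg0 : ∀ x, 0 ≤ g x) (C K κ : ℝ) (hC : 0 < C) (hK : 0 < K) (hκ : κ < 1)
    (h : ∀ R δ θ : ℝ, 1 ≤ R → 0 < δ → δ ≤ R → 0 < θ → θ ≤ 1 →
      f R ≤ C * ((R / δ) ^ K * θ⁻¹ ^ K * (1 + f (R + 4 * δ)) ^ κ
        + ((∫ y in Sh (R - δ) (R + 4 * δ), g y) + θ) * δ⁻¹ ^ 2 * (1 + f (R + 4 * δ))))
    (C₀ : ℝ) (hgrow : ∃ᶠ R in atTop, f R ≤ Real.exp (C₀ * R ^ 2)) :
    ∃ k : ℝ, 0 < k ∧ ∃ᶠ ρ in atTop, 1 + f ρ ≤ ρ ^ k := by
  have h1κ : 0 < 1 - κ := by linarith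
  set k : ℝ := (4 * K + 1) / (1 - κ) with hk
  have hk0 : 0 < k := by positivity
  refine ⟨k, hk0, ?_⟩
  by_contra hcon
  rw [not_frequently] at hcon
  set L : ℝ := 16 * (4 * |C₀| + 1) with hL
  have hL0 : 0 < L := by positivity
  set e₀ : ℝ := Real.exp (-L) / (4 * (C + 1)) with he
  have he0 : 0 < e₀ := by positivity
  have he1 : e₀ ≤ 1 := by
    rw [he, div_le_one (by positivity)]
    have : Real.exp (-L) ≤ 1 := Real.exp_le_one_iff.mpr (by linarith)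
    linarith
  have her : 4 * (C + 1) * e₀ = Real.exp (-L) := by rw [he]; field_simp
  -- eventual properties of `ρ`
  have ev1 : ∀ᶠ ρ : ℝ in atTop, ρ ^ k < 1 + f ρ := by
    filter_upwards [hcon] with ρ hρ
    exact not_le.mp hρ
  have ev2 : ∀ᶠ ρ : ℝ in atTop, (2 / e₀) ^ K ≤ e₀ * ρ :=
    (tendsto_id.const_mul_atTop he0).eventually_ge_atTop _
  have ev3 : ∀ᶠ ρ : ℝ in atTop, 1 ≤ e₀ * ρ ^ k :=
    ((tendsto_rpow_atTop hk0).const_mul_atTop he0).eventually_ge_atTop _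
  have ev4 : ∀ᶠ ρ : ℝ in atTop, ∫ y in {y : E | ρ - 1 ≤ ‖y‖}, g y < e₀ / 32 :=
    (tendsto_order.mp (tail_zero g hg)).2 _ (by positivity)
  have ev : ∀ᶠ ρ : ℝ in atTop, ρ ^ k < 1 + f ρ ∧ (2 / e₀) ^ K ≤ e₀ * ρ ∧ 1 ≤ e₀ * ρ ^ k ∧
      (∫ y in {y : E | ρ - 1 ≤ ‖y‖}, g y < e₀ / 32) ∧ 3 ≤ ρ := by
    filter_upwards [ev1, ev2, ev3, ev4, eventually_ge_atTop 3] with ρ a b c d e
    exact ⟨a, b, c, d, e⟩
  have evR : ∀ᶠ R : ℝ in atTop, (R / 2) ^ k < 1 + f (R / 2) ∧ (2 / e₀) ^ K ≤ e₀ * (R / 2) ∧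
      1 ≤ e₀ * (R / 2) ^ k ∧ (∫ y in {y : E | (R / 2) - 1 ≤ ‖y‖}, g y < e₀ / 32) ∧ 3 ≤ R / 2 :=
    (tendsto_id.atTop_div_const (by norm_num : (0 : ℝ) < 2)).eventually ev
  obtain ⟨R, hR1, hR2⟩ := (hgrow.and_eventually evR).exists
  set ρ : ℝ := R / 2 with hρ
  obtain ⟨p1, p2, p3, p4, p5⟩ := hR2
  have hρ0 : 0 < ρ := by linarith
  have hρi : 0 < ρ⁻¹ := by positivity
  have hρ1 : 1 ≤ ρ := by linarith
  have hR : R = 2 * ρ := by rw [hρ]; ring
  set J : ℕ := ⌊ρ ^ 2 / 4⌋₊ with hJ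
  have hJ1 : (J : ℝ) ≤ ρ ^ 2 / 4 := Nat.floor_le (by positivity)
  have hJ2 : ρ ^ 2 / 4 < J + 1 := Nat.lt_floor_add_one _
  let Rj : ℕ → ℝ := fun j => ρ + 4 * (j : ℝ) * ρ⁻¹
  have hRj0 : Rj 0 = ρ := by show ρ + 4 * ((0 : ℕ) : ℝ) * ρ⁻¹ = ρ; simp
  have hRj1 : ∀ j, ρ ≤ Rj j := fun j => by
    show ρ ≤ ρ + 4 * (j : ℝ) * ρ⁻¹
    have : 0 ≤ 4 * (j : ℝ) * ρ⁻¹ := by positivity
    linarith
  have hRj2 : ∀ j, j ≤ J → Rj j ≤ 2 * ρ := fun j hj => by
    show ρ + 4 * (j : ℝ) * ρ⁻¹ ≤ 2 * ρ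
    have h2 : (j : ℝ) ≤ ρ ^ 2 / 4 := le_trans (by exact_mod_cast hj) hJ1
    have h3 : 4 * (j : ℝ) * ρ⁻¹ ≤ ρ := by
      rw [← div_eq_mul_inv, div_le_iff₀ hρ0]
      nlinarith
    linarith
  have hRjs : ∀ j, Rj j + 4 * ρ⁻¹ = Rj (j + 1) := fun j => by
    show ρ + 4 * (j : ℝ) * ρ⁻¹ + 4 * ρ⁻¹ = ρ + 4 * ((j + 1 : ℕ) : ℝ) * ρ⁻¹
    push_cast; ring
  let μ : ℕ → ℝ := fun j => ∫ y in Sh (Rj j - ρ⁻¹) (Rj j + 4 * ρ⁻¹), g y
  have hμ0 : ∀ j, 0 ≤ μ j := fun j => setIntegral_nonneg (measurableSet_Sh _ _) fun y _ => hg0 y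
  have hsum : ∑ j ∈ Finset.range J, μ j ≤ 2 * (e₀ / 32) := by
    refine (sum_shell g hg hg0 hρi J).trans ?_
    have h2 : ∫ y in {y : E | ρ - ρ⁻¹ ≤ ‖y‖}, g y ≤ ∫ y in {y : E | ρ - 1 ≤ ‖y‖}, g y := by
      refine setIntegral_mono_set hg.integrableOn (Eventually.of_forall fun y => hg0 y)
        (LE.le.eventuallyLE ?_)
      intro y hy
      have h3 : ρ - ρ⁻¹ ≤ ‖y‖ := hy
      have h4 : ρ⁻¹ ≤ 1 := inv_le_one_of_one_le₀ hρ1
      show ρ - 1 ≤ ‖y‖
      linarith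
    linarith
  classical
  let good : ℕ → Prop := fun j => μ j * ρ ^ 2 ≤ e₀
  have hbad : (((Finset.range J).filter (fun j => ¬ good j)).card : ℝ) ≤ ρ ^ 2 / 16 := by
    have h2 : (((Finset.range J).filter (fun j => ¬ good j)).card : ℝ) * (e₀ / ρ ^ 2) ≤
        ∑ j ∈ (Finset.range J).filter (fun j => ¬ good j), μ j := by
      rw [← nsmul_eq_mul]
      refine Finset.card_nsmul_le_sum _ _ _ fun j hj => ?_
      rw [Finset.mem_filter] at hj
      have h3 : e₀ < μ j * ρ ^ 2 := not_le.mp hj.2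
      rw [div_le_iff₀ (by positivity)]
      exact h3.le
    have h3 : ∑ j ∈ (Finset.range J).filter (fun j => ¬ good j), μ j ≤ ∑ j ∈ Finset.range J, μ j :=
      Finset.sum_le_sum_of_subset_of_nonneg (Finset.filter_subset _ _) fun j _ _ => hμ0 j
    have h4 := h2.trans (h3.trans hsum)
    have h5 : (((Finset.range J).filter (fun j => ¬ good j)).card : ℝ) * e₀ ≤ ρ ^ 2 / 16 * e₀ := by
      have h6 : (((Finset.range J).filter (fun j => ¬ good j)).card : ℝ) * (e₀ / ρ ^ 2) * ρ ^ 2 ≤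
          2 * (e₀ / 32) * ρ ^ 2 := by gcongr
      have h7 : (((Finset.range J).filter (fun j => ¬ good j)).card : ℝ) * (e₀ / ρ ^ 2) * ρ ^ 2 =
          (((Finset.range J).filter (fun j => ¬ good j)).card : ℝ) * e₀ := by
        rw [mul_assoc, div_mul_cancel₀ _ (by positivity)]
      rw [h7] at h6
      linarith
    exact le_of_mul_le_mul_right h5 he0
  have hgood : ρ ^ 2 / 16 ≤ (((Finset.range J).filter good).card : ℝ) := by
    have h2 : ((Finset.range J).filter good).card + ((Finset.range J).filter (fun j => ¬ good j)).card = J := by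
      rw [Finset.card_filter_add_card_filter_not, Finset.card_range]
    have h3 : (((Finset.range J).filter good).card : ℝ) +
        (((Finset.range J).filter (fun j => ¬ good j)).card : ℝ) = J := by exact_mod_cast h2
    have h4 : 9 ≤ ρ ^ 2 := by nlinarith
    linarith
  have hprod : ∀ n, n ≤ J → 1 + f (Rj 0) ≤
      Real.exp (-L * (((Finset.range n).filter good).card : ℝ)) * (1 + f (Rj n)) := by
    intro n
    induction n with
    | zero => intro _; simp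
    | succ n ih =>
      intro hn
      have h2 := ih (by omega)
      by_cases hgn : good n
      · have h3 : ((Finset.range (n + 1)).filter good).card = ((Finset.range n).filter good).card + 1 := by
          rw [Finset.range_add_one, Finset.filter_insert, if_pos hgn, Finset.card_insert_of_notMem]
          simp
        have h4 : 1 + f (Rj n) ≤ 4 * (C + 1) * e₀ * (1 + f (Rj (n + 1))) := by
          refine good_step (x := Rj n) (μ := μ n) hC hK hκ he0 hρ1 (by linarith [hRj1 n])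
            (hRj2 n (by omega)) hgn ?_ p2 p3 ?_
          · refine p1.le.trans ?_
            have := hf (hRj1 (n + 1))
            linarith
          · have h5 := h (Rj n) ρ⁻¹ (e₀ / ρ ^ 2) (by linarith [hRj1 n]) hρi ?_ (by positivity) ?_
            · rw [hRjs] at h5
              have h6 : μ n = ∫ y in Sh (Rj n - ρ⁻¹) (Rj (n + 1)), g y := by
                show ∫ y in Sh (Rj n - ρ⁻¹) (Rj n + 4 * ρ⁻¹), g y = _
                rw [hRjs]
              rw [h6]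
              exact h5
            · have : ρ⁻¹ ≤ 1 := inv_le_one_of_one_le₀ hρ1
              linarith [hRj1 n]
            · rw [div_le_one (by positivity)]
              nlinarith
        rw [her] at h4
        rw [h3]
        have h5 : Real.exp (-L * ((((Finset.range n).filter good).card + 1 : ℕ) : ℝ)) =
            Real.exp (-L * (((Finset.range n).filter good).card : ℝ)) * Real.exp (-L) := by
          rw [← Real.exp_add]
          push_cast
          congr 1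
          ring
        rw [h5, mul_assoc]
        refine h2.trans ?_
        gcongr
      · have h3 : (Finset.range (n + 1)).filter good = (Finset.range n).filter good := by
          rw [Finset.range_add_one, Finset.filter_insert, if_neg hgn]
        rw [h3]
        refine h2.trans ?_
        have h4 : f (Rj n) ≤ f (Rj (n + 1)) := hf (by
          rw [← hRjs]
          have : 0 < 4 * ρ⁻¹ := by positivity
          linarith)
        gcongr
  have h6 := hprod J le_rfl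
  have h7 : 1 + f (Rj J) ≤ 2 * Real.exp (4 * |C₀| * ρ ^ 2) := by
    have a1 : f (Rj J) ≤ f R := hf ((hRj2 J le_rfl).trans hR.symm.le)
    have a2 : Real.exp (C₀ * R ^ 2) ≤ Real.exp (4 * |C₀| * ρ ^ 2) := by
      refine Real.exp_le_exp.mpr ?_
      rw [hR]
      have := le_abs_self C₀
      nlinarith [sq_nonneg ρ]
    have a3 : 1 ≤ Real.exp (4 * |C₀| * ρ ^ 2) := Real.one_le_exp (by positivity)
    linarith
  have h8 : Real.exp (-L * (((Finset.range J).filter good).card : ℝ)) ≤ Real.exp (-L * (ρ ^ 2 / 16)) := by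
    refine Real.exp_le_exp.mpr ?_
    nlinarith
  have h9 : 1 + f (Rj 0) ≤ Real.exp (-L * (ρ ^ 2 / 16)) * (2 * Real.exp (4 * |C₀| * ρ ^ 2)) :=
    h6.trans (by
      have : 0 ≤ f (Rj J) := hf0 _
      gcongr)
  have h10 : Real.exp (-L * (ρ ^ 2 / 16)) * (2 * Real.exp (4 * |C₀| * ρ ^ 2)) = 2 * Real.exp (-ρ ^ 2) := by
    rw [mul_left_comm, ← Real.exp_add]
    congr 2
    rw [hL]; ring
  have h11 : 2 * Real.exp (-ρ ^ 2) < 1 := by
    rw [Real.exp_neg]
    have h12 : ρ ^ 2 + 1 ≤ Real.exp (ρ ^ 2) := Real.add_one_le_exp _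
    have h13 : 0 < Real.exp (ρ ^ 2) := Real.exp_pos _
    rw [← div_eq_mul_inv, div_lt_one h13]
    nlinarith
  have h12 := hf0 (Rj 0)
  linarith

end OneE

/-- `g` is a nonnegative integrable function on space; `f` is monotone; sub-Gaussian growth along a sequence and
the main estimate give boundedness. -/
theorem iterate_one (f : ℝ → ℝ) (hf : Monotone f) (hf0 : ∀ r, 0 ≤ f r) (g : E → ℝ) (hg : Integrable g)
    (hg0 : ∀ x, 0 ≤ g x) (C K κ : ℝ) (hC : 0 < C) (hK : 0 < K) (hκ0 : 0 < κ) (hκ : κ < 1)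
    (h : ∀ R δ θ : ℝ, 1 ≤ R → 0 < δ → δ ≤ R → 0 < θ → θ ≤ 1 →
      f R ≤ C * ((R / δ) ^ K * θ⁻¹ ^ K * (1 + f (R + 4 * δ)) ^ κ
        + ((∫ y in Sh (R - δ) (R + 4 * δ), g y) + θ) * δ⁻¹ ^ 2 * (1 + f (R + 4 * δ))))
    (C₀ : ℝ) (hgrow : ∃ᶠ R in atTop, f R ≤ Real.exp (C₀ * R ^ 2)) :
    ∃ C' : ℝ, ∀ R, f R ≤ C' := by
  have _ := hκ0
  obtain ⟨k, hk, hfr⟩ := OneE.phase1 f hf hf0 g hg hg0 C K κ hC hK hκ h C₀ hgrow
  set I : ℝ := ∫ y, g y with hI
  have hI0 : 0 ≤ I := integral_nonneg hg0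
  set A : ℝ := 1 + C * 4 ^ K + C * (I + 1) * 16 with hA
  have hA0 : 0 < A := by positivity
  obtain ⟨B, hB⟩ := OneE.phase2 (fun r => 1 + f r) (fun a b hab => by
    have := hf hab
    show 1 + f a ≤ 1 + f b
    linarith) A κ k hA0 hκ hk (fun R hR => by
      have hR0 : 0 < R := by linarith
      have h1 := h R (R / 4) 1 hR (by positivity) (by linarith) one_pos le_rfl
      rw [show R + 4 * (R / 4) = 2 * R by ring] at h1
      have h2 : (∫ y in Sh (R - R / 4) (2 * R), g y) ≤ I :=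
        setIntegral_le_integral hg (Eventually.of_forall hg0)
      have h3 : R / (R / 4) = 4 := by field_simp
      rw [h3, inv_one, Real.one_rpow, mul_one] at h1
      set G : ℝ := 1 + f (2 * R) with hG
      have hG1 : 1 ≤ G := by have := hf0 (2 * R); linarith
      have hG0 : 0 < G := by linarith
      have hGκ : 1 ≤ G ^ κ := Real.one_le_rpow hG1 hκ0.le
      have h4 : (R / 4)⁻¹ ^ 2 = 16 * R⁻¹ ^ 2 := by
        rw [inv_div]; field_simp; norm_num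
      rw [h4] at h1
      have hRi : 0 < R⁻¹ ^ 2 := by positivity
      have h5 : f R ≤ C * (4 ^ K * G ^ κ + (I + 1) * (16 * R⁻¹ ^ 2) * G) := h1.trans (by gcongr)
      show 1 + f R ≤ A * G ^ κ + A * R⁻¹ ^ 2 * G
      have h6 : A * G ^ κ = G ^ κ + C * 4 ^ K * G ^ κ + C * (I + 1) * 16 * G ^ κ := by rw [hA]; ring
      have h7 : A * R⁻¹ ^ 2 * G = R⁻¹ ^ 2 * G + C * 4 ^ K * R⁻¹ ^ 2 * G + C * (I + 1) * 16 * R⁻¹ ^ 2 * G := by
        rw [hA]; ring
      rw [h6, h7]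
      have h8 : 0 ≤ C * (I + 1) * 16 * G ^ κ := by positivity
      have h9 : 0 ≤ R⁻¹ ^ 2 * G := by positivity
      have h10 : 0 ≤ C * 4 ^ K * R⁻¹ ^ 2 * G := by positivity
      have h11 : C * (4 ^ K * G ^ κ + (I + 1) * (16 * R⁻¹ ^ 2) * G) =
        C * 4 ^ K * G ^ κ + C * (I + 1) * 16 * R⁻¹ ^ 2 * G := by ring
      linarith) hfr
  exact ⟨B, fun R => by
    have h1 : 1 + f R ≤ B := hB R
    linarith⟩

end Leray
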