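import Pool.Agent.Lib.MP_9b9638_an.OneB
import Pool.Agent.Lib.MP_9b9638_an.Fin4

/-!
# End of the proof, `p = 1`
-/

open MeasureTheory Set Filter Topology

noncomputable section
namespace Leray
open Thk

theorem growth_integrals_one {ν a : ℝ} {V : VF} (hV : SmoothProfile ν a V) (hi : Integrable (nm V))
    {C : ℝ} (hW : ∀ R : ℝ, W V R ≤ C) :
    Integrable (fun x : E => sq (curl V) x * (1 + ‖x‖ ^ 2)⁻¹ ^ 4) ∧
    Integrable (fun x : E => sq V x ^ 3 * (1 + ‖x‖ ^ 2)⁻¹ ^ 3) := by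
  have hcV : ∀ i, Continuous (V i) := fun i => (hV.smooth i).continuous
  have hC : 0 ≤ C := (W_nonneg V 0).trans (hW 0)
  constructor
  · have h4 : Integrable (fun x : E => sq (curl V) x * (1 + ‖x‖ ^ 2)⁻¹ ^ 3) := by
      refine integrable_weight (continuous_sq_curl hV.smooth) (sq_nonneg' _) hC ?_
      intro r hr
      refine (hW r).trans ?_
      have h5 : (1 : ℝ) ≤ r ^ 3 := one_le_pow₀ hr
      nlinarith
    refine h4.mono' ?_ (Eventually.of_forall fun x => ?_)
    · refine ((continuous_sq_curl hV.smooth).mul (Continuous.pow (Continuous.inv₀ (by fun_prop) ?_) 4)).aestronglyMeasurable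
      intro x; positivity
    · have h5 : 0 ≤ sq (curl V) x := sq_nonneg' _ _
      have h6 : (1 + ‖x‖ ^ 2)⁻¹ ≤ 1 := inv_le_one_of_one_le₀ (by nlinarith [sq_nonneg ‖x‖])
      have h7 : 0 ≤ (1 + ‖x‖ ^ 2)⁻¹ := by positivity
      rw [Real.norm_of_nonneg (mul_nonneg h5 (by positivity))]
      refine mul_le_mul_of_nonneg_left ?_ h5
      exact pow_le_pow_of_le_one h7 h6 (by norm_num)
  · obtain ⟨Cs, hCs, hs⟩ := ball_sobolev_one
    set A : ℝ := (∫ x, nm V x) ^ 2 with hA
    have hA0 : 0 ≤ A := sq_nonneg _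
    have hc3 : Continuous (fun x => sq V x ^ 3) := (continuous_sq hcV).pow 3
    have h03 : ∀ x, 0 ≤ sq V x ^ 3 := fun x => pow_nonneg (sq_nonneg' _ _) 3
    refine integrable_weight hc3 h03 (C := (Cs * (C + A)) ^ 3) (by positivity) ?_
    intro r hr
    have hr0 : 0 < r := by linarith
    have h4 := hs V r r hV.smooth hV.div0 hr0 le_rfl
    have h5 : (r / r) ^ 3 = 1 := by rw [div_self hr0.ne']; norm_num
    have h6 : r⁻¹ ^ 5 ≤ 1 := pow_le_one₀ (by positivity) (inv_le_one_of_one_le₀ hr)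
    have h8 : (∫ x in Metric.ball (0 : E) (r + r), nm V x) ≤ ∫ x, nm V x :=
      setIntegral_le_integral hi (Eventually.of_forall fun x => nm_nonneg V x)
    have h9 : 0 ≤ ∫ x in Metric.ball (0 : E) (r + r), nm V x :=
      integral_nonneg fun x => nm_nonneg V x
    have h10 : (∫ x in Metric.ball (0 : E) r, sq V x ^ 3) ^ (1 / 3 : ℝ) ≤ Cs * (C + A) := by
      refine h4.trans ?_
      rw [h5, one_mul]
      refine mul_le_mul_of_nonneg_left (add_le_add (hW _) ?_) hCs.le
      calc r⁻¹ ^ 5 * (∫ x in Metric.ball (0 : E) (r + r), nm V x) ^ 2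
          ≤ 1 * (∫ x, nm V x) ^ 2 := by
            refine mul_le_mul h6 (pow_le_pow_left₀ h9 h8 2) (sq_nonneg _) (by norm_num)
        _ = A := one_mul _
    have h11 : 0 ≤ ∫ x in Metric.ball (0 : E) r, sq V x ^ 3 := integral_nonneg h03
    calc (∫ x in Metric.ball (0 : E) r, sq V x ^ 3)
        = ((∫ x in Metric.ball (0 : E) r, sq V x ^ 3) ^ (1 / 3 : ℝ)) ^ 3 := by
          rw [← Real.rpow_natCast, ← Real.rpow_mul h11]; norm_num
      _ ≤ (Cs * (C + A)) ^ 3 := pow_le_pow_left₀ (Real.rpow_nonneg h11 _) h10 3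
      _ ≤ (Cs * (C + A)) ^ 3 * r ^ 3 :=
          le_mul_of_one_le_right (by positivity) (one_le_pow₀ hr)

/-- end of the proof -/
theorem eq_zero_of_curl_one {V : VF} (hs : ∀ i, ContDiff ℝ 3 (V i)) (hd : ∀ x, dv V x = 0)
    (hc : ∀ i x, curl V i x = 0) (hi : Integrable (nm V)) : ∀ i x, V i x = 0 := by
  have hcV : ∀ i, Continuous (V i) := fun i => (hs i).continuous
  obtain ⟨Cs, hCs, hsb⟩ := ball_sobolev_one
  set A : ℝ := (∫ x, nm V x) ^ 2 with hA
  have hA0 : 0 ≤ A := sq_nonneg _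
  have hc3 : Continuous (fun x => sq V x ^ 3) := (continuous_sq hcV).pow 3
  have h03 : ∀ x, 0 ≤ sq V x ^ 3 := fun x => pow_nonneg (sq_nonneg' _ _) 3
  have hW0 : ∀ r, W V r = 0 := by
    intro r
    unfold W sq
    simp [hc]
  -- bound on balls
  have hb : ∀ r : ℝ, 0 < r →
      (∫ x in Metric.ball (0 : E) r, sq V x ^ 3) ^ (1 / 3 : ℝ) ≤ Cs * A * r⁻¹ ^ 5 := by
    intro r hr
    have h4 := hsb V r r hs hd hr le_rfl
    have h5 : (r / r) ^ 3 = 1 := by rw [div_self hr.ne']; norm_num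
    rw [h5, one_mul, hW0, zero_add] at h4
    have h8 : (∫ x in Metric.ball (0 : E) (r + r), nm V x) ≤ ∫ x, nm V x :=
      setIntegral_le_integral hi (Eventually.of_forall fun x => nm_nonneg V x)
    have h9 : 0 ≤ ∫ x in Metric.ball (0 : E) (r + r), nm V x :=
      integral_nonneg fun x => nm_nonneg V x
    refine h4.trans ?_
    calc Cs * (r⁻¹ ^ 5 * (∫ x in Metric.ball (0 : E) (r + r), nm V x) ^ 2)
        ≤ Cs * (r⁻¹ ^ 5 * A) := by
          refine mul_le_mul_of_nonneg_left (mul_le_mul_of_nonneg_left ?_ (by positivity)) hCs.le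
          exact pow_le_pow_left₀ h9 h8 2
      _ = Cs * A * r⁻¹ ^ 5 := by ring
  have hlim : Tendsto (fun r : ℝ => Cs * A * r⁻¹ ^ 5) atTop (𝓝 0) := by
    have h5 : Tendsto (fun r : ℝ => r⁻¹ ^ 5) atTop (𝓝 (0 ^ 5)) := tendsto_inv_atTop_zero.pow 5
    have h6 := h5.const_mul (Cs * A)
    simpa using h6
  have hz : ∀ r : ℝ, (∫ x in Metric.ball (0 : E) r, sq V x ^ 3) = 0 := by
    intro r
    have h11 : 0 ≤ ∫ x in Metric.ball (0 : E) r, sq V x ^ 3 := integral_nonneg h03
    have h12 : (∫ x in Metric.ball (0 : E) r, sq V x ^ 3) ^ (1 / 3 : ℝ) ≤ 0 := by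
      refine ge_of_tendsto hlim ?_
      filter_upwards [eventually_ge_atTop (max r 1)] with s hs'
      have h13 : r ≤ s := (le_max_left _ _).trans hs'
      have h14 : 1 ≤ s := (le_max_right _ _).trans hs'
      refine le_trans ?_ (hb s (by linarith))
      exact Real.rpow_le_rpow h11 (setIntegral_ball_mono hc3 h03 h13) (by norm_num)
    have h15 : (∫ x in Metric.ball (0 : E) r, sq V x ^ 3) ^ (1 / 3 : ℝ) = 0 :=
      le_antisymm h12 (Real.rpow_nonneg h11 _)
    exact (Real.rpow_eq_zero h11 (by norm_num)).mp h15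
  intro i x
  set r : ℝ := ‖x‖ + 1 with hr
  have h16 := (setIntegral_eq_zero_iff_of_nonneg_ae (Eventually.of_forall h03)
    (integrableOn_ball_of_cont hc3 r)).mp (hz r)
  have h17 := Measure.eqOn_open_of_ae_eq h16 Metric.isOpen_ball hc3.continuousOn continuousOn_const
  have h18 : sq V x ^ 3 = 0 := h17 (by rw [mem_ball_zero_iff]; linarith)
  have h19 : sq V x = 0 := by
    exact pow_eq_zero_iff (by norm_num) |>.mp h18
  have h20 := abs_le_nm V i x
  unfold nm at h20
  rw [h19, Real.sqrt_zero] at h20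
  exact abs_nonpos_iff.mp h20

end Leray
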