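import Pool.Agent.Lib.MP_9b9638_an.RegC6

/-! # Leray profiles, module REG-C: regularity from the representation formula -/

open MeasureTheory Set Filter Topology TopologicalSpace
open scoped ENNReal

noncomputable section
namespace Leray
namespace RegC

variable {K g : E → ℝ}

/-- locally in `L^p` -/
def LL (p : ℝ≥0∞) (f : E → ℝ) : Prop := ∀ R : ℝ, MemLp f p (volume.restrict (Metric.closedBall (0 : E) R))

theorem LL.aesm {p : ℝ≥0∞} {f : E → ℝ} (h : LL p f) : AEStronglyMeasurable f volume := by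
  have h1 : (⋃ n : ℕ, Metric.closedBall (0 : E) n) = univ := by
    apply eq_univ_of_forall
    intro x
    obtain ⟨n, hn⟩ := exists_nat_ge ‖x‖
    exact mem_iUnion.2 ⟨n, by simpa using hn⟩
  have h2 : AEStronglyMeasurable f (volume.restrict (⋃ n : ℕ, Metric.closedBall (0 : E) n)) :=
    aestronglyMeasurable_iUnion_iff.2 fun n => (h n).aestronglyMeasurable
  rwa [h1, Measure.restrict_univ] at h2

instance (R : ℝ) : IsFiniteMeasure ((volume : Measure E).restrict (Metric.closedBall (0 : E) R)) :=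
  ⟨by rw [Measure.restrict_apply_univ]; exact (isCompact_closedBall (0 : E) R).measure_lt_top⟩

theorem LL.mono {p q : ℝ≥0∞} {f : E → ℝ} (h : LL p f) (hq : q ≤ p) : LL q f :=
  fun R => (h R).mono_exponent hq

theorem LL.add {p : ℝ≥0∞} {f g : E → ℝ} (hf : LL p f) (hg : LL p g) : LL p (fun x => f x + g x) :=
  fun R => (hf R).add (hg R)

theorem LL.sum {p : ℝ≥0∞} {ι : Type*} (s : Finset ι) {f : ι → E → ℝ} (hf : ∀ i, LL p (f i)) :
    LL p (fun x => ∑ i ∈ s, f i x) := fun R => by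
  have := memLp_finsetSum (μ := volume.restrict (Metric.closedBall (0 : E) R)) s (fun i _ => hf i R)
  exact this

theorem LL.coord_mul {p : ℝ≥0∞} {f : E → ℝ} (hf : LL p f) (m : Fin 3) : LL p (fun x => x m * f x) := by
  intro R
  have h1 : MemLp (fun x : E => x m) ⊤ (volume.restrict (Metric.closedBall (0 : E) R)) := by
    apply memLp_top_of_bound (differentiable_coord m).continuous.aestronglyMeasurable R
    filter_upwards [ae_restrict_mem measurableSet_closedBall] with x hx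
    rw [Real.norm_eq_abs]
    exact (abs_coord_le x m).trans (by simpa using hx)
  exact (hf R).mul' h1

theorem LL.mul {p q : ℝ≥0∞} {f g : E → ℝ} (hf : LL p f) (hg : LL p g) [ENNReal.HolderTriple p p q] :
    LL q (fun x => f x * g x) := fun R => (hg R).mul' (hf R)

theorem LL.congr {p : ℝ≥0∞} {f g : E → ℝ} (hf : LL p f) (h : f =ᵐ[volume] g) : LL p g :=
  fun R => (hf R).ae_eq (ae_restrict_of_ae h)

/-- localisation -/
theorem localise {p : ℝ≥0∞} (hp : 1 ≤ p) {g : E → ℝ} (hg : LL p g) (R : ℝ) : ∃ g' : E → ℝ, Measurable g' ∧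
    MemLp g' p volume ∧ Integrable g' ∧
    ∀ K : E → ℝ, (∀ z : E, 1 ≤ ‖z‖ → K z = 0) → ∀ x : E, ‖x‖ ≤ R → cv K g x = cv K g' x := by
  set g1 : E → ℝ := (Metric.closedBall (0 : E) (R + 1)).indicator g with hg1
  have m1 : MemLp g1 p volume := by
    rw [hg1, memLp_indicator_iff_restrict measurableSet_closedBall]
    exact hg (R + 1)
  have i1 : Integrable g1 := by
    rw [hg1, integrable_indicator_iff measurableSet_closedBall]
    exact (hg (R + 1)).integrable hp
  have ha : AEStronglyMeasurable g1 volume := m1.aestronglyMeasurable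
  have he : g1 =ᵐ[volume] ha.mk g1 := ha.ae_eq_mk
  refine ⟨ha.mk g1, ha.stronglyMeasurable_mk.measurable, m1.ae_eq he, i1.congr he, ?_⟩
  intro K hK x hx
  rw [← cv_congr_ae he x]
  apply cv_congr hK
  refine Eventually.of_forall fun w hw => ?_
  rw [hg1, indicator_of_mem]
  rw [mem_closedBall_zero_iff]
  calc ‖w‖ = ‖x - (x - w)‖ := by rw [sub_sub_cancel]
    _ ≤ ‖x‖ + ‖x - w‖ := norm_sub_le _ _
    _ ≤ R + 1 := by linarith

theorem cv_LL (h : Ker K) {g : E → ℝ} (hg : LL 3 g) : LL 9 (cv K g) := by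
  intro R
  obtain ⟨g', h1, h2, h3, h4⟩ := localise (by norm_num) hg R
  have h5 := (cv_nine h h1 h2 h3).restrict (Metric.closedBall (0 : E) R)
  apply h5.ae_eq
  filter_upwards [ae_restrict_mem measurableSet_closedBall] with x hx
  exact (h4 K h.supp x (by simpa using hx)).symm

/-- locally bounded -/
def LB (f : E → ℝ) : Prop := ∀ R : ℝ, ∃ B : ℝ, ∀ x : E, ‖x‖ ≤ R → |f x| ≤ B

theorem cv_LB (h : Ker K) {g : E → ℝ} (hg : LL 4 g) : LB (cv K g) := by
  intro R
  obtain ⟨g', h1, h2, h3, h4⟩ := localise (by norm_num) hg R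
  obtain ⟨B, hB⟩ := cv_bdd h h1 h2
  refine ⟨B, fun x hx => ?_⟩
  rw [h4 K h.supp x hx]
  exact hB x

theorem LB.add {f g : E → ℝ} (hf : LB f) (hg : LB g) : LB (fun x => f x + g x) := by
  intro R
  obtain ⟨A, hA⟩ := hf R
  obtain ⟨B, hB⟩ := hg R
  exact ⟨A + B, fun x hx => (abs_add_le _ _).trans (add_le_add (hA x hx) (hB x hx))⟩

theorem LB.mul {f g : E → ℝ} (hf : LB f) (hg : LB g) : LB (fun x => f x * g x) := by
  intro R
  obtain ⟨A, hA⟩ := hf R
  obtain ⟨B, hB⟩ := hg R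
  refine ⟨A * B, fun x hx => ?_⟩
  rw [abs_mul]
  exact mul_le_mul (hA x hx) (hB x hx) (abs_nonneg _) ((abs_nonneg _).trans (hA x hx))

theorem LB.of_continuous {f : E → ℝ} (hf : Continuous f) : LB f := fun R => by
  obtain ⟨B, _, hB⟩ := LH.bdd hf R
  exact ⟨B, hB⟩

theorem LB.sum {ι : Type*} (s : Finset ι) {f : ι → E → ℝ} (hf : ∀ i, LB (f i)) :
    LB (fun x => ∑ i ∈ s, f i x) := by
  classical
  induction s using Finset.induction_on with
  | empty =>
    simp only [Finset.sum_empty]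
    exact LB.of_continuous continuous_const
  | insert a s ha ih =>
    simp only [Finset.sum_insert ha]
    exact LB.add (hf a) ih

instance : ENNReal.HolderTriple 6 6 3 := by
  apply ENNReal.HolderTriple.of_toReal
  constructor <;> norm_num

instance : ENNReal.HolderTriple 8 8 4 := by
  apply ENNReal.HolderTriple.of_toReal
  constructor <;> norm_num

section
variable {K0 : E → ℝ} {K1 : Fin 3 → E → ℝ} {A : Fin 3 → Fin 3 → Fin 3 → E → ℝ}

theorem rep_HC (h0 : Ker K0) (h1 : ∀ m, Ker (K1 m)) (hA : ∀ k i j, Ker (A k i j)) {n : ℕ} {U : VF}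
    (hU : ∀ i, ContDiff ℝ n (U i)) (k : Fin 3) : HC n (Rep K0 K1 A U k) := by
  unfold Rep
  apply HC.add (HC.add _ _) _
  · exact P1 h0 (hU k)
  · exact HC.sum _ fun m => HC.mul (HC.coord n m) (P1 (h1 m) (hU k))
  · exact HC.sum _ fun i => HC.sum _ fun j => P1 (hA k i j) ((hU i).mul (hU j))

theorem rep_contDiff (h0 : Ker K0) (h1 : ∀ m, Ker (K1 m)) (hA : ∀ k i j, Ker (A k i j)) {n : ℕ} {U : VF}
    (hU : ∀ i, HC n (U i)) (k : Fin 3) : ContDiff ℝ (n + 1 : ℕ) (Rep K0 K1 A U k) := by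
  unfold Rep
  apply ContDiff.add (ContDiff.add _ _) _
  · exact P2 h0 (hU k)
  · exact ContDiff.sum fun m _ => (contDiff_coord m).mul (P2 (h1 m) (hU k))
  · exact ContDiff.sum fun i _ => ContDiff.sum fun j _ => P2 (hA k i j) (HC.mul (hU i) (hU j))

theorem rep_LH (h0 : Ker K0) (h1 : ∀ m, Ker (K1 m)) (hA : ∀ k i j, Ker (A k i j)) {U : VF}
    (hm : ∀ i, AEStronglyMeasurable (U i) volume) (hU : ∀ i, LB (U i)) (k : Fin 3) :
    HC 0 (Rep K0 K1 A U k) := by
  unfold Rep
  apply HC.add (HC.add _ _) _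
  · exact cv_LH h0 (hm k) (hU k)
  · exact HC.sum _ fun m => HC.mul (HC.coord 0 m) (cv_LH (h1 m) (hm k) (hU k))
  · exact HC.sum _ fun i => HC.sum _ fun j => cv_LH (hA k i j) ((hm i).mul (hm j)) (LB.mul (hU i) (hU j))

theorem rep_LL (h0 : Ker K0) (h1 : ∀ m, Ker (K1 m)) (hA : ∀ k i j, Ker (A k i j)) {U : VF}
    (hU : ∀ i, LL 6 (U i)) (k : Fin 3) : LL 9 (Rep K0 K1 A U k) := by
  have h3 : LL 3 (U k) := (hU k).mono (by norm_num)
  unfold Rep
  apply LL.add (LL.add _ _) _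
  · exact cv_LL h0 h3
  · exact LL.sum _ fun m => LL.coord_mul (cv_LL (h1 m) h3) m
  · exact LL.sum _ fun i => LL.sum _ fun j => cv_LL (hA k i j) (LL.mul (hU i) (hU j))

theorem rep_LB (h0 : Ker K0) (h1 : ∀ m, Ker (K1 m)) (hA : ∀ k i j, Ker (A k i j)) {U : VF}
    (hU : ∀ i, LL 8 (U i)) (k : Fin 3) : LB (Rep K0 K1 A U k) := by
  have h3 : LL 4 (U k) := (hU k).mono (by norm_num)
  unfold Rep
  apply LB.add (LB.add _ _) _
  · exact cv_LB h0 h3
  · exact LB.sum _ fun m => LB.mul (LB.of_continuous (differentiable_coord m).continuous) (cv_LB (h1 m) h3)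
  · exact LB.sum _ fun i => LB.sum _ fun j => cv_LB (hA k i j) (LL.mul (hU i) (hU j))

theorem rep_congr {U U' : VF} (h : ∀ i, U i =ᵐ[volume] U' i) : Rep K0 K1 A U = Rep K0 K1 A U' := by
  funext k x
  unfold Rep
  rw [cv_congr_ae (h k) x]
  congr 1
  · congr 1
    apply Finset.sum_congr rfl
    intro m _
    rw [cv_congr_ae (h k) x]
  · apply Finset.sum_congr rfl
    intro i _
    apply Finset.sum_congr rfl
    intro j _
    apply cv_congr_ae
    filter_upwards [h i, h j] with y h1 h2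
    rw [h1, h2]

end

end RegC

open RegC in
/-- **Regularity.** A field which is locally in `L⁶` and satisfies the representation formula is `C³`. -/
theorem regular_of_rep {U : VF} (h6 : ∀ i, ∀ K : Set E, IsCompact K → MemLp (U i) 6 (volume.restrict K))
    {K0 : E → ℝ} {K1 : Fin 3 → E → ℝ} {A : Fin 3 → Fin 3 → Fin 3 → E → ℝ}
    (h0 : Ker K0) (h1 : ∀ m, Ker (K1 m)) (hA : ∀ k i j, Ker (A k i j))
    (hrep : ∀ k, ∀ᵐ x, U k x = Rep K0 K1 A U k x) :
    ∃ U' : VF, (∀ i, ContDiff ℝ 3 (U' i)) ∧ ∀ i, U i =ᵐ[volume] U' i := by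
  have a6 : ∀ i, LL 6 (U i) := fun i R => h6 i _ (isCompact_closedBall 0 R)
  have a9 : ∀ i, LL 9 (U i) := fun i => (rep_LL h0 h1 hA a6 i).congr (by
    filter_upwards [hrep i] with x hx
    exact hx.symm)
  have a8 : ∀ i, LL 8 (U i) := fun i => (a9 i).mono (by norm_num)
  set U' : VF := Rep K0 K1 A U with hU'
  have hae : ∀ i, U i =ᵐ[volume] U' i := fun i => hrep i
  have hfix : U' = Rep K0 K1 A U' := by
    conv_lhs => rw [hU']
    exact rep_congr hae
  have bb : ∀ i, LB (U' i) := fun i => rep_LB h0 h1 hA a8 i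
  have hm : ∀ i, AEStronglyMeasurable (U' i) volume := fun i => (a6 i).aesm.congr (hae i)
  have c0 : ∀ i, HC 0 (U' i) := fun i => by rw [hfix]; exact rep_LH h0 h1 hA hm bb i
  have d1 : ∀ i, ContDiff ℝ (1 : ℕ) (U' i) := fun i => by
    rw [hfix]; exact rep_contDiff h0 h1 hA c0 i
  have c1 : ∀ i, HC 1 (U' i) := fun i => by rw [hfix]; exact rep_HC h0 h1 hA d1 i
  have d2 : ∀ i, ContDiff ℝ (2 : ℕ) (U' i) := fun i => by
    rw [hfix]; exact rep_contDiff h0 h1 hA c1 i
  have c2 : ∀ i, HC 2 (U' i) := fun i => by rw [hfix]; exact rep_HC h0 h1 hA d2 i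
  have d3 : ∀ i, ContDiff ℝ (3 : ℕ) (U' i) := fun i => by
    rw [hfix]; exact rep_contDiff h0 h1 hA c2 i
  exact ⟨U', fun i => by exact_mod_cast d3 i, hae⟩

end Leray
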