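import Pool.Agent.Lib.MP_9b9638_an.Defs

/-!
# Weak profiles of Leray's equations: the definitions used in the final statements

`IsProfile ν a V` says that `V ∈ W^{1,2}_loc(ℝ³;ℝ³)` is a solution of
`-ν ΔV + a V + a (y·∇)V + (V·∇)V + ∇P = 0`, `div V = 0` in the sense of distributions, for some
distribution `P`.
-/

open MeasureTheory Set Filter Topology TopologicalSpace
open scoped Distributions LineDeriv

noncomputable section

namespace Leray

/-- smooth compactly supported test functions on `ℝ³` -/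
def IsTest (ψ : E → ℝ) : Prop := ContDiff ℝ (⊤ : ℕ∞) ψ ∧ HasCompactSupport ψ

/-- all derivatives of `ψ` up to order `N` are bounded by `B` -/
def DerivBound (ψ : E → ℝ) (N : ℕ) (B : ℝ) : Prop := ∀ k ≤ N, ∀ x, ‖iteratedFDeriv ℝ k ψ x‖ ≤ B

/-- **distributions on `ℝ³`**: linear functionals on test functions such that on test functions supported in a
given compact set they are bounded by a constant times the maximum of finitely many derivatives -/
structure IsDistr (P : (E → ℝ) → ℝ) : Prop where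
  add : ∀ ψ χ, IsTest ψ → IsTest χ → P (fun x => ψ x + χ x) = P ψ + P χ
  smul : ∀ (c : ℝ) (ψ : E → ℝ), IsTest ψ → P (fun x => c * ψ x) = c * P ψ
  bound : ∀ K : Set E, IsCompact K → ∃ (C : ℝ) (N : ℕ), ∀ (ψ : E → ℝ) (B : ℝ), IsTest ψ → tsupport ψ ⊆ K →
    DerivBound ψ N B → |P ψ| ≤ C * B

/-- square integrability on compact sets, for scalar functions -/
def LocL2 (f : E → ℝ) : Prop := ∀ K : Set E, IsCompact K → MemLp f 2 (volume.restrict K)

/-- square integrability on compact sets, for vector fields -/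
def LocL2V (V : E → E) : Prop := ∀ K : Set E, IsCompact K → MemLp V 2 (volume.restrict K)

/-- `g` is the weak `j`-th partial derivative of `f` -/
def IsWeakPd (j : Fin 3) (f g : E → ℝ) : Prop := ∀ ψ, IsTest ψ → ∫ x, f x * pd j ψ x = - ∫ x, g x * ψ x

/-- `G i j` is the weak `j`-th partial derivative of the `i`-th component of `V` -/
def IsWeakGrad (V : E → E) (G : Fin 3 → Fin 3 → E → ℝ) : Prop := ∀ i j, IsWeakPd j (fun x => V x i) (G i j)

/-- `∫ ∇V : ∇φ` -/
def viscTerm (G : Fin 3 → Fin 3 → E → ℝ) (φ : VF) : ℝ := ∑ i, ∑ j, ∫ x, G i j x * pd j (φ i) x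

/-- `∫ V · φ` -/
def massTerm (V : E → E) (φ : VF) : ℝ := ∑ i, ∫ x, V x i * φ i x

/-- `∫ (b·∇)V · φ`, for a vector field `b` -/
def transTerm (b : E → E) (G : Fin 3 → Fin 3 → E → ℝ) (φ : VF) : ℝ := ∑ i, ∑ j, ∫ x, b x j * G i j x * φ i x

/-- the weak form of `-ν ΔV + a V + a (y·∇)V + (V·∇)V`, tested with `φ` -/
def momentum (ν a : ℝ) (V : E → E) (G : Fin 3 → Fin 3 → E → ℝ) (φ : VF) : ℝ :=
  ν * viscTerm G φ + a * massTerm V φ + a * transTerm id G φ + transTerm V G φ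

/-- **weak profiles**: `V ∈ W^{1,2}_loc(ℝ³;ℝ³)` with `-ν ΔV + a V + a (y·∇)V + (V·∇)V + ∇P = 0`, `div V = 0` in the
sense of distributions, for some distribution `P` -/
def IsProfile (ν a : ℝ) (V : E → E) : Prop :=
  LocL2V V ∧ ∃ G : Fin 3 → Fin 3 → E → ℝ, (∀ i j, LocL2 (G i j)) ∧ IsWeakGrad V G ∧ (∀ᵐ x, ∑ i, G i i x = 0) ∧
    ∃ P : (E → ℝ) → ℝ, IsDistr P ∧ ∀ φ : VF, (∀ i, IsTest (φ i)) → momentum ν a V G φ = P (dv φ)

/-- the form used in the proof: only divergence free test fields -/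
structure DFProfile (ν a : ℝ) (V : E → E) : Prop where
  /-- `V` is locally square integrable -/
  sqInt : ∀ K : Set E, IsCompact K → MemLp V 2 (volume.restrict K)
  /-- weak gradient, divergence zero, and the momentum equation -/
  weak : ∃ G : Fin 3 → Fin 3 → E → ℝ,
    (∀ i j, ∀ K : Set E, IsCompact K → MemLp (G i j) 2 (volume.restrict K)) ∧
    (∀ i j, ∀ ψ : 𝓓((⊤ : Opens E), ℝ), ∫ x, V x i * pd j ψ x = - ∫ x, G i j x * ψ x) ∧
    (∀ᵐ x, ∑ i, G i i x = 0) ∧
    ∀ φ : Fin 3 → 𝓓((⊤ : Opens E), ℝ), (∑ i, ∂_{ei i} (φ i)) = 0 →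
      ν * (∑ i, ∑ j, ∫ x, G i j x * pd j (φ i) x)
        + a * (∑ i, ∫ x, V x i * φ i x)
        + a * (∑ i, ∑ j, ∫ x, x j * G i j x * φ i x)
        + (∑ i, ∑ j, ∫ x, V x j * G i j x * φ i x)
        = 0

theorem isTest_coe (φ : 𝓓((⊤ : Opens E), ℝ)) : IsTest φ := ⟨φ.contDiff, φ.hasCompactSupport⟩

theorem lineDeriv_coe (φ : 𝓓((⊤ : Opens E), ℝ)) (i : Fin 3) (x : E) :
    (∂_{ei i} φ) x = pd i φ x := by
  rw [TestFunction.lineDerivOp_eq_lineDerivCLM ℝ, TestFunction.lineDerivCLM_apply_of_le (by simp)]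
  rw [DifferentiableAt.lineDeriv_eq_fderiv]
  · rfl
  · exact (φ.contDiff.differentiable (by simp)) x

theorem IsProfile.df {ν a : ℝ} {V : E → E} (h : IsProfile ν a V) : DFProfile ν a V := by
  obtain ⟨h1, G, h2, h3, h4, P, hP, h5⟩ := h
  refine ⟨h1, G, h2, fun i j ψ => h3 i j ψ (isTest_coe ψ), h4, fun φ hφ => ?_⟩
  have h6 := h5 (fun i => φ i) (fun i => isTest_coe (φ i))
  have e : dv (fun i => φ i) = fun x => (0 : ℝ) * (φ 0) x := by
    funext x
    have h7 : (∑ i, ∂_{ei i} (φ i)) x = 0 := by rw [hφ]; rfl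
    have e2 : (∑ i, ∂_{ei i} (φ i)) x = (∂_{ei 0} (φ 0)) x + (∂_{ei 1} (φ 1)) x + (∂_{ei 2} (φ 2)) x := by
      rw [Fin.sum_univ_three]; rfl
    rw [e2, lineDeriv_coe, lineDeriv_coe, lineDeriv_coe] at h7
    unfold dv
    rw [Fin.sum_univ_three, h7, zero_mul]
  rw [e, hP.smul 0 _ (isTest_coe _), zero_mul] at h6
  exact h6

end Leray
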