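import Pool.Agent.Lib.MP_9b9638_an.Head
import Pool.Agent.Lib.MP_9b9638_an.Statement

/-!
# A profile of class `C³` solves the equations pointwise
-/

open MeasureTheory Set Filter Topology TopologicalSpace
open scoped Distributions LineDeriv ContDiff

noncomputable section
namespace Leray
namespace RegD

/-- test functions from smooth functions with compact support -/
def tf (ψ : E → ℝ) (h1 : ContDiff ℝ (⊤ : ℕ∞) ψ) (h2 : HasCompactSupport ψ) :
    𝓓((⊤ : Opens E), ℝ) := ⟨ψ, h1, h2, by simp⟩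

theorem tf_coe (ψ : E → ℝ) (h1 : ContDiff ℝ (⊤ : ℕ∞) ψ) (h2 : HasCompactSupport ψ) :
    (tf ψ h1 h2 : E → ℝ) = ψ := rfl

theorem lineDeriv_apply (φ : 𝓓((⊤ : Opens E), ℝ)) (i : Fin 3) (x : E) :
    (∂_{ei i} φ) x = pd i φ x := by
  rw [TestFunction.lineDerivOp_eq_lineDerivCLM ℝ, TestFunction.lineDerivCLM_apply_of_le (by simp)]
  rw [DifferentiableAt.lineDeriv_eq_fderiv]
  · rfl
  · exact (φ.contDiff.differentiable (by simp)) x

theorem ae_eq_pd {u g : E → ℝ} {j : Fin 3} (hu : ContDiff ℝ 1 u)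
    (hg : ∀ K : Set E, IsCompact K → MemLp g 2 (volume.restrict K))
    (h : ∀ ψ : E → ℝ, ContDiff ℝ (⊤ : ℕ∞) ψ → HasCompactSupport ψ →
      ∫ x, u x * pd j ψ x = - ∫ x, g x * ψ x) : g =ᵐ[volume] pd j u := by
  refine ae_eq_of_integral_contDiff_smul_eq ?_ (continuous_pd hu).locallyIntegrable
    fun ψ h1 h2 => ?_
  · rw [locallyIntegrable_iff]
    intro K hK
    have : IsFiniteMeasure (volume.restrict K) := ⟨by
      rw [Measure.restrict_apply_univ]; exact hK.measure_lt_top⟩
    exact (hg K hK).integrable (by norm_num)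
  · have e1 := int_pd_mul (i := j) hu (h1.of_le (by exact_mod_cast le_top)) h2
    have e2 := h ψ h1 h2
    simp only [smul_eq_mul, mul_comm (ψ _)]
    linarith

/-- the momentum field -/
def Mf (ν a : ℝ) (U : VF) : VF := fun i x => -ν * lap (U i) x + a * U i x
  + a * (∑ j, x j * pd j (U i) x) + ∑ j, U j x * pd j (U i) x

/-- the gradient part -/
def hf (a : ℝ) (U : VF) : E → ℝ := fun x => (1 / 2) * (∑ j, U j x ^ 2) + a * ∑ j, x j * U j x

theorem contDiff_hf {a : ℝ} {U : VF} (hU : ∀ i, ContDiff ℝ 3 (U i)) : ContDiff ℝ 2 (hf a U) := by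
  have h : ∀ i, ContDiff ℝ 2 (U i) := fun i => (hU i).of_le (by norm_num)
  unfold hf
  exact (contDiff_const.mul (ContDiff.sum fun j _ => (h j).pow 2)).add
    (contDiff_const.mul (ContDiff.sum fun j _ => (contDiff_coord j).mul (h j)))

theorem pd_hf {a : ℝ} {U : VF} (hU : ∀ i, ContDiff ℝ 3 (U i)) (i : Fin 3) (x : E) :
    pd i (hf a U) x = (∑ j, U j x * pd i (U j) x) + a * (U i x + ∑ j, x j * pd i (U j) x) := by
  have hd : ∀ j, Differentiable ℝ (U j) := fun j => (hU j).differentiable (by norm_num)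
  have hd2 : ∀ j, Differentiable ℝ (fun y => U j y ^ 2) := fun j => (hd j).pow 2
  have hd3 : ∀ j, Differentiable ℝ (fun y : E => y j * U j y) := fun j =>
    (differentiable_coord j).mul (hd j)
  have hs2 : Differentiable ℝ (fun y => ∑ j, U j y ^ 2) := by fun_prop
  have hs3 : Differentiable ℝ (fun y : E => ∑ j, y j * U j y) := by fun_prop
  unfold hf
  rw [pd_add (hs2.const_mul _) (hs3.const_mul _), pd_const_mul _ hs2, pd_const_mul _ hs3,
    pd_sum_at (fun j _ => (hd2 j) x), pd_sum_at (fun j _ => (hd3 j) x)]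
  have e2 : ∀ j, pd i (fun y => U j y ^ 2) x = 2 * (U j x * pd i (U j) x) := fun j => by
    rw [pd_pow_at 2 (hd j x)]; push_cast; ring
  have e3 : ∀ j, pd i (fun y : E => y j * U j y) x
      = (if i = j then 1 else 0) * U j x + x j * pd i (U j) x := fun j => by
    rw [pd_mul (differentiable_coord j) (hd j), pd_coord]
  simp only [e2, e3]
  rw [← Finset.mul_sum, Finset.sum_add_distrib]
  simp only [ite_mul, one_mul, zero_mul, Finset.sum_ite_eq, Finset.mem_univ, if_true]
  ring

/-- `M = Z + ∇h` -/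
theorem Mf_eq {ν a : ℝ} {U : VF} (hU : ∀ i, ContDiff ℝ 3 (U i)) (hdiv : ∀ x, dv U x = 0)
    (i : Fin 3) (x : E) : Mf ν a U i x = Zf ν a U i x + pd i (hf a U) x := by
  have hU2 : ∀ i, ContDiff ℝ 2 (U i) := fun i => (hU i).of_le (by norm_num)
  have h0 : dv U = fun _ => 0 := funext hdiv
  have hcc : curl (curl U) i x = - lap (U i) x := by
    rw [curl_curl hU2, h0, pd_const]; ring
  obtain ⟨f1, f2, f3, f4⟩ := fin3_add i
  rw [pd_hf hU]
  unfold Mf Zf
  rw [hcc]
  unfold cr curl drift
  rw [f1, f2, f3, f4]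
  rw [sum_cyc (fun j => x j * pd j (U i) x) i, sum_cyc (fun j => U j x * pd j (U i) x) i,
    sum_cyc (fun j => U j x * pd i (U j) x) i, sum_cyc (fun j => x j * pd i (U j) x) i]
  ring

theorem contDiff_Mf {ν a : ℝ} {U : VF} (hU : ∀ i, ContDiff ℝ 3 (U i)) (i : Fin 3) :
    ContDiff ℝ 1 (Mf ν a U i) := by
  have h1 : ∀ i, ContDiff ℝ 1 (U i) := fun i => (hU i).of_le (by norm_num)
  have h2 : ∀ i j, ContDiff ℝ 1 (pd j (U i)) := fun i j => contDiff_pd (hU i) (by norm_num)
  have h3 : ∀ i, ContDiff ℝ 1 (lap (U i)) := fun i => by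
    unfold lap
    exact ContDiff.sum fun j _ => contDiff_pd (n := 2) (contDiff_pd (hU i) (by norm_num))
      (by norm_num)
  unfold Mf
  exact (((contDiff_const.mul (h3 i)).add (contDiff_const.mul (h1 i))).add
    (contDiff_const.mul (ContDiff.sum fun j _ => (contDiff_coord j).mul (h2 i j)))).add
    (ContDiff.sum fun j _ => (h1 j).mul (h2 i j))

theorem curl_Mf {ν a : ℝ} {U : VF} (hU : ∀ i, ContDiff ℝ 3 (U i)) (hdiv : ∀ x, dv U x = 0)
    (i : Fin 3) (x : E) : curl (Mf ν a U) i x = curl (Zf ν a U) i x := by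
  have hZ : ∀ i, Differentiable ℝ (Zf ν a U i) := fun i =>
    (contDiff_Zf hU i).differentiable (by norm_num)
  have hh := contDiff_hf (a := a) hU
  have hp : ∀ i, Differentiable ℝ (pd i (hf a U)) := fun i =>
    (contDiff_pd (m := 1) hh (by norm_num)).differentiable (by norm_num)
  have e : ∀ i, Mf ν a U i = fun y => Zf ν a U i y + pd i (hf a U) y := fun i => by
    funext y; exact Mf_eq hU hdiv i y
  unfold curl
  rw [e, e, pd_add (hZ _) (hp _), pd_add (hZ _) (hp _), pd_comm (i := i + 1) (j := i + 2) hh]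
  ring

theorem int_four {f1 f2 f3 f4 : E → ℝ} (c1 c2 c3 : ℝ) (h1 : Integrable f1) (h2 : Integrable f2)
    (h3 : Integrable f3) (h4 : Integrable f4) :
    ∫ x, (c1 * f1 x + c2 * f2 x + c3 * f3 x + f4 x)
      = c1 * (∫ x, f1 x) + c2 * (∫ x, f2 x) + c3 * (∫ x, f3 x) + ∫ x, f4 x := by
  have k1 : Integrable (fun x => c1 * f1 x) := h1.const_mul c1
  have k2 : Integrable (fun x => c2 * f2 x) := h2.const_mul c2
  have k3 : Integrable (fun x => c3 * f3 x) := h3.const_mul c3
  have k12 : Integrable (fun x => c1 * f1 x + c2 * f2 x) := k1.add k2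
  have k123 : Integrable (fun x => c1 * f1 x + c2 * f2 x + c3 * f3 x) := k12.add k3
  rw [integral_add k123 h4, integral_add k12 k3, integral_add k1 k2]
  simp only [integral_const_mul]

/-- the momentum equation tested with a divergence free field -/
theorem int_Mf {ν a : ℝ} {V : E → E} {U : VF} (hU : ∀ i, ContDiff ℝ 3 (U i))
    (he : ∀ i, (fun x => V x i) =ᵐ[volume] U i) {G : Fin 3 → Fin 3 → E → ℝ}
    (hG : ∀ i j, G i j =ᵐ[volume] pd j (U i)) {φ : VF} (hφ : ∀ i, ContDiff ℝ 1 (φ i))
    (hc : ∀ i, HasCompactSupport (φ i))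
    (hw : ν * (∑ i, ∑ j, ∫ x, G i j x * pd j (φ i) x)
        + a * (∑ i, ∫ x, V x i * φ i x)
        + a * (∑ i, ∑ j, ∫ x, x j * G i j x * φ i x)
        + (∑ i, ∑ j, ∫ x, V x j * G i j x * φ i x) = 0) :
    ∫ x, dot (Mf ν a U) φ x = 0 := by
  have hc1 : ∀ i, Continuous (U i) := fun i => (hU i).continuous
  have hp1 : ∀ i j, ContDiff ℝ 2 (pd j (U i)) := fun i j => contDiff_pd (hU i) (by norm_num)
  have hp2 : ∀ i j, Continuous (pd j (pd j (U i))) := fun i j =>
    continuous_pd ((hp1 i j).of_le (by norm_num))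
  have I1 : ∀ i j, Integrable (fun x => pd j (pd j (U i)) x * φ i x) := fun i j =>
    integrable_of_cc ((hp2 i j).mul (hφ i).continuous) ((hc i).mul_left)
  have I2 : ∀ i, Integrable (fun x => U i x * φ i x) := fun i =>
    integrable_of_cc ((hc1 i).mul (hφ i).continuous) ((hc i).mul_left)
  have I3 : ∀ i j, Integrable (fun x : E => x j * pd j (U i) x * φ i x) := fun i j =>
    integrable_of_cc (((differentiable_coord j).continuous.mul (hp1 i j).continuous).mul
      (hφ i).continuous) ((hc i).mul_left)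
  have I4 : ∀ i j, Integrable (fun x : E => U j x * pd j (U i) x * φ i x) := fun i j =>
    integrable_of_cc (((hc1 j).mul (hp1 i j).continuous).mul
      (hφ i).continuous) ((hc i).mul_left)
  have e1 : ∀ i j, ∫ x, G i j x * pd j (φ i) x = - ∫ x, pd j (pd j (U i)) x * φ i x := by
    intro i j
    rw [int_pd_mul ((hp1 i j).of_le (by norm_num)) (hφ i) (hc i), neg_neg]
    refine integral_congr_ae ?_
    filter_upwards [hG i j] with x hx
    rw [hx]
  have e2 : ∀ i, ∫ x, V x i * φ i x = ∫ x, U i x * φ i x := by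
    intro i
    refine integral_congr_ae ?_
    filter_upwards [he i] with x hx
    rw [show V x i = U i x from hx]
  have e3 : ∀ i j, ∫ x : E, x j * G i j x * φ i x = ∫ x : E, x j * pd j (U i) x * φ i x := by
    intro i j
    refine integral_congr_ae ?_
    filter_upwards [hG i j] with x hx
    rw [hx]
  have e4 : ∀ i j, ∫ x : E, V x j * G i j x * φ i x = ∫ x : E, U j x * pd j (U i) x * φ i x := by
    intro i j
    refine integral_congr_ae ?_
    filter_upwards [hG i j, he j] with x hx hx'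
    rw [hx, show V x j = U j x from hx']
  simp only [e1, e2, e3, e4] at hw
  have hx : ∀ x, dot (Mf ν a U) φ x = (-ν) * (∑ i, ∑ j, pd j (pd j (U i)) x * φ i x)
      + a * (∑ i, U i x * φ i x) + a * (∑ i, ∑ j, x j * pd j (U i) x * φ i x)
      + ∑ i, ∑ j, U j x * pd j (U i) x * φ i x := by
    intro x
    unfold dot Mf lap
    simp only [Fin.sum_univ_three]
    ring
  have J1 : Integrable (fun x => ∑ i, ∑ j, pd j (pd j (U i)) x * φ i x) :=
    integrable_finsetSum _ fun i _ => integrable_finsetSum _ fun j _ => I1 i j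
  have J2 : Integrable (fun x => ∑ i, U i x * φ i x) := integrable_finsetSum _ fun i _ => I2 i
  have J3 : Integrable (fun x : E => ∑ i, ∑ j, x j * pd j (U i) x * φ i x) :=
    integrable_finsetSum _ fun i _ => integrable_finsetSum _ fun j _ => I3 i j
  have J4 : Integrable (fun x : E => ∑ i, ∑ j, U j x * pd j (U i) x * φ i x) :=
    integrable_finsetSum _ fun i _ => integrable_finsetSum _ fun j _ => I4 i j
  simp only [hx]
  rw [int_four (-ν) a a J1 J2 J3 J4]
  rw [integral_finsetSum _ (fun i _ => integrable_finsetSum _ fun j _ => I1 i j),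
    integral_finsetSum _ (fun i _ => I2 i),
    integral_finsetSum _ (fun i _ => integrable_finsetSum _ fun j _ => I3 i j),
    integral_finsetSum _ (fun i _ => integrable_finsetSum _ fun j _ => I4 i j)]
  have f1 : ∀ i, ∫ x, ∑ j, pd j (pd j (U i)) x * φ i x = ∑ j, ∫ x, pd j (pd j (U i)) x * φ i x :=
    fun i => integral_finsetSum _ (fun j _ => I1 i j)
  have f3 : ∀ i, ∫ x : E, ∑ j, x j * pd j (U i) x * φ i x
      = ∑ j, ∫ x : E, x j * pd j (U i) x * φ i x :=
    fun i => integral_finsetSum _ (fun j _ => I3 i j)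
  have f4 : ∀ i, ∫ x : E, ∑ j, U j x * pd j (U i) x * φ i x
      = ∑ j, ∫ x : E, U j x * pd j (U i) x * φ i x :=
    fun i => integral_finsetSum _ (fun j _ => I4 i j)
  simp only [f1, f3, f4]
  simp only [Finset.sum_neg_distrib] at hw
  linarith

end RegD

open RegD in
theorem smooth_of_weak {ν a : ℝ} {V : E → E} (hV : DFProfile ν a V) {U : VF}
    (hU : ∀ i, ContDiff ℝ 3 (U i)) (he : ∀ i, (fun x => V x i) =ᵐ[volume] U i) :
    SmoothProfile ν a U := by
  obtain ⟨G, hG2, hGw, hGd, hP⟩ := hV.weak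
  have hU1 : ∀ i, ContDiff ℝ 1 (U i) := fun i => (hU i).of_le (by norm_num)
  have hG : ∀ i j, G i j =ᵐ[volume] pd j (U i) := by
    intro i j
    refine ae_eq_pd (hU1 i) (hG2 i j) fun ψ h1 h2 => ?_
    have h := hGw i j (tf ψ h1 h2)
    rw [tf_coe] at h
    rw [← h]
    refine integral_congr_ae ?_
    filter_upwards [he i] with x hx
    rw [show V x i = U i x from hx]
  have hdiv : ∀ x, dv U x = 0 := by
    have h1 : dv U =ᵐ[volume] fun _ => (0 : ℝ) := by
      filter_upwards [hGd, hG 0 0, hG 1 1, hG 2 2] with x h h0 h1 h2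
      unfold dv
      rw [Fin.sum_univ_three] at h ⊢
      rw [← h0, ← h1, ← h2]
      exact h
    have hcd : Continuous (dv U) := (contDiff_dv (m := 0) hU1 (by norm_num)).continuous
    have h2 := (hcd.ae_eq_iff_eq volume continuous_const).1 h1
    intro x
    rw [h2]
  refine ⟨hU, hdiv, ?_⟩
  intro k x
  rw [← curl_Mf hU hdiv]
  have hM : ∀ i, ContDiff ℝ 1 (Mf ν a U i) := contDiff_Mf hU
  have hMc : Continuous (curl (Mf ν a U) k) := continuous_curl hM k
  have hae : ∀ᵐ x, curl (Mf ν a U) k x = 0 := by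
    refine ae_eq_zero_of_integral_contDiff_smul_eq_zero hMc.locallyIntegrable fun ψ h1 h2 => ?_
    set A : VF := fun i => if i = k then ψ else fun _ => 0 with hA
    have hAs : ∀ i, ContDiff ℝ (⊤ : ℕ∞) (A i) := by
      intro i
      simp only [hA]
      split_ifs
      · exact h1
      · exact contDiff_const
    have hAc : ∀ i, HasCompactSupport (A i) := by
      intro i
      simp only [hA]
      split_ifs
      · exact h2
      · exact HasCompactSupport.zero
    have hAs1 : ∀ i, ContDiff ℝ 1 (A i) := fun i => (hAs i).of_le (by exact_mod_cast le_top)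
    have hAs2 : ∀ i, ContDiff ℝ 2 (A i) := fun i =>
      (hAs i).of_le (show ((2 : ℕ∞) : WithTop ℕ∞) ≤ ((⊤ : ℕ∞) : WithTop ℕ∞) from
        WithTop.coe_le_coe.2 le_top)
    have hcA : ∀ i, ContDiff ℝ (⊤ : ℕ∞) (curl A i) := fun i => contDiff_curl hAs (by simp) i
    have hcc : ∀ i, HasCompactSupport (curl A i) := hasCompactSupport_curl hAc
    have h0 : (∑ i, ∂_{ei i} (tf (curl A i) (hcA i) (hcc i))) = (0 : 𝓓((⊤ : Opens E), ℝ)) := by
      ext y
      have e : ∀ i, (∂_{ei i} (tf (curl A i) (hcA i) (hcc i))) y = pd i (curl A i) y := fun i => by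
        rw [lineDeriv_apply, tf_coe]
      rw [Fin.sum_univ_three]
      simp only [_root_.add_apply, _root_.zero_apply, e]
      have := dv_curl hAs2 y
      unfold dv at this
      rw [Fin.sum_univ_three] at this
      exact this
    have hw := hP (fun i => tf (curl A i) (hcA i) (hcc i)) h0
    have hw' : ∫ x, dot (Mf ν a U) (curl A) x = 0 :=
      int_Mf hU he hG (φ := curl A) (fun i => (hcA i).of_le (by exact_mod_cast le_top)) hcc hw
    rw [← int_curl_dot hM hAs1 hAc] at hw'
    rw [← hw']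
    refine integral_congr_ae (Filter.Eventually.of_forall fun y => ?_)
    simp only [dot, hA, smul_eq_mul]
    rw [Finset.sum_eq_single k]
    · simp [mul_comm]
    · intro b _ hb
      simp [hb]
    · intro h; exact absurd (Finset.mem_univ k) h
  have h3 := (hMc.ae_eq_iff_eq volume continuous_const).1 (show curl (Mf ν a U) k =ᵐ[volume] fun _ => (0 : ℝ) from hae)
  rw [h3]

end Leray
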