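import Pool.Agent.Lib.MP_9b9638_an.Defs

/-! # Leray profiles: very weak formulation (definition shared by REG-A and REG-B) -/

open MeasureTheory Set Filter Topology TopologicalSpace

noncomputable section
namespace Leray

/-- the very weak formulation -/
structure VeryWeak (ν a : ℝ) (U : VF) : Prop where
  loc6 : ∀ i, ∀ K : Set E, IsCompact K → MemLp (U i) 6 (volume.restrict K)
  div : ∀ ψ : E → ℝ, ContDiff ℝ (⊤ : ℕ∞) ψ → HasCompactSupport ψ → ∑ i, ∫ x, U i x * pd i ψ x = 0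
  eq : ∀ Φ : E → ℝ, ContDiff ℝ (⊤ : ℕ∞) Φ → HasCompactSupport Φ → ∀ k,
    ν * ∫ x, U k x * lap (lap Φ) x
      = (∑ i, ∑ j, ∫ x, U i x * U j x * pd i (pd j (pd k Φ)) x)
        - (∑ j, ∫ x, U k x * U j x * pd j (lap Φ) x)
        - a * ∫ x, U k x * lap (fun y => ∑ j, y j * pd j Φ y) x

end Leray
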