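import Pool.Agent.Lib.MP_9b9638_an.RepLim
import Pool.Agent.Lib.MP_9b9638_an.VWDefs

/-! # Leray profiles, REG-B: the representation formula -/

open MeasureTheory Set Filter Topology TopologicalSpace

noncomputable section
namespace Leray
namespace RB

/-- third derivatives -/
def D3 (i j k : Fin 3) : EP → ℝ := pz i (pz j (pz k F0))

/-- derivatives of the Laplacian -/
def D1 (m : Fin 3) : EP → ℝ := pz m (lapz F0)

theorem sy_D3 (i j k : Fin 3) : Sy (-2) (D3 i j k) := ((sy_F0.pz k).pz j).pz i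

theorem sp_D3 (i j k : Fin 3) : Sp (D3 i j k) := ((sp_F0.pz k).pz j).pz i

theorem sy_D1 (m : Fin 3) : Sy (-2) (D1 m) := (sy_lapz sy_F0).pz m

theorem sp_D1 (m : Fin 3) : Sp (D1 m) := (sp_lapz sp_F0).pz m

theorem sy_D0 : Sy (-2) (lapz F0) := (sy_lapz sy_F0).mono (by norm_num)

theorem sp_D0 : Sp (lapz F0) := sp_lapz sp_F0

theorem loc_of_memLp {f : E → ℝ} (h : ∀ K : Set E, IsCompact K → MemLp f 6 (volume.restrict K)) :
    LocallyIntegrable f := by
  rw [locallyIntegrable_iff]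
  intro K hK
  have : IsFiniteMeasure ((volume : Measure E).restrict K) := ⟨by
    rw [Measure.restrict_apply_univ]; exact hK.measure_lt_top⟩
  exact (h K hK).integrable (by norm_num)

theorem loc_of_memLp_mul {f g : E → ℝ} (h : ∀ K : Set E, IsCompact K → MemLp f 6 (volume.restrict K))
    (h' : ∀ K : Set E, IsCompact K → MemLp g 6 (volume.restrict K)) :
    LocallyIntegrable (fun x => f x * g x) := by
  rw [locallyIntegrable_iff]
  intro K hK
  have : IsFiniteMeasure ((volume : Measure E).restrict K) := ⟨by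
    rw [Measure.restrict_apply_univ]; exact hK.measure_lt_top⟩
  exact ((h K hK).mono_exponent (p := 2) (by norm_num)).integrable_mul
    ((h' K hK).mono_exponent (p := 2) (by norm_num))

theorem loc_coord_mul {f : E → ℝ} (h : LocallyIntegrable f) (m : Fin 3) :
    LocallyIntegrable (fun x => x m * f x) := by
  rw [locallyIntegrable_iff] at h ⊢
  intro K hK
  have cm : Continuous (fun y : E => y m) := (differentiable_coord m).continuous
  exact IntegrableOn.continuousOn_mul cm.continuousOn (h K hK) hK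

/-- the limiting identity -/
theorem identity {ν a : ℝ} {U : VF} (hU : VeryWeak ν a U) {ψ : E → ℝ} (hψ : Continuous ψ)
    (hψc : HasCompactSupport ψ) (k : Fin 3) :
    ν * (P (fun z => L4 (z, 0)) (Gf (U k) ψ) - c1 * ∫ y, U k y * ψ y) =
      (∑ i, ∑ j, P (fun z => D3 i j k (z, 0)) (Gf (fun y => U i y * U j y) ψ))
        - (∑ j, P (fun z => D1 j (z, 0)) (Gf (fun y => U k y * U j y) ψ))
        - a * (2 * P (fun z => lapz F0 (z, 0)) (Gf (U k) ψ) +
          ∑ m, (P (fun z => D1 m (z, 0)) (Gf (U k) (fun x => x m * ψ x)) +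
            P (fun z => z m * D1 m (z, 0)) (Gf (U k) ψ))) := by
  have hg : ∀ i, LocallyIntegrable (U i) := fun i => loc_of_memLp (hU.loc6 i)
  have hgg : ∀ i j, LocallyIntegrable (fun y => U i y * U j y) :=
    fun i j => loc_of_memLp_mul (hU.loc6 i) (hU.loc6 j)
  have l1 := (lim_top (hg k) hψ hψc).const_mul ν
  have l2 : Tendsto (fun e : ℝ => ∑ i, ∑ j, ∫ y, (U i y * U j y) * ce (D3 i j k) ψ e y) (𝓝[>] 0)
      (𝓝 (∑ i, ∑ j, P (fun z => D3 i j k (z, 0)) (Gf (fun y => U i y * U j y) ψ))) :=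
    tendsto_finsetSum _ fun i _ => tendsto_finsetSum _ fun j _ =>
      lim_ce (sy_D3 i j k) (sp_D3 i j k) (hgg i j) hψ hψc
  have l3 : Tendsto (fun e : ℝ => ∑ j, ∫ y, (U k y * U j y) * ce (D1 j) ψ e y) (𝓝[>] 0)
      (𝓝 (∑ j, P (fun z => D1 j (z, 0)) (Gf (fun y => U k y * U j y) ψ))) :=
    tendsto_finsetSum _ fun j _ => lim_ce (sy_D1 j) (sp_D1 j) (hgg k j) hψ hψc
  have l4 := lim_ce sy_D0 sp_D0 (hg k) hψ hψc
  have l5 : Tendsto (fun e : ℝ => ∑ m, ∫ y, U k y * (y m * ce (D1 m) ψ e y)) (𝓝[>] 0)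
      (𝓝 (∑ m, (P (fun z => D1 m (z, 0)) (Gf (U k) (fun x => x m * ψ x)) +
            P (fun z => z m * D1 m (z, 0)) (Gf (U k) ψ)))) :=
    tendsto_finsetSum _ fun m _ => lim_coord (sy_D1 m) (sp_D1 m) (hg k) hψ hψc m
  have l6 := (l2.sub l3).sub (((l4.const_mul 2).add l5).const_mul a)
  refine tendsto_nhds_unique l1 (Tendsto.congr' ?_ l6)
  filter_upwards [eventually_small] with e he
  have he0 : e ≠ 0 := he.1.ne'
  set Φ : E → ℝ := ce F0 ψ e with hΦ
  have hΦs : ContDiff ℝ (⊤ : ℕ∞) Φ := contDiff_ce ok_F0 hψ hψc he0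
  have hΦc : HasCompactSupport Φ := hcs_ce ok_F0 hψc e
  have hlap : lap Φ = ce (lapz F0) ψ e := lap_ce ok_F0 hψ hψc he0
  have hlap2 : lap (lap Φ) = ce L4 ψ e := by
    rw [hlap]; exact lap_ce ok_F0.lapz hψ hψc he0
  have hD1 : ∀ m, pd m (lap Φ) = ce (D1 m) ψ e := by
    intro m
    rw [hlap]; exact pd_ce ok_F0.lapz hψ he0 m
  have hD3 : ∀ i j, pd i (pd j (pd k Φ)) = ce (D3 i j k) ψ e := by
    intro i j
    rw [hΦ, pd_ce ok_F0 hψ he0, pd_ce (ok_F0.pz k) hψ he0, pd_ce ((ok_F0.pz k).pz j) hψ he0]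
    rfl
  have hE := hU.eq Φ hΦs hΦc k
  rw [hlap2] at hE
  simp only [hD3, hD1] at hE
  have hD : ∫ x, U k x * lap (fun y => ∑ j, y j * pd j Φ y) x =
      2 * (∫ y, U k y * ce (lapz F0) ψ e y) + ∑ m, ∫ y, U k y * (y m * ce (D1 m) ψ e y) := by
    have i1 : Integrable (fun y => 2 * (U k y * ce (lapz F0) ψ e y)) :=
      (int_mul_ce ok_F0.lapz (hg k) hψ hψc he0).const_mul 2
    have i2 : ∀ m, Integrable (fun y => U k y * (y m * ce (D1 m) ψ e y)) := by
      intro m
      have hok : Ok (D1 m) := ok_F0.lapz.pz m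
      have cm : Continuous (fun y : E => y m) := (differentiable_coord m).continuous
      exact (hg k).integrable_smul_right_of_hasCompactSupport
        (cm.mul (contDiff_ce hok hψ hψc he0).continuous) (hcs_ce hok hψc e).mul_left
    rw [← integral_const_mul, ← integral_finsetSum _ fun m _ => i2 m,
      ← integral_add i1 (integrable_finsetSum _ fun m _ => i2 m)]
    congr 1
    funext y
    rw [lap_euler hΦs, hlap]
    simp only [← hlap, hD1]
    rw [mul_add, Finset.mul_sum, hlap]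
    ring
  rw [hD] at hE
  exact hE.symm

/-- zeroth order kernel, before reflection -/
def k0 (ν a : ℝ) (z : E) : ℝ :=
  (1 / c1) * L4 (z, 0) + ((2 * a / (ν * c1)) * lapz F0 (z, 0) + (a / (ν * c1)) * ∑ m, z m * D1 m (z, 0))

/-- kernels with a coordinate, before reflection -/
def k1 (ν a : ℝ) (m : Fin 3) (z : E) : ℝ := (a / (ν * c1)) * D1 m (z, 0)

/-- quadratic kernels, before reflection -/
def kA (ν : ℝ) (k i j : Fin 3) (z : E) : ℝ :=
  (-(1 / (ν * c1))) * D3 i j k (z, 0) + (if i = k then 1 / (ν * c1) else 0) * D1 j (z, 0)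

theorem ker_D3 (i j k : Fin 3) : Ker (fun z => D3 i j k (z, 0)) := ker_slice (sy_D3 i j k) (sp_D3 i j k)
theorem ker_D1 (m : Fin 3) : Ker (fun z => D1 m (z, 0)) := ker_slice (sy_D1 m) (sp_D1 m)
theorem ker_D0 : Ker (fun z => lapz F0 (z, 0)) := ker_slice sy_D0 sp_D0
theorem ker_zD1 (m : Fin 3) : Ker (fun z => z m * D1 m (z, 0)) :=
  ker_slice (sy_coord (sy_D1 m) m) ((sp_D1 m).mul_left _)

theorem ker_k0 (ν a : ℝ) : Ker (k0 ν a) :=
  ker_add (ker_const_mul ker_L4 _) (ker_add (ker_const_mul ker_D0 _)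
    (ker_const_mul (ker_sum Finset.univ fun m _ => ker_zD1 m) _))

theorem ker_k1 (ν a : ℝ) (m : Fin 3) : Ker (k1 ν a m) := ker_const_mul (ker_D1 m) _

theorem ker_kA (ν : ℝ) (k i j : Fin 3) : Ker (kA ν k i j) :=
  ker_add (ker_const_mul (ker_D3 i j k) _) (ker_const_mul (ker_D1 j) _)

theorem identity' {ν a : ℝ} (hν : 0 < ν) {U : VF} (hU : VeryWeak ν a U) {ψ : E → ℝ} (hψ : Continuous ψ)
    (hψc : HasCompactSupport ψ) (k : Fin 3) :
    ∫ y, U k y * ψ y = P (k0 ν a) (Gf (U k) ψ) + (∑ m, P (k1 ν a m) (Gf (U k) (fun x => x m * ψ x)))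
      + ∑ i, ∑ j, P (kA ν k i j) (Gf (fun y => U i y * U j y) ψ) := by
  have h := identity hU hψ hψc k
  have hg : ∀ i, LocallyIntegrable (U i) := fun i => loc_of_memLp (hU.loc6 i)
  have hgg : ∀ i j, LocallyIntegrable (fun y => U i y * U j y) :=
    fun i j => loc_of_memLp_mul (hU.loc6 i) (hU.loc6 j)
  have cG := continuous_Gf (hg k) hψ hψc
  have cGG : ∀ i j, Continuous (Gf (fun y => U i y * U j y) ψ) := fun i j => continuous_Gf (hgg i j) hψ hψc
  have e0 : P (k0 ν a) (Gf (U k) ψ) = (1 / c1) * P (fun z => L4 (z, 0)) (Gf (U k) ψ) +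
      ((2 * a / (ν * c1)) * P (fun z => lapz F0 (z, 0)) (Gf (U k) ψ) +
        (a / (ν * c1)) * ∑ m, P (fun z => z m * D1 m (z, 0)) (Gf (U k) ψ)) := by
    unfold k0
    rw [P_add (ker_const_mul ker_L4 _) (ker_add (ker_const_mul ker_D0 _)
      (ker_const_mul (ker_sum Finset.univ fun m _ => ker_zD1 m) _)) cG,
      P_add (ker_const_mul ker_D0 _) (ker_const_mul (ker_sum Finset.univ fun m _ => ker_zD1 m) _) cG,
      P_const_mul, P_const_mul, P_const_mul, P_sum Finset.univ (fun m _ => ker_zD1 m) cG]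
  have e1 : ∀ m, P (k1 ν a m) (Gf (U k) (fun x => x m * ψ x)) =
      (a / (ν * c1)) * P (fun z => D1 m (z, 0)) (Gf (U k) (fun x => x m * ψ x)) := by
    intro m
    unfold k1
    rw [P_const_mul]
  have e2 : ∀ i j, P (kA ν k i j) (Gf (fun y => U i y * U j y) ψ) =
      (-(1 / (ν * c1))) * P (fun z => D3 i j k (z, 0)) (Gf (fun y => U i y * U j y) ψ) +
        (if i = k then 1 / (ν * c1) else 0) * P (fun z => D1 j (z, 0)) (Gf (fun y => U i y * U j y) ψ) := by
    intro i j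
    unfold kA
    rw [P_add (ker_const_mul (ker_D3 i j k) _) (ker_const_mul (ker_D1 j) _) (cGG i j), P_const_mul, P_const_mul]
  rw [e0]
  simp only [e1, e2]
  have e3 : ∑ i, ∑ j, ((-(1 / (ν * c1))) * P (fun z => D3 i j k (z, 0)) (Gf (fun y => U i y * U j y) ψ) +
        (if i = k then 1 / (ν * c1) else 0) * P (fun z => D1 j (z, 0)) (Gf (fun y => U i y * U j y) ψ)) =
      (-(1 / (ν * c1))) * (∑ i, ∑ j, P (fun z => D3 i j k (z, 0)) (Gf (fun y => U i y * U j y) ψ)) +
      (1 / (ν * c1)) * ∑ j, P (fun z => D1 j (z, 0)) (Gf (fun y => U k y * U j y) ψ) := by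
    simp only [Finset.sum_add_distrib, Finset.mul_sum]
    congr 1
    rw [Finset.sum_eq_single k]
    · simp
    · intro i _ hi
      simp [hi]
    · simp
  rw [e3, ← Finset.mul_sum]
  simp only [Finset.sum_add_distrib] at h
  have hc := c1_pos.ne'
  have hν' := hν.ne'
  field_simp
  linarith [h]

theorem rep_ae {ν a : ℝ} (hν : 0 < ν) {U : VF} (hU : VeryWeak ν a U) (k : Fin 3) :
    ∀ᵐ x, U k x = Rep (fun z => k0 ν a (-z)) (fun m z => k1 ν a m (-z)) (fun k i j z => kA ν k i j (-z)) U k x := by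
  have hg : ∀ i, LocallyIntegrable (U i) := fun i => loc_of_memLp (hU.loc6 i)
  have hgg : ∀ i j, LocallyIntegrable (fun y => U i y * U j y) :=
    fun i j => loc_of_memLp_mul (hU.loc6 i) (hU.loc6 j)
  have s1 : LocallyIntegrable (cv (fun z => k0 ν a (-z)) (U k)) :=
    locallyIntegrable_cv (ker_integrable (ker_k0 ν a)) (ker_k0 ν a).supp (hg k)
  have s2 : ∀ m, LocallyIntegrable (fun x : E => x m * cv (fun z => k1 ν a m (-z)) (U k) x) := fun m =>
    loc_coord_mul (locallyIntegrable_cv (ker_integrable (ker_k1 ν a m)) (ker_k1 ν a m).supp (hg k)) m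
  have s3 : ∀ i j, LocallyIntegrable (cv (fun z => kA ν k i j (-z)) (fun y => U i y * U j y)) := fun i j =>
    locallyIntegrable_cv (ker_integrable (ker_kA ν k i j)) (ker_kA ν k i j).supp (hgg i j)
  have s4 : LocallyIntegrable (fun x : E => ∑ m, x m * cv (fun z => k1 ν a m (-z)) (U k) x) :=
    locallyIntegrable_finsetSum _ fun m _ => s2 m
  have s5 : LocallyIntegrable (fun x : E => ∑ i, ∑ j, cv (fun z => kA ν k i j (-z)) (fun y => U i y * U j y) x) :=
    locallyIntegrable_finsetSum _ fun i _ => locallyIntegrable_finsetSum _ fun j _ => s3 i j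
  have s6 : LocallyIntegrable (Rep (fun z => k0 ν a (-z)) (fun m z => k1 ν a m (-z))
      (fun k i j z => kA ν k i j (-z)) U k) := (s1.add s4).add s5
  apply ae_eq_of_integral_contDiff_smul_eq (hg k) s6
  intro ψ hψ' hψc
  have hψ : Continuous ψ := hψ'.continuous
  have cm : ∀ m : Fin 3, Continuous (fun y : E => y m) := fun m => (differentiable_coord m).continuous
  have t1 : Integrable (fun x => ψ x * cv (fun z => k0 ν a (-z)) (U k) x) :=
    integrable_mul_cv (ker_integrable (ker_k0 ν a)) (ker_k0 ν a).supp (hg k) hψ hψc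
  have t2 : ∀ m, Integrable (fun x => (x m * ψ x) * cv (fun z => k1 ν a m (-z)) (U k) x) := fun m =>
    integrable_mul_cv (ψ := fun x => x m * ψ x) (ker_integrable (ker_k1 ν a m)) (ker_k1 ν a m).supp (hg k)
      ((cm m).mul hψ) hψc.mul_left
  have t3 : ∀ i j, Integrable (fun x => ψ x * cv (fun z => kA ν k i j (-z)) (fun y => U i y * U j y) x) :=
    fun i j => integrable_mul_cv (ker_integrable (ker_kA ν k i j)) (ker_kA ν k i j).supp (hgg i j) hψ hψc
  have r1 : ∫ x, ψ x * cv (fun z => k0 ν a (-z)) (U k) x = P (k0 ν a) (Gf (U k) ψ) :=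
    int_cv (ker_integrable (ker_k0 ν a)) (ker_k0 ν a).supp (hg k) hψ hψc
  have r2 : ∀ m, ∫ x, (x m * ψ x) * cv (fun z => k1 ν a m (-z)) (U k) x =
      P (k1 ν a m) (Gf (U k) (fun x => x m * ψ x)) := fun m =>
    int_cv (ψ := fun x => x m * ψ x) (ker_integrable (ker_k1 ν a m)) (ker_k1 ν a m).supp (hg k)
      ((cm m).mul hψ) hψc.mul_left
  have r3 : ∀ i j, ∫ x, ψ x * cv (fun z => kA ν k i j (-z)) (fun y => U i y * U j y) x =
      P (kA ν k i j) (Gf (fun y => U i y * U j y) ψ) :=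
    fun i j => int_cv (ker_integrable (ker_kA ν k i j)) (ker_kA ν k i j).supp (hgg i j) hψ hψc
  have h := identity' hν hU hψ hψc k
  simp only [← r1, ← r2, ← r3] at h
  rw [← integral_finsetSum _ fun m _ => t2 m] at h
  simp only [← integral_finsetSum _ fun j _ => t3 _ j] at h
  have t4 : Integrable (fun x => ψ x * cv (fun z => k0 ν a (-z)) (U k) x +
      ∑ m, (x m * ψ x) * cv (fun z => k1 ν a m (-z)) (U k) x) :=
    t1.add (integrable_finsetSum _ fun m _ => t2 m)
  rw [← integral_finsetSum _ fun i _ => integrable_finsetSum _ fun j _ => t3 i j,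
    ← integral_add t1 (integrable_finsetSum _ fun m _ => t2 m),
    ← integral_add t4
      (integrable_finsetSum _ fun i _ => integrable_finsetSum _ fun j _ => t3 i j)] at h
  have h1 : ∫ x, ψ x • U k x = ∫ y, U k y * ψ y := by
    congr 1
    funext x
    rw [smul_eq_mul, mul_comm]
  rw [h1, h]
  congr 1
  funext x
  unfold Rep
  rw [smul_eq_mul, mul_add, mul_add, Finset.mul_sum, Finset.mul_sum]
  congr 1
  · congr 1
    apply Finset.sum_congr rfl
    intro m _
    ring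
  · apply Finset.sum_congr rfl
    intro i _
    rw [Finset.mul_sum]

end RB

/-- **REG-B.** The representation formula for very weak solutions. -/
theorem representation {ν a : ℝ} (hν : 0 < ν) {U : VF} (hU : VeryWeak ν a U) :
    ∃ (K0 : E → ℝ) (K1 : Fin 3 → E → ℝ) (A : Fin 3 → Fin 3 → Fin 3 → E → ℝ),
      Ker K0 ∧ (∀ m, Ker (K1 m)) ∧ (∀ k i j, Ker (A k i j)) ∧
        ∀ k, ∀ᵐ x, U k x = Rep K0 K1 A U k x :=
  ⟨fun z => RB.k0 ν a (-z), fun m z => RB.k1 ν a m (-z), fun k i j z => RB.kA ν k i j (-z),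
    RB.ker_neg (RB.ker_k0 ν a), fun m => RB.ker_neg (RB.ker_k1 ν a m),
    fun k i j => RB.ker_neg (RB.ker_kA ν k i j), fun k => RB.rep_ae hν hU k⟩

end Leray
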