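import Pool.Agent.Lib.MP_9b9638_an.RegA
import Pool.Agent.Lib.MP_9b9638_an.Rep
import Pool.Agent.Lib.MP_9b9638_an.RegC
import Pool.Agent.Lib.MP_9b9638_an.RegD

/-!
# Weak profiles are smooth
-/

open MeasureTheory Set Filter Topology TopologicalSpace

noncomputable section
namespace Leray

theorem exists_smooth {ν a : ℝ} (hν : 0 < ν) {V : E → E} (hV : DFProfile ν a V) :
    ∃ U : VF, SmoothProfile ν a U ∧ ∀ i, (fun x => V x i) =ᵐ[volume] U i := by
  have hw := veryWeak hV
  obtain ⟨K0, K1, A, h0, h1, hA, hrep⟩ := representation hν hw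
  obtain ⟨U', hU', he⟩ := regular_of_rep hw.loc6 h0 h1 hA hrep
  exact ⟨U', smooth_of_weak hV hU' he, he⟩

end Leray
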