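import Pool.Agent.Lib.MP_9b9638_an.OneD
import Pool.Agent.Lib.MP_9b9638_an.OneE
import Pool.Agent.Lib.MP_9b9638_an.OneF
import Pool.Agent.Lib.MP_9b9638_an.Statement
import Pool.Agent.Lib.MP_9b9638_an.Smooth
import Pool.Agent.Lib.MP_9b9638_an.Head
import Pool.Agent.Lib.MP_9b9638_an.HeadMax
import Pool.Agent.Lib.MP_9b9638_an.Hopf
import Pool.Agent.Lib.MP_9b9638_an.Fin4

/-!
# The case `p = 1`: growth dichotomy
-/

open MeasureTheory Set Filter Topology TopologicalSpace
open scoped Distributions LineDeriv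

noncomputable section
namespace Leray
namespace OneG

/-- a smooth profile with bounded enstrophy, integrable, vanishes -/
theorem eq_zero_of_bounded {ν a : ℝ} (hν : 0 < ν) (ha : 0 < a) {U : VF} (hU : SmoothProfile ν a U)
    (hi : Integrable (nm U)) {C : ℝ} (hW : ∀ R, W U R ≤ C) : ∀ i x, U i x = 0 := by
  obtain ⟨hI1, hI2⟩ := growth_integrals_one hU hi hW
  obtain ⟨q, hq2, hq, hL⟩ := exists_head hU
  obtain ⟨x₀, hx₀⟩ := head_max hν ha hU hq2 hq hI1 hI2
  have hb : ∀ i, Continuous (drift a U i) := fun i => by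
    unfold drift
    exact (hU.smooth i).continuous.add (continuous_const.mul (differentiable_coord i).continuous)
  have hc := hopf hν (b := drift a U) hb hq2 (fun x => by
    rw [hL x]
    have := mul_nonneg hν.le (sq_nonneg' (curl U) x)
    linarith) hx₀
  have hqc : q = fun _ => q x₀ := funext hc
  have hpd : ∀ i, pd i q = fun _ => 0 := fun i => by
    funext x
    rw [hqc]
    exact pd_const _ x
  have hsq : ∀ x, sq (curl U) x = 0 := fun x => by
    have h := hL x
    have e1 : lap q x = 0 := by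
      unfold lap
      exact Finset.sum_eq_zero fun i _ => by rw [hpd i]; exact pd_const _ x
    have e2 : dot (drift a U) (grad q) x = 0 := by
      unfold dot grad
      exact Finset.sum_eq_zero fun i _ => by rw [hpd i]; ring
    rw [e1, e2] at h
    have h' : ν * sq (curl U) x = 0 := by linarith
    rcases mul_eq_zero.1 h' with h0 | h0
    · exact absurd h0 hν.ne'
    · exact h0
  have hcurl : ∀ i x, curl U i x = 0 := fun i x => by
    have h0 := hsq x
    unfold sq at h0
    have h4 := (Finset.sum_eq_zero_iff_of_nonneg (fun j _ => by positivity)).1 h0 i (Finset.mem_univ i)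
    exact pow_eq_zero_iff (two_ne_zero) |>.1 h4
  exact eq_zero_of_curl_one hU.smooth hU.div0 hcurl hi

theorem sq_curl_le (F : VF) (x : E) : sq (curl F) x ≤ 2 * gsq F x := by
  have h : ∀ i, curl F i x ^ 2 ≤ 2 * (pd (i + 1) (F (i + 2)) x ^ 2 + pd (i + 2) (F (i + 1)) x ^ 2) := by
    intro i
    unfold curl
    nlinarith [sq_nonneg (pd (i + 1) (F (i + 2)) x + pd (i + 2) (F (i + 1)) x)]
  have h0 := h 0
  have h1 := h 1
  have h2 := h 2
  simp only [sq, gsq, Fin.sum_univ_three]
  simp only [show (0 : Fin 3) + 1 = 1 from rfl, show (0 : Fin 3) + 2 = 2 from rfl,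
    show (1 : Fin 3) + 1 = 2 from rfl, show (1 : Fin 3) + 2 = 0 from rfl,
    show (2 : Fin 3) + 1 = 0 from rfl, show (2 : Fin 3) + 2 = 1 from rfl] at h0 h1 h2
  have k0 := sq_nonneg (pd 0 (F 0) x)
  have k1 := sq_nonneg (pd 1 (F 1) x)
  have k2 := sq_nonneg (pd 2 (F 2) x)
  linarith

theorem integrableOn_ball {f : E → ℝ} (hf : Continuous f) (R : ℝ) :
    IntegrableOn f (Metric.ball (0 : E) R) :=
  (hf.continuousOn.integrableOn_compact (isCompact_closedBall (0 : E) R)).mono_set
    Metric.ball_subset_closedBall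

theorem W_le_gsq {U : VF} (hs : ∀ i, ContDiff ℝ 3 (U i)) (R : ℝ) :
    W U R ≤ 2 * ∫ x in Metric.ball (0 : E) R, gsq U x := by
  unfold W
  rw [← integral_const_mul]
  refine integral_mono (integrableOn_ball (Thk.continuous_sq_curl hs) R)
    ((integrableOn_ball (continuous_gsq fun i => (hs i).of_le (by norm_num)) R).const_mul 2)
    fun x => sq_curl_le U x

end OneG

open OneG in
theorem main_one {ν a : ℝ} (hν : 0 < ν) (ha : 0 < a) (V : E → E) (hV : IsProfile ν a V)
    (hL1 : Integrable V) (hne : ¬ V =ᵐ[volume] 0) (G : Fin 3 → Fin 3 → E → ℝ)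
    (hG2 : ∀ i j, LocL2 (G i j)) (hG : IsWeakGrad V G) :
    Tendsto (fun R : ℝ => Real.log (∫ x in Metric.ball (0 : E) R, ∑ i, ∑ j, G i j x ^ 2) / R ^ 2)
      atTop atTop := by
  obtain ⟨U, hU, he⟩ := exists_smooth hν hV.df
  have hnm : ∀ᵐ x, ‖V x‖ = nm U x := by
    filter_upwards [he 0, he 1, he 2] with x h0 h1 h2
    unfold nm sq
    rw [EuclideanSpace.norm_eq, Fin.sum_univ_three, Fin.sum_univ_three, h0, h1, h2]
    simp only [Real.norm_eq_abs, sq_abs]
  have hint : Integrable (nm U) := hL1.norm.congr hnm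
  have hGU : ∀ i j, G i j =ᵐ[volume] pd j (U i) := fun i j => by
    refine RegD.ae_eq_pd ((hU.smooth i).of_le (by norm_num)) (hG2 i j) fun ψ h1 h2 => ?_
    rw [← hG i j ψ ⟨h1, h2⟩]
    refine integral_congr_ae ?_
    filter_upwards [he i] with x hx
    rw [hx]
  have hD : ∀ R : ℝ, ∫ x in Metric.ball (0 : E) R, ∑ i, ∑ j, G i j x ^ 2
      = ∫ x in Metric.ball (0 : E) R, gsq U x := fun R => by
    refine integral_congr_ae (ae_restrict_of_ae ?_)
    have h9 : ∀ᵐ x, ∀ i j, G i j x = pd j (U i) x := by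
      rw [ae_all_iff]; intro i
      rw [ae_all_iff]; intro j
      exact hGU i j
    filter_upwards [h9] with x hx
    unfold gsq
    rw [Finset.sum_comm]
    exact Finset.sum_congr rfl fun i _ => Finset.sum_congr rfl fun j _ => by rw [hx]
  simp only [hD]
  by_contra hcon
  rw [tendsto_atTop] at hcon
  push Not at hcon
  obtain ⟨b, hb⟩ := hcon
  have hfreq : ∃ᶠ R : ℝ in atTop, W U R ≤ Real.exp ((|b| + 1) * R ^ 2) := by
    refine (hb.and_eventually (eventually_ge_atTop (1 : ℝ))).mono fun R hR => ?_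
    obtain ⟨h1, h2⟩ := hR
    rw [div_lt_iff₀ (by positivity)] at h1
    have hR2 : 1 ≤ R ^ 2 := by nlinarith
    have hW := W_le_gsq hU.smooth R
    set D := ∫ x in Metric.ball (0 : E) R, gsq U x with hDdef
    have hD0 : 0 ≤ D := integral_nonneg fun x => gsq_nonneg U x
    have e1 : D ≤ Real.exp (|b| * R ^ 2) := by
      rcases hD0.eq_or_lt with h0 | h0
      · rw [← h0]; positivity
      · rw [← Real.log_le_iff_le_exp h0]
        refine h1.le.trans ?_
        exact mul_le_mul_of_nonneg_right (le_abs_self b) (by positivity)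
    have e2 : (2 : ℝ) ≤ Real.exp (R ^ 2) := by
      have := Real.add_one_le_exp (R ^ 2)
      linarith
    calc W U R ≤ 2 * D := hW
      _ ≤ Real.exp (R ^ 2) * Real.exp (|b| * R ^ 2) := by
          refine mul_le_mul e2 e1 hD0 (Real.exp_pos _).le
      _ = Real.exp ((|b| + 1) * R ^ 2) := by rw [← Real.exp_add]; ring_nf
  obtain ⟨C, K, κ, hC, hK, hκ0, hκ1, hstep⟩ := step_one ν a hν ha U hU hint
  obtain ⟨C', hC'⟩ := iterate_one (W U) (Thk.W_mono hU.smooth) (Thk.W_nonneg U) (nm U) hint
    (fun x => Real.sqrt_nonneg _) C K κ hC hK hκ0 hκ1 hstep (|b| + 1) hfreq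
  have hz := eq_zero_of_bounded hν ha hU hint hC'
  refine hne ?_
  filter_upwards [he 0, he 1, he 2] with x e0 e1 e2
  have e : ∀ i, V x i = 0 := by
    intro i
    fin_cases i
    · exact e0.trans (hz 0 x)
    · exact e1.trans (hz 1 x)
    · exact e2.trans (hz 2 x)
  ext i
  exact e i

end Leray
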