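import Pool.Agent.Lib.MP_9b9638_an.OneD
import Pool.Agent.Lib.MP_9b9638_an.OneB
import Pool.Agent.Lib.MP_9b9638_an.OneC1
import Pool.Agent.Lib.MP_9b9638_an.OneC2

/-!
# The endpoint `p = 1` up to a logarithm: the large part of a field
-/

open MeasureTheory Set Filter Topology

noncomputable section

namespace Leray

/-- the part of `|V|` above the height `lam` -/
def bs (V : VF) (lam : ℝ) (y : E) : ℝ := max (nm V y - lam) 0

/-- the function `bs V lam` as a field -/
def Vb (V : VF) (lam : ℝ) : VF := ![bs V lam, fun _ => 0, fun _ => 0]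

theorem bs_nonneg (V : VF) (lam : ℝ) (y : E) : 0 ≤ bs V lam y := le_max_right _ _

theorem bs_le_nm {V : VF} {lam : ℝ} (hl : 0 ≤ lam) (y : E) : bs V lam y ≤ nm V y :=
  max_le (by linarith) (nm_nonneg V y)

theorem nm_le_bs (V : VF) (lam : ℝ) (y : E) : nm V y ≤ lam + bs V lam y := by
  have := le_max_left (nm V y - lam) 0
  unfold bs; linarith

theorem nm_Vb (V : VF) (lam : ℝ) (y : E) : nm (Vb V lam) y = bs V lam y := by
  unfold nm sq Vb
  rw [Fin.sum_univ_three]
  simp only [Matrix.cons_val_zero, Matrix.cons_val_one, Matrix.cons_val]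
  rw [zero_pow two_ne_zero, add_zero, add_zero, Real.sqrt_sq (bs_nonneg V lam y)]

theorem continuous_bs {V : VF} (hV : ∀ i, Continuous (V i)) (lam : ℝ) : Continuous (bs V lam) :=
  ((continuous_nm hV).sub continuous_const).max continuous_const

theorem continuous_Vb {V : VF} (hV : ∀ i, Continuous (V i)) (lam : ℝ) (i : Fin 3) : Continuous (Vb V lam i) := by
  unfold Vb
  fin_cases i
  · exact continuous_bs hV lam
  · exact continuous_const
  · exact continuous_const

theorem integrable_bs {V : VF} (hV : ∀ i, Continuous (V i)) (hi : Integrable (nm V)) {lam : ℝ} (hl : 0 ≤ lam) :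
    Integrable (bs V lam) := by
  refine hi.mono' (continuous_bs hV lam).aestronglyMeasurable (Eventually.of_forall fun y => ?_)
  rw [Real.norm_of_nonneg (bs_nonneg V lam y)]
  exact bs_le_nm hl y

theorem sq_le_bs {V : VF} {lam : ℝ} (hl : 0 ≤ lam) (y : E) : sq V y ≤ 2 * lam * nm V y + 2 * bs V lam y ^ 2 := by
  rw [← nm_sq]
  have h0 := nm_nonneg V y
  have h1 := bs_nonneg V lam y
  unfold bs at *
  rcases le_total (nm V y) lam with h | h
  · rw [max_eq_right (by linarith)]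
    nlinarith [mul_nonneg h0 (sub_nonneg.2 h)]
  · rw [max_eq_left (by linarith)]
    nlinarith [mul_nonneg hl (sub_nonneg.2 h), sq_nonneg (nm V y - lam - lam)]

theorem pow4_le_bs {V : VF} {lam : ℝ} (hl : 0 ≤ lam) (y : E) :
    nm V y ^ 4 ≤ 8 * lam ^ 3 * nm V y + 8 * bs V lam y ^ 4 := by
  have h0 := nm_nonneg V y
  unfold bs
  rcases le_total (nm V y) lam with h | h
  · rw [max_eq_right (by linarith)]
    have h3 : nm V y ^ 3 ≤ lam ^ 3 := pow_le_pow_left₀ h0 h 3
    have : nm V y ^ 4 = nm V y ^ 3 * nm V y := by ring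
    rw [this]
    nlinarith [mul_le_mul_of_nonneg_right h3 h0, mul_nonneg (pow_nonneg hl 3) h0]
  · rw [max_eq_left (by linarith)]
    obtain ⟨b, hb⟩ : ∃ b, b = nm V y - lam := ⟨_, rfl⟩
    have hn : nm V y = lam + b := by rw [hb]; ring
    have hb0 : 0 ≤ b := by linarith
    rw [← hb, hn]
    have k1 : (lam + b) ^ 4 ≤ 8 * (lam ^ 4 + b ^ 4) := by
      have a1 : (lam + b) ^ 2 ≤ 2 * (lam ^ 2 + b ^ 2) := by nlinarith [sq_nonneg (lam - b)]
      have a2 : ((lam + b) ^ 2) ^ 2 ≤ (2 * (lam ^ 2 + b ^ 2)) ^ 2 := pow_le_pow_left₀ (sq_nonneg _) a1 2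
      nlinarith [sq_nonneg (lam ^ 2 - b ^ 2)]
    have k2 : 0 ≤ lam ^ 3 * b := by positivity
    nlinarith

/-- the primitive of `1/Φ` -/
def Lam (Φ : ℝ → ℝ) (s : ℝ) : ℝ := ∫ t in (0 : ℝ)..s, (Φ t)⁻¹

end Leray
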