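import Pool.Agent.Lib.MP_9b9638_an.OsgA

/-!
# The endpoint `p = 1` up to a logarithm: Sobolev inequality on shells

Proof: as `shell_sobolev_one` (file OneB, `LocOne.localised_p` with `p = 1`, `t = 1/5`, `u = 4/5`). `localised`
gives `Y^(1/3) ≤ C (∫ ζ^6 |curl V|^2 + C₁^2 η⁻² ∫ ζ^4 |V|^2)`, `Y = ∫ sq (sm ζ^3 V) ^ 3`. By `sq_le_bs`
`∫ ζ^4 |V|^2 ≤ 2 lam ∫_T |V| + 2 ∫ ζ^4 sq (Vb V lam)`; `LocOne.interp` for the field `Vb V lam` (only continuity is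
needed there) gives `∫ ζ^4 sq (Vb V lam) ≤ (∫ sq (sm ζ^3 (Vb V lam)) ^ 3)^(1/5) (∫_T bs)^(4/5)`, and
`sq (Vb V lam) ≤ sq V` pointwise; absorb with `absorb` (Shell1).
-/

open MeasureTheory Set Filter Topology

noncomputable section

namespace Leray

private theorem osgB_sq_Vb (V : VF) (lam : ℝ) (y : E) : sq (Vb V lam) y = bs V lam y ^ 2 := by
  rw [← nm_sq, nm_Vb]

private theorem osgB_sq_Vb_le (V : VF) {lam : ℝ} (hl : 0 ≤ lam) (y : E) : sq (Vb V lam) y ≤ sq V y := by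
  rw [osgB_sq_Vb, ← nm_sq]
  exact pow_le_pow_left₀ (bs_nonneg V lam y) (bs_le_nm hl y) 2

/-- interpolation for the large part -/
private theorem osgB_interp {V : VF} (hV : ∀ i, Continuous (V i)) {lam : ℝ} (hl : 0 ≤ lam) {ζ : E → ℝ}
    (hζ : Continuous ζ) (hc : HasCompactSupport ζ) (h0 : ∀ x, 0 ≤ ζ x) (hle : ∀ x, ζ x ≤ 1)
    {T : Set E} (hT : MeasurableSet T) (hz : ∀ x, x ∉ T → ζ x = 0)
    (hloc : ∀ f : E → ℝ, Continuous f → IntegrableOn f T) :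
    ∫ x, ζ x ^ 4 * sq (Vb V lam) x ≤ (∫ x, sq (sm (fun y => ζ y ^ 3) V) x ^ 3) ^ (1 / 5 : ℝ)
      * (∫ x in T, bs V lam x) ^ (4 / 5 : ℝ) := by
  have hcV := continuous_Vb hV lam
  have h := LocOne.interp (p := 1) le_rfl (by norm_num) hcV hζ hc h0 hle hT hz
    (hloc _ (by simpa only [Real.rpow_one] using continuous_nm hcV))
  simp only [Real.rpow_one, nm_Vb] at h
  rw [show ((2 : ℝ) - 1) / (6 - 1) = 1 / 5 by norm_num, show (4 : ℝ) / (6 - 1) = 4 / 5 by norm_num] at h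
  refine h.trans ?_
  have hA0 : 0 ≤ ∫ x in T, bs V lam x := integral_nonneg fun x => bs_nonneg V lam x
  have hint : ∀ {F : VF}, (∀ i, Continuous (F i)) → Integrable (fun x => sq (sm (fun y => ζ y ^ 3) F) x ^ 3) := by
    intro F hF
    have e : (fun x => sq (sm (fun y => ζ y ^ 3) F) x ^ 3) = fun x => ζ x ^ 18 * sq F x ^ 3 := by
      funext x; rw [Loc.sq_sm]; ring
    rw [e]
    exact integrable_of_cc ((hζ.pow 18).mul ((continuous_sq hF).pow 3))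
      (hc.comp_left (g := fun t : ℝ => t ^ 18) (by simp)).mul_right
  apply mul_le_mul_of_nonneg_right _ (Real.rpow_nonneg hA0 _)
  apply Real.rpow_le_rpow _ _ (by norm_num)
  · exact integral_nonneg fun x => pow_nonneg (sq_nonneg' _ x) 3
  · apply integral_mono (hint hcV) (hint hV)
    intro x
    dsimp only
    apply pow_le_pow_left₀ (sq_nonneg' _ x)
    rw [Loc.sq_sm, Loc.sq_sm]
    exact mul_le_mul_of_nonneg_left (osgB_sq_Vb_le V hl x) (sq_nonneg _)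

/-- splitting of the localised `L²` norm -/
private theorem osgB_split {V : VF} (hV : ∀ i, Continuous (V i)) {lam : ℝ} (hl : 0 ≤ lam) {ζ : E → ℝ}
    (hζ : Continuous ζ) (hc : HasCompactSupport ζ) (h0 : ∀ x, 0 ≤ ζ x) (hle : ∀ x, ζ x ≤ 1)
    {T : Set E} (hT : MeasurableSet T) (hz : ∀ x, x ∉ T → ζ x = 0)
    (hloc : ∀ f : E → ℝ, Continuous f → IntegrableOn f T) :
    ∫ x, ζ x ^ 4 * sq V x ≤ 2 * (lam * ∫ x in T, nm V x) + 2 * ∫ x, ζ x ^ 4 * sq (Vb V lam) x := by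
  have hc4 : HasCompactSupport fun x => ζ x ^ 4 := hc.comp_left (g := fun t : ℝ => t ^ 4) (by simp)
  have hcV := continuous_Vb hV lam
  have I1 : Integrable fun x => ζ x ^ 4 * sq V x :=
    integrable_of_cc ((hζ.pow 4).mul (continuous_sq hV)) hc4.mul_right
  have I2 : Integrable fun x => ζ x ^ 4 * nm V x :=
    integrable_of_cc ((hζ.pow 4).mul (continuous_nm hV)) hc4.mul_right
  have I3 : Integrable fun x => ζ x ^ 4 * sq (Vb V lam) x :=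
    integrable_of_cc ((hζ.pow 4).mul (continuous_sq hcV)) hc4.mul_right
  have h1 : ∫ x, ζ x ^ 4 * nm V x ≤ ∫ x in T, nm V x :=
    Loc.set_upper (fun x => nm_nonneg V x) (by norm_num) h0 hle hT hz (hloc _ (continuous_nm hV))
  have h2 : ∫ x, ζ x ^ 4 * sq V x ≤ ∫ x, ((2 * lam) * (ζ x ^ 4 * nm V x) + 2 * (ζ x ^ 4 * sq (Vb V lam) x)) := by
    apply integral_mono I1 ((I2.const_mul _).add (I3.const_mul _))
    intro x
    change ζ x ^ 4 * sq V x ≤ (2 * lam) * (ζ x ^ 4 * nm V x) + 2 * (ζ x ^ 4 * sq (Vb V lam) x)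
    have h3 := sq_le_bs hl x (V := V)
    rw [osgB_sq_Vb]
    have h4 : 0 ≤ ζ x ^ 4 := pow_nonneg (h0 x) 4
    calc ζ x ^ 4 * sq V x ≤ ζ x ^ 4 * (2 * lam * nm V x + 2 * bs V lam x ^ 2) := mul_le_mul_of_nonneg_left h3 h4
      _ = _ := by ring
  rw [integral_add (I2.const_mul _) (I3.const_mul _), integral_const_mul, integral_const_mul] at h2
  have h5 : 2 * lam * ∫ x, ζ x ^ 4 * nm V x ≤ 2 * (lam * ∫ x in T, nm V x) := by
    have := mul_le_mul_of_nonneg_left h1 hl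
    nlinarith
  linarith

private theorem osgB_power {D η A : ℝ} (hD : 0 ≤ D) (hη : 0 < η) (hA : 0 ≤ A) :
    (D * (η⁻¹ ^ 2 * A ^ (4 / 5 : ℝ))) ^ (5 / 2 : ℝ) = D ^ (5 / 2 : ℝ) * (η⁻¹ ^ 5 * A ^ 2) := by
  have hi : 0 ≤ η⁻¹ := (inv_pos.2 hη).le
  rw [Real.mul_rpow hD (by positivity), Real.mul_rpow (by positivity) (by positivity), ← Real.rpow_mul hA,
    ← Real.rpow_natCast, ← Real.rpow_mul hi]
  congr 2
  · rw [← Real.rpow_natCast]; norm_num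
  · rw [← Real.rpow_natCast]; norm_num

/-- localised Sobolev inequality -/
private theorem osgB_localised (C₁ : ℝ) : ∃ C : ℝ, 0 < C ∧
    ∀ (V : VF) (ζ : E → ℝ) (η lam : ℝ) (S T : Set E), (∀ i, ContDiff ℝ 3 (V i)) →
    (∀ x, dv V x = 0) → ContDiff ℝ (⊤ : ℕ∞) ζ → HasCompactSupport ζ → 0 < η → 0 ≤ lam →
    (∀ x i, |pd i ζ x| ≤ C₁ / η) → (∀ x, 0 ≤ ζ x) → (∀ x, ζ x ≤ 1) → MeasurableSet S → (∀ x ∈ S, ζ x = 1) →
    MeasurableSet T → (∀ x, x ∉ T → ζ x = 0) → (∀ f : E → ℝ, Continuous f → IntegrableOn f T) →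
    (∫ x in S, sq V x ^ 3) ^ (1 / 3 : ℝ) ≤
      C * ((∫ x in T, sq (curl V) x) + η⁻¹ ^ 2 * (lam * ∫ x in T, nm V x)
        + η⁻¹ ^ 5 * (∫ x in T, bs V lam x) ^ 2) := by
  obtain ⟨C, hC, hL⟩ := Loc.localised
  obtain ⟨D, hD⟩ : ∃ D, D = 2 * (2 * (C * C₁ ^ 2)) := ⟨_, rfl⟩
  have hD0 : 0 ≤ D := by rw [hD]; positivity
  refine ⟨2 * C + D + D ^ (5 / 2 : ℝ), by positivity, ?_⟩
  intro V ζ η lam S T hV hd hζ hc hη hl hb h0 hle hS hS1 hT hz hloc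
  have hVc : ∀ i, Continuous (V i) := fun i => (hV i).continuous
  have a1 := hL V ζ η C₁ hV hd hζ hc hη hb
  have a2 := osgB_interp hVc hl hζ.continuous hc h0 hle hT hz hloc
  have a7 := osgB_split hVc hl hζ.continuous hc h0 hle hT hz hloc
  have a3 := Loc.set_lower hVc hζ.continuous hc hS hS1
  have a4 : ∫ x, ζ x ^ 6 * sq (curl V) x ≤ ∫ x in T, sq (curl V) x :=
    Loc.set_upper (fun x => sq_nonneg' _ x) (by norm_num) h0 hle hT hz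
      (hloc _ (continuous_sq (continuous_curl fun i => (hV i).of_le (by norm_num))))
  have hS0 : 0 ≤ ∫ x in S, sq V x ^ 3 := integral_nonneg fun x => pow_nonneg (sq_nonneg' _ x) 3
  have hA0 : 0 ≤ ∫ x in T, bs V lam x := integral_nonneg fun x => bs_nonneg V lam x
  have hN0 : 0 ≤ ∫ x in T, nm V x := integral_nonneg fun x => nm_nonneg V x
  have hY0 : 0 ≤ ∫ x, sq (sm (fun y => ζ y ^ 3) V) x ^ 3 := integral_nonneg fun x => pow_nonneg (sq_nonneg' _ x) 3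
  have hΩ0 : 0 ≤ ∫ x in T, sq (curl V) x := integral_nonneg fun x => sq_nonneg' _ x
  obtain ⟨Y, hY⟩ : ∃ Y, Y = ∫ x, sq (sm (fun y => ζ y ^ 3) V) x ^ 3 := ⟨_, rfl⟩
  obtain ⟨A, hA⟩ : ∃ A, A = ∫ x in T, bs V lam x := ⟨_, rfl⟩
  obtain ⟨N, hN⟩ : ∃ N, N = ∫ x in T, nm V x := ⟨_, rfl⟩
  obtain ⟨Ω, hΩ⟩ : ∃ Ω, Ω = ∫ x in T, sq (curl V) x := ⟨_, rfl⟩
  obtain ⟨Q, hQ⟩ : ∃ Q, Q = ∫ x in S, sq V x ^ 3 := ⟨_, rfl⟩
  rw [← hY] at a1 a2 a3 hY0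
  rw [← hA] at a2 hA0
  rw [← hN] at a7 hN0
  rw [← hΩ] at a4 hΩ0
  rw [← hQ] at a3 hS0
  rw [← hA, ← hN, ← hΩ, ← hQ]
  have hX0 : 0 ≤ Y ^ (1 / 3 : ℝ) := Real.rpow_nonneg hY0 _
  have hYt : Y ^ (1 / 5 : ℝ) = (Y ^ (1 / 3 : ℝ)) ^ (3 / 5 : ℝ) := by
    rw [← Real.rpow_mul hY0]; congr 1; norm_num
  have hηi : 0 < η⁻¹ := inv_pos.mpr hη
  have hAu : 0 ≤ A ^ (4 / 5 : ℝ) := Real.rpow_nonneg hA0 _
  rw [hYt] at a2
  obtain ⟨X, hX⟩ : ∃ X, X = Y ^ (1 / 3 : ℝ) := ⟨_, rfl⟩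
  rw [← hX] at a1 a2 hX0
  have hlN : 0 ≤ lam * N := mul_nonneg hl hN0
  have a5 : X ≤ (C * Ω + 2 * (C * C₁ ^ 2) * (η⁻¹ ^ 2 * (lam * N)))
      + (2 * (C * C₁ ^ 2) * (η⁻¹ ^ 2 * A ^ (4 / 5 : ℝ))) * X ^ (3 / 5 : ℝ) := by
    calc X ≤ C * ((∫ x, ζ x ^ 6 * sq (curl V) x) + C₁ ^ 2 * η⁻¹ ^ 2 * ∫ x, ζ x ^ 4 * sq V x) := a1
      _ ≤ C * (Ω + C₁ ^ 2 * η⁻¹ ^ 2 * (2 * (lam * N) + 2 * (X ^ (3 / 5 : ℝ) * A ^ (4 / 5 : ℝ)))) := by
          apply mul_le_mul_of_nonneg_left _ hC.le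
          apply add_le_add a4
          apply mul_le_mul_of_nonneg_left _ (by positivity)
          linarith
      _ = _ := by ring
  have a6 := Loc.absorb hX0 (by positivity) (by positivity) (by norm_num : (3 / 5 : ℝ) < 1) a5
  rw [show (1 : ℝ) / (1 - 3 / 5) = 5 / 2 by norm_num,
    show 2 * (2 * (C * C₁ ^ 2) * (η⁻¹ ^ 2 * A ^ (4 / 5 : ℝ))) = D * (η⁻¹ ^ 2 * A ^ (4 / 5 : ℝ)) by rw [hD]; ring,
    osgB_power hD0 hη hA0] at a6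
  have hE : 0 ≤ η⁻¹ ^ 5 * A ^ 2 := by positivity
  have hF : 0 ≤ η⁻¹ ^ 2 * (lam * N) := by positivity
  have hDp : 0 ≤ D ^ (5 / 2 : ℝ) := Real.rpow_nonneg hD0 _
  obtain ⟨G, hG⟩ : ∃ G, G = η⁻¹ ^ 5 * A ^ 2 := ⟨_, rfl⟩
  obtain ⟨H, hH⟩ : ∃ H, H = η⁻¹ ^ 2 * (lam * N) := ⟨_, rfl⟩
  obtain ⟨P, hP⟩ : ∃ P, P = D ^ (5 / 2 : ℝ) := ⟨_, rfl⟩
  rw [← hG, ← hH, ← hP] at a6
  rw [← hG] at hE
  rw [← hH] at hF
  rw [← hP] at hDp
  rw [← hG, ← hH, ← hP]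
  have a8 : Q ^ (1 / 3 : ℝ) ≤ X := by
    rw [hX]
    exact Real.rpow_le_rpow hS0 a3 (by norm_num)
  have hDH : 2 * (2 * (C * C₁ ^ 2) * H) = D * H := by rw [hD]; ring
  calc Q ^ (1 / 3 : ℝ) ≤ X := a8
    _ ≤ 2 * (C * Ω + 2 * (C * C₁ ^ 2) * H) + P * G := a6
    _ = 2 * C * Ω + D * H + P * G := by rw [mul_add, hDH]; ring
    _ ≤ (2 * C + D + P) * (Ω + H + G) := by
        have b1 := mul_nonneg hC.le hE
        have b2 := mul_nonneg hC.le hF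
        have b3 := mul_nonneg hD0 hΩ0
        have b4 := mul_nonneg hD0 hE
        have b5 := mul_nonneg hDp hΩ0
        have b6 := mul_nonneg hDp hF
        nlinarith

theorem shell_sobolev_bs : ∃ C : ℝ, 0 < C ∧ ∀ (V : VF) (r s η lam : ℝ),
    (∀ i, ContDiff ℝ 3 (V i)) → (∀ x, dv V x = 0) → 0 < η → 2 * η ≤ r → r ≤ s → 0 ≤ lam →
    (∫ x in Sh r s, sq V x ^ 3) ^ (1 / 3 : ℝ) ≤
      C * ((∫ x in Sh (r - η) (s + η), sq (curl V) x)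
        + η⁻¹ ^ 2 * (lam * ∫ x in Sh (r - η) (s + η), nm V x)
        + η⁻¹ ^ 5 * (∫ x in Sh (r - η) (s + η), bs V lam x) ^ 2) := by
  obtain ⟨C₁, hC₁, hcut⟩ := exists_shell_cutoff
  obtain ⟨C, hC, h⟩ := osgB_localised C₁
  refine ⟨C, hC, fun V r s η lam hV hd hη hr hs hl => ?_⟩
  obtain ⟨ζ, hζ, hc, h0, hle, hone, hz, hb⟩ := hcut r s η hη hr hs
  exact h V ζ η lam (Sh r s) (Sh (r - η) (s + η)) hV hd hζ hc hη hl hb h0 hle (measurableSet_Sh _ _) hone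
    (measurableSet_Sh _ _) hz fun f hf => hf.continuousOn.integrableOn_compact (isCompact_Sh _ _)

end Leray
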