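import Pool.Agent.Lib.MP_9b9638_an.OsgA

/-!
# The endpoint `p = 1` up to a logarithm: the far part of the Riesz potential

Proof: `nm V z ≤ min (nm V z) lam + bs V lam z`. The part with `bs` is `Pf (Vb V lam) η x`, for which
`Pf_le_Pm` (OneC1) applies. For the other part, on `{η ≤ ‖x - z‖}`:
`min (nm V z) lam / ‖x - z‖^2 ≤ lam * Riesz.kn 1 (x - z) + nm V z`, and `∫ Riesz.kn 1 = Riesz.vb` (Shell2,
`Riesz.integral_kn`, `Riesz.lint_kn`).
-/

open MeasureTheory Set Filter Topology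

noncomputable section

namespace Leray

private theorem osgc_nmVb (V : VF) (lam : ℝ) : nm (Vb V lam) = bs V lam := funext (nm_Vb V lam)

private theorem osgc_int {V : VF} (hV : ∀ i, Continuous (V i)) (hi : Integrable (nm V)) {lam : ℝ} (hl : 0 ≤ lam) :
    Integrable (nm (Vb V lam)) := by
  rw [osgc_nmVb]
  exact integrable_bs hV hi hl

private theorem osgc_split {V : VF} (hV : ∀ i, Continuous (V i)) (hi : Integrable (nm V)) {η lam : ℝ} (hη : 0 < η)
    (hl : 0 ≤ lam) (x : E) :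
    Pf V η x ≤ Pf (Vb V lam) η x + (Riesz.vb * lam + ∫ y, nm V y) := by
  have hmS : MeasurableSet {y : E | η ≤ ‖x - y‖} :=
    (isClosed_le continuous_const (continuous_const.sub continuous_id).norm).measurableSet
  have i1 : Integrable ({y : E | η ≤ ‖x - y‖}.indicator (fun y => nm (Vb V lam) y / ‖x - y‖ ^ 2)) :=
    (OneA.riesz_integrable (continuous_Vb hV lam) (osgc_int hV hi hl) x).indicator hmS
  have i2 : Integrable (fun y : E => lam * Riesz.kn 1 (x - y)) :=
    ((Riesz.integrable_kn 1).comp_sub_left x).const_mul lam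
  have e2 : ∫ y : E, lam * Riesz.kn 1 (x - y) = Riesz.vb * lam := by
    rw [integral_const_mul, integral_sub_left_eq_self (fun y => Riesz.kn 1 y) volume x,
      Riesz.integral_kn one_pos]
    ring
  have hpt : ∀ y : E, ({y : E | η ≤ ‖x - y‖}.indicator (fun y => nm V y / ‖x - y‖ ^ 2)) y ≤
      {y : E | η ≤ ‖x - y‖}.indicator (fun y => nm (Vb V lam) y / ‖x - y‖ ^ 2) y
        + (lam * Riesz.kn 1 (x - y) + nm V y) := by
    intro y
    have k0 := Riesz.kn_nonneg 1 (x - y)
    have n0 := nm_nonneg V y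
    have b0 := bs_nonneg V lam y
    have lk : 0 ≤ lam * Riesz.kn 1 (x - y) := mul_nonneg hl k0
    by_cases h1 : η ≤ ‖x - y‖
    · rw [indicator_of_mem (show y ∈ {y : E | η ≤ ‖x - y‖} from h1),
        indicator_of_mem (show y ∈ {y : E | η ≤ ‖x - y‖} from h1), nm_Vb]
      have hp : 0 < ‖x - y‖ := lt_of_lt_of_le hη h1
      by_cases h2 : ‖x - y‖ < 1
      · have hk : Riesz.kn 1 (x - y) = (‖x - y‖ ^ 2)⁻¹ := by
          unfold Riesz.kn
          rw [indicator_of_mem (show ‖x - y‖ ∈ Iio (1 : ℝ) from h2)]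
        rw [hk]
        have h3 := nm_le_bs V lam y
        have h4 : nm V y / ‖x - y‖ ^ 2 ≤ (lam + bs V lam y) / ‖x - y‖ ^ 2 := by gcongr
        have h5 : (lam + bs V lam y) / ‖x - y‖ ^ 2 = bs V lam y / ‖x - y‖ ^ 2 + lam * (‖x - y‖ ^ 2)⁻¹ := by
          ring
        linarith
      · push Not at h2
        have h3 : nm V y / ‖x - y‖ ^ 2 ≤ nm V y := div_le_self n0 (by nlinarith)
        have h4 : 0 ≤ bs V lam y / ‖x - y‖ ^ 2 := by positivity
        linarith
    · rw [indicator_of_notMem (show y ∉ {y : E | η ≤ ‖x - y‖} from h1),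
        indicator_of_notMem (show y ∉ {y : E | η ≤ ‖x - y‖} from h1)]
      linarith
  have e3 : ∫ y : E, (lam * Riesz.kn 1 (x - y) + nm V y) = Riesz.vb * lam + ∫ y, nm V y := by
    rw [integral_add i2 hi, e2]
  have i3 : Integrable (fun y : E => lam * Riesz.kn 1 (x - y) + nm V y) := i2.add hi
  unfold Pf
  rw [← integral_indicator hmS, ← integral_indicator hmS, ← e3, ← integral_add i1 i3]
  refine integral_mono_of_nonneg (Eventually.of_forall fun y => ?_) (i1.add i3)
    (Eventually.of_forall hpt)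
  exact indicator_nonneg (fun y _ => div_nonneg (nm_nonneg V y) (by positivity)) y

theorem Pf_le_bs {V : VF} (hV : ∀ i, Continuous (V i)) (hi : Integrable (nm V)) {R η δ lam : ℝ} (hη : 0 < η)
    (hηδ : η ≤ δ) (hl : 0 ≤ lam) {x : E} (hx : x ∈ Sh R (R + 2 * δ)) :
    Pf V η x ≤ Pm (Vb V lam) η (R - δ) (R + 3 * δ) x + δ⁻¹ ^ 2 * (∫ y, nm V y)
      + (Riesz.vb * lam + ∫ y, nm V y) := by
  have h1 := osgc_split hV hi hη hl x
  have h2 := Pf_le_Pm (continuous_Vb hV lam) (osgc_int hV hi hl) hη hηδ hx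
  have h3 : ∫ y, nm (Vb V lam) y ≤ ∫ y, nm V y := by
    refine integral_mono (osgc_int hV hi hl) hi fun y => ?_
    rw [nm_Vb]
    exact bs_le_nm hl y
  have h4 : δ⁻¹ ^ 2 * ∫ y, nm (Vb V lam) y ≤ δ⁻¹ ^ 2 * ∫ y, nm V y := by gcongr
  linarith

end Leray
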