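import Pool.Agent.Lib.MP_9b9638_an.OsgD4

/-!
# The endpoint `p = 1` up to a logarithm: the main estimate
-/

open MeasureTheory Set Filter Topology TopologicalSpace

noncomputable section

namespace Leray

namespace CfgU

variable {V : VF} {C0 Cw : ℝ}

/-- the terms of the energy inequality -/
theorem terms {ν a : ℝ} (hν : 0 < ν) (ha : 0 < a) (hV : SmoothProfile ν a V) (hi : Integrable (nm V))
    (hC0 : 0 < C0) :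
    ∃ C Cn : ℝ, 0 < C ∧ 0 < Cn ∧ ∀ c : CfgU V C0 Cw, W V c.R ≤ C * (
      (c.η⁻¹ * (c.w ^ (1 / 2 : ℝ) * c.M ^ (1 / 2 : ℝ))
      + C0 * (Cn * (c.η⁻¹ * (c.w ^ (1 / 2 : ℝ) * c.M ^ (1 / 2 : ℝ)))
          + c.η⁻¹ ^ (2 : ℝ) * (c.w ^ (1 / 2 : ℝ) * c.P2 ^ (1 / 2 : ℝ))
          + c.w ^ (1 / 2 : ℝ) * (c.η⁻¹ ^ (2 : ℝ) * c.F0 * c.vs))
      + c.η⁻¹ * (c.w ^ (1 / 2 : ℝ) * c.Ns ^ (1 / 2 : ℝ))
      + C0 * (c.η⁻¹ * c.F0 * (c.w ^ (1 / 2 : ℝ) * c.M ^ (1 / 2 : ℝ)))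
      + c.Mt
      + c.r * c.η⁻¹ * c.M
      + C0 * (Cn * (c.r * c.η⁻¹ * c.M) + c.r * c.η⁻¹ ^ (2 : ℝ) * (c.M ^ (1 / 2 : ℝ) * c.P2 ^ (1 / 2 : ℝ))
          + c.r * c.η⁻¹ ^ (2 : ℝ) * c.F0 * c.vs * c.M ^ (1 / 2 : ℝ))
      + c.r * c.η⁻¹ * (c.M ^ (1 / 2 : ℝ) * c.Ns ^ (1 / 2 : ℝ))
      + 1)
      + C0 * (Cn * (c.w ^ (1 / 2 : ℝ) * c.L4 ^ (1 / 2 : ℝ))
          + c.η⁻¹ * (c.w ^ (1 / 2 : ℝ) * (c.L4 ^ (1 / 4 : ℝ) * c.P4 ^ (1 / 4 : ℝ))))) := by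
  obtain ⟨C, hC, hen⟩ := energy_shell ν a hν ha
  obtain ⟨Cn, hCn, hpt⟩ := psi_terms_one
  refine ⟨C, Cn, hC, hCn, fun c => ?_⟩
  have hV1 : ∀ i, ContDiff ℝ 1 (V i) := fun i => (hV.smooth i).of_le (by norm_num)
  have cV : ∀ i, Continuous (V i) := fun i => (hV1 i).continuous
  have cω : ∀ i, Continuous (curl V i) := continuous_curl hV1
  have hΨ1 : ∀ i, ContDiff ℝ 1 (c.Ψ i) := fun i => (c.hΨC i).of_le (by norm_num)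
  have cΨ : ∀ i, Continuous (c.Ψ i) := fun i => (hΨ1 i).continuous
  have cnV := continuous_nm cV
  have cnω := continuous_nm cω
  have csV := continuous_sq cV
  have cgΨ := continuous_gnm hΨ1
  have hη := c.hη0
  have hηi := inv_pos.2 hη
  have hδ := c.hδ
  have h16 := c.δ_lt
  have hr := c.r_pos
  have hr1 := c.hr1
  have hr2 := c.hr2
  have hR := c.hR
  have hS := Sh_sub c.r (c.r + c.η)
  have hm := measurableSet_Sh c.r (c.r + c.η)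
  have hF0 := c.F0_nonneg
  have e2 : c.η⁻¹ ^ (2 : ℝ) = c.η⁻¹ ^ 2 := by
    rw [show (2 : ℝ) = ((2 : ℕ) : ℝ) by norm_num, Real.rpow_natCast]
  rw [e2]
  -- monotonicity
  have hSub : Sh c.r (c.r + c.η) ⊆ Sh (c.r - c.η) (c.r + 2 * c.η) := Sh_subset (by linarith) (by linarith)
  have hSubw : Sh c.r (c.r + c.η) ⊆ Sh (c.r - 3 * c.η) (c.r + 4 * c.η) := Sh_subset (by linarith) (by linarith)
  have hws : ∫ y in Sh c.r (c.r + c.η), sq (curl V) y ≤ c.w := set_mono hSubw (Sh_sub _ _) (continuous_sq cω) (fun _ => sq_nonneg' _ _)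
  have hMs : ∫ y in Sh c.r (c.r + c.η), sq V y ≤ c.M := set_mono hSub (Sh_sub _ _) csV (fun _ => sq_nonneg' _ _)
  have hws0 : 0 ≤ ∫ y in Sh c.r (c.r + c.η), sq (curl V) y := setInt_nonneg hm fun _ => sq_nonneg' _ _
  have hMs0 : 0 ≤ ∫ y in Sh c.r (c.r + c.η), sq V y := setInt_nonneg hm fun _ => sq_nonneg' _ _
  have hws' : (∫ y in Sh c.r (c.r + c.η), sq (curl V) y) ^ (1 / 2 : ℝ) ≤ c.w ^ (1 / 2 : ℝ) := Real.rpow_le_rpow hws0 hws (by norm_num)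
  have hMs' : (∫ y in Sh c.r (c.r + c.η), sq V y) ^ (1 / 2 : ℝ) ≤ c.M ^ (1 / 2 : ℝ) := Real.rpow_le_rpow hMs0 hMs (by norm_num)
  have w0 : 0 ≤ c.w ^ (1 / 2 : ℝ) := Real.rpow_nonneg c.w_nonneg _
  have M0 : 0 ≤ c.M ^ (1 / 2 : ℝ) := Real.rpow_nonneg c.M_nonneg _
  have N0 : 0 ≤ c.Ns ^ (1 / 2 : ℝ) := Real.rpow_nonneg c.Ns_nonneg _
  have L0 : 0 ≤ c.L4 ^ (1 / 2 : ℝ) := Real.rpow_nonneg c.L4_nonneg _
  have L40 : 0 ≤ c.L4 ^ (1 / 4 : ℝ) := Real.rpow_nonneg c.L4_nonneg _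
  have P20 : 0 ≤ c.P2 ^ (1 / 2 : ℝ) := Real.rpow_nonneg c.P2_nonneg _
  have P40 : 0 ≤ c.P4 ^ (1 / 4 : ℝ) := Real.rpow_nonneg c.P4_nonneg _
  have vs0 := c.vs_nonneg
  -- energy inequality
  have h := hen V c.Ψ c.r c.η c.ε hV c.hΨC (by linarith) hη (by linarith [c.η_le_r]) c.hε
    (fun x hx => c.hΨe x (by linarith)) (fun x hx => c.hΨc x (by linarith))
  obtain ⟨p1, p2, p3⟩ := hpt V c.Ψ c.PP c.r c.η C0 (c.F0) hV.smooth cΨ (continuous_Pm (continuous_Vb cV c.lam) hη _ _) c.PP_nonneg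
    hη hr hC0.le hF0 (fun y hy => psi_bound cV hi hC0 c hy)
  have hWR : W V c.R ≤ W V c.r := set_mono (Metric.ball_subset_ball hr1) (ball_sub' _) (continuous_sq cω)
    (fun _ => sq_nonneg' _ _)
  refine hWR.trans (h.trans ?_)
  apply mul_le_mul_of_nonneg_left _ hC.le
  -- the nine terms
  have t1 : c.η⁻¹ * (∫ x in Sh c.r (c.r + c.η), nm (curl V) x * nm V x) ≤ c.η⁻¹ * (c.w ^ (1 / 2 : ℝ) * c.M ^ (1 / 2 : ℝ)) := by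
    apply mul_le_mul_of_nonneg_left _ hηi.le
    have h := cs_set hS cnω cnV (nm_nonneg _) (nm_nonneg _)
    simp only [nm_sq] at h
    exact h.trans (mul_le_mul hws' hMs' (Real.rpow_nonneg hMs0 _) w0)
  have t2 : c.η⁻¹ ^ 2 * (∫ x in Sh c.r (c.r + c.η), nm (curl V) x * nm c.Ψ x) ≤
      C0 * (Cn * (c.η⁻¹ * (c.w ^ (1 / 2 : ℝ) * c.M ^ (1 / 2 : ℝ)))
        + c.η⁻¹ ^ 2 * (c.w ^ (1 / 2 : ℝ) * c.P2 ^ (1 / 2 : ℝ))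
        + c.w ^ (1 / 2 : ℝ) * (c.η⁻¹ ^ 2 * c.F0 * c.vs)) := by
    have h2 : (∫ x in Sh c.r (c.r + c.η), nm (curl V) x * nm c.Ψ x) ≤
        C0 * (c.w ^ (1 / 2 : ℝ) * (Cn * c.η * c.M ^ (1 / 2 : ℝ)) + c.w ^ (1 / 2 : ℝ) * c.P2 ^ (1 / 2 : ℝ)
          + c.F0 * (c.w ^ (1 / 2 : ℝ) * c.vs)) := by
      refine p1.trans ?_
      unfold M vs P2
      gcongr
    calc _ ≤ c.η⁻¹ ^ 2 * (C0 * (c.w ^ (1 / 2 : ℝ) * (Cn * c.η * c.M ^ (1 / 2 : ℝ)) + c.w ^ (1 / 2 : ℝ) * c.P2 ^ (1 / 2 : ℝ)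
          + c.F0 * (c.w ^ (1 / 2 : ℝ) * c.vs))) :=
          mul_le_mul_of_nonneg_left h2 (by positivity)
      _ = _ := by have := hη.ne'; field_simp
  have t3 : c.η⁻¹ * (∫ x in Sh c.r (c.r + c.η), nm (curl V) x * gnm c.Ψ x) ≤ c.η⁻¹ * (c.w ^ (1 / 2 : ℝ) * c.Ns ^ (1 / 2 : ℝ)) := by
    apply mul_le_mul_of_nonneg_left _ hηi.le
    have h := cs_set hS cnω cgΨ (nm_nonneg _) (gnm_nonneg _)
    simp only [nm_sq, gnm_sq] at h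
    exact h.trans (mul_le_mul_of_nonneg_right hws' N0)
  have t4 : c.η⁻¹ * (∫ x in Sh c.r (c.r + c.η), nm (curl V) x * nm V x * nm c.Ψ x) ≤
      C0 * (c.η⁻¹ * c.F0 * (c.w ^ (1 / 2 : ℝ) * c.M ^ (1 / 2 : ℝ))) +
      C0 * (Cn * (c.w ^ (1 / 2 : ℝ) * c.L4 ^ (1 / 2 : ℝ))
          + c.η⁻¹ * (c.w ^ (1 / 2 : ℝ) * (c.L4 ^ (1 / 4 : ℝ) * c.P4 ^ (1 / 4 : ℝ)))) := by
    have h2 : (∫ x in Sh c.r (c.r + c.η), nm (curl V) x * nm V x * nm c.Ψ x) ≤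
        C0 * (c.w ^ (1 / 2 : ℝ) * (Cn * c.η * c.L4 ^ (1 / 2 : ℝ))
          + c.w ^ (1 / 2 : ℝ) * (c.L4 ^ (1 / 4 : ℝ) * c.P4 ^ (1 / 4 : ℝ))
          + c.F0 * (c.w ^ (1 / 2 : ℝ) * c.M ^ (1 / 2 : ℝ))) := by
      refine p2.trans ?_
      unfold L4 M P4
      gcongr
    calc _ ≤ c.η⁻¹ * (C0 * (c.w ^ (1 / 2 : ℝ) * (Cn * c.η * c.L4 ^ (1 / 2 : ℝ))
          + c.w ^ (1 / 2 : ℝ) * (c.L4 ^ (1 / 4 : ℝ) * c.P4 ^ (1 / 4 : ℝ))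
          + c.F0 * (c.w ^ (1 / 2 : ℝ) * c.M ^ (1 / 2 : ℝ)))) :=
          mul_le_mul_of_nonneg_left h2 hηi.le
      _ = _ := by have := hη.ne'; field_simp; ring
  have t5 : (∫ x in Metric.ball (0 : E) (c.r + c.η), sq V x) ≤ c.Mt :=
    set_mono (Metric.ball_subset_ball (by linarith)) (ball_sub' _) csV (fun _ => sq_nonneg' _ _)
  have t6 : c.r * c.η⁻¹ * (∫ x in Sh c.r (c.r + c.η), sq V x) ≤ c.r * c.η⁻¹ * c.M :=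
    mul_le_mul_of_nonneg_left hMs (by positivity)
  have t7 : c.r * c.η⁻¹ ^ 2 * (∫ x in Sh c.r (c.r + c.η), nm V x * nm c.Ψ x) ≤
      C0 * (Cn * (c.r * c.η⁻¹ * c.M) + c.r * c.η⁻¹ ^ 2 * (c.M ^ (1 / 2 : ℝ) * c.P2 ^ (1 / 2 : ℝ))
        + c.r * c.η⁻¹ ^ 2 * c.F0 * c.vs * c.M ^ (1 / 2 : ℝ)) := by
    have h2 : (∫ x in Sh c.r (c.r + c.η), nm V x * nm c.Ψ x) ≤
        C0 * (Cn * c.η * c.M + c.M ^ (1 / 2 : ℝ) * c.P2 ^ (1 / 2 : ℝ) + c.F0 * (c.M ^ (1 / 2 : ℝ) * c.vs)) := by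
      refine p3.trans (le_of_eq ?_)
      have e : c.M ^ (1 / 2 : ℝ) * (Cn * c.η * c.M ^ (1 / 2 : ℝ)) = Cn * c.η * c.M := by
        have : c.M ^ (1 / 2 : ℝ) * c.M ^ (1 / 2 : ℝ) = c.M := by
          rw [← Real.sqrt_eq_rpow, Real.mul_self_sqrt c.M_nonneg]
        calc _ = Cn * c.η * (c.M ^ (1 / 2 : ℝ) * c.M ^ (1 / 2 : ℝ)) := by ring
          _ = _ := by rw [this]
      rw [← e]
      rfl
    calc _ ≤ c.r * c.η⁻¹ ^ 2 * (C0 * (Cn * c.η * c.M + c.M ^ (1 / 2 : ℝ) * c.P2 ^ (1 / 2 : ℝ)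
          + c.F0 * (c.M ^ (1 / 2 : ℝ) * c.vs))) :=
          mul_le_mul_of_nonneg_left h2 (by positivity)
      _ = _ := by have := hη.ne'; field_simp
  have t8 : c.r * c.η⁻¹ * (∫ x in Sh c.r (c.r + c.η), nm V x * gnm c.Ψ x) ≤
      c.r * c.η⁻¹ * (c.M ^ (1 / 2 : ℝ) * c.Ns ^ (1 / 2 : ℝ)) := by
    apply mul_le_mul_of_nonneg_left _ (by positivity)
    have h := cs_set hS cnV cgΨ (nm_nonneg _) (gnm_nonneg _)
    simp only [nm_sq, gnm_sq] at h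
    exact h.trans (mul_le_mul_of_nonneg_right hMs' N0)
  have t9 : c.ε * (1 + c.η⁻¹) * ∫ x in Metric.closedBall (0 : E) (c.r + c.η), nm (curl V) x * (1 + nm V x + ‖x‖) ≤ 1 := by
    refine le_trans (mul_le_mul_of_nonneg_left ?_ (mul_nonneg c.hε (by positivity))) c.herr
    apply set_mono (Metric.closedBall_subset_closedBall (by linarith)) ⟨_, subset_rfl⟩ (by fun_prop)
    intro x
    have := nm_nonneg (curl V) x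
    have := nm_nonneg V x
    positivity
  linarith

end CfgU

variable {V : VF} {C0 Cw : ℝ}

theorem CfgU.split_rpow {f g L : CfgU V C0 Cw → ℝ} {t : ℝ} (hf : ∀ c, 0 ≤ f c) (hg : ∀ c, 0 ≤ g c) (hL0 : ∀ c, 0 ≤ L c)
    (hL : ∀ c, L c ≤ f c + g c) (ht0 : 0 ≤ t) (ht1 : t ≤ 1) (c : CfgU V C0 Cw) :
    L c ^ t ≤ f c ^ t + g c ^ t :=
  (Real.rpow_le_rpow (hL0 c) (hL c) ht0).trans (Real.rpow_add_le_add_rpow (hf c) (hg c) ht0 ht1)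

theorem step_bs (ν a : ℝ) (hν : 0 < ν) (ha : 0 < a) (V : VF) (hV : SmoothProfile ν a V)
    (hi : Integrable (nm V)) :
    ∃ C K κ : ℝ, 0 < C ∧ 0 < K ∧ 0 < κ ∧ κ < 1 ∧ ∀ R δ θ lam : ℝ, 1 ≤ R → 0 < δ → δ ≤ R → 0 < θ → θ ≤ 1 →
      1 ≤ lam →
      W V R ≤ C * ((R * (R / δ) * θ⁻¹ * lam) ^ K * (1 + W V (R + 4 * δ)) ^ κ
        + ((∫ y in Sh (R - δ) (R + 4 * δ), bs V lam y) + θ) * δ⁻¹ ^ 2 * (1 + W V (R + 4 * δ))) := by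
  have hV3 := hV.smooth
  have cV : ∀ i, Continuous (V i) := fun i => (hV3 i).continuous
  obtain ⟨C0, Cw, hC0, hCw, hcfg⟩ := cfgU_exists hV hi
  obtain ⟨C, Cn, hC, hCn, hterms⟩ := CfgU.terms (C0 := C0) (Cw := Cw) hν ha hV hi hC0
  -- the bounds
  have Q1 := CfgU.one_le_Q (V := V) (C0 := C0) (Cw := Cw)
  have Y1 : ∀ c : CfgU V C0 Cw, 1 ≤ c.Y := fun c => c.hY
  have Yp := CfgU.Y_pos (V := V) (C0 := C0) (Cw := Cw)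
  have Dp := CfgU.δ_pos (V := V) (C0 := C0) (Cw := Cw)
  have mp := CfgU.m_pos (V := V) (C0 := C0) (Cw := Cw)
  obtain ⟨fc, fn, bfc, bfn, hL⟩ := CfgU.L4_split (C0 := C0) (Cw := Cw) hV3 hV.div0 hi
  have bw := CfgU.bbw (V := V) (C0 := C0) (Cw := Cw)
  have bηi := CfgU.bbηi (V := V) (C0 := C0) (Cw := Cw)
  have bP4 := CfgU.bbP4 (V := V) (C0 := C0) (Cw := Cw) cV hCw
  have bP2 := CfgU.bbP2 (V := V) (C0 := C0) (Cw := Cw) cV hCw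
  -- the critical terms
  have bw2 := bw.rpow Yp Dp mp (t := 1 / 2) (by norm_num)
  have bP44 := bP4.rpow Yp Dp mp (t := 1 / 4) (by norm_num)
  have c1 := ((bw2.mul Yp Dp mp (bfc.rpow Yp Dp mp (t := 1 / 2) (by norm_num))).const_mul hCn.le).mono_eq
    (e' := 1) (g' := -2) (a' := 1) (by norm_num) (by norm_num) (by norm_num)
  have c2 := (bηi.mul Yp Dp mp (bw2.mul Yp Dp mp ((bfc.rpow Yp Dp mp (t := 1 / 4) (by norm_num)).mul Yp Dp mp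
    bP44))).mono_eq (e' := 1) (g' := -2) (a' := 1)
      (by norm_num) (by norm_num) (by norm_num)
  obtain ⟨-, cc, hcc, hcrit⟩ := ((c1.add c2).const_mul hC0.le)
  -- the other terms
  have qηi : CfgU.BQ V C0 Cw (fun c => c.η⁻¹) (1 / 4) := CfgU.toQ cV hi bηi
  have qw2 : CfgU.BQ V C0 Cw (fun c => c.w ^ (1 / 2 : ℝ)) (3 / 4 * (1 / 2)) := CfgU.toQ cV hi bw2
  have qM := CfgU.bqM (C0 := C0) (Cw := Cw) hV3 hV.div0 hi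
  have qM2 := qM.rpow Q1 Y1 (θ := 1 / 2) (by norm_num)
  have qP2 : CfgU.BQ V C0 Cw (fun c => c.P2 ^ (1 / 2 : ℝ)) (-(1 / 8) * (1 / 2)) :=
    CfgU.toQ cV hi (bP2.rpow Yp Dp mp (t := 1 / 2) (by norm_num))
  have qP4 : CfgU.BQ V C0 Cw (fun c => c.P4 ^ (1 / 4 : ℝ)) (1 / 4 * (1 / 4)) := CfgU.toQ cV hi bP44
  have qηi2 := qηi.rpow Q1 Y1 (θ := 2) (by norm_num)
  have qr := CfgU.bqr (V := V) (C0 := C0) (Cw := Cw)
  have qvs := CfgU.bqvs (V := V) (C0 := C0) (Cw := Cw) cV hi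
  have qF := CfgU.bqF0 (V := V) (C0 := C0) (Cw := Cw)
  have qMt := CfgU.bqMt (C0 := C0) (Cw := Cw) hV3 hV.div0 hi
  have qNs2 := (CfgU.bqNs cV hi (CfgU.bqNn (C0 := C0) (Cw := Cw) hV3 hV.div0 hi hC0)).rpow Q1 Y1 (θ := 1 / 2) (by norm_num)
  have g1 := (qηi.mul Q1 Y1 (qw2.mul Q1 Y1 qM2)).mono Q1 Y1 (e' := 15 / 16) (by norm_num)
  have g2 := (((g1.const_mul Q1 Y1 hCn.le).add Q1 Y1
    ((qηi2.mul Q1 Y1 (qw2.mul Q1 Y1 qP2)).mono Q1 Y1 (e' := 15 / 16) (by norm_num))).add Q1 Y1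
    ((qw2.mul Q1 Y1 ((qηi2.mul Q1 Y1 qF).mul Q1 Y1 qvs)).mono Q1 Y1 (e' := 15 / 16)
      (by norm_num))).const_mul Q1 Y1 hC0.le
  have g3 := (qηi.mul Q1 Y1 (qw2.mul Q1 Y1 qNs2)).mono Q1 Y1 (e' := 15 / 16) (by norm_num)
  have g4 := (((qηi.mul Q1 Y1 qF).mul Q1 Y1 (qw2.mul Q1 Y1 qM2)).mono Q1 Y1 (e' := 15 / 16)
    (by norm_num)).const_mul Q1 Y1 hC0.le
  have g5 := qMt.mono Q1 Y1 (e' := 15 / 16) (by norm_num)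
  have g6 := ((qr.mul Q1 Y1 qηi).mul Q1 Y1 qM).mono Q1 Y1 (e' := 15 / 16) (by norm_num)
  have g7 := (((g6.const_mul Q1 Y1 hCn.le).add Q1 Y1
    (((qr.mul Q1 Y1 qηi2).mul Q1 Y1 (qM2.mul Q1 Y1 qP2)).mono Q1 Y1 (e' := 15 / 16) (by norm_num))).add Q1 Y1
    (((((qr.mul Q1 Y1 qηi2).mul Q1 Y1 qF).mul Q1 Y1 qvs).mul Q1 Y1 qM2).mono Q1 Y1
      (e' := 15 / 16) (by norm_num))).const_mul Q1 Y1 hC0.le
  have g8 := ((qr.mul Q1 Y1 qηi).mul Q1 Y1 (qM2.mul Q1 Y1 qNs2)).mono Q1 Y1 (e' := 15 / 16) (by norm_num)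
  have g9 := (Bd.const Q1 Y1 (c := 1) zero_le_one).mono Q1 Y1 (e' := 15 / 16) (by norm_num)
  have n1 := ((qw2.mul Q1 Y1 (bfn.rpow Q1 Y1 (θ := 1 / 2) (by norm_num))).const_mul Q1 Y1 hCn.le).mono Q1 Y1
    (e' := 15 / 16) (by norm_num)
  have n2 := (qηi.mul Q1 Y1 (qw2.mul Q1 Y1 ((bfn.rpow Q1 Y1 (θ := 1 / 4) (by norm_num)).mul Q1 Y1 qP4))).mono Q1 Y1
    (e' := 15 / 16) (by norm_num)
  have n3 := (n1.add Q1 Y1 n2).const_mul Q1 Y1 hC0.le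
  obtain ⟨-, c₁, K, hc₁, hK, hfin⟩ := (((((((g1.add Q1 Y1 g2).add Q1 Y1 g3).add Q1 Y1 g4).add Q1 Y1
    g5).add Q1 Y1 g6).add Q1 Y1 g7).add Q1 Y1 g8).add Q1 Y1 g9
  obtain ⟨-, c₂, K₂, hc₂, hK₂, hfin₂⟩ := n3
  have hAt := Cfg1.At_pos V
  refine ⟨C * (c₁ + c₂ + cc) + 16 ^ 4 * Cfg1.At V ^ 2 + 1, K + K₂ + 5, 15 / 16, by positivity, by positivity,
    by norm_num, by norm_num, ?_⟩
  intro R δ θ lam hR hδ hδR hθ hθ1 hlam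
  have hl0 : 0 ≤ lam := by linarith
  have ebs : nm (Vb V lam) = bs V lam := funext fun y => nm_Vb V lam y
  have hW0 := W_nonneg V (R + 4 * δ)
  obtain ⟨Y, hY⟩ : ∃ Y, Y = 1 + W V (R + 4 * δ) := ⟨_, rfl⟩
  have hY1 : 1 ≤ Y := by linarith
  have hY0 : 0 < Y := by linarith
  obtain ⟨m, hm⟩ : ∃ m, m = (∫ y in Sh (R - δ) (R + 4 * δ), bs V lam y) + θ := ⟨_, rfl⟩
  have hμ0 : 0 ≤ ∫ y in Sh (R - δ) (R + 4 * δ), bs V lam y := setInt_nonneg (measurableSet_Sh _ _) fun _ => bs_nonneg _ _ _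
  have hm0 : 0 < m := by linarith
  have hmA : m ≤ Cfg1.At V := by
    have h2 : ∫ y in Sh (R - δ) (R + 4 * δ), bs V lam y ≤ ∫ y, bs V lam y :=
      setIntegral_le_integral (integrable_bs cV hi hl0) (Eventually.of_forall fun _ => bs_nonneg _ _ _)
    have h3 : ∫ y, bs V lam y ≤ ∫ y, nm V y :=
      integral_mono (integrable_bs cV hi hl0) hi fun y => bs_le_nm hl0 y
    rw [hm, Cfg1.At]; linarith
  rw [← hY, ← hm]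
  have hθi : 1 ≤ θ⁻¹ := (one_le_inv₀ hθ).2 hθ1
  have hRδ : 1 ≤ R / δ := by rw [le_div_iff₀ hδ]; linarith
  have hδi : 0 < δ⁻¹ := inv_pos.2 hδ
  obtain ⟨Q, hQ⟩ : ∃ Q, Q = R * (R / δ) * θ⁻¹ * lam := ⟨_, rfl⟩
  have hRQ : R / δ ≤ Q := by
    rw [hQ]
    calc R / δ = 1 * (R / δ) * 1 * 1 := by ring
      _ ≤ R * (R / δ) * θ⁻¹ * lam := by gcongr
  have hQ1 : 1 ≤ Q := hRδ.trans hRQ
  rw [← hQ]
  rcases hcfg R δ θ lam hR hδ hδR hθ hθ1 hlam with hbig | ⟨c, hcR, hcδ, hcθ, hcl⟩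
  · -- the trivial case
    rw [ebs, ← hY, ← hm] at hbig
    have hWle : W V R ≤ Y := by
      have : W V R ≤ W V (R + 4 * δ) := by
        have hω1 : ∀ i, ContDiff ℝ 1 (curl V i) := fun i => contDiff_curl hV.smooth (by norm_num) i
        exact set_mono (Metric.ball_subset_ball (by linarith)) (ball_sub' _)
          (continuous_sq fun i => (hω1 i).continuous) (fun _ => sq_nonneg' _ _)
      linarith
    have h4 : (1 / 16 : ℝ) ^ 4 ≤ Y⁻¹ * δ⁻¹ ^ 5 * m ^ 2 := by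
      have h := pow_le_pow_left₀ (by norm_num) hbig.le 4
      refine h.trans (le_of_eq ?_)
      rw [mul_pow, mul_pow, ← Real.rpow_natCast (Y ^ _) 4, ← Real.rpow_natCast (δ ^ _) 4,
        ← Real.rpow_natCast (m ^ _) 4, ← Real.rpow_mul hY0.le, ← Real.rpow_mul hδ.le, ← Real.rpow_mul hm0.le]
      rw [show (-(1 / 4) : ℝ) * ((4 : ℕ) : ℝ) = -1 by norm_num, show (-(5 / 4) : ℝ) * ((4 : ℕ) : ℝ) = -5 by norm_num,
        show (1 / 2 : ℝ) * ((4 : ℕ) : ℝ) = ((2 : ℕ) : ℝ) by norm_num, Real.rpow_natCast, Real.rpow_neg_one,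
        Real.rpow_neg hδ.le, show (5 : ℝ) = ((5 : ℕ) : ℝ) by norm_num, Real.rpow_natCast, inv_pow]
    have h5 : Y ≤ 16 ^ 4 * (δ⁻¹ ^ 5 * m ^ 2) := by
      have := mul_le_mul_of_nonneg_left h4 hY0.le
      have e : Y * (Y⁻¹ * δ⁻¹ ^ 5 * m ^ 2) = δ⁻¹ ^ 5 * m ^ 2 := by
        field_simp
      rw [e] at this
      linarith
    have hRi : δ⁻¹ ≤ Q := by
      refine le_trans ?_ hRQ
      rw [div_eq_mul_inv]; nlinarith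
    have k0 : δ⁻¹ ^ 5 * m ^ 2 ≤ Q ^ 5 * Cfg1.At V ^ 2 := by
      apply mul_le_mul (pow_le_pow_left₀ hδi.le hRi 5) (pow_le_pow_left₀ hm0.le hmA 2) (by positivity) (by positivity)
    have e5 : Q ^ 5 ≤ Q ^ (K + K₂ + 5) := by
      rw [← Real.rpow_natCast Q 5]
      exact Real.rpow_le_rpow_of_exponent_le hQ1 (by push_cast; linarith)
    have hYk : 1 ≤ Y ^ (15 / 16 : ℝ) := Real.one_le_rpow hY1 (by norm_num)
    have h11 : Y ≤ (16 ^ 4 * Cfg1.At V ^ 2) * (Q ^ (K + K₂ + 5) * Y ^ (15 / 16 : ℝ)) := by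
      have hQ0 : 0 ≤ Q ^ 5 := by positivity
      have k1 : Q ^ 5 * 1 ≤ Q ^ (K + K₂ + 5) * Y ^ (15 / 16 : ℝ) := mul_le_mul e5 hYk zero_le_one (by positivity)
      calc Y ≤ 16 ^ 4 * (Q ^ 5 * Cfg1.At V ^ 2) := h5.trans (by gcongr)
        _ = (16 ^ 4 * Cfg1.At V ^ 2) * (Q ^ 5 * 1) := by ring
        _ ≤ _ := mul_le_mul_of_nonneg_left k1 (by positivity)
    have h12 : 0 ≤ Q ^ (K + K₂ + 5) * Y ^ (15 / 16 : ℝ) := by positivity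
    have h13 : 0 ≤ m * δ⁻¹ ^ 2 * Y := by positivity
    have h14 : 0 ≤ C * (c₁ + c₂ + cc) := by positivity
    have h15 : 0 ≤ C * (c₁ + c₂ + cc) + 16 ^ 4 * Cfg1.At V ^ 2 + 1 := by positivity
    generalize Q ^ (K + K₂ + 5) * Y ^ (15 / 16 : ℝ) = X at h11 h12 ⊢
    generalize m * δ⁻¹ ^ 2 * Y = Z at h13 ⊢
    have k1 := mul_nonneg h14 h12
    have k2 := mul_nonneg h15 h13
    have k3 : (C * (c₁ + c₂ + cc) + 16 ^ 4 * Cfg1.At V ^ 2 + 1) * (X + Z) = (16 ^ 4 * Cfg1.At V ^ 2) * X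
        + C * (c₁ + c₂ + cc) * X + X + (C * (c₁ + c₂ + cc) + 16 ^ 4 * Cfg1.At V ^ 2 + 1) * Z := by ring
    rw [k3]; linarith
  · -- the main case
    have h := hterms c
    have h1 := hfin c
    have h1' := hfin₂ c
    have h2 := hcrit c
    have hcQ : c.Q = Q := by rw [CfgU.Q, hcR, hcδ, hcθ, hcl, hQ]
    have hcY : c.Y = Y := by rw [c.hYdef, hcR, hcδ, hY]
    have hcm : c.m = m := by rw [c.hmdef, hcR, hcδ, hcθ, hcl, hm, ebs]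
    rw [hcR] at h
    have hlast : C0 * (Cn * (c.w ^ (1 / 2 : ℝ) * c.L4 ^ (1 / 2 : ℝ))
          + c.η⁻¹ * (c.w ^ (1 / 2 : ℝ) * (c.L4 ^ (1 / 4 : ℝ) * c.P4 ^ (1 / 4 : ℝ)))) ≤
        C0 * (Cn * (c.w ^ (1 / 2 : ℝ) * fc c ^ (1 / 2 : ℝ))
          + c.η⁻¹ * (c.w ^ (1 / 2 : ℝ) * (fc c ^ (1 / 4 : ℝ) * c.P4 ^ (1 / 4 : ℝ))))
        + C0 * (Cn * (c.w ^ (1 / 2 : ℝ) * fn c ^ (1 / 2 : ℝ))
          + c.η⁻¹ * (c.w ^ (1 / 2 : ℝ) * (fn c ^ (1 / 4 : ℝ) * c.P4 ^ (1 / 4 : ℝ)))) := by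
      have s2 := CfgU.split_rpow bfc.1 bfn.1 CfgU.L4_nonneg hL (t := 1 / 2) (by norm_num) (by norm_num) c
      have s4 := CfgU.split_rpow bfc.1 bfn.1 CfgU.L4_nonneg hL (t := 1 / 4) (by norm_num) (by norm_num) c
      have w0 : 0 ≤ c.w ^ (1 / 2 : ℝ) := Real.rpow_nonneg c.w_nonneg _
      have p0 : 0 ≤ c.P4 ^ (1 / 4 : ℝ) := Real.rpow_nonneg c.P4_nonneg _
      have η0 : 0 ≤ c.η⁻¹ := (inv_pos.2 c.hη0).le
      calc _ ≤ C0 * (Cn * (c.w ^ (1 / 2 : ℝ) * (fc c ^ (1 / 2 : ℝ) + fn c ^ (1 / 2 : ℝ)))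
          + c.η⁻¹ * (c.w ^ (1 / 2 : ℝ) * ((fc c ^ (1 / 4 : ℝ) + fn c ^ (1 / 4 : ℝ)) * c.P4 ^ (1 / 4 : ℝ)))) := by
            gcongr
        _ = _ := by ring
    have e1 : c₁ * c.Q ^ K * c.Y ^ (15 / 16 : ℝ) ≤ c₁ * (Q ^ (K + K₂ + 5) * Y ^ (15 / 16 : ℝ)) := by
      rw [hcQ, hcY, mul_assoc]
      have k1 : Q ^ K ≤ Q ^ (K + K₂ + 5) := Real.rpow_le_rpow_of_exponent_le hQ1 (by linarith)
      gcongr
    have e1' : c₂ * c.Q ^ K₂ * c.Y ^ (15 / 16 : ℝ) ≤ c₂ * (Q ^ (K + K₂ + 5) * Y ^ (15 / 16 : ℝ)) := by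
      rw [hcQ, hcY, mul_assoc]
      have k1 : Q ^ K₂ ≤ Q ^ (K + K₂ + 5) := Real.rpow_le_rpow_of_exponent_le hQ1 (by linarith)
      gcongr
    have e2 : cc * (c.Y ^ (1 : ℝ) * c.δ ^ (-2 : ℝ) * c.m ^ (1 : ℝ)) = cc * (m * δ⁻¹ ^ 2 * Y) := by
      rw [hcY, hcδ, hcm, Real.rpow_one, Real.rpow_one, Real.rpow_neg hδ.le,
        show (2 : ℝ) = ((2 : ℕ) : ℝ) by norm_num, Real.rpow_natCast, inv_pow]
      ring
    have h3 : W V R ≤ C * ((c₁ + c₂) * (Q ^ (K + K₂ + 5) * Y ^ (15 / 16 : ℝ)) + cc * (m * δ⁻¹ ^ 2 * Y)) := by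
      refine h.trans (mul_le_mul_of_nonneg_left ?_ hC.le)
      refine (add_le_add (h1.trans e1) (hlast.trans (add_le_add (h2.trans e2.le) (h1'.trans e1')))).trans (le_of_eq ?_)
      ring
    have h12 : 0 ≤ Q ^ (K + K₂ + 5) * Y ^ (15 / 16 : ℝ) := by positivity
    have h13 : 0 ≤ m * δ⁻¹ ^ 2 * Y := by positivity
    generalize Q ^ (K + K₂ + 5) * Y ^ (15 / 16 : ℝ) = X at h3 h12 ⊢
    generalize m * δ⁻¹ ^ 2 * Y = Z at h3 h13 ⊢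
    have k1 : C * ((c₁ + c₂) * X + cc * Z) ≤ (C * (c₁ + c₂ + cc)) * (X + Z) := by
      have h1 : 0 ≤ C * ((c₁ + c₂) * Z) := by positivity
      have h2 : 0 ≤ C * (cc * X) := by positivity
      have h3 : (C * (c₁ + c₂ + cc)) * (X + Z) = C * ((c₁ + c₂) * X + cc * Z) + C * ((c₁ + c₂) * Z) + C * (cc * X) := by ring
      rw [h3]; linarith
    refine h3.trans (k1.trans ?_)
    apply mul_le_mul_of_nonneg_right _ (by positivity)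
    have : 0 ≤ 16 ^ 4 * Cfg1.At V ^ 2 := by positivity
    linarith

end Leray
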