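import Pool.Agent.Lib.MP_9b9638_an.OsgD1

/-!
# The endpoint `p = 1` up to a logarithm: bounds for the basic quantities
-/

open MeasureTheory Set Filter Topology TopologicalSpace

noncomputable section

namespace Leray

namespace CfgU

variable {V : VF} {C0 Cw : ℝ}

theorem Y_pos (c : CfgU V C0 Cw) : 0 < c.Y := by linarith [c.hY]
theorem m_pos (c : CfgU V C0 Cw) : 0 < c.m := by linarith [c.hθ, c.hmθ]
theorem δ_pos (c : CfgU V C0 Cw) : 0 < c.δ := c.hδ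

/-- bounds by `c Y^e δ^g m^a` -/
abbrev BB (V : VF) (C0 Cw : ℝ) (f : CfgU V C0 Cw → ℝ) (e g a : ℝ) : Prop := B3 CfgU.Y CfgU.δ CfgU.m f e g a

theorem r_pos (c : CfgU V C0 Cw) : 0 < c.r := by linarith [c.hR, c.hr1]

theorem δ_lt (c : CfgU V C0 Cw) : 16 * c.η ≤ c.δ := by
  have := c.hηdef; have := c.hx1; have := c.hδ
  nlinarith

theorem η_le_r (c : CfgU V C0 Cw) : 16 * c.η ≤ c.r := by
  have := c.δ_lt; have := c.hδR; have := c.hr1
  linarith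

theorem bbY : BB V C0 Cw (fun c => c.Y) 1 0 0 :=
  ⟨fun c => c.Y_pos.le, 1, zero_le_one, fun c => by simp⟩

theorem bbδ : BB V C0 Cw (fun c => c.δ) 0 1 0 :=
  ⟨fun c => c.δ_pos.le, 1, zero_le_one, fun c => by simp⟩

theorem bbδi : BB V C0 Cw (fun c => c.δ⁻¹) 0 (-1) 0 :=
  ⟨fun c => (inv_pos.2 c.δ_pos).le, 1, zero_le_one, fun c => by
    rw [Real.rpow_neg_one]; simp⟩

theorem bbm : BB V C0 Cw (fun c => c.m) 0 0 1 :=
  ⟨fun c => c.m_pos.le, 1, zero_le_one, fun c => by simp⟩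

theorem bbx : BB V C0 Cw (fun c => c.x) (-(1 / 4)) (-(5 / 4)) (1 / 2) :=
  (B3.base Y_pos δ_pos m_pos _ _ _).le (fun c => c.hxdef.le) (fun c => c.hx0.le)

theorem bbxi : BB V C0 Cw (fun c => c.x⁻¹) (1 / 4) (5 / 4) (-(1 / 2)) :=
  (B3.base Y_pos δ_pos m_pos _ _ _).le (fun c => by
    have h1 := c.Y_pos
    have h2 := c.δ_pos
    have h3 := c.m_pos
    rw [c.hxdef, mul_inv, mul_inv, ← Real.rpow_neg h1.le, ← Real.rpow_neg h2.le, ← Real.rpow_neg h3.le,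
      neg_neg, neg_neg]) (fun c => (inv_pos.2 c.hx0).le)

theorem bbη : BB V C0 Cw (fun c => c.η) (-(1 / 4)) (-(1 / 4)) (1 / 2) :=
  ((bbδ.mul Y_pos δ_pos m_pos bbx).le (fun c => c.hηdef.le) (fun c => c.hη0.le)).mono_eq
    (by norm_num) (by norm_num) (by norm_num)

theorem ηi_eq (c : CfgU V C0 Cw) : c.η⁻¹ = c.δ⁻¹ * c.x⁻¹ := by
  rw [c.hηdef, mul_inv]

theorem bbηi : BB V C0 Cw (fun c => c.η⁻¹) (1 / 4) (1 / 4) (-(1 / 2)) :=
  ((bbδi.mul Y_pos δ_pos m_pos bbxi).le (fun c => c.ηi_eq.le) (fun c => (inv_pos.2 c.hη0).le)).mono_eq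
    (by norm_num) (by norm_num) (by norm_num)

/-- the enstrophy of the shell -/
def w (c : CfgU V C0 Cw) : ℝ := ∫ y in Sh (c.r - 3 * c.η) (c.r + 4 * c.η), sq (curl V) y

theorem w_nonneg (c : CfgU V C0 Cw) : 0 ≤ c.w := setInt_nonneg (measurableSet_Sh _ _) fun _ => sq_nonneg' _ _

theorem bbw : BB V C0 Cw (fun c => c.w) (3 / 4) (-(5 / 4)) (1 / 2) :=
  (((bbx.mul Y_pos δ_pos m_pos bbY).const_mul (c := 42) (by norm_num)).le
    (fun c => by have := c.hw; unfold w; linarith) w_nonneg).mono_eq (by norm_num) (by norm_num) (by norm_num)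

/-- the `L^1` content of the shell -/
def α (c : CfgU V C0 Cw) : ℝ := ∫ y in Sh (c.r - 3 * c.η) (c.r + 4 * c.η), nm (Vb V c.lam) y

theorem α_nonneg (c : CfgU V C0 Cw) : 0 ≤ c.α :=
  setInt_nonneg (measurableSet_Sh _ _) fun _ => nm_nonneg _ _

theorem bbα : BB V C0 Cw (fun c => c.α) (-(1 / 4)) (-(5 / 4)) (3 / 2) :=
  (((bbx.mul Y_pos δ_pos m_pos bbm).const_mul (c := 42) (by norm_num)).le
    (fun c => by have := c.hα; unfold α; linarith) α_nonneg).mono_eq (by norm_num) (by norm_num) (by norm_num)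

/-! ### Sobolev -/

/-- `∫ |V|^6` on the intermediate shell -/
def I6 (c : CfgU V C0 Cw) : ℝ := ∫ y in Sh (c.r - c.η) (c.r + 2 * c.η), sq V y ^ 3
/-- `∫ |V|^2` on the intermediate shell -/
def M (c : CfgU V C0 Cw) : ℝ := ∫ y in Sh (c.r - c.η) (c.r + 2 * c.η), sq V y
/-- `∫ |V|^4` on the intermediate shell -/
def L4 (c : CfgU V C0 Cw) : ℝ := ∫ y in Sh (c.r - c.η) (c.r + 2 * c.η), nm V y ^ 4

theorem I6_nonneg (c : CfgU V C0 Cw) : 0 ≤ c.I6 :=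
  setInt_nonneg (measurableSet_Sh _ _) fun _ => pow_nonneg (sq_nonneg' _ _) 3
theorem M_nonneg (c : CfgU V C0 Cw) : 0 ≤ c.M :=
  setInt_nonneg (measurableSet_Sh _ _) fun _ => sq_nonneg' _ _
theorem L4_nonneg (c : CfgU V C0 Cw) : 0 ≤ c.L4 :=
  setInt_nonneg (measurableSet_Sh _ _) fun _ => by positivity

theorem cube_of_third {a : ℝ} (ha : 0 ≤ a) : (a ^ (1 / 3 : ℝ)) ^ (3 : ℝ) = a := by
  rw [← Real.rpow_mul ha]; norm_num

/-! ### the mid-range potential -/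

/-- the mid-range potential -/
def PP (c : CfgU V C0 Cw) (y : E) : ℝ := Pm (Vb V c.lam) c.η (c.R - c.δ) (c.R + 3 * c.δ) y

/-- its square integral -/
def P2 (c : CfgU V C0 Cw) : ℝ := ∫ y in Sh c.r (c.r + c.η), c.PP y ^ 2
/-- the integral of its fourth power -/
def P4 (c : CfgU V C0 Cw) : ℝ := ∫ y in Sh c.r (c.r + c.η), c.PP y ^ 4

theorem PP_nonneg (c : CfgU V C0 Cw) (y : E) : 0 ≤ c.PP y := Pm_nonneg _ _ _ _ _ c.hη0
theorem P2_nonneg (c : CfgU V C0 Cw) : 0 ≤ c.P2 := setInt_nonneg (measurableSet_Sh _ _) fun _ => sq_nonneg _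
theorem P4_nonneg (c : CfgU V C0 Cw) : 0 ≤ c.P4 := setInt_nonneg (measurableSet_Sh _ _) fun _ => by positivity

/-- the integral of the auxiliary potential -/
def Hs (c : CfgU V C0 Cw) : ℝ := ∫ y in Sh c.r (c.r + c.η), Hm (Vb V c.lam) c.η (c.R - c.δ) (c.R + 3 * c.δ) y

theorem Hs_nonneg (c : CfgU V C0 Cw) : 0 ≤ c.Hs :=
  setInt_nonneg (measurableSet_Sh _ _) fun y => Hm_nonneg _ _ _ _ y c.hη0

theorem bbηh : BB V C0 Cw (fun c => c.η ^ (-(1 / 2) : ℝ)) (1 / 8) (1 / 8) (-(1 / 4)) := by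
  refine ((bbηi.rpow Y_pos δ_pos m_pos (t := 1 / 2) (by norm_num)).le (fun c => ?_)
    (fun c => Real.rpow_nonneg c.hη0.le _)).mono_eq (by norm_num) (by norm_num) (by norm_num)
  rw [Real.inv_rpow c.hη0.le, ← Real.rpow_neg c.hη0.le]

theorem bbHs (hCw : 0 < Cw) : BB V C0 Cw (fun c => c.Hs) (-(1 / 8)) (-(9 / 8)) (5 / 4) :=
  (((((bbη.mul Y_pos δ_pos m_pos bbηh).mul Y_pos δ_pos m_pos bbm).mul Y_pos δ_pos m_pos bbδi).const_mul
    (c := 6 * Cw) (by positivity)).le (fun c => c.hH) (fun c => c.Hs_nonneg)).mono_eq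
      (by norm_num) (by norm_num) (by norm_num)

/-- weighted masses -/
def G3 (c : CfgU V C0 Cw) : ℝ := Gm (Vb V c.lam) (3 / 2) c.η (c.R - c.δ) (c.R + 3 * c.δ) c.r
def G1 (c : CfgU V C0 Cw) : ℝ := Gm (Vb V c.lam) (1 / 2) c.η (c.R - c.δ) (c.R + 3 * c.δ) c.r

theorem G3_nonneg (c : CfgU V C0 Cw) : 0 ≤ c.G3 := Gm_nonneg _ _ _ _ _ _ c.hη0
theorem G1_nonneg (c : CfgU V C0 Cw) : 0 ≤ c.G1 := Gm_nonneg _ _ _ _ _ _ c.hη0

theorem bbG3 (hCw : 0 < Cw) : BB V C0 Cw (fun c => c.G3) (1 / 8) (-(7 / 8)) (3 / 4) :=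
  ((((bbηh.mul Y_pos δ_pos m_pos bbm).mul Y_pos δ_pos m_pos bbδi).const_mul
    (c := 6 * Cw) (by positivity)).le (fun c => c.hG3) (fun c => c.G3_nonneg)).mono_eq
      (by norm_num) (by norm_num) (by norm_num)

theorem bbG1 (hCw : 0 < Cw) : BB V C0 Cw (fun c => c.G1) 0 (-(1 / 2)) 1 :=
  (((((bbδ.rpow Y_pos δ_pos m_pos (t := 1 / 2) (by norm_num)).mul Y_pos δ_pos m_pos bbm).mul Y_pos δ_pos m_pos
    bbδi).const_mul (c := 6 * Cw) (by positivity)).le (fun c => c.hG1) (fun c => c.G1_nonneg)).mono_eq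
      (by norm_num) (by norm_num) (by norm_num)

theorem P4_le (cV : ∀ i, Continuous (V i)) (c : CfgU V C0 Cw) : c.P4 ≤ 32 * (c.G3 ^ (3 : ℝ) * c.Hs) := by
  have cP : Continuous c.PP := continuous_Pm (continuous_Vb cV c.lam) c.hη0 _ _
  have cH := continuous_Hm (continuous_Vb cV c.lam) c.hη0 (c.R - c.δ) (c.R + 3 * c.δ)
  have e3 : c.G3 ^ (3 : ℝ) = c.G3 ^ 3 := by
    rw [show (3 : ℝ) = ((3 : ℕ) : ℝ) by norm_num, Real.rpow_natCast]
  calc c.P4 ≤ ∫ y in Sh c.r (c.r + c.η), 32 * c.G3 ^ 3 * Hm (Vb V c.lam) c.η (c.R - c.δ) (c.R + 3 * c.δ) y := by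
        apply setIntegral_mono_on (cont_int_on (Sh_sub _ _) (cP.pow 4)) (cont_int_on (Sh_sub _ _) (by fun_prop))
          (measurableSet_Sh _ _)
        intro y hy
        exact Pm_four_le (continuous_Vb cV c.lam) c.hη0 hy
    _ = 32 * c.G3 ^ 3 * c.Hs := by rw [integral_const_mul]; rfl
    _ = _ := by rw [e3]; ring

theorem P2_le (cV : ∀ i, Continuous (V i)) (c : CfgU V C0 Cw) : c.P2 ≤ 2 * (c.G1 * c.Hs) := by
  have cP : Continuous c.PP := continuous_Pm (continuous_Vb cV c.lam) c.hη0 _ _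
  have cH := continuous_Hm (continuous_Vb cV c.lam) c.hη0 (c.R - c.δ) (c.R + 3 * c.δ)
  calc c.P2 ≤ ∫ y in Sh c.r (c.r + c.η), 2 * c.G1 * Hm (Vb V c.lam) c.η (c.R - c.δ) (c.R + 3 * c.δ) y := by
        apply setIntegral_mono_on (cont_int_on (Sh_sub _ _) (cP.pow 2)) (cont_int_on (Sh_sub _ _) (by fun_prop))
          (measurableSet_Sh _ _)
        intro y hy
        exact Pm_two_le (continuous_Vb cV c.lam) c.hη0 hy
    _ = 2 * c.G1 * c.Hs := by rw [integral_const_mul]; rfl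
    _ = _ := by ring

theorem bbP4 (cV : ∀ i, Continuous (V i)) (hCw : 0 < Cw) : BB V C0 Cw (fun c => c.P4) (1 / 4) (-(15 / 4)) (7 / 2) :=
  (((((bbG3 hCw).rpow Y_pos δ_pos m_pos (t := 3) (by norm_num)).mul Y_pos δ_pos m_pos (bbHs hCw)).const_mul
    (c := 32) (by norm_num)).le (fun c => c.P4_le cV) (fun c => c.P4_nonneg)).mono_eq
      (by norm_num) (by norm_num) (by norm_num)

theorem bbP2 (cV : ∀ i, Continuous (V i)) (hCw : 0 < Cw) : BB V C0 Cw (fun c => c.P2) (-(1 / 8)) (-(13 / 8)) (9 / 4) :=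
  ((((bbG1 hCw).mul Y_pos δ_pos m_pos (bbHs hCw)).const_mul
    (c := 2) (by norm_num)).le (fun c => c.P2_le cV) (fun c => c.P2_nonneg)).mono_eq
      (by norm_num) (by norm_num) (by norm_num)

end CfgU

end Leray
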