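import Pool.Agent.Lib.MP_9b9638_an.OsgD3
import Pool.Agent.Lib.MP_9b9638_an.OsgB
import Pool.Agent.Lib.MP_9b9638_an.OsgC
import Pool.Agent.Lib.MP_9b9638_an.OneD4

/-!
# The endpoint `p = 1` up to a logarithm: bounds with a power of `R² lam / (δ θ)`
-/

open MeasureTheory Set Filter Topology TopologicalSpace

noncomputable section

namespace Leray

theorem Bd.of_Bq {ι : Type*} {Q Y D f : ι → ℝ} {e g : ℝ} (hQ : ∀ i, 1 ≤ Q i) (hY : ∀ i, 1 ≤ Y i) (hD : ∀ i, 0 < D i)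
    (hDQ : ∀ i, D i ≤ Q i) (hDQ' : ∀ i, (D i)⁻¹ ≤ Q i) (hf : Bq Q Y D f e g) : Bd Q Y f e := by
  obtain ⟨f0, c, K, hc, hK, hf⟩ := hf
  refine ⟨f0, c, K + |g|, hc, by positivity, fun i => (hf i).trans ?_⟩
  have q := hQ i
  have q0 : 0 < Q i := by linarith
  have y0 : 0 < Y i := by linarith [hY i]
  have d := hD i
  have key : D i ^ g ≤ Q i ^ |g| := by
    rcases le_or_gt 0 g with hg | hg
    · rw [abs_of_nonneg hg]
      exact Real.rpow_le_rpow d.le (hDQ i) hg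
    · rw [abs_of_neg hg]
      have h1 : D i ^ g = (D i)⁻¹ ^ (-g) := by
        rw [Real.inv_rpow d.le, ← Real.rpow_neg d.le, neg_neg]
      rw [h1]
      exact Real.rpow_le_rpow (by positivity) (hDQ' i) (by linarith)
  calc c * (Q i ^ K * Y i ^ e * D i ^ g) ≤ c * (Q i ^ K * Y i ^ e * Q i ^ |g|) := by gcongr
    _ = _ := by rw [Real.rpow_add q0]; ring

namespace CfgU

variable {V : VF} {C0 Cw : ℝ}

/-- the quantity `R² lam / (δ θ)` -/
def Q (c : CfgU V C0 Cw) : ℝ := c.R * (c.R / c.δ) * c.θ⁻¹ * c.lam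

theorem one_le_θi (c : CfgU V C0 Cw) : 1 ≤ c.θ⁻¹ := (one_le_inv₀ c.hθ).2 c.hθ1

theorem one_le_Rδ (c : CfgU V C0 Cw) : 1 ≤ c.R / c.δ := by
  rw [le_div_iff₀ c.hδ]; linarith [c.hδR]

theorem lam_nonneg (c : CfgU V C0 Cw) : 0 ≤ c.lam := by linarith [c.hlam]

theorem Rδ_le_Q (c : CfgU V C0 Cw) : c.R / c.δ ≤ c.Q := by
  unfold Q
  have h1 := c.one_le_θi
  have h2 := c.one_le_Rδ
  have h3 := c.hlam
  have h4 := c.hR
  calc c.R / c.δ = 1 * (c.R / c.δ) * 1 * 1 := by ring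
    _ ≤ c.R * (c.R / c.δ) * c.θ⁻¹ * c.lam := by gcongr

theorem R_le_Q (c : CfgU V C0 Cw) : c.R ≤ c.Q := by
  unfold Q
  have h1 := c.one_le_θi
  have h2 := c.one_le_Rδ
  have h3 := c.hlam
  have h4 := c.hR
  calc c.R = c.R * 1 * 1 * 1 := by ring
    _ ≤ c.R * (c.R / c.δ) * c.θ⁻¹ * c.lam := by gcongr

theorem lam_le_Q (c : CfgU V C0 Cw) : c.lam ≤ c.Q := by
  unfold Q
  have h1 := c.one_le_θi
  have h2 := c.one_le_Rδ
  have h3 := c.hlam
  have h4 := c.hR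
  calc c.lam = 1 * 1 * 1 * c.lam := by ring
    _ ≤ c.R * (c.R / c.δ) * c.θ⁻¹ * c.lam := by gcongr

theorem θi_le_Q (c : CfgU V C0 Cw) : c.θ⁻¹ ≤ c.Q := by
  unfold Q
  have h1 := c.one_le_θi
  have h2 := c.one_le_Rδ
  have h3 := c.hlam
  have h4 := c.hR
  calc c.θ⁻¹ = 1 * 1 * c.θ⁻¹ * 1 := by ring
    _ ≤ c.R * (c.R / c.δ) * c.θ⁻¹ * c.lam := by gcongr

theorem one_le_Q (c : CfgU V C0 Cw) : 1 ≤ c.Q := c.hR.trans c.R_le_Q

theorem δ_le_Q (c : CfgU V C0 Cw) : c.δ ≤ c.Q := c.hδR.trans c.R_le_Q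

theorem δi_le_Q (c : CfgU V C0 Cw) : (c.δ)⁻¹ ≤ c.Q := by
  refine le_trans ?_ c.Rδ_le_Q
  rw [div_eq_mul_inv]
  have : 0 < c.δ⁻¹ := inv_pos.2 c.hδ
  nlinarith [c.hR]

theorem mi_le_Q (c : CfgU V C0 Cw) : (c.m)⁻¹ ≤ c.Q :=
  ((inv_le_inv₀ c.m_pos c.hθ).2 c.hmθ).trans c.θi_le_Q

theorem Y_one (c : CfgU V C0 Cw) : 1 ≤ c.Y := c.hY

/-- bounds by `c Q^K Y^e` -/
abbrev BQ (V : VF) (C0 Cw : ℝ) (f : CfgU V C0 Cw → ℝ) (e : ℝ) : Prop := Bd CfgU.Q CfgU.Y f e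

open Cfg1 (At At_pos)

theorem m_le_At (cV : ∀ i, Continuous (V i)) (hi : Integrable (nm V)) (c : CfgU V C0 Cw) : c.m ≤ At V := by
  have h1 : Integrable (nm (Vb V c.lam)) := by
    have e : nm (Vb V c.lam) = bs V c.lam := funext fun y => nm_Vb V c.lam y
    rw [e]; exact integrable_bs cV hi c.lam_nonneg
  have h2 : ∫ y in Sh (c.R - c.δ) (c.R + 4 * c.δ), nm (Vb V c.lam) y ≤ ∫ y, nm (Vb V c.lam) y :=
    setIntegral_le_integral h1 (Eventually.of_forall (nm_nonneg _))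
  have h3 : ∫ y, nm (Vb V c.lam) y ≤ ∫ y, nm V y :=
    integral_mono h1 hi fun y => by rw [nm_Vb]; exact bs_le_nm c.lam_nonneg y
  rw [c.hmdef, Cfg1.At]
  linarith [c.hθ1]

theorem toQ (cV : ∀ i, Continuous (V i)) (hi : Integrable (nm V)) {f : CfgU V C0 Cw → ℝ} {e g a : ℝ}
    (h : BB V C0 Cw f e g a) : BQ V C0 Cw f e :=
  Bd.of_Bq one_le_Q Y_one δ_pos δ_le_Q δi_le_Q
    (Bq.of_B3 one_le_Q Y_pos δ_pos m_pos mi_le_Q (At_pos V) (m_le_At cV hi) h)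

theorem Qmul {c₀ K : ℝ} (hc : 0 ≤ c₀) (hK : 0 ≤ K) : BQ V C0 Cw (fun c => c₀ * c.Q ^ K) 0 :=
  (Bd.Qpow one_le_Q Y_one hK).const_mul one_le_Q Y_one hc

theorem bqr : BQ V C0 Cw (fun c => c.r) 0 := by
  refine (Qmul (c₀ := 2) (K := 1) (by norm_num) zero_le_one).le (fun c => ?_) (fun c => c.r_pos.le)
  rw [Real.rpow_one]
  linarith [c.hr2, c.hδR, c.R_le_Q]

theorem bqlam {e : ℝ} (he : 0 ≤ e) : BQ V C0 Cw (fun c => c.lam ^ e) 0 :=
  (Bd.Qpow one_le_Q Y_one he).le (fun c => Real.rpow_le_rpow c.lam_nonneg c.lam_le_Q he)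
    (fun c => Real.rpow_nonneg c.lam_nonneg _)

theorem bqδi {e : ℝ} (he : 0 ≤ e) : BQ V C0 Cw (fun c => c.δ⁻¹ ^ e) 0 :=
  (Bd.Qpow one_le_Q Y_one he).le (fun c => Real.rpow_le_rpow (inv_pos.2 c.hδ).le c.δi_le_Q he)
    (fun c => Real.rpow_nonneg (inv_pos.2 c.hδ).le _)

/-! ### Sobolev -/

theorem int_nm_le (hi : Integrable (nm V)) (S : Set E) : ∫ y in S, nm V y ≤ At V := by
  have : ∫ y in S, nm V y ≤ ∫ y, nm V y := setIntegral_le_integral hi (Eventually.of_forall (nm_nonneg V))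
  unfold Cfg1.At; linarith

theorem cube_add_le {x y : ℝ} (hx : 0 ≤ x) (hy : 0 ≤ y) : (x + y) ^ (3 : ℝ) ≤ 4 * x ^ (3 : ℝ) + 4 * y ^ (3 : ℝ) := by
  rw [show (3 : ℝ) = ((3 : ℕ) : ℝ) by norm_num, Real.rpow_natCast, Real.rpow_natCast, Real.rpow_natCast]
  nlinarith [mul_nonneg (add_nonneg hx hy) (sq_nonneg (x - y))]

theorem I6_split (hV : ∀ i, ContDiff ℝ 3 (V i)) (hd : ∀ x, dv V x = 0) (hi : Integrable (nm V)) :
    ∃ fc fn : CfgU V C0 Cw → ℝ, BB V C0 Cw fc (9 / 4) (-(15 / 4)) (3 / 2) ∧ BQ V C0 Cw fn (3 / 2) ∧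
      ∀ c, c.I6 ≤ fc c + fn c := by
  obtain ⟨C, hC, hsob⟩ := shell_sobolev_bs
  have hV1 : ∀ i, ContDiff ℝ 1 (V i) := fun i => (hV i).of_le (by norm_num)
  have cV : ∀ i, Continuous (V i) := fun i => (hV1 i).continuous
  have cω : ∀ i, Continuous (curl V i) := continuous_curl hV1
  have hA := At_pos V
  have b1 : BB V C0 Cw (fun c => c.η⁻¹ ^ (5 : ℝ) * c.α ^ (2 : ℝ)) (3 / 4) (-(5 / 4)) (1 / 2) :=
    ((bbηi.rpow Y_pos δ_pos m_pos (t := 5) (by norm_num)).mul Y_pos δ_pos m_pos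
      (bbα.rpow Y_pos δ_pos m_pos (t := 2) (by norm_num))).mono_eq (by norm_num) (by norm_num) (by norm_num)
  have bc := (((bbw.add b1).const_mul hC.le).rpow Y_pos δ_pos m_pos (t := 3) (by norm_num)).const_mul (c := 4)
    (by norm_num)
  have bηi : BQ V C0 Cw (fun c => c.η⁻¹) (1 / 4) := toQ cV hi bbηi
  have bl : BQ V C0 Cw (fun c => c.lam ^ (1 : ℝ)) 0 := bqlam zero_le_one
  have bn := ((((bηi.rpow one_le_Q Y_one (θ := 2) (by norm_num)).mul one_le_Q Y_one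
    bl).const_mul one_le_Q Y_one (c := C * At V) (by positivity)).rpow one_le_Q Y_one
      (θ := 3) (by norm_num)).const_mul one_le_Q Y_one (c := 4) (by norm_num)
  refine ⟨_, _, bc.mono_eq (by norm_num) (by norm_num) (by norm_num), bn.mono one_le_Q Y_one (by norm_num),
    fun c => ?_⟩
  have hη := c.hη0
  have h := hsob V (c.r - c.η) (c.r + 2 * c.η) c.η c.lam hV hd hη (by linarith [c.η_le_r]) (by linarith) c.lam_nonneg
  have hsub : Sh (c.r - c.η - c.η) (c.r + 2 * c.η + c.η) ⊆ Sh (c.r - 3 * c.η) (c.r + 4 * c.η) :=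
    Sh_subset (by linarith) (by linarith)
  have i1 : ∫ x in Sh (c.r - c.η - c.η) (c.r + 2 * c.η + c.η), sq (curl V) x ≤ c.w :=
    set_mono hsub (Sh_sub _ _) (continuous_sq cω) fun _ => sq_nonneg' _ _
  have i2 : ∫ x in Sh (c.r - c.η - c.η) (c.r + 2 * c.η + c.η), bs V c.lam x ≤ c.α := by
    have e : c.α = ∫ y in Sh (c.r - 3 * c.η) (c.r + 4 * c.η), bs V c.lam y := by
      unfold α; congr 1; funext y; rw [nm_Vb]
    rw [e]
    exact set_mono hsub (Sh_sub _ _) (continuous_bs cV _) fun _ => bs_nonneg _ _ _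
  have i0 : 0 ≤ ∫ x in Sh (c.r - c.η - c.η) (c.r + 2 * c.η + c.η), bs V c.lam x :=
    setInt_nonneg (measurableSet_Sh _ _) fun _ => bs_nonneg _ _ _
  have i3 := int_nm_le hi (Sh (c.r - c.η - c.η) (c.r + 2 * c.η + c.η))
  have e5 : c.η⁻¹ ^ (5 : ℝ) = c.η⁻¹ ^ 5 := by
    rw [show (5 : ℝ) = ((5 : ℕ) : ℝ) by norm_num, Real.rpow_natCast]
  have e2 : c.α ^ (2 : ℝ) = c.α ^ 2 := by
    rw [show (2 : ℝ) = ((2 : ℕ) : ℝ) by norm_num, Real.rpow_natCast]
  have e22 : c.η⁻¹ ^ (2 : ℝ) = c.η⁻¹ ^ 2 := by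
    rw [show (2 : ℝ) = ((2 : ℕ) : ℝ) by norm_num, Real.rpow_natCast]
  have hηi : 0 < c.η⁻¹ := inv_pos.2 hη
  have hl := c.lam_nonneg
  have hw0 := c.w_nonneg
  have hα0 := c.α_nonneg
  have h' : c.I6 ^ (1 / 3 : ℝ) ≤ C * (c.w + c.η⁻¹ ^ (5 : ℝ) * c.α ^ (2 : ℝ))
      + C * At V * (c.η⁻¹ ^ (2 : ℝ) * c.lam ^ (1 : ℝ)) := by
    refine h.trans ?_
    rw [e5, e2, e22, Real.rpow_one]
    have k2 : (∫ x in Sh (c.r - c.η - c.η) (c.r + 2 * c.η + c.η), bs V c.lam x) ^ 2 ≤ c.α ^ 2 :=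
      pow_le_pow_left₀ i0 i2 2
    have k3 : c.lam * (∫ x in Sh (c.r - c.η - c.η) (c.r + 2 * c.η + c.η), nm V x) ≤ c.lam * At V :=
      mul_le_mul_of_nonneg_left i3 hl
    calc _ ≤ C * (c.w + c.η⁻¹ ^ 2 * (c.lam * At V) + c.η⁻¹ ^ 5 * c.α ^ 2) := by gcongr
      _ = _ := by ring
  calc c.I6 = (c.I6 ^ (1 / 3 : ℝ)) ^ (3 : ℝ) := (cube_of_third c.I6_nonneg).symm
    _ ≤ _ := Real.rpow_le_rpow (Real.rpow_nonneg c.I6_nonneg _) h' (by norm_num)
    _ ≤ _ := cube_add_le (by positivity) (by positivity)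

theorem bqI6 (hV : ∀ i, ContDiff ℝ 3 (V i)) (hd : ∀ x, dv V x = 0) (hi : Integrable (nm V)) :
    BQ V C0 Cw (fun c => c.I6) (9 / 4) := by
  obtain ⟨fc, fn, hc, hn, h⟩ := I6_split (C0 := C0) (Cw := Cw) hV hd hi
  exact ((toQ (fun i => (hV i).continuous) hi hc).add one_le_Q Y_one (hn.mono one_le_Q Y_one (by norm_num))).le h
    fun c => c.I6_nonneg

/-- interpolation for the part above the height -/
theorem interp_bs (cV : ∀ i, Continuous (V i)) {q : ℝ} (hq1 : 1 < q) (hq : q < 6) (c : CfgU V C0 Cw) :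
    ∫ y in Sh (c.r - c.η) (c.r + 2 * c.η), bs V c.lam y ^ q ≤ c.I6 ^ ((q - 1) / 5) * c.α ^ ((6 - q) / 5) := by
  have hη := c.hη0
  have cB := continuous_Vb cV c.lam
  have hint := interp_nm (Sh_sub (c.r - c.η) (c.r + 2 * c.η)) cB (p := 1) (q := q) one_pos hq1 hq
  simp only [Real.rpow_one] at hint
  rw [show (6 : ℝ) - 1 = 5 by norm_num] at hint
  have e : ∀ y, nm (Vb V c.lam) y = bs V c.lam y := fun y => nm_Vb V c.lam y
  have e1 : (fun y => bs V c.lam y ^ q) = fun y => nm (Vb V c.lam) y ^ q := by funext y; rw [e]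
  have i2 : ∫ x in Sh (c.r - c.η) (c.r + 2 * c.η), nm (Vb V c.lam) x ≤ c.α :=
    set_mono (Sh_subset (by linarith) (by linarith)) (Sh_sub _ _) (continuous_nm cB) fun _ => nm_nonneg _ _
  have i0 : 0 ≤ ∫ x in Sh (c.r - c.η) (c.r + 2 * c.η), nm (Vb V c.lam) x :=
    setInt_nonneg (measurableSet_Sh _ _) fun _ => nm_nonneg _ _
  have j2 : ∫ x in Sh (c.r - c.η) (c.r + 2 * c.η), sq (Vb V c.lam) x ^ 3 ≤ c.I6 := by
    apply setIntegral_mono_on (cont_int_on (Sh_sub _ _) ((continuous_sq cB).pow 3))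
      (cont_int_on (Sh_sub _ _) ((continuous_sq cV).pow 3)) (measurableSet_Sh _ _)
    intro y _
    apply pow_le_pow_left₀ (sq_nonneg' _ _)
    rw [← nm_sq, ← nm_sq, e]
    exact pow_le_pow_left₀ (bs_nonneg _ _ _) (bs_le_nm c.lam_nonneg y) 2
  have j0 : 0 ≤ ∫ x in Sh (c.r - c.η) (c.r + 2 * c.η), sq (Vb V c.lam) x ^ 3 :=
    setInt_nonneg (measurableSet_Sh _ _) fun _ => pow_nonneg (sq_nonneg' _ _) 3
  rw [e1]
  refine hint.trans ?_
  exact mul_le_mul (Real.rpow_le_rpow j0 j2 (by linarith)) (Real.rpow_le_rpow i0 i2 (by linarith))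
    (Real.rpow_nonneg i0 _) (Real.rpow_nonneg c.I6_nonneg _)

theorem L4_split (hV : ∀ i, ContDiff ℝ 3 (V i)) (hd : ∀ x, dv V x = 0) (hi : Integrable (nm V)) :
    ∃ fc fn : CfgU V C0 Cw → ℝ, BB V C0 Cw fc (5 / 4) (-(11 / 4)) (3 / 2) ∧ BQ V C0 Cw fn (4 / 5) ∧
      ∀ c, c.L4 ≤ fc c + fn c := by
  obtain ⟨gc, gn, hc, hn, h⟩ := I6_split (C0 := C0) (Cw := Cw) hV hd hi
  have cV : ∀ i, Continuous (V i) := fun i => (hV i).continuous
  have hA := At_pos V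
  have bc := ((hc.rpow Y_pos δ_pos m_pos (t := 3 / 5) (by norm_num)).mul Y_pos δ_pos m_pos
    (bbα.rpow Y_pos δ_pos m_pos (t := 2 / 5) (by norm_num))).const_mul (c := 8) (by norm_num)
  have bn1 := ((hn.rpow one_le_Q Y_one (θ := 3 / 5) (by norm_num)).mul one_le_Q Y_one
    ((toQ cV hi bbα).rpow one_le_Q Y_one (θ := 2 / 5) (by norm_num))).const_mul one_le_Q Y_one (c := 8) (by norm_num)
  have bn2 := (bqlam (V := V) (C0 := C0) (Cw := Cw) (e := 3) (by norm_num)).const_mul one_le_Q Y_one (c := 8 * At V)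
    (by positivity)
  have bn := (bn1.mono one_le_Q Y_one (e' := 4 / 5) (by norm_num)).add one_le_Q Y_one
    (bn2.mono one_le_Q Y_one (e' := 4 / 5) (by norm_num))
  refine ⟨_, _, bc.mono_eq (by norm_num) (by norm_num) (by norm_num), bn, fun c => ?_⟩
  have hl := c.lam_nonneg
  have h3 : c.lam ^ (3 : ℝ) = c.lam ^ 3 := by
    rw [show (3 : ℝ) = ((3 : ℕ) : ℝ) by norm_num, Real.rpow_natCast]
  have k1 : c.L4 ≤ 8 * c.lam ^ 3 * At V + 8 * ∫ y in Sh (c.r - c.η) (c.r + 2 * c.η), bs V c.lam y ^ (4 : ℝ) := by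
    have e4 : ∀ y, bs V c.lam y ^ (4 : ℝ) = bs V c.lam y ^ 4 := fun y => by
      rw [show (4 : ℝ) = ((4 : ℕ) : ℝ) by norm_num, Real.rpow_natCast]
    simp only [e4]
    have cb := continuous_bs cV c.lam
    have cn := continuous_nm cV
    calc c.L4 ≤ ∫ y in Sh (c.r - c.η) (c.r + 2 * c.η), (8 * c.lam ^ 3 * nm V y + 8 * bs V c.lam y ^ 4) := by
          apply setIntegral_mono_on (cont_int_on (Sh_sub _ _) (cn.pow 4)) (cont_int_on (Sh_sub _ _) (by fun_prop))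
            (measurableSet_Sh _ _)
          intro y _
          exact pow4_le_bs hl y
      _ = 8 * c.lam ^ 3 * (∫ y in Sh (c.r - c.η) (c.r + 2 * c.η), nm V y)
          + 8 * ∫ y in Sh (c.r - c.η) (c.r + 2 * c.η), bs V c.lam y ^ 4 := by
          rw [integral_add (cont_int_on (Sh_sub _ _) (by fun_prop)) (cont_int_on (Sh_sub _ _) (by fun_prop)),
            integral_const_mul, integral_const_mul]
      _ ≤ _ := by
          have := int_nm_le hi (Sh (c.r - c.η) (c.r + 2 * c.η))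
          gcongr
  have k2 := interp_bs cV (q := 4) (by norm_num) (by norm_num) c
  rw [show ((4 : ℝ) - 1) / 5 = 3 / 5 by norm_num, show ((6 : ℝ) - 4) / 5 = 2 / 5 by norm_num] at k2
  have hα0 := c.α_nonneg
  have k3 : c.I6 ^ (3 / 5 : ℝ) ≤ gc c ^ (3 / 5 : ℝ) + gn c ^ (3 / 5 : ℝ) :=
    (Real.rpow_le_rpow c.I6_nonneg (h c) (by norm_num)).trans
      (Real.rpow_add_le_add_rpow (hc.1 c) (hn.1 c) (by norm_num) (by norm_num))
  have k4 : c.I6 ^ (3 / 5 : ℝ) * c.α ^ (2 / 5 : ℝ) ≤ (gc c ^ (3 / 5 : ℝ) + gn c ^ (3 / 5 : ℝ)) * c.α ^ (2 / 5 : ℝ) :=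
    mul_le_mul_of_nonneg_right k3 (by positivity)
  rw [h3]
  linarith

theorem bqM (hV : ∀ i, ContDiff ℝ 3 (V i)) (hd : ∀ x, dv V x = 0) (hi : Integrable (nm V)) :
    BQ V C0 Cw (fun c => c.M) (1 / 4) := by
  have cV : ∀ i, Continuous (V i) := fun i => (hV i).continuous
  have hA := At_pos V
  have b1 := (((bqI6 (C0 := C0) (Cw := Cw) hV hd hi).rpow one_le_Q Y_one (θ := 1 / 5) (by norm_num)).mul one_le_Q Y_one
    ((toQ cV hi bbα).rpow one_le_Q Y_one (θ := 4 / 5) (by norm_num))).const_mul one_le_Q Y_one (c := 2) (by norm_num)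
  have b2 := (bqlam (V := V) (C0 := C0) (Cw := Cw) (e := 1) (by norm_num)).const_mul one_le_Q Y_one (c := 2 * At V)
    (by positivity)
  have b := (b1.mono one_le_Q Y_one (e' := 1 / 4) (by norm_num)).add one_le_Q Y_one
    (b2.mono one_le_Q Y_one (e' := 1 / 4) (by norm_num))
  refine b.le (fun c => ?_) (fun c => c.M_nonneg)
  have hl := c.lam_nonneg
  have k1 : c.M ≤ 2 * c.lam * At V + 2 * ∫ y in Sh (c.r - c.η) (c.r + 2 * c.η), bs V c.lam y ^ (2 : ℝ) := by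
    have e4 : ∀ y, bs V c.lam y ^ (2 : ℝ) = bs V c.lam y ^ 2 := fun y => by
      rw [show (2 : ℝ) = ((2 : ℕ) : ℝ) by norm_num, Real.rpow_natCast]
    simp only [e4]
    have cb := continuous_bs cV c.lam
    have cn := continuous_nm cV
    calc c.M ≤ ∫ y in Sh (c.r - c.η) (c.r + 2 * c.η), (2 * c.lam * nm V y + 2 * bs V c.lam y ^ 2) := by
          apply setIntegral_mono_on (cont_int_on (Sh_sub _ _) (continuous_sq cV)) (cont_int_on (Sh_sub _ _) (by fun_prop))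
            (measurableSet_Sh _ _)
          intro y _
          exact sq_le_bs hl y
      _ = 2 * c.lam * (∫ y in Sh (c.r - c.η) (c.r + 2 * c.η), nm V y)
          + 2 * ∫ y in Sh (c.r - c.η) (c.r + 2 * c.η), bs V c.lam y ^ 2 := by
          rw [integral_add (cont_int_on (Sh_sub _ _) (by fun_prop)) (cont_int_on (Sh_sub _ _) (by fun_prop)),
            integral_const_mul, integral_const_mul]
      _ ≤ _ := by
          have := int_nm_le hi (Sh (c.r - c.η) (c.r + 2 * c.η))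
          gcongr
  have k2 := interp_bs cV (q := 2) (by norm_num) (by norm_num) c
  rw [show ((2 : ℝ) - 1) / 5 = 1 / 5 by norm_num, show ((6 : ℝ) - 2) / 5 = 4 / 5 by norm_num] at k2
  rw [Real.rpow_one]
  linarith

/-! ### the whole ball -/

/-- energy of the ball `B_{R + 3δ}` -/
def Mt (c : CfgU V C0 Cw) : ℝ := ∫ y in Metric.ball (0 : E) (c.R + 3 * c.δ), sq V y

theorem Mt_nonneg (c : CfgU V C0 Cw) : 0 ≤ c.Mt := setInt_nonneg measurableSet_ball fun _ => sq_nonneg' _ _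

theorem bqQ3 : BQ V C0 Cw (fun c => ((c.R + 3 * c.δ) / c.δ) ^ 3) 0 := by
  refine (Qmul (c₀ := 64) (K := 3) (by norm_num) (by norm_num)).le (fun c => ?_)
    (fun c => pow_nonneg (div_nonneg (by linarith [c.hR, c.hδ]) c.hδ.le) _)
  have h1 : (c.R + 3 * c.δ) / c.δ ≤ 4 * c.Q := by
    rw [div_le_iff₀ c.hδ]
    have h2 := c.Rδ_le_Q
    rw [div_le_iff₀ c.hδ] at h2
    linarith [c.hδR, c.hδ]
  have h0 : 0 ≤ (c.R + 3 * c.δ) / c.δ := div_nonneg (by linarith [c.hR, c.hδ]) c.hδ.le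
  calc _ ≤ (4 * c.Q) ^ 3 := pow_le_pow_left₀ h0 h1 3
    _ = 64 * c.Q ^ 3 := by ring
    _ = _ := by rw [show (3 : ℝ) = ((3 : ℕ) : ℝ) by norm_num, Real.rpow_natCast]

theorem bqMt (hV : ∀ i, ContDiff ℝ 3 (V i)) (hd : ∀ x, dv V x = 0) (hi : Integrable (nm V)) :
    BQ V C0 Cw (fun c => c.Mt) (3 / 5) := by
  obtain ⟨C, hC, hsob⟩ := ball_sobolev_one
  have hV1 : ∀ i, ContDiff ℝ 1 (V i) := fun i => (hV i).of_le (by norm_num)
  have cV : ∀ i, Continuous (V i) := fun i => (hV1 i).continuous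
  have cω : ∀ i, Continuous (curl V i) := continuous_curl hV1
  have hA := At_pos V
  have hAi : ∀ S : Set E, ∫ y in S, nm V y ≤ At V := int_nm_le hi
  have bY : BQ V C0 Cw (fun c => c.Y ^ (1 : ℝ)) 1 := Bd.Ypow one_le_Q Y_one 1
  have h2 : BQ V C0 Cw (fun c => At V ^ 2 * (((c.R + 3 * c.δ) / c.δ) ^ 3 * c.δ⁻¹ ^ (5 : ℝ))) 1 :=
    (((bqQ3.mul one_le_Q Y_one (bqδi (by norm_num))).mono one_le_Q Y_one
      (by norm_num)).const_mul one_le_Q Y_one (by positivity))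
  have b2 := ((((bY.add one_le_Q Y_one h2).const_mul one_le_Q Y_one hC.le).rpow one_le_Q Y_one (θ := 3)
    (by norm_num)).rpow one_le_Q Y_one (θ := 1 / 5) (by norm_num)).const_mul one_le_Q Y_one (c := At V ^ (4 / 5 : ℝ))
      (by positivity)
  rw [show (1 : ℝ) * 3 * (1 / 5) = 3 / 5 by norm_num] at b2
  refine b2.le (fun c => ?_) (fun c => c.Mt_nonneg)
  have hδ := c.hδ
  have hR := c.hR
  have h := hsob V (c.R + 3 * c.δ) c.δ hV hd hδ (by linarith)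
  rw [show c.R + 3 * c.δ + c.δ = c.R + 4 * c.δ by ring] at h
  have i0 : 0 ≤ ∫ x in Metric.ball (0 : E) (c.R + 4 * c.δ), nm V x :=
    setInt_nonneg measurableSet_ball fun _ => nm_nonneg _ _
  have J0 : 0 ≤ ∫ y in Metric.ball (0 : E) (c.R + 3 * c.δ), sq V y ^ 3 :=
    setInt_nonneg measurableSet_ball fun _ => pow_nonneg (sq_nonneg' _ _) 3
  have e5 : c.δ⁻¹ ^ (5 : ℝ) = c.δ⁻¹ ^ 5 := by
    rw [show (5 : ℝ) = ((5 : ℕ) : ℝ) by norm_num, Real.rpow_natCast]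
  have h' : (∫ y in Metric.ball (0 : E) (c.R + 3 * c.δ), sq V y ^ 3) ^ (1 / 3 : ℝ)
      ≤ C * (c.Y ^ (1 : ℝ) + At V ^ 2 * (((c.R + 3 * c.δ) / c.δ) ^ 3 * c.δ⁻¹ ^ (5 : ℝ))) := by
    refine h.trans ?_
    rw [Real.rpow_one, e5]
    have k1 : (∫ x in Metric.ball (0 : E) (c.R + 4 * c.δ), nm V x) ^ 2 ≤ At V ^ 2 :=
      pow_le_pow_left₀ i0 (hAi _) 2
    have k2 : W V (c.R + 4 * c.δ) ≤ c.Y := by rw [c.hYdef]; linarith
    have k3 : 0 ≤ ((c.R + 3 * c.δ) / c.δ) ^ 3 * c.δ⁻¹ ^ 5 := by positivity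
    apply mul_le_mul_of_nonneg_left _ hC.le
    apply add_le_add k2
    calc _ ≤ ((c.R + 3 * c.δ) / c.δ) ^ 3 * c.δ⁻¹ ^ 5 * At V ^ 2 := mul_le_mul_of_nonneg_left k1 k3
      _ = _ := by ring
  have h6 : ∫ y in Metric.ball (0 : E) (c.R + 3 * c.δ), sq V y ^ 3
      ≤ (C * (c.Y ^ (1 : ℝ) + At V ^ 2 * (((c.R + 3 * c.δ) / c.δ) ^ 3 * c.δ⁻¹ ^ (5 : ℝ)))) ^ (3 : ℝ) := by
    calc _ = ((∫ y in Metric.ball (0 : E) (c.R + 3 * c.δ), sq V y ^ 3) ^ (1 / 3 : ℝ)) ^ (3 : ℝ) := (cube_of_third J0).symm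
      _ ≤ _ := Real.rpow_le_rpow (Real.rpow_nonneg J0 _) h' (by norm_num)
  -- interpolation
  have hint := interp_nm (S := Metric.ball (0 : E) (c.R + 3 * c.δ)) (ball_sub' _) cV (p := 1) (q := 2) one_pos
    (by norm_num) (by norm_num)
  simp only [Real.rpow_one] at hint
  rw [show ((2 : ℝ) - 1) / (6 - 1) = 1 / 5 by norm_num, show ((6 : ℝ) - 2) / (6 - 1) = 4 / 5 by norm_num] at hint
  have em : c.Mt = ∫ y in Metric.ball (0 : E) (c.R + 3 * c.δ), nm V y ^ (2 : ℝ) := by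
    unfold Mt
    congr 1; funext y
    rw [← nm_sq V y, show (2 : ℝ) = ((2 : ℕ) : ℝ) by norm_num, Real.rpow_natCast]
  rw [em]
  refine hint.trans ?_
  have j0 : 0 ≤ ∫ x in Metric.ball (0 : E) (c.R + 3 * c.δ), nm V x :=
    setInt_nonneg measurableSet_ball fun _ => nm_nonneg _ _
  rw [mul_comm]
  exact mul_le_mul (Real.rpow_le_rpow j0 (hAi _) (by norm_num))
    (Real.rpow_le_rpow J0 h6 (by norm_num)) (Real.rpow_nonneg J0 _) (by positivity)

/-- square root of the volume of the shell -/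
def vs (c : CfgU V C0 Cw) : ℝ := ((volume : Measure E).real (Sh c.r (c.r + c.η))) ^ (1 / 2 : ℝ)

theorem vs_nonneg (c : CfgU V C0 Cw) : 0 ≤ c.vs := by unfold vs; positivity

theorem bqvs (cV : ∀ i, Continuous (V i)) (hi : Integrable (nm V)) : BQ V C0 Cw (fun c => c.vs) (-(1 / 8)) := by
  have h8 := v8_pos
  have h := ((bqr (V := V) (C0 := C0) (Cw := Cw)).mul one_le_Q Y_one ((toQ cV hi bbη).rpow one_le_Q Y_one (θ := 1 / 2)
    (by norm_num))).const_mul one_le_Q Y_one (c := v8 ^ (1 / 2 : ℝ)) (by positivity)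
  rw [show (0 : ℝ) + -(1 / 4) * (1 / 2) = -(1 / 8) by norm_num] at h
  refine h.le (fun c => ?_) (fun c => c.vs_nonneg)
  have hr := c.r_pos
  have hη := c.hη0
  have h := vol_shell hη (r := c.r) (by linarith [c.η_le_r])
  unfold vs
  calc _ ≤ (v8 * c.r ^ 2 * c.η) ^ (1 / 2 : ℝ) := Real.rpow_le_rpow (by positivity) h (by norm_num)
    _ = (v8 * (c.r ^ 2 * c.η)) ^ (1 / 2 : ℝ) := by ring_nf
    _ = _ := by
      rw [Real.mul_rpow h8.le (by positivity), Real.mul_rpow (by positivity) hη.le, rpow_half_sq hr.le]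

/-- bound for the far part -/
def F0 (c : CfgU V C0 Cw) : ℝ := c.δ⁻¹ ^ 2 * At V + (Riesz.vb * c.lam + At V)

theorem F0_nonneg (c : CfgU V C0 Cw) : 0 ≤ c.F0 := by
  have := At_pos V
  have := Riesz.vb_pos
  have := c.lam_nonneg
  unfold F0; positivity

theorem bqF0 : BQ V C0 Cw (fun c => c.F0) 0 := by
  have hA := At_pos V
  have hb := Riesz.vb_pos
  have b1 := (bqδi (V := V) (C0 := C0) (Cw := Cw) (e := 2) (by norm_num)).const_mul one_le_Q Y_one hA.le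
  have b2 := (bqlam (V := V) (C0 := C0) (Cw := Cw) (e := 1) (by norm_num)).const_mul one_le_Q Y_one hb.le
  have b3 := Bd.const (one_le_Q (V := V) (C0 := C0) (Cw := Cw)) Y_one hA.le
  refine (b1.add one_le_Q Y_one (b2.add one_le_Q Y_one b3)).le (fun c => le_of_eq ?_) (fun c => c.F0_nonneg)
  unfold F0
  rw [Real.rpow_one, show (2 : ℝ) = ((2 : ℕ) : ℝ) by norm_num, Real.rpow_natCast]
  ring

/-- pointwise bound of the vector potential on the shell -/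
theorem psi_bound (cV : ∀ i, Continuous (V i)) (hi : Integrable (nm V)) (hC0 : 0 < C0) (c : CfgU V C0 Cw)
    {y : E} (hy : y ∈ Sh c.r (c.r + c.η)) : nm c.Ψ y ≤ C0 * (Pn V c.η y + c.PP y + c.F0) := by
  have h := c.hΨb y
  rw [(riesz_split_one cV hi c.hη0 y).2] at h
  have hη := c.hη0
  have hδ := c.hδ
  have h16 := c.δ_lt
  have hy' : y ∈ Sh c.R (c.R + 2 * c.δ) := Sh_subset c.hr1 (by linarith [c.hr2]) hy
  have h2 := Pf_le_bs cV hi (R := c.R) (δ := c.δ) hη (by linarith) c.lam_nonneg hy'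
  have h3 : c.δ⁻¹ ^ 2 * (∫ y, nm V y) + (Riesz.vb * c.lam + ∫ y, nm V y) ≤ c.F0 := by
    unfold F0 Cfg1.At
    have : 0 ≤ c.δ⁻¹ ^ 2 := by positivity
    nlinarith
  have h4 : Pf V c.η y ≤ c.PP y + c.F0 := by
    unfold PP; linarith
  calc _ ≤ C0 * (Pn V c.η y + Pf V c.η y) := h
    _ ≤ C0 * (Pn V c.η y + (c.PP y + c.F0)) := by gcongr
    _ = _ := by ring

/-- gradient of the vector potential in the ball -/
def Nn (c : CfgU V C0 Cw) : ℝ := (∫ y in Metric.ball (0 : E) (c.R + 2 * c.δ), gsq c.Ψ y) + 1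

theorem Nn_pos (c : CfgU V C0 Cw) : 0 < c.Nn := by
  have : 0 ≤ ∫ y in Metric.ball (0 : E) (c.R + 2 * c.δ), gsq c.Ψ y :=
    setInt_nonneg measurableSet_ball fun _ => gsq_nonneg _ _
  unfold Nn; linarith

theorem bqNn (hV : ∀ i, ContDiff ℝ 3 (V i)) (hd : ∀ x, dv V x = 0) (hi : Integrable (nm V)) (hC0 : 0 < C0) :
    BQ V C0 Cw (fun c => c.Nn) (3 / 5) := by
  obtain ⟨Cg, hCg, hgrad⟩ := grad_psi
  obtain ⟨Cn, hCn, hnear⟩ := near_ball 2 (by norm_num)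
  have cV : ∀ i, Continuous (V i) := fun i => (hV i).continuous
  have hA := At_pos V
  set vb := (volume : Measure E).real (Metric.ball (0 : E) 1) with hvb
  have hvb0 : 0 ≤ vb := by positivity
  have bfar := ((bqQ3.mul one_le_Q Y_one (bqδi (V := V) (C0 := C0) (Cw := Cw) (e := 3) (by norm_num))).mono
    one_le_Q Y_one (e' := 3 / 5) (by norm_num)).const_mul one_le_Q Y_one
      (c := Cg * (2 * C0 ^ 2 * (64 * (At V ^ 2 * vb)))) (by positivity)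
  have bnear := (bqMt (Cw := Cw) (C0 := C0) hV hd hi).const_mul one_le_Q Y_one
    (c := Cg * (1 + 2 * C0 ^ 2 * Cn ^ 2)) (by positivity)
  have bone := (Bd.const (one_le_Q (V := V) (C0 := C0) (Cw := Cw)) Y_one
    (c := Cg + 1) (by positivity)).mono one_le_Q Y_one (e' := 3 / 5) (by norm_num)
  have ball := (bnear.add one_le_Q Y_one bfar).add one_le_Q Y_one bone
  refine ball.le (fun c => ?_) (fun c => c.Nn_pos.le)
  have hδ := c.hδ
  have hR := c.hR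
  have hδR := c.hδR
  have hΨ1 : ∀ i, ContDiff ℝ 1 (c.Ψ i) := fun i => (c.hΨC i).of_le (by norm_num)
  have cΨ : ∀ i, Continuous (c.Ψ i) := fun i => (hΨ1 i).continuous
  -- gradient estimate
  have g := hgrad V c.Ψ (c.R + 2 * c.δ) (c.δ / 2) c.ε hV c.hΨC c.hΨd (by positivity) (by linarith) c.hε
    (fun x hx => c.hΨe x (by linarith))
  -- first integral
  have hsub : Metric.ball (0 : E) (c.R + 2 * c.δ + c.δ / 2) ⊆ Metric.ball 0 (c.R + 3 * c.δ) :=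
    Metric.ball_subset_ball (by linarith)
  have g1 : ∫ x in Metric.ball (0 : E) (c.R + 2 * c.δ + c.δ / 2), (sq V x + c.ε ^ 2) ≤ c.Mt + 1 := by
    calc _ ≤ ∫ x in Metric.ball (0 : E) (c.R + 3 * c.δ), (sq V x + c.ε ^ 2) :=
          set_mono hsub (ball_sub' _) ((continuous_sq cV).add continuous_const) fun x => by
            have := sq_nonneg' V x; positivity
      _ = c.Mt + c.ε ^ 2 * (volume : Measure E).real (Metric.ball 0 (c.R + 3 * c.δ)) := by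
          rw [integral_add (cont_int_on (ball_sub' _) (continuous_sq cV)) (cont_int_on (ball_sub' _) continuous_const)]
          simp only [integral_const, smul_eq_mul, Measure.real, Measure.restrict_apply_univ]
          unfold Mt
          ring
      _ ≤ _ := by linarith [c.hvol]
  -- second integral
  have hρ : 0 < c.δ / 2 := by positivity
  have cP := continuous_Pn cV hρ
  set F := (c.δ / 2)⁻¹ ^ 2 * At V with hF
  have hF0 : 0 ≤ F := by positivity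
  have hpt : ∀ y, sq c.Ψ y ≤ 2 * C0 ^ 2 * (Pn V (c.δ / 2) y ^ 2 + F ^ 2) := by
    intro y
    have h := c.hΨb y
    rw [(riesz_split_one cV hi hρ y).2] at h
    have h2 : Pf V (c.δ / 2) y ≤ F := by
      refine (far_sup_one cV hi hρ y).trans ?_
      rw [hF]
      apply mul_le_mul_of_nonneg_left _ (by positivity)
      unfold Cfg1.At; linarith
    have hP0 := Pn_nonneg V (c.δ / 2) y
    have h3 : nm c.Ψ y ≤ C0 * (Pn V (c.δ / 2) y + F) := by
      calc _ ≤ C0 * (Pn V (c.δ / 2) y + Pf V (c.δ / 2) y) := h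
        _ ≤ _ := by gcongr
    rw [← nm_sq]
    calc nm c.Ψ y ^ 2 ≤ (C0 * (Pn V (c.δ / 2) y + F)) ^ 2 := by
          have := nm_nonneg c.Ψ y
          gcongr
      _ ≤ _ := by nlinarith [mul_nonneg (sq_nonneg C0) (sq_nonneg (Pn V (c.δ / 2) y - F))]
  have g2 : ∫ x in Metric.ball (0 : E) (c.R + 2 * c.δ + c.δ / 2), sq c.Ψ x
      ≤ 2 * C0 ^ 2 * ((Cn * (c.δ / 2)) ^ 2 * c.Mt + F ^ 2 * ((c.R + 3 * c.δ) ^ 3 * vb)) := by
    have k1 : ∫ x in Metric.ball (0 : E) (c.R + 2 * c.δ + c.δ / 2), sq c.Ψ x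
        ≤ ∫ x in Metric.ball (0 : E) (c.R + 2 * c.δ + c.δ / 2), 2 * C0 ^ 2 * (Pn V (c.δ / 2) x ^ 2 + F ^ 2) := by
      apply setIntegral_mono_on (cont_int_on (ball_sub' _) (continuous_sq cΨ)) _ measurableSet_ball
      · intro x _; exact hpt x
      · exact cont_int_on (ball_sub' _) (by fun_prop)
    refine k1.trans ?_
    rw [integral_const_mul, integral_add (cont_int_on (ball_sub' _) (by fun_prop)) (cont_int_on (ball_sub' _) continuous_const)]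
    have k2 := hnear V (c.R + 2 * c.δ + c.δ / 2) (c.δ / 2) cV hρ
    rw [show c.R + 2 * c.δ + c.δ / 2 + c.δ / 2 = c.R + 3 * c.δ by ring] at k2
    simp only [nm_sq] at k2
    have k3 : ∫ _ in Metric.ball (0 : E) (c.R + 2 * c.δ + c.δ / 2), F ^ 2 ≤ F ^ 2 * ((c.R + 3 * c.δ) ^ 3 * vb) := by
      calc _ ≤ ∫ _ in Metric.ball (0 : E) (c.R + 3 * c.δ), F ^ 2 :=
            set_mono hsub (ball_sub' _) continuous_const fun x => by positivity
        _ = _ := by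
            simp only [integral_const, smul_eq_mul, Measure.real, Measure.restrict_apply_univ]
            rw [← Measure.real, vol_ball (by linarith)]
            ring
    have : 0 ≤ 2 * C0 ^ 2 := by positivity
    exact mul_le_mul_of_nonneg_left (add_le_add k2 k3) this
  -- assembling
  have hδi := inv_pos.2 hδ
  have hδ' : c.δ ≠ 0 := hδ.ne'
  have e3' : c.δ⁻¹ ^ (3 : ℝ) = c.δ⁻¹ ^ 3 := by
    rw [show (3 : ℝ) = ((3 : ℕ) : ℝ) by norm_num, Real.rpow_natCast]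
  have eF : (c.δ / 2)⁻¹ ^ 2 * (F ^ 2 * ((c.R + 3 * c.δ) ^ 3 * vb)) =
      64 * (At V ^ 2 * vb) * (((c.R + 3 * c.δ) / c.δ) ^ 3 * c.δ⁻¹ ^ (3 : ℝ)) := by
    rw [hF, e3', inv_div, div_pow, div_pow, inv_pow]
    field_simp
    ring
  have eN : (c.δ / 2)⁻¹ ^ 2 * ((Cn * (c.δ / 2)) ^ 2 * c.Mt) = Cn ^ 2 * c.Mt := by
    field_simp
  unfold Nn
  have hδ2 : 0 ≤ (c.δ / 2)⁻¹ ^ 2 := by positivity
  have g3 := mul_le_mul_of_nonneg_left g2 hδ2
  have g4 : (c.δ / 2)⁻¹ ^ 2 * (2 * C0 ^ 2 * ((Cn * (c.δ / 2)) ^ 2 * c.Mt + F ^ 2 * ((c.R + 3 * c.δ) ^ 3 * vb)))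
      = 2 * C0 ^ 2 * (Cn ^ 2 * c.Mt + 64 * (At V ^ 2 * vb) * (((c.R + 3 * c.δ) / c.δ) ^ 3 * c.δ⁻¹ ^ (3 : ℝ))) := by
    rw [← eF, ← eN]; ring
  rw [g4] at g3
  have g5 := g.trans (mul_le_mul_of_nonneg_left (add_le_add g1 g3) hCg.le)
  refine (add_le_add g5 le_rfl).trans (le_of_eq ?_)
  ring

/-- gradient of the vector potential on the shell -/
def Ns (c : CfgU V C0 Cw) : ℝ := ∫ y in Sh c.r (c.r + c.η), gsq c.Ψ y

theorem Ns_nonneg (c : CfgU V C0 Cw) : 0 ≤ c.Ns := setInt_nonneg (measurableSet_Sh _ _) fun _ => gsq_nonneg _ _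

theorem bqNs (cV : ∀ i, Continuous (V i)) (hi : Integrable (nm V)) (h : BQ V C0 Cw (fun c => c.Nn) (3 / 5)) :
    BQ V C0 Cw (fun c => c.Ns) (7 / 20) := by
  have := ((toQ cV hi bbx).mul one_le_Q Y_one h).const_mul one_le_Q Y_one (c := 6) (by norm_num)
  rw [show (-(1 / 4) : ℝ) + 3 / 5 = 7 / 20 by norm_num] at this
  refine this.le (fun c => ?_) (fun c => c.Ns_nonneg)
  have := c.hN
  unfold Ns Nn
  linarith

end CfgU

end Leray
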