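import Pool.Agent.Lib.MP_9b9638_an.OsgA

/-!
# The endpoint `p = 1` up to a logarithm: choice of the height and of `θ`

Proof: `Y = 1 + f (R + 4 δ)`, `ε = min 1 ((1 - κ) / (4 K))`, `lam = Y ^ ε`, `θ = Y ^ (-ε)`,
`K' = K + 2`, `κ' = max ((1 + κ) / 2) (1 - ε)` (or `(1 + κ)/2` if this is larger), `C' = 1 + 2 C`. On the shell
`max (v y - lam) 0 ≤ v y * Φ (log (2 + v y)) * (Φ (ε * log Y))⁻¹`, since `v y > lam` implies
`log (2 + v y) ≥ log (v y) ≥ ε * log Y`.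
-/

open MeasureTheory Set Filter Topology

noncomputable section

namespace Leray

private theorem e1_int {v : E → ℝ} (hv : Continuous v) (v0 : ∀ y, 0 ≤ v y)
    {Φ : ℝ → ℝ} (hΦ : Monotone Φ) (hΦ1 : ∀ s, 1 ≤ Φ s)
    (hint : Integrable fun y => v y * Φ (Real.log (2 + v y))) {Y ε : ℝ} (hY : 1 ≤ Y) (a b : ℝ) :
    ∫ y in Sh a b, max (v y - Y ^ ε) 0 ≤
      (∫ y in Sh a b, v y * Φ (Real.log (2 + v y))) * (Φ (ε * Real.log Y))⁻¹ := by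
  have hY0 : 0 < Y := by linarith
  rw [← integral_mul_const]
  refine setIntegral_mono_on (((hv.sub continuous_const).max
    continuous_const).continuousOn.integrableOn_compact (isCompact_Sh _ _))
    (hint.integrableOn.mul_const _) (measurableSet_Sh _ _) fun y _ => ?_
  have hP : 0 < Φ (ε * Real.log Y) := lt_of_lt_of_le one_pos (hΦ1 _)
  have hQ : 0 < Φ (Real.log (2 + v y)) := lt_of_lt_of_le one_pos (hΦ1 _)
  rcases le_total (v y) (Y ^ ε) with h | h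
  · rw [max_eq_right (by linarith)]
    have := v0 y
    positivity
  · have hl : 0 < Y ^ ε := Real.rpow_pos_of_pos hY0 _
    rw [max_eq_left (by linarith)]
    have h1 : ε * Real.log Y ≤ Real.log (2 + v y) := by
      rw [← Real.log_rpow hY0]
      exact Real.log_le_log hl (by linarith)
    have h2 : 1 ≤ Φ (Real.log (2 + v y)) * (Φ (ε * Real.log Y))⁻¹ := by
      rw [← div_eq_mul_inv, le_div_iff₀ hP, one_mul]
      exact hΦ h1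
    rw [mul_assoc]
    nlinarith [mul_le_mul_of_nonneg_left h2 (v0 y)]

theorem step_Phi {f : ℝ → ℝ} (hf0 : ∀ r, 0 ≤ f r) {v : E → ℝ} (hv : Continuous v) (v0 : ∀ y, 0 ≤ v y)
    {Φ : ℝ → ℝ} (hΦ : Monotone Φ) (hΦ1 : ∀ s, 1 ≤ Φ s)
    (hint : Integrable fun y => v y * Φ (Real.log (2 + v y))) {C K κ : ℝ} (hC : 0 < C) (hK : 0 < K)
    (hκ0 : 0 < κ) (hκ : κ < 1)
    (h : ∀ R δ θ lam : ℝ, 1 ≤ R → 0 < δ → δ ≤ R → 0 < θ → θ ≤ 1 → 1 ≤ lam →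
      f R ≤ C * ((R * (R / δ) * θ⁻¹ * lam) ^ K * (1 + f (R + 4 * δ)) ^ κ
        + ((∫ y in Sh (R - δ) (R + 4 * δ), max (v y - lam) 0) + θ) * δ⁻¹ ^ 2 * (1 + f (R + 4 * δ)))) :
    ∃ C' K' κ' ε : ℝ, 0 < C' ∧ 0 < K' ∧ 0 < κ' ∧ κ' < 1 ∧ 0 < ε ∧ ε ≤ 1 ∧
      ∀ R δ : ℝ, 1 ≤ R → 0 < δ → δ ≤ R →
        1 + f R ≤ C' * ((R ^ 2 / δ) ^ K' * (1 + f (R + 4 * δ)) ^ κ'
          + (∫ y in Sh (R - δ) (R + 4 * δ), v y * Φ (Real.log (2 + v y))) *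
            (Φ (ε * Real.log (1 + f (R + 4 * δ))))⁻¹ * δ⁻¹ ^ 2 * (1 + f (R + 4 * δ))) := by
  obtain ⟨ε, hε⟩ : ∃ ε, ε = min 1 ((1 - κ) / (4 * K)) := ⟨_, rfl⟩
  have hε0 : 0 < ε := by
    rw [hε]; exact lt_min one_pos (div_pos (by linarith) (by linarith))
  have hε1 : ε ≤ 1 := by rw [hε]; exact min_le_left _ _
  have hεK : 2 * ε * K + κ ≤ (1 + κ) / 2 := by
    have h1 : ε ≤ (1 - κ) / (4 * K) := by rw [hε]; exact min_le_right _ _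
    rw [le_div_iff₀ (by linarith)] at h1
    linarith
  obtain ⟨κ', hκ'⟩ : ∃ κ', κ' = max ((1 + κ) / 2) (1 - ε) := ⟨_, rfl⟩
  have hk1 : (1 + κ) / 2 ≤ κ' := by rw [hκ']; exact le_max_left _ _
  have hk2 : 1 - ε ≤ κ' := by rw [hκ']; exact le_max_right _ _
  have hk3 : κ' < 1 := by rw [hκ']; exact max_lt (by linarith) (by linarith)
  refine ⟨1 + 2 * C, K + 2, κ', ε, by positivity, by positivity, by linarith, hk3, hε0, hε1, ?_⟩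
  intro R δ hR hδ hδR
  obtain ⟨Y, hYd⟩ : ∃ Y, Y = 1 + f (R + 4 * δ) := ⟨_, rfl⟩
  have hY : 1 ≤ Y := by rw [hYd]; linarith [hf0 (R + 4 * δ)]
  have hY0 : 0 < Y := by linarith
  obtain ⟨b, hb⟩ : ∃ b, b = R ^ 2 / δ := ⟨_, rfl⟩
  have hR0 : 0 < R := by linarith
  have hb0 : R * (R / δ) = b := by rw [hb]; ring
  have hb2 : δ⁻¹ ≤ b := by
    rw [hb, div_eq_mul_inv]
    have : 1 ≤ R ^ 2 := one_le_pow₀ hR
    nlinarith [inv_pos.2 hδ]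
  have hb1 : 1 ≤ b := by
    rw [hb, le_div_iff₀ hδ, one_mul]
    nlinarith
  have hb00 : 0 < b := by linarith
  have hm := h R δ (Y ^ (-ε)) (Y ^ ε) hR hδ hδR (Real.rpow_pos_of_pos hY0 _)
    (Real.rpow_le_one_of_one_le_of_nonpos hY (by linarith)) (Real.one_le_rpow hY hε0.le)
  rw [← hYd, hb0] at hm
  rw [← hYd, ← hb]
  have hint' := e1_int hv v0 hΦ hΦ1 hint (Y := Y) (ε := ε) hY (R - δ) (R + 4 * δ)
  -- first term
  have t1 : (b * (Y ^ (-ε))⁻¹ * Y ^ ε) ^ K * Y ^ κ ≤ b ^ (K + 2) * Y ^ κ' := by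
    have e1 : b * (Y ^ (-ε))⁻¹ * Y ^ ε = b * Y ^ (2 * ε) := by
      rw [Real.rpow_neg hY0.le, inv_inv, mul_assoc, ← Real.rpow_add hY0, two_mul]
    rw [e1, Real.mul_rpow hb00.le (Real.rpow_nonneg hY0.le _), ← Real.rpow_mul hY0.le, mul_assoc,
      ← Real.rpow_add hY0]
    refine mul_le_mul (Real.rpow_le_rpow_of_exponent_le hb1 (by linarith))
      (Real.rpow_le_rpow_of_exponent_le hY (by linarith)) (Real.rpow_nonneg hY0.le _)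
      (Real.rpow_nonneg hb00.le _)
  -- third term
  have t3 : Y ^ (-ε) * δ⁻¹ ^ 2 * Y ≤ b ^ (K + 2) * Y ^ κ' := by
    have e1 : Y ^ (-ε) * δ⁻¹ ^ 2 * Y = δ⁻¹ ^ 2 * Y ^ (1 - ε) := by
      have : Y ^ (1 - ε) = Y * Y ^ (-ε) := by
        rw [sub_eq_add_neg, Real.rpow_add hY0, Real.rpow_one]
      rw [this]; ring
    rw [e1]
    refine mul_le_mul ?_ (Real.rpow_le_rpow_of_exponent_le hY hk2) (Real.rpow_nonneg hY0.le _)
      (Real.rpow_nonneg hb00.le _)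
    calc δ⁻¹ ^ 2 ≤ b ^ 2 := pow_le_pow_left₀ (inv_nonneg.2 hδ.le) hb2 2
      _ = b ^ (2 : ℝ) := (Real.rpow_two b).symm
      _ ≤ b ^ (K + 2) := Real.rpow_le_rpow_of_exponent_le hb1 (by linarith)
  have t0 : 1 ≤ b ^ (K + 2) * Y ^ κ' := by
    have a1 : 1 ≤ b ^ (K + 2) := Real.one_le_rpow hb1 (by linarith)
    have a2 : 1 ≤ Y ^ κ' := Real.one_le_rpow hY (by linarith)
    nlinarith
  obtain ⟨A, hA⟩ : ∃ A, A = b ^ (K + 2) * Y ^ κ' := ⟨_, rfl⟩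
  obtain ⟨J, hJ⟩ : ∃ J, J = (∫ y in Sh (R - δ) (R + 4 * δ), v y * Φ (Real.log (2 + v y))) *
    (Φ (ε * Real.log Y))⁻¹ := ⟨_, rfl⟩
  obtain ⟨I, hI⟩ : ∃ I, I = ∫ y in Sh (R - δ) (R + 4 * δ), max (v y - Y ^ ε) 0 := ⟨_, rfl⟩
  have hJ0 : 0 ≤ J := by
    rw [hJ]
    refine mul_nonneg (setIntegral_nonneg (measurableSet_Sh _ _) fun y _ => ?_)
      (inv_nonneg.2 (zero_le_one.trans (hΦ1 _)))
    exact mul_nonneg (v0 y) (zero_le_one.trans (hΦ1 _))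
  rw [← hA] at t0 t1 t3
  rw [← hJ, ← hI] at hint'
  rw [← hI] at hm
  rw [← hA, ← hJ]
  have hdY : 0 ≤ δ⁻¹ ^ 2 * Y := by positivity
  have s1 : (I + Y ^ (-ε)) * δ⁻¹ ^ 2 * Y ≤ J * δ⁻¹ ^ 2 * Y + A := by
    have : (I + Y ^ (-ε)) * δ⁻¹ ^ 2 * Y = I * (δ⁻¹ ^ 2 * Y) + Y ^ (-ε) * δ⁻¹ ^ 2 * Y := by ring
    rw [this, mul_assoc J]
    exact add_le_add (mul_le_mul_of_nonneg_right hint' hdY) t3
  have s2 : f R ≤ C * (A + (J * δ⁻¹ ^ 2 * Y + A)) :=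
    hm.trans (mul_le_mul_of_nonneg_left (add_le_add t1 s1) hC.le)
  have s3 : 0 ≤ J * δ⁻¹ ^ 2 * Y := by rw [mul_assoc]; exact mul_nonneg hJ0 hdY
  nlinarith [mul_nonneg hC.le s3]

end Leray
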