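import Pool.Agent.Lib.MP_9b9638_an.OsgA

/-!
# The endpoint `p = 1` up to a logarithm: continuity of ball integrals

Proof: dominated convergence for the indicators of the balls; spheres have measure zero
(`Measure.addHaar_sphere`), outside the sphere the indicators converge. `int_Sh`: `Sh a b` is, up to a null set,
`closedBall b` minus `ball a`.
-/

open MeasureTheory Set Filter Topology

noncomputable section

namespace Leray

private theorem osgW_sphere (r : ℝ) : volume (Metric.sphere (0 : E) r) = 0 :=
  Measure.addHaar_sphere volume (0 : E) r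

private theorem osgW_cont_pt {g : E → ℝ} {x : E} {R0 : ℝ} (hx : ‖x‖ ≠ R0) :
    ContinuousAt (fun R : ℝ => (Metric.ball (0 : E) R).indicator g x) R0 := by
  rcases lt_or_gt_of_ne hx with h | h
  · refine ContinuousAt.congr (f := fun _ : ℝ => g x) continuousAt_const ?_
    filter_upwards [lt_mem_nhds h] with R hR
    rw [Set.indicator_of_mem]
    simpa using hR
  · refine ContinuousAt.congr (f := fun _ : ℝ => (0 : ℝ)) continuousAt_const ?_
    filter_upwards [gt_mem_nhds h] with R hR
    rw [Set.indicator_of_notMem]
    simpa using hR.le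

theorem continuous_ball_int {g : E → ℝ} (hg : ∀ R : ℝ, IntegrableOn g (Metric.ball (0 : E) R)) :
    Continuous fun R : ℝ => ∫ x in Metric.ball (0 : E) R, g x := by
  have e : (fun R : ℝ => ∫ x in Metric.ball (0 : E) R, g x) =
      fun R : ℝ => ∫ x, (Metric.ball (0 : E) R).indicator g x := by
    funext R
    rw [integral_indicator Metric.isOpen_ball.measurableSet]
  rw [e, continuous_iff_continuousAt]
  intro R0
  refine continuousAt_of_dominated (bound := fun x => ‖(Metric.ball (0 : E) (R0 + 1)).indicator g x‖) ?_ ?_ ?_ ?_
  · refine Eventually.of_forall fun R => ?_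
    exact ((integrable_indicator_iff Metric.isOpen_ball.measurableSet).2 (hg R)).aestronglyMeasurable
  · filter_upwards [gt_mem_nhds (show R0 < R0 + 1 by linarith)] with R hR
    refine Eventually.of_forall fun x => ?_
    by_cases hx : x ∈ Metric.ball (0 : E) R
    · have hx' : x ∈ Metric.ball (0 : E) (R0 + 1) := Metric.ball_subset_ball hR.le hx
      rw [Set.indicator_of_mem hx, Set.indicator_of_mem hx']
    · rw [Set.indicator_of_notMem hx, norm_zero]
      exact norm_nonneg _
  · exact ((integrable_indicator_iff Metric.isOpen_ball.measurableSet).2 (hg (R0 + 1))).norm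
  · have h0 : ∀ᵐ x : E, x ∉ Metric.sphere (0 : E) R0 := measure_eq_zero_iff_ae_notMem.1 (osgW_sphere R0)
    filter_upwards [h0] with x hx
    exact osgW_cont_pt fun h => hx (by simpa using h)

theorem int_Sh {g : E → ℝ} (hg : ∀ R : ℝ, IntegrableOn g (Metric.ball (0 : E) R)) {a b : ℝ} (hab : a ≤ b) :
    ∫ x in Sh a b, g x = (∫ x in Metric.ball (0 : E) b, g x) - ∫ x in Metric.ball (0 : E) a, g x := by
  have hS : Sh a b = Metric.closedBall (0 : E) b \ Metric.ball (0 : E) a := by
    ext x
    simp [Sh, and_comm]
  have hsub : Metric.ball (0 : E) a ⊆ Metric.closedBall (0 : E) b :=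
    (Metric.ball_subset_ball hab).trans Metric.ball_subset_closedBall
  have hcb : IntegrableOn g (Metric.closedBall (0 : E) b) :=
    (hg (b + 1)).mono_set (Metric.closedBall_subset_ball (by linarith))
  have hae : (Metric.closedBall (0 : E) b : Set E) =ᵐ[volume] Metric.ball (0 : E) b := by
    have h0 : ∀ᵐ x : E, x ∉ Metric.sphere (0 : E) b := measure_eq_zero_iff_ae_notMem.1 (osgW_sphere b)
    filter_upwards [h0] with x hx
    refine propext ?_
    show x ∈ Metric.closedBall (0 : E) b ↔ x ∈ Metric.ball (0 : E) b
    rw [Metric.mem_closedBall, Metric.mem_ball]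
    constructor
    · intro h
      exact lt_of_le_of_ne h fun h' => hx (Metric.mem_sphere.2 h')
    · exact fun h => h.le
  rw [hS, setIntegral_sdiff Metric.isOpen_ball.measurableSet hcb hsub, setIntegral_congr_set hae]

theorem tendsto_ball_int {g : E → ℝ} (hg : Integrable g) :
    Tendsto (fun R : ℝ => ∫ x in Metric.ball (0 : E) R, g x) atTop (𝓝 (∫ x, g x)) :=
  (aecover_ball tendsto_id).integral_tendsto_of_countably_generated hg

end Leray
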