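import Pool.Agent.Lib.MP_9b9638_an.OsgL
import Pool.Agent.Lib.MP_9b9638_an.OsgW

/-!
# The endpoint `p = 1` up to a logarithm: adaptive iteration
-/

open MeasureTheory Set Filter Topology

noncomputable section

namespace Leray

/-- Cauchy-Schwarz for two terms -/
private theorem sqrt_add_le {A B S T : ℝ} (hA : 0 ≤ A) (hB : 0 ≤ B) (hS : 0 ≤ S) (hT : 0 ≤ T) :
    √(A * S) + √(B * T) ≤ √((A + B) * (S + T)) := by
  apply Real.le_sqrt_of_sq_le
  have h1 : √(A * S) ^ 2 = A * S := Real.sq_sqrt (mul_nonneg hA hS)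
  have h2 : √(B * T) ^ 2 = B * T := Real.sq_sqrt (mul_nonneg hB hT)
  have h3 : √(A * S) * √(B * T) = √(A * T) * √(B * S) := by
    rw [← Real.sqrt_mul (mul_nonneg hA hS), ← Real.sqrt_mul (mul_nonneg hA hT)]
    congr 1; ring
  have h4 : √(A * T) ^ 2 = A * T := Real.sq_sqrt (mul_nonneg hA hT)
  have h5 : √(B * S) ^ 2 = B * S := Real.sq_sqrt (mul_nonneg hB hS)
  nlinarith [sq_nonneg (√(A * T) - √(B * S))]

/-- the basic step -/
private theorem basic {f F Φ : ℝ → ℝ} (hf : Monotone f) (hf0 : ∀ r, 0 ≤ f r) (hF : Monotone F)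
    (hΦ : Monotone Φ) (hΦ1 : ∀ s, 1 ≤ Φ s) {C K κ ε : ℝ} (hC : 0 < C) (hK : 0 < K) (hκ0 : 0 < κ) (hκ : κ < 1)
    (hε : 0 < ε)
    (h : ∀ R δ : ℝ, 1 ≤ R → 0 < δ → δ ≤ R →
        1 + f R ≤ C * ((R ^ 2 / δ) ^ K * (1 + f (R + 4 * δ)) ^ κ
          + (F (R + 4 * δ) - F (R - δ)) *
            (Φ (ε * Real.log (1 + f (R + 4 * δ))))⁻¹ * δ⁻¹ ^ 2 * (1 + f (R + 4 * δ))))
    {ρ a b : ℝ} (hρ : 1 ≤ ρ) (ha : ρ ≤ a) (hab : a ≤ b) (hb : b ≤ 2 * ρ)
    (he : 1 + f b ≤ Real.exp 1 * (1 + f a)) :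
    b - a ≤ 20 * ρ ^ 2 * (2 * C * Real.exp 1) ^ K⁻¹ * (1 + f a) ^ (-((1 - κ) / K))
      + √(50 * C * Real.exp 1 * (F b - F a) * (Φ (ε * Real.log (1 + f a)))⁻¹) := by
  have pa : 0 < 1 + f a := by linarith [hf0 a]
  have pb : 0 < 1 + f b := by linarith [hf0 b]
  have hE : 0 < Real.exp 1 := Real.exp_pos 1
  have hE1 : 1 ≤ Real.exp 1 := by
    have := Real.add_one_le_exp (1 : ℝ); linarith
  have hτ : 0 < (1 - κ) / K := div_pos (by linarith) hK
  have hs0 : 0 ≤ 20 * ρ ^ 2 * (2 * C * Real.exp 1) ^ K⁻¹ * (1 + f a) ^ (-((1 - κ) / K)) := by positivity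
  rcases hab.eq_or_lt with rfl | hlt
  · rw [sub_self]
    exact add_nonneg hs0 (Real.sqrt_nonneg _)
  obtain ⟨δ, hδ⟩ : ∃ δ, δ = (b - a) / 5 := ⟨_, rfl⟩
  have hδ0 : 0 < δ := by rw [hδ]; linarith
  have hb5 : b = a + δ + 4 * δ := by rw [hδ]; ring
  have ha5 : a = a + δ - δ := by ring
  have h0 := h (a + δ) δ (by linarith) hδ0 (by linarith)
  rw [← hb5, ← ha5] at h0
  have hFab : 0 ≤ F b - F a := sub_nonneg.2 (hF hab)
  obtain ⟨w, hw⟩ : ∃ w, w = (Φ (ε * Real.log (1 + f a)))⁻¹ := ⟨_, rfl⟩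
  have hΦa : 0 < Φ (ε * Real.log (1 + f a)) := by linarith [hΦ1 (ε * Real.log (1 + f a))]
  have hw0 : 0 < w := by rw [hw]; positivity
  have hwb : (Φ (ε * Real.log (1 + f b)))⁻¹ ≤ w := by
    rw [hw]
    apply inv_anti₀ hΦa
    apply hΦ
    apply mul_le_mul_of_nonneg_left _ hε.le
    exact Real.log_le_log pa (by linarith [hf hab])
  have hΦb : 0 < (Φ (ε * Real.log (1 + f b)))⁻¹ := by
    have := hΦ1 (ε * Real.log (1 + f b))
    positivity
  have e1 : 1 + f a ≤ 1 + f (a + δ) := by linarith [hf (by linarith : a ≤ a + δ)]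
  have e2 : ((a + δ) ^ 2 / δ) ^ K ≤ (4 * ρ ^ 2 / δ) ^ K := by
    apply Real.rpow_le_rpow (by positivity) _ hK.le
    apply div_le_div_of_nonneg_right _ hδ0.le
    nlinarith
  have e3 : (1 + f b) ^ κ ≤ Real.exp 1 * (1 + f a) ^ κ := by
    calc (1 + f b) ^ κ ≤ (Real.exp 1 * (1 + f a)) ^ κ := Real.rpow_le_rpow pb.le he hκ0.le
      _ = Real.exp 1 ^ κ * (1 + f a) ^ κ := Real.mul_rpow hE.le pa.le
      _ ≤ Real.exp 1 ^ (1 : ℝ) * (1 + f a) ^ κ := by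
          apply mul_le_mul_of_nonneg_right _ (by positivity)
          exact Real.rpow_le_rpow_of_exponent_le hE1 hκ.le
      _ = _ := by rw [Real.rpow_one]
  have e4 : (F b - F a) * (Φ (ε * Real.log (1 + f b)))⁻¹ * δ⁻¹ ^ 2 * (1 + f b)
      ≤ (F b - F a) * w * δ⁻¹ ^ 2 * (Real.exp 1 * (1 + f a)) := by
    gcongr
  have key : 1 + f a ≤ C * ((4 * ρ ^ 2 / δ) ^ K * (Real.exp 1 * (1 + f a) ^ κ)
      + (F b - F a) * w * δ⁻¹ ^ 2 * (Real.exp 1 * (1 + f a))) := by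
    refine e1.trans (h0.trans ?_)
    apply mul_le_mul_of_nonneg_left _ hC.le
    apply add_le_add _ e4
    apply mul_le_mul e2 e3 (by positivity) (by positivity)
  rw [← hw]
  have hba : b - a = 5 * δ := by rw [hδ]; ring
  rw [hba]
  rcases le_total (C * ((F b - F a) * w * δ⁻¹ ^ 2 * (Real.exp 1 * (1 + f a)))) ((1 + f a) / 2) with h2 | h2
  · have h1 : (1 + f a) / 2 ≤ C * ((4 * ρ ^ 2 / δ) ^ K * (Real.exp 1 * (1 + f a) ^ κ)) := by
      rw [mul_add] at key; linarith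
    -- first case
    have h3 : 5 * δ ≤ 20 * ρ ^ 2 * (2 * C * Real.exp 1) ^ K⁻¹ * (1 + f a) ^ (-((1 - κ) / K)) := by
      have h4 : (1 + f a) ^ (1 - κ) ≤ (2 * C * Real.exp 1) * (4 * ρ ^ 2 / δ) ^ K := by
        have p1 : 0 < (1 + f a) ^ κ := by positivity
        have p2 : (1 + f a) ^ (1 - κ) * (1 + f a) ^ κ = 1 + f a := by
          rw [← Real.rpow_add pa]; norm_num
        refine le_of_mul_le_mul_right ?_ p1
        rw [p2]
        linarith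
      have h5 : ((1 + f a) ^ (1 - κ)) ^ K⁻¹ ≤ ((2 * C * Real.exp 1) * (4 * ρ ^ 2 / δ) ^ K) ^ K⁻¹ :=
        Real.rpow_le_rpow (by positivity) h4 (by positivity)
      rw [Real.mul_rpow (by positivity) (by positivity), Real.rpow_rpow_inv (by positivity) hK.ne',
        ← Real.rpow_mul pa.le] at h5
      have h6 : (1 + f a) ^ ((1 - κ) * K⁻¹) * (1 + f a) ^ (-((1 - κ) / K)) = 1 := by
        rw [← Real.rpow_add pa]
        have : (1 - κ) * K⁻¹ + -((1 - κ) / K) = 0 := by rw [div_eq_mul_inv]; ring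
        rw [this, Real.rpow_zero]
      have p3 : 0 < (1 + f a) ^ (-((1 - κ) / K)) := by positivity
      have h7 := mul_le_mul_of_nonneg_right h5 p3.le
      rw [h6] at h7
      have h8 : (2 * C * Real.exp 1) ^ K⁻¹ * (4 * ρ ^ 2 / δ) * (1 + f a) ^ (-((1 - κ) / K)) * (5 * δ)
          = 20 * ρ ^ 2 * (2 * C * Real.exp 1) ^ K⁻¹ * (1 + f a) ^ (-((1 - κ) / K)) := by
        field_simp
        ring
      rw [← h8]
      nlinarith [mul_le_mul_of_nonneg_right h7 (by positivity : 0 ≤ 5 * δ)]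
    linarith [Real.sqrt_nonneg (50 * C * Real.exp 1 * (F b - F a) * w)]
  · have h3 : 5 * δ ≤ √(50 * C * Real.exp 1 * (F b - F a) * w) := by
      apply Real.le_sqrt_of_sq_le
      have h4 : 1 / 2 ≤ C * ((F b - F a) * w * δ⁻¹ ^ 2 * Real.exp 1) := by
        refine le_of_mul_le_mul_right ?_ pa
        linarith
      have h5 := mul_le_mul_of_nonneg_right h4 (by positivity : 0 ≤ 50 * δ ^ 2)
      have h6 : C * ((F b - F a) * w * δ⁻¹ ^ 2 * Real.exp 1) * (50 * δ ^ 2)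
          = 50 * C * Real.exp 1 * (F b - F a) * w := by
        field_simp
      rw [h6] at h5
      linarith
    linarith

/-- the iteration -/
private theorem iterate {f F Φ : ℝ → ℝ} (hfc : Continuous f) (hf0 : ∀ r, 0 ≤ f r)
    (hF : Monotone F)
    (hΦ1 : ∀ s, 1 ≤ Φ s) {τ ε s₀ c ρ : ℝ} (hs₀ : 0 ≤ s₀) (hc : 0 ≤ c)
    (h : ∀ a b : ℝ, ρ ≤ a → a ≤ b → b ≤ 2 * ρ → 1 + f b ≤ Real.exp 1 * (1 + f a) →
      b - a ≤ s₀ * (1 + f a) ^ (-τ) + √(c * (F b - F a) * (Φ (ε * Real.log (1 + f a)))⁻¹)) (n : ℕ) :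
    ∀ a b : ℝ, ρ ≤ a → a ≤ b → b ≤ 2 * ρ → 1 + f b ≤ Real.exp (n + 1) * (1 + f a) →
      b - a ≤ s₀ * (1 + f a) ^ (-τ) * (∑ j ∈ Finset.range (n + 1), Real.exp (-τ * j))
        + √(c * (F b - F a) * ∑ j ∈ Finset.range (n + 1), (Φ (ε * (Real.log (1 + f a) + j)))⁻¹) := by
  induction n with
  | zero =>
    intro a b ha hab hb he
    have := h a b ha hab hb (by simpa using he)
    simpa using this
  | succ n ih =>
    intro a b ha hab hb he
    have pa : 0 < 1 + f a := by linarith [hf0 a]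
    have hw : ∀ s, 0 ≤ (Φ s)⁻¹ := fun s => inv_nonneg.2 (by linarith [hΦ1 s])
    have hFab : 0 ≤ F b - F a := sub_nonneg.2 (hF hab)
    rcases le_total (1 + f b) (Real.exp 1 * (1 + f a)) with h1 | h1
    · refine (h a b ha hab hb h1).trans ?_
      apply add_le_add
      · conv_lhs => rw [← mul_one (s₀ * (1 + f a) ^ (-τ))]
        apply mul_le_mul_of_nonneg_left _ (by positivity)
        rw [Finset.sum_range_succ']
        have : 0 ≤ ∑ k ∈ Finset.range (n + 1), Real.exp (-τ * ((k + 1 : ℕ) : ℝ)) :=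
          Finset.sum_nonneg fun _ _ => (Real.exp_pos _).le
        simpa using this
      · apply Real.sqrt_le_sqrt
        apply mul_le_mul_of_nonneg_left _ (by positivity)
        rw [Finset.sum_range_succ']
        have : 0 ≤ ∑ k ∈ Finset.range (n + 1), (Φ (ε * (Real.log (1 + f a) + ((k + 1 : ℕ) : ℝ))))⁻¹ :=
          Finset.sum_nonneg fun _ _ => hw _
        simpa using this
    · -- intermediate value
      obtain ⟨m, hm, hme⟩ : ∃ m ∈ Icc a b, f m = Real.exp 1 * (1 + f a) - 1 := by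
        have hE1 : 1 ≤ Real.exp 1 := by
          have := Real.add_one_le_exp (1 : ℝ); linarith
        apply intermediate_value_Icc hab hfc.continuousOn
        constructor
        · nlinarith
        · linarith
      have hme' : 1 + f m = Real.exp 1 * (1 + f a) := by rw [hme]; ring
      have s1 := h a m ha hm.1 (hm.2.trans hb) hme'.le
      have s2 := ih m b (ha.trans hm.1) hm.2 hb (by
        rw [hme']
        refine he.trans (le_of_eq ?_)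
        rw [← mul_assoc, ← Real.exp_add]
        push_cast
        ring_nf)
      have hlog : Real.log (1 + f m) = Real.log (1 + f a) + 1 := by
        rw [hme', Real.log_mul (Real.exp_pos _).ne' pa.ne', Real.log_exp]; ring
      have hpow : (1 + f m) ^ (-τ) = Real.exp (-τ) * (1 + f a) ^ (-τ) := by
        rw [hme', Real.mul_rpow (Real.exp_pos _).le pa.le, ← Real.exp_mul]; ring_nf
      rw [hlog, hpow] at s2
      have q1 : s₀ * (1 + f a) ^ (-τ) * (∑ j ∈ Finset.range (n + 1 + 1), Real.exp (-τ * j))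
          = s₀ * (1 + f a) ^ (-τ) + s₀ * (Real.exp (-τ) * (1 + f a) ^ (-τ))
            * (∑ j ∈ Finset.range (n + 1), Real.exp (-τ * j)) := by
        rw [Finset.sum_range_succ']
        have : ∀ k : ℕ, Real.exp (-τ * ((k + 1 : ℕ) : ℝ)) = Real.exp (-τ) * Real.exp (-τ * k) := by
          intro k; rw [← Real.exp_add]; push_cast; ring_nf
        simp only [this, ← Finset.mul_sum]
        simp
        ring
      have q2 : ∑ j ∈ Finset.range (n + 1 + 1), (Φ (ε * (Real.log (1 + f a) + j)))⁻¹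
          = (Φ (ε * Real.log (1 + f a)))⁻¹
            + ∑ j ∈ Finset.range (n + 1), (Φ (ε * (Real.log (1 + f a) + 1 + j)))⁻¹ := by
        rw [Finset.sum_range_succ', add_comm]
        congr 1
        · simp
        · apply Finset.sum_congr rfl
          intro k _
          push_cast
          ring_nf
      have hFm : 0 ≤ F m - F a := sub_nonneg.2 (hF hm.1)
      have hFm' : 0 ≤ F b - F m := sub_nonneg.2 (hF hm.2)
      have q3 := sqrt_add_le (mul_nonneg hc hFm) (mul_nonneg hc hFm') (hw (ε * Real.log (1 + f a)))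
        (Finset.sum_nonneg fun (j : ℕ) (_ : j ∈ Finset.range (n + 1)) =>
          hw (ε * (Real.log (1 + f a) + 1 + j)))
      have q4 : c * (F m - F a) + c * (F b - F m) = c * (F b - F a) := by ring
      rw [q4] at q3
      rw [q1, q2]
      linarith

/-- the geometric series -/
private theorem geom_le {τ : ℝ} (hτ : 0 < τ) (n : ℕ) :
    ∑ j ∈ Finset.range n, Real.exp (-τ * j) ≤ (1 - Real.exp (-τ))⁻¹ := by
  have h0 : 0 ≤ Real.exp (-τ) := (Real.exp_pos _).le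
  have h1 : Real.exp (-τ) < 1 := by
    rw [Real.exp_lt_one_iff]; linarith
  have h2 : ∀ j : ℕ, Real.exp (-τ * j) = Real.exp (-τ) ^ j := by
    intro j; rw [← Real.exp_nat_mul]; ring_nf
  simp only [h2]
  rw [← tsum_geometric_of_lt_one h0 h1]
  exact (summable_geometric_of_lt_one h0 h1).sum_le_tsum _ (fun _ _ => pow_nonneg h0 _)

/-- one dyadic shell -/
private theorem shell {f F Φ : ℝ → ℝ} (hf : Monotone f) (hfc : Continuous f) (hf0 : ∀ r, 0 ≤ f r)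
    (hF : Monotone F) (hΦ : Monotone Φ) (hΦ1 : ∀ s, 1 ≤ Φ s) {C K κ ε : ℝ} (hC : 0 < C) (hK : 0 < K)
    (hκ0 : 0 < κ) (hκ : κ < 1) (hε : 0 < ε) (hε1 : ε ≤ 1)
    (h : ∀ R δ : ℝ, 1 ≤ R → 0 < δ → δ ≤ R →
        1 + f R ≤ C * ((R ^ 2 / δ) ^ K * (1 + f (R + 4 * δ)) ^ κ
          + (F (R + 4 * δ) - F (R - δ)) *
            (Φ (ε * Real.log (1 + f (R + 4 * δ))))⁻¹ * δ⁻¹ ^ 2 * (1 + f (R + 4 * δ))))
    {ρ : ℝ} (hρ : 1 ≤ ρ) :
    ρ ≤ 20 * ρ ^ 2 * (2 * C * Real.exp 1) ^ K⁻¹ * (1 + f ρ) ^ (-((1 - κ) / K))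
        * (1 - Real.exp (-((1 - κ) / K)))⁻¹
      + √(50 * C * Real.exp 1 * (F (2 * ρ) - F ρ) *
          (1 + ε⁻¹ * (Lam Φ (Real.log (1 + f (2 * ρ))) + 1))) := by
  have hτ : 0 < (1 - κ) / K := div_pos (by linarith) hK
  have p1 : 0 < 1 + f ρ := by linarith [hf0 ρ]
  have p2 : 0 < 1 + f (2 * ρ) := by linarith [hf0 (2 * ρ)]
  have hle : 1 + f ρ ≤ 1 + f (2 * ρ) := by linarith [hf (by linarith : ρ ≤ 2 * ρ)]
  have l0 : 0 ≤ Real.log (1 + f ρ) := Real.log_nonneg (by linarith [hf0 ρ])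
  have l1 : Real.log (1 + f ρ) ≤ Real.log (1 + f (2 * ρ)) := Real.log_le_log p1 hle
  have hFF : 0 ≤ F (2 * ρ) - F ρ := sub_nonneg.2 (hF (by linarith))
  obtain ⟨n, hn⟩ : ∃ n : ℕ, n = ⌈Real.log (1 + f (2 * ρ)) - Real.log (1 + f ρ)⌉₊ := ⟨_, rfl⟩
  have n1 : Real.log (1 + f (2 * ρ)) - Real.log (1 + f ρ) ≤ n := hn ▸ Nat.le_ceil _
  have n2 : (n : ℝ) < Real.log (1 + f (2 * ρ)) - Real.log (1 + f ρ) + 1 :=
    hn ▸ Nat.ceil_lt_add_one (by linarith)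
  have hit := iterate hfc hf0 hF hΦ1
    (τ := (1 - κ) / K) (ε := ε) (s₀ := 20 * ρ ^ 2 * (2 * C * Real.exp 1) ^ K⁻¹)
    (c := 50 * C * Real.exp 1) (ρ := ρ) (by positivity) (by positivity)
    (fun a b ha hab hb he => basic hf hf0 hF hΦ hΦ1 hC hK hκ0 hκ hε h hρ ha hab hb he)
    n ρ (2 * ρ) le_rfl (by linarith) le_rfl (by
      have : 1 + f (2 * ρ) = Real.exp (Real.log (1 + f (2 * ρ)) - Real.log (1 + f ρ)) * (1 + f ρ) := by
        rw [Real.exp_sub, Real.exp_log p1, Real.exp_log p2]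
        field_simp
      rw [this]
      apply mul_le_mul_of_nonneg_right _ p1.le
      apply Real.exp_le_exp.2
      linarith)
  have g1 : 2 * ρ - ρ = ρ := by ring
  rw [g1] at hit
  refine hit.trans (add_le_add ?_ ?_)
  · exact mul_le_mul_of_nonneg_left (geom_le hτ (n + 1)) (by positivity)
  · apply Real.sqrt_le_sqrt
    apply mul_le_mul_of_nonneg_left _ (by positivity)
    have s1 := sum_le_Lam hΦ hΦ1 (ε := ε) (a := Real.log (1 + f ρ)) (b := Real.log (1 + f (2 * ρ)) + 1)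
      hε hε1 l0 (n := n + 1) (by push_cast; linarith) (by linarith)
    refine s1.trans ?_
    have s2 := Lam_add hΦ hΦ1 (s := Real.log (1 + f (2 * ρ))) (t := 1) (by linarith) zero_le_one
    have s3 := Lam_le hΦ hΦ1 (s := 1) zero_le_one
    have : 0 < ε⁻¹ := inv_pos.2 hε
    nlinarith

theorem adaptive {f : ℝ → ℝ} (hf : Monotone f) (hfc : Continuous f) (hf0 : ∀ r, 0 ≤ f r)
    {G : E → ℝ} (hG : Integrable G) (G0 : ∀ y, 0 ≤ G y) {Φ : ℝ → ℝ} (hΦ : Monotone Φ) (hΦ1 : ∀ s, 1 ≤ Φ s)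
    {C K κ ε : ℝ} (hC : 0 < C) (hK : 0 < K) (hκ0 : 0 < κ) (hκ : κ < 1) (hε : 0 < ε) (hε1 : ε ≤ 1)
    (h : ∀ R δ : ℝ, 1 ≤ R → 0 < δ → δ ≤ R →
        1 + f R ≤ C * ((R ^ 2 / δ) ^ K * (1 + f (R + 4 * δ)) ^ κ
          + (∫ y in Sh (R - δ) (R + 4 * δ), G y) *
            (Φ (ε * Real.log (1 + f (R + 4 * δ))))⁻¹ * δ⁻¹ ^ 2 * (1 + f (R + 4 * δ))))
    (hpoly : ∀ k : ℝ, ∀ᶠ R in atTop, R ^ k ≤ 1 + f R) :
    Tendsto (fun R : ℝ => Lam Φ (Real.log (1 + f R)) / R ^ 2) atTop atTop := by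
  obtain ⟨F, hFd⟩ : ∃ F : ℝ → ℝ, F = fun R => ∫ y in Metric.ball (0 : E) R, G y := ⟨_, rfl⟩
  have hGl : ∀ R : ℝ, IntegrableOn G (Metric.ball (0 : E) R) := fun R => hG.integrableOn
  have hF : Monotone F := by
    intro a b hab
    rw [hFd]
    exact setIntegral_mono_set (hGl b) (Eventually.of_forall G0)
      (Metric.ball_subset_ball hab).eventuallyLE
  have h' : ∀ R δ : ℝ, 1 ≤ R → 0 < δ → δ ≤ R →
        1 + f R ≤ C * ((R ^ 2 / δ) ^ K * (1 + f (R + 4 * δ)) ^ κ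
          + (F (R + 4 * δ) - F (R - δ)) *
            (Φ (ε * Real.log (1 + f (R + 4 * δ))))⁻¹ * δ⁻¹ ^ 2 * (1 + f (R + 4 * δ))) := by
    intro R δ hR hδ hδR
    have := h R δ hR hδ hδR
    rw [int_Sh hGl (by linarith : R - δ ≤ R + 4 * δ)] at this
    rw [hFd]
    exact this
  have hτ : 0 < (1 - κ) / K := div_pos (by linarith) hK
  obtain ⟨τ, hτd⟩ : ∃ τ, τ = (1 - κ) / K := ⟨_, rfl⟩
  obtain ⟨c₁, hc₁⟩ : ∃ c₁, c₁ = 20 * (2 * C * Real.exp 1) ^ K⁻¹ * (1 - Real.exp (-τ))⁻¹ := ⟨_, rfl⟩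
  have hgeo : 0 < (1 - Real.exp (-τ))⁻¹ := by
    have : Real.exp (-τ) < 1 := by rw [Real.exp_lt_one_iff]; linarith
    exact inv_pos.2 (by linarith)
  have hc₁0 : 0 < c₁ := by rw [hc₁]; positivity
  -- differences tend to zero
  have hdiff : Tendsto (fun ρ : ℝ => F (2 * ρ) - F ρ) atTop (𝓝 0) := by
    have t1 : Tendsto F atTop (𝓝 (∫ x, G x)) := by rw [hFd]; exact tendsto_ball_int hG
    have t2 : Tendsto (fun ρ : ℝ => F (2 * ρ)) atTop (𝓝 (∫ x, G x)) :=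
      t1.comp (tendsto_id.const_mul_atTop (by norm_num : (0 : ℝ) < 2))
    simpa using t2.sub t1
  -- the main claim on shells
  have main : ∀ M : ℝ, 0 ≤ M → ∀ᶠ ρ : ℝ in atTop,
      M ≤ Lam Φ (Real.log (1 + f (2 * ρ))) / (2 * ρ) ^ 2 := by
    intro M hM
    obtain ⟨η, hη⟩ : ∃ η, η = (50 * C * Real.exp 1 * (16 * (ε⁻¹ * M + 1)))⁻¹ := ⟨_, rfl⟩
    have hεi : 0 < ε⁻¹ := inv_pos.2 hε
    have hη0 : 0 < η := by rw [hη]; positivity
    filter_upwards [hpoly (2 / τ), eventually_ge_atTop (2 * c₁), eventually_ge_atTop (1 : ℝ),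
      hdiff.eventually (gt_mem_nhds hη0), eventually_ge_atTop (1 + ε⁻¹)] with ρ r1 r2 r3 r4 r5
    have hsh := shell hf hfc hf0 hF hΦ hΦ1 hC hK hκ0 hκ hε hε1 h' r3
    rw [← hτd] at hsh hτ
    have p1 : 0 < 1 + f ρ := by linarith [hf0 ρ]
    have ρ0 : 0 < ρ := by linarith
    have k1 : ρ ^ 2 * (1 + f ρ) ^ (-τ) ≤ 1 := by
      have a1 : (ρ ^ (2 / τ)) ^ τ ≤ (1 + f ρ) ^ τ := Real.rpow_le_rpow (by positivity) r1 hτ.le
      have a2 : (ρ ^ (2 / τ)) ^ τ = ρ ^ 2 := by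
        rw [← Real.rpow_mul ρ0.le, div_mul_cancel₀ _ hτ.ne']
        norm_num
      rw [a2] at a1
      rw [Real.rpow_neg p1.le, ← div_eq_mul_inv, div_le_one (by positivity)]
      exact a1
    have k2 : 20 * ρ ^ 2 * (2 * C * Real.exp 1) ^ K⁻¹ * (1 + f ρ) ^ (-τ) * (1 - Real.exp (-τ))⁻¹ ≤ c₁ := by
      have : 20 * ρ ^ 2 * (2 * C * Real.exp 1) ^ K⁻¹ * (1 + f ρ) ^ (-τ) * (1 - Real.exp (-τ))⁻¹
          = c₁ * (ρ ^ 2 * (1 + f ρ) ^ (-τ)) := by rw [hc₁]; ring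
      rw [this]
      exact mul_le_of_le_one_right hc₁0.le k1
    have k3 : ρ / 2 ≤ √(50 * C * Real.exp 1 * (F (2 * ρ) - F ρ) *
          (1 + ε⁻¹ * (Lam Φ (Real.log (1 + f (2 * ρ))) + 1))) := by linarith
    obtain ⟨L, hL⟩ : ∃ L, L = Lam Φ (Real.log (1 + f (2 * ρ))) := ⟨_, rfl⟩
    have L0 : 0 ≤ L := by
      rw [hL, ← Lam_zero Φ]
      exact Lam_mono hΦ hΦ1 (Real.log_nonneg (by linarith [hf0 (2 * ρ)]))
    rw [← hL] at k3 ⊢
    have hFF : 0 ≤ F (2 * ρ) - F ρ := sub_nonneg.2 (hF (by linarith))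
    have k4 : (ρ / 2) ^ 2 ≤ 50 * C * Real.exp 1 * (F (2 * ρ) - F ρ) * (1 + ε⁻¹ * (L + 1)) := by
      have b1 : (ρ / 2) ^ 2 ≤ (√(50 * C * Real.exp 1 * (F (2 * ρ) - F ρ) * (1 + ε⁻¹ * (L + 1)))) ^ 2 :=
        pow_le_pow_left₀ (by positivity) k3 2
      rwa [Real.sq_sqrt (by positivity)] at b1
    have k5 : 50 * C * Real.exp 1 * (F (2 * ρ) - F ρ) * (1 + ε⁻¹ * (L + 1))
        ≤ 50 * C * Real.exp 1 * η * (1 + ε⁻¹ * (L + 1)) := by
      gcongr
    have k6 : 50 * C * Real.exp 1 * η * (16 * (ε⁻¹ * M + 1)) = 1 := by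
      rw [hη]
      have : 0 < 16 * (ε⁻¹ * M + 1) := by positivity
      field_simp
    have k7 : (2 * ρ) ^ 2 * (ε⁻¹ * M + 1) ≤ 1 + ε⁻¹ * (L + 1) := by
      have d1 := mul_le_mul_of_nonneg_right (k4.trans k5) (by positivity : 0 ≤ 16 * (ε⁻¹ * M + 1))
      have d2 : 50 * C * Real.exp 1 * η * (1 + ε⁻¹ * (L + 1)) * (16 * (ε⁻¹ * M + 1))
          = 1 + ε⁻¹ * (L + 1) := by
        calc _ = (50 * C * Real.exp 1 * η * (16 * (ε⁻¹ * M + 1))) * (1 + ε⁻¹ * (L + 1)) := by ring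
          _ = _ := by rw [k6, one_mul]
      rw [d2] at d1
      have d3 : (ρ / 2) ^ 2 * (16 * (ε⁻¹ * M + 1)) = (2 * ρ) ^ 2 * (ε⁻¹ * M + 1) := by ring
      rw [d3] at d1
      exact d1
    rw [le_div_iff₀ (by positivity)]
    have k8 : 1 + ε⁻¹ ≤ (2 * ρ) ^ 2 := by nlinarith
    have k9 : ε⁻¹ * (M * (2 * ρ) ^ 2) ≤ ε⁻¹ * L := by
      have : (2 * ρ) ^ 2 * (ε⁻¹ * M + 1) = ε⁻¹ * (M * (2 * ρ) ^ 2) + (2 * ρ) ^ 2 := by ring
      rw [this] at k7
      linarith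
    exact le_of_mul_le_mul_left k9 hεi
  refine tendsto_atTop.2 fun M => ?_
  have t := (tendsto_id.const_mul_atTop (by norm_num : (0 : ℝ) < 1 / 2) :
    Tendsto (fun R : ℝ => 1 / 2 * id R) atTop atTop)
  filter_upwards [t.eventually (main (max M 0) (le_max_right _ _))] with R hR
  have : 2 * (1 / 2 * id R) = R := by simp
  rw [this] at hR
  exact (le_max_left _ _).trans hR

end Leray
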