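import Pool.Agent.Lib.MP_9b9638_an.OsgA

/-!
# The endpoint `p = 1` up to a logarithm: the primitive `Λ` of `1/Φ`
-/

open MeasureTheory Set Filter Topology

noncomputable section

namespace Leray

theorem inv_antitone {Φ : ℝ → ℝ} (hm : Monotone Φ) (h1 : ∀ s, 1 ≤ Φ s) : Antitone fun t => (Φ t)⁻¹ := fun x _ h =>
  inv_anti₀ (by linarith [h1 x]) (hm h)

theorem Lam_zero (Φ : ℝ → ℝ) : Lam Φ 0 = 0 := by simp [Lam]

private theorem ii {Φ : ℝ → ℝ} (hm : Monotone Φ) (h1 : ∀ s, 1 ≤ Φ s) (a b : ℝ) :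
    IntervalIntegrable (fun t => (Φ t)⁻¹) volume a b := (inv_antitone hm h1).intervalIntegrable

private theorem inv_nn {Φ : ℝ → ℝ} (h1 : ∀ s, 1 ≤ Φ s) (t : ℝ) : 0 ≤ (Φ t)⁻¹ :=
  inv_nonneg.2 (by linarith [h1 t])

private theorem inv_le1 {Φ : ℝ → ℝ} (h1 : ∀ s, 1 ≤ Φ s) (t : ℝ) : (Φ t)⁻¹ ≤ 1 :=
  inv_le_one_of_one_le₀ (h1 t)

private theorem Lam_sub {Φ : ℝ → ℝ} (hm : Monotone Φ) (h1 : ∀ s, 1 ≤ Φ s) (a b : ℝ) :
    Lam Φ b - Lam Φ a = ∫ t in a..b, (Φ t)⁻¹ := by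
  unfold Lam
  rw [intervalIntegral.integral_interval_sub_left (ii hm h1 _ _) (ii hm h1 _ _)]

theorem Lam_mono {Φ : ℝ → ℝ} (hm : Monotone Φ) (h1 : ∀ s, 1 ≤ Φ s) : Monotone (Lam Φ) := by
  intro a b h
  have := Lam_sub hm h1 a b
  have h2 : 0 ≤ ∫ t in a..b, (Φ t)⁻¹ := intervalIntegral.integral_nonneg h fun t _ => inv_nn h1 t
  linarith

theorem Lam_le {Φ : ℝ → ℝ} (hm : Monotone Φ) (h1 : ∀ s, 1 ≤ Φ s) {s : ℝ} (hs : 0 ≤ s) : Lam Φ s ≤ s := by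
  have h : Lam Φ s ≤ ∫ _ in (0 : ℝ)..s, (1 : ℝ) :=
    intervalIntegral.integral_mono_on hs (ii hm h1 _ _) intervalIntegrable_const fun t _ => inv_le1 h1 t
  simpa using h

theorem Lam_add {Φ : ℝ → ℝ} (hm : Monotone Φ) (h1 : ∀ s, 1 ≤ Φ s) {s t : ℝ} (hs : 0 ≤ s) (ht : 0 ≤ t) :
    Lam Φ (s + t) ≤ Lam Φ s + Lam Φ t := by
  have h := Lam_sub hm h1 s (s + t)
  have h2 : (∫ x in s..(s + t), (Φ x)⁻¹) = ∫ x in (0 : ℝ)..t, (Φ (s + x))⁻¹ := by
    have := intervalIntegral.integral_comp_add_left (fun x => (Φ x)⁻¹) s (a := 0) (b := t)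
    rw [this, add_zero]
  have h3 : (∫ x in (0 : ℝ)..t, (Φ (s + x))⁻¹) ≤ Lam Φ t := by
    unfold Lam
    refine intervalIntegral.integral_mono_on ht ?_ (ii hm h1 _ _) fun x _ => ?_
    · have : Antitone fun x => (Φ (s + x))⁻¹ := fun x y hxy => inv_antitone hm h1 (by linarith)
      exact this.intervalIntegrable
    · exact inv_antitone hm h1 (by linarith)
  linarith

theorem Lam_mul {Φ : ℝ → ℝ} (hm : Monotone Φ) (h1 : ∀ s, 1 ≤ Φ s) {s c : ℝ} (hs : 0 ≤ s) (hc : 1 ≤ c) :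
    Lam Φ (c * s) ≤ c * Lam Φ s := by
  have h0 : (∫ x in (0 : ℝ)..s, (Φ (c * x))⁻¹) = c⁻¹ * Lam Φ (c * s) := by
    have := intervalIntegral.integral_comp_mul_left (fun x => (Φ x)⁻¹) (a := 0) (b := s) (c := c) (by linarith)
    rw [this, mul_zero, smul_eq_mul]; rfl
  have h3 : (∫ x in (0 : ℝ)..s, (Φ (c * x))⁻¹) ≤ Lam Φ s := by
    unfold Lam
    refine intervalIntegral.integral_mono_on hs ?_ (ii hm h1 _ _) fun x hx => ?_
    · have : Antitone fun x => (Φ (c * x))⁻¹ := fun x y hxy => inv_antitone hm h1 (by nlinarith)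
      exact this.intervalIntegrable
    · exact inv_antitone hm h1 (by nlinarith [hx.1])
  rw [h0] at h3
  have hc0 : 0 < c := by linarith
  calc Lam Φ (c * s) = c * (c⁻¹ * Lam Φ (c * s)) := by rw [mul_inv_cancel_left₀ hc0.ne']
    _ ≤ c * Lam Φ s := by gcongr

/-- the sum is at most the first term plus the integral (`AntitoneOn.sum_le_integral`) -/
theorem sum_le_Lam {Φ : ℝ → ℝ} (hm : Monotone Φ) (h1 : ∀ s, 1 ≤ Φ s) {ε a b : ℝ} (hε : 0 < ε) (hε1 : ε ≤ 1)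
    (ha : 0 ≤ a) {n : ℕ} (hn : a + n ≤ b + 1) (hab : a ≤ b) :
    ∑ j ∈ Finset.range n, (Φ (ε * (a + j)))⁻¹ ≤ 1 + ε⁻¹ * Lam Φ b := by
  have hb : 0 ≤ b := ha.trans hab
  have hL : 0 ≤ Lam Φ b := by
    have := Lam_mono hm h1 hb
    rwa [Lam_zero] at this
  cases n with
  | zero => simp only [Finset.range_zero, Finset.sum_empty]; positivity
  | succ n =>
    rw [Finset.sum_range_succ']
    have hanti : Antitone fun x : ℝ => (Φ (ε * (a + x)))⁻¹ := fun x y hxy =>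
      inv_antitone hm h1 (mul_le_mul_of_nonneg_left (by linarith) hε.le)
    have k1 : ∑ j ∈ Finset.range n, (Φ (ε * (a + ((j + 1 : ℕ) : ℝ))))⁻¹ ≤ ∫ x in (0 : ℝ)..n, (Φ (ε * (a + x)))⁻¹ := by
      have := AntitoneOn.sum_le_integral (f := fun x : ℝ => (Φ (ε * (a + x)))⁻¹) (x₀ := 0) (a := n)
        (hanti.antitoneOn _)
      simpa using this
    have k2 : (∫ x in (0 : ℝ)..n, (Φ (ε * (a + x)))⁻¹) = ε⁻¹ * (Lam Φ (ε * (a + n)) - Lam Φ (ε * a)) := by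
      have e1 := intervalIntegral.integral_comp_add_left (fun x => (Φ (ε * x))⁻¹) a (a := 0) (b := (n : ℝ))
      have e2 := intervalIntegral.integral_comp_mul_left (fun x => (Φ x)⁻¹) (a := a) (b := a + n) (c := ε) hε.ne'
      rw [e1, add_zero, e2, smul_eq_mul, Lam_sub hm h1]
    have k3 : Lam Φ (ε * (a + n)) ≤ Lam Φ b := by
      apply Lam_mono hm h1
      push_cast at hn
      nlinarith [mul_le_mul_of_nonneg_right hε1 (show (0:ℝ) ≤ a + n by positivity)]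
    have k4 : 0 ≤ Lam Φ (ε * a) := by
      have := Lam_mono hm h1 (show (0:ℝ) ≤ ε * a by positivity)
      rwa [Lam_zero] at this
    have k5 : ε⁻¹ * (Lam Φ (ε * (a + n)) - Lam Φ (ε * a)) ≤ ε⁻¹ * Lam Φ b :=
      mul_le_mul_of_nonneg_left (by linarith) (inv_nonneg.2 hε.le)
    have k6 := inv_le1 h1 (ε * (a + ((0 : ℕ) : ℝ)))
    linarith

end Leray
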