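import Pool.Agent.Lib.MP_9b9638_an.OsgD
import Pool.Agent.Lib.MP_9b9638_an.OsgE1
import Pool.Agent.Lib.MP_9b9638_an.OsgE2
import Pool.Agent.Lib.MP_9b9638_an.MainQ

/-!
# The endpoint `p = 1` up to a logarithm: the theorem

Proof. As `main_q` (MainQ): smooth representative `U`, `Integrable (nm U)` from `hint` (`Φ ≥ 1`), and
`Integrable fun y => nm U y * Φ (log (2 + nm U y))`. Put `f = W U` (monotone, continuous). If `1 + f R < R ^ k`
frequently for some `k`, `iterate_one` (with `C₀ = 1`) and `eq_zero_of_bounded` contradict `hne`. Otherwise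
`step_bs`, `step_Phi` (`v = nm U`), `adaptive` give `Lam Φ (log (1 + W U R)) / R ^ 2 → ∞`. With `A R` and `p` as in
`main_q`: `W U (R/2) ≤ C₂ A(R)^K₂`, `A R ≤ c R^3 max (D R) 1`, `D R = ∫_{B_R} |U|^q`, so
`log (1 + W U (R/2)) ≤ c + 3 K₂ log R + K₂ log (max (D R) 1)`; by `Lam_mono`, `Lam_add`, `Lam_mul`, `Lam_le`
`Lam Φ (log (max (D R) 1)) ≥ (Lam Φ (log (1 + W U (R/2))) - c - 3 K₂ log R) / max 1 K₂`, so the left side divided by
`R ^ 2` tends to infinity, in particular `D R > 1` for large `R`.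
-/

open MeasureTheory Set Filter Topology TopologicalSpace

noncomputable section

namespace Leray

/-- powers are smaller than `exp (R ^ 2)` -/
private theorem osgq_pow (k : ℝ) : ∀ᶠ R : ℝ in atTop, R ^ k ≤ Real.exp (1 * R ^ 2) := by
  have h1 : Tendsto (fun R : ℝ => Real.log R / R) atTop (𝓝 0) := by
    have := Real.isLittleO_log_id_atTop.tendsto_div_nhds_zero
    exact this
  have h2 : ∀ᶠ R : ℝ in atTop, |k| * (Real.log R / R) < 1 := by
    have h3 : Tendsto (fun R : ℝ => |k| * (Real.log R / R)) atTop (𝓝 (|k| * 0)) := h1.const_mul _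
    rw [mul_zero] at h3
    exact h3.eventually (gt_mem_nhds one_pos)
  filter_upwards [h2, eventually_ge_atTop (1 : ℝ)] with R hR hR1
  have hR0 : 0 < R := by linarith
  have hl : 0 ≤ Real.log R := Real.log_nonneg hR1
  rw [Real.rpow_def_of_pos hR0]
  apply Real.exp_le_exp.2
  have h4 : |k| * Real.log R < R := by
    have : |k| * (Real.log R / R) = |k| * Real.log R / R := by ring
    rw [this, div_lt_one hR0] at hR
    exact hR
  calc Real.log R * k ≤ Real.log R * |k| := mul_le_mul_of_nonneg_left (le_abs_self k) hl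
    _ = |k| * Real.log R := mul_comm _ _
    _ ≤ R := h4.le
    _ ≤ 1 * R ^ 2 := by nlinarith

/-- from the growth of the enstrophy to the growth of the local norm -/
private theorem osgq_trans {Φ : ℝ → ℝ} (hΦ : Monotone Φ) (hΦ1 : ∀ s, 1 ≤ Φ s) {f D : ℝ → ℝ} (hf0 : ∀ r, 0 ≤ f r)
    (hD0 : ∀ r, 0 ≤ D r) {C K c : ℝ} (hC : 0 < C) (hK : 0 < K) (hc : 1 ≤ c)
    (hbd : ∀ R : ℝ, 2 ≤ R → f (R / 2) ≤ C * (c * R ^ 3 * max (D R) 1) ^ K)
    (hT : Tendsto (fun R : ℝ => Lam Φ (Real.log (1 + f R)) / R ^ 2) atTop atTop) :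
    Tendsto (fun R : ℝ => Lam Φ (Real.log (D R)) / R ^ 2) atTop atTop := by
  have _ := hD0
  obtain ⟨m, hm⟩ : ∃ m, m = max 1 K := ⟨_, rfl⟩
  have hm1 : 1 ≤ m := by rw [hm]; exact le_max_left _ _
  have hmK : K ≤ m := by rw [hm]; exact le_max_right _ _
  have hm0 : 0 < m := by linarith
  obtain ⟨b, hb⟩ : ∃ b, b = Real.log (1 + C) + K * Real.log c := ⟨_, rfl⟩
  have hb0 : 0 ≤ b := by
    rw [hb]
    have h1 := Real.log_nonneg (show (1 : ℝ) ≤ 1 + C by linarith)
    have h2 := Real.log_nonneg hc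
    positivity
  -- the pointwise inequality
  have key : ∀ R : ℝ, 2 ≤ R → Lam Φ (Real.log (1 + f (R / 2))) ≤
      (b + 3 * K * R) + m * Lam Φ (Real.log (max (D R) 1)) := by
    intro R hR
    have hR0 : 0 < R := by linarith
    have hM1 : 1 ≤ max (D R) 1 := le_max_right _ _
    have hL0 : 0 ≤ Real.log (max (D R) 1) := Real.log_nonneg hM1
    have hR3 : 1 ≤ R ^ 3 := one_le_pow₀ (by linarith)
    have hX1 : 1 ≤ c * R ^ 3 * max (D R) 1 := by
      have : 1 ≤ c * R ^ 3 := by nlinarith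
      nlinarith
    have hXK : 1 ≤ (c * R ^ 3 * max (D R) 1) ^ K := Real.one_le_rpow hX1 hK.le
    have h1 : 1 + f (R / 2) ≤ (1 + C) * (c * R ^ 3 * max (D R) 1) ^ K := by
      have := hbd R hR
      nlinarith
    have h2 : Real.log (1 + f (R / 2)) ≤ (b + 3 * K * Real.log R) + K * Real.log (max (D R) 1) := by
      have h3 : 0 < 1 + f (R / 2) := by have := hf0 (R / 2); linarith
      refine (Real.log_le_log h3 h1).trans (le_of_eq ?_)
      rw [Real.log_mul (by positivity) (by positivity), Real.log_rpow (by linarith),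
        Real.log_mul (by positivity) (by positivity), Real.log_mul (by positivity) (by positivity), Real.log_pow, hb]
      push_cast
      ring
    have hlR : 0 ≤ Real.log R := Real.log_nonneg (by linarith)
    have hlR2 : Real.log R ≤ R := by
      have := Real.log_le_sub_one_of_pos hR0
      linarith
    have ha0 : 0 ≤ b + 3 * K * Real.log R := by positivity
    calc Lam Φ (Real.log (1 + f (R / 2))) ≤ Lam Φ ((b + 3 * K * Real.log R) + K * Real.log (max (D R) 1)) :=
          Lam_mono hΦ hΦ1 h2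
      _ ≤ Lam Φ (b + 3 * K * Real.log R) + Lam Φ (K * Real.log (max (D R) 1)) :=
          Lam_add hΦ hΦ1 ha0 (by positivity)
      _ ≤ (b + 3 * K * Real.log R) + Lam Φ (m * Real.log (max (D R) 1)) :=
          add_le_add (Lam_le hΦ hΦ1 ha0) (Lam_mono hΦ hΦ1 (mul_le_mul_of_nonneg_right hmK hL0))
      _ ≤ (b + 3 * K * R) + m * Lam Φ (Real.log (max (D R) 1)) := by
          refine add_le_add ?_ (Lam_mul hΦ hΦ1 hL0 hm1)
          have := mul_le_mul_of_nonneg_left hlR2 (show (0 : ℝ) ≤ 3 * K by positivity)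
          linarith
  have hT2 : Tendsto (fun R : ℝ => Lam Φ (Real.log (1 + f (R / 2))) / (R / 2) ^ 2) atTop atTop :=
    hT.comp (tendsto_id.atTop_div_const (by norm_num))
  have hmain : Tendsto (fun R : ℝ => Lam Φ (Real.log (max (D R) 1)) / R ^ 2) atTop atTop := by
    rw [tendsto_atTop] at hT2 ⊢
    intro B
    filter_upwards [hT2 (4 * (m * B + b + 3 * K)), eventually_ge_atTop (2 : ℝ)] with R h1 h2
    have h3 := key R h2
    have hR2 : 1 ≤ R ^ 2 := one_le_pow₀ (by linarith)
    have hRR : R ≤ R ^ 2 := by nlinarith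
    rw [le_div_iff₀ (by positivity)] at h1 ⊢
    have h4 : 4 * (m * B + b + 3 * K) * (R / 2) ^ 2 = (m * B + b + 3 * K) * R ^ 2 := by ring
    rw [h4] at h1
    have h5 : b ≤ b * R ^ 2 := by nlinarith
    have h6 : 3 * K * R ≤ 3 * K * R ^ 2 := mul_le_mul_of_nonneg_left hRR (by positivity)
    have h7 : m * (B * R ^ 2) ≤ m * Lam Φ (Real.log (max (D R) 1)) := by nlinarith
    exact le_of_mul_le_mul_left h7 hm0
  refine hmain.congr' ?_
  filter_upwards [hmain.eventually_ge_atTop 1, eventually_ge_atTop (1 : ℝ)] with R h1 h2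
  have h3 : 1 < D R := by
    by_contra hcon
    push Not at hcon
    rw [max_eq_right hcon, Real.log_one, Lam_zero, zero_div] at h1
    linarith
  rw [max_eq_left h3.le]

open OneG in
theorem main_osg {ν a q : ℝ} (hν : 0 < ν) (ha : 0 < a) (hq : 1 < q) {Φ : ℝ → ℝ} (hΦ : Monotone Φ)
    (hΦ1 : ∀ s, 1 ≤ Φ s) (V : E → E) (hV : IsProfile ν a V)
    (hint : Integrable fun x => ‖V x‖ * Φ (Real.log (2 + ‖V x‖))) (hne : ¬ V =ᵐ[volume] 0) :
    (∀ R : ℝ, IntegrableOn (fun x => ‖V x‖ ^ q) (Metric.ball (0 : E) R)) ∧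
    Tendsto (fun R : ℝ => Lam Φ (Real.log (∫ x in Metric.ball (0 : E) R, ‖V x‖ ^ q)) / R ^ 2)
      atTop atTop := by
  obtain ⟨U, hU, he⟩ := exists_smooth hν hV.df
  have hnm : ∀ᵐ x, ‖V x‖ = nm U x := by
    filter_upwards [he 0, he 1, he 2] with x h0 h1 h2
    unfold nm sq
    rw [EuclideanSpace.norm_eq, Fin.sum_univ_three, Fin.sum_univ_three, h0, h1, h2]
    simp only [Real.norm_eq_abs, sq_abs]
  have cU : ∀ i, Continuous (U i) := fun i => (hU.smooth i).continuous
  have cn := continuous_nm cU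
  have hintΦ : Integrable fun y => nm U y * Φ (Real.log (2 + nm U y)) := by
    refine hint.congr ?_
    filter_upwards [hnm] with x hx
    rw [hx]
  have hintU : Integrable (nm U) := by
    refine hintΦ.mono' cn.aestronglyMeasurable (Eventually.of_forall fun y => ?_)
    rw [Real.norm_of_nonneg (nm_nonneg U y)]
    exact le_mul_of_one_le_right (nm_nonneg U y) (hΦ1 _)
  have hD : ∀ R : ℝ, ∫ x in Metric.ball (0 : E) R, ‖V x‖ ^ q
      = ∫ x in Metric.ball (0 : E) R, nm U x ^ q := fun R => by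
    refine integral_congr_ae (ae_restrict_of_ae ?_)
    filter_upwards [hnm] with x hx
    rw [hx]
  constructor
  · intro R
    have h1 : IntegrableOn (fun x => nm U x ^ q) (Metric.ball (0 : E) R) :=
      cont_int_on (ball_sub' _) (cn.rpow_const fun y => Or.inr (by linarith))
    refine h1.congr (ae_restrict_of_ae ?_)
    filter_upwards [hnm] with x hx
    rw [hx]
  simp only [hD]
  have hWm := Thk.W_mono hU.smooth
  have hW0 := Thk.W_nonneg U
  -- the enstrophy grows faster than all powers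
  have hpoly : ∀ k : ℝ, ∀ᶠ R in atTop, R ^ k ≤ 1 + W U R := by
    intro k
    by_contra hcon
    rw [not_eventually] at hcon
    have hfreq : ∃ᶠ R : ℝ in atTop, W U R ≤ Real.exp (1 * R ^ 2) := by
      refine (hcon.and_eventually (osgq_pow k)).mono fun R hR => ?_
      obtain ⟨h1, h2⟩ := hR
      push Not at h1
      linarith
    obtain ⟨C, K, κ, hC, hK, hκ0, hκ1, hstep⟩ := step_one ν a hν ha U hU hintU
    obtain ⟨C', hC'⟩ := iterate_one (W U) hWm hW0 (nm U) hintU
      (fun x => Real.sqrt_nonneg _) C K κ hC hK hκ0 hκ1 hstep 1 hfreq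
    have hz := eq_zero_of_bounded hν ha hU hintU hC'
    refine hne ?_
    filter_upwards [he 0, he 1, he 2] with x e0 e1 e2
    have e : ∀ i, V x i = 0 := by
      intro i
      fin_cases i
      · exact e0.trans (hz 0 x)
      · exact e1.trans (hz 1 x)
      · exact e2.trans (hz 2 x)
    ext i
    exact e i
  -- growth of the enstrophy
  have hWc : Continuous (W U) :=
    continuous_ball_int fun R => cont_int_on (ball_sub' _) (Thk.continuous_sq_curl hU.smooth)
  obtain ⟨C, K, κ, hC, hK, hκ0, hκ1, hstep⟩ := step_bs ν a hν ha U hU hintU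
  obtain ⟨C', K', κ', ε, hC', hK', hκ0', hκ1', hε0, hε1, hstep'⟩ := step_Phi (f := W U) hW0 (v := nm U) cn
    (nm_nonneg U) hΦ hΦ1 hintΦ hC hK hκ0 hκ1 hstep
  have hT := adaptive hWm hWc hW0 hintΦ
    (fun y => mul_nonneg (nm_nonneg U y) (by linarith [hΦ1 (Real.log (2 + nm U y))])) hΦ hΦ1 hC' hK' hκ0' hκ1' hε0 hε1
    hstep' hpoly
  -- the exponent below `2`
  obtain ⟨p, hp⟩ : ∃ p, p = min q (3 / 2) := ⟨_, rfl⟩
  have hp1 : 1 < p := by rw [hp]; exact lt_min hq (by norm_num)
  have hp2 : p < 2 := by rw [hp]; exact (min_le_right _ _).trans_lt (by norm_num)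
  have hpq : p ≤ q := by rw [hp]; exact min_le_left _ _
  have hp0 : 0 < p := by linarith
  have cp : Continuous (fun y => nm U y ^ p) := cn.rpow_const fun y => Or.inr hp0.le
  have cq : Continuous (fun y => nm U y ^ q) := cn.rpow_const fun y => Or.inr (by linarith)
  obtain ⟨C₁, K₁, κ₁, hC₁, hK₁, hκ₁0, hκ₁1, hloc⟩ := thin_loc ν a hν ha U hU hintU p hp1 hp2
  set A : ℝ → ℝ := fun R => 1 + ∫ y in Metric.ball (0 : E) R, nm U y ^ p with hA
  have hAm : Monotone A := fun r s hrs => by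
    have : ∫ y in Metric.ball (0 : E) r, nm U y ^ p ≤ ∫ y in Metric.ball (0 : E) s, nm U y ^ p :=
      set_mono (Metric.ball_subset_ball hrs) (ball_sub' _) cp fun y => Real.rpow_nonneg (nm_nonneg _ _) _
    show 1 + _ ≤ 1 + _
    linarith
  have hA1 : ∀ r, 1 ≤ A r := fun r => by
    have : 0 ≤ ∫ y in Metric.ball (0 : E) r, nm U y ^ p :=
      setInt_nonneg measurableSet_ball fun y => Real.rpow_nonneg (nm_nonneg _ _) _
    show 1 ≤ 1 + _
    linarith
  obtain ⟨C₂, K₂, hC₂, hK₂, hbd⟩ := iter_loc (W U) A hWm hW0 hAm hA1 C₁ K₁ κ₁ hC₁ hK₁ hκ₁0 hκ₁1 hloc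
  set vb := (volume : Measure E).real (Metric.ball (0 : E) 1) with hvb
  have hvb0 : 0 ≤ vb := by positivity
  have hDn : ∀ R : ℝ, 0 ≤ ∫ x in Metric.ball (0 : E) R, nm U x ^ q := fun R =>
    setInt_nonneg measurableSet_ball fun y => Real.rpow_nonneg (nm_nonneg _ _) _
  have hAle : ∀ R : ℝ, 1 ≤ R → A R ≤ (2 + vb) * R ^ 3 * max (∫ x in Metric.ball (0 : E) R, nm U x ^ q) 1 := by
    intro R hR
    have hR3 : 1 ≤ R ^ 3 := one_le_pow₀ hR
    set D := ∫ x in Metric.ball (0 : E) R, nm U x ^ q with hDdef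
    have e2 : ∫ y in Metric.ball (0 : E) R, nm U y ^ p ≤ R ^ 3 * vb + D := by
      calc _ ≤ ∫ y in Metric.ball (0 : E) R, (1 + nm U y ^ q) := by
            apply setIntegral_mono_on (cont_int_on (ball_sub' _) cp)
              (cont_int_on (ball_sub' _) (continuous_const.add cq)) measurableSet_ball
            intro y _
            show nm U y ^ p ≤ 1 + nm U y ^ q
            rcases le_or_gt 1 (nm U y) with h | h
            · have := Real.rpow_le_rpow_of_exponent_le h hpq
              linarith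
            · have := Real.rpow_le_one (nm_nonneg U y) h.le hp0.le
              have := Real.rpow_nonneg (nm_nonneg U y) q
              linarith
        _ = _ := by
            rw [integral_add (cont_int_on (ball_sub' _) continuous_const) (cont_int_on (ball_sub' _) cq)]
            simp only [integral_const, smul_eq_mul, Measure.real, Measure.restrict_apply_univ]
            rw [← Measure.real, vol_ball (by linarith), mul_one]
    have hM1 : 1 ≤ max D 1 := le_max_right _ _
    have hMD : D ≤ max D 1 := le_max_left _ _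
    have x4 : A R ≤ 1 + (R ^ 3 * vb + D) := by
      show 1 + _ ≤ _
      linarith
    have y1 : 1 ≤ R ^ 3 * max D 1 := by nlinarith
    have y2 : R ^ 3 * vb ≤ vb * (R ^ 3 * max D 1) := by
      have h1 : R ^ 3 * 1 ≤ R ^ 3 * max D 1 := mul_le_mul_of_nonneg_left hM1 (by positivity)
      have h2 := mul_le_mul_of_nonneg_left h1 hvb0
      linarith
    have y3 : D ≤ R ^ 3 * max D 1 := by
      have h1 : 1 * max D 1 ≤ R ^ 3 * max D 1 := mul_le_mul_of_nonneg_right hR3 (by linarith)
      linarith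
    linarith
  refine osgq_trans hΦ hΦ1 (f := W U) hW0 hDn hC₂ hK₂ (show (1 : ℝ) ≤ 2 + vb by linarith) (fun R hR => ?_) hT
  have h4 := hbd (R / 2) (by linarith)
  rw [show 2 * (R / 2) = R by ring] at h4
  refine h4.trans (mul_le_mul_of_nonneg_left ?_ hC₂.le)
  exact Real.rpow_le_rpow (by linarith [hA1 R]) (hAle R (by linarith)) hK₂.le

/-- if `Λ` is bounded the profile vanishes -/
theorem main_osg_zero {ν a : ℝ} (hν : 0 < ν) (ha : 0 < a) {Φ : ℝ → ℝ} (hΦ : Monotone Φ)
    (hΦ1 : ∀ s, 1 ≤ Φ s) (V : E → E) (hV : IsProfile ν a V)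
    (hint : Integrable fun x => ‖V x‖ * Φ (Real.log (2 + ‖V x‖)))
    (hL : IntegrableOn (fun t => (Φ t)⁻¹) (Ioi 0)) : V =ᵐ[volume] 0 := by
  by_contra hne
  obtain ⟨-, h⟩ := main_osg hν ha (q := 2) (by norm_num) hΦ hΦ1 V hV hint hne
  have hn : ∀ t, 0 ≤ (Φ t)⁻¹ := fun t => inv_nonneg.2 (by linarith [hΦ1 t])
  have hB0 : 0 ≤ ∫ t in Ioi (0 : ℝ), (Φ t)⁻¹ := setIntegral_nonneg measurableSet_Ioi fun t _ => hn t
  have hB : ∀ s, Lam Φ s ≤ ∫ t in Ioi (0 : ℝ), (Φ t)⁻¹ := by
    intro s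
    rcases le_total 0 s with hs | hs
    · unfold Lam
      rw [intervalIntegral.integral_of_le hs]
      exact setIntegral_mono_set hL (Eventually.of_forall hn) Ioc_subset_Ioi_self.eventuallyLE
    · have := Lam_mono hΦ hΦ1 hs
      rw [Lam_zero] at this
      linarith
  obtain ⟨R, h1, h2⟩ := ((h.eventually_ge_atTop ((∫ t in Ioi (0 : ℝ), (Φ t)⁻¹) + 1)).and
    (eventually_ge_atTop (1 : ℝ))).exists
  have hR2 : 1 ≤ R ^ 2 := one_le_pow₀ h2
  rw [le_div_iff₀ (by positivity)] at h1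
  have h3 := hB (Real.log (∫ x in Metric.ball (0 : E) R, ‖V x‖ ^ (2 : ℝ)))
  nlinarith

end Leray
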