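import Pool.Agent.Lib.MP_9b9638_an.OsgQ

/-!
# The endpoint `p = 1` up to a logarithm: the case `L (log L)^(1+ε)`
-/

open MeasureTheory Set Filter Topology TopologicalSpace

noncomputable section

namespace Leray

/-- a profile is measurable -/
theorem IsProfile.aesm {ν a : ℝ} {V : E → E} (hV : IsProfile ν a V) : AEStronglyMeasurable V volume := by
  have h : LocallyIntegrable V volume := by
    rw [locallyIntegrable_iff]
    intro K hK
    have h2 := hV.1 K hK
    haveI : IsFiniteMeasure (volume.restrict K) := ⟨by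
      rw [Measure.restrict_apply_univ]; exact hK.measure_lt_top⟩
    exact h2.integrable (by norm_num)
  exact h.aestronglyMeasurable

/-- the weight `(1 + s)^(1+ε)` -/
def PhiL (ε s : ℝ) : ℝ := (1 + max s 0) ^ (1 + ε)

theorem PhiL_mono {ε : ℝ} (hε : 0 < ε) : Monotone (PhiL ε) := fun x y h =>
  Real.rpow_le_rpow (by positivity) (by gcongr) (by linarith)

theorem one_le_PhiL {ε : ℝ} (hε : 0 < ε) (s : ℝ) : 1 ≤ PhiL ε s :=
  Real.one_le_rpow (by linarith [le_max_right s 0]) (by linarith)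

theorem integrable_PhiL {ε : ℝ} (hε : 0 < ε) : IntegrableOn (fun t => (PhiL ε t)⁻¹) (Ioi 0) := by
  have h := integrableOn_add_rpow_Ioi_of_lt (a := -(1 + ε)) (c := 0) (m := 1) (by linarith) (by norm_num)
  refine h.congr_fun (fun t ht => ?_) measurableSet_Ioi
  have ht' : (0 : ℝ) < t := ht
  show (t + 1) ^ (-(1 + ε)) = ((1 + max t 0) ^ (1 + ε))⁻¹
  rw [max_eq_left ht'.le, Real.rpow_neg (by linarith), add_comm]

theorem main_log {ν a ε : ℝ} (hν : 0 < ν) (ha : 0 < a) (hε : 0 < ε) (V : E → E) (hV : IsProfile ν a V)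
    (hint : Integrable fun x => ‖V x‖ * Real.log (2 + ‖V x‖) ^ (1 + ε)) : V =ᵐ[volume] 0 := by
  refine main_osg_zero hν ha (PhiL_mono hε) (one_le_PhiL hε) V hV ?_ (integrable_PhiL hε)
  have hm := hV.aesm
  have hP : Measurable (PhiL ε) := (PhiL_mono hε).measurable
  refine Integrable.mono' (hint.const_mul ((3 : ℝ) ^ (1 + ε))) ?_ (Eventually.of_forall fun x => ?_)
  · refine hm.norm.mul ?_
    have h1 : AEMeasurable (fun x => Real.log (2 + ‖V x‖)) volume :=
      Real.measurable_log.comp_aemeasurable (hm.norm.aemeasurable.const_add 2)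
    exact (hP.comp_aemeasurable h1).aestronglyMeasurable
  · have h0 := norm_nonneg (V x)
    have hl : 1 / 2 ≤ Real.log (2 + ‖V x‖) := by
      have h1 : Real.log 2 ≤ Real.log (2 + ‖V x‖) := Real.log_le_log (by norm_num) (by linarith)
      have h2 := Real.log_two_gt_d9
      linarith
    have hP0 : 0 ≤ PhiL ε (Real.log (2 + ‖V x‖)) := zero_le_one.trans (one_le_PhiL hε _)
    rw [Real.norm_eq_abs, abs_of_nonneg (mul_nonneg h0 hP0)]
    have h3 : PhiL ε (Real.log (2 + ‖V x‖)) ≤ 3 ^ (1 + ε) * Real.log (2 + ‖V x‖) ^ (1 + ε) := by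
      unfold PhiL
      rw [← Real.mul_rpow (by norm_num) (by linarith)]
      apply Real.rpow_le_rpow (by positivity) _ (by linarith)
      rw [max_eq_left (by linarith)]
      linarith
    calc ‖V x‖ * PhiL ε (Real.log (2 + ‖V x‖)) ≤ ‖V x‖ * (3 ^ (1 + ε) * Real.log (2 + ‖V x‖) ^ (1 + ε)) := by gcongr
      _ = _ := by ring

end Leray
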