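import Pool.Agent.Lib.MP_9b9638_an.RegA2
import Pool.Agent.Lib.MP_9b9638_an.Statement

/-! # Leray profiles: from the weak formulation to the very weak formulation -/

open MeasureTheory Set Filter Topology TopologicalSpace
open scoped Distributions LineDeriv NNReal ENNReal
open Pool.Agent.Lib.MP_05a445_an

noncomputable section
namespace Leray

/-- test functions -/
structure Sm (f : E → ℝ) : Prop where
  s : ContDiff ℝ (⊤ : ℕ∞) f
  c : HasCompactSupport f

namespace Sm

theorem d {f : E → ℝ} (hf : Sm f) : Differentiable ℝ f := hf.s.differentiable (by simp)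

theorem c1 {f : E → ℝ} (hf : Sm f) : ContDiff ℝ 1 f := hf.s.of_le (by simp)

theorem c2 {f : E → ℝ} (hf : Sm f) : ContDiff ℝ 2 f :=
  hf.s.of_le (by exact WithTop.coe_le_coe.2 le_top)

theorem pd {f : E → ℝ} (hf : Sm f) (j : Fin 3) : Sm (pd j f) :=
  ⟨contDiff_pd hf.s (by simp), hasCompactSupport_pd hf.c⟩

theorem sum {ι : Type*} {s : Finset ι} {f : ι → E → ℝ} (hf : ∀ i, Sm (f i)) :
    Sm (fun x => ∑ i ∈ s, f i x) := by
  refine ⟨ContDiff.sum fun i _ => (hf i).s, ?_⟩
  classical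
  induction s using Finset.induction_on with
  | empty => simp only [Finset.sum_empty]; exact HasCompactSupport.zero
  | insert a s ha ih =>
    simp only [Finset.sum_insert ha]
    exact (hf a).c.add ih

theorem lap {f : E → ℝ} (hf : Sm f) : Sm (lap f) := Sm.sum fun i => (hf.pd i).pd i

theorem sub {f g : E → ℝ} (hf : Sm f) (hg : Sm g) : Sm (fun x => f x - g x) :=
  ⟨hf.s.sub hg.s, hf.c.sub hg.c⟩

theorem add {f g : E → ℝ} (hf : Sm f) (hg : Sm g) : Sm (fun x => f x + g x) :=
  ⟨hf.s.add hg.s, hf.c.add hg.c⟩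

theorem cmul {f : E → ℝ} (hf : Sm f) (c : ℝ) : Sm (fun x => c * f x) :=
  ⟨contDiff_const.mul hf.s, hf.c.mul_left⟩

theorem xmul {f : E → ℝ} (hf : Sm f) (j : Fin 3) : Sm (fun x => x j * f x) :=
  ⟨(contDiff_coord j).mul hf.s, hf.c.mul_left⟩

/-- as a test function -/
def T {f : E → ℝ} (hf : Sm f) : 𝓓((⊤ : Opens E), ℝ) := ⟨f, hf.s, hf.c, by simp⟩

@[simp] theorem T_coe {f : E → ℝ} (hf : Sm f) : (hf.T : E → ℝ) = f := rfl

end Sm

/-- the radial derivative -/
def rd (f : E → ℝ) : E → ℝ := fun x => ∑ j, x j * pd j f x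

theorem Sm.rd {f : E → ℝ} (hf : Sm f) : Sm (rd f) := Sm.sum fun j => (hf.pd j).xmul j

theorem pd_rd {f : E → ℝ} (hf : Sm f) (i : Fin 3) (x : E) :
    pd i (rd f) x = pd i f x + rd (pd i f) x := by
  unfold rd
  rw [pd_sum_at (fun k _ => ((hf.pd k).xmul k).d x)]
  have h : ∀ j, pd i (fun x : E => x j * pd j f x) x
      = (if i = j then pd j f x else 0) + x j * pd j (pd i f) x := by
    intro j
    rw [pd_mul (differentiable_coord j) (hf.pd j).d x, pd_coord, pd_comm hf.c2]
    split_ifs <;> simp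
  simp only [h, Finset.sum_add_distrib]
  simp

theorem lap_rd {f : E → ℝ} (hf : Sm f) (x : E) : lap (rd f) x = 2 * lap f x + rd (lap f) x := by
  have h1 : ∀ i, pd i (pd i (rd f)) x = 2 * pd i (pd i f) x + rd (pd i (pd i f)) x := by
    intro i
    have e : pd i (rd f) = fun y => pd i f y + rd (pd i f) y := funext fun y => pd_rd hf i y
    rw [e, pd_add (hf.pd i).d (hf.pd i).rd.d, pd_rd (hf.pd i)]
    ring
  have h2 : rd (lap f) x = ∑ i, rd (pd i (pd i f)) x := by
    unfold rd lap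
    rw [Finset.sum_comm]
    refine Finset.sum_congr rfl fun j _ => ?_
    rw [pd_sum_at (fun k _ => ((hf.pd k).pd k).d x), Finset.mul_sum]
  unfold lap at *
  simp only [h1, Finset.sum_add_distrib, h2, Finset.mul_sum]

theorem lap_pd {f : E → ℝ} (hf : Sm f) (k : Fin 3) (x : E) : lap (pd k f) x = pd k (lap f) x := by
  unfold lap
  rw [pd_sum_at (fun i _ => ((hf.pd i).pd i).d x)]
  refine Finset.sum_congr rfl fun i _ => ?_
  have e : pd i (pd k f) = pd k (pd i f) := funext fun y => pd_comm hf.c2 y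
  rw [e, pd_comm (hf.pd i).c2]

/-- the identity tested with a divergence free field -/
theorem tested {ν a : ℝ} {V : E → E} (hV : DFProfile ν a V) (φ : Fin 3 → E → ℝ)
    (hφ : ∀ i, Sm (φ i)) (h0 : ∀ x, ∑ i, pd i (φ i) x = 0) :
    ν * (∑ i, ∫ x, V x i * lap (φ i) x)
      = - (∑ i, ∑ j, ∫ x, V x i * V x j * pd j (φ i) x)
        - a * ∑ i, ∫ x, V x i * (2 * φ i x + rd (φ i) x) := by
  obtain ⟨G, hG, hW, hdiv, hP⟩ := hV.weak
  have hU : ∀ i, L2loc (fun x => V x i) := fun i K hK =>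
    (EuclideanSpace.proj i : E →L[ℝ] ℝ).comp_memLp' (hV.sqInt K hK)
  have hWD : ∀ i j, WDer j (fun x => V x i) (G i j) := fun i j ψ h1 h2 =>
    hW i j (Sm.T ⟨h1, h2⟩)
  have hz : (∑ i, ∂_{ei i} (hφ i).T) = 0 := by
    ext x
    have e : ∀ i, (∂_{ei i} (hφ i).T) x = pd i (φ i) x := by
      intro i
      rw [TestFunction.lineDerivOp_eq_lineDerivCLM ℝ, TestFunction.lineDerivCLM_apply_of_le (by simp),
        ((hφ i).T.contDiff.differentiable (by simp)).differentiableAt.lineDeriv_eq_fderiv]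
      rfl
    have := h0 x
    simp only [Fin.sum_univ_three] at this ⊢
    have e2 : (∂_{ei 0} (hφ 0).T + ∂_{ei 1} (hφ 1).T + ∂_{ei 2} (hφ 2).T) x
      = (∂_{ei 0} (hφ 0).T) x + (∂_{ei 1} (hφ 1).T) x + (∂_{ei 2} (hφ 2).T) x := rfl
    rw [e2, e, e, e]
    exact this
  have h := hP (fun i => (hφ i).T) hz
  simp only [Sm.T_coe] at h
  have cU : ∀ (i : Fin 3) {ψ : E → ℝ}, Sm ψ → Integrable (fun x => V x i * ψ x) := fun i ψ hψ =>
    li_int (hU i).li hψ.s.continuous hψ.c
  -- (I)
  have e1 : ∀ i, ∑ j, ∫ x, G i j x * pd j (φ i) x = - ∫ x, V x i * lap (φ i) x := by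
    intro i
    have : ∫ x, V x i * lap (φ i) x = ∑ j, ∫ x, V x i * pd j (pd j (φ i)) x := by
      rw [← integral_finsetSum _ fun j _ => cU i (((hφ i).pd j).pd j)]
      congr 1; funext x
      unfold lap
      rw [Finset.mul_sum]
    rw [this, ← Finset.sum_neg_distrib]
    refine Finset.sum_congr rfl fun j _ => ?_
    have := hWD i j _ ((hφ i).pd j).s ((hφ i).pd j).c
    simp only at this
    rw [this, neg_neg]
  -- (III)
  have e3 : ∀ i, ∑ j, ∫ x, x j * G i j x * φ i x = - ∫ x, V x i * (3 * φ i x + rd (φ i) x) := by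
    intro i
    have : ∫ x, V x i * (3 * φ i x + rd (φ i) x) = ∑ j, ∫ x, V x i * pd j (fun y : E => y j * φ i y) x := by
      rw [← integral_finsetSum _ fun j _ => cU i (((hφ i).xmul j).pd j)]
      congr 1; funext x
      rw [← Finset.mul_sum]
      congr 1
      have : ∀ j, pd j (fun y : E => y j * φ i y) x = φ i x + x j * pd j (φ i) x := fun j => by
        rw [pd_mul (differentiable_coord j) (hφ i).d x, pd_coord]; simp
      simp only [this, Finset.sum_add_distrib, rd]
      simp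
    rw [this, ← Finset.sum_neg_distrib]
    refine Finset.sum_congr rfl fun j _ => ?_
    have := hWD i j _ ((hφ i).xmul j).s ((hφ i).xmul j).c
    simp only at this
    rw [this, neg_neg]
    congr 1; funext x; ring
  -- (IV)
  have e4 : ∀ i, ∑ j, ∫ x, V x j * G i j x * φ i x = - ∑ j, ∫ x, V x i * V x j * pd j (φ i) x := by
    intro i
    have hs : ∀ j, ∫ x, V x i * V x j * pd j (φ i) x
        = - (∫ x, V x j * G i j x * φ i x) - ∫ x, (V x i * G j j x) * φ i x := by
      intro j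
      have := wder_mul (hU i) (hG i j) (hU j) (hG j j) (hWD i j) (hWD j j) (φ i) (hφ i).s (hφ i).c
      simp only at this
      have i1 : Integrable (fun x => V x j * G i j x * φ i x) :=
        li_int ((hU j).mul_li (hG i j)) (hφ i).s.continuous (hφ i).c
      have i2 : Integrable (fun x => (V x i * G j j x) * φ i x) :=
        li_int ((hU i).mul_li (hG j j)) (hφ i).s.continuous (hφ i).c
      rw [this, ← neg_add', ← integral_add i1 i2]
      congr 2; funext x; ring
    have hzero : ∑ j, ∫ x, (V x i * G j j x) * φ i x = 0 := by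
      have i2 : ∀ j, Integrable (fun x => (V x i * G j j x) * φ i x) := fun j =>
        li_int ((hU i).mul_li (hG j j)) (hφ i).s.continuous (hφ i).c
      rw [← integral_finsetSum _ fun j _ => i2 j]
      rw [integral_eq_zero_of_ae]
      filter_upwards [hdiv] with x hx
      simp only [Pi.zero_apply]
      rw [← Finset.sum_mul, ← Finset.mul_sum, hx]; ring
    simp only [hs, Finset.sum_sub_distrib, hzero]
    simp
  have e5 : ∀ i, ∫ x, V x i * (3 * φ i x + rd (φ i) x)
      = (∫ x, V x i * φ i x) + ∫ x, V x i * (2 * φ i x + rd (φ i) x) := by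
    intro i
    rw [← integral_add (cU i (hφ i)) (cU i (((hφ i).cmul 2).add (hφ i).rd))]
    congr 1; funext x; ring
  simp only [e1, e3, e4, e5, Finset.sum_neg_distrib, Finset.sum_add_distrib] at h
  linarith

/-- the test field -/
def tf (Φ : E → ℝ) (k : Fin 3) (i : Fin 3) : E → ℝ :=
  fun x => pd i (pd k Φ) x - (if i = k then (1 : ℝ) else 0) * lap Φ x

theorem split (F A : Fin 3 → E → ℝ) (B : E → ℝ) (hF : ∀ i, LocallyIntegrable (F i))
    (hA : ∀ i, Sm (A i)) (hB : Sm B) (k : Fin 3) :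
    ∑ i, ∫ x, F i x * (A i x - (if i = k then (1 : ℝ) else 0) * B x)
      = (∑ i, ∫ x, F i x * A i x) - ∫ x, F k x * B x := by
  have h : ∀ i, ∫ x, F i x * (A i x - (if i = k then (1 : ℝ) else 0) * B x)
      = (∫ x, F i x * A i x) - (if i = k then (1 : ℝ) else 0) * ∫ x, F i x * B x := by
    intro i
    rw [← integral_const_mul, ← integral_sub (li_int (hF i) (hA i).s.continuous (hA i).c)
      ((li_int (hF i) hB.s.continuous hB.c).const_mul _)]
    congr 1; funext x; ring
  rw [Finset.sum_congr rfl fun i _ => h i]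
  simp only [Finset.sum_sub_distrib, ite_mul, one_mul, zero_mul, Finset.sum_ite_eq',
    Finset.mem_univ, if_true]

theorem divfree {ν a : ℝ} {V : E → E} (hV : DFProfile ν a V) (ψ : E → ℝ) (hψ : Sm ψ) :
    ∑ i, ∫ x, V x i * pd i ψ x = 0 := by
  obtain ⟨G, hG, hW, hdiv, _⟩ := hV.weak
  have h1 : ∀ i, ∫ x, V x i * pd i ψ x = - ∫ x, G i i x * ψ x := fun i => hW i i hψ.T
  simp only [h1, Finset.sum_neg_distrib]
  have hl : ∀ i, L2loc (G i i) := fun i => hG i i
  rw [← integral_finsetSum _ fun j _ => li_int (hl j).li hψ.s.continuous hψ.c,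
    integral_eq_zero_of_ae, neg_zero]
  filter_upwards [hdiv] with x hx
  simp only [Pi.zero_apply]
  rw [← Finset.sum_mul, hx, zero_mul]

theorem veryWeak {ν a : ℝ} {V : E → E} (hV : DFProfile ν a V) :
    VeryWeak ν a (fun i x => V x i) := by
  have hU : ∀ i, L2loc (fun x => V x i) := fun i K hK =>
    (EuclideanSpace.proj i : E →L[ℝ] ℝ).comp_memLp' (hV.sqInt K hK)
  refine ⟨?_, fun ψ h1 h2 => divfree hV ψ ⟨h1, h2⟩, ?_⟩
  · obtain ⟨G, hG, hW, _⟩ := hV.weak
    intro i K hK
    exact loc6_of_wder (hU i) (hG i) (fun j ψ h1 h2 => hW i j (Sm.T ⟨h1, h2⟩)) K hK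
  · intro Φ h1 h2 k
    have hΦ : Sm Φ := ⟨h1, h2⟩
    have hs : ∀ i, Sm (tf Φ k i) := fun i => ((hΦ.pd k).pd i).sub (hΦ.lap.cmul _)
    have p1 : ∀ (i j : Fin 3) (x : E), pd j (tf Φ k i) x
        = pd j (pd i (pd k Φ)) x - (if i = k then (1 : ℝ) else 0) * pd j (lap Φ) x := by
      intro i j x
      unfold tf
      rw [pd_sub ((hΦ.pd k).pd i).d (hΦ.lap.cmul _).d, pd_const_mul _ hΦ.lap.d]
    have p2 : ∀ (i : Fin 3) (x : E), lap (tf Φ k i) x
        = pd i (lap (pd k Φ)) x - (if i = k then (1 : ℝ) else 0) * lap (lap Φ) x := by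
      intro i x
      rw [← lap_pd (hΦ.pd k)]
      unfold lap
      rw [Finset.mul_sum, ← Finset.sum_sub_distrib]
      refine Finset.sum_congr rfl fun j _ => ?_
      have e : pd j (tf Φ k i) = fun x => pd j (pd i (pd k Φ)) x
        - (if i = k then (1 : ℝ) else 0) * pd j (lap Φ) x := funext fun x => p1 i j x
      rw [e, pd_sub (((hΦ.pd k).pd i).pd j).d ((hΦ.lap.pd j).cmul _).d,
        pd_const_mul _ (hΦ.lap.pd j).d]
      rfl
    have p3 : ∀ (i : Fin 3) (x : E), 2 * tf Φ k i x + rd (tf Φ k i) x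
        = pd i (fun y => pd k Φ y + rd (pd k Φ) y) x
          - (if i = k then (1 : ℝ) else 0) * lap (rd Φ) x := by
      intro i x
      rw [pd_add (hΦ.pd k).d (hΦ.pd k).rd.d, pd_rd (hΦ.pd k), lap_rd hΦ]
      have : rd (tf Φ k i) x = rd (pd i (pd k Φ)) x - (if i = k then (1 : ℝ) else 0) * rd (lap Φ) x := by
        unfold rd
        simp only [p1]
        rw [Finset.mul_sum, ← Finset.sum_sub_distrib]
        refine Finset.sum_congr rfl fun j _ => ?_
        ring
      rw [this]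
      unfold tf
      ring
    have h0 : ∀ x, ∑ i, pd i (tf Φ k i) x = 0 := by
      intro x
      simp only [p1, Finset.sum_sub_distrib, ite_mul, one_mul, zero_mul, Finset.sum_ite_eq',
        Finset.mem_univ, if_true]
      rw [← lap_pd hΦ]
      unfold lap
      simp
    have h := tested hV (tf Φ k) hs h0
    have s1 : ∑ i, ∫ x, V x i * lap (tf Φ k i) x = - ∫ x, V x k * lap (lap Φ) x := by
      simp only [p2]
      rw [split (fun i x => V x i) (fun i => pd i (lap (pd k Φ))) (lap (lap Φ)) (fun i => (hU i).li)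
        (fun i => (hΦ.pd k).lap.pd i) hΦ.lap.lap k, divfree hV _ (hΦ.pd k).lap]
      ring
    have s2 : ∑ i, ∫ x, V x i * (2 * tf Φ k i x + rd (tf Φ k i) x) = - ∫ x, V x k * lap (rd Φ) x := by
      simp only [p3]
      rw [split (fun i x => V x i) (fun i => pd i (fun y => pd k Φ y + rd (pd k Φ) y)) (lap (rd Φ))
        (fun i => (hU i).li)
        (fun i => ((hΦ.pd k).add (hΦ.pd k).rd).pd i) hΦ.rd.lap k,
        divfree hV _ ((hΦ.pd k).add (hΦ.pd k).rd)]
      ring
    have s3 : ∑ i, ∑ j, ∫ x, V x i * V x j * pd j (tf Φ k i) x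
        = (∑ i, ∑ j, ∫ x, V x i * V x j * pd i (pd j (pd k Φ)) x)
          - ∑ j, ∫ x, V x k * V x j * pd j (lap Φ) x := by
      rw [Finset.sum_comm]
      simp only [p1]
      have : ∀ j, ∑ i, ∫ x, V x i * V x j * (pd j (pd i (pd k Φ)) x
          - (if i = k then (1 : ℝ) else 0) * pd j (lap Φ) x)
          = (∑ i, ∫ x, V x i * V x j * pd j (pd i (pd k Φ)) x) - ∫ x, V x k * V x j * pd j (lap Φ) x :=
        fun j => split (fun i x => V x i * V x j) (fun i => pd j (pd i (pd k Φ))) (pd j (lap Φ))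
          (fun i => (hU i).mul_li (hU j)) (fun i => ((hΦ.pd k).pd i).pd j) (hΦ.lap.pd j) k
      simp only [this, Finset.sum_sub_distrib]
      congr 1
      rw [Finset.sum_comm]
      refine Finset.sum_congr rfl fun i _ => Finset.sum_congr rfl fun j _ => ?_
      congr 1; funext x
      rw [pd_comm (hΦ.pd k).c2]
    rw [s1, s2, s3] at h
    change ν * ∫ x, V x k * lap (lap Φ) x = (∑ i, ∑ j, ∫ x, V x i * V x j * pd i (pd j (pd k Φ)) x)
      - (∑ j, ∫ x, V x k * V x j * pd j (lap Φ) x) - a * ∫ x, V x k * lap (rd Φ) x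
    linarith

end Leray
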