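import Pool.Agent.Lib.MP_9b9638_an.Sob
import Pool.Agent.Lib.MP_9b9638_an.VWDefs
import Pool.Agent.Lib.MP_05a445_an.MolTwo

/-! # Leray profiles: weak derivatives in `L²_loc`, Sobolev embedding and the product rule -/

open MeasureTheory Set Filter Topology TopologicalSpace
open scoped Distributions LineDeriv NNReal ENNReal
open Pool.Agent.Lib.MP_05a445_an

noncomputable section
namespace Leray

/-- locally square integrable -/
def L2loc (f : E → ℝ) : Prop := ∀ K : Set E, IsCompact K → MemLp f 2 (volume.restrict K)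

/-- `g` is the weak derivative of `f` in direction `j` -/
def WDer (j : Fin 3) (f g : E → ℝ) : Prop :=
  ∀ ψ : E → ℝ, ContDiff ℝ (⊤ : ℕ∞) ψ → HasCompactSupport ψ →
    ∫ x, f x * pd j ψ x = - ∫ x, g x * ψ x

theorem L2loc.li {f : E → ℝ} (hf : L2loc f) : LocallyIntegrable f := by
  rw [locallyIntegrable_iff]
  intro K hK
  have : IsFiniteMeasure (volume.restrict K : Measure E) := ⟨by
    rw [Measure.restrict_apply_univ]; exact hK.measure_lt_top⟩
  exact (hf K hK).integrable (by norm_num)

theorem L2loc.mul_li {f g : E → ℝ} (hf : L2loc f) (hg : L2loc g) :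
    LocallyIntegrable (fun x => f x * g x) := by
  rw [locallyIntegrable_iff]
  intro K hK
  exact (hf K hK).integrable_mul (hg K hK)

theorem li_int {f χ : E → ℝ} (hf : LocallyIntegrable f) (hc : Continuous χ) (hs : HasCompactSupport χ) :
    Integrable (fun x => f x * χ x) := by
  have := hf.integrable_smul_left_of_hasCompactSupport hc hs
  refine this.congr (Eventually.of_forall fun x => ?_)
  simp [mul_comm]

theorem L2loc.cut {f χ : E → ℝ} (hf : L2loc f) (hc : Continuous χ) (hs : HasCompactSupport χ) :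
    MemLp (fun x => χ x * f x) 2 volume := by
  have hK : IsCompact (tsupport χ) := hs
  have h1 : MemLp ((tsupport χ).indicator f) 2 volume :=
    (memLp_indicator_iff_restrict hK.measurableSet).2 (hf _ hK)
  have h2 : MemLp χ ⊤ (volume : Measure E) := hc.memLp_top_of_hasCompactSupport hs _
  have h3 : MemLp (fun x => χ x * (tsupport χ).indicator f x) 2 volume := h1.mul h2
  refine h3.ae_eq (Eventually.of_forall fun x => ?_)
  by_cases hx : x ∈ tsupport χ
  · simp [hx]
  · have : χ x = 0 := image_eq_zero_of_notMem_tsupport hx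
    simp [this]

/-- cutting off -/
theorem wder_cut {j : Fin 3} {f g χ : E → ℝ} (hf : L2loc f) (hg : L2loc g) (hw : WDer j f g)
    (hχ : ContDiff ℝ (⊤ : ℕ∞) χ) (hs : HasCompactSupport χ) (ψ : E → ℝ) (hψ : ContDiff ℝ (⊤ : ℕ∞) ψ) :
    ∫ x, (χ x * f x) * pd j ψ x = - ∫ x, (pd j χ x * f x + χ x * g x) * ψ x := by
  have h := hw (fun x => χ x * ψ x) (hχ.mul hψ) hs.mul_right
  have hd : ∀ x, pd j (fun x => χ x * ψ x) x = pd j χ x * ψ x + χ x * pd j ψ x := fun x =>
    pd_mul (hχ.differentiable (by simp)) (hψ.differentiable (by simp)) x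
  have c1 : Continuous (pd j χ) := continuous_pd (hχ.of_le (by simp))
  have c2 : Continuous (pd j ψ) := continuous_pd (hψ.of_le (by simp))
  have i1 : Integrable (fun x => f x * (pd j χ x * ψ x)) :=
    li_int hf.li (c1.mul hψ.continuous) (hasCompactSupport_pd hs).mul_right
  have i2 : Integrable (fun x => f x * (χ x * pd j ψ x)) :=
    li_int hf.li (hχ.continuous.mul c2) hs.mul_right
  have i3 : Integrable (fun x => g x * (χ x * ψ x)) :=
    li_int hg.li (hχ.continuous.mul hψ.continuous) hs.mul_right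
  have e1 : ∫ x, f x * pd j (fun x => χ x * ψ x) x
      = (∫ x, f x * (pd j χ x * ψ x)) + ∫ x, f x * (χ x * pd j ψ x) := by
    rw [← integral_add i1 i2]
    congr 1; funext x
    rw [hd]; ring
  have e2 : ∫ x, (pd j χ x * f x + χ x * g x) * ψ x
      = (∫ x, f x * (pd j χ x * ψ x)) + ∫ x, g x * (χ x * ψ x) := by
    rw [← integral_add i1 i3]
    congr 1; funext x
    ring
  have e3 : ∫ x, (χ x * f x) * pd j ψ x = ∫ x, f x * (χ x * pd j ψ x) := by
    congr 1; funext x; ring
  rw [e3, e2]
  rw [e1] at h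
  linarith

theorem pd_mol {j : Fin 3} {u w : E → ℝ} (φ : ContDiffBump (0 : E)) (hu : LocallyIntegrable u)
    (h : ∀ ψ : E → ℝ, ContDiff ℝ (⊤ : ℕ∞) ψ → HasCompactSupport ψ →
      ∫ x, u x * pd j ψ x = - ∫ x, w x * ψ x) (x : E) :
    pd j (mol φ u) x = mol φ w x := by
  unfold pd
  rw [fderiv_mol φ hu x (ei j), mol_apply]
  have hψ : ContDiff ℝ (⊤ : ℕ∞) (fun t => φ.normed volume (x - t)) :=
    φ.contDiff_normed.comp (contDiff_const.sub contDiff_id)
  have hs : HasCompactSupport (fun t => φ.normed volume (x - t)) := by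
    have := (φ.hasCompactSupport_normed (μ := volume)).comp_homeomorph (Homeomorph.subLeft x)
    exact this
  have h1 := h _ hψ hs
  have hd : ∀ t, pd j (fun t => φ.normed volume (x - t)) t
      = - fderiv ℝ (φ.normed volume) (x - t) (ei j) := by
    intro t
    unfold pd
    have hd1 : HasFDerivAt (fun t : E => x - t) (-(ContinuousLinearMap.id ℝ E)) t := by
      simpa using (hasFDerivAt_id t).const_sub x
    have hd2 : HasFDerivAt (φ.normed (volume : Measure E)) (fderiv ℝ (φ.normed volume) (x - t)) (x - t) :=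
      ((φ.contDiff_normed (n := 1)).differentiable (by norm_num) _).hasFDerivAt
    have hd3 := hd2.comp t hd1
    have : fderiv ℝ (fun t => φ.normed volume (x - t)) t = (fderiv ℝ (φ.normed volume) (x - t)).comp (-(ContinuousLinearMap.id ℝ E)) :=
      hd3.fderiv
    rw [this]
    simp
  have e1 : ∫ t, fderiv ℝ (φ.normed volume) (x - t) (ei j) * u t
      = - ∫ t, u t * pd j (fun t => φ.normed volume (x - t)) t := by
    rw [← integral_neg]
    congr 1; funext t
    rw [hd]; ring
  rw [e1, h1, neg_neg]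
  congr 1; funext t
  simp [mul_comm]

theorem hcs_mol {u : E → ℝ} (φ : ContDiffBump (0 : E)) (hu : HasCompactSupport u) :
    HasCompactSupport (mol φ u) :=
  (φ.hasCompactSupport_normed).convolution _ hu

end Leray
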