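import Pool.Agent.Lib.MP_9b9638_an.RegA1
import Pool.Agent.Lib.MP_9b9638_an.Cutoff

/-! # Leray profiles: Sobolev embedding and the product rule for weak derivatives -/

open MeasureTheory Set Filter Topology TopologicalSpace
open scoped Distributions LineDeriv NNReal ENNReal
open Pool.Agent.Lib.MP_05a445_an

noncomputable section
namespace Leray

/-- smooth cutoff equal to one near a compact set -/
theorem exists_cut (K : Set E) (hK : IsCompact K) : ∃ χ : E → ℝ, ContDiff ℝ (⊤ : ℕ∞) χ ∧
    HasCompactSupport χ ∧ ∀ x ∈ K, χ =ᶠ[𝓝 x] fun _ => 1 := by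
  obtain ⟨R, hR0, hR⟩ := hK.isBounded.exists_pos_norm_lt
  obtain ⟨C, hC, h⟩ := exists_cutoff
  obtain ⟨χ, h1, h2, _, _, h5, _⟩ := h R R hR0 le_rfl
  refine ⟨χ, h1, h2, fun x hx => ?_⟩
  have : {y : E | ‖y‖ < R} ∈ 𝓝 x := (isOpen_lt continuous_norm continuous_const).mem_nhds (hR x hx)
  filter_upwards [this] with y hy
  exact h5 y (le_of_lt hy)

theorem isFin (K : Set E) (hK : IsCompact K) : IsFiniteMeasure (volume.restrict K : Measure E) :=
  ⟨by rw [Measure.restrict_apply_univ]; exact hK.measure_lt_top⟩

theorem loc6_of_wder {f : E → ℝ} {g : Fin 3 → E → ℝ} (hf : L2loc f) (hg : ∀ j, L2loc (g j))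
    (hw : ∀ j, WDer j f (g j)) (K : Set E) (hK : IsCompact K) : MemLp f 6 (volume.restrict K) := by
  obtain ⟨χ, hχ, hs, h1⟩ := exists_cut K hK
  set u : E → ℝ := fun x => χ x * f x with hu
  set w : Fin 3 → E → ℝ := fun j x => pd j χ x * f x + χ x * g j x with hwd
  have hu2 : MemLp u 2 volume := hf.cut hχ.continuous hs
  have hw2 : ∀ j, MemLp (w j) 2 volume := fun j =>
    (hf.cut (continuous_pd (hχ.of_le (by simp))) (hasCompactSupport_pd hs)).add
      ((hg j).cut hχ.continuous hs)
  have huc : HasCompactSupport u := hs.mul_right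
  have hul : LocallyIntegrable u := hu2.locallyIntegrable (by norm_num)
  set v : ℕ → E → ℝ := fun n => mol (bump E n) u with hv
  have hvs : ∀ n, ContDiff ℝ 1 (v n) := fun n => (mol_contDiff _ hul).of_le (by simp)
  have hvc : ∀ n, HasCompactSupport (v n) := fun n => hcs_mol _ huc
  have hvd : ∀ n j x, pd j (v n) x = mol (bump E n) (w j) x := fun n j x =>
    pd_mol _ hul (fun ψ h _ => wder_cut hf (hg j) (hw j) hχ hs ψ h) x
  have hb : ∀ n, eLpNorm (v n) 6 volume
      ≤ eLpNormLESNormFDerivOfEqInnerConst (volume : Measure E) 2 * ∑ j, eLpNorm (w j) 2 volume := by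
    intro n
    have h := eLpNorm_le_eLpNorm_fderiv_of_eq_inner (volume : Measure E) (hvs n) (hvc n) (p := 2)
      (p' := 6) (by norm_num) (by simp) (by rw [finrank_E]; norm_num)
    have e6 : ((6 : ℝ≥0) : ℝ≥0∞) = 6 := by norm_num
    have e2 : ((2 : ℝ≥0) : ℝ≥0∞) = 2 := by norm_num
    rw [e6, e2] at h
    refine h.trans ?_
    have h3 : eLpNorm (fderiv ℝ (v n)) 2 volume ≤ ∑ j, eLpNorm (w j) 2 volume := by
      have h4 : eLpNorm (fderiv ℝ (v n)) 2 volume
          ≤ eLpNorm (∑ j, fun x => ‖mol (bump E n) (w j) x‖) 2 volume := by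
        apply eLpNorm_mono_real
        intro x
        rw [Finset.sum_apply]
        have h5 := norm_fderiv_sq_le (v n) x
        have h6 : ∑ i, pd i (v n) x ^ 2 ≤ (∑ j, ‖mol (bump E n) (w j) x‖) ^ 2 := by
          have : ∀ i, pd i (v n) x ^ 2 = ‖mol (bump E n) (w i) x‖ ^ 2 := fun i => by
            rw [hvd, Real.norm_eq_abs, sq_abs]
          simp only [this, Fin.sum_univ_three]
          have n0 := norm_nonneg (mol (bump E n) (w 0) x)
          have n1 := norm_nonneg (mol (bump E n) (w 1) x)
          have n2 := norm_nonneg (mol (bump E n) (w 2) x)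
          nlinarith [mul_nonneg n0 n1, mul_nonneg n0 n2, mul_nonneg n1 n2]
        exact abs_le_of_sq_le_sq' (h5.trans h6) (Finset.sum_nonneg fun i _ => norm_nonneg _) |>.2
      refine h4.trans ((eLpNorm_sum_le (fun j _ => ?_) (by norm_num)).trans ?_)
      · exact (memLp_mol _ (hw2 j)).1.norm
      · refine Finset.sum_le_sum fun j _ => ?_
        rw [eLpNorm_norm]
        have := eLpNorm_le_of_sq (C := 1) (f := mol (bump E n) (w j)) (g := w j) (μ := volume)
          (κ := volume) (by
            rw [one_pow, one_mul]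
            exact lintegral_mol_sq_le' _ (hw2 j).1)
        simpa using this
    exact mul_le_mul' le_rfl h3
  have hfin := isFin K hK
  have hconv : Tendsto (fun n => eLpNorm (v n - u) 2 (volume.restrict K)) atTop (𝓝 0) :=
    tendsto_mol_L2 Measure.restrict_le_self hu2
  have hm : TendstoInMeasure (volume.restrict K) v atTop u :=
    tendstoInMeasure_of_tendsto_eLpNorm (by norm_num)
      (fun n => (hvs n).continuous.aestronglyMeasurable) (hu2.1.mono_measure Measure.restrict_le_self)
      hconv
  obtain ⟨ns, _, hns⟩ := hm.exists_seq_tendsto_ae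
  have hl := Lp.eLpNorm_lim_le_liminf_eLpNorm (p := 6) (μ := volume.restrict K)
    (f := fun n => v (ns n)) (fun n => (hvs _).continuous.aestronglyMeasurable) u hns
  have hfu : f =ᵐ[volume.restrict K] u := by
    filter_upwards [ae_restrict_mem hK.measurableSet] with x hx
    have := (h1 x hx).self_of_nhds
    simp only [hu, this, one_mul]
  refine MemLp.ae_eq hfu.symm ⟨hu2.1.mono_measure Measure.restrict_le_self, ?_⟩
  refine hl.trans_lt ?_
  have hle : liminf (fun n => eLpNorm (v (ns n)) 6 (volume.restrict K)) atTop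
      ≤ eLpNormLESNormFDerivOfEqInnerConst (volume : Measure E) 2 * ∑ j, eLpNorm (w j) 2 volume := by
    apply liminf_le_of_le (by isBoundedDefault)
    intro b hb'
    obtain ⟨n, hn⟩ := hb'.exists
    exact hn.trans ((eLpNorm_mono_measure _ Measure.restrict_le_self).trans (hb _))
  refine hle.trans_lt ?_
  apply ENNReal.mul_lt_top
  · simp
  · exact ENNReal.sum_lt_top.2 fun j _ => (hw2 j).2

theorem tendsto_int_mul {K : Set E} {F : E → ℝ} (hF : MemLp F 2 (volume.restrict K))
    {h : ℕ → E → ℝ} {u : E → ℝ} (hu : MemLp u 2 (volume.restrict K))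
    (hh : ∀ n, MemLp (h n) 2 (volume.restrict K))
    (hc : Tendsto (fun n => eLpNorm (h n - u) 2 (volume.restrict K)) atTop (𝓝 0)) :
    Tendsto (fun n => ∫ x in K, F x * h n x) atTop (𝓝 (∫ x in K, F x * u x)) := by
  have h1 : Tendsto (fun n => ∫⁻ x in K, ‖F x * h n x - F x * u x‖ₑ) atTop (𝓝 0) := by
    have hle : ∀ n, ∫⁻ x in K, ‖F x * h n x - F x * u x‖ₑ
        ≤ eLpNorm F 2 (volume.restrict K) * eLpNorm (h n - u) 2 (volume.restrict K) := by
      intro n
      have := eLpNorm_smul_le_mul_eLpNorm (p := 2) (q := 2) (r := 1) ((hh n).sub hu).1 hF.1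
      rw [eLpNorm_one_eq_lintegral_enorm] at this
      refine le_trans (le_of_eq ?_) this
      apply lintegral_congr
      intro x
      simp [mul_sub]
    have hz : Tendsto (fun n => eLpNorm F 2 (volume.restrict K) * eLpNorm (h n - u) 2 (volume.restrict K))
        atTop (𝓝 0) := by
      have := ENNReal.Tendsto.const_mul hc (Or.inr hF.2.ne) (a := eLpNorm F 2 (volume.restrict K))
      simpa using this
    exact tendsto_of_tendsto_of_tendsto_of_le_of_le tendsto_const_nhds hz (fun _ => zero_le) hle
  exact tendsto_integral_of_L1 _ (hF.integrable_mul hu).1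
    (Eventually.of_forall fun n => hF.integrable_mul (hh n)) h1

/-- the product rule for weak derivatives -/
theorem wder_mul {j : Fin 3} {f g h k : E → ℝ} (hf : L2loc f) (hg : L2loc g) (hh : L2loc h)
    (hk : L2loc k) (hw : WDer j f g) (hw' : WDer j h k) :
    WDer j (fun x => f x * h x) (fun x => g x * h x + f x * k x) := by
  intro ψ hψ hψs
  set K := tsupport ψ with hKd
  have hK : IsCompact K := hψs
  obtain ⟨χ, hχ, hs, h1⟩ := exists_cut K hK
  set u : E → ℝ := fun x => χ x * h x with hu
  set w : E → ℝ := fun x => pd j χ x * h x + χ x * k x with hwd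
  have hu2 : MemLp u 2 volume := hh.cut hχ.continuous hs
  have hw2 : MemLp w 2 volume :=
    (hh.cut (continuous_pd (hχ.of_le (by simp))) (hasCompactSupport_pd hs)).add
      (hk.cut hχ.continuous hs)
  have hul : LocallyIntegrable u := hu2.locallyIntegrable (by norm_num)
  set v : ℕ → E → ℝ := fun n => mol (bump E n) u with hv
  set z : ℕ → E → ℝ := fun n => mol (bump E n) w with hz
  have hvs : ∀ n, ContDiff ℝ (⊤ : ℕ∞) (v n) := fun n => mol_contDiff _ hul
  have hvd : ∀ n x, pd j (v n) x = z n x := fun n x =>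
    pd_mol _ hul (fun ψ h _ => wder_cut hh hk hw' hχ hs ψ h) x
  have hfin := isFin K hK
  have hcv : Tendsto (fun n => eLpNorm (v n - u) 2 (volume.restrict K)) atTop (𝓝 0) :=
    tendsto_mol_L2 Measure.restrict_le_self hu2
  have hcz : Tendsto (fun n => eLpNorm (z n - w) 2 (volume.restrict K)) atTop (𝓝 0) :=
    tendsto_mol_L2 Measure.restrict_le_self hw2
  have mv : ∀ n, MemLp (v n) 2 (volume.restrict K) := fun n =>
    (memLp_mol _ hu2).mono_measure Measure.restrict_le_self
  have mz : ∀ n, MemLp (z n) 2 (volume.restrict K) := fun n =>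
    (memLp_mol _ hw2).mono_measure Measure.restrict_le_self
  have mu : MemLp u 2 (volume.restrict K) := hu2.mono_measure Measure.restrict_le_self
  have mw : MemLp w 2 (volume.restrict K) := hw2.mono_measure Measure.restrict_le_self
  have cψ : Continuous ψ := hψ.continuous
  have cpψ : Continuous (pd j ψ) := continuous_pd (hψ.of_le (by simp))
  have sψ : HasCompactSupport (pd j ψ) := hasCompactSupport_pd hψs
  have m1 : MemLp (fun x => pd j ψ x * f x) 2 (volume.restrict K) :=
    (hf.cut cpψ sψ).mono_measure Measure.restrict_le_self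
  have m2 : MemLp (fun x => ψ x * f x) 2 (volume.restrict K) :=
    (hf.cut cψ hψs).mono_measure Measure.restrict_le_self
  have m3 : MemLp (fun x => ψ x * g x) 2 (volume.restrict K) :=
    (hg.cut cψ hψs).mono_measure Measure.restrict_le_self
  -- integrals over `K` of products with `ψ`
  have on : ∀ (a b : E → ℝ), (∀ x, x ∉ K → a x = 0) → ∫ x, a x * b x = ∫ x in K, a x * b x := by
    intro a b ha
    rw [setIntegral_eq_integral_of_forall_compl_eq_zero]
    intro x hx; rw [ha x hx, zero_mul]
  have z0 : ∀ x, x ∉ K → ψ x = 0 := fun x hx => image_eq_zero_of_notMem_tsupport hx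
  have z1 : ∀ x, x ∉ K → pd j ψ x = 0 := fun x hx =>
    image_eq_zero_of_notMem_tsupport (fun h' => hx (tsupport_pd ψ h'))
  have id : ∀ n, (∫ x in K, (pd j ψ x * f x) * v n x) + (∫ x in K, (ψ x * f x) * z n x)
      = - ∫ x in K, (ψ x * g x) * v n x := by
    intro n
    have h2 := hw (fun x => ψ x * v n x) (hψ.mul (hvs n)) hψs.mul_right
    have hd : ∀ x, pd j (fun x => ψ x * v n x) x = pd j ψ x * v n x + ψ x * z n x := fun x => by
      rw [pd_mul (hψ.differentiable (by simp)) ((hvs n).differentiable (by simp)) x, hvd]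
    have e1 : ∫ x, f x * pd j (fun x => ψ x * v n x) x
        = (∫ x, (pd j ψ x * f x) * v n x) + ∫ x, (ψ x * f x) * z n x := by
      rw [← integral_add]
      · congr 1; funext x; rw [hd]; ring
      · have := li_int hf.li (cpψ.mul (hvs n).continuous) sψ.mul_right
        refine this.congr (Eventually.of_forall fun x => ?_)
        simp only [Pi.mul_apply]; ring
      · have cz : Continuous (z n) :=
          (mol_contDiff _ (hw2.locallyIntegrable (by norm_num))).continuous
        have := li_int hf.li (cψ.mul cz) hψs.mul_right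
        refine this.congr (Eventually.of_forall fun x => ?_)
        simp only [Pi.mul_apply]; ring
    have e2 : ∫ x, g x * (ψ x * v n x) = ∫ x, (ψ x * g x) * v n x := by
      congr 1; funext x; ring
    rw [e1, e2] at h2
    rw [on (fun x => pd j ψ x * f x) (v n) (fun x hx => by simp [z1 x hx]),
      on (fun x => ψ x * f x) (z n) (fun x hx => by simp [z0 x hx]),
      on (fun x => ψ x * g x) (v n) (fun x hx => by simp [z0 x hx])] at h2
    exact h2
  have t1 := (tendsto_int_mul m1 mu mv hcv).add (tendsto_int_mul m2 mw mz hcz)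
  have t2 := (tendsto_int_mul m3 mu mv hcv).neg
  have key : (∫ x in K, (pd j ψ x * f x) * u x) + (∫ x in K, (ψ x * f x) * w x)
      = - ∫ x in K, (ψ x * g x) * u x :=
    tendsto_nhds_unique t1 (by simpa only [id] using t2)
  have hux : ∀ x ∈ K, u x = h x := fun x hx => by
    have := (h1 x hx).self_of_nhds
    simp only [hu, this, one_mul]
  have hwx : ∀ x ∈ K, w x = k x := fun x hx => by
    have a1 := (h1 x hx).self_of_nhds
    have a2 : pd j χ x = 0 := by rw [pd_congr_at (h1 x hx), pd_const]
    simp only [hwd, a1, a2, one_mul, zero_mul, zero_add]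
  have c1 : ∫ x in K, (pd j ψ x * f x) * u x = ∫ x, (f x * h x) * pd j ψ x := by
    rw [setIntegral_congr_fun hK.measurableSet (g := fun x => (pd j ψ x * f x) * h x)
      (fun x hx => by simp only [hux x hx]), ← on (fun x => pd j ψ x * f x) h (fun x hx => by simp [z1 x hx])]
    congr 1; funext x; ring
  have c2 : ∫ x in K, (ψ x * f x) * w x = ∫ x, (f x * k x) * ψ x := by
    rw [setIntegral_congr_fun hK.measurableSet (g := fun x => (ψ x * f x) * k x)
      (fun x hx => by simp only [hwx x hx]), ← on (fun x => ψ x * f x) k (fun x hx => by simp [z0 x hx])]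
    congr 1; funext x; ring
  have c3 : ∫ x in K, (ψ x * g x) * u x = ∫ x, (g x * h x) * ψ x := by
    rw [setIntegral_congr_fun hK.measurableSet (g := fun x => (ψ x * g x) * h x)
      (fun x hx => by simp only [hux x hx]), ← on (fun x => ψ x * g x) h (fun x hx => by simp [z0 x hx])]
    congr 1; funext x; ring
  rw [c1, c2, c3] at key
  have i1 : Integrable (fun x => (g x * h x) * ψ x) := li_int (hg.mul_li hh) cψ hψs
  have i2 : Integrable (fun x => (f x * k x) * ψ x) := li_int (hf.mul_li hk) cψ hψs
  have e : ∫ x, (g x * h x + f x * k x) * ψ x = (∫ x, (g x * h x) * ψ x) + ∫ x, (f x * k x) * ψ x := by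
    rw [← integral_add i1 i2]
    congr 1; funext x; ring
  rw [e]
  linarith

end Leray
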