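import Pool.Agent.Lib.MP_9b9638_an.Calc
import Pool.Agent.Lib.MP_9b9638_an.Sob
import Pool.Agent.Lib.MP_9b9638_an.KerDefs

/-! # Leray profiles, module REG-C, part 1: Hoelder classes -/

open MeasureTheory Set Filter Topology TopologicalSpace

noncomputable section
namespace Leray
namespace RegC

theorem fderiv_eq_sum (f : E → ℝ) (x : E) :
    fderiv ℝ f x = ∑ i, pd i f x • (EuclideanSpace.proj i : E →L[ℝ] ℝ) := by
  ext v
  have hv : v = ∑ i, v i • ei i := by
    ext j
    simp [ei, Fin.sum_univ_three]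
    fin_cases j <;> simp
  have h1 : fderiv ℝ f x v = ∑ i, v i * pd i f x := by
    conv_lhs => rw [hv]
    rw [map_sum]
    simp [pd]
  rw [h1]
  simp [Fin.sum_univ_three, mul_comm]

theorem contDiff_succ_of_pd {n : ℕ} {f : E → ℝ} (hd : Differentiable ℝ f)
    (h : ∀ i, ContDiff ℝ n (pd i f)) : ContDiff ℝ (n + 1 : ℕ) f := by
  have h1 : ContDiff ℝ n (fderiv ℝ f) := by
    have : fderiv ℝ f = fun x => ∑ i, pd i f x • (EuclideanSpace.proj i : E →L[ℝ] ℝ) :=
      funext (fderiv_eq_sum f)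
    rw [this]
    apply ContDiff.sum
    intro i _
    exact (h i).smul contDiff_const
  have h2 := (contDiff_succ_iff_fderiv (𝕜 := ℝ) (f := f) (n := (n : WithTop ℕ∞))).2
    ⟨hd, by simp, h1⟩
  exact_mod_cast h2

theorem contDiff_pd_of_succ {n : ℕ} {f : E → ℝ} (hf : ContDiff ℝ (n + 1 : ℕ) f) (i : Fin 3) :
    ContDiff ℝ n (pd i f) := contDiff_pd hf (by norm_cast)

/-- locally Hoelder continuous with exponent `1/2` -/
def LH (f : E → ℝ) : Prop :=
  ∀ R : ℝ, ∃ L : ℝ, ∀ x y : E, ‖x‖ ≤ R → ‖y‖ ≤ R → |f x - f y| ≤ L * Real.sqrt ‖x - y‖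

theorem LH.continuous {f : E → ℝ} (h : LH f) : Continuous f := by
  rw [continuous_iff_continuousAt]
  intro x
  obtain ⟨L, hL⟩ := h (‖x‖ + 1)
  have h1 : Tendsto (fun y => L * Real.sqrt ‖y - x‖) (𝓝 x) (𝓝 0) := by
    have : Continuous (fun y : E => L * Real.sqrt ‖y - x‖) := by fun_prop
    have h2 := this.tendsto x
    simpa using h2
  rw [ContinuousAt, tendsto_iff_norm_sub_tendsto_zero]
  apply squeeze_zero' (Eventually.of_forall fun _ => norm_nonneg _) _ h1
  filter_upwards [Metric.ball_mem_nhds x zero_lt_one] with y hy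
  rw [Real.norm_eq_abs]
  apply hL
  · rw [Metric.mem_ball, dist_eq_norm] at hy
    have := norm_le_norm_add_norm_sub' y x
    rw [norm_sub_rev] at this
    have h3 : ‖y‖ ≤ ‖x‖ + ‖y - x‖ := by
      calc ‖y‖ = ‖x + (y - x)‖ := by rw [add_sub_cancel]
        _ ≤ _ := norm_add_le _ _
    linarith
  · linarith

theorem LH.bdd {f : E → ℝ} (h : Continuous f) (R : ℝ) : ∃ B : ℝ, 0 ≤ B ∧ ∀ x : E, ‖x‖ ≤ R → |f x| ≤ B := by
  obtain ⟨B, hB⟩ := (isCompact_closedBall (0 : E) R).exists_bound_of_continuousOn h.continuousOn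
  refine ⟨max B 0, le_max_right _ _, fun x hx => ?_⟩
  have := hB x (by simpa using hx)
  rw [Real.norm_eq_abs] at this
  exact this.trans (le_max_left _ _)

theorem LH.exists_nonneg {f : E → ℝ} (h : LH f) (R : ℝ) : ∃ L : ℝ, 0 ≤ L ∧ ∀ x y : E, ‖x‖ ≤ R → ‖y‖ ≤ R →
    |f x - f y| ≤ L * Real.sqrt ‖x - y‖ := by
  obtain ⟨L, hL⟩ := h R
  refine ⟨max L 0, le_max_right _ _, fun x y hx hy => (hL x y hx hy).trans ?_⟩
  exact mul_le_mul_of_nonneg_right (le_max_left _ _) (Real.sqrt_nonneg _)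

theorem LH.add {f g : E → ℝ} (hf : LH f) (hg : LH g) : LH (fun x => f x + g x) := by
  intro R
  obtain ⟨L, hL⟩ := hf R
  obtain ⟨M, hM⟩ := hg R
  refine ⟨L + M, fun x y hx hy => ?_⟩
  have h1 := hL x y hx hy
  have h2 := hM x y hx hy
  have e : f x + g x - (f y + g y) = (f x - f y) + (g x - g y) := by ring
  rw [e, add_mul]
  exact (abs_add_le _ _).trans (add_le_add h1 h2)

theorem LH.mul {f g : E → ℝ} (hf : LH f) (hg : LH g) : LH (fun x => f x * g x) := by
  intro R
  obtain ⟨L, hL0, hL⟩ := hf.exists_nonneg R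
  obtain ⟨M, hM0, hM⟩ := hg.exists_nonneg R
  obtain ⟨A, hA0, hA⟩ := LH.bdd hf.continuous R
  obtain ⟨B, hB0, hB⟩ := LH.bdd hg.continuous R
  refine ⟨A * M + B * L, fun x y hx hy => ?_⟩
  have h1 := hL x y hx hy
  have h2 := hM x y hx hy
  have e : f x * g x - f y * g y = f x * (g x - g y) + g y * (f x - f y) := by ring
  rw [e]
  refine (abs_add_le _ _).trans ?_
  rw [abs_mul, abs_mul]
  have h3 : |f x| * |g x - g y| ≤ A * (M * Real.sqrt ‖x - y‖) :=
    mul_le_mul (hA x hx) h2 (abs_nonneg _) hA0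
  have h4 : |g y| * |f x - f y| ≤ B * (L * Real.sqrt ‖x - y‖) :=
    mul_le_mul (hB y hy) h1 (abs_nonneg _) hB0
  calc _ ≤ A * (M * Real.sqrt ‖x - y‖) + B * (L * Real.sqrt ‖x - y‖) := add_le_add h3 h4
    _ = _ := by ring

theorem LH.of_contDiff {f : E → ℝ} (hf : ContDiff ℝ 1 f) : LH f := by
  intro R
  obtain ⟨M, hM⟩ := (isCompact_closedBall (0 : E) R).exists_bound_of_continuousOn
    (hf.continuous_fderiv one_ne_zero).continuousOn
  refine ⟨max M 0 * Real.sqrt (2 * R), fun x y hx hy => ?_⟩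
  have h1 := (convex_closedBall (0 : E) R).norm_image_sub_le_of_norm_fderiv_le
    (fun z _ => (hf.differentiable one_ne_zero z)) (fun z hz => hM z hz)
    (show y ∈ Metric.closedBall (0 : E) R by simpa using hy)
    (show x ∈ Metric.closedBall (0 : E) R by simpa using hx)
  rw [Real.norm_eq_abs] at h1
  have h2 : ‖x - y‖ ≤ 2 * R := by
    have := norm_sub_le x y
    linarith
  have h3 : ‖x - y‖ = Real.sqrt ‖x - y‖ * Real.sqrt ‖x - y‖ := (Real.mul_self_sqrt (norm_nonneg _)).symm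
  have h4 : Real.sqrt ‖x - y‖ ≤ Real.sqrt (2 * R) := Real.sqrt_le_sqrt h2
  calc |f x - f y| ≤ M * ‖x - y‖ := h1
    _ ≤ max M 0 * ‖x - y‖ := mul_le_mul_of_nonneg_right (le_max_left _ _) (norm_nonneg _)
    _ = max M 0 * (Real.sqrt ‖x - y‖ * Real.sqrt ‖x - y‖) := by rw [← h3]
    _ ≤ max M 0 * (Real.sqrt (2 * R) * Real.sqrt ‖x - y‖) := by
        apply mul_le_mul_of_nonneg_left _ (le_max_right _ _)
        exact mul_le_mul_of_nonneg_right h4 (Real.sqrt_nonneg _)
    _ = _ := by ring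

/-- `n` times differentiable with locally Hoelder continuous `n`-th derivatives -/
def HC : ℕ → (E → ℝ) → Prop
  | 0, f => LH f
  | n + 1, f => Differentiable ℝ f ∧ ∀ i, HC n (pd i f)

theorem HC.contDiff : ∀ {n : ℕ} {f : E → ℝ}, HC n f → ContDiff ℝ n f
  | 0, f, h => by
      rw [Nat.cast_zero, contDiff_zero]
      exact LH.continuous h
  | n + 1, f, h => contDiff_succ_of_pd h.1 (fun i => HC.contDiff (h.2 i))

theorem HC.of_contDiff : ∀ {n : ℕ} {f : E → ℝ}, ContDiff ℝ (n + 1 : ℕ) f → HC n f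
  | 0, f, h => LH.of_contDiff (by simpa using h)
  | n + 1, f, h => by
      refine ⟨h.differentiable (by norm_cast), fun i => HC.of_contDiff ?_⟩
      exact contDiff_pd_of_succ h i

theorem HC.of_succ : ∀ {n : ℕ} {f : E → ℝ}, HC (n + 1) f → HC n f := by
  intro n f h
  exact HC.of_contDiff h.contDiff

theorem HC.add : ∀ {n : ℕ} {f g : E → ℝ}, HC n f → HC n g → HC n (fun x => f x + g x)
  | 0, f, g, hf, hg => LH.add hf hg
  | n + 1, f, g, hf, hg => by
      refine ⟨hf.1.add hg.1, fun i => ?_⟩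
      have : pd i (fun x => f x + g x) = fun x => pd i f x + pd i g x := funext (pd_add hf.1 hg.1)
      rw [this]
      exact HC.add (hf.2 i) (hg.2 i)

theorem HC.mul : ∀ {n : ℕ} {f g : E → ℝ}, HC n f → HC n g → HC n (fun x => f x * g x)
  | 0, f, g, hf, hg => LH.mul hf hg
  | n + 1, f, g, hf, hg => by
      refine ⟨hf.1.mul hg.1, fun i => ?_⟩
      have : pd i (fun x => f x * g x) = fun x => pd i f x * g x + f x * pd i g x := by
        funext x
        rw [pd_mul hf.1 hg.1]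
      rw [this]
      exact HC.add (HC.mul (hf.2 i) hg.of_succ) (HC.mul hf.of_succ (hg.2 i))

theorem HC.sum {n : ℕ} {ι : Type*} (s : Finset ι) {f : ι → E → ℝ} (hf : ∀ i, HC n (f i)) :
    HC n (fun x => ∑ i ∈ s, f i x) := by
  classical
  induction s using Finset.induction_on with
  | empty =>
    simp only [Finset.sum_empty]
    exact HC.of_contDiff contDiff_const
  | insert a s ha ih =>
    simp only [Finset.sum_insert ha]
    exact HC.add (hf a) ih

theorem HC.coord (n : ℕ) (j : Fin 3) : HC n (fun y : E => y j) := HC.of_contDiff (contDiff_coord j)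

end RegC
end Leray
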