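import Pool.Agent.Lib.MP_9b9638_an.RegC1

/-! # Leray profiles, module REG-C, part 2: singular kernels -/

open MeasureTheory Set Filter Topology TopologicalSpace

noncomputable section
namespace Leray
namespace RegC

variable {K : E → ℝ}

theorem aesm (h : Ker K) : AEStronglyMeasurable K volume := by
  have h1 := h.smooth.continuousOn.aestronglyMeasurable (μ := (volume : Measure E))
    (measurableSet_singleton (0 : E)).compl
  rwa [restrict_compl_singleton] at h1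

theorem ker_bounds (h : Ker K) : ∃ C : ℝ, 0 ≤ C ∧ ∀ z : E, z ≠ 0 → |K z| ≤ C / ‖z‖ ^ 2 ∧
    (∀ i, |pd i K z| ≤ C / ‖z‖ ^ 3) ∧ ‖fderiv ℝ K z‖ ≤ C / ‖z‖ ^ 3 := by
  obtain ⟨C1, h1⟩ := h.bd
  obtain ⟨C2, h2⟩ := h.bd1
  set C := max C1 (max C2 0) with hC
  have hC0 : 0 ≤ C := le_max_of_le_right (le_max_right _ _)
  refine ⟨2 * C, by positivity, ?_⟩
  intro z hz
  have hz0 : 0 < ‖z‖ := norm_pos_iff.2 hz
  have e1 : |K z| ≤ C / ‖z‖ ^ 2 :=
    (h1 z hz).trans (div_le_div_of_nonneg_right (le_max_left _ _) (by positivity))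
  have e2 : ∀ i, |pd i K z| ≤ C / ‖z‖ ^ 3 := fun i =>
    (h2 z hz i).trans (div_le_div_of_nonneg_right (le_max_of_le_right (le_max_left _ _)) (by positivity))
  have e3 : ‖fderiv ℝ K z‖ ^ 2 ≤ (2 * C / ‖z‖ ^ 3) ^ 2 := by
    refine (norm_fderiv_sq_le K z).trans ?_
    have e4 : ∀ i, pd i K z ^ 2 ≤ (C / ‖z‖ ^ 3) ^ 2 := fun i => by
      rw [← sq_abs]; exact pow_le_pow_left₀ (abs_nonneg _) (e2 i) 2
    rw [Fin.sum_univ_three]
    have := e4 0
    have := e4 1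
    have := e4 2
    have e5 : (2 * C / ‖z‖ ^ 3) ^ 2 = 4 * (C / ‖z‖ ^ 3) ^ 2 := by ring
    rw [e5]
    have e6 : 0 ≤ (C / ‖z‖ ^ 3) ^ 2 := by positivity
    linarith
  have e7 : ‖fderiv ℝ K z‖ ≤ 2 * C / ‖z‖ ^ 3 := by
    have : 0 ≤ 2 * C / ‖z‖ ^ 3 := by positivity
    exact (sq_le_sq₀ (norm_nonneg _) this).1 e3
  refine ⟨e1.trans ?_, fun i => (e2 i).trans ?_, e7⟩
  · apply div_le_div_of_nonneg_right _ (by positivity); linarith
  · apply div_le_div_of_nonneg_right _ (by positivity); linarith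

theorem integrable_of_pow {f : E → ℝ} (hm : AEStronglyMeasurable f volume) {C α R : ℝ} (hα : α < 3)
    (h0 : ∀ z, R ≤ ‖z‖ → f z = 0) (hb : ∀ z, z ≠ 0 → |f z| ≤ C * ‖z‖ ^ (-α)) : Integrable f := by
  have h1 : IntegrableOn f (Metric.ball 0 R) volume := by
    apply integrableOn_ball_of_norm_le_rpow (C := C) (α := α) (by simp)
      (by rw [finrank_E]; exact_mod_cast hα) _ hm
    apply ae_restrict_of_ae
    have : ∀ᵐ z : E, z ≠ 0 := by
      have := (measure_singleton (μ := (volume : Measure E)) (0 : E))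
      rw [ae_iff]
      simp
    filter_upwards [this] with z hz
    rw [Real.norm_eq_abs]
    exact hb z hz
  rwa [integrableOn_iff_integrable_of_support_subset] at h1
  intro z hz
  rw [Metric.mem_ball, dist_zero_right]
  by_contra hlt
  exact hz (h0 z (not_lt.1 hlt))

theorem ae_ne_zero : ∀ᵐ z : E, z ≠ 0 := by
  rw [ae_iff]
  simp

theorem ae_ne (x : E) : ∀ᵐ z : E, z ≠ x := by
  rw [ae_iff]
  simp

theorem rpow_two {a : ℝ} (ha : 0 < a) : 1 / a ^ 2 = a ^ (-(2 : ℝ)) := by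
  rw [Real.rpow_neg ha.le, show (2 : ℝ) = ((2 : ℕ) : ℝ) by norm_num, Real.rpow_natCast, one_div]

theorem ker_integrable (h : Ker K) : Integrable K := by
  obtain ⟨C, hC, hb⟩ := ker_bounds h
  apply integrable_of_pow (aesm h) (C := C) (α := 2) (R := 1) (by norm_num) h.supp
  intro z hz
  refine (hb z hz).1.trans (le_of_eq ?_)
  rw [← rpow_two (norm_pos_iff.2 hz)]
  ring

/-- the majorant `|z|^{-5/2}` on the ball of radius 2 -/
def maj (z : E) : ℝ := (Metric.ball (0 : E) 2).indicator (fun z => ‖z‖ ^ (-(5 / 2) : ℝ)) z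

theorem maj_nonneg (z : E) : 0 ≤ maj z := by
  unfold maj
  apply indicator_nonneg
  intro z _
  positivity

theorem measurable_maj : Measurable maj := by
  unfold maj
  apply Measurable.indicator _ measurableSet_ball
  fun_prop

theorem integrable_maj : Integrable maj := by
  apply integrable_of_pow measurable_maj.aestronglyMeasurable (C := 1) (α := 5 / 2) (R := 2) (by norm_num)
  · intro z hz
    unfold maj
    rw [indicator_of_notMem]
    rw [Metric.mem_ball, dist_zero_right]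
    exact not_lt.2 hz
  · intro z hz
    rw [abs_of_nonneg (maj_nonneg z), one_mul]
    unfold maj
    apply indicator_le_self' _ z
    intro z _
    positivity

theorem pow_eq_a {a : ℝ} (ha : 0 < a) : Real.sqrt a / a ^ 3 = a ^ (-(5 / 2) : ℝ) := by
  rw [Real.sqrt_eq_rpow, div_eq_mul_inv, ← Real.rpow_natCast a 3, ← Real.rpow_neg ha.le,
    ← Real.rpow_add ha]
  norm_num

theorem pow_eq_b {a : ℝ} (ha : 0 < a) : 1 / a ^ 2 = Real.sqrt a * a ^ (-(5 / 2) : ℝ) := by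
  rw [rpow_two ha, Real.sqrt_eq_rpow, ← Real.rpow_add ha]
  norm_num

theorem ker_mvt (h : Ker K) {C : ℝ} (hC : 0 ≤ C) (hb : ∀ z : E, z ≠ 0 → ‖fderiv ℝ K z‖ ≤ C / ‖z‖ ^ 3)
    {z z' : E} (hz : z ≠ 0) (hd : ‖z' - z‖ ≤ ‖z‖ / 2) :
    |K z' - K z| ≤ 8 * C * Real.sqrt ‖z' - z‖ * ‖z‖ ^ (-(5 / 2) : ℝ) := by
  have ha : 0 < ‖z‖ := norm_pos_iff.2 hz
  have hball : ∀ y ∈ Metric.closedBall z (‖z‖ / 2), ‖z‖ / 2 ≤ ‖y‖ := by
    intro y hy
    rw [Metric.mem_closedBall, dist_eq_norm] at hy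
    have := norm_sub_norm_le z y
    rw [norm_sub_rev] at this
    linarith
  have hne : ∀ y ∈ Metric.closedBall z (‖z‖ / 2), y ≠ 0 := by
    intro y hy h0
    have := hball y hy
    rw [h0, norm_zero] at this
    linarith
  have hdiff : ∀ y ∈ Metric.closedBall z (‖z‖ / 2), DifferentiableAt ℝ K y := by
    intro y hy
    exact (h.smooth.contDiffAt (isOpen_compl_singleton.mem_nhds (hne y hy))).differentiableAt (by simp)
  have hbd : ∀ y ∈ Metric.closedBall z (‖z‖ / 2), ‖fderiv ℝ K y‖ ≤ 8 * C / ‖z‖ ^ 3 := by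
    intro y hy
    refine (hb y (hne y hy)).trans ?_
    have h1 : (‖z‖ / 2) ^ 3 ≤ ‖y‖ ^ 3 := pow_le_pow_left₀ (by positivity) (hball y hy) 3
    calc C / ‖y‖ ^ 3 ≤ C / (‖z‖ / 2) ^ 3 := div_le_div_of_nonneg_left hC (by positivity) h1
      _ = 8 * C / ‖z‖ ^ 3 := by field_simp; norm_num
  have h1 := (convex_closedBall z (‖z‖ / 2)).norm_image_sub_le_of_norm_fderiv_le hdiff hbd
    (Metric.mem_closedBall_self (by positivity))
    (show z' ∈ Metric.closedBall z (‖z‖ / 2) by rw [Metric.mem_closedBall, dist_eq_norm]; exact hd)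
  rw [Real.norm_eq_abs] at h1
  have h2 : ‖z' - z‖ = Real.sqrt ‖z' - z‖ * Real.sqrt ‖z' - z‖ := (Real.mul_self_sqrt (norm_nonneg _)).symm
  have h3 : Real.sqrt ‖z' - z‖ ≤ Real.sqrt ‖z‖ := Real.sqrt_le_sqrt (by linarith)
  calc |K z' - K z| ≤ 8 * C / ‖z‖ ^ 3 * ‖z' - z‖ := h1
    _ = 8 * C / ‖z‖ ^ 3 * (Real.sqrt ‖z' - z‖ * Real.sqrt ‖z' - z‖) := by rw [← h2]
    _ ≤ 8 * C / ‖z‖ ^ 3 * (Real.sqrt ‖z' - z‖ * Real.sqrt ‖z‖) := by
        apply mul_le_mul_of_nonneg_left _ (by positivity)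
        exact mul_le_mul_of_nonneg_left h3 (Real.sqrt_nonneg _)
    _ = 8 * C * Real.sqrt ‖z' - z‖ * (Real.sqrt ‖z‖ / ‖z‖ ^ 3) := by ring
    _ = _ := by rw [pow_eq_a ha]

theorem ker_holder (h : Ker K) : ∃ C : ℝ, 0 ≤ C ∧ ∀ z z' : E, z ≠ 0 → z' ≠ 0 →
    |K z - K z'| ≤ C * Real.sqrt ‖z - z'‖ * (‖z‖ ^ (-(5 / 2) : ℝ) + ‖z'‖ ^ (-(5 / 2) : ℝ)) := by
  obtain ⟨C, hC, hb⟩ := ker_bounds h
  refine ⟨8 * C, by positivity, ?_⟩
  intro z z' hz hz'
  have ha : 0 < ‖z‖ := norm_pos_iff.2 hz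
  have hb' : 0 < ‖z'‖ := norm_pos_iff.2 hz'
  have p1 : 0 ≤ ‖z‖ ^ (-(5 / 2) : ℝ) := by positivity
  have p2 : 0 ≤ ‖z'‖ ^ (-(5 / 2) : ℝ) := by positivity
  have ps : 0 ≤ Real.sqrt ‖z - z'‖ := Real.sqrt_nonneg _
  by_cases h1 : ‖z - z'‖ ≤ ‖z‖ / 2
  · have h2 := ker_mvt h hC (fun w hw => (hb w hw).2.2) hz (z' := z') (by rwa [norm_sub_rev])
    rw [abs_sub_comm, norm_sub_rev] at h2
    have h3 : 0 ≤ 8 * C * Real.sqrt ‖z - z'‖ * ‖z'‖ ^ (-(5 / 2) : ℝ) := by positivity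
    nlinarith [h2, h3]
  · by_cases h1' : ‖z - z'‖ ≤ ‖z'‖ / 2
    · have h2 := ker_mvt h hC (fun w hw => (hb w hw).2.2) hz' (z' := z) h1'
      have h3 : 0 ≤ 8 * C * Real.sqrt ‖z - z'‖ * ‖z‖ ^ (-(5 / 2) : ℝ) := by positivity
      nlinarith [h2, h3]
    · push Not at h1 h1'
      have key : ∀ w : E, w ≠ 0 → ‖w‖ / 2 < ‖z - z'‖ →
          |K w| ≤ 8 * C * Real.sqrt ‖z - z'‖ * ‖w‖ ^ (-(5 / 2) : ℝ) := by
        intro w hw hlt
        have hw0 : 0 < ‖w‖ := norm_pos_iff.2 hw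
        refine (hb w hw).1.trans ?_
        have e1 : C / ‖w‖ ^ 2 = C * (Real.sqrt ‖w‖ * ‖w‖ ^ (-(5 / 2) : ℝ)) := by
          rw [← pow_eq_b hw0]; ring
        rw [e1]
        have e2 : Real.sqrt ‖w‖ ≤ 8 * Real.sqrt ‖z - z'‖ := by
          have : Real.sqrt ‖w‖ ≤ Real.sqrt (64 * ‖z - z'‖) := Real.sqrt_le_sqrt (by
            have := norm_nonneg (z - z'); linarith)
          rw [Real.sqrt_mul (by norm_num), show Real.sqrt 64 = 8 by
            rw [show (64 : ℝ) = 8 ^ 2 by norm_num]; exact Real.sqrt_sq (by norm_num)] at this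
          exact this
        have p3 : 0 ≤ ‖w‖ ^ (-(5 / 2) : ℝ) := by positivity
        calc C * (Real.sqrt ‖w‖ * ‖w‖ ^ (-(5 / 2) : ℝ)) ≤
              C * (8 * Real.sqrt ‖z - z'‖ * ‖w‖ ^ (-(5 / 2) : ℝ)) :=
              mul_le_mul_of_nonneg_left (mul_le_mul_of_nonneg_right e2 p3) hC
          _ = _ := by ring
      have k1 := key z hz h1
      have k2 := key z' hz' h1'
      calc |K z - K z'| ≤ |K z| + |K z'| := abs_sub _ _
        _ ≤ _ := by rw [mul_add]; exact add_le_add k1 k2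

end RegC
end Leray
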