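import Pool.Agent.Lib.MP_9b9638_an.RegC2
import Pool.Agent.Lib.MP_9b9638_an.Cutoff

/-! # Leray profiles, module REG-C, part 3: convolutions -/

open MeasureTheory Set Filter Topology TopologicalSpace

noncomputable section
namespace Leray
namespace RegC

variable {K g : E → ℝ}

theorem cv_swap (K g : E → ℝ) (x : E) : cv K g x = ∫ w, K (x - w) * g w := by
  unfold cv
  rw [← integral_sub_left_eq_self (fun z => K z * g (x - z)) volume x]
  simp

theorem cv_comm (K g : E → ℝ) (x : E) : cv K g x = cv g K x := by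
  rw [cv_swap]
  unfold cv
  congr 1
  funext w
  rw [mul_comm]

theorem cv_congr (h : ∀ z : E, 1 ≤ ‖z‖ → K z = 0) {g g' : E → ℝ} {x : E}
    (hg : ∀ᵐ w, ‖x - w‖ < 1 → g w = g' w) : cv K g x = cv K g' x := by
  rw [cv_swap, cv_swap]
  apply integral_congr_ae
  filter_upwards [hg] with w hw
  by_cases h1 : ‖x - w‖ < 1
  · rw [hw h1]
  · rw [h _ (not_lt.1 h1)]; simp

theorem cv_congr_ae {g g' : E → ℝ} (hg : g =ᵐ[volume] g') (x : E) : cv K g x = cv K g' x := by
  rw [cv_swap, cv_swap]
  apply integral_congr_ae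
  filter_upwards [hg] with w hw
  rw [hw]

theorem aesm_shift {g : E → ℝ} (hg : AEStronglyMeasurable g volume) (x : E) :
    AEStronglyMeasurable (fun z => g (x - z)) volume :=
  hg.comp_quasiMeasurePreserving (quasiMeasurePreserving_sub_left volume x)

theorem integrable_shift {g : E → ℝ} (hg : Integrable g volume) (x : E) :
    Integrable (fun z => g (x - z)) volume := hg.comp_sub_left x

/-- convolution of an integrable function and a bounded one -/
theorem cv_integrand_integrable {f g : E → ℝ} (hf : Integrable f) (hg : AEStronglyMeasurable g volume)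
    {B : ℝ} (hB : ∀ x, |g x| ≤ B) (x : E) : Integrable (fun w => f (x - w) * g w) := by
  exact (integrable_shift hf x).mul_bdd hg (Eventually.of_forall fun w => by
    rw [Real.norm_eq_abs]; exact hB w)

theorem ker_diff_maj (h : Ker K) : ∃ C : ℝ, 0 ≤ C ∧ ∀ z z' : E, z ≠ 0 → z' ≠ 0 → ‖z - z'‖ ≤ 1 →
    |K z - K z'| ≤ C * Real.sqrt ‖z - z'‖ * (maj z + maj z') := by
  obtain ⟨C, hC, hb⟩ := ker_holder h
  refine ⟨C, hC, fun z z' hz hz' hd => ?_⟩
  have t1 : ‖z‖ ≤ ‖z'‖ + ‖z - z'‖ := by
    calc ‖z‖ = ‖z' + (z - z')‖ := by rw [add_sub_cancel]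
      _ ≤ _ := norm_add_le _ _
  have t2 : ‖z'‖ ≤ ‖z‖ + ‖z - z'‖ := by
    calc ‖z'‖ = ‖z - (z - z')‖ := by rw [sub_sub_cancel]
      _ ≤ _ := norm_sub_le _ _
  have p : 0 ≤ C * Real.sqrt ‖z - z'‖ * (maj z + maj z') :=
    mul_nonneg (by positivity) (add_nonneg (maj_nonneg _) (maj_nonneg _))
  by_cases h1 : ‖z‖ < 2
  · by_cases h2 : ‖z'‖ < 2
    · have e1 : maj z = ‖z‖ ^ (-(5 / 2) : ℝ) := by
        unfold maj
        rw [indicator_of_mem]
        rw [Metric.mem_ball, dist_zero_right]; exact h1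
      have e2 : maj z' = ‖z'‖ ^ (-(5 / 2) : ℝ) := by
        unfold maj
        rw [indicator_of_mem]
        rw [Metric.mem_ball, dist_zero_right]; exact h2
      rw [e1, e2]
      exact hb z z' hz hz'
    · rw [h.supp z (by linarith), h.supp z' (by linarith)]
      simpa using p
  · rw [h.supp z (by linarith), h.supp z' (by linarith)]
    simpa using p

theorem cv_holder_bdd (h : Ker K) : ∃ C : ℝ, 0 ≤ C ∧ ∀ (g : E → ℝ) (B : ℝ), AEStronglyMeasurable g volume →
    0 ≤ B → (∀ x, |g x| ≤ B) → ∀ x y, |cv K g x - cv K g y| ≤ C * B * Real.sqrt ‖x - y‖ := by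
  obtain ⟨C, hC, hb⟩ := ker_diff_maj h
  set I : ℝ := ∫ z, maj z
  have hI : 0 ≤ I := integral_nonneg maj_nonneg
  set N : ℝ := ∫ z, |K z|
  have hN : 0 ≤ N := integral_nonneg fun z => abs_nonneg _
  refine ⟨C * (2 * I) + 2 * N, by positivity, ?_⟩
  intro g B hg hB0 hB x y
  have i1 := cv_integrand_integrable (ker_integrable h) hg hB x
  have i2 := cv_integrand_integrable (ker_integrable h) hg hB y
  have hsub : cv K g x - cv K g y = ∫ w, (K (x - w) - K (y - w)) * g w := by
    rw [cv_swap, cv_swap, ← integral_sub i1 i2]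
    congr 1; funext w; ring
  have hs := Real.sqrt_nonneg ‖x - y‖
  by_cases hxy : ‖x - y‖ ≤ 1
  · have hle : |cv K g x - cv K g y| ≤ ∫ w, (C * Real.sqrt ‖x - y‖ * B) * (maj (x - w) + maj (y - w)) := by
      rw [hsub, ← Real.norm_eq_abs]
      apply norm_integral_le_of_norm_le
      · exact ((integrable_shift integrable_maj x).add (integrable_shift integrable_maj y)).const_mul _
      · filter_upwards [ae_ne x, ae_ne y] with w hwx hwy
        have hd : (x - w) - (y - w) = x - y := by abel
        have := hb (x - w) (y - w) (sub_ne_zero.2 (Ne.symm hwx)) (sub_ne_zero.2 (Ne.symm hwy))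
          (by rw [hd]; exact hxy)
        rw [hd] at this
        rw [norm_mul, Real.norm_eq_abs, Real.norm_eq_abs]
        calc |K (x - w) - K (y - w)| * |g w| ≤ (C * Real.sqrt ‖x - y‖ * (maj (x - w) + maj (y - w))) * B :=
              mul_le_mul this (hB w) (abs_nonneg _)
                (mul_nonneg (by positivity) (add_nonneg (maj_nonneg _) (maj_nonneg _)))
          _ = _ := by ring
    have hI2 : ∫ w, (C * Real.sqrt ‖x - y‖ * B) * (maj (x - w) + maj (y - w)) =
        (C * Real.sqrt ‖x - y‖ * B) * (2 * I) := by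
      rw [integral_const_mul, integral_add (integrable_shift integrable_maj x) (integrable_shift integrable_maj y)]
      rw [integral_sub_left_eq_self maj volume x, integral_sub_left_eq_self maj volume y]
      ring
    rw [hI2] at hle
    refine hle.trans ?_
    have : 0 ≤ 2 * N * B * Real.sqrt ‖x - y‖ := by positivity
    nlinarith [this]
  · push Not at hxy
    have b1 : ∀ u, |cv K g u| ≤ N * B := by
      intro u
      rw [← Real.norm_eq_abs]
      have : ‖cv K g u‖ ≤ ∫ z, |K z| * B := by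
        unfold cv
        apply norm_integral_le_of_norm_le ((ker_integrable h).abs.mul_const B)
        refine Eventually.of_forall fun z => ?_
        rw [norm_mul, Real.norm_eq_abs, Real.norm_eq_abs]
        exact mul_le_mul_of_nonneg_left (hB _) (abs_nonneg _)
      rwa [integral_mul_const] at this
    have h1s : 1 ≤ Real.sqrt ‖x - y‖ := by
      rw [← Real.sqrt_one]; exact Real.sqrt_le_sqrt hxy.le
    calc |cv K g x - cv K g y| ≤ |cv K g x| + |cv K g y| := abs_sub _ _
      _ ≤ N * B + N * B := add_le_add (b1 x) (b1 y)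
      _ = 2 * N * B * 1 := by ring
      _ ≤ 2 * N * B * Real.sqrt ‖x - y‖ := mul_le_mul_of_nonneg_left h1s (by positivity)
      _ ≤ (C * (2 * I) + 2 * N) * B * Real.sqrt ‖x - y‖ := by
          have : 0 ≤ C * (2 * I) * B * Real.sqrt ‖x - y‖ := by positivity
          nlinarith [this]

theorem cv_LH (h : Ker K) {g : E → ℝ} (hg : AEStronglyMeasurable g volume)
    (hb : ∀ R : ℝ, ∃ B : ℝ, ∀ x : E, ‖x‖ ≤ R → |g x| ≤ B) : LH (cv K g) := by
  obtain ⟨C, hC, hC2⟩ := cv_holder_bdd h
  intro R
  obtain ⟨B, hB⟩ := hb (R + 1)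
  set g' : E → ℝ := (Metric.closedBall (0 : E) (R + 1)).indicator g with hg'
  have m' : AEStronglyMeasurable g' volume := hg.indicator measurableSet_closedBall
  have b' : ∀ x, |g' x| ≤ max B 0 := by
    intro x
    by_cases hx : x ∈ Metric.closedBall (0 : E) (R + 1)
    · rw [hg', indicator_of_mem hx]
      exact (hB x (by simpa using hx)).trans (le_max_left _ _)
    · rw [hg', indicator_of_notMem hx]; simp
  have e : ∀ x : E, ‖x‖ ≤ R → cv K g x = cv K g' x := by
    intro x hx
    apply cv_congr h.supp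
    refine Eventually.of_forall fun w hw => ?_
    rw [hg', indicator_of_mem]
    rw [mem_closedBall_zero_iff]
    calc ‖w‖ = ‖x - (x - w)‖ := by rw [sub_sub_cancel]
      _ ≤ ‖x‖ + ‖x - w‖ := norm_sub_le _ _
      _ ≤ R + 1 := by linarith
  refine ⟨C * max B 0, fun x y hx hy => ?_⟩
  rw [e x hx, e y hy]
  exact hC2 g' (max B 0) m' (le_max_right _ _) b' x y

theorem cv_LH_of_continuous (h : Ker K) {g : E → ℝ} (hg : Continuous g) : LH (cv K g) :=
  cv_LH h hg.aestronglyMeasurable fun R => by
    obtain ⟨B, _, hB⟩ := LH.bdd hg R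
    exact ⟨B, hB⟩

end RegC
end Leray
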