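import Pool.Agent.Lib.MP_9b9638_an.RegC3

/-! # Leray profiles, module REG-C, part 4: derivatives of convolutions -/

open MeasureTheory Set Filter Topology TopologicalSpace

noncomputable section
namespace Leray
namespace RegC

variable {K g : E → ℝ}

theorem cv_hasFDerivAt (h : Ker K) {g : E → ℝ} (hg : ContDiff ℝ 1 g) (x0 : E) :
    HasFDerivAt (cv K g) (∫ z, K z • fderiv ℝ g (x0 - z)) x0 := by
  obtain ⟨B, hB⟩ := (isCompact_closedBall (0 : E) (‖x0‖ + 2)).exists_bound_of_continuousOn
    (hg.continuous_fderiv one_ne_zero).continuousOn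
  have hcf : Continuous (fderiv ℝ g) := hg.continuous_fderiv one_ne_zero
  have hB0 : 0 ≤ B := (norm_nonneg _).trans (hB 0 (by simp; positivity))
  obtain ⟨B', hB'⟩ := (isCompact_closedBall (0 : E) (‖x0‖ + 2)).exists_bound_of_continuousOn
    hg.continuous.continuousOn
  have hKi := ker_integrable h
  unfold cv
  apply hasFDerivAt_integral_of_dominated_of_fderiv_le (s := Metric.ball x0 1)
    (F := fun x z => K z * g (x - z)) (F' := fun x z => K z • fderiv ℝ g (x - z))
    (bound := fun z => |K z| * B) (Metric.ball_mem_nhds x0 one_pos)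
  · refine Eventually.of_forall fun x => ?_
    exact hKi.aestronglyMeasurable.mul (aesm_shift hg.continuous.aestronglyMeasurable x)
  · refine Integrable.mono' (hKi.abs.mul_const B')
      (hKi.aestronglyMeasurable.mul (aesm_shift hg.continuous.aestronglyMeasurable x0)) ?_
    refine Eventually.of_forall fun z => ?_
    rw [norm_mul, Real.norm_eq_abs]
    by_cases hz : 1 ≤ ‖z‖
    · rw [h.supp z hz]; simp
    · apply mul_le_mul_of_nonneg_left _ (abs_nonneg _)
      apply hB'
      rw [mem_closedBall_zero_iff]
      have := norm_sub_le x0 z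
      linarith
  · exact hKi.aestronglyMeasurable.smul
      ((hcf.comp (continuous_const.sub continuous_id)).aestronglyMeasurable)
  · refine Eventually.of_forall fun z x hx => ?_
    rw [norm_smul, Real.norm_eq_abs]
    by_cases hz : 1 ≤ ‖z‖
    · rw [h.supp z hz]; simp
    · apply mul_le_mul_of_nonneg_left _ (abs_nonneg _)
      apply hB
      rw [mem_closedBall_zero_iff]
      rw [Metric.mem_ball, dist_eq_norm] at hx
      have h1 := norm_sub_le x z
      have h2 : ‖x‖ ≤ ‖x0‖ + ‖x - x0‖ := by
        calc ‖x‖ = ‖x0 + (x - x0)‖ := by rw [add_sub_cancel]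
          _ ≤ _ := norm_add_le _ _
      linarith
  · exact hKi.abs.mul_const B
  · refine Eventually.of_forall fun z x hx => ?_
    have h1 : HasFDerivAt (fun x => g (x - z)) (fderiv ℝ g (x - z)) x := by
      have h2 := (hg.differentiable one_ne_zero (x - z)).hasFDerivAt
      exact (hasFDerivAt_comp_sub z).2 h2
    exact h1.const_mul (K z)

theorem cv_differentiable (h : Ker K) {g : E → ℝ} (hg : ContDiff ℝ 1 g) : Differentiable ℝ (cv K g) :=
  fun x => (cv_hasFDerivAt h hg x).differentiableAt

theorem pd_cv (h : Ker K) {g : E → ℝ} (hg : ContDiff ℝ 1 g) (i : Fin 3) (x : E) :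
    pd i (cv K g) x = cv K (pd i g) x := by
  unfold pd
  rw [(cv_hasFDerivAt h hg x).fderiv]
  obtain ⟨B, hB⟩ := (isCompact_closedBall (0 : E) (‖x‖ + 2)).exists_bound_of_continuousOn
    (hg.continuous_fderiv one_ne_zero).continuousOn
  have hcf : Continuous (fderiv ℝ g) := hg.continuous_fderiv one_ne_zero
  have hKi := ker_integrable h
  have hint : Integrable (fun z => K z • fderiv ℝ g (x - z)) := by
    refine Integrable.mono' (hKi.abs.mul_const B)
      (hKi.aestronglyMeasurable.smul ((hcf.comp (continuous_const.sub continuous_id)).aestronglyMeasurable)) ?_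
    refine Eventually.of_forall fun z => ?_
    rw [norm_smul, Real.norm_eq_abs]
    by_cases hz : 1 ≤ ‖z‖
    · rw [h.supp z hz]; simp
    · apply mul_le_mul_of_nonneg_left _ (abs_nonneg _)
      apply hB
      rw [mem_closedBall_zero_iff]
      have := norm_sub_le x z
      linarith
  rw [ContinuousLinearMap.integral_apply hint]
  rfl

theorem P1 (h : Ker K) : ∀ {n : ℕ} {g : E → ℝ}, ContDiff ℝ n g → HC n (cv K g)
  | 0, g, hg => cv_LH_of_continuous h (ContDiff.continuous (𝕜 := ℝ) hg)
  | n + 1, g, hg => by
      have h1 : ContDiff ℝ 1 g := hg.of_le (by norm_cast; omega)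
      refine ⟨cv_differentiable h h1, fun i => ?_⟩
      have e : pd i (cv K g) = cv K (pd i g) := funext (pd_cv h h1 i)
      rw [e]
      exact P1 h (contDiff_pd_of_succ hg i)

end RegC
end Leray
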