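import Pool.Agent.Lib.MP_9b9638_an.RegC4

/-! # Leray profiles, module REG-C, part 5: convolutions of Hoelder functions are `C¹` -/

open MeasureTheory Set Filter Topology TopologicalSpace

noncomputable section
namespace Leray
namespace RegC

variable {K g : E → ℝ}

theorem pd_zero_of_zero {f : E → ℝ} {r : ℝ} (h : ∀ z, r ≤ ‖z‖ → f z = 0) {z : E} (hz : r < ‖z‖) (i : Fin 3) :
    pd i f z = 0 := by
  apply pd_eq_zero_of_eventually
  have : {w : E | r < ‖w‖} ∈ 𝓝 z := (isOpen_lt continuous_const continuous_norm).mem_nhds hz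
  filter_upwards [this] with w hw
  exact h w (le_of_lt hw)

theorem diffAt_ker (h : Ker K) {z : E} (hz : z ≠ 0) : DifferentiableAt ℝ K z :=
  (h.smooth.contDiffAt (isOpen_compl_singleton.mem_nhds hz)).differentiableAt (by simp)

theorem aesm_pd (h : Ker K) (i : Fin 3) : AEStronglyMeasurable (pd i K) volume := by
  have h1 : ContinuousOn (pd i K) {0}ᶜ := by
    have h2 : ContinuousOn (fderiv ℝ K) {0}ᶜ :=
      h.smooth.continuousOn_fderiv_of_isOpen isOpen_compl_singleton (by simp)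
    exact h2.clm_apply continuousOn_const
  have h3 := h1.aestronglyMeasurable (μ := (volume : Measure E)) (measurableSet_singleton (0 : E)).compl
  rwa [restrict_compl_singleton] at h3

/-- smooth truncations of the kernel near the origin -/
theorem exists_keps (h : Ker K) : ∃ C : ℝ, 0 ≤ C ∧ ∀ ε : ℝ, 0 < ε → ∃ k : E → ℝ,
    ContDiff ℝ 1 k ∧ HasCompactSupport k ∧ (∀ z, 1 ≤ ‖z‖ → k z = 0) ∧ (∀ z, |k z - K z| ≤ |K z|) ∧
    (∀ z, 2 * ε ≤ ‖z‖ → k z = K z) ∧ (∀ z i, z ≠ 0 → |pd i k z - pd i K z| ≤ C / ‖z‖ ^ 3) ∧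
    (∀ z i, 2 * ε < ‖z‖ → pd i k z = pd i K z) := by
  obtain ⟨C, hC, hb⟩ := ker_bounds h
  obtain ⟨D, hD, hcut⟩ := exists_cutoff
  refine ⟨C + 2 * C * D, by positivity, fun ε hε => ?_⟩
  obtain ⟨φ, f1, f2, f3, f4, f5, f6, f7, f8, f9, f10⟩ := hcut ε ε hε le_rfl
  have hφd : Differentiable ℝ φ := f1.differentiable (by simp)
  have heq : ∀ z : E, 2 * ε < ‖z‖ → (fun z => K z * (1 - φ z)) =ᶠ[𝓝 z] K := by
    intro z hz
    have : {w : E | 2 * ε < ‖w‖} ∈ 𝓝 z := (isOpen_lt continuous_const continuous_norm).mem_nhds hz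
    filter_upwards [this] with w hw
    have hw' : ε + ε ≤ ‖w‖ := by
      have : 2 * ε < ‖w‖ := hw
      linarith
    show K w * (1 - φ w) = K w
    rw [f6 w hw']
    ring
  refine ⟨fun z => K z * (1 - φ z), ?_, ?_, ?_, ?_, ?_, ?_, ?_⟩
  · rw [contDiff_iff_contDiffAt]
    intro x
    by_cases hx : x = 0
    · subst hx
      have : (fun z => K z * (1 - φ z)) =ᶠ[𝓝 (0 : E)] fun _ => 0 := by
        filter_upwards [Metric.ball_mem_nhds (0 : E) hε] with w hw
        rw [Metric.mem_ball, dist_zero_right] at hw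
        show K w * (1 - φ w) = 0
        rw [f5 w hw.le]
        ring
      exact contDiffAt_const.congr_of_eventuallyEq this
    · have h1 : ContDiffAt ℝ 1 K x :=
        (h.smooth.contDiffAt (isOpen_compl_singleton.mem_nhds hx)).of_le (by norm_cast)
      exact h1.mul (contDiffAt_const.sub (f1.contDiffAt.of_le (by norm_cast)))
  · apply HasCompactSupport.intro (isCompact_closedBall (0 : E) 1)
    intro x hx
    simp only [Metric.mem_closedBall, dist_zero_right, not_le] at hx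
    rw [h.supp x hx.le]; ring
  · intro z hz
    show K z * (1 - φ z) = 0
    rw [h.supp z hz]; ring
  · intro z
    have e : K z * (1 - φ z) - K z = - (K z * φ z) := by ring
    rw [e, abs_neg, abs_mul, abs_of_nonneg (f3 z)]
    exact mul_le_of_le_one_right (abs_nonneg _) (f4 z)
  · intro z hz
    show K z * (1 - φ z) = K z
    rw [f6 z (by linarith)]; ring
  · intro z i hz
    have hz0 : 0 < ‖z‖ := norm_pos_iff.2 hz
    have e1 : pd i (fun z => K z * (1 - φ z)) z = pd i K z * (1 - φ z) + K z * (- pd i φ z) := by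
      have e3 : DifferentiableAt ℝ (fun z => 1 - φ z) z := (differentiableAt_const (1 : ℝ)).sub (hφd z)
      rw [pd_mul_at (diffAt_ker h hz) e3]
      rw [pd_sub_at (differentiableAt_const (1 : ℝ)) (hφd z), pd_const]
      ring
    have e2 : pd i (fun z => K z * (1 - φ z)) z - pd i K z = - (pd i K z * φ z) - K z * pd i φ z := by
      rw [e1]; ring
    rw [e2]
    have b1 : |pd i K z * φ z| ≤ C / ‖z‖ ^ 3 := by
      rw [abs_mul, abs_of_nonneg (f3 z)]
      exact (mul_le_of_le_one_right (abs_nonneg _) (f4 z)).trans ((hb z hz).2.1 i)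
    have b2 : |K z * pd i φ z| ≤ 2 * C * D / ‖z‖ ^ 3 := by
      by_cases hs : ‖z‖ ≤ 2 * ε
      · rw [abs_mul]
        have c1 := (hb z hz).1
        have c2 := f7 z i
        have c3 : D / ε ≤ 2 * D / ‖z‖ := by
          rw [div_le_div_iff₀ hε hz0]
          nlinarith
        calc |K z| * |pd i φ z| ≤ C / ‖z‖ ^ 2 * (2 * D / ‖z‖) :=
              mul_le_mul c1 (c2.trans c3) (abs_nonneg _) (by positivity)
          _ = _ := by field_simp
      · have : pd i φ z = 0 := by
          apply f9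
          intro hm
          have := hm.2
          push Not at hs
          linarith
        rw [this, mul_zero, abs_zero]
        positivity
    calc |-(pd i K z * φ z) - K z * pd i φ z| ≤ |-(pd i K z * φ z)| + |K z * pd i φ z| := abs_sub _ _
      _ ≤ C / ‖z‖ ^ 3 + 2 * C * D / ‖z‖ ^ 3 := by rw [abs_neg]; exact add_le_add b1 b2
      _ = _ := by ring
  · intro z i hz
    exact pd_congr_at (heq z hz)

theorem cv_cc_hasFDerivAt {k g : E → ℝ} (hk : ContDiff ℝ 1 k) (hc : HasCompactSupport k) (hg : Continuous g)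
    (x : E) : HasFDerivAt (cv k g) (∑ m, cv (pd m k) g x • (EuclideanSpace.proj m : E →L[ℝ] ℝ)) x := by
  have e : cv k g = MeasureTheory.convolution g k (ContinuousLinearMap.mul ℝ ℝ) volume := by
    funext x; rw [cv_comm]; rfl
  have h1 := hc.hasFDerivAt_convolution_right (ContinuousLinearMap.mul ℝ ℝ)
    (hg.locallyIntegrable (μ := (volume : Measure E))) hk x
  rw [← e] at h1
  have h2 : ∀ m, pd m (cv k g) x = cv (pd m k) g x := by
    intro m
    unfold pd
    rw [h1.fderiv, convolution_precompR_apply _ (hg.locallyIntegrable (μ := (volume : Measure E)))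
      (hc.fderiv ℝ) (hk.continuous_fderiv one_ne_zero)]
    rw [cv_comm]; rfl
  have h3 := h1.differentiableAt.hasFDerivAt
  rw [fderiv_eq_sum] at h3
  simpa [h2] using h3

theorem norm_proj_le (m : Fin 3) : ‖(EuclideanSpace.proj m : E →L[ℝ] ℝ)‖ ≤ 1 := by
  apply ContinuousLinearMap.opNorm_le_bound _ zero_le_one
  intro x
  rw [one_mul]
  exact abs_coord_le x m

/-- the second majorant `|z|^{-11/4}` on the ball of radius 2 -/
def maj2 (z : E) : ℝ := (Metric.ball (0 : E) 2).indicator (fun z => ‖z‖ ^ (-(11 / 4) : ℝ)) z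

theorem maj2_nonneg (z : E) : 0 ≤ maj2 z := by
  unfold maj2
  apply indicator_nonneg
  intro z _
  positivity

theorem measurable_maj2 : Measurable maj2 := by
  unfold maj2
  apply Measurable.indicator _ measurableSet_ball
  fun_prop

theorem integrable_maj2 : Integrable maj2 := by
  apply integrable_of_pow measurable_maj2.aestronglyMeasurable (C := 1) (α := 11 / 4) (R := 2) (by norm_num)
  · intro z hz
    unfold maj2
    rw [indicator_of_notMem]
    rw [Metric.mem_ball, dist_zero_right]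
    exact not_lt.2 hz
  · intro z hz
    rw [abs_of_nonneg (maj2_nonneg z), one_mul]
    unfold maj2
    apply indicator_le_self' _ z
    intro z _
    positivity

theorem maj_le_maj2 {δ : ℝ} (hδ2 : δ < 2) {z : E} (hz : z ≠ 0) (hle : ‖z‖ ≤ δ) :
    ‖z‖ ^ (-(5 / 2) : ℝ) ≤ δ ^ (1 / 4 : ℝ) * maj2 z := by
  have hz0 : 0 < ‖z‖ := norm_pos_iff.2 hz
  have e : maj2 z = ‖z‖ ^ (-(11 / 4) : ℝ) := by
    unfold maj2
    rw [indicator_of_mem]
    rw [Metric.mem_ball, dist_zero_right]; linarith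
  rw [e]
  have e2 : ‖z‖ ^ (-(5 / 2) : ℝ) = ‖z‖ ^ (1 / 4 : ℝ) * ‖z‖ ^ (-(11 / 4) : ℝ) := by
    rw [← Real.rpow_add hz0]; norm_num
  rw [e2]
  apply mul_le_mul_of_nonneg_right _ (by positivity)
  exact Real.rpow_le_rpow hz0.le hle (by norm_num)

/-- the derivative of `K * g` -/
def Gd (K g : E → ℝ) (m : Fin 3) (x : E) : ℝ := ∫ z, pd m K z * (g (x - z) - g x)

theorem LH_shift {g : E → ℝ} (hg : LH g) (R : ℝ) : ∃ L : ℝ, 0 ≤ L ∧ ∀ x z : E, ‖x‖ ≤ R → ‖z‖ ≤ 1 →
    |g (x - z) - g x| ≤ L * Real.sqrt ‖z‖ := by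
  obtain ⟨L, hL, hL2⟩ := hg.exists_nonneg (R + 1)
  refine ⟨L, hL, fun x z hx hz => ?_⟩
  have h1 := hL2 (x - z) x (by have := norm_sub_le x z; linarith) (by linarith)
  have e : x - z - x = - z := by abel
  rwa [e, norm_neg] at h1

theorem point_est {f g : E → ℝ} {C L : ℝ} (hC : 0 ≤ C) {x : E}
    (hfb : ∀ z, z ≠ 0 → |f z| ≤ C / ‖z‖ ^ 3)
    (hgb : ∀ z : E, ‖z‖ ≤ 1 → |g (x - z) - g x| ≤ L * Real.sqrt ‖z‖) {z : E} (hz : z ≠ 0) (hz1 : ‖z‖ ≤ 1) :
    |f z * (g (x - z) - g x)| ≤ C * L * ‖z‖ ^ (-(5 / 2) : ℝ) := by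
  have hz0 : 0 < ‖z‖ := norm_pos_iff.2 hz
  rw [abs_mul]
  calc |f z| * |g (x - z) - g x| ≤ (C / ‖z‖ ^ 3) * (L * Real.sqrt ‖z‖) :=
        mul_le_mul (hfb z hz) (hgb z hz1) (abs_nonneg _) (by positivity)
    _ = C * L * (Real.sqrt ‖z‖ / ‖z‖ ^ 3) := by ring
    _ = _ := by rw [pow_eq_a hz0]

theorem maj_eq {z : E} (hz : ‖z‖ < 2) : maj z = ‖z‖ ^ (-(5 / 2) : ℝ) := by
  unfold maj
  rw [indicator_of_mem]
  rw [Metric.mem_ball, dist_zero_right]; exact hz

theorem point_est' {f g : E → ℝ} {C L : ℝ} (hC : 0 ≤ C) (hL : 0 ≤ L) {x : E}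
    (hf0 : ∀ z : E, 1 < ‖z‖ → f z = 0) (hfb : ∀ z, z ≠ 0 → |f z| ≤ C / ‖z‖ ^ 3)
    (hgb : ∀ z : E, ‖z‖ ≤ 1 → |g (x - z) - g x| ≤ L * Real.sqrt ‖z‖) {z : E} (hz : z ≠ 0) :
    |f z * (g (x - z) - g x)| ≤ C * L * maj z := by
  by_cases hz1 : ‖z‖ ≤ 1
  · rw [maj_eq (by linarith)]
    exact point_est hC hfb hgb hz hz1
  · rw [hf0 z (not_le.1 hz1), zero_mul, abs_zero]
    have := maj_nonneg z
    positivity

theorem gd_integrable (h : Ker K) {g : E → ℝ} (hg : LH g) (m : Fin 3) (x : E) :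
    Integrable (fun z => pd m K z * (g (x - z) - g x)) := by
  obtain ⟨C, hC, hb⟩ := ker_bounds h
  obtain ⟨L, hL, hL2⟩ := LH_shift hg ‖x‖
  refine Integrable.mono' (integrable_maj.const_mul (C * L))
    ((aesm_pd h m).mul ((aesm_shift hg.continuous.aestronglyMeasurable x).sub aestronglyMeasurable_const)) ?_
  filter_upwards [ae_ne_zero] with z hz
  rw [Real.norm_eq_abs]
  exact point_est' hC hL (fun z hz => pd_zero_of_zero h.supp hz m) (fun z hz => (hb z hz).2.1 m)
    (fun z hz => hL2 x z le_rfl hz) hz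

theorem gd_continuous (h : Ker K) {g : E → ℝ} (hg : LH g) (m : Fin 3) : Continuous (Gd K g m) := by
  obtain ⟨C, hC, hb⟩ := ker_bounds h
  rw [continuous_iff_continuousAt]
  intro x0
  obtain ⟨L, hL, hL2⟩ := LH_shift hg (‖x0‖ + 1)
  have hgc := hg.continuous
  unfold Gd
  apply continuousAt_of_dominated (bound := fun z => C * L * maj z)
  · refine Eventually.of_forall fun x => ?_
    exact (aesm_pd h m).mul ((aesm_shift hgc.aestronglyMeasurable x).sub aestronglyMeasurable_const)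
  · filter_upwards [Metric.ball_mem_nhds x0 one_pos] with x hx
    rw [Metric.mem_ball, dist_eq_norm] at hx
    have hxn : ‖x‖ ≤ ‖x0‖ + 1 := by
      calc ‖x‖ = ‖x0 + (x - x0)‖ := by rw [add_sub_cancel]
        _ ≤ ‖x0‖ + ‖x - x0‖ := norm_add_le _ _
        _ ≤ _ := by linarith
    filter_upwards [ae_ne_zero] with z hz
    rw [Real.norm_eq_abs]
    exact point_est' hC hL (fun z hz => pd_zero_of_zero h.supp hz m) (fun z hz => (hb z hz).2.1 m)
      (fun z hz => hL2 x z hxn hz) hz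
  · exact integrable_maj.const_mul _
  · refine Eventually.of_forall fun z => ?_
    have : Continuous fun x => pd m K z * (g (x - z) - g x) := by fun_prop
    exact this.continuousAt

theorem cv_cc_eq {k g : E → ℝ} (hk : ContDiff ℝ 1 k) (hc : HasCompactSupport k) (hg : Continuous g)
    (m : Fin 3) (x : E) : Integrable (fun z => pd m k z * (g (x - z) - g x)) ∧
    cv (pd m k) g x = ∫ z, pd m k z * (g (x - z) - g x) := by
  have hc' : HasCompactSupport (pd m k) := hasCompactSupport_pd hc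
  have hk' : Continuous (pd m k) := continuous_pd hk
  have i1 : Integrable (fun z => pd m k z * g (x - z)) :=
    integrable_of_cc (hk'.mul (hg.comp (continuous_const.sub continuous_id))) hc'.mul_right
  have i2 : Integrable (fun z => pd m k z * g x) := (integrable_of_cc hk' hc').mul_const _
  have e : (fun z => pd m k z * (g (x - z) - g x)) = fun z => pd m k z * g (x - z) - pd m k z * g x := by
    funext z; ring
  refine ⟨by rw [e]; exact i1.sub i2, ?_⟩
  rw [e, integral_sub i1 i2, integral_mul_const, int_pd_zero hk hc]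
  simp [cv]

theorem gd_approx (h : Ker K) {g : E → ℝ} (hg : LH g) (m : Fin 3) {k : E → ℝ} (hk : ContDiff ℝ 1 k)
    (hc : HasCompactSupport k) {C L δ : ℝ} (hC : 0 ≤ C) (hL : 0 ≤ L) (hδ1 : δ ≤ 1) {x : E}
    (hkd : ∀ z, z ≠ 0 → |pd m k z - pd m K z| ≤ C / ‖z‖ ^ 3)
    (hke : ∀ z : E, δ < ‖z‖ → pd m k z = pd m K z)
    (hgb : ∀ z : E, ‖z‖ ≤ 1 → |g (x - z) - g x| ≤ L * Real.sqrt ‖z‖) :
    |Gd K g m x - cv (pd m k) g x| ≤ C * L * δ ^ (1 / 4 : ℝ) * ∫ z, maj2 z := by
  obtain ⟨i1, e1⟩ := cv_cc_eq hk hc hg.continuous m x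
  have i2 := gd_integrable h hg m x
  rw [e1]
  unfold Gd
  rw [← integral_sub i2 i1, ← integral_const_mul, ← Real.norm_eq_abs]
  apply norm_integral_le_of_norm_le (integrable_maj2.const_mul _)
  filter_upwards [ae_ne_zero] with z hz
  have e2 : pd m K z * (g (x - z) - g x) - pd m k z * (g (x - z) - g x) =
      - ((pd m k z - pd m K z) * (g (x - z) - g x)) := by ring
  rw [e2, norm_neg, Real.norm_eq_abs]
  by_cases hle : ‖z‖ ≤ δ
  · have h1 := point_est (f := fun z => pd m k z - pd m K z) hC hkd hgb hz (hle.trans hδ1)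
    have h2 := maj_le_maj2 (by linarith) hz hle
    calc _ ≤ C * L * ‖z‖ ^ (-(5 / 2) : ℝ) := h1
      _ ≤ C * L * (δ ^ (1 / 4 : ℝ) * maj2 z) := mul_le_mul_of_nonneg_left h2 (by positivity)
      _ = _ := by ring
  · rw [hke z (not_le.1 hle), sub_self, zero_mul, abs_zero]
    have := maj2_nonneg z
    have hδ0 : 0 ≤ δ ^ (1 / 4 : ℝ) ∨ δ < 0 := by
      by_cases hd : δ < 0
      · exact Or.inr hd
      · left; push Not at hd; positivity
    rcases hδ0 with h0 | h0
    · positivity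
    · have h3 : 0 ≤ δ ^ (1 / 4 : ℝ) := by
        rw [Real.rpow_def_of_neg h0]
        apply mul_nonneg (Real.exp_pos _).le
        apply Real.cos_nonneg_of_neg_pi_div_two_le_of_le
        · have := Real.pi_pos; linarith
        · have := Real.pi_pos; linarith
      positivity

theorem cv_approx (h : Ker K) {g : E → ℝ} (hg : Continuous g) {k : E → ℝ} (hk : ContDiff ℝ 1 k)
    {C B δ : ℝ} (hC : 0 ≤ C) (hB : 0 ≤ B) (hδ0 : 0 ≤ δ) (hδ1 : δ ≤ 1) {x : E}
    (hK : ∀ z, z ≠ 0 → |K z| ≤ C / ‖z‖ ^ 2) (hk1 : ∀ z : E, 1 ≤ ‖z‖ → k z = 0)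
    (hkd : ∀ z, |k z - K z| ≤ |K z|) (hke : ∀ z : E, δ ≤ ‖z‖ → k z = K z)
    (hgb : ∀ z : E, ‖z‖ ≤ 1 → |g (x - z)| ≤ B) :
    |cv K g x - cv k g x| ≤ C * B * δ ^ (1 / 4 : ℝ) * ∫ z, maj2 z := by
  have hm := aesm_shift hg.aestronglyMeasurable x
  have i1 : Integrable (fun z => K z * g (x - z)) := by
    refine Integrable.mono' ((ker_integrable h).abs.mul_const B) ((aesm h).mul hm) ?_
    refine Eventually.of_forall fun z => ?_
    rw [norm_mul, Real.norm_eq_abs, Real.norm_eq_abs]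
    by_cases hz : 1 ≤ ‖z‖
    · rw [h.supp z hz]; simp
    · exact mul_le_mul_of_nonneg_left (hgb z (by linarith)) (abs_nonneg _)
  have hc : HasCompactSupport k := by
    apply HasCompactSupport.intro (isCompact_closedBall (0 : E) 1)
    intro x hx
    simp only [Metric.mem_closedBall, dist_zero_right, not_le] at hx
    exact hk1 x hx.le
  have i2 : Integrable (fun z => k z * g (x - z)) :=
    integrable_of_cc (hk.continuous.mul (hg.comp (continuous_const.sub continuous_id))) hc.mul_right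
  unfold cv
  rw [← integral_sub i1 i2, ← integral_const_mul, ← Real.norm_eq_abs]
  apply norm_integral_le_of_norm_le (integrable_maj2.const_mul _)
  filter_upwards [ae_ne_zero] with z hz
  have hz0 : 0 < ‖z‖ := norm_pos_iff.2 hz
  have e2 : K z * g (x - z) - k z * g (x - z) = - ((k z - K z) * g (x - z)) := by ring
  rw [e2, norm_neg, Real.norm_eq_abs]
  have hm2 := maj2_nonneg z
  by_cases hle : ‖z‖ < δ
  · have h1 : |(k z - K z) * g (x - z)| ≤ C / ‖z‖ ^ 2 * B := by
      rw [abs_mul]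
      exact mul_le_mul ((hkd z).trans (hK z hz)) (hgb z (by linarith)) (abs_nonneg _) (by positivity)
    have h2 := maj_le_maj2 (by linarith) hz hle.le
    have h3 : 1 / ‖z‖ ^ 2 ≤ ‖z‖ ^ (-(5 / 2) : ℝ) := by
      rw [pow_eq_b hz0]
      apply mul_le_of_le_one_left (by positivity)
      calc Real.sqrt ‖z‖ ≤ Real.sqrt 1 := Real.sqrt_le_sqrt (by linarith)
        _ = 1 := Real.sqrt_one
    calc _ ≤ C / ‖z‖ ^ 2 * B := h1
      _ = C * B * (1 / ‖z‖ ^ 2) := by ring
      _ ≤ C * B * (δ ^ (1 / 4 : ℝ) * maj2 z) := mul_le_mul_of_nonneg_left (h3.trans h2) (by positivity)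
      _ = _ := by ring
  · rw [hke z (not_lt.1 hle), sub_self, zero_mul, abs_zero]
    positivity

/-- the convolution of a Hoelder function is differentiable -/
theorem cv_hasFDerivAt_of_LH (h : Ker K) {g : E → ℝ} (hg : LH g) (x : E) :
    HasFDerivAt (cv K g) (∑ m, Gd K g m x • (EuclideanSpace.proj m : E →L[ℝ] ℝ)) x := by
  obtain ⟨C0, hC0, hb⟩ := ker_bounds h
  obtain ⟨C, hC, hk⟩ := exists_keps h
  set R := ‖x‖ + 1 with hR
  obtain ⟨L, hL, hL2⟩ := LH_shift hg R
  obtain ⟨B, hB, hB2⟩ := LH.bdd hg.continuous (R + 1)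
  set δ : ℕ → ℝ := fun n => 1 / ((n : ℝ) + 1) with hδ
  have hδpos : ∀ n, 0 < δ n := fun n => by rw [hδ]; positivity
  have hδ1 : ∀ n, δ n ≤ 1 := fun n => by
    simp only [hδ]
    rw [div_le_one (by positivity)]
    have : (0 : ℝ) ≤ n := Nat.cast_nonneg n
    linarith
  choose k k1 k2 k3 k4 k5 k6 k7 using fun n => hk (δ n / 2) (by have := hδpos n; positivity)
  set J : ℝ := ∫ z, maj2 z with hJ
  have hJ0 : 0 ≤ J := integral_nonneg maj2_nonneg
  have hlim : Tendsto (fun n => δ n ^ (1 / 4 : ℝ)) atTop (𝓝 0) := by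
    have h1 : Tendsto δ atTop (𝓝 0) := tendsto_one_div_add_atTop_nhds_zero_nat
    have h2 := h1.rpow_const (p := (1 / 4 : ℝ)) (Or.inr (by norm_num))
    rwa [Real.zero_rpow (by norm_num)] at h2
  have hsx : ∀ y ∈ Metric.ball (0 : E) R, ‖y‖ ≤ R := by
    intro y hy
    rw [Metric.mem_ball, dist_zero_right] at hy
    exact hy.le
  apply hasFDerivAt_of_tendstoUniformlyOn (l := atTop) (s := Metric.ball (0 : E) R) Metric.isOpen_ball
    (f := fun n => cv (k n) g)
    (f' := fun n y => ∑ m, cv (pd m (k n)) g y • (EuclideanSpace.proj m : E →L[ℝ] ℝ))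
    (g' := fun y => ∑ m, Gd K g m y • (EuclideanSpace.proj m : E →L[ℝ] ℝ))
  · rw [Metric.tendstoUniformlyOn_iff]
    intro η hη
    have hlim2 : Tendsto (fun n => 3 * (C * L * δ n ^ (1 / 4 : ℝ) * J)) atTop (𝓝 0) := by
      have := ((hlim.const_mul (C * L)).mul_const J).const_mul 3
      simpa using this
    filter_upwards [hlim2.eventually_lt_const hη] with n hn y hy
    rw [dist_eq_norm, ← Finset.sum_sub_distrib]
    refine lt_of_le_of_lt ?_ hn
    have each : ∀ m : Fin 3, ‖Gd K g m y • (EuclideanSpace.proj m : E →L[ℝ] ℝ) -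
        cv (pd m (k n)) g y • (EuclideanSpace.proj m : E →L[ℝ] ℝ)‖ ≤ C * L * δ n ^ (1 / 4 : ℝ) * J := by
      intro m
      rw [← sub_smul, norm_smul, Real.norm_eq_abs]
      have h1 := gd_approx h hg m (k1 n) (k2 n) hC hL (hδ1 n) (x := y) (fun z hz => k6 n z m hz)
        (fun z hz => k7 n z m (by linarith)) (fun z hz => hL2 y z (hsx y hy) hz)
      calc _ ≤ |Gd K g m y - cv (pd m (k n)) g y| * 1 :=
            mul_le_mul_of_nonneg_left (norm_proj_le m) (abs_nonneg _)
        _ ≤ _ := by rw [mul_one]; exact h1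
    refine (norm_sum_le _ _).trans ?_
    refine (Finset.sum_le_card_nsmul _ _ _ (fun m _ => each m)).trans (le_of_eq ?_)
    simp
  · intro n y hy
    exact cv_cc_hasFDerivAt (k1 n) (k2 n) hg.continuous y
  · intro y hy
    rw [tendsto_iff_norm_sub_tendsto_zero]
    have hlim2 : Tendsto (fun n => C0 * B * δ n ^ (1 / 4 : ℝ) * J) atTop (𝓝 0) := by
      have := ((hlim.const_mul (C0 * B)).mul_const J)
      simpa using this
    apply squeeze_zero (fun n => norm_nonneg _) _ hlim2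
    intro n
    rw [norm_sub_rev, Real.norm_eq_abs]
    apply cv_approx h hg.continuous (k1 n) hC0 hB (hδpos n).le (hδ1 n) (fun z hz => (hb z hz).1) (k3 n)
      (k4 n) (fun z hz => k5 n z (by linarith))
    intro z hz
    apply hB2
    have := norm_sub_le y z
    have := hsx y hy
    linarith
  · rw [Metric.mem_ball, dist_zero_right]
    linarith

theorem cv_contDiff_one (h : Ker K) {g : E → ℝ} (hg : LH g) : ContDiff ℝ 1 (cv K g) := by
  have h1 : ∀ m, pd m (cv K g) = Gd K g m := by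
    intro m
    funext x
    unfold pd
    rw [(cv_hasFDerivAt_of_LH h hg x).fderiv]
    simp [ei, Fin.sum_univ_three]
    fin_cases m <;> simp
  have h2 := contDiff_succ_of_pd (n := 0) (f := cv K g)
    (fun x => (cv_hasFDerivAt_of_LH h hg x).differentiableAt) (fun i => by
      rw [h1 i]
      exact contDiff_zero.2 (gd_continuous h hg i))
  simpa using h2

theorem P2 (h : Ker K) : ∀ {n : ℕ} {g : E → ℝ}, HC n g → ContDiff ℝ (n + 1 : ℕ) (cv K g)
  | 0, g, hg => by simpa using cv_contDiff_one h hg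
  | n + 1, g, hg => by
      have h1 : ContDiff ℝ 1 g := hg.contDiff.of_le (by norm_cast; omega)
      apply contDiff_succ_of_pd (cv_differentiable h h1)
      intro i
      have e : pd i (cv K g) = cv K (pd i g) := funext (pd_cv h h1 i)
      rw [e]
      exact P2 h (hg.2 i)

end RegC
end Leray
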