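import Pool.Agent.Lib.MP_9b9638_an.RegC5

/-! # Leray profiles, module REG-C, part 6: integrability improvement -/

open MeasureTheory Set Filter Topology TopologicalSpace
open scoped ENNReal

noncomputable section
namespace Leray
namespace RegC

variable {K g : E → ℝ}

/-- `ENNReal` form of the majorants -/
def ka (z : E) : ℝ≥0∞ := ENNReal.ofReal (maj z)
def kb (z : E) : ℝ≥0∞ := ENNReal.ofReal (maj2 z)

theorem measurable_ka : Measurable ka := measurable_maj.ennreal_ofReal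
theorem measurable_kb : Measurable kb := measurable_maj2.ennreal_ofReal

theorem int_ka : ∫⁻ z, ka z ≠ ⊤ := by
  have := integrable_maj.hasFiniteIntegral
  rw [hasFiniteIntegral_iff_ofReal (Eventually.of_forall maj_nonneg)] at this
  exact this.ne

theorem int_kb : ∫⁻ z, kb z ≠ ⊤ := by
  have := integrable_maj2.hasFiniteIntegral
  rw [hasFiniteIntegral_iff_ofReal (Eventually.of_forall maj2_nonneg)] at this
  exact this.ne

theorem maj2_eq {z : E} (hz : ‖z‖ < 2) : maj2 z = ‖z‖ ^ (-(11 / 4) : ℝ) := by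
  unfold maj2
  rw [indicator_of_mem]
  rw [Metric.mem_ball, dist_zero_right]; exact hz

/-- the kernel is dominated by products of powers of the majorants -/
theorem ker_dom (h : Ker K) : ∃ C : ℝ, 0 ≤ C ∧ ∀ z : E, z ≠ 0 → ∀ a b : ℝ, 2 ≤ a * (5 / 2) + b * (11 / 4) →
    ‖K z‖ₑ ≤ ENNReal.ofReal C * (ka z ^ a * kb z ^ b) := by
  obtain ⟨C, hC, hb⟩ := ker_bounds h
  refine ⟨C, hC, fun z hz a b hab => ?_⟩
  by_cases hz1 : 1 ≤ ‖z‖
  · rw [h.supp z hz1]; simp
  · push Not at hz1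
    have hz0 : 0 < ‖z‖ := norm_pos_iff.2 hz
    have e1 : ka z ^ a * kb z ^ b = ENNReal.ofReal (‖z‖ ^ (-(5 / 2) * a + (-(11 / 4)) * b)) := by
      unfold ka kb
      rw [maj_eq (by linarith), maj2_eq (by linarith)]
      rw [ENNReal.ofReal_rpow_of_pos (by positivity), ENNReal.ofReal_rpow_of_pos (by positivity)]
      rw [← ENNReal.ofReal_mul (by positivity)]
      rw [← Real.rpow_mul hz0.le, ← Real.rpow_mul hz0.le, ← Real.rpow_add hz0]
    rw [e1, ← ENNReal.ofReal_mul hC, ← ofReal_norm]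
    apply ENNReal.ofReal_le_ofReal
    rw [Real.norm_eq_abs]
    refine (hb z hz).1.trans ?_
    have e2 : C / ‖z‖ ^ 2 = C * ‖z‖ ^ (-(2 : ℝ)) := by
      rw [← rpow_two hz0]; ring
    rw [e2]
    apply mul_le_mul_of_nonneg_left _ hC
    apply Real.rpow_le_rpow_of_exponent_ge hz0 hz1.le
    linarith

theorem enorm_cv_le (K g : E → ℝ) (x : E) : ‖cv K g x‖ₑ ≤ ∫⁻ z, ‖K z‖ₑ * ‖g (x - z)‖ₑ := by
  unfold cv
  refine (enorm_integral_le_lintegral_enorm _).trans (le_of_eq ?_)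
  congr 1; funext z; rw [enorm_mul]

theorem lint_shift (f : E → ℝ≥0∞) (x : E) : ∫⁻ z, f (x - z) = ∫⁻ z, f z := lintegral_sub_left_eq_self f x

/-- `L⁴` functions: bounded convolution -/
theorem cv_bdd (h : Ker K) {g : E → ℝ} (hgm : Measurable g) (hg : MemLp g 4 volume) :
    ∃ B : ℝ, ∀ x, |cv K g x| ≤ B := by
  obtain ⟨C, hC, hd⟩ := ker_dom h
  have hfin : ∫⁻ z, ‖g z‖ₑ ^ (4 : ℝ) ≠ ⊤ := by
    have := (eLpNorm_lt_top_iff_lintegral_rpow_enorm_lt_top (by norm_num) (by norm_num)).1 hg.eLpNorm_lt_top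
    simpa using this.ne
  set M : ℝ≥0∞ := ENNReal.ofReal C * ((∫⁻ z, kb z) ^ (3 / 4 : ℝ) * (∫⁻ z, ‖g z‖ₑ ^ (4 : ℝ)) ^ (1 / 4 : ℝ)) with hM
  have hMfin : M ≠ ⊤ := by
    rw [hM]
    apply ENNReal.mul_ne_top ENNReal.ofReal_ne_top
    apply ENNReal.mul_ne_top
    · exact ENNReal.rpow_ne_top_of_nonneg (by norm_num) int_kb
    · exact ENNReal.rpow_ne_top_of_nonneg (by norm_num) hfin
  refine ⟨M.toReal, fun x => ?_⟩
  have h1 : ‖cv K g x‖ₑ ≤ M := by
    refine (enorm_cv_le K g x).trans ?_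
    have h2 : ∫⁻ z, ‖K z‖ₑ * ‖g (x - z)‖ₑ ≤
        ∫⁻ z, ENNReal.ofReal C * (kb z ^ (3 / 4 : ℝ) * (‖g (x - z)‖ₑ ^ (4 : ℝ)) ^ (1 / 4 : ℝ)) := by
      apply lintegral_mono_ae
      filter_upwards [ae_ne_zero] with z hz
      have h3 := hd z hz 0 (3 / 4) (by norm_num)
      rw [ENNReal.rpow_zero, one_mul] at h3
      have h4 : (‖g (x - z)‖ₑ ^ (4 : ℝ)) ^ (1 / 4 : ℝ) = ‖g (x - z)‖ₑ := by
        rw [← ENNReal.rpow_mul]; norm_num
      rw [h4, ← mul_assoc]
      exact mul_le_mul' h3 le_rfl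
    refine h2.trans ?_
    rw [lintegral_const_mul' _ _ ENNReal.ofReal_ne_top, hM]
    apply mul_le_mul' le_rfl
    have hm : Measurable fun z => ‖g (x - z)‖ₑ ^ (4 : ℝ) := by fun_prop
    have h5 := ENNReal.lintegral_mul_norm_pow_le (μ := (volume : Measure E)) measurable_kb.aemeasurable
      hm.aemeasurable (p := 3 / 4) (q := 1 / 4) (by norm_num) (by norm_num) (by norm_num)
    rwa [lint_shift (fun z => ‖g z‖ₑ ^ (4 : ℝ)) x] at h5
  rw [← Real.norm_eq_abs, ← toReal_enorm]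
  exact ENNReal.toReal_mono hMfin h1

/-- Young's inequality for `L³` functions -/
theorem cv_nine (h : Ker K) {g : E → ℝ} (hgm : Measurable g) (hg : MemLp g 3 volume)
    (hgi : Integrable g) : MemLp (cv K g) 9 volume := by
  obtain ⟨C, hC, hd⟩ := ker_dom h
  have hfin : ∫⁻ z, ‖g z‖ₑ ^ (3 : ℝ) ≠ ⊤ := by
    have := (eLpNorm_lt_top_iff_lintegral_rpow_enorm_lt_top (by norm_num) (by norm_num)).1 hg.eLpNorm_lt_top
    simpa using this.ne
  have haesm : AEStronglyMeasurable (cv K g) volume :=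
    ((ker_integrable h).integrable_convolution (ContinuousLinearMap.mul ℝ ℝ) hgi).aestronglyMeasurable
  refine ⟨haesm, ?_⟩
  rw [eLpNorm_lt_top_iff_lintegral_rpow_enorm_lt_top (by norm_num) (by norm_num)]
  set G : E → ℝ≥0∞ := fun z => ‖g z‖ₑ ^ (3 : ℝ) with hG
  have hGm : Measurable G := by rw [hG]; fun_prop
  set N : ℝ≥0∞ := ∫⁻ z, kb z with hN
  set M : ℝ≥0∞ := ∫⁻ z, G z with hM
  have key : ∀ x, ‖cv K g x‖ₑ ^ (9 : ℝ) ≤
      (ENNReal.ofReal C) ^ (9 : ℝ) * (M ^ (2 : ℝ) * N ^ (6 : ℝ)) * ∫⁻ z, ka z * G (x - z) := by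
    intro x
    have h1 : ‖cv K g x‖ₑ ≤ ENNReal.ofReal C *
        (M ^ (2 / 9 : ℝ) * (∫⁻ z, ka z * G (x - z)) ^ (1 / 9 : ℝ) * N ^ (2 / 3 : ℝ)) := by
      refine (enorm_cv_le K g x).trans ?_
      have h2 : ∫⁻ z, ‖K z‖ₑ * ‖g (x - z)‖ₑ ≤
          ∫⁻ z, ENNReal.ofReal C * (G (x - z) ^ (2 / 9 : ℝ) * (ka z * G (x - z)) ^ (1 / 9 : ℝ) *
            kb z ^ (2 / 3 : ℝ)) := by
        apply lintegral_mono_ae
        filter_upwards [ae_ne_zero] with z hz
        have h3 := hd z hz (1 / 9) (2 / 3) (by norm_num)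
        have h4 : G (x - z) ^ (2 / 9 : ℝ) * G (x - z) ^ (1 / 9 : ℝ) = ‖g (x - z)‖ₑ := by
          rw [← ENNReal.rpow_add_of_nonneg _ _ (by norm_num) (by norm_num), hG, ← ENNReal.rpow_mul]
          norm_num
        calc ‖K z‖ₑ * ‖g (x - z)‖ₑ ≤ ENNReal.ofReal C * (ka z ^ (1 / 9 : ℝ) * kb z ^ (2 / 3 : ℝ)) *
              ‖g (x - z)‖ₑ := mul_le_mul' h3 le_rfl
          _ = ENNReal.ofReal C * (ka z ^ (1 / 9 : ℝ) * kb z ^ (2 / 3 : ℝ)) *
              (G (x - z) ^ (2 / 9 : ℝ) * G (x - z) ^ (1 / 9 : ℝ)) := by rw [h4]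
          _ = _ := by
              rw [ENNReal.mul_rpow_of_nonneg _ _ (by norm_num : (0 : ℝ) ≤ 1 / 9)]
              ring
      refine h2.trans ?_
      rw [lintegral_const_mul' _ _ ENNReal.ofReal_ne_top]
      apply mul_le_mul' le_rfl
      have hGx : Measurable fun z => G (x - z) := hGm.comp (measurable_const.sub measurable_id)
      have h5 := ENNReal.lintegral_prod_norm_pow_le (μ := (volume : Measure E)) (Finset.univ : Finset (Fin 3))
        (f := ![fun z => G (x - z), fun z => ka z * G (x - z), kb]) (p := ![2 / 9, 1 / 9, 2 / 3])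
        (by
          intro i _
          fin_cases i
          · exact hGx.aemeasurable
          · exact (measurable_ka.mul hGx).aemeasurable
          · exact measurable_kb.aemeasurable)
        (by simp [Fin.sum_univ_three]; norm_num)
        (by
          intro i _
          fin_cases i
          · show (0 : ℝ) ≤ 2 / 9
            norm_num
          · show (0 : ℝ) ≤ 1 / 9
            norm_num
          · show (0 : ℝ) ≤ 2 / 3
            norm_num)
      simp only [Fin.prod_univ_three] at h5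
      have h6 := h5
      simp only [Matrix.cons_val_zero, Matrix.cons_val_one, Matrix.cons_val_two, Matrix.head_cons,
        Matrix.tail_cons] at h6
      rwa [lint_shift G x] at h6
    calc ‖cv K g x‖ₑ ^ (9 : ℝ) ≤ (ENNReal.ofReal C *
        (M ^ (2 / 9 : ℝ) * (∫⁻ z, ka z * G (x - z)) ^ (1 / 9 : ℝ) * N ^ (2 / 3 : ℝ))) ^ (9 : ℝ) :=
          ENNReal.rpow_le_rpow h1 (by norm_num)
      _ = _ := by
          rw [ENNReal.mul_rpow_of_nonneg _ _ (by norm_num : (0 : ℝ) ≤ 9),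
            ENNReal.mul_rpow_of_nonneg _ _ (by norm_num : (0 : ℝ) ≤ 9),
            ENNReal.mul_rpow_of_nonneg _ _ (by norm_num : (0 : ℝ) ≤ 9),
            ← ENNReal.rpow_mul, ← ENNReal.rpow_mul, ← ENNReal.rpow_mul]
          rw [show (2 / 9 : ℝ) * 9 = 2 by norm_num, show (1 / 9 : ℝ) * 9 = 1 by norm_num,
            show (2 / 3 : ℝ) * 9 = 6 by norm_num, ENNReal.rpow_one]
          ring
  have hcfin : (ENNReal.ofReal C) ^ (9 : ℝ) * (M ^ (2 : ℝ) * N ^ (6 : ℝ)) ≠ ⊤ := by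
    apply ENNReal.mul_ne_top
    · exact ENNReal.rpow_ne_top_of_nonneg (by norm_num) ENNReal.ofReal_ne_top
    apply ENNReal.mul_ne_top
    · exact ENNReal.rpow_ne_top_of_nonneg (by norm_num) hfin
    · exact ENNReal.rpow_ne_top_of_nonneg (by norm_num) int_kb
  have hton : ∫⁻ x, ∫⁻ z, ka z * G (x - z) = (∫⁻ z, ka z) * M := by
    rw [lintegral_lintegral_swap]
    · have : ∀ z, ∫⁻ x, ka z * G (x - z) = ka z * M := by
        intro z
        have hGz : Measurable fun x : E => G (x - z) := hGm.comp (measurable_id.sub_const z)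
        rw [lintegral_const_mul _ hGz]
        rw [lintegral_sub_right_eq_self G z]
      simp only [this]
      rw [lintegral_mul_const _ measurable_ka]
    · apply Measurable.aemeasurable
      apply Measurable.mul (measurable_ka.comp measurable_snd)
      exact hGm.comp (measurable_fst.sub measurable_snd)
  have h9 : (ENNReal.toReal 9) = (9 : ℝ) := by norm_num
  rw [h9]
  refine lt_of_le_of_lt (lintegral_mono key) ?_
  rw [lintegral_const_mul' _ _ hcfin, hton]
  exact (ENNReal.mul_ne_top hcfin (ENNReal.mul_ne_top int_ka hfin)).lt_top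

end RegC
end Leray
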