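import Pool.Agent.Lib.MP_9b9638_an.Calc
import Pool.Agent.Lib.MP_9b9638_an.KerDefs

/-! # Leray profiles, REG-B: convolutions with test functions -/

open MeasureTheory Set Filter Topology TopologicalSpace

noncomputable section
namespace Leray
namespace RB

/-- convolution of the test function with the kernel -/
def cf (K ψ : E → ℝ) (y : E) : ℝ := ∫ x, ψ x * K (y - x)

theorem cf_eq (K ψ : E → ℝ) :
    cf K ψ = MeasureTheory.convolution ψ K (ContinuousLinearMap.mul ℝ ℝ) volume := rfl

theorem contDiff_cf {K ψ : E → ℝ} (hK : ContDiff ℝ (⊤ : ℕ∞) K) (hKc : HasCompactSupport K)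
    (hψ : Continuous ψ) (_hψc : HasCompactSupport ψ) : ContDiff ℝ (⊤ : ℕ∞) (cf K ψ) := by
  rw [cf_eq]
  exact hKc.contDiff_convolution_right _ hψ.locallyIntegrable hK

theorem hcs_cf {K ψ : E → ℝ} (hKc : HasCompactSupport K) (hψc : HasCompactSupport ψ) :
    HasCompactSupport (cf K ψ) := by
  rw [cf_eq]
  exact hψc.convolution _ hKc

theorem pd_cf {K ψ : E → ℝ} (hK : ContDiff ℝ (⊤ : ℕ∞) K) (hKc : HasCompactSupport K)
    (hψ : Continuous ψ) (i : Fin 3) (y : E) : pd i (cf K ψ) y = cf (pd i K) ψ y := by
  have h1 := hKc.hasFDerivAt_convolution_right (ContinuousLinearMap.mul ℝ ℝ) (μ := volume)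
    hψ.locallyIntegrable (hK.of_le (by exact_mod_cast le_top)) y
  unfold pd
  rw [cf_eq, h1.fderiv]
  rw [convolution_precompR_apply (ContinuousLinearMap.mul ℝ ℝ) hψ.locallyIntegrable
    (hKc.fderiv ℝ) (hK.continuous_fderiv (by simp)) y (ei i)]
  rfl

/-- pairing of a locally integrable function with a translate of the test function -/
def Gf (g ψ : E → ℝ) (w : E) : ℝ := ∫ y, g y * ψ (y - w)

theorem continuous_Gf {g ψ : E → ℝ} (hg : LocallyIntegrable g) (hψ : Continuous ψ)
    (hψc : HasCompactSupport ψ) : Continuous (Gf g ψ) := by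
  have h1 : Gf g ψ = MeasureTheory.convolution g (fun z => ψ (-z)) (ContinuousLinearMap.mul ℝ ℝ) volume := by
    funext w
    unfold Gf MeasureTheory.convolution
    congr 1
    funext y
    simp
  rw [h1]
  apply HasCompactSupport.continuous_convolution_right _ _ hg (hψ.comp continuous_neg)
  exact hψc.comp_homeomorph (Homeomorph.neg E)

theorem Gf_zero (g ψ : E → ℝ) : Gf g ψ 0 = ∫ y, g y * ψ y := by
  unfold Gf; simp

/-- the basic integrability on the product -/
theorem integrable_triple {K g ψ : E → ℝ} (hK : Integrable K) (hK0 : ∀ z, 1 ≤ ‖z‖ → K z = 0)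
    (hg : LocallyIntegrable g) (hψ : Continuous ψ) (hψc : HasCompactSupport ψ) :
    Integrable (fun p : E × E => g p.1 * ψ (p.1 - p.2) * K p.2) (volume.prod volume) := by
  obtain ⟨R, hR⟩ := hψc.isCompact.isBounded.subset_closedBall (0 : E)
  have hψ0 : ∀ x, R < ‖x‖ → ψ x = 0 := by
    intro x hx
    by_contra h
    have : x ∈ tsupport ψ := subset_tsupport _ h
    have := hR this
    rw [mem_closedBall_zero_iff] at this
    linarith
  obtain ⟨B, hB⟩ := hψ.bounded_above_of_compact_support hψc
  set g' : E → ℝ := indicator (Metric.closedBall (0 : E) (R + 1)) g with hg'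
  have hg'i : Integrable g' := by
    rw [hg', integrable_indicator_iff measurableSet_closedBall]
    exact hg.integrableOn_isCompact (isCompact_closedBall _ _)
  have h1 : Integrable (fun p : E × E => g' p.1 * K p.2) (volume.prod volume) := hg'i.mul_prod hK
  have h2 : Integrable (fun p : E × E => ψ (p.1 - p.2) * (g' p.1 * K p.2)) (volume.prod volume) := by
    apply h1.bdd_mul (c := B)
    · exact (hψ.comp (continuous_fst.sub continuous_snd)).aestronglyMeasurable
    · filter_upwards with p using hB _
  apply h2.congr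
  filter_upwards with p
  by_cases hp : p.1 ∈ Metric.closedBall (0 : E) (R + 1)
  · rw [hg', indicator_of_mem hp]; ring
  · rw [hg', indicator_of_notMem hp]
    rw [mem_closedBall_zero_iff, not_le] at hp
    rcases le_or_gt 1 ‖p.2‖ with h3 | h3
    · rw [hK0 _ h3]; ring
    · have h4 : R < ‖p.1 - p.2‖ := by
        have := norm_sub_norm_le p.1 p.2
        linarith
      rw [hψ0 _ h4]; ring

/-- first pairing -/
theorem int_cf {K g ψ : E → ℝ} (hK : Integrable K) (hK0 : ∀ z, 1 ≤ ‖z‖ → K z = 0)
    (hg : LocallyIntegrable g) (hψ : Continuous ψ) (hψc : HasCompactSupport ψ) :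
    ∫ y, g y * cf K ψ y = ∫ z, K z * Gf g ψ z := by
  have h := integrable_triple hK hK0 hg hψ hψc
  have h1 : ∀ y, g y * cf K ψ y = ∫ z, g y * ψ (y - z) * K z := by
    intro y
    unfold cf
    rw [← integral_const_mul, ← integral_sub_left_eq_self _ volume y]
    congr 1
    funext z
    rw [sub_sub_self]; ring
  simp only [h1]
  rw [integral_integral_swap h]
  congr 1
  funext z
  unfold Gf
  rw [← integral_const_mul]
  congr 1
  funext y
  ring

/-- the other order of integration -/
theorem integrable_shift {K g ψ : E → ℝ} (hK : Integrable K) (hK0 : ∀ z, 1 ≤ ‖z‖ → K z = 0)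
    (hg : LocallyIntegrable g) (hψ : Continuous ψ) (hψc : HasCompactSupport ψ) :
    Integrable (fun p : E × E => g (p.1 + p.2) * ψ p.1 * K p.2) (volume.prod volume) := by
  have h := integrable_triple hK hK0 hg hψ hψc
  have hmp : MeasurePreserving (fun p : E × E => (p.1 + p.2, p.2)) (volume.prod volume) (volume.prod volume) := by
    have h1 := (measurePreserving_prod_add_swap (volume : Measure E) (volume : Measure E))
    have h2 := h1.comp (Measure.measurePreserving_swap (μ := (volume : Measure E)) (ν := (volume : Measure E)))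
    have h3 := (Measure.measurePreserving_swap (μ := (volume : Measure E)) (ν := (volume : Measure E))).comp
      (measurePreserving_prod_add (volume : Measure E) (volume : Measure E))
    have h4 := h3.comp (Measure.measurePreserving_swap (μ := (volume : Measure E)) (ν := (volume : Measure E)))
    convert h4 using 1
    funext p
    simp [Prod.swap, add_comm]
  have h5 := hmp.integrable_comp_of_integrable h
  apply h5.congr
  filter_upwards with p
  simp

theorem cv_neg (K g : E → ℝ) (x : E) : cv (fun z => K (-z)) g x = ∫ z, K z * g (x + z) := by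
  unfold cv
  rw [← integral_neg_eq_self]
  simp

theorem integrable_mul_cv {K g ψ : E → ℝ} (hK : Integrable K) (hK0 : ∀ z, 1 ≤ ‖z‖ → K z = 0)
    (hg : LocallyIntegrable g) (hψ : Continuous ψ) (hψc : HasCompactSupport ψ) :
    Integrable (fun x => ψ x * cv (fun z => K (-z)) g x) := by
  have h := (integrable_shift hK hK0 hg hψ hψc).integral_prod_left
  apply h.congr
  filter_upwards with x
  rw [cv_neg, ← integral_const_mul]
  congr 1
  funext z
  ring

/-- second pairing -/
theorem int_cv {K g ψ : E → ℝ} (hK : Integrable K) (hK0 : ∀ z, 1 ≤ ‖z‖ → K z = 0)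
    (hg : LocallyIntegrable g) (hψ : Continuous ψ) (hψc : HasCompactSupport ψ) :
    ∫ x, ψ x * cv (fun z => K (-z)) g x = ∫ z, K z * Gf g ψ z := by
  have h := integrable_shift hK hK0 hg hψ hψc
  have h1 : ∀ x, ψ x * cv (fun z => K (-z)) g x = ∫ z, g (x + z) * ψ x * K z := by
    intro x
    rw [cv_neg, ← integral_const_mul]
    congr 1
    funext z
    ring
  simp only [h1]
  rw [integral_integral_swap h]
  congr 1
  funext z
  unfold Gf
  have h2 : ∫ y, g y * ψ (y - z) = ∫ y, g (y + z) * ψ y := by
    rw [← integral_add_right_eq_self (fun y => g y * ψ (y - z)) z]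
    simp
  rw [h2, ← integral_const_mul]
  congr 1
  funext y
  ring

theorem locallyIntegrable_cv {K g : E → ℝ} (hK : Integrable K) (hK0 : ∀ z, 1 ≤ ‖z‖ → K z = 0)
    (hg : LocallyIntegrable g) : LocallyIntegrable (cv (fun z => K (-z)) g) := by
  rw [locallyIntegrable_iff]
  intro S hS
  obtain ⟨ψ, h1, -, h3, -⟩ := exists_continuous_one_zero_of_isCompact hS isClosed_empty (disjoint_empty S)
  have h4 := (integrable_mul_cv hK hK0 hg ψ.continuous h3).integrableOn (s := S)
  apply h4.congr_fun _ hS.measurableSet
  intro x hx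
  simp only
  rw [h1 hx]
  simp

end RB
end Leray
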