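import Pool.Agent.Lib.MP_9b9638_an.RepConv
import Pool.Agent.Lib.MP_9b9638_an.KerTop

/-! # Leray profiles, REG-B: limits of the pairings -/

open MeasureTheory Set Filter Topology TopologicalSpace

noncomputable section
namespace Leray
namespace RB

/-! ### smooth slices -/

/-- smooth off the origin and with bounded support in space -/
structure Ok (F : EP → ℝ) : Prop where
  sm : ContDiffOn ℝ (⊤ : ℕ∞) F {0}ᶜ
  sp : Sp F

theorem pz_smooth {F : EP → ℝ} (hF : ContDiffOn ℝ (⊤ : ℕ∞) F {0}ᶜ) (i : Fin 3) :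
    ContDiffOn ℝ (⊤ : ℕ∞) (pz i F) {0}ᶜ := by
  have hfd : ContDiffOn ℝ (⊤ : ℕ∞) (fderiv ℝ F) {0}ᶜ :=
    hF.fderiv_of_isOpen isOpen_co (by norm_num)
  exact hfd.clm_apply contDiffOn_const

theorem Ok.pz {F : EP → ℝ} (h : Ok F) (i : Fin 3) : Ok (RB.pz i F) := ⟨pz_smooth h.sm i, h.sp.pz i⟩

theorem Ok.lapz {F : EP → ℝ} (h : Ok F) : Ok (RB.lapz F) := by
  refine ⟨?_, sp_lapz h.sp⟩
  unfold RB.lapz
  exact ContDiffOn.sum fun i _ => pz_smooth (pz_smooth h.sm i) i

theorem ok_F0 : Ok F0 := ⟨sy_F0.smooth, sp_F0⟩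

theorem hcs_slice {F : EP → ℝ} (h : Sp F) (e : ℝ) : HasCompactSupport (fun z => F (z, e)) := by
  apply HasCompactSupport.intro (isCompact_closedBall (0 : E) 1)
  intro z hz
  have : 1 < ‖z‖ := by simpa using hz
  exact h _ (by show 3 / 4 < ‖z‖; linarith)

/-- regularised convolutions -/
def ce (F : EP → ℝ) (ψ : E → ℝ) (e : ℝ) : E → ℝ := cf (fun z => F (z, e)) ψ

theorem contDiff_ce {F : EP → ℝ} (h : Ok F) {ψ : E → ℝ} (hψ : Continuous ψ) (hψc : HasCompactSupport ψ)
    {e : ℝ} (he : e ≠ 0) : ContDiff ℝ (⊤ : ℕ∞) (ce F ψ e) :=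
  contDiff_cf (contDiff_slice h.sm he) (hcs_slice h.sp e) hψ hψc

theorem hcs_ce {F : EP → ℝ} (h : Ok F) {ψ : E → ℝ} (hψc : HasCompactSupport ψ) (e : ℝ) :
    HasCompactSupport (ce F ψ e) := hcs_cf (hcs_slice h.sp e) hψc

theorem pd_ce {F : EP → ℝ} (h : Ok F) {ψ : E → ℝ} (hψ : Continuous ψ) {e : ℝ} (he : e ≠ 0) (i : Fin 3) :
    pd i (ce F ψ e) = ce (pz i F) ψ e := by
  funext y
  unfold ce
  rw [pd_cf (contDiff_slice h.sm he) (hcs_slice h.sp e) hψ]
  congr 1
  funext z
  exact pd_slice h.sm (ne_zero_right he) i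

theorem cf_integrable {K ψ : E → ℝ} (hK : Continuous K) (hψ : Continuous ψ) (hψc : HasCompactSupport ψ) (y : E) :
    Integrable (fun x => ψ x * K (y - x)) :=
  (hψ.mul (hK.comp (continuous_const.sub continuous_id))).integrable_of_hasCompactSupport hψc.mul_right

theorem cf_sum {ι : Type*} (s : Finset ι) {K : ι → E → ℝ} {ψ : E → ℝ} (hK : ∀ i ∈ s, Continuous (K i))
    (hψ : Continuous ψ) (hψc : HasCompactSupport ψ) (y : E) :
    cf (fun z => ∑ i ∈ s, K i z) ψ y = ∑ i ∈ s, cf (K i) ψ y := by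
  unfold cf
  rw [← integral_finsetSum s fun i hi => cf_integrable (hK i hi) hψ hψc y]
  congr 1
  funext x
  rw [Finset.mul_sum]

theorem lap_ce {F : EP → ℝ} (h : Ok F) {ψ : E → ℝ} (hψ : Continuous ψ) (hψc : HasCompactSupport ψ)
    {e : ℝ} (he : e ≠ 0) : lap (ce F ψ e) = ce (lapz F) ψ e := by
  funext y
  unfold lap
  have h1 : ∀ i, pd i (pd i (ce F ψ e)) = ce (pz i (pz i F)) ψ e := by
    intro i
    rw [pd_ce h hψ he, pd_ce (h.pz i) hψ he]
  simp only [h1]
  unfold ce lapz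
  rw [cf_sum Finset.univ (fun i _ => (contDiff_slice ((h.pz i).pz i).sm he).continuous) hψ hψc]

/-! ### calculus -/

theorem lap_euler {Φ : E → ℝ} (hΦ : ContDiff ℝ (⊤ : ℕ∞) Φ) (x : E) :
    lap (fun y => ∑ j, y j * pd j Φ y) x = 2 * lap Φ x + ∑ m, x m * pd m (lap Φ) x := by
  have c1 : ∀ j, ContDiff ℝ (⊤ : ℕ∞) (pd j Φ) := fun j => contDiff_pd hΦ (by norm_num)
  have c2 : ∀ i j, ContDiff ℝ (⊤ : ℕ∞) (pd i (pd j Φ)) := fun i j => contDiff_pd (c1 j) (by norm_num)
  have c3 : ∀ i j k, ContDiff ℝ (⊤ : ℕ∞) (pd i (pd j (pd k Φ))) := fun i j k => contDiff_pd (c2 j k) (by norm_num)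
  have d1 : ∀ j, Differentiable ℝ (pd j Φ) := fun j => (c1 j).differentiable (by simp)
  have d2 : ∀ i j, Differentiable ℝ (pd i (pd j Φ)) := fun i j => (c2 i j).differentiable (by simp)
  have h1 : ∀ i, pd i (fun y => ∑ j, y j * pd j Φ y) = fun y => pd i Φ y + ∑ j, y j * pd i (pd j Φ) y := by
    intro i
    funext y
    rw [pd_sum_at (fun j _ => ((differentiable_coord j) y).fun_mul (d1 j y))]
    have : ∀ j, pd i (fun y => y j * pd j Φ y) y = (if i = j then 1 else 0) * pd j Φ y + y j * pd i (pd j Φ) y := by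
      intro j
      rw [pd_mul_at ((differentiable_coord j) y) (d1 j y), pd_coord]
    simp only [this]
    rw [Finset.sum_add_distrib]
    simp
  have h2 : ∀ i, pd i (pd i (fun y => ∑ j, y j * pd j Φ y)) x =
      2 * pd i (pd i Φ) x + ∑ j, x j * pd i (pd i (pd j Φ)) x := by
    intro i
    rw [h1 i, pd_add_at (d1 i x) (DifferentiableAt.fun_sum fun j _ => ((differentiable_coord j) x).fun_mul (d2 i j x)),
      pd_sum_at (fun j _ => ((differentiable_coord j) x).fun_mul (d2 i j x))]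
    have : ∀ j, pd i (fun y => y j * pd i (pd j Φ) y) x =
        (if i = j then 1 else 0) * pd i (pd j Φ) x + x j * pd i (pd i (pd j Φ)) x := by
      intro j
      rw [pd_mul_at ((differentiable_coord j) x) (d2 i j x), pd_coord]
    simp only [this]
    rw [Finset.sum_add_distrib]
    simp
    ring
  have h3 : ∀ m, pd m (lap Φ) x = ∑ i, pd i (pd i (pd m Φ)) x := by
    intro m
    unfold lap
    rw [pd_sum_at (fun i _ => d2 i i x)]
    apply Finset.sum_congr rfl
    intro i _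
    have le2 : (2 : WithTop ℕ∞) ≤ ((⊤ : ℕ∞) : WithTop ℕ∞) := by
      have : ((2 : ℕ∞) : WithTop ℕ∞) ≤ ((⊤ : ℕ∞) : WithTop ℕ∞) := WithTop.coe_le_coe.2 le_top
      exact this
    have e1 : pd m (pd i (pd i Φ)) x = pd i (pd m (pd i Φ)) x := pd_comm ((c1 i).of_le le2) x
    have e2 : pd m (pd i Φ) = pd i (pd m Φ) := by
      funext y
      exact pd_comm (hΦ.of_le le2) y
    rw [e1, e2]
  unfold lap at h3 ⊢
  simp only [h2, h3]
  rw [Finset.sum_add_distrib, ← Finset.mul_sum]
  congr 1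
  rw [Finset.sum_comm]
  apply Finset.sum_congr rfl
  intro m _
  rw [Finset.mul_sum]

/-! ### kernels -/

theorem ker_integrable {K : E → ℝ} (hK : Ker K) : Integrable K := by
  obtain ⟨C, hC⟩ := hK.bd
  have hm : AEStronglyMeasurable K (volume : Measure E) := by
    have h1 : AEStronglyMeasurable K ((volume : Measure E).restrict {0}ᶜ) :=
      hK.smooth.continuousOn.aestronglyMeasurable (isOpen_compl_singleton.measurableSet)
    have h2 : (volume : Measure E).restrict {0}ᶜ = volume := by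
      apply Measure.restrict_eq_self_of_ae_mem
      filter_upwards [ae_ne_zero] with z hz using hz
    rwa [h2] at h1
  apply (integrable_dom.const_mul C).mono' hm
  filter_upwards [ae_ne_zero] with z hz
  rw [Real.norm_eq_abs]
  rcases le_or_gt ‖z‖ 1 with h1 | h1
  · rw [dom_of_le h1, ← div_eq_mul_inv]
    exact hC z hz
  · rw [hK.supp z h1.le, abs_zero]
    have : dom z = 0 := by
      unfold dom
      rw [indicator_of_notMem (by rw [mem_Iic]; linarith)]
    rw [this, mul_zero]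

theorem int_pair {K G : E → ℝ} (hK : Integrable K) (hK0 : ∀ z, 1 ≤ ‖z‖ → K z = 0) (hG : Continuous G) :
    Integrable (fun z => K z * G z) := by
  obtain ⟨B, hB0, hB⟩ := bound_on_ball hG
  apply (hK.norm.mul_const B).mono' (hK.aestronglyMeasurable.mul hG.aestronglyMeasurable)
  filter_upwards with z
  rw [Pi.mul_apply, norm_mul]
  rcases le_or_gt ‖z‖ 1 with h1 | h1
  · exact mul_le_mul_of_nonneg_left (hB z h1) (norm_nonneg _)
  · rw [hK0 z h1.le, norm_zero, zero_mul, zero_mul]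

/-- pairing -/
def P (K G : E → ℝ) : ℝ := ∫ z, K z * G z

theorem P_add {K L G : E → ℝ} (hK : Ker K) (hL : Ker L) (hG : Continuous G) :
    P (fun z => K z + L z) G = P K G + P L G := by
  unfold P
  rw [← integral_add (int_pair (ker_integrable hK) hK.supp hG) (int_pair (ker_integrable hL) hL.supp hG)]
  congr 1
  funext z
  ring

theorem P_const_mul {K G : E → ℝ} (c : ℝ) : P (fun z => c * K z) G = c * P K G := by
  unfold P
  rw [← integral_const_mul]
  congr 1
  funext z
  ring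

theorem P_sum {ι : Type*} (s : Finset ι) {K : ι → E → ℝ} {G : E → ℝ} (hK : ∀ i ∈ s, Ker (K i)) (hG : Continuous G) :
    P (fun z => ∑ i ∈ s, K i z) G = ∑ i ∈ s, P (K i) G := by
  unfold P
  rw [← integral_finsetSum s fun i hi => int_pair (ker_integrable (hK i hi)) (hK i hi).supp hG]
  congr 1
  funext x
  rw [Finset.sum_mul]

/-! ### limits -/

theorem slice_supp {F : EP → ℝ} (hs : Sp F) (e : ℝ) : ∀ z : E, 1 ≤ ‖z‖ → F (z, e) = 0 :=
  fun z hz => hs _ (by show 3 / 4 < ‖z‖; linarith)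

/-- limit of the pairings -/
theorem lim_ce {F : EP → ℝ} (hF : Sy (-2) F) (hs : Sp F) {g ψ : E → ℝ} (hg : LocallyIntegrable g)
    (hψ : Continuous ψ) (hψc : HasCompactSupport ψ) :
    Tendsto (fun e : ℝ => ∫ y, g y * ce F ψ e y) (𝓝[>] 0) (𝓝 (P (fun z => F (z, 0)) (Gf g ψ))) := by
  refine Tendsto.congr' ?_ (tendsto_slice hF hs (continuous_Gf hg hψ hψc))
  filter_upwards [eventually_small] with e he
  exact (int_cf (integrable_slice hF hs he.2) (slice_supp hs e) hg hψ hψc).symm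

/-- limit of the top order pairing -/
theorem lim_top {g ψ : E → ℝ} (hg : LocallyIntegrable g) (hψ : Continuous ψ) (hψc : HasCompactSupport ψ) :
    Tendsto (fun e : ℝ => ∫ y, g y * ce L4 ψ e y) (𝓝[>] 0)
      (𝓝 (P (fun z => L4 (z, 0)) (Gf g ψ) - c1 * ∫ y, g y * ψ y)) := by
  have h := tendsto_L4 (continuous_Gf hg hψ hψc)
  rw [Gf_zero] at h
  refine Tendsto.congr' ?_ h
  filter_upwards [eventually_small] with e he
  have hi : Integrable (fun z => L4 (z, e)) :=
    (contDiff_slice sy_L4.smooth he.1.ne').continuous.integrable_of_hasCompactSupport (hcs_slice sp_L4 e)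
  exact (int_cf hi (slice_supp sp_L4 e) hg hψ hψc).symm

/-- multiplication by a coordinate -/
theorem coord_ce {F : EP → ℝ} (h : Ok F) {ψ : E → ℝ} (hψ : Continuous ψ) (hψc : HasCompactSupport ψ)
    {e : ℝ} (he : e ≠ 0) (m : Fin 3) (y : E) :
    y m * ce F ψ e y = ce F (fun x => x m * ψ x) e y + ce (fun p => p.1 m * F p) ψ e y := by
  unfold ce cf
  have c1 : Continuous (fun z => F (z, e)) := (contDiff_slice h.sm he).continuous
  have cm : Continuous (fun y : E => y m) := (differentiable_coord m).continuous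
  have i1 : Integrable (fun x => x m * ψ x * F (y - x, e)) :=
    ((cm.mul hψ).mul (c1.comp (continuous_const.sub continuous_id))).integrable_of_hasCompactSupport
      (hψc.mul_left.mul_right)
  have i2 : Integrable (fun x => ψ x * ((y - x) m * F (y - x, e))) :=
    (hψ.mul ((cm.comp (continuous_const.sub continuous_id)).mul
      (c1.comp (continuous_const.sub continuous_id)))).integrable_of_hasCompactSupport hψc.mul_right
  rw [← integral_add i1 i2, ← integral_const_mul]
  congr 1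
  funext x
  rw [PiLp.sub_apply]
  ring

theorem int_mul_ce {F : EP → ℝ} (h : Ok F) {g ψ : E → ℝ} (hg : LocallyIntegrable g) (hψ : Continuous ψ)
    (hψc : HasCompactSupport ψ) {e : ℝ} (he : e ≠ 0) : Integrable (fun y => g y * ce F ψ e y) :=
  hg.integrable_smul_right_of_hasCompactSupport (contDiff_ce h hψ hψc he).continuous (hcs_ce h hψc e)

theorem sy_coord {d : ℤ} {F : EP → ℝ} (hF : Sy d F) (m : Fin 3) : Sy d (fun p => p.1 m * F p) :=
  hF.mul_smooth (by fun_prop)

theorem lim_coord {F : EP → ℝ} (hF : Sy (-2) F) (hs : Sp F) {g ψ : E → ℝ} (hg : LocallyIntegrable g)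
    (hψ : Continuous ψ) (hψc : HasCompactSupport ψ) (m : Fin 3) :
    Tendsto (fun e : ℝ => ∫ y, g y * (y m * ce F ψ e y)) (𝓝[>] 0)
      (𝓝 (P (fun z => F (z, 0)) (Gf g (fun x => x m * ψ x)) + P (fun z => z m * F (z, 0)) (Gf g ψ))) := by
  have cm : Continuous (fun y : E => y m) := (differentiable_coord m).continuous
  have hs' : Sp (fun p : EP => p.1 m * F p) := hs.mul_left _
  have h1 := lim_ce hF hs hg (ψ := fun x => x m * ψ x) (cm.mul hψ) hψc.mul_left
  have h2 := lim_ce (sy_coord hF m) hs' hg hψ hψc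
  refine Tendsto.congr' ?_ (h1.add h2)
  filter_upwards [eventually_small] with e he
  have i1 : Integrable (fun y => g y * ce F (fun x => x m * ψ x) e y) :=
    int_mul_ce ⟨hF.smooth, hs⟩ hg (cm.mul hψ) hψc.mul_left he.1.ne'
  rw [← integral_add i1 (int_mul_ce ⟨(sy_coord hF m).smooth, hs'⟩ hg hψ hψc he.1.ne')]
  congr 1
  funext y
  rw [coord_ce ⟨hF.smooth, hs⟩ hψ hψc he.1.ne' m y]
  ring

end RB
end Leray
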