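import Pool.Agent.Lib.MP_9b9638_an.ThickD
import Pool.Agent.Lib.MP_9b9638_an.Energy3
import Pool.Agent.Lib.MP_9b9638_an.Newton

/-!
# The main estimate for thick shells
-/

open MeasureTheory Set Filter Topology

noncomputable section
namespace Leray.Thk

theorem interp_le {Z G κ' κ : ℝ} (hG : 1 ≤ G) (hZ : G ≤ Z) (h : κ' ≤ κ) :
    Z ^ κ' * G ^ (1 - κ') ≤ Z ^ κ * G ^ (1 - κ) := by
  have hG0 : 0 < G := by linarith
  have hZ0 : 0 < Z := by linarith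
  have h1 : Z ^ κ = Z ^ κ' * Z ^ (κ - κ') := by
    rw [← Real.rpow_add hZ0]; congr 1; ring
  have h2 : G ^ (1 - κ') = G ^ (1 - κ) * G ^ (κ - κ') := by
    rw [← Real.rpow_add hG0]; congr 1; ring
  have h3 : G ^ (κ - κ') ≤ Z ^ (κ - κ') := Real.rpow_le_rpow hG0.le hZ (by linarith)
  have h4 : 0 ≤ Z ^ κ' := Real.rpow_nonneg hZ0.le _
  have h5 : 0 ≤ G ^ (1 - κ) := Real.rpow_nonneg hG0.le _
  rw [h1, h2]
  calc Z ^ κ' * (G ^ (1 - κ) * G ^ (κ - κ')) = Z ^ κ' * G ^ (1 - κ) * G ^ (κ - κ') := by ring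
    _ ≤ Z ^ κ' * G ^ (1 - κ) * Z ^ (κ - κ') := mul_le_mul_of_nonneg_left h3 (by positivity)
    _ = Z ^ κ' * Z ^ (κ - κ') * G ^ (1 - κ) := by ring

theorem interp_le' {Z G κ' κ : ℝ} (hG : 1 ≤ G) (hZ : G ≤ Z) (h : κ' ≤ κ) (h1 : κ' ≤ 1) :
    Z ^ κ' ≤ Z ^ κ * G ^ (1 - κ) := by
  refine le_trans ?_ (interp_le hG hZ h)
  have h4 : 0 ≤ Z ^ κ' := Real.rpow_nonneg (by linarith) _
  have h5 : 1 ≤ G ^ (1 - κ') := Real.one_le_rpow hG (by linarith)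
  nlinarith

/-- bookkeeping -/
theorem thick_sum {Q R d s g U k1 k2 k3 c6 T1 T2 T3 T4 T5 T6 T7 T8 T9 : ℝ}
    (hR : 1 ≤ R) (hQ : 1 ≤ Q) (hd0 : 0 < d) (hRd : R * d = Q)
    (hg : 0 < g) (h1 : 0 < k1) (h2 : 0 < k2) (h3 : 0 < k3)
    (hU1 : s * g ≤ U) (hU2 : g ^ 2 ≤ U) (hU3 : 1 ≤ U)
    (hT1 : T1 ≤ s * (k1 * g)) (hT2 : T2 ≤ s * (k2 * R * g * Q)) (hT3 : T3 ≤ s * (k3 * g * Q ^ 2))
    (hT4 : d * T4 ≤ c6 * Q ^ 8 * (U + U)) (hT5 : T5 ≤ k1 ^ 2 * g ^ 2) (hT6 : T6 ≤ k1 ^ 2 * g ^ 2)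
    (hT7 : T7 ≤ (k1 * g) * (k2 * R * g * Q)) (hT8 : T8 ≤ (k1 * g) * (k3 * g * Q ^ 2)) (hT9 : T9 ≤ 1) :
    d * T1 + d ^ 2 * T2 + d * T3 + d * T4 + T5 + R * d * T6 + R * d ^ 2 * T7 + R * d * T8 + T9
      ≤ (k1 + k2 + k3 + 2 * c6 + k1 ^ 2 + k1 ^ 2 + k1 * k2 + k1 * k3 + 1) * Q ^ 8 * U := by
  have hdQ : d ≤ Q := by nlinarith
  have hQ0 : 0 < Q := by linarith
  have hU0 : 0 < U := by linarith
  have q1 : Q ≤ Q ^ 8 := by
    calc Q = Q ^ 1 := (pow_one Q).symm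
      _ ≤ Q ^ 8 := pow_le_pow_right₀ hQ (by norm_num)
  have q3 : Q ^ 3 ≤ Q ^ 8 := pow_le_pow_right₀ hQ (by norm_num)
  have q0 : 1 ≤ Q ^ 8 := one_le_pow₀ hQ
  have t1 : d * T1 ≤ k1 * Q ^ 8 * U := by
    calc d * T1 ≤ d * (s * (k1 * g)) := mul_le_mul_of_nonneg_left hT1 hd0.le
      _ = (k1 * d) * (s * g) := by ring
      _ ≤ (k1 * d) * U := mul_le_mul_of_nonneg_left hU1 (by positivity)
      _ ≤ (k1 * Q ^ 8) * U := by
          refine mul_le_mul_of_nonneg_right ?_ hU0.le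
          exact mul_le_mul_of_nonneg_left (hdQ.trans q1) h1.le
  have t2 : d ^ 2 * T2 ≤ k2 * Q ^ 8 * U := by
    calc d ^ 2 * T2 ≤ d ^ 2 * (s * (k2 * R * g * Q)) := mul_le_mul_of_nonneg_left hT2 (by positivity)
      _ = (k2 * Q * d * (R * d)) * (s * g) := by ring
      _ = (k2 * Q * d * Q) * (s * g) := by rw [hRd]
      _ ≤ (k2 * Q * d * Q) * U := mul_le_mul_of_nonneg_left hU1 (by positivity)
      _ ≤ (k2 * Q ^ 8) * U := by
          refine mul_le_mul_of_nonneg_right ?_ hU0.le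
          calc k2 * Q * d * Q ≤ k2 * Q * Q * Q := by gcongr
            _ = k2 * Q ^ 3 := by ring
            _ ≤ k2 * Q ^ 8 := mul_le_mul_of_nonneg_left q3 h2.le
  have t3 : d * T3 ≤ k3 * Q ^ 8 * U := by
    calc d * T3 ≤ d * (s * (k3 * g * Q ^ 2)) := mul_le_mul_of_nonneg_left hT3 hd0.le
      _ = (k3 * d * Q ^ 2) * (s * g) := by ring
      _ ≤ (k3 * d * Q ^ 2) * U := mul_le_mul_of_nonneg_left hU1 (by positivity)
      _ ≤ (k3 * Q ^ 8) * U := by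
          refine mul_le_mul_of_nonneg_right ?_ hU0.le
          calc k3 * d * Q ^ 2 ≤ k3 * Q * Q ^ 2 := by gcongr
            _ = k3 * Q ^ 3 := by ring
            _ ≤ k3 * Q ^ 8 := mul_le_mul_of_nonneg_left q3 h3.le
  have t4 : d * T4 ≤ 2 * c6 * Q ^ 8 * U := hT4.trans (le_of_eq (by ring))
  have t5 : T5 ≤ k1 ^ 2 * Q ^ 8 * U := by
    calc T5 ≤ k1 ^ 2 * U := hT5.trans (mul_le_mul_of_nonneg_left hU2 (by positivity))
      _ ≤ k1 ^ 2 * Q ^ 8 * U := by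
          refine mul_le_mul_of_nonneg_right ?_ hU0.le
          nlinarith [sq_nonneg k1]
  have t6 : R * d * T6 ≤ k1 ^ 2 * Q ^ 8 * U := by
    rw [hRd]
    calc Q * T6 ≤ Q * (k1 ^ 2 * U) :=
          mul_le_mul_of_nonneg_left (hT6.trans (mul_le_mul_of_nonneg_left hU2 (by positivity))) hQ0.le
      _ = k1 ^ 2 * Q * U := by ring
      _ ≤ k1 ^ 2 * Q ^ 8 * U := by gcongr
  have t7 : R * d ^ 2 * T7 ≤ k1 * k2 * Q ^ 8 * U := by
    calc R * d ^ 2 * T7 ≤ R * d ^ 2 * ((k1 * g) * (k2 * R * g * Q)) :=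
          mul_le_mul_of_nonneg_left hT7 (by positivity)
      _ = k1 * k2 * (R * d) ^ 2 * Q * g ^ 2 := by ring
      _ = k1 * k2 * Q ^ 3 * g ^ 2 := by rw [hRd]; ring
      _ ≤ k1 * k2 * Q ^ 8 * U := by gcongr
  have t8 : R * d * T8 ≤ k1 * k3 * Q ^ 8 * U := by
    rw [hRd]
    calc Q * T8 ≤ Q * ((k1 * g) * (k3 * g * Q ^ 2)) := mul_le_mul_of_nonneg_left hT8 hQ0.le
      _ = k1 * k3 * Q ^ 3 * g ^ 2 := by ring
      _ ≤ k1 * k3 * Q ^ 8 * U := by gcongr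
  have t9 : T9 ≤ 1 * Q ^ 8 * U := by
    have : 1 ≤ Q ^ 8 * U := one_le_mul_of_one_le_of_one_le q0 hU3
    linarith
  calc _ ≤ k1 * Q ^ 8 * U + k2 * Q ^ 8 * U + k3 * Q ^ 8 * U + 2 * c6 * Q ^ 8 * U + k1 ^ 2 * Q ^ 8 * U
        + k1 ^ 2 * Q ^ 8 * U + k1 * k2 * Q ^ 8 * U + k1 * k3 * Q ^ 8 * U + 1 * Q ^ 8 * U := by linarith
    _ = _ := by ring

end Leray.Thk

namespace Leray
open Thk

/-- the main estimate, thick shells -/
theorem thick (ν a : ℝ) (hν : 0 < ν) (ha : 0 < a) (V : VF) (hV : SmoothProfile ν a V)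
    (p : ℝ) (h2 : 2 ≤ p) (h3 : p < 3) (hLp : Integrable (fun x => nm V x ^ p)) :
    ∃ C K κ : ℝ, 0 < C ∧ 0 < K ∧ 0 < κ ∧ κ < 1 ∧ ∀ R δ : ℝ, 1 ≤ R → 0 < δ → δ ≤ R →
      W V R ≤ C * (R / δ) ^ K * (R ^ (3 - 6 / p) + W V (R + 4 * δ)) ^ κ * (R ^ (3 - 6 / p)) ^ (1 - κ) := by
  have hs := hV.smooth
  have hd := hV.div0
  have hc : ∀ i, Continuous (V i) := fun i => (hs i).continuous
  have hVc : Continuous (nm V) := continuous_nm hc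
  have hcc : Continuous (nm (curl V)) := continuous_nm (continuous_curl fun i => (hs i).of_le (by norm_num))
  have hp0 : 0 < p := by linarith
  obtain ⟨Ce, hCe, hE⟩ := energy_shell ν a hν ha
  obtain ⟨C₀, hC₀, hpsi⟩ := exists_psi
  obtain ⟨c1, hc1, hM⟩ := thick_M hc h2 hLp
  obtain ⟨c2, hc2, hP⟩ := thick_P hc h2 h3 hLp hC₀
  obtain ⟨c3, hc3, hN⟩ := thick_N hs h2 h3 hLp hC₀
  obtain ⟨c6, hc6, hcub⟩ := thick_cubic hs hd h2 h3 hLp hC₀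
  set k1 : ℝ := c1 ^ (1 / 2 : ℝ) with hk1
  set k2 : ℝ := c2 ^ (1 / 2 : ℝ) with hk2
  set k3 : ℝ := c3 ^ (1 / 2 : ℝ) with hk3
  have hk10 : 0 < k1 := Real.rpow_pos_of_pos hc1 _
  have hk20 : 0 < k2 := Real.rpow_pos_of_pos hc2 _
  have hk30 : 0 < k3 := Real.rpow_pos_of_pos hc3 _
  have hk1s : k1 ^ 2 = c1 := half_sq hc1.le
  have hk2s : k2 ^ 2 = c2 := half_sq hc2.le
  have hk3s : k3 ^ 2 = c3 := half_sq hc3.le
  set κ1 : ℝ := 3 * (4 - p) / (2 * (6 - p)) with hκ1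
  set κ2 : ℝ := 3 / (2 * p) with hκ2
  have hκ11 : κ1 < 1 := by rw [hκ1, div_lt_one (by linarith)]; linarith
  have hκ21 : κ2 < 1 := by rw [hκ2, div_lt_one (by linarith)]; linarith
  set κ : ℝ := max (max κ1 κ2) (1 / 2) with hκ
  have hκa : κ1 ≤ κ := (le_max_left _ _).trans (le_max_left _ _)
  have hκb : κ2 ≤ κ := (le_max_right _ _).trans (le_max_left _ _)
  have hκc : 1 / 2 ≤ κ := le_max_right _ _
  have hκd : κ < 1 := max_lt (max_lt hκ11 hκ21) (by norm_num)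
  have hα0 : 0 ≤ 3 - 6 / p := by
    rw [sub_nonneg, div_le_iff₀ hp0]; linarith
  refine ⟨Ce * (k1 + k2 + k3 + 2 * c6 + k1 ^ 2 + k1 ^ 2 + k1 * k2 + k1 * k3 + 1), 8, κ, by positivity,
    by norm_num, by linarith, hκd, ?_⟩
  intro R δ hR hδ hδR
  have hR0 : 0 < R := by linarith
  have hQ : 1 ≤ R / δ := by rw [one_le_div hδ]; exact hδR
  have hG1 : 1 ≤ R ^ (3 - 6 / p) := Real.one_le_rpow hR hα0
  have hW0 := W_nonneg V (R + 4 * δ)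
  set G : ℝ := R ^ (3 - 6 / p) with hG
  set Z : ℝ := G + W V (R + 4 * δ) with hZ
  have hZG : G ≤ Z := by linarith
  have hZ1 : 1 ≤ Z := hG1.trans hZG
  have hZ0 : 0 < Z := by linarith
  have hWZ : W V (R + 4 * δ) ≤ Z := by linarith
  -- the potential
  set I : ℝ := ∫ x in Metric.closedBall (0 : E) (R + δ), nm (curl V) x * (1 + nm V x + ‖x‖) with hI
  have hI0 : 0 ≤ I := integral_nonneg fun x =>
    mul_nonneg (nm_nonneg _ x) (by have := nm_nonneg V x; positivity)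
  set L : ℝ := 1 + (1 + δ⁻¹) * I + (R + 3 * δ) ^ 3 * vb with hL
  have hvb := vb_nonneg
  have hL1 : 1 ≤ L := by
    have e1 : 0 ≤ (1 + δ⁻¹) * I := by positivity
    have e2 : 0 ≤ (R + 3 * δ) ^ 3 * vb := by positivity
    linarith
  have hL0 : 0 < L := by linarith
  have hε0 : 0 < 1 / L := by positivity
  obtain ⟨Ψ, hΨs, hdΨ, hΨ1, hΨ2, hΨ⟩ := hpsi V hs hd p (by linarith) h3 hLp (R + 4 * δ) (1 / L) (by linarith) hε0
  have hΨc : ∀ i, Continuous (Ψ i) := fun i => (hΨs i).continuous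
  have hεI : 1 / L * (1 + δ⁻¹) * I ≤ 1 := by
    rw [mul_assoc, one_div, inv_mul_le_iff₀ hL0]
    have e2 : 0 ≤ (R + 3 * δ) ^ 3 * vb := by positivity
    linarith
  have hεv : (1 / L) ^ 2 * ((R + 3 * δ) ^ 3 * vb) ≤ 1 := by
    have e1 : 0 ≤ (1 + δ⁻¹) * I := by positivity
    have e2 : 0 ≤ (R + 3 * δ) ^ 3 * vb := by positivity
    have e3 : (1 / L) ^ 2 ≤ 1 / L := by
      have : 1 / L ≤ 1 := by rw [div_le_one hL0]; exact hL1
      nlinarith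
    calc (1 / L) ^ 2 * ((R + 3 * δ) ^ 3 * vb) ≤ 1 / L * ((R + 3 * δ) ^ 3 * vb) := by gcongr
      _ ≤ 1 := by
        rw [one_div, inv_mul_le_iff₀ hL0]; linarith
  have hen := hE V Ψ R δ (1 / L) hV hΨs hR hδ hδR hε0.le (fun x hx => hΨ1 x (by linarith))
    (fun x hx => hΨ2 x (by linarith))
  -- square roots
  set sZ : ℝ := Z ^ (1 / 2 : ℝ) with hsZ
  have hsZ0 : 0 < sZ := Real.rpow_pos_of_pos hZ0 _
  have hsZ2 : sZ ^ 2 = Z := half_sq hZ0.le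
  have hG0 : 0 < G := by linarith
  set sG : ℝ := G ^ (1 / 2 : ℝ) with hsG
  have hsG0 : 0 < sG := Real.rpow_pos_of_pos hG0 _
  have hsG2 : sG ^ 2 = G := half_sq hG0.le
  have hSb : Sh R (R + δ) ⊆ Metric.ball (0 : E) (R + 2 * δ) := Sh_sub_ball (by linarith)
  have b1 : (∫ x in Metric.ball (0 : E) (R + 2 * δ), nm (curl V) x ^ 2) ≤ sZ ^ 2 := by
    have e1 : (∫ x in Metric.ball (0 : E) (R + 2 * δ), nm (curl V) x ^ 2) = W V (R + 2 * δ) := by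
      unfold W; congr 1; funext x; rw [nm_sq]
    rw [e1, hsZ2]
    exact (W_mono hs (by linarith)).trans hWZ
  have b2 : (∫ x in Metric.ball (0 : E) (R + 2 * δ), nm V x ^ 2) ≤ (k1 * sG) ^ 2 := by
    have e1 : (∫ x in Metric.ball (0 : E) (R + 2 * δ), nm V x ^ 2)
        = ∫ x in Metric.ball (0 : E) (R + 2 * δ), sq V x := by
      congr 1; funext x; rw [nm_sq]
    rw [e1, mul_pow, hsG2, hk1s]
    exact hM R (R + 2 * δ) hR (by linarith) (by linarith)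
  have b3 : (∫ x in Metric.ball (0 : E) (R + 2 * δ), nm Ψ x ^ 2) ≤ (k2 * R * sG * (R / δ)) ^ 2 := by
    have e1 : (∫ x in Metric.ball (0 : E) (R + 2 * δ), nm Ψ x ^ 2)
        = ∫ x in Metric.ball (0 : E) (R + 2 * δ), sq Ψ x := by
      congr 1; funext x; rw [nm_sq]
    rw [e1]
    calc (∫ x in Metric.ball (0 : E) (R + 2 * δ), sq Ψ x)
        ≤ ∫ x in Metric.ball (0 : E) (R + 3 * δ), sq Ψ x :=
          setIntegral_ball_mono (continuous_sq hΨc) (sq_nonneg' _) (by linarith)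
      _ ≤ c2 * (R ^ 2 * G * (R / δ) ^ 2) := hP R δ Ψ hR hδ hδR hΨc hΨ
      _ = (k2 * R * sG * (R / δ)) ^ 2 := by rw [← hk2s, ← hsG2]; ring
  have b4 : (∫ x in Metric.ball (0 : E) (R + 2 * δ), gnm Ψ x ^ 2) ≤ (k3 * sG * (R / δ) ^ 2) ^ 2 := by
    have e1 : (∫ x in Metric.ball (0 : E) (R + 2 * δ), gnm Ψ x ^ 2)
        = ∫ x in Metric.ball (0 : E) (R + 2 * δ), gsq Ψ x := by
      congr 1; funext x; rw [gnm_sq]
    rw [e1]
    refine (hN R δ (1 / L) Ψ hR hδ hδR hΨs hΨ hdΨ hε0.le (fun x hx => hΨ1 x (by linarith)) hεv).trans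
      (le_of_eq ?_)
    rw [← hk3s, ← hG, ← hsG2]; ring
  have hgc : Continuous (gnm Ψ) := continuous_gnm fun i => (hΨs i).of_le (by norm_num)
  have hΨn : Continuous (nm Ψ) := continuous_nm hΨc
  have T1 := cs_cont hcc hVc hSb hsZ0 (by positivity) b1 b2
  have T2 := cs_cont hcc hΨn hSb hsZ0 (by positivity) b1 b3
  have T3 := cs_cont hcc hgc hSb hsZ0 (by positivity) b1 b4
  have T7 := cs_cont hVc hΨn hSb (by positivity : 0 < k1 * sG) (by positivity) b2 b3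
  have T8 := cs_cont hVc hgc hSb (by positivity : 0 < k1 * sG) (by positivity) b2 b4
  have T5 : (∫ x in Metric.ball (0 : E) (R + δ), sq V x) ≤ k1 ^ 2 * sG ^ 2 := by
    rw [hk1s, hsG2]
    exact hM R (R + δ) hR (by linarith) (by linarith)
  have T6 : (∫ x in Sh R (R + δ), sq V x) ≤ k1 ^ 2 * sG ^ 2 := by
    rw [hk1s, hsG2]
    refine le_trans ?_ (hM R (R + 2 * δ) hR (by linarith) (by linarith))
    exact setIntegral_mono_set (integrableOn_ball_of_cont (continuous_sq hc) _)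
      (Eventually.of_forall (sq_nonneg' V)) hSb.eventuallyLE
  have hU1 : sZ * sG ≤ Z ^ κ * G ^ (1 - κ) := by
    have := interp_le (κ' := 1 / 2) hG1 hZG hκc
    rwa [show (1 : ℝ) - 1 / 2 = 1 / 2 by norm_num] at this
  have hU2 : sG ^ 2 ≤ Z ^ κ * G ^ (1 - κ) := by
    have := interp_le (κ' := 0) hG1 hZG (by linarith : (0 : ℝ) ≤ κ)
    rw [Real.rpow_zero, sub_zero, Real.rpow_one, one_mul] at this
    rwa [hsG2]
  have hU3 : 1 ≤ Z ^ κ * G ^ (1 - κ) := by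
    rw [hsG2] at hU2
    linarith
  have hUa : Z ^ κ1 ≤ Z ^ κ * G ^ (1 - κ) := interp_le' hG1 hZG hκa hκ11.le
  have hUb : Z ^ κ2 ≤ Z ^ κ * G ^ (1 - κ) := interp_le' hG1 hZG hκb hκ21.le
  set U : ℝ := Z ^ κ * G ^ (1 - κ) with hU
  have T4 : δ⁻¹ * (∫ x in Sh R (R + δ), nm (curl V) x * nm V x * nm Ψ x) ≤ c6 * (R / δ) ^ 8 * (U + U) := by
    refine (hcub R δ Z Ψ hR hδ hδR hWZ hZ1 hΨc hΨ).trans ?_
    refine mul_le_mul_of_nonneg_left (add_le_add hUa hUb) (by positivity)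
  have hsum := thick_sum (d := δ⁻¹) hR hQ (by positivity) (by rw [div_eq_mul_inv]) hsG0 hk10 hk20 hk30
    hU1 hU2 hU3 T1 T2 T3 T4 T5 T6 T7 T8 hεI
  have hQ8 : (R / δ) ^ (8 : ℝ) = (R / δ) ^ 8 := by norm_cast
  rw [hQ8]
  calc W V R ≤ _ := hen
    _ ≤ Ce * ((k1 + k2 + k3 + 2 * c6 + k1 ^ 2 + k1 ^ 2 + k1 * k2 + k1 * k3 + 1) * (R / δ) ^ 8 * U) :=
        mul_le_mul_of_nonneg_left hsum hCe.le
    _ = Ce * (k1 + k2 + k3 + 2 * c6 + k1 ^ 2 + k1 ^ 2 + k1 * k2 + k1 * k3 + 1) * (R / δ) ^ 8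
          * Z ^ κ * G ^ (1 - κ) := by rw [hU]; ring

end Leray
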