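import Pool.Agent.Lib.MP_9b9638_an.Fin4
import Pool.Agent.Lib.MP_9b9638_an.Shell2

/-!
# Thick shells: elementary estimates
-/

open MeasureTheory Set Filter Topology

noncomputable section
namespace Leray.Thk

/-- Cauchy-Schwarz with given bounds -/
theorem cs_cont {f g : E → ℝ} (hf : Continuous f) (hg : Continuous g) {S : Set E} {r : ℝ}
    (hSb : S ⊆ Metric.ball (0 : E) r) {a b : ℝ} (ha : 0 < a) (hb : 0 < b)
    (h1 : (∫ x in Metric.ball (0 : E) r, f x ^ 2) ≤ a ^ 2)
    (h2 : (∫ x in Metric.ball (0 : E) r, g x ^ 2) ≤ b ^ 2) :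
    (∫ x in S, f x * g x) ≤ a * b := by
  have If : IntegrableOn (fun x => f x ^ 2) (Metric.ball (0 : E) r) := integrableOn_ball_of_cont (hf.pow 2) r
  have Ig : IntegrableOn (fun x => g x ^ 2) (Metric.ball (0 : E) r) := integrableOn_ball_of_cont (hg.pow 2) r
  have Ifg : IntegrableOn (fun x => f x * g x) (Metric.ball (0 : E) r) := integrableOn_ball_of_cont (hf.mul hg) r
  have k1 : 0 ≤ b / (2 * a) := by positivity
  have k2 : 0 ≤ a / (2 * b) := by positivity
  calc (∫ x in S, f x * g x)
      ≤ ∫ x in S, (b / (2 * a) * f x ^ 2 + a / (2 * b) * g x ^ 2) := by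
        refine setIntegral_mono (Ifg.mono_set hSb)
          (((If.mono_set hSb).const_mul _).add ((Ig.mono_set hSb).const_mul _)) (fun x => ?_)
        show f x * g x ≤ b / (2 * a) * f x ^ 2 + a / (2 * b) * g x ^ 2
        have h3 : b / (2 * a) * f x ^ 2 + a / (2 * b) * g x ^ 2 - f x * g x
            = (b * f x - a * g x) ^ 2 / (2 * a * b) := by
          field_simp
          ring
        have h4 : 0 ≤ (b * f x - a * g x) ^ 2 / (2 * a * b) := by positivity
        linarith
    _ = b / (2 * a) * (∫ x in S, f x ^ 2) + a / (2 * b) * (∫ x in S, g x ^ 2) := by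
        rw [integral_add ((If.mono_set hSb).const_mul _) ((Ig.mono_set hSb).const_mul _),
          integral_const_mul, integral_const_mul]
    _ ≤ b / (2 * a) * a ^ 2 + a / (2 * b) * b ^ 2 := by
        have h5 : (∫ x in S, f x ^ 2) ≤ a ^ 2 :=
          (setIntegral_mono_set If (Eventually.of_forall fun x => sq_nonneg _) hSb.eventuallyLE).trans h1
        have h6 : (∫ x in S, g x ^ 2) ≤ b ^ 2 :=
          (setIntegral_mono_set Ig (Eventually.of_forall fun x => sq_nonneg _) hSb.eventuallyLE).trans h2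
        gcongr
    _ = a * b := by field_simp; ring

/-- volume of the unit ball -/
def vb : ℝ := (volume : Measure E).real (Metric.ball (0 : E) 1)

theorem vb_nonneg : 0 ≤ vb := measureReal_nonneg

theorem vol_ball {r : ℝ} (hr : 0 ≤ r) : (volume : Measure E).real (Metric.ball (0 : E) r) = r ^ 3 * vb := by
  unfold vb Measure.real
  rw [Measure.addHaar_ball _ _ hr, finrank_E, ENNReal.toReal_mul, ENNReal.toReal_ofReal (by positivity)]

theorem int_ball_const {r : ℝ} (hr : 0 ≤ r) (c : ℝ) :
    (∫ _x in Metric.ball (0 : E) r, c) = r ^ 3 * vb * c := by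
  rw [setIntegral_const, vol_ball hr, smul_eq_mul]

theorem sq_ball_le {V : VF} (hc : ∀ i, Continuous (V i)) {p : ℝ} (hp : 2 ≤ p)
    (hLp : Integrable (fun x => nm V x ^ p)) {r l : ℝ} (hr : 0 ≤ r) (hl : 0 < l) :
    (∫ x in Metric.ball (0 : E) r, sq V x) ≤ l ^ 2 * (r ^ 3 * vb) + l ^ (2 - p) * ∫ x, nm V x ^ p := by
  have h0 : ∀ x, 0 ≤ nm V x ^ p := fun x => Real.rpow_nonneg (nm_nonneg V x) p
  calc (∫ x in Metric.ball (0 : E) r, sq V x)
      ≤ ∫ x in Metric.ball (0 : E) r, (l ^ 2 + l ^ (2 - p) * nm V x ^ p) := by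
        refine setIntegral_mono (integrableOn_ball_of_cont (continuous_sq hc) r)
          ((integrableOn_ball_of_cont continuous_const r).add ((hLp.integrableOn).const_mul _)) (fun x => ?_)
        show sq V x ≤ l ^ 2 + l ^ (2 - p) * nm V x ^ p
        rw [← nm_sq]
        have hn := nm_nonneg V x
        rcases le_or_gt (nm V x) l with h | h
        · have h1 : nm V x ^ 2 ≤ l ^ 2 := by gcongr
          have h2 : 0 ≤ l ^ (2 - p) * nm V x ^ p := mul_nonneg (Real.rpow_nonneg hl.le _) (h0 x)
          linarith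
        · have hn' : 0 < nm V x := hl.trans h
          have h1 : nm V x ^ 2 = nm V x ^ (2 - p) * nm V x ^ p := by
            rw [← Real.rpow_add hn', ← Real.rpow_natCast]
            congr 1
            push_cast
            ring
          have h2 : nm V x ^ (2 - p) ≤ l ^ (2 - p) :=
            Real.rpow_le_rpow_of_nonpos hl h.le (by linarith)
          have h3 := mul_le_mul_of_nonneg_right h2 (h0 x)
          rw [h1]
          nlinarith [sq_nonneg l]
    _ = (∫ x in Metric.ball (0 : E) r, l ^ 2) + l ^ (2 - p) * ∫ x in Metric.ball (0 : E) r, nm V x ^ p := by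
        rw [integral_add (integrableOn_ball_of_cont continuous_const r) ((hLp.integrableOn).const_mul _),
          integral_const_mul]
    _ ≤ l ^ 2 * (r ^ 3 * vb) + l ^ (2 - p) * ∫ x, nm V x ^ p := by
        rw [int_ball_const hr]
        have h4 : (∫ x in Metric.ball (0 : E) r, nm V x ^ p) ≤ ∫ x, nm V x ^ p :=
          setIntegral_le_integral hLp (Eventually.of_forall h0)
        have h5 := mul_le_mul_of_nonneg_left h4 (Real.rpow_nonneg hl.le (2 - p))
        linarith

theorem four_ball_le {V : VF} (hc : ∀ i, Continuous (V i)) {p : ℝ} (hp3 : p < 3)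
    (hLp : Integrable (fun x => nm V x ^ p)) {r l : ℝ} (hl : 0 < l) :
    (∫ x in Metric.ball (0 : E) r, sq V x ^ 2) ≤
      l ^ (4 - p) * (∫ x, nm V x ^ p) + l ^ (-2 : ℝ) * ∫ x in Metric.ball (0 : E) r, sq V x ^ 3 := by
  have h0 : ∀ x, 0 ≤ nm V x ^ p := fun x => Real.rpow_nonneg (nm_nonneg V x) p
  have I3 : IntegrableOn (fun x => sq V x ^ 3) (Metric.ball (0 : E) r) :=
    integrableOn_ball_of_cont ((continuous_sq hc).pow 3) r
  calc (∫ x in Metric.ball (0 : E) r, sq V x ^ 2)
      ≤ ∫ x in Metric.ball (0 : E) r, (l ^ (4 - p) * nm V x ^ p + l ^ (-2 : ℝ) * sq V x ^ 3) := by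
        refine setIntegral_mono (integrableOn_ball_of_cont ((continuous_sq hc).pow 2) r)
          (((hLp.integrableOn).const_mul _).add
            (I3.const_mul _)) (fun x => ?_)
        show sq V x ^ 2 ≤ l ^ (4 - p) * nm V x ^ p + l ^ (-2 : ℝ) * sq V x ^ 3
        rw [← nm_sq, ← pow_mul, ← pow_mul]
        have hn := nm_nonneg V x
        have e1 : 0 ≤ l ^ (4 - p) * nm V x ^ p := mul_nonneg (Real.rpow_nonneg hl.le _) (h0 x)
        have e2 : 0 ≤ l ^ (-2 : ℝ) * nm V x ^ (2 * 3) := mul_nonneg (Real.rpow_nonneg hl.le _) (by positivity)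
        rcases hn.eq_or_lt with h | hn'
        · rw [← h] at e1 e2 ⊢
          have : (0 : ℝ) ^ (2 * 2) = 0 := by norm_num
          rw [this]
          linarith
        rcases le_or_gt (nm V x) l with h | h
        · have h1 : nm V x ^ (2 * 2) = nm V x ^ (4 - p) * nm V x ^ p := by
            rw [← Real.rpow_add hn', ← Real.rpow_natCast]
            congr 1
            push_cast
            ring
          have h2 : nm V x ^ (4 - p) ≤ l ^ (4 - p) := Real.rpow_le_rpow hn h (by linarith)
          have h3 := mul_le_mul_of_nonneg_right h2 (h0 x)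
          rw [h1]
          linarith
        · have h1 : nm V x ^ (2 * 2) = nm V x ^ (-2 : ℝ) * nm V x ^ (2 * 3) := by
            rw [← Real.rpow_natCast (nm V x) (2 * 3), ← Real.rpow_add hn', ← Real.rpow_natCast]
            congr 1
            push_cast
            ring
          have h2 : nm V x ^ (-2 : ℝ) ≤ l ^ (-2 : ℝ) :=
            Real.rpow_le_rpow_of_nonpos hl h.le (by norm_num)
          have h3 := mul_le_mul_of_nonneg_right h2 (by positivity : 0 ≤ nm V x ^ (2 * 3))
          rw [h1]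
          linarith
    _ = l ^ (4 - p) * (∫ x in Metric.ball (0 : E) r, nm V x ^ p)
          + l ^ (-2 : ℝ) * ∫ x in Metric.ball (0 : E) r, sq V x ^ 3 := by
        rw [integral_add ((hLp.integrableOn).const_mul _)
            (I3.const_mul _),
          integral_const_mul, integral_const_mul]
    _ ≤ l ^ (4 - p) * (∫ x, nm V x ^ p) + l ^ (-2 : ℝ) * ∫ x in Metric.ball (0 : E) r, sq V x ^ 3 := by
        have h4 : (∫ x in Metric.ball (0 : E) r, nm V x ^ p) ≤ ∫ x, nm V x ^ p :=
          setIntegral_le_integral hLp (Eventually.of_forall h0)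
        have h5 := mul_le_mul_of_nonneg_left h4 (Real.rpow_nonneg hl.le (4 - p))
        linarith

/-- **the bound for the vector potential** -/
theorem psi_ball {V Ψ : VF} (hc : ∀ i, Continuous (V i)) {p : ℝ} (h1 : 1 < p) (h3 : p < 3)
    (hLp : Integrable (fun x => nm V x ^ p)) {C₀ Cf : ℝ} (hC₀ : 0 < C₀)
    (hΨ : ∀ x, nm Ψ x ≤ C₀ * ∫ y, nm V y / ‖x - y‖ ^ 2)
    {ρ : ℝ} (hρ : 0 < ρ) (hf : ∀ x, Pf V ρ x ≤ Cf * ρ ^ (1 - 3 / p) * (∫ y, nm V y ^ p) ^ (1 / p)) (x : E) :
    nm Ψ x ≤ C₀ * (Pn V ρ x + Cf * ρ ^ (1 - 3 / p) * (∫ y, nm V y ^ p) ^ (1 / p)) := by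
  refine (hΨ x).trans ?_
  rw [(riesz_split hc h1 h3 hLp hρ x).2]
  have := hf x
  gcongr

end Leray.Thk
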