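import Pool.Agent.Lib.MP_9b9638_an.ThickA

/-!
# Thick shells: bounds for the integrals
-/

open MeasureTheory Set Filter Topology

noncomputable section
namespace Leray.Thk

theorem thick_M {V : VF} (hc : ∀ i, Continuous (V i)) {p : ℝ} (hp : 2 ≤ p)
    (hLp : Integrable (fun x => nm V x ^ p)) :
    ∃ c : ℝ, 0 < c ∧ ∀ R r : ℝ, 1 ≤ R → 0 ≤ r → r ≤ 5 * R →
      (∫ x in Metric.ball (0 : E) r, sq V x) ≤ c * R ^ (3 - 6 / p) := by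
  have hA : 0 ≤ ∫ x, nm V x ^ p := integral_nonneg fun x => Real.rpow_nonneg (nm_nonneg V x) p
  refine ⟨125 * vb + (∫ x, nm V x ^ p) + 1, by linarith [vb_nonneg], fun R r hR hr hr5 => ?_⟩
  have hR0 : 0 < R := by linarith
  have h1 := sq_ball_le hc hp hLp hr (Real.rpow_pos_of_pos hR0 (-3 / p))
  refine h1.trans ?_
  have h2 : (R ^ (-3 / p)) ^ 2 * r ^ 3 ≤ 125 * R ^ (3 - 6 / p) := by
    have h3 : r ^ 3 ≤ (5 * R) ^ 3 := by gcongr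
    have h4 : (R ^ (-3 / p)) ^ 2 * R ^ 3 = R ^ (3 - 6 / p) := by
      rw [← Real.rpow_natCast (R ^ (-3 / p)) 2, ← Real.rpow_mul hR0.le, ← Real.rpow_natCast R 3,
        ← Real.rpow_add hR0]
      congr 1
      push_cast
      field_simp
      ring
    calc (R ^ (-3 / p)) ^ 2 * r ^ 3 ≤ (R ^ (-3 / p)) ^ 2 * (5 * R) ^ 3 := by gcongr
      _ = 125 * ((R ^ (-3 / p)) ^ 2 * R ^ 3) := by ring
      _ = 125 * R ^ (3 - 6 / p) := by rw [h4]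
  have h5 : (R ^ (-3 / p)) ^ (2 - p) = R ^ (3 - 6 / p) := by
    rw [← Real.rpow_mul hR0.le]
    congr 1
    field_simp
    ring
  rw [h5]
  have hG : 0 ≤ R ^ (3 - 6 / p) := Real.rpow_nonneg hR0.le _
  calc (R ^ (-3 / p)) ^ 2 * (r ^ 3 * vb) + R ^ (3 - 6 / p) * ∫ x, nm V x ^ p
      = ((R ^ (-3 / p)) ^ 2 * r ^ 3) * vb + R ^ (3 - 6 / p) * ∫ x, nm V x ^ p := by ring
    _ ≤ (125 * R ^ (3 - 6 / p)) * vb + R ^ (3 - 6 / p) * ∫ x, nm V x ^ p := by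
        have := mul_le_mul_of_nonneg_right h2 vb_nonneg
        linarith
    _ ≤ (125 * vb + (∫ x, nm V x ^ p) + 1) * R ^ (3 - 6 / p) := by nlinarith

theorem thick_X {V : VF} (hs : ∀ i, ContDiff ℝ 3 (V i)) (hd : ∀ x, dv V x = 0) {p : ℝ} (hp : 2 ≤ p)
    (h3 : p < 3) (hLp : Integrable (fun x => nm V x ^ p)) :
    ∃ c : ℝ, 0 < c ∧ ∀ R δ Z : ℝ, 1 ≤ R → 0 < δ → δ ≤ R → W V (R + 4 * δ) ≤ Z → 1 ≤ Z →
      (∫ x in Metric.ball (0 : E) (R + 3 * δ), sq V x ^ 3) ≤ (c * (R / δ) ^ 5 * Z) ^ 3 := by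
  obtain ⟨Cs, hCs, hsb⟩ := ball_sobolev p (by linarith) h3
  have hp0 : 0 < p := by linarith
  set A : ℝ := (∫ x, nm V x ^ p) ^ (2 / p) with hA
  have hA0 : 0 ≤ A := Real.rpow_nonneg (integral_nonneg fun x => Real.rpow_nonneg (nm_nonneg V x) p) _
  refine ⟨Cs * (1 + 64 * A), by positivity, fun R δ Z hR hδ hδR hWZ hZ => ?_⟩
  have hR0 : 0 < R := by linarith
  have hQ : 1 ≤ R / δ := by rw [one_le_div hδ]; exact hδR
  set Q : ℝ := R / δ with hQdef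
  have hQ0 : 0 < Q := by linarith
  have h4 := hsb V (R + 3 * δ) δ hs hd hδ (by linarith)
  rw [show R + 3 * δ + δ = R + 4 * δ by ring] at h4
  have h5 := ball_Lp_le hLp hp0 (R + 4 * δ)
  rw [← hA] at h5
  have h6 : (R + 3 * δ) / δ = Q + 3 := by rw [hQdef]; field_simp
  rw [h6] at h4
  have h7 : (Q + 3) ^ 3 ≤ 64 * Q ^ 3 := by
    calc (Q + 3) ^ 3 ≤ (4 * Q) ^ 3 := by gcongr; linarith
      _ = 64 * Q ^ 3 := by ring
  have h8 : δ ^ (1 - 6 / p) ≤ Q ^ 2 := by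
    have e1 : δ = R * Q⁻¹ := by rw [hQdef]; field_simp
    rw [e1, Real.mul_rpow hR0.le (by positivity), Real.inv_rpow hQ0.le, ← Real.rpow_neg hQ0.le]
    have h6p : 6 / p ≤ 3 := by rw [div_le_iff₀ hp0]; linarith
    have h6p' : 2 < 6 / p := by rw [lt_div_iff₀ hp0]; linarith
    have e2 : R ^ (1 - 6 / p) ≤ 1 := Real.rpow_le_one_of_one_le_of_nonpos hR (by linarith)
    have e3 : Q ^ (-(1 - 6 / p)) ≤ Q ^ 2 := by
      calc Q ^ (-(1 - 6 / p)) ≤ Q ^ (2 : ℝ) := Real.rpow_le_rpow_of_exponent_le hQ (by linarith)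
        _ = Q ^ 2 := by norm_cast
    have e4 : 0 ≤ Q ^ (-(1 - 6 / p)) := Real.rpow_nonneg hQ0.le _
    calc R ^ (1 - 6 / p) * Q ^ (-(1 - 6 / p)) ≤ 1 * Q ^ 2 := mul_le_mul e2 e3 e4 zero_le_one
      _ = Q ^ 2 := one_mul _
  have h9 : (∫ x in Metric.ball (0 : E) (R + 3 * δ), sq V x ^ 3) ^ (1 / 3 : ℝ) ≤ Cs * (1 + 64 * A) * Q ^ 5 * Z := by
    refine h4.trans ?_
    have h10 : 0 ≤ (∫ x in Metric.ball (0 : E) (R + 4 * δ), nm V x ^ p) ^ (2 / p) :=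
      Real.rpow_nonneg (integral_nonneg fun x => Real.rpow_nonneg (nm_nonneg V x) p) _
    have h11 : 0 ≤ δ ^ (1 - 6 / p) := Real.rpow_nonneg hδ.le _
    have h12 : (Q + 3) ^ 3 * δ ^ (1 - 6 / p) * (∫ x in Metric.ball (0 : E) (R + 4 * δ), nm V x ^ p) ^ (2 / p)
        ≤ 64 * Q ^ 3 * Q ^ 2 * A := by gcongr
    have h13 : 1 ≤ Q ^ 5 := one_le_pow₀ hQ
    calc Cs * (W V (R + 4 * δ) + (Q + 3) ^ 3 * δ ^ (1 - 6 / p)
            * (∫ x in Metric.ball (0 : E) (R + 4 * δ), nm V x ^ p) ^ (2 / p))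
        ≤ Cs * (Q ^ 5 * Z + 64 * A * Q ^ 5 * Z) := by
          refine mul_le_mul_of_nonneg_left (add_le_add ?_ ?_) hCs.le
          · nlinarith
          · refine h12.trans ?_
            have h14 : 0 ≤ 64 * A * Q ^ 5 := by positivity
            nlinarith
      _ = Cs * (1 + 64 * A) * Q ^ 5 * Z := by ring
  have h03 : ∀ x, 0 ≤ sq V x ^ 3 := fun x => pow_nonneg (sq_nonneg' _ _) 3
  have h11 : 0 ≤ ∫ x in Metric.ball (0 : E) (R + 3 * δ), sq V x ^ 3 := integral_nonneg h03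
  calc (∫ x in Metric.ball (0 : E) (R + 3 * δ), sq V x ^ 3)
      = ((∫ x in Metric.ball (0 : E) (R + 3 * δ), sq V x ^ 3) ^ (1 / 3 : ℝ)) ^ 3 := by
        rw [← Real.rpow_natCast, ← Real.rpow_mul h11]; norm_num
    _ ≤ (Cs * (1 + 64 * A) * Q ^ 5 * Z) ^ 3 := pow_le_pow_left₀ (Real.rpow_nonneg h11 _) h9 3

theorem thick_four {V : VF} (hs : ∀ i, ContDiff ℝ 3 (V i)) (hd : ∀ x, dv V x = 0) {p : ℝ} (hp : 2 ≤ p)
    (h3 : p < 3) (hLp : Integrable (fun x => nm V x ^ p)) :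
    ∃ c : ℝ, 0 < c ∧ ∀ R δ Z : ℝ, 1 ≤ R → 0 < δ → δ ≤ R → W V (R + 4 * δ) ≤ Z → 1 ≤ Z →
      (∫ x in Metric.ball (0 : E) (R + 3 * δ), sq V x ^ 2)
        ≤ (c * (R / δ) ^ 8 * Z ^ (3 * (4 - p) / (2 * (6 - p)))) ^ 2 := by
  obtain ⟨c, hc, hX⟩ := thick_X hs hd hp h3 hLp
  have hA : 0 ≤ ∫ x, nm V x ^ p := integral_nonneg fun x => Real.rpow_nonneg (nm_nonneg V x) p
  set A : ℝ := ∫ x, nm V x ^ p with hAdef
  refine ⟨A + c ^ 3 + 1, by positivity, fun R δ Z hR hδ hδR hWZ hZ => ?_⟩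
  have hZ0 : 0 < Z := by linarith
  have h1 := hX R δ Z hR hδ hδR hWZ hZ
  have hl : 0 < Z ^ (3 / (6 - p)) := Real.rpow_pos_of_pos hZ0 _
  have h2 := four_ball_le (fun i => (hs i).continuous) h3 hLp (r := R + 3 * δ) hl
  rw [← hAdef] at h2
  have hQ : 1 ≤ R / δ := by rw [one_le_div hδ]; exact hδR
  set Q : ℝ := R / δ with hQdef
  have h6p : 0 < 6 - p := by linarith
  set β : ℝ := 3 * (4 - p) / (6 - p) with hβ
  have e1 : (Z ^ (3 / (6 - p))) ^ (4 - p) = Z ^ β := by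
    rw [← Real.rpow_mul hZ0.le]; congr 1; rw [hβ]; field_simp
  have e2 : (Z ^ (3 / (6 - p))) ^ (-2 : ℝ) * Z ^ 3 = Z ^ β := by
    rw [← Real.rpow_mul hZ0.le, ← Real.rpow_natCast Z 3, ← Real.rpow_add hZ0]
    congr 1
    rw [hβ]
    push_cast
    field_simp
    ring
  have e3 : (Z ^ (3 * (4 - p) / (2 * (6 - p)))) ^ 2 = Z ^ β := by
    rw [← Real.rpow_natCast, ← Real.rpow_mul hZ0.le]
    congr 1
    rw [hβ]
    push_cast
    field_simp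
  have hZβ : 0 ≤ Z ^ β := Real.rpow_nonneg hZ0.le _
  have hQ1 : 1 ≤ Q ^ 16 := one_le_pow₀ hQ
  have hQ2 : Q ^ 15 ≤ Q ^ 16 := pow_le_pow_right₀ hQ (by norm_num)
  calc (∫ x in Metric.ball (0 : E) (R + 3 * δ), sq V x ^ 2)
      ≤ Z ^ β * A + (Z ^ (3 / (6 - p))) ^ (-2 : ℝ) * (c * Q ^ 5 * Z) ^ 3 := by
        rw [e1] at h2
        refine h2.trans ?_
        have : 0 ≤ (Z ^ (3 / (6 - p))) ^ (-2 : ℝ) := Real.rpow_nonneg hl.le _
        gcongr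
    _ = Z ^ β * A + c ^ 3 * Q ^ 15 * ((Z ^ (3 / (6 - p))) ^ (-2 : ℝ) * Z ^ 3) := by ring
    _ = (A + c ^ 3 * Q ^ 15) * Z ^ β := by rw [e2]; ring
    _ ≤ ((A + c ^ 3 + 1) ^ 2 * Q ^ 16) * Z ^ β := by
        refine mul_le_mul_of_nonneg_right ?_ hZβ
        have h5 : 0 < c ^ 3 := by positivity
        have h6 : A + c ^ 3 * Q ^ 15 ≤ (A + c ^ 3) * Q ^ 16 := by nlinarith
        refine h6.trans (mul_le_mul_of_nonneg_right ?_ (by positivity))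
        nlinarith
    _ = ((A + c ^ 3 + 1) * Q ^ 8 * Z ^ (3 * (4 - p) / (2 * (6 - p)))) ^ 2 := by
        rw [← e3]; ring

end Leray.Thk
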