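import Pool.Agent.Lib.MP_9b9638_an.ThickB

/-!
# Thick shells: bounds for the vector potential
-/

open MeasureTheory Set Filter Topology

noncomputable section
namespace Leray.Thk

theorem rescale {p R δ : ℝ} (hp : 2 ≤ p) (hR : 1 ≤ R) (hδ : 0 < δ) (hδR : δ ≤ R) :
    R ^ 3 * (δ ^ (1 - 3 / p)) ^ 2 ≤ R ^ 2 * R ^ (3 - 6 / p) * (R / δ) ^ 2 := by
  have hR0 : 0 < R := by linarith
  have hp0 : 0 < p := by linarith
  have hQ : 1 ≤ R / δ := by rw [one_le_div hδ]; exact hδR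
  have hδe : δ = R * (R / δ)⁻¹ := by field_simp
  set Q : ℝ := R / δ with hQdef
  have hQ0 : 0 < Q := by linarith
  have h1 : (δ ^ (1 - 3 / p)) ^ 2 = δ ^ (2 - 6 / p) := by
    rw [← Real.rpow_natCast, ← Real.rpow_mul hδ.le]
    congr 1; push_cast; ring
  rw [h1, hδe, Real.mul_rpow hR0.le (by positivity), Real.inv_rpow hQ0.le, ← Real.rpow_neg hQ0.le]
  have h2 : R ^ 3 * R ^ (2 - 6 / p) = R ^ 2 * R ^ (3 - 6 / p) := by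
    rw [← Real.rpow_natCast R 3, ← Real.rpow_natCast R 2, ← Real.rpow_add hR0, ← Real.rpow_add hR0]
    congr 1; push_cast; ring
  have h3 : Q ^ (-(2 - 6 / p)) ≤ Q ^ 2 := by
    have h6p : 6 / p ≤ 3 := by rw [div_le_iff₀ hp0]; linarith
    calc Q ^ (-(2 - 6 / p)) ≤ Q ^ (2 : ℝ) := Real.rpow_le_rpow_of_exponent_le hQ (by linarith)
      _ = Q ^ 2 := by norm_cast
  have h4 : 0 ≤ R ^ 2 * R ^ (3 - 6 / p) := mul_nonneg (by positivity) (Real.rpow_nonneg hR0.le _)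
  calc R ^ 3 * (R ^ (2 - 6 / p) * Q ^ (-(2 - 6 / p)))
      = (R ^ 3 * R ^ (2 - 6 / p)) * Q ^ (-(2 - 6 / p)) := by ring
    _ = (R ^ 2 * R ^ (3 - 6 / p)) * Q ^ (-(2 - 6 / p)) := by rw [h2]
    _ ≤ (R ^ 2 * R ^ (3 - 6 / p)) * Q ^ 2 := mul_le_mul_of_nonneg_left h3 h4

theorem thick_P {V : VF} (hc : ∀ i, Continuous (V i)) {p : ℝ} (hp : 2 ≤ p)
    (h3 : p < 3) (hLp : Integrable (fun x => nm V x ^ p)) {C₀ : ℝ} (hC₀ : 0 < C₀) :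
    ∃ c : ℝ, 0 < c ∧ ∀ (R δ : ℝ) (Ψ : VF), 1 ≤ R → 0 < δ → δ ≤ R → (∀ i, Continuous (Ψ i)) →
      (∀ x, nm Ψ x ≤ C₀ * ∫ y, nm V y / ‖x - y‖ ^ 2) →
      (∫ x in Metric.ball (0 : E) (R + 3 * δ), sq Ψ x) ≤ c * (R ^ 2 * R ^ (3 - 6 / p) * (R / δ) ^ 2) := by
  obtain ⟨c1, hc1, hM⟩ := thick_M hc hp hLp
  obtain ⟨Cn, hCn, hnear⟩ := near_ball 2 (by norm_num)
  obtain ⟨Cf, hCf, hfar⟩ := far_sup p (by linarith) h3
  have hp0 : 0 < p := by linarith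
  have hA0 : 0 ≤ (∫ x, nm V x ^ p) ^ (1 / p) :=
    Real.rpow_nonneg (integral_nonneg fun x => Real.rpow_nonneg (nm_nonneg V x) p) _
  set A1 : ℝ := (∫ x, nm V x ^ p) ^ (1 / p) with hA1
  have hvb := vb_nonneg
  refine ⟨2 * C₀ ^ 2 * (Cn ^ 2 * c1 + 64 * vb * Cf ^ 2 * A1 ^ 2), by positivity, ?_⟩
  intro R δ Ψ hR hδ hδR hΨc hΨ
  have hR0 : 0 < R := by linarith
  have hQ : 1 ≤ R / δ := by rw [one_le_div hδ]; exact hδR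
  set F : ℝ := Cf * δ ^ (1 - 3 / p) * A1 with hF
  have hpt : ∀ x, sq Ψ x ≤ 2 * C₀ ^ 2 * (Pn V δ x ^ 2 + F ^ 2) := by
    intro x
    have h4 := psi_ball hc (by linarith) h3 hLp hC₀ hΨ (ρ := δ) (Cf := Cf) hδ
      (fun x => hfar V δ x hc hLp hδ) x
    rw [← hA1, ← hF] at h4
    rw [← nm_sq]
    calc nm Ψ x ^ 2 ≤ (C₀ * (Pn V δ x + F)) ^ 2 := pow_le_pow_left₀ (nm_nonneg Ψ x) h4 2
      _ = C₀ ^ 2 * (Pn V δ x + F) ^ 2 := by ring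
      _ ≤ C₀ ^ 2 * (2 * (Pn V δ x ^ 2 + F ^ 2)) := by
          refine mul_le_mul_of_nonneg_left ?_ (by positivity)
          nlinarith [sq_nonneg (Pn V δ x - F)]
      _ = 2 * C₀ ^ 2 * (Pn V δ x ^ 2 + F ^ 2) := by ring
  have hPc : Continuous (fun x => Pn V δ x ^ 2) := (continuous_Pn hc hδ).pow 2
  have hPI : IntegrableOn (fun x => Pn V δ x ^ 2) (Metric.ball (0 : E) (R + 3 * δ)) :=
    integrableOn_ball_of_cont hPc _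
  have hr0 : 0 ≤ R + 3 * δ := by linarith
  have hn := hnear V (R + 3 * δ) δ hc hδ
  rw [show R + 3 * δ + δ = R + 4 * δ by ring] at hn
  have hM' := hM R (R + 4 * δ) hR (by linarith) (by linarith)
  have hG : 0 ≤ R ^ (3 - 6 / p) := Real.rpow_nonneg hR0.le _
  have hsqV : (∫ x in Metric.ball (0 : E) (R + 4 * δ), nm V x ^ 2) = ∫ x in Metric.ball (0 : E) (R + 4 * δ), sq V x := by
    congr 1; funext x; exact nm_sq V x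
  rw [hsqV] at hn
  have hδ2 : δ ^ 2 ≤ R ^ 2 * (R / δ) ^ 2 := by
    have e1 : δ ^ 2 ≤ R ^ 2 := by gcongr
    have e2 : 1 ≤ (R / δ) ^ 2 := one_le_pow₀ hQ
    nlinarith [sq_nonneg R]
  have hb1 : (∫ x in Metric.ball (0 : E) (R + 3 * δ), Pn V δ x ^ 2)
      ≤ Cn ^ 2 * c1 * (R ^ 2 * R ^ (3 - 6 / p) * (R / δ) ^ 2) := by
    calc (∫ x in Metric.ball (0 : E) (R + 3 * δ), Pn V δ x ^ 2)
        ≤ (Cn * δ) ^ 2 * (c1 * R ^ (3 - 6 / p)) := hn.trans (mul_le_mul_of_nonneg_left hM' (by positivity))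
      _ = Cn ^ 2 * c1 * R ^ (3 - 6 / p) * δ ^ 2 := by ring
      _ ≤ Cn ^ 2 * c1 * R ^ (3 - 6 / p) * (R ^ 2 * (R / δ) ^ 2) :=
          mul_le_mul_of_nonneg_left hδ2 (by positivity)
      _ = Cn ^ 2 * c1 * (R ^ 2 * R ^ (3 - 6 / p) * (R / δ) ^ 2) := by ring
  have hb2 : (R + 3 * δ) ^ 3 * vb * F ^ 2 ≤ 64 * vb * Cf ^ 2 * A1 ^ 2 * (R ^ 2 * R ^ (3 - 6 / p) * (R / δ) ^ 2) := by
    have e1 : (R + 3 * δ) ^ 3 ≤ (4 * R) ^ 3 := by gcongr; linarith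
    have e2 := rescale hp hR hδ hδR
    calc (R + 3 * δ) ^ 3 * vb * F ^ 2 ≤ (4 * R) ^ 3 * vb * F ^ 2 := by gcongr
      _ = 64 * vb * Cf ^ 2 * A1 ^ 2 * (R ^ 3 * (δ ^ (1 - 3 / p)) ^ 2) := by rw [hF]; ring
      _ ≤ 64 * vb * Cf ^ 2 * A1 ^ 2 * (R ^ 2 * R ^ (3 - 6 / p) * (R / δ) ^ 2) :=
          mul_le_mul_of_nonneg_left e2 (by positivity)
  calc (∫ x in Metric.ball (0 : E) (R + 3 * δ), sq Ψ x)
      ≤ ∫ x in Metric.ball (0 : E) (R + 3 * δ), 2 * C₀ ^ 2 * (Pn V δ x ^ 2 + F ^ 2) := by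
        refine setIntegral_mono (integrableOn_ball_of_cont (continuous_sq hΨc) _)
          ((hPI.add (integrableOn_ball_of_cont continuous_const _)).const_mul _) hpt
    _ = 2 * C₀ ^ 2 * ((∫ x in Metric.ball (0 : E) (R + 3 * δ), Pn V δ x ^ 2) + (R + 3 * δ) ^ 3 * vb * F ^ 2) := by
        rw [integral_const_mul, integral_add hPI (integrableOn_ball_of_cont continuous_const _),
          int_ball_const hr0]
    _ ≤ 2 * C₀ ^ 2 * (Cn ^ 2 * c1 * (R ^ 2 * R ^ (3 - 6 / p) * (R / δ) ^ 2)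
          + 64 * vb * Cf ^ 2 * A1 ^ 2 * (R ^ 2 * R ^ (3 - 6 / p) * (R / δ) ^ 2)) := by
        refine mul_le_mul_of_nonneg_left (add_le_add hb1 hb2) (by positivity)
    _ = 2 * C₀ ^ 2 * (Cn ^ 2 * c1 + 64 * vb * Cf ^ 2 * A1 ^ 2) * (R ^ 2 * R ^ (3 - 6 / p) * (R / δ) ^ 2) := by
        ring

theorem thick_N {V : VF} (hs : ∀ i, ContDiff ℝ 3 (V i)) {p : ℝ} (hp : 2 ≤ p)
    (h3 : p < 3) (hLp : Integrable (fun x => nm V x ^ p)) {C₀ : ℝ} (hC₀ : 0 < C₀) :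
    ∃ c : ℝ, 0 < c ∧ ∀ (R δ ε : ℝ) (Ψ : VF), 1 ≤ R → 0 < δ → δ ≤ R → (∀ i, ContDiff ℝ 2 (Ψ i)) →
      (∀ x, nm Ψ x ≤ C₀ * ∫ y, nm V y / ‖x - y‖ ^ 2) → (∀ x, dv Ψ x = 0) → 0 ≤ ε →
      (∀ x, ‖x‖ ≤ R + 3 * δ → nm (fun i y => curl Ψ i y - V i y) x ≤ ε) →
      ε ^ 2 * ((R + 3 * δ) ^ 3 * vb) ≤ 1 →
      (∫ x in Metric.ball (0 : E) (R + 2 * δ), gsq Ψ x) ≤ c * (R ^ (3 - 6 / p) * (R / δ) ^ 4) := by
  have hc : ∀ i, Continuous (V i) := fun i => (hs i).continuous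
  obtain ⟨c1, hc1, hM⟩ := thick_M hc hp hLp
  obtain ⟨c2, hc2, hP⟩ := thick_P hc hp h3 hLp hC₀
  obtain ⟨Cg, hCg, hg⟩ := grad_psi
  refine ⟨Cg * (c1 + 1 + c2), by positivity, ?_⟩
  intro R δ ε Ψ hR hδ hδR hΨs hΨ hdΨ hε0 hΨε hε
  have hR0 : 0 < R := by linarith
  have hQ : 1 ≤ R / δ := by rw [one_le_div hδ]; exact hδR
  have hα0 : 0 ≤ 3 - 6 / p := by
    rw [sub_nonneg, div_le_iff₀ (by linarith)]; linarith
  have hG : 1 ≤ R ^ (3 - 6 / p) := Real.one_le_rpow hR hα0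
  have h1 := hg V Ψ (R + 2 * δ) δ ε hs hΨs hdΨ hδ (by linarith) hε0
  rw [show R + 2 * δ + δ = R + 3 * δ by ring] at h1
  have h2 := h1 hΨε
  have h4 := hP R δ Ψ hR hδ hδR (fun i => (hΨs i).continuous) hΨ
  have h5 := hM R (R + 3 * δ) hR (by linarith) (by linarith)
  have h6 : (∫ x in Metric.ball (0 : E) (R + 3 * δ), (sq V x + ε ^ 2)) ≤ c1 * R ^ (3 - 6 / p) + 1 := by
    rw [integral_add (integrableOn_ball_of_cont (continuous_sq hc) _)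
      (integrableOn_ball_of_cont continuous_const _), int_ball_const (by linarith)]
    have e1 : (R + 3 * δ) ^ 3 * vb * ε ^ 2 ≤ 1 := by linarith
    linarith
  have h7 : δ⁻¹ ^ 2 * (∫ x in Metric.ball (0 : E) (R + 3 * δ), sq Ψ x) ≤ c2 * (R ^ (3 - 6 / p) * (R / δ) ^ 4) := by
    calc δ⁻¹ ^ 2 * (∫ x in Metric.ball (0 : E) (R + 3 * δ), sq Ψ x)
        ≤ δ⁻¹ ^ 2 * (c2 * (R ^ 2 * R ^ (3 - 6 / p) * (R / δ) ^ 2)) :=
          mul_le_mul_of_nonneg_left h4 (by positivity)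
      _ = c2 * (R ^ (3 - 6 / p) * (R / δ) ^ 4) := by field_simp
  have hQ4 : 1 ≤ (R / δ) ^ 4 := one_le_pow₀ hQ
  have h8 : c1 * R ^ (3 - 6 / p) + 1 ≤ (c1 + 1) * (R ^ (3 - 6 / p) * (R / δ) ^ 4) := by
    have e1 : R ^ (3 - 6 / p) ≤ R ^ (3 - 6 / p) * (R / δ) ^ 4 := by nlinarith
    nlinarith
  calc (∫ x in Metric.ball (0 : E) (R + 2 * δ), gsq Ψ x)
      ≤ Cg * ((c1 + 1) * (R ^ (3 - 6 / p) * (R / δ) ^ 4) + c2 * (R ^ (3 - 6 / p) * (R / δ) ^ 4)) :=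
        h2.trans (mul_le_mul_of_nonneg_left (add_le_add (h6.trans h8) h7) hCg.le)
    _ = Cg * (c1 + 1 + c2) * (R ^ (3 - 6 / p) * (R / δ) ^ 4) := by ring

end Leray.Thk
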