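import Pool.Agent.Lib.MP_9b9638_an.ThickC

/-!
# Thick shells: the cubic term
-/

open MeasureTheory Set Filter Topology

noncomputable section
namespace Leray.Thk

theorem half_sq {x : ℝ} (hx : 0 ≤ x) : (x ^ (1 / 2 : ℝ)) ^ 2 = x := by
  rw [← Real.rpow_natCast, ← Real.rpow_mul hx]; norm_num

theorem half_sq' {x y : ℝ} (hx : 0 ≤ x) : (x ^ (y / 2)) ^ 2 = x ^ y := by
  rw [← Real.rpow_natCast, ← Real.rpow_mul hx]; congr 1; push_cast; ring

theorem Sh_sub_ball {R δ r : ℝ} (h : R + δ < r) : Sh R (R + δ) ⊆ Metric.ball (0 : E) r := by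
  intro x hx
  rw [mem_ball_zero_iff]
  exact lt_of_le_of_lt hx.2 h

theorem thick_cubic {V : VF} (hs : ∀ i, ContDiff ℝ 3 (V i)) (hd : ∀ x, dv V x = 0) {p : ℝ} (hp : 2 ≤ p)
    (h3 : p < 3) (hLp : Integrable (fun x => nm V x ^ p)) {C₀ : ℝ} (hC₀ : 0 < C₀) :
    ∃ c : ℝ, 0 < c ∧ ∀ (R δ Z : ℝ) (Ψ : VF), 1 ≤ R → 0 < δ → δ ≤ R → W V (R + 4 * δ) ≤ Z → 1 ≤ Z →
      (∀ i, Continuous (Ψ i)) → (∀ x, nm Ψ x ≤ C₀ * ∫ y, nm V y / ‖x - y‖ ^ 2) →
      δ⁻¹ * (∫ x in Sh R (R + δ), nm (curl V) x * nm V x * nm Ψ x)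
        ≤ c * (R / δ) ^ 8 * (Z ^ (3 * (4 - p) / (2 * (6 - p))) + Z ^ (3 / (2 * p))) := by
  have hc : ∀ i, Continuous (V i) := fun i => (hs i).continuous
  have hcc : Continuous (nm (curl V)) := continuous_nm (continuous_curl fun i => (hs i).of_le (by norm_num))
  obtain ⟨c1, hc1, hM⟩ := thick_M hc hp hLp
  obtain ⟨c5, hc5, h5⟩ := thick_four hs hd hp h3 hLp
  obtain ⟨Cn, hCn, hnear⟩ := near_ball 4 (by norm_num)
  obtain ⟨Cf, hCf, hfar⟩ := far_sup p (by linarith) h3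
  have hp0 : 0 < p := by linarith
  have hA0 : 0 ≤ (∫ x, nm V x ^ p) ^ (1 / p) :=
    Real.rpow_nonneg (integral_nonneg fun x => Real.rpow_nonneg (nm_nonneg V x) p) _
  set A1 : ℝ := (∫ x, nm V x ^ p) ^ (1 / p) with hA1
  set k1 : ℝ := c1 ^ (1 / 2 : ℝ) with hk1
  have hk10 : 0 < k1 := Real.rpow_pos_of_pos hc1 _
  refine ⟨C₀ * (Cn * c5 + Cf * A1 * k1), by positivity, ?_⟩
  intro R δ Z Ψ hR hδ hδR hWZ hZ hΨc hΨ
  have hR0 : 0 < R := by linarith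
  have hZ0 : 0 < Z := by linarith
  have hQ : 1 ≤ R / δ := by rw [one_le_div hδ]; exact hδR
  have hQ0 : 0 < R / δ := by linarith
  set sZ : ℝ := Z ^ (1 / 2 : ℝ) with hsZ
  have hsZ1 : 1 ≤ sZ := Real.one_le_rpow hZ (by norm_num)
  have hsZ0 : 0 < sZ := by linarith
  have hsZ2 : sZ ^ 2 = Z := half_sq hZ0.le
  set ρ : ℝ := δ / sZ with hρ
  have hρ0 : 0 < ρ := by positivity
  have hρδ : ρ ≤ δ := div_le_self hδ.le hsZ1
  have hρsZ : sZ * ρ = δ := by rw [hρ]; field_simp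
  set D : ℝ := c5 * (R / δ) ^ 8 * Z ^ (3 * (4 - p) / (2 * (6 - p))) with hD
  have hD0 : 0 < D := by
    have := Real.rpow_pos_of_pos hZ0 (3 * (4 - p) / (2 * (6 - p)))
    positivity
  have hD2 := h5 R δ Z hR hδ hδR hWZ hZ
  rw [← hD] at hD2
  set F : ℝ := Cf * ρ ^ (1 - 3 / p) * A1 with hF
  have hF0 : 0 ≤ F := by
    have := Real.rpow_nonneg hρ0.le (1 - 3 / p)
    positivity
  -- pointwise bound
  have hpt : ∀ x, nm Ψ x ≤ C₀ * (Pn V ρ x + F) := by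
    intro x
    have h4 := psi_ball hc (by linarith) h3 hLp hC₀ hΨ (ρ := ρ) (Cf := Cf) hρ0
      (fun x => hfar V ρ x hc hLp hρ0) x
    rw [← hA1, ← hF] at h4
    exact h4
  have hPc : Continuous (Pn V ρ) := continuous_Pn hc hρ0
  have hVc : Continuous (nm V) := continuous_nm hc
  have hSb : Sh R (R + δ) ⊆ Metric.ball (0 : E) (R + 2 * δ) := Sh_sub_ball (by linarith)
  -- the near part
  have b1 : (∫ x in Metric.ball (0 : E) (R + 2 * δ), (nm V x ^ 2) ^ 2) ≤ D ^ 2 := by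
    have e1 : (∫ x in Metric.ball (0 : E) (R + 2 * δ), (nm V x ^ 2) ^ 2)
        = ∫ x in Metric.ball (0 : E) (R + 2 * δ), sq V x ^ 2 := by
      congr 1; funext x; rw [nm_sq]
    rw [e1]
    exact (setIntegral_ball_mono ((continuous_sq hc).pow 2) (fun x => sq_nonneg _)
      (by linarith)).trans hD2
  have b2 : (∫ x in Metric.ball (0 : E) (R + 2 * δ), (Pn V ρ x ^ 2) ^ 2) ≤ (Cn ^ 2 * ρ ^ 2 * D) ^ 2 := by
    have e1 : (∫ x in Metric.ball (0 : E) (R + 2 * δ), (Pn V ρ x ^ 2) ^ 2)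
        = ∫ x in Metric.ball (0 : E) (R + 2 * δ), Pn V ρ x ^ 4 := by
      congr 1; funext x; ring
    have e2 : (∫ x in Metric.ball (0 : E) (R + 2 * δ + ρ), nm V x ^ 4) ≤ D ^ 2 := by
      have e3 : (∫ x in Metric.ball (0 : E) (R + 2 * δ + ρ), nm V x ^ 4)
          = ∫ x in Metric.ball (0 : E) (R + 2 * δ + ρ), sq V x ^ 2 := by
        congr 1; funext x; rw [← nm_sq]; ring
      rw [e3]
      exact (setIntegral_ball_mono ((continuous_sq hc).pow 2) (fun x => sq_nonneg _)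
        (by linarith)).trans hD2
    rw [e1]
    calc (∫ x in Metric.ball (0 : E) (R + 2 * δ), Pn V ρ x ^ 4)
        ≤ (Cn * ρ) ^ 4 * D ^ 2 :=
          (hnear V (R + 2 * δ) ρ hc hρ0).trans (mul_le_mul_of_nonneg_left e2 (by positivity))
      _ = (Cn ^ 2 * ρ ^ 2 * D) ^ 2 := by ring
  have b3 : (∫ x in Metric.ball (0 : E) (R + 2 * δ), (nm V x * Pn V ρ x) ^ 2) ≤ (Cn * ρ * D) ^ 2 := by
    have e1 : (∫ x in Metric.ball (0 : E) (R + 2 * δ), (nm V x * Pn V ρ x) ^ 2)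
        = ∫ x in Metric.ball (0 : E) (R + 2 * δ), nm V x ^ 2 * Pn V ρ x ^ 2 := by
      congr 1; funext x; ring
    rw [e1]
    refine (cs_cont (hVc.pow 2) (hPc.pow 2) Subset.rfl hD0 (by positivity) b1 b2).trans (le_of_eq ?_)
    ring
  have b4 : (∫ x in Metric.ball (0 : E) (R + 2 * δ), nm (curl V) x ^ 2) ≤ sZ ^ 2 := by
    have e1 : (∫ x in Metric.ball (0 : E) (R + 2 * δ), nm (curl V) x ^ 2) = W V (R + 2 * δ) := by
      unfold W; congr 1; funext x; rw [nm_sq]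
    rw [e1, hsZ2]
    exact (W_mono hs (by linarith)).trans hWZ
  have near : (∫ x in Sh R (R + δ), nm (curl V) x * (nm V x * Pn V ρ x)) ≤ Cn * δ * D := by
    refine (cs_cont hcc (hVc.mul hPc) hSb hsZ0 (by positivity) b4 b3).trans (le_of_eq ?_)
    calc sZ * (Cn * ρ * D) = Cn * (sZ * ρ) * D := by ring
      _ = Cn * δ * D := by rw [hρsZ]
  -- the far part
  set sG : ℝ := R ^ ((3 - 6 / p) / 2) with hsG
  have hsG0 : 0 < sG := Real.rpow_pos_of_pos hR0 _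
  have hsG2 : sG ^ 2 = R ^ (3 - 6 / p) := half_sq' hR0.le
  have b5 : (∫ x in Metric.ball (0 : E) (R + 2 * δ), nm V x ^ 2) ≤ (k1 * sG) ^ 2 := by
    have e1 : (∫ x in Metric.ball (0 : E) (R + 2 * δ), nm V x ^ 2)
        = ∫ x in Metric.ball (0 : E) (R + 2 * δ), sq V x := by
      congr 1; funext x; rw [nm_sq]
    rw [e1, mul_pow, hsG2, hk1, half_sq hc1.le]
    exact hM R (R + 2 * δ) hR (by linarith) (by linarith)
  have far : (∫ x in Sh R (R + δ), nm (curl V) x * nm V x) ≤ sZ * (k1 * sG) :=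
    cs_cont hcc hVc hSb hsZ0 (by positivity) b4 b5
  have hI1 : IntegrableOn (fun x => nm (curl V) x * (nm V x * Pn V ρ x)) (Sh R (R + δ)) :=
    (integrableOn_ball_of_cont (hcc.mul (hVc.mul hPc)) (R + 2 * δ)).mono_set hSb
  have hI2 : IntegrableOn (fun x => nm (curl V) x * nm V x) (Sh R (R + δ)) :=
    (integrableOn_ball_of_cont (hcc.mul hVc) (R + 2 * δ)).mono_set hSb
  have hI3 : IntegrableOn (fun x => nm (curl V) x * nm V x * nm Ψ x) (Sh R (R + δ)) :=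
    (integrableOn_ball_of_cont ((hcc.mul hVc).mul (continuous_nm hΨc)) (R + 2 * δ)).mono_set hSb
  have tot : (∫ x in Sh R (R + δ), nm (curl V) x * nm V x * nm Ψ x)
      ≤ C₀ * (Cn * δ * D + F * (sZ * (k1 * sG))) := by
    calc (∫ x in Sh R (R + δ), nm (curl V) x * nm V x * nm Ψ x)
        ≤ ∫ x in Sh R (R + δ), C₀ * (nm (curl V) x * (nm V x * Pn V ρ x) + F * (nm (curl V) x * nm V x)) := by
          refine setIntegral_mono hI3 ((hI1.add (hI2.const_mul _)).const_mul _) (fun x => ?_)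
          show nm (curl V) x * nm V x * nm Ψ x
            ≤ C₀ * (nm (curl V) x * (nm V x * Pn V ρ x) + F * (nm (curl V) x * nm V x))
          have e1 : 0 ≤ nm (curl V) x * nm V x := mul_nonneg (nm_nonneg _ x) (nm_nonneg V x)
          calc nm (curl V) x * nm V x * nm Ψ x ≤ nm (curl V) x * nm V x * (C₀ * (Pn V ρ x + F)) :=
                mul_le_mul_of_nonneg_left (hpt x) e1
            _ = C₀ * (nm (curl V) x * (nm V x * Pn V ρ x) + F * (nm (curl V) x * nm V x)) := by ring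
      _ = C₀ * ((∫ x in Sh R (R + δ), nm (curl V) x * (nm V x * Pn V ρ x))
            + F * ∫ x in Sh R (R + δ), nm (curl V) x * nm V x) := by
          rw [integral_const_mul, integral_add hI1 (hI2.const_mul _), integral_const_mul]
      _ ≤ C₀ * (Cn * δ * D + F * (sZ * (k1 * sG))) := by
          have := mul_le_mul_of_nonneg_left far hF0
          gcongr
  -- the far constant
  have hfarc : δ⁻¹ * (ρ ^ (1 - 3 / p)) * (sZ * sG) ≤ (R / δ) ^ 2 * Z ^ (3 / (2 * p)) := by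
    have e1 : ρ ^ (1 - 3 / p) = δ ^ (1 - 3 / p) * sZ ^ (-(1 - 3 / p)) := by
      rw [hρ, Real.div_rpow hδ.le hsZ0.le, Real.rpow_neg hsZ0.le, div_eq_mul_inv]
    have e2 : sZ ^ (-(1 - 3 / p)) * sZ = Z ^ (3 / (2 * p)) := by
      rw [hsZ]
      nth_rewrite 2 [← Real.rpow_one (Z ^ (1 / 2 : ℝ))]
      rw [← Real.rpow_add hsZ0, ← Real.rpow_mul hZ0.le]
      congr 1
      field_simp
      ring
    have e3 : δ⁻¹ * δ ^ (1 - 3 / p) = δ ^ (-(3 / p)) := by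
      rw [← Real.rpow_neg_one, ← Real.rpow_add hδ]
      congr 1
      ring
    have e4 : δ ^ (-(3 / p)) * sG ≤ (R / δ) ^ 2 := by
      have hδe : δ = R * (R / δ)⁻¹ := by field_simp
      have e5 : δ ^ (-(3 / p)) = R ^ (-(3 / p)) * (R / δ) ^ (3 / p) := by
        nth_rewrite 1 [hδe]
        rw [Real.mul_rpow hR0.le (by positivity), Real.inv_rpow hQ0.le, ← Real.rpow_neg hQ0.le, neg_neg]
      have e6 : R ^ (-(3 / p)) * sG ≤ 1 := by
        rw [hsG, ← Real.rpow_add hR0]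
        refine Real.rpow_le_one_of_one_le_of_nonpos hR ?_
        have h6p : 2 < 6 / p := by rw [lt_div_iff₀ hp0]; linarith
        have e7 : 3 / p = (6 / p) / 2 := by field_simp; norm_num
        rw [e7]
        linarith
      have e8 : (R / δ) ^ (3 / p) ≤ (R / δ) ^ 2 := by
        have h6p : 3 / p ≤ 2 := by rw [div_le_iff₀ hp0]; linarith
        calc (R / δ) ^ (3 / p) ≤ (R / δ) ^ (2 : ℝ) := Real.rpow_le_rpow_of_exponent_le hQ h6p
          _ = (R / δ) ^ 2 := by norm_cast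
      have e9 : 0 ≤ (R / δ) ^ (3 / p) := Real.rpow_nonneg hQ0.le _
      have e10 : 0 ≤ R ^ (-(3 / p)) * sG := mul_nonneg (Real.rpow_nonneg hR0.le _) hsG0.le
      calc δ ^ (-(3 / p)) * sG = (R ^ (-(3 / p)) * sG) * (R / δ) ^ (3 / p) := by rw [e5]; ring
        _ ≤ 1 * (R / δ) ^ 2 := mul_le_mul e6 e8 e9 zero_le_one
        _ = (R / δ) ^ 2 := one_mul _
    have e11 : 0 ≤ Z ^ (3 / (2 * p)) := Real.rpow_nonneg hZ0.le _
    calc δ⁻¹ * (ρ ^ (1 - 3 / p)) * (sZ * sG)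
        = (δ⁻¹ * δ ^ (1 - 3 / p)) * sG * (sZ ^ (-(1 - 3 / p)) * sZ) := by rw [e1]; ring
      _ = (δ ^ (-(3 / p)) * sG) * Z ^ (3 / (2 * p)) := by rw [e2, e3]
      _ ≤ (R / δ) ^ 2 * Z ^ (3 / (2 * p)) := mul_le_mul_of_nonneg_right e4 e11
  have hQ28 : (R / δ) ^ 2 ≤ (R / δ) ^ 8 := pow_le_pow_right₀ hQ (by norm_num)
  have hz1 : 0 ≤ Z ^ (3 * (4 - p) / (2 * (6 - p))) := Real.rpow_nonneg hZ0.le _
  have hz2 : 0 ≤ Z ^ (3 / (2 * p)) := Real.rpow_nonneg hZ0.le _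
  calc δ⁻¹ * (∫ x in Sh R (R + δ), nm (curl V) x * nm V x * nm Ψ x)
      ≤ δ⁻¹ * (C₀ * (Cn * δ * D + F * (sZ * (k1 * sG)))) :=
        mul_le_mul_of_nonneg_left tot (by positivity)
    _ = C₀ * (Cn * D + Cf * A1 * k1 * (δ⁻¹ * (ρ ^ (1 - 3 / p)) * (sZ * sG))) := by
        rw [hF]
        have : δ⁻¹ * δ = 1 := inv_mul_cancel₀ hδ.ne'
        calc δ⁻¹ * (C₀ * (Cn * δ * D + Cf * ρ ^ (1 - 3 / p) * A1 * (sZ * (k1 * sG))))
            = C₀ * (Cn * (δ⁻¹ * δ) * D + Cf * A1 * k1 * (δ⁻¹ * (ρ ^ (1 - 3 / p)) * (sZ * sG))) := by ring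
          _ = _ := by rw [this]; ring
    _ ≤ C₀ * (Cn * D + Cf * A1 * k1 * ((R / δ) ^ 2 * Z ^ (3 / (2 * p)))) := by
        have := mul_le_mul_of_nonneg_left hfarc (by positivity : 0 ≤ Cf * A1 * k1)
        gcongr
    _ ≤ C₀ * (Cn * c5 * ((R / δ) ^ 8 * Z ^ (3 * (4 - p) / (2 * (6 - p))))
          + Cf * A1 * k1 * ((R / δ) ^ 8 * Z ^ (3 / (2 * p)))) := by
        rw [hD]
        have e1 := mul_le_mul_of_nonneg_right hQ28 hz2
        have e2 := mul_le_mul_of_nonneg_left e1 (by positivity : 0 ≤ Cf * A1 * k1)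
        refine mul_le_mul_of_nonneg_left ?_ hC₀.le
        linarith
    _ ≤ C₀ * (Cn * c5 + Cf * A1 * k1) * (R / δ) ^ 8
          * (Z ^ (3 * (4 - p) / (2 * (6 - p))) + Z ^ (3 / (2 * p))) := by
        have e1 : 0 ≤ (R / δ) ^ 8 * Z ^ (3 * (4 - p) / (2 * (6 - p))) := by positivity
        have e2 : 0 ≤ (R / δ) ^ 8 * Z ^ (3 / (2 * p)) := by positivity
        have e3 : 0 ≤ C₀ * (Cn * c5) * ((R / δ) ^ 8 * Z ^ (3 / (2 * p))) := by positivity
        have e4 : 0 ≤ C₀ * (Cf * A1 * k1) * ((R / δ) ^ 8 * Z ^ (3 * (4 - p) / (2 * (6 - p)))) := by positivity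
        nlinarith

end Leray.Thk
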