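import Pool.Agent.Lib.MP_9b9638_an.Energy3

/-!
# Tools for the assembly: Hoelder inequalities on bounded sets, volume of shells, calculus of bounds
-/

open MeasureTheory Set Filter Topology TopologicalSpace
open scoped NNReal ENNReal

noncomputable section

namespace Leray

theorem memLp_set {S : Set E} (hS : ∃ r : ℝ, S ⊆ Metric.closedBall 0 r) {f : E → ℝ} (hf : Continuous f)
    (q : ℝ≥0∞) : MemLp f q (volume.restrict S) := by
  obtain ⟨r, hr⟩ := hS
  apply MemLp.mono_measure (Measure.restrict_mono hr le_rfl)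
  obtain ⟨C, hC⟩ := (isCompact_closedBall (0 : E) r).exists_bound_of_continuousOn hf.continuousOn
  have : IsFiniteMeasure (volume.restrict (Metric.closedBall (0 : E) r)) :=
    ⟨by rw [Measure.restrict_apply_univ]; exact (isCompact_closedBall (0 : E) r).measure_lt_top⟩
  apply MemLp.of_bound hf.aestronglyMeasurable C
  rw [ae_restrict_iff' measurableSet_closedBall]
  exact Eventually.of_forall hC

theorem holder_set {S : Set E} (hS : ∃ r : ℝ, S ⊆ Metric.closedBall 0 r) {p q : ℝ} (hpq : p.HolderConjugate q)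
    {f g : E → ℝ} (hf : Continuous f) (hg : Continuous g) (f0 : ∀ x, 0 ≤ f x) (g0 : ∀ x, 0 ≤ g x) :
    ∫ x in S, f x * g x ≤ (∫ x in S, f x ^ p) ^ (1 / p) * (∫ x in S, g x ^ q) ^ (1 / q) :=
  integral_mul_le_Lp_mul_Lq_of_nonneg hpq (Eventually.of_forall f0) (Eventually.of_forall g0)
    (memLp_set hS hf _) (memLp_set hS hg _)

theorem cs_set {S : Set E} (hS : ∃ r : ℝ, S ⊆ Metric.closedBall 0 r)
    {f g : E → ℝ} (hf : Continuous f) (hg : Continuous g) (f0 : ∀ x, 0 ≤ f x) (g0 : ∀ x, 0 ≤ g x) :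
    ∫ x in S, f x * g x ≤ (∫ x in S, f x ^ 2) ^ (1 / 2 : ℝ) * (∫ x in S, g x ^ 2) ^ (1 / 2 : ℝ) := by
  have h := holder_set hS (p := 2) (q := 2) Real.HolderConjugate.two_two hf hg f0 g0
  have e : ∀ t : ℝ, t ^ (2 : ℝ) = t ^ 2 := fun t => by
    rw [show (2 : ℝ) = ((2 : ℕ) : ℝ) by norm_num, Real.rpow_natCast]
  simpa only [e] using h

theorem interp_set {S : Set E} (hS : ∃ r : ℝ, S ⊆ Metric.closedBall 0 r) {t u : ℝ} (ht : 0 < t) (hu : 0 < u)
    (htu : t + u = 1) {F G : E → ℝ} (hF : Continuous F) (hG : Continuous G) (F0 : ∀ x, 0 ≤ F x)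
    (G0 : ∀ x, 0 ≤ G x) :
    ∫ x in S, F x ^ t * G x ^ u ≤ (∫ x in S, F x) ^ t * (∫ x in S, G x) ^ u := by
  have hpq : (1 / t).HolderConjugate (1 / u) := by
    rw [Real.holderConjugate_iff]
    constructor
    · rw [lt_div_iff₀ ht]; linarith
    · simp [htu]
  have h := holder_set hS hpq (f := fun x => F x ^ t) (g := fun x => G x ^ u)
    (hF.rpow_const fun x => Or.inr ht.le) (hG.rpow_const fun x => Or.inr hu.le)
    (fun x => Real.rpow_nonneg (F0 x) _) (fun x => Real.rpow_nonneg (G0 x) _)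
  have e1 : ∀ x, (F x ^ t) ^ (1 / t) = F x := fun x => by
    rw [← Real.rpow_mul (F0 x)]; field_simp; simp
  have e2 : ∀ x, (G x ^ u) ^ (1 / u) = G x := fun x => by
    rw [← Real.rpow_mul (G0 x)]; field_simp; simp
  simp only [e1, e2, one_div_one_div] at h
  exact h

/-- interpolation between `L^p` and `L^6` -/
theorem interp_nm {S : Set E} (hS : ∃ r : ℝ, S ⊆ Metric.closedBall 0 r) {V : VF} (hV : ∀ i, Continuous (V i))
    {p q : ℝ} (hp : 0 < p) (hpq : p < q) (hq : q < 6) :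
    ∫ x in S, nm V x ^ q ≤ (∫ x in S, sq V x ^ 3) ^ ((q - p) / (6 - p)) *
      (∫ x in S, nm V x ^ p) ^ ((6 - q) / (6 - p)) := by
  have h6 : 0 < 6 - p := by linarith
  have ht : 0 < (q - p) / (6 - p) := div_pos (by linarith) h6
  have hu : 0 < (6 - q) / (6 - p) := div_pos (by linarith) h6
  have htu : (q - p) / (6 - p) + (6 - q) / (6 - p) = 1 := by field_simp; ring
  have h := interp_set hS ht hu htu (F := fun x => sq V x ^ 3) (G := fun x => nm V x ^ p)
    ((continuous_sq hV).pow 3) ((continuous_nm hV).rpow_const fun x => Or.inr hp.le)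
    (fun x => pow_nonneg (sq_nonneg' V x) 3) (fun x => Real.rpow_nonneg (nm_nonneg V x) _)
  refine le_trans (le_of_eq ?_) h
  congr 1; funext x
  have n0 := nm_nonneg V x
  have e : sq V x ^ 3 = nm V x ^ (6 : ℝ) := by
    rw [← nm_sq V x, ← pow_mul, show (6 : ℝ) = ((6 : ℕ) : ℝ) by norm_num, Real.rpow_natCast]
  rw [e, ← Real.rpow_mul n0, ← Real.rpow_mul n0]
  rcases n0.eq_or_lt with h0 | h0
  · rw [← h0, Real.zero_rpow (by linarith), Real.zero_rpow (by positivity), zero_mul]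
  · rw [← Real.rpow_add h0]
    congr 1
    field_simp; ring

theorem set_mono {S T : Set E} (hST : S ⊆ T) (hT : ∃ r : ℝ, T ⊆ Metric.closedBall 0 r)
    {f : E → ℝ} (hf : Continuous f) (h0 : ∀ x, 0 ≤ f x) : ∫ x in S, f x ≤ ∫ x in T, f x := by
  apply setIntegral_mono_set (cont_int_on hT hf) (Eventually.of_forall h0)
  exact Eventually.of_forall hST

theorem Sh_subset {r s r' s' : ℝ} (h1 : r' ≤ r) (h2 : s ≤ s') : Sh r s ⊆ Sh r' s' :=
  fun _ hx => ⟨h1.trans hx.1, hx.2.trans h2⟩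

theorem Sh_subset_ball {r s R : ℝ} (h : s < R) : Sh r s ⊆ Metric.ball 0 R :=
  fun x hx => by
    have := hx.2
    simp only [Metric.mem_ball, dist_zero_right]; linarith

theorem ball_subset_ball' {r R : ℝ} (h : r ≤ R) : Metric.ball (0 : E) r ⊆ Metric.ball 0 R :=
  Metric.ball_subset_ball h

/-- volume of the unit ball, times 8 -/
def v8 : ℝ := 8 * (volume : Measure E).real (Metric.ball 0 1)

theorem v8_pos : 0 < v8 := by
  unfold v8
  have : 0 < (volume : Measure E).real (Metric.ball (0 : E) 1) := by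
    rw [Measure.real, ENNReal.toReal_pos_iff]
    exact ⟨Metric.measure_ball_pos _ _ one_pos, measure_ball_lt_top⟩
  positivity

theorem vol_closedBall {r : ℝ} (hr : 0 ≤ r) :
    (volume : Measure E).real (Metric.closedBall 0 r) = r ^ 3 * (volume : Measure E).real (Metric.ball 0 1) := by
  rw [Measure.real, Measure.addHaar_closedBall _ _ hr, ENNReal.toReal_mul, ENNReal.toReal_ofReal (by positivity)]
  simp [Measure.real]

theorem vol_ball {r : ℝ} (hr : 0 ≤ r) :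
    (volume : Measure E).real (Metric.ball 0 r) = r ^ 3 * (volume : Measure E).real (Metric.ball 0 1) := by
  rw [Measure.real, Measure.addHaar_ball _ _ hr, ENNReal.toReal_mul, ENNReal.toReal_ofReal (by positivity)]
  simp [Measure.real]

/-- volume of a thin shell -/
theorem vol_shell {r η : ℝ} (hη : 0 < η) (hr : η ≤ r) :
    (volume : Measure E).real (Sh r (r + η)) ≤ v8 * r ^ 2 * η := by
  have hr0 : 0 < r := lt_of_lt_of_le hη hr
  have hsub : Sh r (r + η) = Metric.closedBall (0 : E) (r + η) \ Metric.ball 0 r := by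
    ext x
    simp only [Sh, mem_ofPred_eq, Set.mem_sdiff, Metric.mem_closedBall, Metric.mem_ball, dist_zero_right, not_lt]
    tauto
  rw [hsub, measureReal_sdiff (Metric.ball_subset_closedBall.trans (Metric.closedBall_subset_closedBall (by linarith)))
    measurableSet_ball (isCompact_closedBall (0 : E) (r + η)).measure_lt_top.ne, vol_closedBall (by linarith), vol_ball hr0.le]
  unfold v8
  have hv : 0 ≤ (volume : Measure E).real (Metric.ball (0 : E) 1) := by positivity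
  have : (r + η) ^ 3 - r ^ 3 ≤ 8 * r ^ 2 * η := by nlinarith [mul_pos hr0 hη, mul_nonneg (sub_nonneg.2 hr) hη.le, mul_nonneg (mul_nonneg (sub_nonneg.2 hr) hη.le) hη.le, mul_nonneg (mul_nonneg (sub_nonneg.2 hr) hη.le) hr0.le]
  nlinarith [mul_nonneg (sub_nonneg.2 this) hv]

/-! ### calculus of bounds -/

/-- `f ≤ c Q^K Y^e` uniformly, for some constants `c`, `K`; `f ≥ 0` -/
def Bd {ι : Type*} (Q Y : ι → ℝ) (f : ι → ℝ) (e : ℝ) : Prop :=
  (∀ i, 0 ≤ f i) ∧ ∃ c K : ℝ, 0 ≤ c ∧ 0 ≤ K ∧ ∀ i, f i ≤ c * Q i ^ K * Y i ^ e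

namespace Bd

variable {ι : Type*} {Q Y : ι → ℝ} {f g : ι → ℝ} {e e' : ℝ}

theorem mul (hQ : ∀ i, 1 ≤ Q i) (hY : ∀ i, 1 ≤ Y i) (hf : Bd Q Y f e) (hg : Bd Q Y g e') :
    Bd Q Y (fun i => f i * g i) (e + e') := by
  obtain ⟨f0, c, K, hc, hK, hf⟩ := hf
  obtain ⟨g0, c', K', hc', hK', hg⟩ := hg
  refine ⟨fun i => mul_nonneg (f0 i) (g0 i), c * c', K + K', by positivity, by positivity, fun i => ?_⟩
  have q := hQ i
  have y := hY i
  have q0 : 0 < Q i := by linarith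
  have y0 : 0 < Y i := by linarith
  calc f i * g i ≤ (c * Q i ^ K * Y i ^ e) * (c' * Q i ^ K' * Y i ^ e') :=
        mul_le_mul (hf i) (hg i) (g0 i) (by positivity)
    _ = c * c' * Q i ^ (K + K') * Y i ^ (e + e') := by
        rw [Real.rpow_add q0, Real.rpow_add y0]; ring

theorem mono (hQ : ∀ i, 1 ≤ Q i) (hY : ∀ i, 1 ≤ Y i) (hf : Bd Q Y f e) (h : e ≤ e') : Bd Q Y f e' := by
  obtain ⟨f0, c, K, hc, hK, hf⟩ := hf
  refine ⟨f0, c, K, hc, hK, fun i => (hf i).trans ?_⟩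
  have q := hQ i
  have q0 : 0 < Q i := by linarith
  have := Real.rpow_le_rpow_of_exponent_le (hY i) h
  gcongr

theorem add (hQ : ∀ i, 1 ≤ Q i) (hY : ∀ i, 1 ≤ Y i) (hf : Bd Q Y f e) (hg : Bd Q Y g e) :
    Bd Q Y (fun i => f i + g i) e := by
  obtain ⟨f0, c, K, hc, hK, hf⟩ := hf
  obtain ⟨g0, c', K', hc', hK', hg⟩ := hg
  refine ⟨fun i => add_nonneg (f0 i) (g0 i), c + c', K + K', by positivity, by positivity, fun i => ?_⟩
  have q := hQ i
  have y := hY i
  have q0 : 0 < Q i := by linarith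
  have y0 : 0 < Y i := by linarith
  have h1 : Q i ^ K ≤ Q i ^ (K + K') := Real.rpow_le_rpow_of_exponent_le q (by linarith)
  have h2 : Q i ^ K' ≤ Q i ^ (K + K') := Real.rpow_le_rpow_of_exponent_le q (by linarith)
  calc f i + g i ≤ c * Q i ^ K * Y i ^ e + c' * Q i ^ K' * Y i ^ e := add_le_add (hf i) (hg i)
    _ ≤ c * Q i ^ (K + K') * Y i ^ e + c' * Q i ^ (K + K') * Y i ^ e := by gcongr
    _ = _ := by ring

theorem rpow (hQ : ∀ i, 1 ≤ Q i) (hY : ∀ i, 1 ≤ Y i) (hf : Bd Q Y f e) {θ : ℝ} (hθ : 0 ≤ θ) :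
    Bd Q Y (fun i => f i ^ θ) (e * θ) := by
  obtain ⟨f0, c, K, hc, hK, hf⟩ := hf
  refine ⟨fun i => Real.rpow_nonneg (f0 i) _, c ^ θ, K * θ, by positivity, by positivity, fun i => ?_⟩
  have q := hQ i
  have y := hY i
  have q0 : 0 < Q i := by linarith
  have y0 : 0 < Y i := by linarith
  calc f i ^ θ ≤ (c * Q i ^ K * Y i ^ e) ^ θ := Real.rpow_le_rpow (f0 i) (hf i) hθ
    _ = c ^ θ * Q i ^ (K * θ) * Y i ^ (e * θ) := by
        rw [Real.mul_rpow (by positivity) (by positivity), Real.mul_rpow hc (by positivity),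
          Real.rpow_mul q0.le, Real.rpow_mul y0.le]

theorem le (hf : Bd Q Y f e) (h : ∀ i, g i ≤ f i) (g0 : ∀ i, 0 ≤ g i) : Bd Q Y g e := by
  obtain ⟨_, c, K, hc, hK, hf⟩ := hf
  exact ⟨g0, c, K, hc, hK, fun i => (h i).trans (hf i)⟩

theorem const (hQ : ∀ i, 1 ≤ Q i) (hY : ∀ i, 1 ≤ Y i) {c : ℝ} (hc : 0 ≤ c) : Bd Q Y (fun _ => c) 0 := by
  refine ⟨fun _ => hc, c, 0, hc, le_rfl, fun i => ?_⟩
  simp

theorem const_mul (hQ : ∀ i, 1 ≤ Q i) (hY : ∀ i, 1 ≤ Y i) {c : ℝ} (hc : 0 ≤ c) (hf : Bd Q Y f e) :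
    Bd Q Y (fun i => c * f i) e := by
  have := (const hQ hY hc).mul hQ hY hf
  rwa [zero_add] at this

theorem Qpow (hQ : ∀ i, 1 ≤ Q i) (hY : ∀ i, 1 ≤ Y i) {K : ℝ} (hK : 0 ≤ K) : Bd Q Y (fun i => Q i ^ K) 0 := by
  refine ⟨fun i => Real.rpow_nonneg (by linarith [hQ i]) _, 1, K, zero_le_one, hK, fun i => ?_⟩
  simp

theorem Ypow (hQ : ∀ i, 1 ≤ Q i) (hY : ∀ i, 1 ≤ Y i) (e : ℝ) : Bd Q Y (fun i => Y i ^ e) e := by
  refine ⟨fun i => Real.rpow_nonneg (by linarith [hY i]) _, 1, 0, zero_le_one, le_rfl, fun i => ?_⟩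
  simp

end Bd

end Leray
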