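import Pool.Agent.Lib.MP_9b9638_an.Thin2
import Pool.Agent.Lib.MP_9b9638_an.Shell1

/-!
# Thin shells: bounds for the basic quantities
-/

open MeasureTheory Set Filter Topology TopologicalSpace
open scoped NNReal ENNReal

noncomputable section

namespace Leray

namespace Cfg

variable {V : VF} {p s C0 Cw : ℝ}

/-- the ratio `R / δ` -/
def Q (c : Cfg V p s C0 Cw) : ℝ := c.R / c.δ

theorem one_le_Q (c : Cfg V p s C0 Cw) : 1 ≤ c.Q := by
  rw [Q, le_div_iff₀ c.hδ]; linarith [c.hδR]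

theorem one_le_Y (c : Cfg V p s C0 Cw) : 1 ≤ c.Y := c.hY

/-- bounds by `c Q^K Y^e` -/
abbrev BD (V : VF) (p s C0 Cw : ℝ) (f : Cfg V p s C0 Cw → ℝ) (e : ℝ) : Prop := Bd Cfg.Q Cfg.Y f e

theorem r_pos (c : Cfg V p s C0 Cw) : 0 < c.r := by linarith [c.hR, c.hr1]

theorem δ_lt (c : Cfg V p s C0 Cw) : 16 * c.η ≤ c.δ := by
  have := c.hηdef; have := c.hx1; have := c.hδ
  nlinarith

theorem η_le_r (c : Cfg V p s C0 Cw) : 16 * c.η ≤ c.r := by
  have := c.δ_lt; have := c.hδR; have := c.hr1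
  linarith

theorem bd_δi : BD V p s C0 Cw (fun c => c.δ⁻¹) 0 := by
  have := (Bd.Qpow (Q := Cfg.Q (V := V) (p := p) (s := s) (C0 := C0) (Cw := Cw)) one_le_Q one_le_Y (K := 1) zero_le_one)
  refine this.le (fun c => ?_) (fun c => inv_nonneg.2 c.hδ.le)
  rw [Real.rpow_one, Q, div_eq_mul_inv]
  have := c.hR
  have : 0 ≤ c.δ⁻¹ := inv_nonneg.2 c.hδ.le
  nlinarith

theorem bd_rδ : BD V p s C0 Cw (fun c => c.r * c.δ⁻¹) 0 := by
  have := (Bd.Qpow (Q := Cfg.Q (V := V) (p := p) (s := s) (C0 := C0) (Cw := Cw)) one_le_Q one_le_Y (K := 1) zero_le_one).const_mul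
    one_le_Q one_le_Y (c := 2) (by norm_num)
  refine this.le (fun c => ?_) (fun c => mul_nonneg c.r_pos.le (inv_nonneg.2 c.hδ.le))
  rw [Real.rpow_one, Q, div_eq_mul_inv]
  have h : 0 ≤ c.δ⁻¹ := inv_nonneg.2 c.hδ.le
  have := c.hr2
  have := c.hδR
  nlinarith

theorem bd_xi : BD V p s C0 Cw (fun c => c.x⁻¹) s := by
  have := (Bd.Ypow (Q := Cfg.Q (V := V) (p := p) (s := s) (C0 := C0) (Cw := Cw)) one_le_Q one_le_Y s).const_mul
    one_le_Q one_le_Y (c := 16) (by norm_num)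
  refine this.le (fun c => ?_) (fun c => inv_nonneg.2 c.hx0.le)
  have hY : 0 < c.Y := by linarith [c.hY]
  rw [c.hxdef, inv_div, Real.rpow_neg hY.le, div_inv_eq_mul]

theorem bd_x : BD V p s C0 Cw (fun c => c.x) (-s) := by
  have := (Bd.Ypow (Q := Cfg.Q (V := V) (p := p) (s := s) (C0 := C0) (Cw := Cw)) one_le_Q one_le_Y (-s))
  refine this.le (fun c => ?_) (fun c => c.hx0.le)
  have hY : 0 < c.Y := by linarith [c.hY]
  have h : 0 ≤ c.Y ^ (-s) := by positivity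
  show c.x ≤ c.Y ^ (-s)
  rw [c.hxdef]; linarith

theorem ηi_eq (c : Cfg V p s C0 Cw) : c.η⁻¹ = c.δ⁻¹ * c.x⁻¹ := by
  rw [c.hηdef, mul_inv]

theorem bd_ηi : BD V p s C0 Cw (fun c => c.η⁻¹) s := by
  have := bd_δi.mul one_le_Q one_le_Y (bd_xi (V := V) (p := p) (s := s) (C0 := C0) (Cw := Cw))
  rw [zero_add] at this
  exact this.le (fun c => c.ηi_eq.le) (fun c => inv_nonneg.2 c.hη0.le)

theorem bd_rηi : BD V p s C0 Cw (fun c => c.r * c.η⁻¹) s := by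
  have := bd_rδ.mul one_le_Q one_le_Y (bd_xi (V := V) (p := p) (s := s) (C0 := C0) (Cw := Cw))
  rw [zero_add] at this
  refine this.le (fun c => ?_) (fun c => mul_nonneg c.r_pos.le (inv_nonneg.2 c.hη0.le))
  rw [c.ηi_eq]; exact le_of_eq (by ring)

/-- the enstrophy of the shell -/
def w (c : Cfg V p s C0 Cw) : ℝ := ∫ y in Sh (c.r - 3 * c.η) (c.r + 4 * c.η), sq (curl V) y

theorem w_nonneg (c : Cfg V p s C0 Cw) : 0 ≤ c.w := setInt_nonneg (measurableSet_Sh _ _) fun _ => sq_nonneg' _ _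

theorem bd_w : BD V p s C0 Cw (fun c => c.w) (1 - s) := by
  have h1 : BD V p s C0 Cw (fun c => c.Y ^ (1 : ℝ)) 1 := Bd.Ypow one_le_Q one_le_Y 1
  have := (bd_x.mul one_le_Q one_le_Y h1).const_mul one_le_Q one_le_Y (c := 28) (by norm_num)
  rw [show -s + 1 = 1 - s by ring] at this
  refine this.le (fun c => ?_) (fun c => c.w_nonneg)
  rw [Real.rpow_one]
  have := c.hw
  unfold w
  linarith

/-- the `L^p` content of the shell -/
def α (c : Cfg V p s C0 Cw) : ℝ := ∫ y in Sh (c.r - 3 * c.η) (c.r + 4 * c.η), nm V y ^ p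

theorem α_nonneg (c : Cfg V p s C0 Cw) : 0 ≤ c.α :=
  setInt_nonneg (measurableSet_Sh _ _) fun _ => Real.rpow_nonneg (nm_nonneg _ _) _

theorem A_nonneg (V : VF) (p : ℝ) : 0 ≤ ∫ y, nm V y ^ p :=
  integral_nonneg fun _ => Real.rpow_nonneg (nm_nonneg _ _) _

theorem bd_α : BD V p s C0 Cw (fun c => c.α) (-s) := by
  have hA := A_nonneg V p
  have := (bd_x (V := V) (p := p) (s := s) (C0 := C0) (Cw := Cw)).const_mul one_le_Q one_le_Y
    (c := 28 * ((∫ y, nm V y ^ p) + 1)) (by positivity)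
  refine this.le (fun c => ?_) (fun c => c.α_nonneg)
  have := c.hα
  unfold α
  linarith

/-! ### Sobolev -/

/-- `∫ |V|^6` on the intermediate shell -/
def I6 (c : Cfg V p s C0 Cw) : ℝ := ∫ y in Sh (c.r - c.η) (c.r + 2 * c.η), sq V y ^ 3
/-- `∫ |V|^2` on the intermediate shell -/
def M (c : Cfg V p s C0 Cw) : ℝ := ∫ y in Sh (c.r - c.η) (c.r + 2 * c.η), sq V y
/-- `∫ |V|^4` on the intermediate shell -/
def L4 (c : Cfg V p s C0 Cw) : ℝ := ∫ y in Sh (c.r - c.η) (c.r + 2 * c.η), nm V y ^ 4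

theorem I6_nonneg (c : Cfg V p s C0 Cw) : 0 ≤ c.I6 :=
  setInt_nonneg (measurableSet_Sh _ _) fun _ => pow_nonneg (sq_nonneg' _ _) 3
theorem M_nonneg (c : Cfg V p s C0 Cw) : 0 ≤ c.M :=
  setInt_nonneg (measurableSet_Sh _ _) fun _ => sq_nonneg' _ _
theorem L4_nonneg (c : Cfg V p s C0 Cw) : 0 ≤ c.L4 :=
  setInt_nonneg (measurableSet_Sh _ _) fun _ => by positivity

theorem cube_of_third {a : ℝ} (ha : 0 ≤ a) : (a ^ (1 / 3 : ℝ)) ^ (3 : ℝ) = a := by
  rw [← Real.rpow_mul ha]; norm_num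

theorem bd_I6 (hV : ∀ i, ContDiff ℝ 3 (V i)) (hd : ∀ x, dv V x = 0) (h1 : 1 < p) (h2 : p < 2)
    (hs : 4 * s / p ≤ 1) : BD V p s C0 Cw (fun c => c.I6) (3 * (1 - s)) := by
  obtain ⟨C, hC, hsob⟩ := shell_sobolev p h1 h2
  have hp : 0 < p := by linarith
  have hV1 : ∀ i, ContDiff ℝ 1 (V i) := fun i => (hV i).of_le (by norm_num)
  have cV : ∀ i, Continuous (V i) := fun i => (hV1 i).continuous
  have cω : ∀ i, Continuous (curl V i) := continuous_curl hV1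
  have e6 : 0 ≤ 6 / p - 1 := by
    rw [sub_nonneg, le_div_iff₀ hp]; linarith
  have b1 : BD V p s C0 Cw (fun c => c.η⁻¹ ^ (6 / p - 1) * c.α ^ (2 / p)) (s * (6 / p - 1) + (-s) * (2 / p)) :=
    (bd_ηi.rpow one_le_Q one_le_Y e6).mul one_le_Q one_le_Y
      (bd_α.rpow one_le_Q one_le_Y (by positivity))
  have b2 : BD V p s C0 Cw (fun c => c.η⁻¹ ^ (6 / p - 1) * c.α ^ (2 / p)) (1 - s) := by
    apply b1.mono one_le_Q one_le_Y
    have : s * (6 / p - 1) + (-s) * (2 / p) = 4 * s / p - s := by field_simp; ring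
    linarith
  have b3 := ((bd_w.add one_le_Q one_le_Y b2).const_mul one_le_Q one_le_Y hC.le).rpow one_le_Q one_le_Y
    (θ := 3) (by norm_num)
  rw [mul_comm (1 - s) 3] at b3
  refine b3.le (fun c => ?_) (fun c => c.I6_nonneg)
  have h := hsob V (c.r - c.η) (c.r + 2 * c.η) c.η hV hd c.hη0 (by linarith [c.η_le_r, c.hη0]) (by linarith [c.hη0])
  have hη := c.hη0
  have hsub : Sh (c.r - c.η - c.η) (c.r + 2 * c.η + c.η) ⊆ Sh (c.r - 3 * c.η) (c.r + 4 * c.η) :=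
    Sh_subset (by linarith) (by linarith)
  have i1 : ∫ x in Sh (c.r - c.η - c.η) (c.r + 2 * c.η + c.η), sq (curl V) x ≤ c.w :=
    set_mono hsub (Sh_sub _ _) (continuous_sq cω) fun _ => sq_nonneg' _ _
  have i2 : ∫ x in Sh (c.r - c.η - c.η) (c.r + 2 * c.η + c.η), nm V x ^ p ≤ c.α :=
    set_mono hsub (Sh_sub _ _) ((continuous_nm cV).rpow_const fun x => Or.inr hp.le)
      fun _ => Real.rpow_nonneg (nm_nonneg _ _) _
  have i0 : 0 ≤ ∫ x in Sh (c.r - c.η - c.η) (c.r + 2 * c.η + c.η), nm V x ^ p :=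
    setInt_nonneg (measurableSet_Sh _ _) fun _ => Real.rpow_nonneg (nm_nonneg _ _) _
  have e : c.η ^ (1 - 6 / p) = c.η⁻¹ ^ (6 / p - 1) := by
    rw [Real.inv_rpow hη.le, ← Real.rpow_neg hη.le, neg_sub]
  have h' : c.I6 ^ (1 / 3 : ℝ) ≤ C * (c.w + c.η⁻¹ ^ (6 / p - 1) * c.α ^ (2 / p)) := by
    refine h.trans ?_
    rw [e]
    have : (∫ x in Sh (c.r - c.η - c.η) (c.r + 2 * c.η + c.η), nm V x ^ p) ^ (2 / p) ≤ c.α ^ (2 / p) :=
      Real.rpow_le_rpow i0 i2 (by positivity)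
    have : 0 ≤ c.η⁻¹ ^ (6 / p - 1) := by positivity
    gcongr
  calc c.I6 = (c.I6 ^ (1 / 3 : ℝ)) ^ (3 : ℝ) := (cube_of_third c.I6_nonneg).symm
    _ ≤ _ := Real.rpow_le_rpow (Real.rpow_nonneg c.I6_nonneg _) h' (by norm_num)

theorem shell_interp {q : ℝ} (hV : ∀ i, ContDiff ℝ 3 (V i)) (h1 : 1 < p) (hpq : p < q) (hq : q < 6)
    (h6 : BD V p s C0 Cw (fun c => c.I6) (3 * (1 - s))) :
    BD V p s C0 Cw (fun c => ∫ y in Sh (c.r - c.η) (c.r + 2 * c.η), nm V y ^ q)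
      (3 * (1 - s) * ((q - p) / (6 - p)) + (-s) * ((6 - q) / (6 - p))) := by
  have hp : 0 < p := by linarith
  have hp6 : 0 < 6 - p := by linarith
  have cV : ∀ i, Continuous (V i) := fun i => (hV i).continuous
  have := (h6.rpow one_le_Q one_le_Y (θ := (q - p) / (6 - p)) (div_nonneg (by linarith) hp6.le)).mul one_le_Q one_le_Y
    (bd_α.rpow one_le_Q one_le_Y (θ := (6 - q) / (6 - p)) (div_nonneg (by linarith) hp6.le))
  refine this.le (fun c => ?_) (fun c => setInt_nonneg (measurableSet_Sh _ _) fun _ => Real.rpow_nonneg (nm_nonneg _ _) _)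
  have hη := c.hη0
  refine (interp_nm (Sh_sub _ _) cV hp hpq hq).trans ?_
  have i2 : ∫ x in Sh (c.r - c.η) (c.r + 2 * c.η), nm V x ^ p ≤ c.α :=
    set_mono (Sh_subset (by linarith) (by linarith)) (Sh_sub _ _) ((continuous_nm cV).rpow_const fun x => Or.inr hp.le)
      fun _ => Real.rpow_nonneg (nm_nonneg _ _) _
  have i0 : 0 ≤ ∫ x in Sh (c.r - c.η) (c.r + 2 * c.η), nm V x ^ p :=
    setInt_nonneg (measurableSet_Sh _ _) fun _ => Real.rpow_nonneg (nm_nonneg _ _) _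
  exact mul_le_mul_of_nonneg_left (Real.rpow_le_rpow i0 i2 (div_nonneg (by linarith) hp6.le))
    (Real.rpow_nonneg c.I6_nonneg _)

theorem bd_M (hV : ∀ i, ContDiff ℝ 3 (V i)) (h1 : 1 < p) (h2 : p < 2)
    (h6 : BD V p s C0 Cw (fun c => c.I6) (3 * (1 - s))) :
    BD V p s C0 Cw (fun c => c.M) (3 * (1 - s) * ((2 - p) / (6 - p)) + (-s) * (4 / (6 - p))) := by
  have := shell_interp (q := 2) hV h1 h2 (by norm_num) h6
  rw [show (6 : ℝ) - 2 = 4 by norm_num] at this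
  refine this.le (fun c => le_of_eq ?_) (fun c => c.M_nonneg)
  unfold M
  congr 1; funext y
  rw [← nm_sq V y, show (2 : ℝ) = ((2 : ℕ) : ℝ) by norm_num, Real.rpow_natCast]

theorem bd_L4 (hV : ∀ i, ContDiff ℝ 3 (V i)) (h1 : 1 < p) (h2 : p < 2)
    (h6 : BD V p s C0 Cw (fun c => c.I6) (3 * (1 - s))) :
    BD V p s C0 Cw (fun c => c.L4) (3 * (1 - s) * ((4 - p) / (6 - p)) + (-s) * (2 / (6 - p))) := by
  have := shell_interp (q := 4) hV h1 (by linarith) (by norm_num) h6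
  rw [show (6 : ℝ) - 4 = 2 by norm_num] at this
  refine this.le (fun c => le_of_eq ?_) (fun c => c.L4_nonneg)
  unfold L4
  congr 1; funext y
  rw [show (4 : ℝ) = ((4 : ℕ) : ℝ) by norm_num, Real.rpow_natCast]

/-! ### the whole ball -/

/-- energy of the ball `B_{R + 3δ}` -/
def Mt (c : Cfg V p s C0 Cw) : ℝ := ∫ y in Metric.ball (0 : E) (c.R + 3 * c.δ), sq V y

theorem Mt_nonneg (c : Cfg V p s C0 Cw) : 0 ≤ c.Mt := setInt_nonneg measurableSet_ball fun _ => sq_nonneg' _ _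

theorem bd_Mt (hV : ∀ i, ContDiff ℝ 3 (V i)) (hd : ∀ x, dv V x = 0) (h1 : 1 < p) (h2 : p < 2)
    (hLp : Integrable (fun x => nm V x ^ p)) :
    BD V p s C0 Cw (fun c => c.Mt) (3 * ((2 - p) / (6 - p))) := by
  obtain ⟨C, hC, hsob⟩ := ball_sobolev p h1 (by linarith)
  have hp : 0 < p := by linarith
  have hp6 : 0 < 6 - p := by linarith
  have hV1 : ∀ i, ContDiff ℝ 1 (V i) := fun i => (hV i).of_le (by norm_num)
  have cV : ∀ i, Continuous (V i) := fun i => (hV1 i).continuous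
  have cω : ∀ i, Continuous (curl V i) := continuous_curl hV1
  set A := ∫ y, nm V y ^ p with hAdef
  have hA : 0 ≤ A := A_nonneg V p
  have e6 : 0 ≤ 6 / p - 1 := by
    rw [sub_nonneg, le_div_iff₀ hp]; linarith
  -- the sixth power on the ball
  have bQ : BD V p s C0 Cw (fun c => ((c.R + 3 * c.δ) / c.δ) ^ (3 : ℝ)) 0 := by
    have := (Bd.Qpow (Q := Cfg.Q (V := V) (p := p) (s := s) (C0 := C0) (Cw := Cw)) one_le_Q one_le_Y (K := 1) zero_le_one).const_mul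
      one_le_Q one_le_Y (c := 4) (by norm_num)
    have h2 : BD V p s C0 Cw (fun c => (c.R + 3 * c.δ) / c.δ) 0 := by
      refine this.le (fun c => ?_) (fun c => div_nonneg (by linarith [c.hR, c.hδ]) c.hδ.le)
      rw [Real.rpow_one, Q, div_le_iff₀ c.hδ]
      have h := c.hδR
      have : 4 * (c.R / c.δ) * c.δ = 4 * c.R := by have := c.hδ.ne'; field_simp
      rw [this]; linarith
    have h3 := h2.rpow one_le_Q one_le_Y (θ := 3) (by norm_num)
    rwa [zero_mul] at h3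
  have bδ : BD V p s C0 Cw (fun c => c.δ⁻¹ ^ (6 / p - 1)) 0 := by
    have := (bd_δi (V := V) (p := p) (s := s) (C0 := C0) (Cw := Cw)).rpow one_le_Q one_le_Y e6
    rwa [zero_mul] at this
  have bY : BD V p s C0 Cw (fun c => c.Y ^ (1 : ℝ)) 1 := Bd.Ypow one_le_Q one_le_Y 1
  have b1 : BD V p s C0 Cw (fun c => c.Y ^ (1 : ℝ) + A ^ (2 / p) * (((c.R + 3 * c.δ) / c.δ) ^ (3 : ℝ) * c.δ⁻¹ ^ (6 / p - 1))) 1 := by
    have h := (bQ.mul one_le_Q one_le_Y bδ).const_mul one_le_Q one_le_Y (c := A ^ (2 / p)) (by positivity)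
    exact bY.add one_le_Q one_le_Y (h.mono one_le_Q one_le_Y (by norm_num))
  have b2 : BD V p s C0 Cw (fun c => (C * (c.Y ^ (1 : ℝ) + A ^ (2 / p) * (((c.R + 3 * c.δ) / c.δ) ^ (3 : ℝ) * c.δ⁻¹ ^ (6 / p - 1)))) ^ (3 : ℝ)) 3 := by
    have := (b1.const_mul one_le_Q one_le_Y hC.le).rpow one_le_Q one_le_Y (θ := 3) (by norm_num)
    rwa [one_mul] at this
  have b3 := (b2.rpow one_le_Q one_le_Y (θ := (2 - p) / (6 - p)) (div_nonneg (by linarith) hp6.le)).const_mul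
    one_le_Q one_le_Y (c := A ^ (4 / (6 - p))) (by positivity)
  refine b3.le (fun c => ?_) (fun c => c.Mt_nonneg)
  have hδ := c.hδ
  have hR := c.hR
  -- Sobolev
  have h := hsob V (c.R + 3 * c.δ) c.δ hV hd hδ (by linarith)
  rw [show c.R + 3 * c.δ + c.δ = c.R + 4 * c.δ by ring] at h
  have i2 : ∫ x in Metric.ball (0 : E) (c.R + 4 * c.δ), nm V x ^ p ≤ A :=
    setIntegral_le_integral hLp (Eventually.of_forall fun y => Real.rpow_nonneg (nm_nonneg _ _) _)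
  have i0 : 0 ≤ ∫ x in Metric.ball (0 : E) (c.R + 4 * c.δ), nm V x ^ p :=
    setInt_nonneg measurableSet_ball fun _ => Real.rpow_nonneg (nm_nonneg _ _) _
  have e : c.δ ^ (1 - 6 / p) = c.δ⁻¹ ^ (6 / p - 1) := by
    rw [Real.inv_rpow hδ.le, ← Real.rpow_neg hδ.le, neg_sub]
  have e3 : ((c.R + 3 * c.δ) / c.δ) ^ (3 : ℝ) = ((c.R + 3 * c.δ) / c.δ) ^ 3 := by
    rw [show (3 : ℝ) = ((3 : ℕ) : ℝ) by norm_num, Real.rpow_natCast]
  have J0 : 0 ≤ ∫ y in Metric.ball (0 : E) (c.R + 3 * c.δ), sq V y ^ 3 :=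
    setInt_nonneg measurableSet_ball fun _ => pow_nonneg (sq_nonneg' _ _) 3
  have h' : (∫ y in Metric.ball (0 : E) (c.R + 3 * c.δ), sq V y ^ 3) ^ (1 / 3 : ℝ)
      ≤ C * (c.Y ^ (1 : ℝ) + A ^ (2 / p) * (((c.R + 3 * c.δ) / c.δ) ^ (3 : ℝ) * c.δ⁻¹ ^ (6 / p - 1))) := by
    refine h.trans ?_
    rw [e, Real.rpow_one, e3]
    have k1 : (∫ x in Metric.ball (0 : E) (c.R + 4 * c.δ), nm V x ^ p) ^ (2 / p) ≤ A ^ (2 / p) :=
      Real.rpow_le_rpow i0 i2 (by positivity)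
    have k2 : W V (c.R + 4 * c.δ) ≤ c.Y := by rw [c.hYdef]; linarith
    have k3 : 0 ≤ ((c.R + 3 * c.δ) / c.δ) ^ 3 * c.δ⁻¹ ^ (6 / p - 1) := by positivity
    apply mul_le_mul_of_nonneg_left _ hC.le
    apply add_le_add k2
    calc _ ≤ ((c.R + 3 * c.δ) / c.δ) ^ 3 * c.δ⁻¹ ^ (6 / p - 1) * A ^ (2 / p) := mul_le_mul_of_nonneg_left k1 k3
      _ = _ := by ring
  have h6 : ∫ y in Metric.ball (0 : E) (c.R + 3 * c.δ), sq V y ^ 3
      ≤ (C * (c.Y ^ (1 : ℝ) + A ^ (2 / p) * (((c.R + 3 * c.δ) / c.δ) ^ (3 : ℝ) * c.δ⁻¹ ^ (6 / p - 1)))) ^ (3 : ℝ) := by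
    calc _ = ((∫ y in Metric.ball (0 : E) (c.R + 3 * c.δ), sq V y ^ 3) ^ (1 / 3 : ℝ)) ^ (3 : ℝ) := (cube_of_third J0).symm
      _ ≤ _ := Real.rpow_le_rpow (Real.rpow_nonneg J0 _) h' (by norm_num)
  -- interpolation
  have hint := interp_nm (S := Metric.ball (0 : E) (c.R + 3 * c.δ)) (ball_sub' _) cV hp h2 (by norm_num)
  rw [show (6 : ℝ) - 2 = 4 by norm_num] at hint
  have em : c.Mt = ∫ y in Metric.ball (0 : E) (c.R + 3 * c.δ), nm V y ^ (2 : ℝ) := by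
    unfold Mt
    congr 1; funext y
    rw [← nm_sq V y, show (2 : ℝ) = ((2 : ℕ) : ℝ) by norm_num, Real.rpow_natCast]
  rw [em]
  refine hint.trans ?_
  have j2 : ∫ x in Metric.ball (0 : E) (c.R + 3 * c.δ), nm V x ^ p ≤ A :=
    setIntegral_le_integral hLp (Eventually.of_forall fun y => Real.rpow_nonneg (nm_nonneg _ _) _)
  have j0 : 0 ≤ ∫ x in Metric.ball (0 : E) (c.R + 3 * c.δ), nm V x ^ p :=
    setInt_nonneg measurableSet_ball fun _ => Real.rpow_nonneg (nm_nonneg _ _) _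
  rw [mul_comm]
  exact mul_le_mul (Real.rpow_le_rpow j0 j2 (by positivity))
    (Real.rpow_le_rpow J0 h6 (div_nonneg (by linarith) hp6.le)) (Real.rpow_nonneg J0 _) (by positivity)

end Cfg

end Leray
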