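import Pool.Agent.Lib.MP_9b9638_an.Thin3

/-!
# Thin shells: the vector potential
-/

open MeasureTheory Set Filter Topology TopologicalSpace
open scoped NNReal ENNReal

noncomputable section

namespace Leray

namespace Cfg

variable {V : VF} {p s C0 Cw : ℝ}

/-- bound for the far part of the Riesz potential on the shell -/
def Fb (K : ℝ) (c : Cfg V p s C0 Cw) : ℝ := K * (c.δ⁻¹ ^ (1 / p) * c.η⁻¹ ^ (2 / p - 1))

theorem far_le (cV : ∀ i, Continuous (V i)) (h1 : 1 < p) (h2 : p < 2) (hCw : 0 < Cw)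
    (hLp : Integrable (fun x => nm V x ^ p)) :
    ∃ K : ℝ, 0 ≤ K ∧ ∀ c : Cfg V p s C0 Cw, ∀ y ∈ Sh c.r (c.r + c.η), Pf V c.η y ≤ Fb K c := by
  obtain ⟨CF, hCF, hfar⟩ := far_thin p h1 h2
  have hp : 0 < p := by linarith
  set A := ∫ y, nm V y ^ p with hAdef
  have hA : 0 ≤ A := A_nonneg V p
  refine ⟨CF * (4 * Cw * (A + 1)) ^ (1 / p), by positivity, ?_⟩
  intro c y hy
  have hη := c.hη0
  have hδ := c.hδ
  have h := hfar V c.η c.r y cV hLp hη hy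
  refine h.trans ?_
  have hG := c.hG
  have hG0 : 0 ≤ Gw V p ((4 - p) / 2) c.η c.r := Gw_nonneg V p _ _ _ hη
  have h3 : Gw V p ((4 - p) / 2) c.η c.r ^ (1 / p)
      ≤ (4 * Cw * (A + 1)) ^ (1 / p) * (c.η ^ ((1 - (4 - p) / 2) * (1 / p)) * c.δ⁻¹ ^ (1 / p)) := by
    calc _ ≤ (4 * Cw * c.η ^ (1 - (4 - p) / 2) * (A + 1) * c.δ⁻¹) ^ (1 / p) := Real.rpow_le_rpow hG0 hG (by positivity)
      _ = ((4 * Cw * (A + 1)) * (c.η ^ (1 - (4 - p) / 2) * c.δ⁻¹)) ^ (1 / p) := by ring_nf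
      _ = _ := by
        rw [Real.mul_rpow (x := 4 * Cw * (A + 1)) (by positivity) (by positivity),
          Real.mul_rpow (x := c.η ^ (1 - (4 - p) / 2)) (by positivity) (by positivity),
          ← Real.rpow_mul hη.le]
  unfold Fb
  have e : c.η⁻¹ ^ (2 / p - 1) = c.η ^ (1 - 3 / p + (4 - p) / (2 * p)) * c.η ^ ((1 - (4 - p) / 2) * (1 / p)) := by
    rw [Real.inv_rpow hη.le, ← Real.rpow_neg hη.le, ← Real.rpow_add hη]
    congr 1
    field_simp; ring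
  rw [e]
  calc _ ≤ CF * c.η ^ (1 - 3 / p + (4 - p) / (2 * p)) *
        ((4 * Cw * (A + 1)) ^ (1 / p) * (c.η ^ ((1 - (4 - p) / 2) * (1 / p)) * c.δ⁻¹ ^ (1 / p))) :=
        mul_le_mul_of_nonneg_left h3 (by positivity)
    _ = _ := by ring

theorem Fb_nonneg {K : ℝ} (hK : 0 ≤ K) (c : Cfg V p s C0 Cw) : 0 ≤ Fb K c := by
  have := inv_pos.2 c.hη0
  have := inv_pos.2 c.hδ
  unfold Fb; positivity

theorem bd_Fb {K : ℝ} (hK : 0 ≤ K) (h1 : 1 < p) (h2 : p < 2) :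
    BD V p s C0 Cw (fun c => Fb K c) (s * (2 / p - 1)) := by
  have hp : 0 < p := by linarith
  have e : 0 ≤ 2 / p - 1 := by rw [sub_nonneg, le_div_iff₀ hp]; linarith
  have h := ((bd_δi (V := V) (p := p) (s := s) (C0 := C0) (Cw := Cw)).rpow one_le_Q one_le_Y (θ := 1 / p)
    (by positivity)).mul one_le_Q one_le_Y (bd_ηi.rpow one_le_Q one_le_Y e)
  have h' := h.const_mul one_le_Q one_le_Y hK
  rw [zero_mul, zero_add] at h'
  exact h'

/-- square root of the volume of the shell -/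
def vs (c : Cfg V p s C0 Cw) : ℝ := ((volume : Measure E).real (Sh c.r (c.r + c.η))) ^ (1 / 2 : ℝ)

theorem vs_le (c : Cfg V p s C0 Cw) : c.vs ≤ v8 ^ (1 / 2 : ℝ) * (c.r * c.η ^ (1 / 2 : ℝ)) := by
  have hr := c.r_pos
  have hη := c.hη0
  have h := vol_shell hη (r := c.r) (by linarith [c.η_le_r])
  have h8 := v8_pos
  unfold vs
  calc _ ≤ (v8 * c.r ^ 2 * c.η) ^ (1 / 2 : ℝ) := Real.rpow_le_rpow (by positivity) h (by norm_num)
    _ = (v8 * (c.r ^ 2 * c.η)) ^ (1 / 2 : ℝ) := by ring_nf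
    _ = _ := by
      rw [Real.mul_rpow h8.le (by positivity), Real.mul_rpow (by positivity) hη.le, rpow_half_sq hr.le]

theorem vs_nonneg (c : Cfg V p s C0 Cw) : 0 ≤ c.vs := by unfold vs; positivity

/-- the key power count -/
theorem P_eq (c : Cfg V p s C0 Cw) (K : ℝ) :
    c.η⁻¹ ^ 2 * Fb K c * (c.r * c.η ^ (1 / 2 : ℝ)) =
      K * (c.r * c.δ⁻¹ * (c.δ⁻¹ ^ (3 / p - 1 / 2) * c.x⁻¹ ^ (1 / 2 + 2 / p))) := by
  have hη := inv_pos.2 c.hη0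
  have hδ := inv_pos.2 c.hδ
  have hx := inv_pos.2 c.hx0
  have e1 : c.η ^ (1 / 2 : ℝ) = c.η⁻¹ ^ (-(1 / 2) : ℝ) := by
    rw [Real.inv_rpow c.hη0.le, ← Real.rpow_neg c.hη0.le, neg_neg]
  have e2 : c.η⁻¹ ^ 2 = c.η⁻¹ ^ (2 : ℝ) := by
    rw [show (2 : ℝ) = ((2 : ℕ) : ℝ) by norm_num, Real.rpow_natCast]
  have e3 : c.η⁻¹ ^ (2 : ℝ) * c.η⁻¹ ^ (2 / p - 1) * c.η⁻¹ ^ (-(1 / 2) : ℝ) = c.η⁻¹ ^ (1 / 2 + 2 / p) := by
    rw [← Real.rpow_add hη, ← Real.rpow_add hη]; congr 1; ring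
  have e4 : c.η⁻¹ ^ (1 / 2 + 2 / p) = c.δ⁻¹ ^ (1 / 2 + 2 / p) * c.x⁻¹ ^ (1 / 2 + 2 / p) := by
    rw [c.ηi_eq, Real.mul_rpow hδ.le hx.le]
  have e5 : c.δ⁻¹ * c.δ⁻¹ ^ (3 / p - 1 / 2) = c.δ⁻¹ ^ (1 / p) * c.δ⁻¹ ^ (1 / 2 + 2 / p) := by
    nth_rewrite 1 [← Real.rpow_one c.δ⁻¹]
    rw [← Real.rpow_add hδ, ← Real.rpow_add hδ]; congr 1; ring
  unfold Fb
  calc c.η⁻¹ ^ 2 * (K * (c.δ⁻¹ ^ (1 / p) * c.η⁻¹ ^ (2 / p - 1))) * (c.r * c.η ^ (1 / 2 : ℝ))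
      = K * c.r * c.δ⁻¹ ^ (1 / p) * (c.η⁻¹ ^ 2 * c.η⁻¹ ^ (2 / p - 1) * c.η ^ (1 / 2 : ℝ)) := by ring
    _ = K * c.r * c.δ⁻¹ ^ (1 / p) * (c.δ⁻¹ ^ (1 / 2 + 2 / p) * c.x⁻¹ ^ (1 / 2 + 2 / p)) := by rw [e1, e2, e3, e4]
    _ = K * c.r * (c.δ⁻¹ ^ (1 / p) * c.δ⁻¹ ^ (1 / 2 + 2 / p)) * c.x⁻¹ ^ (1 / 2 + 2 / p) := by ring
    _ = _ := by rw [← e5]; ring

theorem bd_P1 {K : ℝ} (hK : 0 ≤ K) (h1 : 1 < p) (h2 : p < 2) :
    BD V p s C0 Cw (fun c => c.η⁻¹ ^ 2 * Fb K c * c.vs) (s * (1 / 2 + 2 / p)) := by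
  have hp : 0 < p := by linarith
  have e : 0 ≤ 3 / p - 1 / 2 := by
    rw [sub_nonneg, le_div_iff₀ hp]; linarith
  have hδ := (bd_δi (V := V) (p := p) (s := s) (C0 := C0) (Cw := Cw)).rpow one_le_Q one_le_Y e
  have hx := (bd_xi (V := V) (p := p) (s := s) (C0 := C0) (Cw := Cw)).rpow one_le_Q one_le_Y (θ := 1 / 2 + 2 / p) (by positivity)
  have h := (((bd_rδ (V := V) (p := p) (s := s) (C0 := C0) (Cw := Cw)).mul one_le_Q one_le_Y
    (hδ.mul one_le_Q one_le_Y hx)).const_mul one_le_Q one_le_Y hK).const_mul one_le_Q one_le_Y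
      (c := v8 ^ (1 / 2 : ℝ)) (by have := v8_pos; positivity)
  rw [zero_mul, zero_add, zero_add] at h
  refine h.le (fun c => ?_) (fun c => ?_)
  · have := Fb_nonneg hK c
    have hη := inv_pos.2 c.hη0
    calc c.η⁻¹ ^ 2 * Fb K c * c.vs ≤ c.η⁻¹ ^ 2 * Fb K c * (v8 ^ (1 / 2 : ℝ) * (c.r * c.η ^ (1 / 2 : ℝ))) :=
          mul_le_mul_of_nonneg_left c.vs_le (by positivity)
      _ = v8 ^ (1 / 2 : ℝ) * (c.η⁻¹ ^ 2 * Fb K c * (c.r * c.η ^ (1 / 2 : ℝ))) := by ring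
      _ = _ := by rw [P_eq c K]
  · have := Fb_nonneg hK c
    have hη := inv_pos.2 c.hη0
    have := c.vs_nonneg
    positivity

theorem bd_P2 {K : ℝ} (hK : 0 ≤ K) (h1 : 1 < p) (h2 : p < 2) :
    BD V p s C0 Cw (fun c => c.r * c.η⁻¹ ^ 2 * Fb K c * c.vs) (s * (1 / 2 + 2 / p)) := by
  have hp : 0 < p := by linarith
  have e : 0 ≤ 3 / p - 3 / 2 := by
    rw [sub_nonneg, le_div_iff₀ hp]; linarith
  have hδ := (bd_δi (V := V) (p := p) (s := s) (C0 := C0) (Cw := Cw)).rpow one_le_Q one_le_Y e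
  have hx := (bd_xi (V := V) (p := p) (s := s) (C0 := C0) (Cw := Cw)).rpow one_le_Q one_le_Y (θ := 1 / 2 + 2 / p) (by positivity)
  have hr := bd_rδ (V := V) (p := p) (s := s) (C0 := C0) (Cw := Cw)
  have h := (((hr.mul one_le_Q one_le_Y hr).mul one_le_Q one_le_Y
    (hδ.mul one_le_Q one_le_Y hx)).const_mul one_le_Q one_le_Y hK).const_mul one_le_Q one_le_Y
      (c := v8 ^ (1 / 2 : ℝ)) (by have := v8_pos; positivity)
  rw [zero_mul, zero_add, zero_add, zero_add] at h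
  refine h.le (fun c => ?_) (fun c => ?_)
  · have hF := Fb_nonneg hK c
    have hη := inv_pos.2 c.hη0
    have hr := c.r_pos
    have e1 : c.δ⁻¹ ^ (3 / p - 1 / 2) = c.δ⁻¹ * c.δ⁻¹ ^ (3 / p - 3 / 2) := by
      nth_rewrite 2 [← Real.rpow_one c.δ⁻¹]
      rw [← Real.rpow_add (inv_pos.2 c.hδ)]; congr 1; ring
    calc c.r * c.η⁻¹ ^ 2 * Fb K c * c.vs ≤ c.r * c.η⁻¹ ^ 2 * Fb K c * (v8 ^ (1 / 2 : ℝ) * (c.r * c.η ^ (1 / 2 : ℝ))) :=
          mul_le_mul_of_nonneg_left c.vs_le (by positivity)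
      _ = v8 ^ (1 / 2 : ℝ) * (c.r * (c.η⁻¹ ^ 2 * Fb K c * (c.r * c.η ^ (1 / 2 : ℝ)))) := by ring
      _ = _ := by rw [P_eq c K, e1]; ring
  · have := Fb_nonneg hK c
    have hη := inv_pos.2 c.hη0
    have := c.vs_nonneg
    have := c.r_pos
    positivity

/-- pointwise bound of the vector potential on the shell -/
theorem psi_bound (cV : ∀ i, Continuous (V i)) (h1 : 1 < p) (h2 : p < 2) (hC0 : 0 < C0)
    (hLp : Integrable (fun x => nm V x ^ p)) {K : ℝ}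
    (hK : ∀ c : Cfg V p s C0 Cw, ∀ y ∈ Sh c.r (c.r + c.η), Pf V c.η y ≤ Fb K c) (c : Cfg V p s C0 Cw)
    {y : E} (hy : y ∈ Sh c.r (c.r + c.η)) : nm c.Ψ y ≤ C0 * (Pn V c.η y + Fb K c) := by
  have h := c.hΨb y
  rw [(riesz_split cV h1 (by linarith) hLp c.hη0 y).2] at h
  have := hK c y hy
  calc _ ≤ C0 * (Pn V c.η y + Pf V c.η y) := h
    _ ≤ _ := by gcongr

/-- gradient of the vector potential in the ball -/
def Nn (c : Cfg V p s C0 Cw) : ℝ := (∫ y in Metric.ball (0 : E) (c.R + 2 * c.δ), gsq c.Ψ y) + 1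

theorem Nn_pos (c : Cfg V p s C0 Cw) : 0 < c.Nn := by
  have : 0 ≤ ∫ y in Metric.ball (0 : E) (c.R + 2 * c.δ), gsq c.Ψ y :=
    setInt_nonneg measurableSet_ball fun _ => gsq_nonneg _ _
  unfold Nn; linarith

theorem bd_Nn (hV : ∀ i, ContDiff ℝ 3 (V i)) (h1 : 1 < p) (h2 : p < 2) (hC0 : 0 < C0)
    (hLp : Integrable (fun x => nm V x ^ p))
    (hMt : BD V p s C0 Cw (fun c => c.Mt) (3 * ((2 - p) / (6 - p)))) :
    BD V p s C0 Cw (fun c => c.Nn) (3 * ((2 - p) / (6 - p))) := by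
  obtain ⟨Cg, hCg, hgrad⟩ := grad_psi
  obtain ⟨Cn, hCn, hnear⟩ := near_ball 2 (by norm_num)
  obtain ⟨CF, hCF, hfar⟩ := far_sup p h1 (by linarith)
  have hp : 0 < p := by linarith
  have hp6 : 0 < 6 - p := by linarith
  have cV : ∀ i, Continuous (V i) := fun i => (hV i).continuous
  set A := ∫ y, nm V y ^ p with hAdef
  have hA : 0 ≤ A := A_nonneg V p
  set e := 3 * ((2 - p) / (6 - p)) with he
  have he0 : 0 ≤ e := mul_nonneg (by norm_num) (div_nonneg (by linarith) hp6.le)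
  set vb := (volume : Measure E).real (Metric.ball (0 : E) 1) with hvb
  have hvb0 : 0 ≤ vb := by positivity
  -- the far part
  have e63 : 0 ≤ 6 / p - 3 := by
    rw [sub_nonneg, le_div_iff₀ hp]; linarith
  have bQ : BD V p s C0 Cw (fun c => ((c.R + 3 * c.δ) / c.δ) ^ (3 : ℝ)) 0 := by
    have := (Bd.Qpow (Q := Cfg.Q (V := V) (p := p) (s := s) (C0 := C0) (Cw := Cw)) one_le_Q one_le_Y (K := 1) zero_le_one).const_mul
      one_le_Q one_le_Y (c := 4) (by norm_num)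
    have h2 : BD V p s C0 Cw (fun c => (c.R + 3 * c.δ) / c.δ) 0 := by
      refine this.le (fun c => ?_) (fun c => div_nonneg (by linarith [c.hR, c.hδ]) c.hδ.le)
      rw [Real.rpow_one, Q, div_le_iff₀ c.hδ]
      have h := c.hδR
      have : 4 * (c.R / c.δ) * c.δ = 4 * c.R := by have := c.hδ.ne'; field_simp
      rw [this]; linarith
    have h3 := h2.rpow one_le_Q one_le_Y (θ := 3) (by norm_num)
    rwa [zero_mul] at h3
  have bδ : BD V p s C0 Cw (fun c => c.δ⁻¹ ^ (6 / p - 3)) 0 := by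
    have := (bd_δi (V := V) (p := p) (s := s) (C0 := C0) (Cw := Cw)).rpow one_le_Q one_le_Y e63
    rwa [zero_mul] at this
  have bfar := ((bQ.mul one_le_Q one_le_Y bδ).mono one_le_Q one_le_Y (e' := e) (by simpa using he0)).const_mul
    one_le_Q one_le_Y (c := Cg * (2 * C0 ^ 2 * (4 * (CF ^ 2 * (2 ^ (6 / p - 2)) * A ^ (2 / p) * vb)))) (by positivity)
  have bnear := hMt.const_mul one_le_Q one_le_Y (c := Cg * (1 + 2 * C0 ^ 2 * Cn ^ 2)) (by positivity)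
  have bone := (Bd.const (Q := Cfg.Q (V := V) (p := p) (s := s) (C0 := C0) (Cw := Cw)) one_le_Q one_le_Y
    (c := Cg + 1) (by positivity)).mono one_le_Q one_le_Y he0
  have ball := (bnear.add one_le_Q one_le_Y bfar).add one_le_Q one_le_Y bone
  refine ball.le (fun c => ?_) (fun c => c.Nn_pos.le)
  have hδ := c.hδ
  have hR := c.hR
  have hδR := c.hδR
  have hΨ1 : ∀ i, ContDiff ℝ 1 (c.Ψ i) := fun i => (c.hΨC i).of_le (by norm_num)
  have cΨ : ∀ i, Continuous (c.Ψ i) := fun i => (hΨ1 i).continuous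
  -- gradient estimate
  have g := hgrad V c.Ψ (c.R + 2 * c.δ) (c.δ / 2) c.ε hV c.hΨC c.hΨd (by positivity) (by linarith) c.hε
    (fun x hx => c.hΨe x (by linarith))
  -- first integral
  have hsub : Metric.ball (0 : E) (c.R + 2 * c.δ + c.δ / 2) ⊆ Metric.ball 0 (c.R + 3 * c.δ) :=
    Metric.ball_subset_ball (by linarith)
  have g1 : ∫ x in Metric.ball (0 : E) (c.R + 2 * c.δ + c.δ / 2), (sq V x + c.ε ^ 2) ≤ c.Mt + 1 := by
    calc _ ≤ ∫ x in Metric.ball (0 : E) (c.R + 3 * c.δ), (sq V x + c.ε ^ 2) :=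
          set_mono hsub (ball_sub' _) ((continuous_sq cV).add continuous_const) fun x => by
            have := sq_nonneg' V x; positivity
      _ = c.Mt + c.ε ^ 2 * (volume : Measure E).real (Metric.ball 0 (c.R + 3 * c.δ)) := by
          rw [integral_add (cont_int_on (ball_sub' _) (continuous_sq cV)) (cont_int_on (ball_sub' _) continuous_const)]
          simp only [integral_const, smul_eq_mul, Measure.real, Measure.restrict_apply_univ]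
          unfold Mt
          ring
      _ ≤ _ := by linarith [c.hvol]
  -- second integral
  have hρ : 0 < c.δ / 2 := by positivity
  have cP := continuous_Pn cV hρ
  set F := CF * (c.δ / 2) ^ (1 - 3 / p) * A ^ (1 / p) with hF
  have hF0 : 0 ≤ F := by positivity
  have hpt : ∀ y, sq c.Ψ y ≤ 2 * C0 ^ 2 * (Pn V (c.δ / 2) y ^ 2 + F ^ 2) := by
    intro y
    have h := c.hΨb y
    rw [(riesz_split cV h1 (by linarith) hLp hρ y).2] at h
    have h2 := hfar V (c.δ / 2) y cV hLp hρ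
    have hP0 := Pn_nonneg V (c.δ / 2) y
    have h3 : nm c.Ψ y ≤ C0 * (Pn V (c.δ / 2) y + F) := by
      calc _ ≤ C0 * (Pn V (c.δ / 2) y + Pf V (c.δ / 2) y) := h
        _ ≤ _ := by gcongr
    rw [← nm_sq]
    calc nm c.Ψ y ^ 2 ≤ (C0 * (Pn V (c.δ / 2) y + F)) ^ 2 := by
          have := nm_nonneg c.Ψ y
          gcongr
      _ ≤ _ := by nlinarith [mul_nonneg (sq_nonneg C0) (sq_nonneg (Pn V (c.δ / 2) y - F))]
  have g2 : ∫ x in Metric.ball (0 : E) (c.R + 2 * c.δ + c.δ / 2), sq c.Ψ x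
      ≤ 2 * C0 ^ 2 * ((Cn * (c.δ / 2)) ^ 2 * c.Mt + F ^ 2 * ((c.R + 3 * c.δ) ^ 3 * vb)) := by
    have k1 : ∫ x in Metric.ball (0 : E) (c.R + 2 * c.δ + c.δ / 2), sq c.Ψ x
        ≤ ∫ x in Metric.ball (0 : E) (c.R + 2 * c.δ + c.δ / 2), 2 * C0 ^ 2 * (Pn V (c.δ / 2) x ^ 2 + F ^ 2) := by
      apply setIntegral_mono_on (cont_int_on (ball_sub' _) (continuous_sq cΨ)) _ measurableSet_ball
      · intro x _; exact hpt x
      · exact cont_int_on (ball_sub' _) (by fun_prop)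
    refine k1.trans ?_
    rw [integral_const_mul, integral_add (cont_int_on (ball_sub' _) (by fun_prop)) (cont_int_on (ball_sub' _) continuous_const)]
    have k2 := hnear V (c.R + 2 * c.δ + c.δ / 2) (c.δ / 2) cV hρ
    rw [show c.R + 2 * c.δ + c.δ / 2 + c.δ / 2 = c.R + 3 * c.δ by ring] at k2
    simp only [nm_sq] at k2
    have k3 : ∫ _ in Metric.ball (0 : E) (c.R + 2 * c.δ + c.δ / 2), F ^ 2 ≤ F ^ 2 * ((c.R + 3 * c.δ) ^ 3 * vb) := by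
      calc _ ≤ ∫ _ in Metric.ball (0 : E) (c.R + 3 * c.δ), F ^ 2 :=
            set_mono hsub (ball_sub' _) continuous_const fun x => by positivity
        _ = _ := by
            simp only [integral_const, smul_eq_mul, Measure.real, Measure.restrict_apply_univ]
            rw [← Measure.real, vol_ball (by linarith)]
            ring
    have : 0 ≤ 2 * C0 ^ 2 := by positivity
    exact mul_le_mul_of_nonneg_left (add_le_add k2 k3) this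
  -- assembling
  have hδi := inv_pos.2 hδ
  have eF : (c.δ / 2)⁻¹ ^ 2 * (F ^ 2 * ((c.R + 3 * c.δ) ^ 3 * vb)) =
      4 * (CF ^ 2 * (2 ^ (6 / p - 2)) * A ^ (2 / p) * vb) * (((c.R + 3 * c.δ) / c.δ) ^ (3 : ℝ) * c.δ⁻¹ ^ (6 / p - 3)) := by
    have e3 : ((c.R + 3 * c.δ) / c.δ) ^ (3 : ℝ) = (c.R + 3 * c.δ) ^ 3 * c.δ⁻¹ ^ 3 := by
      rw [show (3 : ℝ) = ((3 : ℕ) : ℝ) by norm_num, Real.rpow_natCast]
      push_cast
      rw [div_eq_mul_inv, mul_pow]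
    have eA : (A ^ (1 / p)) ^ 2 = A ^ (2 / p) := by
      rw [← Real.rpow_natCast (A ^ (1 / p)) 2, ← Real.rpow_mul hA]; congr 1; push_cast; ring
    have ed : ((c.δ / 2) ^ (1 - 3 / p)) ^ 2 = 2 ^ (6 / p - 2) * c.δ⁻¹ ^ (6 / p - 2) := by
      rw [← Real.rpow_natCast ((c.δ / 2) ^ (1 - 3 / p)) 2, ← Real.rpow_mul (by positivity)]
      have : c.δ / 2 = (2 * c.δ⁻¹)⁻¹ := by field_simp
      rw [this, Real.inv_rpow (by positivity), ← Real.rpow_neg (by positivity), Real.mul_rpow (by norm_num) hδi.le]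
      have : -((1 - 3 / p) * ((2 : ℕ) : ℝ)) = 6 / p - 2 := by push_cast; ring
      rw [this]
    have e6 : c.δ⁻¹ ^ 2 * c.δ⁻¹ ^ (6 / p - 2) = c.δ⁻¹ ^ 3 * c.δ⁻¹ ^ (6 / p - 3) := by
      rw [← Real.rpow_natCast c.δ⁻¹ 2, ← Real.rpow_natCast c.δ⁻¹ 3, ← Real.rpow_add hδi, ← Real.rpow_add hδi]
      congr 1; push_cast; ring
    have ehalf : (c.δ / 2)⁻¹ ^ 2 = 4 * c.δ⁻¹ ^ 2 := by
      rw [inv_div, div_eq_mul_inv, mul_pow]; norm_num
    rw [hF, mul_pow, mul_pow, eA, ed, ehalf, e3]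
    calc _ = 4 * (CF ^ 2 * 2 ^ (6 / p - 2) * A ^ (2 / p) * vb) * (c.R + 3 * c.δ) ^ 3 * (c.δ⁻¹ ^ 2 * c.δ⁻¹ ^ (6 / p - 2)) := by ring
      _ = _ := by rw [e6]; ring
  have eN : (c.δ / 2)⁻¹ ^ 2 * ((Cn * (c.δ / 2)) ^ 2 * c.Mt) = Cn ^ 2 * c.Mt := by
    have : c.δ ≠ 0 := hδ.ne'
    field_simp
  unfold Nn
  have hδ2 : 0 ≤ (c.δ / 2)⁻¹ ^ 2 := by positivity
  have g3 := mul_le_mul_of_nonneg_left g2 hδ2
  have g4 : (c.δ / 2)⁻¹ ^ 2 * (2 * C0 ^ 2 * ((Cn * (c.δ / 2)) ^ 2 * c.Mt + F ^ 2 * ((c.R + 3 * c.δ) ^ 3 * vb)))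
      = 2 * C0 ^ 2 * (Cn ^ 2 * c.Mt + 4 * (CF ^ 2 * (2 ^ (6 / p - 2)) * A ^ (2 / p) * vb) * (((c.R + 3 * c.δ) / c.δ) ^ (3 : ℝ) * c.δ⁻¹ ^ (6 / p - 3))) := by
    rw [← eF, ← eN]; ring
  rw [g4] at g3
  have g5 := g.trans (mul_le_mul_of_nonneg_left (add_le_add g1 g3) hCg.le)
  refine (add_le_add g5 le_rfl).trans (le_of_eq ?_)
  ring

/-- gradient of the vector potential on the shell -/
def Ns (c : Cfg V p s C0 Cw) : ℝ := ∫ y in Sh c.r (c.r + c.η), gsq c.Ψ y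

theorem Ns_nonneg (c : Cfg V p s C0 Cw) : 0 ≤ c.Ns := setInt_nonneg (measurableSet_Sh _ _) fun _ => gsq_nonneg _ _

theorem bd_Ns {e : ℝ} (h : BD V p s C0 Cw (fun c => c.Nn) e) : BD V p s C0 Cw (fun c => c.Ns) (e - s) := by
  have := (bd_x.mul one_le_Q one_le_Y h).const_mul one_le_Q one_le_Y (c := 4) (by norm_num)
  rw [show -s + e = e - s by ring] at this
  refine this.le (fun c => ?_) (fun c => c.Ns_nonneg)
  have := c.hN
  unfold Ns Nn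
  linarith

end Cfg

end Leray
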